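import Pool.Agent.Lib.MP_c2d01e_co.Ex.Hom
import Pool.Agent.Lib.MP_c2d01e_co.Ex.CGC

/-!
# The groups of family (C) act on the lattice modulo `n`

The homomorphisms of the groups of family (C) with equal lattices to every group with the relations of `[3,3,3,4,3]`
and `T ^ (2 n) = 1` (vectors `(n,n,0,0), (n,n,n,n)`), `X ^ n = 1` (vectors `(n,0,0,0), (n,n,0,0)`), and the resulting
actions on `V` modulo `2 n`, `n`.
-/

set_option autoImplicit false

namespace Pool.Agent.Lib.MP_c2d01e_co.ExHom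

open Pool.Agent.Lib.MP_c2d01e_co.EqDefs Pool.Agent.Lib.MP_c2d01e_co.GcdW

section

variable {G : Type} [Group G]

/-- The images of the generators in family (C). -/
def rC (a b c d e f : G) : Fin 6 → G := ![c, d, e, f, b * sg c d e * b, a]

theorem rC0 (a b c d e f : G) : rC a b c d e f 0 = c := rfl

theorem rC1 (a b c d e f : G) : rC a b c d e f 1 = d := rfl

theorem rC2 (a b c d e f : G) : rC a b c d e f 2 = e := rfl

theorem rC3 (a b c d e f : G) : rC a b c d e f 3 = f := rfl

theorem rC4 (a b c d e f : G) : rC a b c d e f 4 = b * sg c d e * b := rfl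

theorem rC5 (a b c d e f : G) : rC a b c d e f 5 = a := rfl

theorem coxC_symm (i j : Fin 6) : coxC i j = coxC j i := by
  revert i j
  decide

theorem rC_cox {a b c d e f : G} (h : Rel a b c d e f) (i j : Fin 6) :
    (rC a b c d e f i * rC a b c d e f j) ^ coxC i j = 1 := by
  refine coxall coxC_symm ?_ i j
  intro i j hij
  fin_cases i <;> fin_cases j
  · exact p1 h.cc
  · exact p3 h.cc h.dd h.cdc
  · exact p2 h.cc h.ee h.ce
  · exact p2 h.cc h.ff h.cf
  · exact p2 h.cc (LL h) (cL h)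
  · exact p2 h.cc h.aa h.ac.symm
  · exact absurd hij (by decide)
  · exact p1 h.dd
  · exact p4 h.dd h.ee h.dede
  · exact p2 h.dd h.ff h.df
  · exact p2 h.dd (LL h) (dL h)
  · exact p2 h.dd h.aa h.ad.symm
  · exact absurd hij (by decide)
  · exact absurd hij (by decide)
  · exact p1 h.ee
  · exact p3 h.ee h.ff h.efe
  · exact p2 h.ee (LL h) (eL h)
  · exact p2 h.ee h.aa h.ae.symm
  · exact absurd hij (by decide)
  · exact absurd hij (by decide)
  · exact absurd hij (by decide)
  · exact p1 h.ff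
  · exact p3 h.ff (LL h) (fL h)
  · exact p2 h.ff h.aa h.af.symm
  · exact absurd hij (by decide)
  · exact absurd hij (by decide)
  · exact absurd hij (by decide)
  · exact absurd hij (by decide)
  · exact p1 (LL h)
  · exact p4 (LL h) h.aa (La h)
  · exact absurd hij (by decide)
  · exact absurd hij (by decide)
  · exact absurd hij (by decide)
  · exact absurd hij (by decide)
  · exact absurd hij (by decide)
  · exact p1 h.aa

/-- The relators of the vectors `(n,0,0,0)`, `(n,n,0,0)`. -/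
theorem liftC1 {a b c d e f : G} (h : Rel a b c d e f) (n : ℕ)
    (hX : ((b * sg c d e * ta d e f) * (b * sg c d e * ta d e f)) ^ n = 1) :
    ∀ x ∈ relsC n 1 n 2, FreeGroup.lift (rC a b c d e f) x = 1 := by
  rintro x (⟨i, j, rfl⟩ | hx | hx)
  · rw [map_pow, map_mul, gen, gen, FreeGroup.lift_apply_of, FreeGroup.lift_apply_of]
    exact rC_cox h i j
  · rw [hx]
    unfold facetC
    rw [if_pos rfl, map_pow, ← hX, X_eq h]
    congr 1
    simp only [sC, tC, gen, sg, ta, map_mul, FreeGroup.lift_apply_of, rC0, rC1, rC2, rC3, rC4,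
      mul_assoc]
  · rw [Set.mem_singleton_iff.1 hx]
    unfold vertC
    rw [if_neg (by norm_num), if_pos rfl, map_pow, ← vC2 h n hX]
    congr 1
    simp only [gen, map_mul, FreeGroup.lift_apply_of, rC1, rC2, rC3, rC4, rC5, sg, mul_assoc]

/-- The relators of the vectors `(n,n,0,0)`, `(n,n,n,n)`. -/
theorem liftC2 {a b c d e f : G} (h : Rel a b c d e f) (n : ℕ)
    (hT : (tT b (sg c d e) (ta d e f)) ^ (2 * n) = 1) :
    ∀ x ∈ relsC n 2 n 4, FreeGroup.lift (rC a b c d e f) x = 1 := by
  rintro x (⟨i, j, rfl⟩ | hx | hx)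
  · rw [map_pow, map_mul, gen, gen, FreeGroup.lift_apply_of, FreeGroup.lift_apply_of]
    exact rC_cox h i j
  · rw [hx]
    unfold facetC
    rw [if_neg (by norm_num), map_pow, ← Y_powT h n hT]
    congr 1
    simp only [sC, tC, gen, sg, ta, map_mul, FreeGroup.lift_apply_of, rC0, rC1, rC2, rC3, rC4,
      mul_assoc]
  · rw [Set.mem_singleton_iff.1 hx]
    unfold vertC
    rw [if_neg (by norm_num), if_neg (by norm_num), map_pow, ← vC4T h n hT]
    congr 1
    simp only [gen, map_mul, FreeGroup.lift_apply_of, rC1, rC2, rC3, rC4, rC5, sg, mul_assoc]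

end

/-! ### The action -/

theorem PN_rC (n : ℕ) (i : Fin 6) (v : V) :
    rC (CGroup.PN n 0) (CGroup.PN n 1) (CGroup.PN n 2) (CGroup.PN n 3) (CGroup.PN n 4)
      (CGroup.PN n 5) i (CGroup.pi n v) = CGroup.pi n (CGroupC.C i v) := by
  fin_cases i
  · exact CGroup.PN_pi n 2 v
  · exact CGroup.PN_pi n 3 v
  · exact CGroup.PN_pi n 4 v
  · exact CGroup.PN_pi n 5 v
  · show (CGroup.PN n 1 * (CGroup.PN n 2 * (CGroup.PN n 3 * CGroup.PN n 4 *
      CGroup.PN n 3) * CGroup.PN n 2) * CGroup.PN n 1) (CGroup.pi n v) =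
      CGroup.pi n (CGroupC.C 4 v)
    rw [CGroupC.C_four]
    simp only [Equiv.Perm.mul_apply, CGroup.PN_pi]
  · exact CGroup.PN_pi n 0 v

/-- The group with the vectors `(n,0,0,0)`, `(n,n,0,0)` acts on the lattice modulo `n`. -/
theorem actC1 (n : ℕ) : ∃ φ : GamC n 1 n 2 →* Equiv.Perm (CGroup.VN n),
    ∀ i v, φ (PresentedGroup.of i) (CGroup.pi n v) = CGroup.pi n (CGroupC.C i v) :=
  ⟨PresentedGroup.toGroup (liftC1 (rel n) n (X_pow (rel n) n (TN n))), fun i v => by
    rw [PresentedGroup.toGroup.of]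
    exact PN_rC n i v⟩

/-- The group with the vectors `(n,n,0,0)`, `(n,n,n,n)` acts on the lattice modulo `2 n`. -/
theorem actC2 (n : ℕ) : ∃ φ : GamC n 2 n 4 →* Equiv.Perm (CGroup.VN (2 * n)),
    ∀ i v, φ (PresentedGroup.of i) (CGroup.pi (2 * n) v) =
      CGroup.pi (2 * n) (CGroupC.C i v) :=
  ⟨PresentedGroup.toGroup (liftC2 (rel (2 * n)) n (TN (2 * n))), fun i v => by
    rw [PresentedGroup.toGroup.of]
    exact PN_rC (2 * n) i v⟩

/-- The Coxeter relations of the generators. -/
theorem of_coxC (t k u l : ℕ) (i j : Fin 6) :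
    ((PresentedGroup.of i * PresentedGroup.of j : GamC t k u l)) ^ coxC i j = 1 := by
  have h : (PresentedGroup.mk (relsC t k u l)) ((gen i * gen j) ^ coxC i j) = 1 :=
    PresentedGroup.one_of_mem (Or.inl ⟨i, j, rfl⟩)
  rw [map_pow, map_mul] at h
  exact h

end Pool.Agent.Lib.MP_c2d01e_co.ExHom
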