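import Pool.Agent.Lib.MP_c2d01e_co.Ex.ActN
import Pool.Agent.Lib.MP_c2d01e_co.Ex.HomC

/-!
# The group of family (C) acts on the lattice modulo `n N` (helper19)
-/

set_option autoImplicit false

namespace Pool.Agent.Lib.MP_c2d01e_co.Ex.ActCN19

open EqDefs CGroup ActN
open Pool.Agent.Lib.MP_c2d01e_co.GcdW Pool.Agent.Lib.MP_c2d01e_co.ExHom

theorem PX_rC (n : ℕ) (i : Fin 6) (v : V) :
    rC (PX n 0) (PX n 1) (PX n 2) (PX n 3) (PX n 4) (PX n 5) i (piN n v) =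
      piN n (CGroupC.C i v) := by
  fin_cases i
  · exact PX_pi n 2 v
  · exact PX_pi n 3 v
  · exact PX_pi n 4 v
  · exact PX_pi n 5 v
  · show (PX n 1 * (PX n 2 * (PX n 3 * PX n 4 * PX n 3) * PX n 2) * PX n 1) (piN n v) =
      piN n (CGroupC.C 4 v)
    rw [CGroupC.C_four]
    simp only [Equiv.Perm.mul_apply, PX_pi]
  · exact PX_pi n 0 v

/-- The action of the group of family (C) on `V / n N`. -/
theorem actCN (n : ℕ) : ∃ φ : GamC n 1 n 2 →* Equiv.Perm (XN n),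
    ∀ i v, φ (PresentedGroup.of i) (piN n v) = piN n (CGroupC.C i v) :=
  ⟨PresentedGroup.toGroup (liftC1 (relX n) n (X_pow n)), fun i v => by
    rw [PresentedGroup.toGroup.of]
    exact PX_rC n i v⟩

/-- The difference of two vectors with the same image. -/
theorem diffN {n : ℕ} {v w : V} (h : piN n v = piN n w) :
    ∃ u : V, inN u = true ∧ v = w + (n : ℤ) • u := by
  obtain ⟨u, hu, e⟩ := QuotientAddGroup.eq.1 h.symm
  exact ⟨u, hu, by rw [← e]; abel⟩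

/-- The separation in terms of coordinates. -/
theorem sepN {n : ℕ} {v w : V} (h : piN n v = piN n w) :
    (2 * n : ℤ) ∣ (v - w).1.1 ∧ (n : ℤ) ∣ (v - w).1.2.1 ∧ (n : ℤ) ∣ (v - w).1.2.2.1 ∧
      (n : ℤ) ∣ (v - w).1.2.2.2 ∧
      (2 * n : ℤ) ∣ (v - w).1.2.1 + (v - w).1.2.2.1 + (v - w).1.2.2.2 ∧
      (2 * n : ℤ) ∣ (v - w).2.1 ∧ (2 * n : ℤ) ∣ (v - w).2.2 := by
  obtain ⟨u, hu, rfl⟩ := diffN h
  rw [add_sub_cancel_left]
  obtain ⟨⟨p, x, y, z⟩, a, b⟩ := u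
  simp only [inN, Bool.and_eq_true, beq_iff_eq] at hu
  obtain ⟨⟨⟨h1, h2⟩, h3⟩, h4⟩ := hu
  obtain ⟨p', rfl⟩ : ∃ q', p = 2 * q' := ⟨p / 2, by omega⟩
  obtain ⟨r, hr⟩ : ∃ r, x + y + z = 2 * r := ⟨(x + y + z) / 2, by omega⟩
  obtain ⟨a', rfl⟩ : ∃ q', a = 2 * q' := ⟨a / 2, by omega⟩
  obtain ⟨b', rfl⟩ : ∃ q', b = 2 * q' := ⟨b / 2, by omega⟩
  simp only [Prod.smul_mk, smul_eq_mul]
  exact ⟨⟨p', by ring⟩, ⟨x, rfl⟩, ⟨y, rfl⟩, ⟨z, rfl⟩,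
    ⟨r, by rw [← mul_add, ← mul_add, hr]; ring⟩, ⟨a', by ring⟩, ⟨b', by ring⟩⟩

/-- The projection modulo `n` factors. -/
theorem pi_of_piN {n : ℕ} {v w : V} (h : piN n v = piN n w) : CGroup.pi n v = CGroup.pi n w := by
  obtain ⟨u, _, rfl⟩ := diffN h
  obtain ⟨⟨p, x, y, z⟩, a, b⟩ := u
  obtain ⟨⟨p', x', y', z'⟩, a', b'⟩ := w
  simp [CGroup.pi]

/-- Near vectors have different images. -/
theorem nearN (n : ℕ) (hn : 3 ≤ n) (v w : V) (h : CGroupB.nearB v w = true) :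
    piN n v ≠ piN n w := fun e => CGroupB.nearB_pi n hn v w h (pi_of_piN e)

end Pool.Agent.Lib.MP_c2d01e_co.Ex.ActCN19
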