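import Pool.Agent.Lib.MP_c2d01e_co.Ex.EmbB3

/-!
# The action on the lattice modulo `n N`

`N` consists of the vectors `(h, a, b)` with `h` in `(1 + i) H` and `a, b` even. The reflections act on
`V / n N`; a translation by `n y` acts trivially if and only if `y` lies in `(1 + i) H`.
-/

set_option autoImplicit false

namespace Pool.Agent.Lib.MP_c2d01e_co.Ex.ActN

open Subgroup EqDefs CGroupB CGroup
open Pool.Agent.Lib.MP_c2d01e_co.Ex.Wrd (Cox ev pp)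
open Pool.Agent.Lib.MP_c2d01e_co.Ex.WrdQ (tq trq)
open Pool.Agent.Lib.MP_c2d01e_co.GcdW Pool.Agent.Lib.MP_c2d01e_co.ExHom

/-- The lattice `N`. -/
def inN (v : V) : Bool :=
  (v.1.1 % 2 == 0) && ((v.1.2.1 + v.1.2.2.1 + v.1.2.2.2) % 2 == 0) && (v.2.1 % 2 == 0) &&
  (v.2.2 % 2 == 0)

theorem inN_R (i : Fin 6) (v : V) (h : inN v = true) : inN (R i v) = true := by
  obtain ⟨⟨p, x, y, z⟩, a, b⟩ := v
  simp only [inN, Bool.and_eq_true, beq_iff_eq] at h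
  obtain ⟨⟨⟨h1, h2⟩, h3⟩, h4⟩ := h
  fin_cases i <;> simp only [R, inN, Bool.and_eq_true, beq_iff_eq] <;> refine ⟨⟨⟨?_, ?_⟩, ?_⟩, ?_⟩ <;>
    omega

theorem inN_add (v w : V) (hv : inN v = true) (hw : inN w = true) : inN (v + w) = true := by
  obtain ⟨⟨p, x, y, z⟩, a, b⟩ := v
  obtain ⟨⟨p', x', y', z'⟩, a', b'⟩ := w
  simp only [inN, Bool.and_eq_true, beq_iff_eq, Prod.mk_add_mk] at hv hw ⊢
  obtain ⟨⟨⟨h1, h2⟩, h3⟩, h4⟩ := hv
  obtain ⟨⟨⟨g1, g2⟩, g3⟩, g4⟩ := hw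
  refine ⟨⟨⟨?_, ?_⟩, ?_⟩, ?_⟩ <;> omega

theorem inN_neg (v : V) (hv : inN v = true) : inN (-v) = true := by
  obtain ⟨⟨p, x, y, z⟩, a, b⟩ := v
  simp only [inN, Bool.and_eq_true, beq_iff_eq, Prod.neg_mk] at hv ⊢
  obtain ⟨⟨⟨h1, h2⟩, h3⟩, h4⟩ := hv
  refine ⟨⟨⟨?_, ?_⟩, ?_⟩, ?_⟩ <;> omega

/-- The lattice `n N`. -/
def NN (n : ℕ) : AddSubgroup V where
  carrier := {v | ∃ w : V, inN w = true ∧ v = (n : ℤ) • w}
  add_mem' := by
    rintro v w ⟨v', hv, rfl⟩ ⟨w', hw, rfl⟩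
    exact ⟨v' + w', inN_add _ _ hv hw, by rw [smul_add]⟩
  zero_mem' := ⟨0, by decide, by rw [smul_zero]⟩
  neg_mem' := by
    rintro v ⟨v', hv, rfl⟩
    exact ⟨-v', inN_neg _ hv, by rw [smul_neg]⟩

/-- The lattice modulo `n N`. -/
abbrev XN (n : ℕ) : Type := V ⧸ NN n

/-- The projection. -/
def piN (n : ℕ) (v : V) : XN n := QuotientAddGroup.mk v

/-- The reflection as a homomorphism. -/
def RH (i : Fin 6) : V →+ V where
  toFun := R i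
  map_zero' := by
    have h := R_smul i 0 (0 : V)
    simpa using h
  map_add' := R_add i

theorem RH_mem (n : ℕ) (i : Fin 6) : NN n ≤ (NN n).comap (RH i) := by
  rintro v ⟨w, hw, rfl⟩
  exact ⟨R i w, inN_R i w hw, R_smul i n w⟩

/-- The reflection on the quotient. -/
def RX (n : ℕ) (i : Fin 6) : XN n →+ XN n := QuotientAddGroup.map _ _ (RH i) (RH_mem n i)

theorem RX_pi (n : ℕ) (i : Fin 6) (v : V) : RX n i (piN n v) = piN n (R i v) := rfl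

theorem piN_surj (n : ℕ) (x : XN n) : ∃ v, piN n v = x := QuotientAddGroup.mk_surjective x

/-- The permutation. -/
def PX (n : ℕ) (i : Fin 6) : Equiv.Perm (XN n) where
  toFun := RX n i
  invFun := RX n i
  left_inv x := by
    obtain ⟨v, rfl⟩ := piN_surj n x
    rw [RX_pi, RX_pi, R_R]
  right_inv x := by
    obtain ⟨v, rfl⟩ := piN_surj n x
    rw [RX_pi, RX_pi, R_R]

theorem PX_pi (n : ℕ) (i : Fin 6) (v : V) : PX n i (piN n v) = piN n (R i v) := rfl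

theorem eq_one_piN (n : ℕ) (g : Equiv.Perm (XN n)) (h : ∀ v, g (piN n v) = piN n v) : g = 1 := by
  ext x
  obtain ⟨v, rfl⟩ := piN_surj n x
  rw [h]
  rfl

theorem pow_piN (n : ℕ) (g : Equiv.Perm (XN n)) (f : V → V) (h : ∀ v, g (piN n v) = piN n (f v))
    (m : ℕ) (v : V) : (g ^ m) (piN n v) = piN n (f^[m] v) := by
  induction m generalizing v with
  | zero => rfl
  | succ m ih =>
    rw [pow_succ, Equiv.Perm.mul_apply, h, ih, Function.iterate_succ_apply]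

theorem PX_sq (n : ℕ) (i : Fin 6) : PX n i * PX n i = 1 := by
  apply eq_one_piN
  intro v
  rw [Equiv.Perm.mul_apply, PX_pi, PX_pi, R_R]

theorem PX_cox (n : ℕ) (i j : Fin 6) (m : ℕ) (hm : CGroup.cox i j = m) :
    (PX n i * PX n j) ^ m = 1 := by
  subst hm
  apply eq_one_piN
  intro v
  rw [pow_piN n (PX n i * PX n j) (fun v => R i (R j v)) (fun v => by
    rw [Equiv.Perm.mul_apply, PX_pi, PX_pi]), R_cox]

theorem relX (n : ℕ) : Rel (PX n 0) (PX n 1) (PX n 2) (PX n 3) (PX n 4) (PX n 5) where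
  aa := PX_sq n 0
  bb := PX_sq n 1
  cc := PX_sq n 2
  dd := PX_sq n 3
  ee := PX_sq n 4
  ff := PX_sq n 5
  aba := GcdW.q3 (PX_sq n 0) (PX_sq n 1) (PX_cox n 0 1 3 (by decide))
  bcb := GcdW.q3 (PX_sq n 1) (PX_sq n 2) (PX_cox n 1 2 3 (by decide))
  cdc := GcdW.q3 (PX_sq n 2) (PX_sq n 3) (PX_cox n 2 3 3 (by decide))
  dede := GcdW.q4 (PX_sq n 3) (PX_sq n 4) (PX_cox n 3 4 4 (by decide))
  efe := GcdW.q3 (PX_sq n 4) (PX_sq n 5) (PX_cox n 4 5 3 (by decide))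
  ac := GcdW.q2 (PX_sq n 0) (PX_sq n 2) (PX_cox n 0 2 2 (by decide))
  ad := GcdW.q2 (PX_sq n 0) (PX_sq n 3) (PX_cox n 0 3 2 (by decide))
  ae := GcdW.q2 (PX_sq n 0) (PX_sq n 4) (PX_cox n 0 4 2 (by decide))
  af := GcdW.q2 (PX_sq n 0) (PX_sq n 5) (PX_cox n 0 5 2 (by decide))
  bd := GcdW.q2 (PX_sq n 1) (PX_sq n 3) (PX_cox n 1 3 2 (by decide))
  be := GcdW.q2 (PX_sq n 1) (PX_sq n 4) (PX_cox n 1 4 2 (by decide))
  bf := GcdW.q2 (PX_sq n 1) (PX_sq n 5) (PX_cox n 1 5 2 (by decide))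
  ce := GcdW.q2 (PX_sq n 2) (PX_sq n 4) (PX_cox n 2 4 2 (by decide))
  cf := GcdW.q2 (PX_sq n 2) (PX_sq n 5) (PX_cox n 2 5 2 (by decide))
  df := GcdW.q2 (PX_sq n 3) (PX_sq n 5) (PX_cox n 3 5 2 (by decide))

/-- The word `X` in the reflections with the numbers `1, …, 5`. -/
def wX : List ℕ := [0, 1, 2, 3, 2, 1, 4, 3, 2, 3, 4, 0, 1, 2, 3, 2, 1, 4, 3, 2, 3, 4]

theorem wX_E (v : V) : wX.foldr bF v = E (2, 0, -1, -1) v :=
  foldr_E bF_add bF_smul wX (2, 0, -1, -1) (by decide +kernel) v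

/-- A translation by a vector of `n (1 + i) H` acts trivially. -/
theorem E_piN (n : ℕ) (y : H4) (hy : inN (y, 0, 0) = true) (v : V) :
    piN n (E ((n : ℤ) • y) v) = piN n v := by
  apply Eq.symm
  apply QuotientAddGroup.eq.2
  obtain ⟨⟨p, x, y1, z⟩, a, b⟩ := v
  obtain ⟨q, q1, q2, q3⟩ := y
  simp only [inN, Bool.and_eq_true, beq_iff_eq] at hy
  obtain ⟨⟨⟨h1, h2⟩, _⟩, _⟩ := hy
  obtain ⟨q', rfl⟩ : ∃ q', q = 2 * q' := ⟨q / 2, by omega⟩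
  obtain ⟨r, hr⟩ : ∃ r, q1 + q2 + q3 = 2 * r := ⟨(q1 + q2 + q3) / 2, by omega⟩
  obtain rfl : q3 = 2 * r - q1 - q2 := by omega
  refine ⟨((b * (2 * q'), b * q1, b * q2, b * (2 * r - q1 - q2)),
    -(bil (p, x, y1, z) (2 * q', q1, q2, 2 * r - q1 - q2)) -
      n * nm (2 * q', q1, q2, 2 * r - q1 - q2) * b, 0), ?_, ?_⟩
  · simp only [inN, bil, nm, Bool.and_eq_true, beq_iff_eq]
    refine ⟨⟨⟨?_, ?_⟩, ?_⟩, ?_⟩
    · exact Int.emod_eq_zero_of_dvd ⟨b * q', by ring⟩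
    · exact Int.emod_eq_zero_of_dvd ⟨b * r, by ring⟩
    · refine Int.emod_eq_zero_of_dvd ?_
      refine ⟨-(2 * p * q' + p * r + q' * (x + y1 + z) + (x * q1 + y1 * q2 +
        z * (2 * r - q1 - q2))) - n * (2 * q' ^ 2 + q1 ^ 2 + q2 ^ 2 + q1 * q2 + 2 * r ^ 2 -
        2 * r * q1 - 2 * r * q2 + 2 * q' * r) * b, ?_⟩
      ring
    · rfl
  · simp only [E, bil, nm, Prod.smul_mk, Prod.mk_add_mk, Prod.neg_mk, smul_eq_mul, Prod.mk.injEq]
    refine ⟨⟨?_, ?_, ?_, ?_⟩, ?_, ?_⟩ <;> ring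

theorem X_act (n : ℕ) (v : V) :
    ((PX n 1 * sg (PX n 2) (PX n 3) (PX n 4) * ta (PX n 3) (PX n 4) (PX n 5)) *
      (PX n 1 * sg (PX n 2) (PX n 3) (PX n 4) * ta (PX n 3) (PX n 4) (PX n 5))) (piN n v) =
      piN n (E (2, 0, -1, -1) v) := by
  rw [← wX_E]
  simp only [sg, ta, Equiv.Perm.mul_apply, PX_pi]
  rfl

theorem X_pow (n : ℕ) :
    ((PX n 1 * sg (PX n 2) (PX n 3) (PX n 4) * ta (PX n 3) (PX n 4) (PX n 5)) *
      (PX n 1 * sg (PX n 2) (PX n 3) (PX n 4) * ta (PX n 3) (PX n 4) (PX n 5))) ^ n = 1 := by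
  apply eq_one_piN
  intro v
  rw [pow_piN n _ _ (X_act n), E_iter]
  exact E_piN n _ (by decide) v

theorem PX_rB (n : ℕ) (i : Fin 6) (v : V) :
    rB (PX n 0) (PX n 1) (PX n 2) (PX n 3) (PX n 4) (PX n 5) i (piN n v) = piN n (B i v) := by
  fin_cases i
  · exact PX_pi n 1 v
  · exact PX_pi n 2 v
  · exact PX_pi n 3 v
  · exact PX_pi n 4 v
  · exact PX_pi n 5 v
  · show (PX n 0 * (PX n 1 * (PX n 2 * (PX n 3 * PX n 4 * PX n 3) * PX n 2) * PX n 1) * PX n 0)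
      (piN n v) = piN n (B 5 v)
    rw [B_five]
    simp only [Equiv.Perm.mul_apply, PX_pi]

/-- The action of the group of family (B) on `V / n N`. -/
theorem actN (n : ℕ) : ∃ φ : GamB n 2 n 1 →* Equiv.Perm (XN n),
    ∀ i v, φ (PresentedGroup.of i) (piN n v) = piN n (B i v) :=
  ⟨PresentedGroup.toGroup (liftB2 (relX n) n (X_pow n)), fun i v => by
    rw [PresentedGroup.toGroup.of]
    exact PX_rB n i v⟩

section general

variable {P : Type*} [Group P] {X : Type*} (π : V → X)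

theorem zpow_E' (φ : P →* Equiv.Perm X) {t : P} {y : H4}
    (ht : ∀ v, φ t (π v) = π (E y v)) (a : ℤ) :
    ∀ v, φ (t ^ a) (π v) = π (E (a • y) v) := by
  have hinv : ∀ v, φ t⁻¹ (π v) = π (E (-y) v) := by
    intro v
    rw [map_inv, Equiv.Perm.inv_eq_iff_eq, ht, E_E, add_neg_cancel, E_zero]
  induction a using Int.induction_on with
  | zero => intro v; rw [zpow_zero, map_one, zero_smul, E_zero]; rfl
  | succ k ih =>
    intro v
    rw [zpow_add_one, map_mul, Equiv.Perm.mul_apply, ht, ih, E_E, add_smul, one_smul]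
  | pred k ih =>
    intro v
    rw [zpow_sub_one, map_mul, Equiv.Perm.mul_apply, hinv, ih, E_E, sub_smul, one_smul,
      sub_eq_add_neg]

theorem prod_E' (φ : P →* Equiv.Perm X) {t : Fin 4 → P} {y : Fin 4 → H4}
    (ht : ∀ k v, φ (t k) (π v) = π (E (y k) v)) (a : Fin 4 → ℤ) (v : V) :
    φ (pp t a) (π v) = π (E (a 0 • y 0 + a 1 • y 1 + a 2 • y 2 + a 3 • y 3) v) := by
  rw [pp, map_mul, map_mul, map_mul, Equiv.Perm.mul_apply, Equiv.Perm.mul_apply,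
    Equiv.Perm.mul_apply, zpow_E' π φ (ht 3), zpow_E' π φ (ht 2), zpow_E' π φ (ht 1),
    zpow_E' π φ (ht 0), E_E, E_E, E_E]

theorem ev_act' (g : ℕ → P) (φ : P →* Equiv.Perm X) (β : ℕ → V → V)
    (hφ : ∀ i < 5, ∀ v, φ (g i) (π v) = π (β i v)) (l : List ℕ) (hl : ∀ i ∈ l, i < 5)
    (v : V) : φ (ev g l) (π v) = π (l.foldr β v) := by
  induction l with
  | nil => rw [Wrd.ev_nil, map_one]; rfl
  | cons i l ih =>
    rw [Wrd.ev_cons, map_mul, Equiv.Perm.mul_apply, ih fun j hj => hl j (List.mem_cons_of_mem _ hj),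
      hφ i (hl i List.mem_cons_self), List.foldr_cons]

end general

theorem memN {n : ℕ} {y : H4} {c : ℤ} (hc : c = 1 ∨ c = -1)
    (h : piN n (E y ((0, 0, 0, 0), 0, c)) = piN n ((0, 0, 0, 0), 0, c)) :
    ∃ w : H4, w.1 % 2 = 0 ∧ (w.2.1 + w.2.2.1 + w.2.2.2) % 2 = 0 ∧ y = (n : ℤ) • w := by
  obtain ⟨w, hw, e⟩ := QuotientAddGroup.eq.1 h.symm
  obtain ⟨⟨p, x, y1, z⟩, a, b⟩ := w
  obtain ⟨q, q1, q2, q3⟩ := y
  simp only [inN, Bool.and_eq_true, beq_iff_eq] at hw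
  obtain ⟨⟨⟨h1, h2⟩, _⟩, _⟩ := hw
  simp only [E, bil, nm, Prod.smul_mk, Prod.mk_add_mk, Prod.neg_mk, smul_eq_mul,
    Prod.mk.injEq] at e
  obtain ⟨⟨e1, e2, e3, e4⟩, _, _⟩ := e
  refine ⟨(c * p, c * x, c * y1, c * z), ?_, ?_, ?_⟩
  · rcases hc with rfl | rfl <;> simp only <;> omega
  · rcases hc with rfl | rfl <;> simp only <;> omega
  · simp only [Prod.smul_mk, smul_eq_mul, Prod.mk.injEq]
    rcases hc with rfl | rfl
    · refine ⟨?_, ?_, ?_, ?_⟩ <;> linarith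
    · refine ⟨?_, ?_, ?_, ?_⟩ <;> linarith

/-- A product of translations fixing `(0, 0, 1)` modulo `n N` is trivial. -/
theorem coreN {P : Type*} [Group P] (g : ℕ → P) (h : Cox g) (n : ℕ)
    (φ : P →* Equiv.Perm (XN n))
    (hφ : ∀ i < 5, ∀ v, φ (g i) (piN n v) = piN n (bF i v))
    (hX : (g 0 * (g 1 * g 2 * g 3 * g 2 * g 1) * (g 4 * g 3 * g 2 * g 3 * g 4)) ^ (2 * n) = 1)
    (a : Fin 4 → ℤ)
    (hfix : φ (pp (trq g) a) (piN n ((0, 0, 0, 0), 0, 1)) = piN n ((0, 0, 0, 0), 0, 1)) :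
    pp (trq g) a = 1 := by
  have ht : ∀ k v, φ (trq g k) (piN n v) = piN n (E (yF k) v) := by
    intro k v
    rw [trq, ev_act' (piN n) g φ bF hφ (tq k) (WrdQ.tq_lt k), tF]
  rw [prod_E' (piN n) φ ht] at hfix
  obtain ⟨⟨w0, w1, w2, w3⟩, f1, f2, e⟩ := memN (Or.inl rfl) hfix
  simp only [yF, Matrix.cons_val_zero, Matrix.cons_val_one, Matrix.cons_val, Prod.smul_mk,
    smul_eq_mul, Prod.mk_add_mk, Prod.mk.injEq] at e f1 f2
  obtain ⟨e1, e2, e3, e4⟩ := e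
  obtain ⟨x1, x2, x0, x3⟩ := WrdQ.xrel g h n hX
  have a0 : a 0 = n * (-w3) := by linarith
  have a1 : a 1 = n * (w1 - w3) := by rw [mul_sub]; linarith
  have a2 : a 2 = n * (w2 - w3) := by rw [mul_sub]; linarith
  have a3 : a 3 = n * (w0 + 2 * w3) := by rw [mul_add]; linarith
  have hpp : pp (trq g) a = (trq g 0 ^ n) ^ (-w3 + (w1 - w3) + (w2 - w3)) *
      (trq g 3 ^ n) ^ (w0 + 2 * w3) := by
    rw [pp, a0, a1, a2, a3, zpow_mul, zpow_mul, zpow_mul, zpow_mul, zpow_natCast, zpow_natCast,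
      zpow_natCast, zpow_natCast, x1, x2, ← zpow_add, ← zpow_add]
  have hA2 : (trq g 0 ^ n) ^ 2 = 1 := by rw [← pow_mul, mul_comm n 2, x0]
  have hD2 : (trq g 3 ^ n) ^ 2 = 1 := by rw [← pow_mul, mul_comm n 2, x3]
  rw [hpp, (zpow_par hA2 _).1 (Int.even_iff.2 (by omega)),
    (zpow_par hD2 _).1 (Int.even_iff.2 (by omega)), one_mul]

end Pool.Agent.Lib.MP_c2d01e_co.Ex.ActN
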