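import Pool.Agent.Lib.MP_c2d01e_co.CGroup

/-!
# The two infinite parabolic subgroups (STEP 3)

Let `b 0, …, b 5` act on the lattice modulo `s`, let `b 1, …, b 5` fix the vector `(0, 0, 1)`, let the elements
`t 0, …, t 3` act as the translations `E (y k)`, with `y` independent modulo `s`, and `t k ^ s = 1`. If every element
of `⟨b 0, …, b 4⟩` is a product of powers of the `t k` and of an element of `⟨b 1, …, b 4⟩`, then
`⟨b 0, …, b 4⟩ ∩ ⟨b 1, …, b 5⟩ = ⟨b 1, …, b 4⟩`.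
-/

set_option autoImplicit false

namespace Pool.Agent.Lib.MP_c2d01e_co.Ex

open Subgroup CGroup

variable {G : Type*} [Group G]

theorem zpow_E {s : ℕ} (φ : G →* Equiv.Perm (VN s)) {t : G} {y : H4}
    (ht : ∀ v, φ t (pi s v) = pi s (E y v)) (a : ℤ) :
    ∀ v, φ (t ^ a) (pi s v) = pi s (E (a • y) v) := by
  have hinv : ∀ v, φ t⁻¹ (pi s v) = pi s (E (-y) v) := by
    intro v
    rw [map_inv, Equiv.Perm.inv_eq_iff_eq, ht, E_E, add_neg_cancel, E_zero]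
  induction a using Int.induction_on with
  | zero => intro v; rw [zpow_zero, map_one, zero_smul, E_zero]; rfl
  | succ k ih =>
    intro v
    rw [zpow_add_one, map_mul, Equiv.Perm.mul_apply, ht, ih, E_E, add_smul, one_smul]
  | pred k ih =>
    intro v
    rw [zpow_sub_one, map_mul, Equiv.Perm.mul_apply, hinv, ih, E_E, sub_smul, one_smul,
      sub_eq_add_neg]

theorem zpow_dvd {s : ℕ} {t : G} (ht : t ^ s = 1) {a : ℤ} (h : (s : ℤ) ∣ a) : t ^ a = 1 := by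
  obtain ⟨c, rfl⟩ := h
  rw [zpow_mul, zpow_natCast, ht, one_zpow]

/-- The product of the powers acts as a translation. -/
theorem prod_E {s : ℕ} (φ : G →* Equiv.Perm (VN s)) {t : Fin 4 → G} {y : Fin 4 → H4}
    (ht : ∀ k v, φ (t k) (pi s v) = pi s (E (y k) v)) (a : Fin 4 → ℤ) (v : V) :
    φ (t 0 ^ a 0 * t 1 ^ a 1 * t 2 ^ a 2 * t 3 ^ a 3) (pi s v) =
      pi s (E (a 0 • y 0 + a 1 • y 1 + a 2 • y 2 + a 3 • y 3) v) := by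
  rw [map_mul, map_mul, map_mul, Equiv.Perm.mul_apply, Equiv.Perm.mul_apply, Equiv.Perm.mul_apply,
    zpow_E φ (ht 3), zpow_E φ (ht 2), zpow_E φ (ht 1), zpow_E φ (ht 0), E_E, E_E, E_E]

theorem fix_closure {X : Type*} (φ : G →* Equiv.Perm X) (x : X) (S : Set G)
    (h : ∀ g ∈ S, φ g x = x) : ∀ g ∈ closure S, φ g x = x := by
  intro g hg
  induction hg using closure_induction with
  | mem g hg => exact h g hg
  | one => rw [map_one]; rfl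
  | mul g g' _ _ h1 h2 => rw [map_mul, Equiv.Perm.mul_apply, h2, h1]
  | inv g _ h1 => rw [map_inv, Equiv.Perm.inv_eq_iff_eq, h1]

/-- A translation which fixes `(0, 0, 1)` modulo `s` is by a vector divisible by `s`. -/
theorem dvd_of_fix {s : ℕ} {y : H4}
    (h : pi s (E y ((0, 0, 0, 0), 0, 1)) = pi s ((0, 0, 0, 0), 0, 1)) :
    (s : ℤ) ∣ y.1 ∧ (s : ℤ) ∣ y.2.1 ∧ (s : ℤ) ∣ y.2.2.1 ∧ (s : ℤ) ∣ y.2.2.2 := by
  obtain ⟨p, q, r, t⟩ := y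
  have e : ∀ x : ℤ, (((0 + 1 * x : ℤ)) : ZMod s) = ((0 : ℤ) : ZMod s) → (s : ℤ) ∣ x := by
    intro x hx
    rw [← ZMod.intCast_zmod_eq_zero_iff_dvd]
    simpa using hx
  have h0 := congrArg Prod.fst h
  have h1 := congrArg Prod.fst h0
  have h2 := congrArg (fun x => x.2.1) h0
  have h3 := congrArg (fun x => x.2.2.1) h0
  have h4 := congrArg (fun x => x.2.2.2) h0
  exact ⟨e _ h1, e _ h2, e _ h3, e _ h4⟩

/-- STEP 3, abstract form. -/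
theorem inf_abs {s : ℕ} (φ : G →* Equiv.Perm (VN s)) (b : Fin 6 → G)
    (hfix : ∀ i, i ≠ 0 → φ (b i) (pi s ((0, 0, 0, 0), 0, 1)) = pi s ((0, 0, 0, 0), 0, 1))
    (t : Fin 4 → G) (y : Fin 4 → H4) (ht : ∀ k v, φ (t k) (pi s v) = pi s (E (y k) v))
    (hone : ∀ a : Fin 4 → ℤ,
      (s : ℤ) ∣ (a 0 • y 0 + a 1 • y 1 + a 2 • y 2 + a 3 • y 3).1 →
      (s : ℤ) ∣ (a 0 • y 0 + a 1 • y 1 + a 2 • y 2 + a 3 • y 3).2.1 →
      (s : ℤ) ∣ (a 0 • y 0 + a 1 • y 1 + a 2 • y 2 + a 3 • y 3).2.2.1 →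
      (s : ℤ) ∣ (a 0 • y 0 + a 1 • y 1 + a 2 • y 2 + a 3 • y 3).2.2.2 →
      t 0 ^ a 0 * t 1 ^ a 1 * t 2 ^ a 2 * t 3 ^ a 3 ∈ closure (b '' {1, 2, 3, 4, 5}) →
      t 0 ^ a 0 * t 1 ^ a 1 * t 2 ^ a 2 * t 3 ^ a 3 = 1)
    (hdec : ∀ x ∈ closure (b '' {0, 1, 2, 3, 4}), ∃ a : Fin 4 → ℤ,
      ∃ w ∈ closure (b '' {1, 2, 3, 4}), x = t 0 ^ a 0 * t 1 ^ a 1 * t 2 ^ a 2 * t 3 ^ a 3 * w) :
    closure (b '' {0, 1, 2, 3, 4}) ⊓ closure (b '' {1, 2, 3, 4, 5}) = closure (b '' {1, 2, 3, 4}) := by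
  have hs1 : closure (b '' {1, 2, 3, 4}) ≤ closure (b '' {1, 2, 3, 4, 5}) :=
    closure_mono (Set.image_mono (by
      intro x hx
      simp only [Set.mem_insert_iff, Set.mem_singleton_iff] at hx ⊢
      tauto))
  have hs0 : closure (b '' {1, 2, 3, 4}) ≤ closure (b '' {0, 1, 2, 3, 4}) :=
    closure_mono (Set.image_mono (by
      intro x hx
      simp only [Set.mem_insert_iff, Set.mem_singleton_iff] at hx ⊢
      tauto))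
  apply le_antisymm
  · rintro x ⟨h1, h2⟩
    obtain ⟨a, w, hw, rfl⟩ := hdec x h1
    have h3 : t 0 ^ a 0 * t 1 ^ a 1 * t 2 ^ a 2 * t 3 ^ a 3 ∈ closure (b '' {1, 2, 3, 4, 5}) := by
      have h2' : t 0 ^ a 0 * t 1 ^ a 1 * t 2 ^ a 2 * t 3 ^ a 3 * w ∈
        closure (b '' {1, 2, 3, 4, 5}) := h2
      have h4 := mul_mem h2' (inv_mem (hs1 hw))
      rwa [mul_inv_cancel_right] at h4
    have h4 := fix_closure φ (pi s ((0, 0, 0, 0), 0, 1)) (b '' {1, 2, 3, 4, 5}) (by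
      rintro g ⟨i, hi, rfl⟩
      refine hfix i ?_
      rintro rfl
      simp at hi) _ h3
    rw [prod_E φ ht] at h4
    obtain ⟨e1, e2, e3, e4⟩ := dvd_of_fix h4
    rw [hone a e1 e2 e3 e4 h3, one_mul]
    exact hw
  · exact le_inf hs0 hs1

/-- STEP 3, P-type: the translations have order dividing `s`. -/
theorem infP {s : ℕ} (φ : G →* Equiv.Perm (VN s)) (b : Fin 6 → G)
    (hfix : ∀ i, i ≠ 0 → φ (b i) (pi s ((0, 0, 0, 0), 0, 1)) = pi s ((0, 0, 0, 0), 0, 1))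
    (t : Fin 4 → G) (y : Fin 4 → H4) (ht : ∀ k v, φ (t k) (pi s v) = pi s (E (y k) v))
    (hts : ∀ k, t k ^ s = 1)
    (hy : ∀ (c : ℤ) (a : Fin 4 → ℤ),
      c ∣ (a 0 • y 0 + a 1 • y 1 + a 2 • y 2 + a 3 • y 3).1 →
      c ∣ (a 0 • y 0 + a 1 • y 1 + a 2 • y 2 + a 3 • y 3).2.1 →
      c ∣ (a 0 • y 0 + a 1 • y 1 + a 2 • y 2 + a 3 • y 3).2.2.1 →
      c ∣ (a 0 • y 0 + a 1 • y 1 + a 2 • y 2 + a 3 • y 3).2.2.2 → ∀ k, c ∣ a k)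
    (hdec : ∀ x ∈ closure (b '' {0, 1, 2, 3, 4}), ∃ a : Fin 4 → ℤ,
      ∃ w ∈ closure (b '' {1, 2, 3, 4}), x = t 0 ^ a 0 * t 1 ^ a 1 * t 2 ^ a 2 * t 3 ^ a 3 * w) :
    closure (b '' {0, 1, 2, 3, 4}) ⊓ closure (b '' {1, 2, 3, 4, 5}) = closure (b '' {1, 2, 3, 4}) := by
  refine inf_abs φ b hfix t y ht (fun a h1 h2 h3 h4 _ => ?_) hdec
  have h5 := hy s a h1 h2 h3 h4
  rw [zpow_dvd (hts 0) (h5 0), zpow_dvd (hts 1) (h5 1), zpow_dvd (hts 2) (h5 2),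
    zpow_dvd (hts 3) (h5 3)]
  simp

/-- STEP 3, P-type, in the form used by `CGroupB.interB`. -/
theorem infP' {s : ℕ} (φ : G →* Equiv.Perm (VN s)) (b : Fin 6 → G)
    (hfix : ∀ i, i ≠ 0 → φ (b i) (pi s ((0, 0, 0, 0), 0, 1)) = pi s ((0, 0, 0, 0), 0, 1))
    (t : Fin 4 → G) (y : Fin 4 → H4) (ht : ∀ k v, φ (t k) (pi s v) = pi s (E (y k) v))
    (hts : ∀ k, t k ^ s = 1)
    (hy : ∀ (c : ℤ) (a : Fin 4 → ℤ),
      c ∣ (a 0 • y 0 + a 1 • y 1 + a 2 • y 2 + a 3 • y 3).1 →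
      c ∣ (a 0 • y 0 + a 1 • y 1 + a 2 • y 2 + a 3 • y 3).2.1 →
      c ∣ (a 0 • y 0 + a 1 • y 1 + a 2 • y 2 + a 3 • y 3).2.2.1 →
      c ∣ (a 0 • y 0 + a 1 • y 1 + a 2 • y 2 + a 3 • y 3).2.2.2 → ∀ k, c ∣ a k)
    (hdec : ∀ x ∈ closure (b '' {0, 1, 2, 3, 4}), ∃ a : Fin 4 → ℤ,
      ∃ w ∈ closure (b '' {1, 2, 3, 4}), x = t 0 ^ a 0 * t 1 ^ a 1 * t 2 ^ a 2 * t 3 ^ a 3 * w)
    (w : G) (h0 : w ∈ closure (b '' {0, 1, 2, 3, 4})) (h1 : w ∈ closure (b '' {1, 2, 3, 4, 5})) :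
    w ∈ closure (b '' {1, 2, 3, 4}) := by
  rw [← infP φ b hfix t y ht hts hy hdec]
  exact ⟨h0, h1⟩

end Pool.Agent.Lib.MP_c2d01e_co.Ex
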