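import Pool.Agent.Lib.MP_c2d01e_co.EqDefs

/-!
# The two infinite facets of family (B) meet in the parabolic subgroup of their common generators

Vectors `(n,n,0,0)`, `n` odd (helper6). An element of `⟨b₀, …, b₄⟩ ∩ ⟨b₁, …, b₅⟩` is a product of a
translation `a` and an element of `⟨b₁, …, b₄⟩`; the translation fixes a vector of the lattice modulo
`n`, so its coordinates are divisible by `n`, and the action on four points gives `a = 1`.
-/

set_option autoImplicit false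

namespace Pool.Agent.Lib.MP_c2d01e_co.Ex

open Pool.Agent.Lib.MP_c2d01e_co.EqDefs

theorem zpow_par {G : Type*} [Group G] {A : G} (hA : A ^ 2 = 1) (m : ℤ) :
    (Even m → A ^ m = 1) ∧ (Odd m → A ^ m = A) := by
  constructor
  · rintro ⟨k, rfl⟩
    rw [← two_mul, zpow_mul]
    have : A ^ (2 : ℤ) = 1 := by
      have h := hA
      rw [← zpow_natCast] at h
      exact_mod_cast h
    rw [this, one_zpow]
  · rintro ⟨k, rfl⟩
    rw [zpow_add, zpow_mul, zpow_one]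
    have : A ^ (2 : ℤ) = 1 := by
      have h := hA
      rw [← zpow_natCast] at h
      exact_mod_cast h
    rw [this, one_zpow, one_mul]

/-- The abstract intersection lemma for odd `n` and the vectors `(n,n,0,0)`. -/
theorem infQ {G : Type*} [Group G] {F W C : Subgroup G} (hWC : W ≤ C) {n : ℕ} (hn : Odd n)
    (T : Fin 4 → G)
    (hdec : ∀ x ∈ F, ∃ a : Fin 4 → ℤ, ∃ w ∈ W,
      x = T 0 ^ a 0 * T 1 ^ a 1 * T 2 ^ a 2 * T 3 ^ a 3 * w)
    (hdiv : ∀ a : Fin 4 → ℤ, T 0 ^ a 0 * T 1 ^ a 1 * T 2 ^ a 2 * T 3 ^ a 3 ∈ C →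
      ∀ i, (n : ℤ) ∣ a i)
    (h1 : T 1 ^ n = T 0 ^ n) (h2 : T 2 ^ n = T 0 ^ n)
    (h0 : T 0 ^ (2 * n) = 1) (h3 : T 3 ^ (2 * n) = 1)
    (ψ : G →* Equiv.Perm (Fin 4)) (hC : ∀ x ∈ C, ψ x 0 = 0)
    (p0 : ψ (T 0) ^ 2 = 1) (p3 : ψ (T 3) ^ 2 = 1)
    (q0 : ψ (T 0) 0 ≠ 0) (q3 : ψ (T 3) 0 ≠ 0) (q03 : ψ (T 0) (ψ (T 3) 0) ≠ 0) :
    F ⊓ C ≤ W := by
  rintro x ⟨hxF, hxC⟩
  obtain ⟨a, w, hw, rfl⟩ := hdec x hxF
  have ha : T 0 ^ a 0 * T 1 ^ a 1 * T 2 ^ a 2 * T 3 ^ a 3 ∈ C := by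
    have h := C.mul_mem hxC (C.inv_mem (hWC hw))
    rwa [mul_inv_cancel_right] at h
  obtain ⟨c0, e0⟩ := hdiv a ha 0
  obtain ⟨c1, e1⟩ := hdiv a ha 1
  obtain ⟨c2, e2⟩ := hdiv a ha 2
  obtain ⟨c3, e3⟩ := hdiv a ha 3
  have e : T 0 ^ a 0 * T 1 ^ a 1 * T 2 ^ a 2 * T 3 ^ a 3 =
      (T 0 ^ n) ^ (c0 + c1 + c2) * (T 3 ^ n) ^ c3 := by
    rw [e0, e1, e2, e3, zpow_mul, zpow_mul, zpow_mul, zpow_mul, zpow_natCast, zpow_natCast,
      zpow_natCast, zpow_natCast, h1, h2, ← zpow_add, ← zpow_add]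
  have hA : (T 0 ^ n) ^ 2 = 1 := by rw [← pow_mul, mul_comm, h0]
  have hB : (T 3 ^ n) ^ 2 = 1 := by rw [← pow_mul, mul_comm, h3]
  obtain ⟨k, hk⟩ := hn
  have u0 : ψ (T 0 ^ n) = ψ (T 0) := by
    rw [map_pow, hk, pow_succ, pow_mul, p0, one_pow, one_mul]
  have u3 : ψ (T 3 ^ n) = ψ (T 3) := by
    rw [map_pow, hk, pow_succ, pow_mul, p3, one_pow, one_mul]
  have hfix := hC _ ha
  rw [e] at hfix ⊢
  rcases Int.even_or_odd (c0 + c1 + c2) with hm | hm <;> rcases Int.even_or_odd c3 with hl | hl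
  · rw [(zpow_par hA _).1 hm, (zpow_par hB _).1 hl, one_mul, one_mul]
    exact hw
  · rw [(zpow_par hA _).1 hm, (zpow_par hB _).2 hl, one_mul, u3] at hfix
    exact absurd hfix q3
  · rw [(zpow_par hA _).2 hm, (zpow_par hB _).1 hl, mul_one, u0] at hfix
    exact absurd hfix q0
  · rw [(zpow_par hA _).2 hm, (zpow_par hB _).2 hl, map_mul, u0, u3] at hfix
    exact absurd hfix q03

/-- If `T` commutes with `t` and `U` and `t U t = U⁻¹`, then `(T U)^n = 1` gives `U^n = T^n` of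
order at most two. -/
theorem qpow {G : Type*} [Group G] {T U t : G} {n : ℕ} (ht : t * t = 1) (hT : t * T * t = T)
    (hU : t * U * t = U⁻¹) (hc : Commute T U) (hX : (T * U) ^ n = 1) :
    U ^ n = T ^ n ∧ T ^ (2 * n) = 1 ∧ U ^ (2 * n) = 1 := by
  have hti : t⁻¹ = t := by rw [inv_eq_iff_mul_eq_one]; exact ht
  have h1 : T ^ n * U ^ n = 1 := by rw [← hc.mul_pow]; exact hX
  have h2 : T ^ n * (U ^ n)⁻¹ = 1 := by
    have c1 : t * T ^ n * t⁻¹ = T ^ n := by rw [← conj_pow, hti, hT]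
    have c2 : t * U ^ n * t⁻¹ = (U ^ n)⁻¹ := by rw [← conj_pow, hti, hU, inv_pow]
    calc T ^ n * (U ^ n)⁻¹ = (t * T ^ n * t⁻¹) * (t * U ^ n * t⁻¹) := by rw [c1, c2]
      _ = t * (T ^ n * U ^ n) * t⁻¹ := by group
      _ = 1 := by rw [h1, mul_one, mul_inv_cancel]
  have h3 : U ^ n = T ^ n := (mul_inv_eq_one.1 h2).symm
  refine ⟨h3, ?_, ?_⟩
  · rw [two_mul, pow_add]
    rw [h3] at h1
    exact h1
  · rw [two_mul, pow_add]
    rw [← h3] at h1
    exact h1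

/-- The images of the generators in the permutations of four points. -/
def P4 : Fin 6 → Equiv.Perm (Fin 4) :=
  ![Equiv.swap 0 1, Equiv.swap 1 2, Equiv.swap 2 3, 1, 1, 1]

theorem P4_cox : ∀ i j : Fin 6, (P4 i * P4 j) ^ coxB i j = 1 := by
  decide

theorem P4_s : FreeGroup.lift P4 sB = 1 := by
  simp only [sB, gen, map_mul, FreeGroup.lift_apply_of]
  decide

theorem P4_t : FreeGroup.lift P4 tB = Equiv.swap 2 3 := by
  simp only [tB, gen, map_mul, FreeGroup.lift_apply_of]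
  decide

theorem P4_rels (s k t l : ℕ) (hs : k = 1 → Even s) :
    ∀ r ∈ relsB s k t l, FreeGroup.lift P4 r = 1 := by
  have a0 : (FreeGroup.lift P4) (gen 0) = Equiv.swap 0 1 := by
    simp only [gen, FreeGroup.lift_apply_of]
    rfl
  have a5 : (FreeGroup.lift P4) (gen 5) = 1 := by
    simp only [gen, FreeGroup.lift_apply_of]
    rfl
  rintro r (⟨i, j, rfl⟩ | hr | hr)
  · rw [map_pow, map_mul, gen, gen, FreeGroup.lift_apply_of, FreeGroup.lift_apply_of]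
    exact P4_cox i j
  · rw [hr, facetB]
    split_ifs with hk
    · obtain ⟨m, rfl⟩ := hs hk
      rw [map_pow, map_mul, map_mul, map_mul, a0, P4_s, P4_t, ← two_mul, pow_mul]
      have : (Equiv.swap (0 : Fin 4) 1 * 1 * Equiv.swap 2 3 * 1) ^ 2 = 1 := by decide
      rw [this, one_pow]
    · rw [map_pow, map_mul, map_mul, a0, P4_s, P4_t, pow_mul]
      have : (Equiv.swap (0 : Fin 4) 1 * 1 * Equiv.swap 2 3) ^ 2 = 1 := by decide
      rw [this, one_pow]
  · rw [Set.mem_singleton_iff.1 hr, vertB]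
    split_ifs with hl
    · rw [map_pow, map_mul, map_mul, map_mul, a5, P4_s, P4_t]
      have : ((1 : Equiv.Perm (Fin 4)) * Equiv.swap 2 3 * 1 * Equiv.swap 2 3) = 1 := by decide
      rw [this, one_pow]
    · rw [map_pow, map_mul, map_mul, a5, P4_s, P4_t, pow_mul]
      have : ((1 : Equiv.Perm (Fin 4)) * Equiv.swap 2 3 * 1) ^ 2 = 1 := by decide
      rw [this, one_pow]

/-- The action on four points. -/
def psi4 (s k t l : ℕ) (hs : k = 1 → Even s) : GamB s k t l →* Equiv.Perm (Fin 4) :=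
  PresentedGroup.toGroup (P4_rels s k t l hs)

theorem psi4_of (s k t l : ℕ) (hs : k = 1 → Even s) (i : Fin 6) :
    psi4 s k t l hs (PresentedGroup.of i) = P4 i := by
  rw [psi4, PresentedGroup.toGroup.of]

/-- The subgroup `⟨b₁, …, b₅⟩` fixes the point `0`. -/
theorem psi4_fix (s k t l : ℕ) (hs : k = 1 → Even s) (J : Set (Fin 6)) (hJ : 0 ∉ J)
    (x : GamB s k t l)
    (hx : x ∈ Subgroup.closure ((fun i => (PresentedGroup.of i : GamB s k t l)) '' J)) :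
    psi4 s k t l hs x 0 = 0 := by
  refine Subgroup.closure_induction (p := fun x _ => psi4 s k t l hs x 0 = 0) ?_ ?_ ?_ ?_ hx
  · rintro y ⟨i, hi, rfl⟩
    have hi0 : i ≠ 0 := by
      rintro rfl
      exact hJ hi
    change psi4 s k t l hs (PresentedGroup.of i) 0 = 0
    rw [psi4_of]
    revert hi0
    clear hi
    revert i
    decide
  · rw [map_one]
    rfl
  · intro y z _ _ hy hz
    rw [map_mul, Equiv.Perm.mul_apply, hz, hy]
  · intro y _ hy
    rw [map_inv, Equiv.Perm.inv_eq_iff_eq]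
    exact hy.symm

end Pool.Agent.Lib.MP_c2d01e_co.Ex
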