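import Pool.Agent.Lib.MP_c2d01e_co.Ex.Wrd

/-!
# MP_c2d01e_co: the translation subgroup of the groups with the relations of `[3,3,4,3]`

As in `Ex/Wrd.lean`, with another basis: `tq 0, tq 1, tq 2` belong to mutually orthogonal vectors. Moreover the
consequences of the relation `(ρ₀ σ τ)^(2n) = 1`.
-/

set_option autoImplicit false

namespace Pool.Agent.Lib.MP_c2d01e_co.Ex.WrdQ

open Pool.Agent.Lib.MP_c2d01e_co.Ex.Wrd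

variable {G : Type*} [Group G] (g : ℕ → G)

/-- Four conjugates of `T`. -/
def tq (j : Fin 4) : List ℕ :=
  ![tT, [1, 2, 3, 2, 1] ++ (tT ++ [1, 2, 3, 2, 1]), [4, 1, 2, 3, 2, 1] ++ (tT ++ [1, 2, 3, 2, 1, 4]),
    [1] ++ (tT ++ [1])] j

/-- `X = (ρ₀ σ τ)^2`. -/
def tX : List ℕ := [0, 1, 2, 3, 2, 1, 4, 3, 2, 3, 4, 0, 1, 2, 3, 2, 1, 4, 3, 2, 3, 4]

/-- The values. -/
def trq (j : Fin 4) : G := ev g (tq j)

theorem tq_lt (j : Fin 4) : ∀ i ∈ tq j, i < 5 := by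
  revert j
  decide

theorem c10 (h : Cox g) : ev g (tq 1 ++ tq 0) = ev g (tq 0 ++ tq 1) :=
  word_eq g h _ _
    [(20, 1, 1), (19, 2, 2), (18, 3, 3), (17, 2, 2), (16, 1, 1), (21, 1, 4), (22, 1, 3), (20, 2, 4), (15, 4, 0), (16, 4, 1), (17, 4, 2), (18, 4, 3), (14, 3, 0), (15, 3, 1), (13, 2, 0), (10, 1, 4), (11, 1, 3), (4, 1, 0), (6, 0, 2), (7, 0, 3), (8, 0, 2), (9, 0, 4), (10, 0, 3), (11, 0, 1), (13, 1, 2), (15, 2, 3), (18, 2, 4), (19, 2, 3), (22, 2, 1), (24, 1, 3), (25, 1, 4), (26, 1, 1), (21, 3, 1), (14, 1, 3), (10, 3, 1), (11, 3, 0), (8, 2, 4), (3, 2, 0), (4, 2, 1), (6, 1, 3), (7, 1, 4), (8, 1, 2), (10, 2, 0), (11, 2, 3), (14, 2, 1), (16, 1, 3), (17, 1, 4), (18, 1, 3), (19, 1, 2), (21, 2, 3), (24, 2, 4), (25, 2, 2), (16, 3, 4), (18, 4, 2), (19, 4, 1), (15, 2, 4), (13, 3, 1), (7, 4, 2), (8, 4, 1), (9, 4, 0), (2, 3, 0), (3,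 3, 1), (4, 3, 2), (7, 3, 1), (8, 3, 0), (9, 3, 4), (11, 4, 2), (12, 4, 1), (13, 4, 3), (15, 3, 2), (18, 3, 1), (19, 3, 4), (21, 4, 2), (22, 4, 3), (24, 3, 3), (12, 1, 3), (13, 1, 4), (1, 2, 0), (2, 2, 1), (4, 1, 3), (5, 1, 2), (7, 2, 0), (8, 2, 4), (9, 2, 3), (12, 2, 4), (13, 2, 1), (15, 1, 3), (16, 1, 2), (18, 2, 4), (19, 2, 3), (22, 2, 4), (23, 2, 2), (17, 1, 4), (18, 1, 3), (16, 2, 4), (12, 4, 1), (13, 4, 2), (14, 4, 3), (11, 3, 1), (0, 1, 0), (2, 0, 2), (3, 0, 3), (4, 0, 2), (5, 0, 1), (7, 1, 4), (8, 1, 3), (9, 1, 2), (11, 2, 3), (14, 2, 4), (15, 2, 3), (18, 2, 1), (20, 1, 3), (21, 1, 4), (22, 1, 1), (10, 1, 3), (6, 0, 4), (7, 0, 3), (8, 0, 2), (9, 0, 3), (5, 1, 4), (6, 1, 3), (4, 2, 4)]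
    [(15, 1, 1), (14, 2, 2), (13, 3, 3), (12, 2, 2), (11, 1, 1), (26, 1, 1), (25, 2, 2), (24, 3, 3), (23, 2, 2), (22, 1, 1), (16, 1, 4), (17, 1, 3), (15, 2, 4), (10, 4, 0), (11, 4, 1), (12, 4, 2), (13, 4, 3), (5, 1, 4), (6, 1, 3), (4, 2, 4)]
    (by decide +kernel)

theorem c20 (h : Cox g) : ev g (tq 2 ++ tq 0) = ev g (tq 0 ++ tq 2) :=
  word_eq g h _ _
    [(21, 1, 1), (20, 2, 2), (19, 3, 3), (18, 2, 2), (17, 1, 1), (16, 4, 4), (15, 3, 0), (16, 3, 1), (14, 2, 0), (11, 1, 4), (12, 1, 3), (5, 1, 0), (7, 0, 2), (8, 0, 3), (9, 0, 2), (10, 0, 4), (11, 0, 3), (12, 0, 1), (14, 1, 2), (16, 2, 3), (19, 2, 2), (15, 1, 3), (11, 3, 1), (12, 3, 0), (9, 2, 4), (4, 2, 0), (5, 2, 1), (7, 1, 3), (8, 1, 4), (9, 1, 2), (11, 2, 0), (12, 2, 3), (15, 2, 1), (17, 1, 3), (18, 1, 1), (17, 3, 4), (19, 4, 2), (16, 2, 4), (14, 3, 1), (8, 4, 2), (9,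 4, 1), (10, 4, 0), (3, 3, 0), (4, 3, 1), (5, 3, 2), (8, 3, 1), (9, 3, 0), (10, 3, 4), (12, 4, 2), (13, 4, 1), (14, 4, 3), (16, 3, 2), (19, 3, 4), (21, 4, 4), (20, 3, 1), (18, 2, 4), (13, 1, 3), (14, 1, 4), (2, 2, 0), (3, 2, 1), (5, 1, 3), (6, 1, 2), (8, 2, 0), (9, 2, 4), (10, 2, 3), (13, 2, 4), (14, 2, 1), (16, 1, 3), (17, 1, 4), (18, 1, 2), (20, 2, 3), (23, 2, 2), (19, 1, 3), (13, 4, 1), (14, 4, 2), (15, 4, 3), (12, 3, 1), (1, 1, 0), (3, 0, 2), (4, 0, 3), (5, 0, 2), (6, 0, 1), (8, 1, 4), (9, 1, 3), (10, 1, 2), (12, 2, 3), (15, 2, 4), (16, 2, 3), (19, 2, 1), (21, 1, 3), (22, 1, 1), (11, 1, 3), (7, 0, 4), (8, 0, 3), (9, 0, 2), (10, 0, 3), (6, 1, 4), (7, 1, 3), (5, 2, 4), (0, 4, 0), (1, 4, 1), (2, 4, 2), (3, 4, 3)]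
    [(15, 1, 4), (16, 1, 1), (14, 2, 4), (15, 2, 2), (10, 4, 1), (11, 4, 2), (12, 4, 3), (14, 3, 3), (9, 3, 1), (5, 1, 4), (6, 1, 3), (7, 1, 2), (9, 2, 3), (12, 2, 4), (13, 2, 2), (8, 1, 3), (4, 2, 4), (5, 2, 3), (8, 2, 1), (10, 1, 3), (11, 1, 4), (12, 1, 1), (27, 1, 1), (26, 2, 2), (25, 3, 3), (24, 2, 2), (23, 1, 1), (22, 4, 4), (17, 1, 4), (18, 1, 3), (16, 2, 4), (11, 4, 0), (12, 4, 1), (13, 4, 2), (14, 4, 3)]
    (by decide +kernel)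

theorem c21 (h : Cox g) : ev g (tq 2 ++ tq 1) = ev g (tq 1 ++ tq 2) :=
  word_eq g h _ _
    [(21, 1, 1), (20, 2, 2), (19, 3, 3), (18, 2, 2), (17, 1, 1), (16, 4, 4), (15, 3, 1), (11, 1, 4), (12, 1, 3), (13, 1, 2), (15, 2, 3), (18, 2, 2), (14, 1, 3), (10, 2, 4), (11, 2, 3), (14, 2, 1), (16, 1, 3), (17, 1, 1), (16, 3, 0), (17, 3, 1), (15, 2, 0), (5, 1, 0), (7, 0, 2), (8, 0, 3), (9, 0, 4), (10, 0, 3), (11, 0, 2), (12, 0, 3), (13, 0, 1), (15, 1, 2), (17, 2, 3), (20, 2, 2), (16, 1, 3), (12, 3, 1), (13, 3, 0), (4, 2, 0), (5, 2, 1), (7, 1, 3), (8, 1, 4), (9, 1, 3), (10, 1, 2), (12, 2, 0), (13, 2, 3), (16, 2, 1), (18, 1, 3), (19, 1, 1), (18, 3, 4), (20, 4, 2), (17, 2, 4), (15, 3, 1), (7, 3, 4), (9, 4, 2), (10, 4, 1), (11, 4, 0), (6, 2, 4), (3, 3, 0), (4, 3, 1), (0, 4, 1), (1, 4, 2), (2, 4, 0), (3, 4, 1), (4, 4, 3), (6, 3, 2), (9,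 3, 1), (10, 3, 0), (11, 3, 4), (13, 4, 2), (14, 4, 1), (15, 4, 3), (17, 3, 2), (20, 3, 4), (22, 4, 4), (26, 1, 1), (25, 2, 2), (24, 3, 3), (23, 2, 2), (22, 1, 1), (19, 2, 4), (16, 4, 2), (17, 4, 3), (14, 1, 3), (10, 0, 4), (11, 0, 3), (12, 0, 2), (13, 0, 3), (9, 1, 4), (10, 1, 3), (8, 2, 4), (5, 4, 2), (6, 4, 3), (3, 1, 3), (2, 0, 3)]
    [(20, 1, 1), (19, 2, 2), (18, 3, 3), (17, 2, 2), (16, 1, 1), (15, 4, 4), (14, 3, 1), (10, 1, 4), (11, 1, 3), (12, 1, 2), (14, 2, 3), (17, 2, 2), (13, 1, 3), (9, 2, 4), (10, 2, 3), (13, 2, 1), (15, 1, 3), (16, 1, 1), (15, 3, 0), (16, 3, 1), (14, 2, 0), (4, 1, 0), (6, 0, 2), (7, 0, 3), (8, 0, 4), (9, 0, 3), (10, 0, 2), (11, 0, 3), (12, 0, 1), (14, 1, 2), (16, 2, 3), (19, 2, 2), (15, 1, 3), (11, 3, 1), (12, 3, 0), (3, 2, 0), (4, 2, 1), (6, 1, 3), (7, 1, 4), (8, 1, 3), (9, 1, 2), (11, 2, 0),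 (12, 2, 3), (15, 2, 1), (17, 1, 3), (18, 1, 1), (27, 1, 1), (26, 2, 2), (25, 3, 3), (24, 2, 2), (23, 1, 1), (22, 4, 4), (11, 0, 3), (12, 0, 2), (13, 0, 3), (10, 1, 3)]
    (by decide +kernel)

theorem c30 (h : Cox g) : ev g (tq 3 ++ tq 0) = ev g (tq 0 ++ tq 3) :=
  word_eq g h _ _
    [(16, 1, 1), (15, 2, 0), (16, 2, 1), (18, 1, 3), (19, 1, 2), (21, 2, 4), (22, 2, 3), (25, 2, 4), (26, 2, 1), (28, 1, 3), (14, 3, 0), (15, 3, 1), (16, 3, 2), (19, 3, 1), (20, 3, 4), (22, 4, 2), (23, 4, 3), (25, 3, 1), (13, 2, 0), (14, 2, 1), (16, 1, 3), (17, 1, 2), (19, 2, 4), (20, 2, 3), (23, 2, 4), (18, 1, 4), (19, 1, 3), (17, 2, 4), (11, 4, 1), (12, 4, 0), (13, 4, 1), (14, 4, 2), (15, 4, 3), (10, 3, 1), (11, 3, 0), (12, 3, 1), (6, 1, 4), (7, 1, 3), (8, 1, 2), (10, 2, 0), (0, 1, 0), (2, 0, 2), (3, 0, 3), (4, 0, 2), (5, 0, 4), (6, 0, 3), (7,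 0, 2), (8, 0, 1), (10, 1, 2), (12, 2, 3), (15, 2, 4), (16, 2, 3), (19, 2, 1), (21, 1, 3), (22, 1, 4), (23, 1, 2), (25, 2, 3), (28, 2, 1), (30, 1, 1), (24, 1, 3), (9, 0, 2), (7, 2, 1), (9, 1, 0), (11, 0, 3), (12, 0, 2), (13, 0, 3), (14, 0, 4), (15, 0, 3), (16, 0, 2), (17, 0, 3), (10, 1, 3), (9, 0, 3), (4, 2, 4)]
    [(15, 1, 1), (30, 1, 1), (14, 2, 0), (15, 2, 1), (17, 1, 3), (18, 1, 2), (20, 2, 4), (21, 2, 3), (24, 2, 4), (25, 2, 1), (27, 1, 3), (13, 3, 0), (14, 3, 1), (15, 3, 2), (18, 3, 1), (19, 3, 4), (21, 4, 2), (22, 4, 3), (12, 2, 0), (13, 2, 1), (15, 1, 3), (16, 1, 2), (18, 2, 4), (19, 2, 3), (22, 2, 4), (17, 1, 4), (18, 1, 3), (11, 1, 0), (13, 0, 2), (14, 0, 3), (15, 0, 2), (16, 0, 4), (17, 0, 3), (15, 2, 4), (10, 4, 0), (11, 4, 1), (12, 4, 2), (13, 4, 3), (5, 1, 4), (6, 1, 3), (4, 2, 4)]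
    (by decide +kernel)

theorem c31 (h : Cox g) : ev g (tq 3 ++ tq 1) = ev g (tq 1 ++ tq 3) :=
  word_eq g h _ _
    [(16, 1, 1), (15, 2, 1), (17, 1, 3), (14, 3, 1), (12, 1, 2), (14, 2, 3), (17, 2, 1), (19, 1, 1), (34, 1, 1), (33, 2, 2), (32, 3, 3), (31, 2, 2), (30, 1, 1), (18, 2, 0), (19, 2, 1), (21, 1, 3), (22, 1, 2), (24, 2, 4), (25, 2, 3), (28, 2, 4), (16, 3, 1), (17, 3, 0), (18, 3, 1), (19, 3, 2), (22, 3, 1), (23, 3, 4), (25, 4, 2), (26, 4, 3), (13, 1, 3), (14, 1, 2), (16, 2, 0), (17, 2, 1), (19, 1, 3), (20, 1, 2), (22, 2, 4), (23, 2, 3), (26, 2, 4), (21, 1, 4), (22, 1, 3), (15, 1, 0), (17, 0, 2), (18, 0, 3), (19, 0, 2), (20, 0, 4), (21, 0, 3), (19, 2, 4), (14, 2, 0), (15, 2, 1), (17, 1, 3), (18, 1, 4), (11, 4, 2), (8, 3, 2), (11, 3, 4), (13, 4, 0), (14, 4, 1), (15, 4, 2), (16, 4, 3), (10, 2, 4), (6, 1, 4), (5, 2, 4),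 (6, 2, 1), (8, 1, 3), (9, 1, 4), (5, 4, 1), (6, 4, 2), (7, 4, 3), (4, 3, 1), (2, 1, 2), (4, 2, 3), (7, 2, 4), (3, 1, 3), (1, 0, 2), (2, 0, 3)]
    [(20, 1, 1), (19, 2, 2), (18, 3, 3), (17, 2, 2), (16, 1, 1), (22, 1, 4), (23, 1, 3), (21, 2, 4), (15, 4, 1), (16, 4, 0), (17, 4, 1), (18, 4, 2), (19, 4, 3), (14, 3, 1), (15, 3, 0), (16, 3, 1), (10, 1, 4), (11, 1, 3), (12, 1, 2), (14, 2, 0), (4, 1, 0), (6, 0, 2), (7, 0, 3), (8, 0, 2), (9, 0, 4), (10, 0, 3), (11, 0, 2), (12, 0, 1), (14, 1, 2), (16, 2, 3), (19, 2, 4), (20, 2, 3), (23, 2, 1), (25, 1, 3), (26, 1, 4), (27, 1, 1), (30, 1, 1), (13, 0, 2), (11, 2, 1), (13, 1, 0), (15, 0, 3), (16, 0, 2), (17, 0, 3), (18, 0, 4), (19, 0, 3), (20, 0, 2), (21, 0, 3), (14, 1, 3), (12, 2, 0), (10, 3, 1), (11, 3, 0), (8, 2, 4), (3, 2, 0), (4, 2, 1), (6, 1, 3), (7, 1, 4), (8, 1, 2), (10, 2, 0),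 (11, 2, 3), (14, 2, 1), (16, 1, 3), (17, 1, 4), (18, 1, 3), (10, 0, 3), (11, 0, 2), (12, 0, 3), (9, 1, 3)]
    (by decide +kernel)

theorem c32 (h : Cox g) : ev g (tq 3 ++ tq 2) = ev g (tq 2 ++ tq 3) :=
  word_eq g h _ _
    [(16, 1, 1), (15, 2, 4), (16, 2, 1), (18, 1, 3), (11, 4, 1), (12, 4, 2), (13, 4, 3), (15, 3, 1), (10, 3, 1), (6, 1, 4), (7, 1, 3), (8, 1, 2), (10, 2, 3), (13, 2, 4), (9, 1, 3), (5, 2, 4), (6, 2, 3), (9, 2, 1), (11, 1, 3), (12, 1, 4), (13, 1, 2), (15, 2, 3), (18, 2, 1), (20, 1, 1), (35, 1, 1), (34, 2, 2), (33, 3, 3), (32, 2, 2), (31, 1, 1), (30, 4, 4), (19, 2, 0), (20, 2, 1), (22, 1, 3), (23, 1, 2), (25, 2, 4), (26, 2, 3), (24, 1, 4), (25, 1, 3), (18, 1, 0), (20, 0, 2), (21, 0, 3), (22, 0, 2), (23, 0, 4), (24, 0, 3), (22, 2, 4), (14, 1, 3), (0, 1, 0), (2, 0, 2), (3, 0, 3), (4, 0, 4), (5, 0, 3), (6, 0,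 2), (7, 0, 3)]
    [(21, 1, 1), (20, 2, 2), (19, 3, 3), (18, 2, 2), (17, 1, 1), (16, 4, 4), (15, 3, 1), (16, 3, 0), (17, 3, 1), (11, 1, 4), (12, 1, 3), (13, 1, 2), (15, 2, 0), (5, 1, 0), (7, 0, 2), (8, 0, 3), (9, 0, 2), (10, 0, 4), (11, 0, 3), (12, 0, 2), (13, 0, 1), (15, 1, 2), (17, 2, 3), (20, 2, 2), (30, 1, 1), (14, 0, 2), (12, 2, 1), (14, 1, 0), (16, 0, 3), (17, 0, 2), (18, 0, 3), (15, 1, 3), (13, 2, 0), (11, 3, 1), (12, 3, 0), (9, 2, 4), (4, 2, 0), (5, 2, 1), (7, 1, 3), (8, 1, 4), (9, 1, 2), (11, 2, 0), (12, 2, 3), (15, 2, 1), (17, 1, 3), (18, 1, 0), (20, 0, 4), (21, 0, 3), (22, 0, 2), (23, 0, 3), (24, 0, 4), (17, 3, 0), (18, 3, 1), (19, 3, 4), (21, 4, 2), (22, 4, 3), (16, 2, 0), (11, 0, 3), (12, 0, 2), (13, 0, 3), (14, 0, 1), (16, 1, 2), (18, 2, 4), (19, 2, 3), (22, 2, 4), (17, 1, 4), (18, 1, 3), (15, 0, 2), (16, 0,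 4), (17, 0, 3), (15, 2, 4), (14, 1, 4), (8, 4, 2), (9, 4, 1), (3, 3, 0), (4, 3, 1), (5, 3, 2), (8, 3, 1), (9, 3, 4), (11, 4, 2), (12, 4, 3), (2, 2, 0), (3, 2, 1), (5, 1, 3), (6, 1, 2), (8, 2, 4), (9, 2, 3), (12, 2, 4), (7, 1, 4), (8, 1, 3), (1, 1, 0), (3, 0, 2), (4, 0, 3), (5, 0, 2), (6, 0, 4), (7, 0, 3), (5, 2, 4), (0, 4, 0), (1, 4, 1), (2, 4, 2), (3, 4, 3)]
    (by decide +kernel)

theorem k10 (h : Cox g) : ev g ([1] ++ (tq 0 ++ [1])) = ev g (tq 3) :=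
  word_eq g h _ _
    [(16, 1, 1), (6, 1, 4), (7, 1, 3), (0, 1, 0), (2, 0, 2), (3, 0, 3), (4, 0, 2), (5, 0, 4), (6, 0, 3), (4, 2, 4)]
    [(16, 1, 1), (6, 1, 4), (7, 1, 3), (0, 1, 0), (2, 0, 2), (3, 0, 3), (4, 0, 2), (5, 0, 4), (6, 0, 3), (4, 2, 4)]
    (by decide +kernel)

theorem k11 (h : Cox g) : ev g ([1] ++ (tq 1 ++ [1])) = ev g (tq 0 ++ (tq 1 ++ ((tq 3).reverse))) :=
  word_eq g h _ _
    [(0, 1, 1), (19, 1, 1), (18, 2, 2), (17, 3, 3), (16, 2, 2), (15, 1, 1), (9, 1, 4), (10, 1, 3), (3, 1, 0), (5, 0, 2), (6, 0, 3), (7, 0, 2), (8, 0, 4), (9, 0, 3), (7, 2, 4), (2, 2, 0), (3, 2, 1), (5, 1, 3), (6, 1, 4)]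
    [(15, 1, 1), (14, 2, 2), (13, 3, 3), (12, 2, 2), (11, 1, 1), (26, 1, 1), (25, 2, 2), (24, 3, 3), (23, 2, 2), (22, 1, 1), (22, 1, 1), (21, 4, 2), (18, 3, 2), (21, 3, 4), (23, 4, 2), (24, 4, 1), (25, 4, 4), (20, 2, 4), (17, 4, 2), (18, 4, 3), (20, 3, 2), (23, 3, 1), (24, 3, 3), (15, 2, 1), (17, 1, 3), (18, 1, 4), (14, 3, 1), (12, 1, 2), (14, 2, 3), (17, 2, 4), (18, 2, 1), (20, 1, 3), (21, 1, 2), (23, 2, 2), (10, 4, 0), (11, 4, 2), (12, 4, 1), (9, 3, 0), (8, 2, 0), (7, 3, 0), (8, 3, 2), (11, 3, 1), (12, 3, 4), (14, 4, 2), (15, 4, 3), (17, 3, 1), (18, 3, 2), (21, 3, 1), (22, 3, 3), (16, 4, 1), (17, 4, 2), (15, 3, 1), (11, 1, 4), (12, 1, 3), (13, 1, 2), (10, 2, 4), (6, 4, 0), (7, 4, 2), (8, 4, 3), (10, 3, 2), (13, 3, 1), (14, 3, 2), (17, 3, 4), (19, 4, 2), (20, 4, 1), (21, 4, 4), (20, 1, 1), (19, 2, 2), (18, 3, 3), (16, 2,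 4), (17, 2, 2), (12, 2, 1), (14, 1, 3), (15, 1, 4), (16, 1, 1), (6, 0, 2), (7, 0, 3), (8, 0, 4), (9, 0, 2), (10, 0, 3), (4, 2, 1), (6, 1, 3), (7, 1, 4), (3, 3, 1), (1, 1, 2), (3, 2, 3), (6, 2, 4), (7, 2, 1), (9, 1, 3), (10, 1, 0), (12, 0, 2), (13, 0, 3), (14, 0, 4), (15, 0, 0), (2, 1, 3), (0, 0, 2), (1, 0, 3)]
    (by decide +kernel)

theorem k12 (h : Cox g) : ev g ([1] ++ (tq 2 ++ [1])) = ev g (tq 0 ++ (tq 2 ++ ((tq 3).reverse))) :=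
  word_eq g h _ _
    [(0, 1, 4), (1, 1, 1), (20, 1, 1), (19, 2, 2), (18, 3, 3), (17, 2, 2), (16, 1, 1), (15, 4, 4), (10, 1, 4), (11, 1, 3), (4, 1, 0), (6, 0, 2), (7, 0, 3), (8, 0, 2), (9, 0, 4), (10, 0, 3), (8, 2, 4), (3, 2, 0), (4, 2, 1), (6, 1, 3), (7, 1, 4)]
    [(15, 1, 4), (16, 1, 1), (14, 2, 4), (15, 2, 2), (10, 4, 1), (11, 4, 2), (12, 4, 3), (14, 3, 3), (9, 3, 1), (5, 1, 4), (6, 1, 3), (7, 1, 2), (9, 2, 3), (12, 2, 4), (13, 2, 2), (8, 1, 3), (4, 2, 4), (5, 2, 3), (8, 2, 1), (10, 1, 3), (11, 1, 4), (12, 1, 1), (27, 1, 1), (26, 2, 2), (25, 3, 3), (24, 2, 2), (23, 1, 1), (22, 4, 4), (22, 1, 1), (19, 3, 2), (22, 3, 3), (21, 2, 2), (17, 1, 4), (16, 2, 4), (17, 2, 1), (19, 1, 3), (20, 1, 1), (16, 4, 1), (17, 4, 2), (18, 4, 3), (20, 3, 3), (15, 3, 1), (13, 1, 2), (15, 2, 3), (18, 2, 4), (19, 2, 2), (11, 4, 0), (12, 4, 2),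 (13, 4, 1), (10, 3, 0), (9, 2, 0), (7, 3, 1), (8, 3, 0), (9, 3, 2), (12, 3, 1), (13, 3, 4), (15, 4, 2), (16, 4, 3), (18, 3, 3), (17, 4, 4), (16, 3, 1), (12, 1, 4), (13, 1, 3), (14, 1, 2), (11, 2, 4), (3, 3, 4), (5, 4, 2), (6, 4, 1), (7, 4, 0), (8, 4, 2), (9, 4, 3), (11, 3, 2), (14, 3, 1), (15, 3, 2), (18, 3, 3), (17, 2, 2), (13, 2, 1), (15, 1, 3), (16, 1, 1), (7, 0, 2), (8, 0, 3), (9, 0, 4), (10, 0, 2), (11, 0, 3), (5, 2, 1), (7, 1, 3), (8, 1, 4), (4, 3, 1), (2, 2, 4), (1, 1, 4), (2, 1, 2), (4, 2, 3), (7, 2, 4), (8, 2, 1), (10, 1, 3), (11, 1, 0), (13, 0, 2), (14, 0, 3), (15, 0, 0), (3, 1, 3), (0, 0, 4), (1, 0, 2), (2, 0, 3)]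
    (by decide +kernel)

theorem k13 (h : Cox g) : ev g ([1] ++ (tq 3 ++ [1])) = ev g (tq 0) :=
  word_eq g h _ _
    [(0, 1, 1), (15, 1, 1), (5, 1, 4), (6, 1, 3), (4, 2, 4)]
    [(5, 1, 4), (6, 1, 3), (4, 2, 4)]
    (by decide +kernel)

theorem k20 (h : Cox g) : ev g ([2] ++ (tq 0 ++ [2])) = ev g (tq 0) :=
  word_eq g h _ _
    [(0, 2, 0), (1, 2, 1), (3, 1, 3), (4, 1, 2), (6, 2, 4), (7, 2, 3), (10, 2, 4), (11, 2, 1), (13, 1, 3), (14, 1, 2), (16, 2, 2), (5, 1, 4), (6, 1, 3), (4, 2, 4)]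
    [(5, 1, 4), (6, 1, 3), (4, 2, 4)]
    (by decide +kernel)

theorem k21 (h : Cox g) : ev g ([2] ++ (tq 1 ++ [2])) = ev g (tq 1) :=
  word_eq g h _ _
    [(21, 1, 1), (20, 2, 2), (19, 3, 3), (18, 2, 2), (17, 1, 1), (0, 2, 1), (2, 1, 3), (3, 1, 2), (5, 2, 0), (6, 2, 1), (8, 1, 3), (9, 1, 2), (11, 2, 4), (12, 2, 3), (15, 2, 4), (16, 2, 2), (10, 1, 4), (11, 1, 3), (4, 1, 0), (6, 0, 2), (7, 0, 3), (8, 0, 2), (9, 0, 4), (10, 0, 3), (8, 2, 4), (3, 2, 0), (4, 2, 1), (6, 1, 3), (7, 1, 4)]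
    [(20, 1, 1), (19, 2, 2), (18, 3, 3), (17, 2, 2), (16, 1, 1), (10, 1, 4), (11, 1, 3), (4, 1, 0), (6, 0, 2), (7, 0, 3), (8, 0, 2), (9, 0, 4), (10, 0, 3), (8, 2, 4), (3, 2, 0), (4, 2, 1), (6, 1, 3), (7, 1, 4)]
    (by decide +kernel)

theorem k22 (h : Cox g) : ev g ([2] ++ (tq 2 ++ [2])) = ev g (tq 2) :=
  word_eq g h _ _
    [(22, 1, 1), (21, 2, 2), (20, 3, 3), (19, 2, 2), (18, 1, 1), (17, 4, 4), (0, 2, 4), (1, 2, 1), (3, 1, 3), (4, 1, 2), (6, 2, 0), (7, 2, 1), (9, 1, 3), (10, 1, 2), (12, 2, 4), (13, 2, 3), (16, 2, 2), (11, 1, 4), (12, 1, 3), (5, 1, 0), (7, 0, 2), (8, 0, 3), (9, 0, 2), (10, 0, 4), (11, 0, 3), (9, 2, 4), (4, 2, 0), (5, 2, 1), (7, 1, 3), (8, 1, 4)]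
    [(21, 1, 1), (20, 2, 2), (19, 3, 3), (18, 2, 2), (17, 1, 1), (16, 4, 4), (11, 1, 4), (12, 1, 3), (5, 1, 0), (7, 0, 2), (8, 0, 3), (9, 0, 2), (10, 0, 4), (11, 0, 3), (9, 2, 4), (4, 2, 0), (5, 2, 1), (7, 1, 3), (8, 1, 4)]
    (by decide +kernel)

theorem k23 (h : Cox g) : ev g ([2] ++ (tq 3 ++ [2])) = ev g (tq 0 ++ (tq 1 ++ (tq 2 ++ ((tq 3).reverse)))) :=
  word_eq g h _ _
    [(17, 1, 1), (16, 2, 2), (7, 1, 4), (8, 1, 3), (1, 1, 0), (3, 0, 2), (4, 0, 3), (5, 0, 2), (6, 0, 4), (7, 0, 3), (5, 2, 4), (0, 2, 0), (1, 2, 1), (3, 1, 3), (4, 1, 4)]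
    [(15, 1, 1), (14, 2, 2), (13, 3, 3), (12, 2, 2), (11, 1, 1), (26, 1, 1), (25, 2, 2), (24, 3, 3), (23, 2, 2), (22, 1, 1), (21, 4, 4), (20, 3, 1), (16, 1, 4), (17, 1, 3), (18, 1, 2), (15, 2, 4), (10, 4, 0), (11, 4, 1), (12, 4, 2), (13, 4, 3), (15, 3, 2), (18, 3, 1), (19, 3, 2), (22, 3, 3), (21, 2, 2), (17, 2, 1), (19, 1, 3), (20, 1, 1), (19, 3, 0), (20, 3, 1), (21, 3, 2), (24, 3, 1), (25, 3, 4), (27, 4, 2), (28, 4, 3), (30, 3, 1), (18, 2, 0), (19, 2, 1), (21, 1, 3), (22, 1, 2), (24, 2, 4), (25, 2, 3), (28, 2, 4), (23, 1, 4), (24, 1, 3), (22, 2, 4), (14, 4, 2), (9, 3, 0), (10, 3, 1), (11, 3, 2), (14, 3, 4), (16, 4, 1), (17, 4, 0), (18, 4, 1), (19, 4, 2), (20, 4, 3), (15, 3, 1), (16, 3, 0), (17, 3, 1), (13, 2, 4), (8, 2, 0), (9, 2, 1), (11, 1, 3), (12, 1, 4), (13, 1, 2), (15, 2, 0), (5, 1, 4), (6, 1, 3), (7, 1, 0), (9, 0,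 2), (10, 0, 3), (11, 0, 4), (12, 0, 2), (13, 0, 1), (15, 1, 2), (17, 2, 3), (20, 2, 4), (21, 2, 3), (24, 2, 1), (26, 1, 3), (27, 1, 4), (28, 1, 2), (30, 2, 3), (33, 2, 2), (29, 1, 3), (19, 3, 4), (21, 4, 2), (18, 2, 4), (11, 4, 2), (12, 4, 1), (13, 4, 0), (14, 4, 2), (15, 4, 1), (16, 4, 3), (18, 3, 2), (21, 3, 4), (23, 4, 1), (24, 4, 2), (25, 4, 3), (22, 3, 1), (20, 2, 4), (15, 1, 3), (16, 1, 4), (6, 3, 0), (7, 3, 1), (8, 3, 2), (11, 3, 1), (12, 3, 0), (4, 2, 4), (5, 2, 0), (6, 2, 1), (8, 1, 3), (9, 1, 2), (11, 2, 0), (12, 2, 3), (15, 2, 4), (16, 2, 1), (18, 1, 3), (19, 1, 4), (20, 1, 2), (22, 2, 3), (25, 2, 4), (26, 2, 3), (29, 2, 1), (31, 1, 3), (32, 1, 1), (31, 3, 1), (29, 1, 2), (26, 3, 2), (29, 3, 1), (30, 3, 2), (33, 3, 3), (32, 2, 2), (28, 2, 1), (30, 1, 3), (31, 1, 1), (25, 4, 2), (22, 3, 2), (25, 3, 4), (27, 4, 1),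 (28, 4, 2), (26, 3, 1), (24, 2, 4), (20, 2, 1), (22, 1, 3), (23, 1, 4), (24, 1, 2), (19, 4, 1), (20, 4, 2), (21, 4, 3), (18, 3, 1), (16, 1, 2), (18, 2, 3), (21, 2, 4), (15, 4, 2), (16, 4, 1), (12, 3, 2), (15, 3, 1), (16, 3, 4), (18, 4, 2), (19, 4, 3), (21, 3, 2), (24, 3, 1), (25, 3, 2), (28, 3, 4), (30, 4, 4), (30, 1, 1), (27, 2, 4), (20, 4, 2), (17, 3, 2), (20, 3, 4), (22, 4, 2), (23, 4, 1), (24, 4, 2), (25, 4, 3), (27, 3, 2), (30, 3, 3), (29, 2, 2), (22, 2, 1), (24, 1, 3), (25, 1, 4), (21, 3, 1), (19, 2, 4), (15, 1, 4), (14, 2, 4), (15, 2, 1), (17, 1, 3), (18, 1, 4), (19, 1, 2), (21, 2, 3), (24, 2, 4), (25, 2, 1), (27, 1, 3), (28, 1, 1), (24, 4, 1), (25, 4, 2), (23, 3, 1), (20, 1, 3), (21, 1, 2), (14, 4, 1), (15, 4, 2), (16, 4, 3), (18, 3, 2), (21, 3, 1), (22, 3, 2), (25, 3, 4), (27, 4, 4), (26, 3, 3), (24, 2, 4), (25,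 2, 2), (17, 4, 2), (13, 3, 1), (14, 3, 2), (17, 3, 4), (19, 4, 2), (20, 4, 1), (21, 4, 2), (22, 4, 3), (24, 3, 3), (23, 4, 4), (19, 2, 1), (21, 1, 3), (22, 1, 1), (18, 3, 1), (16, 2, 4), (12, 2, 1), (14, 1, 3), (15, 1, 4), (16, 1, 2), (18, 2, 3), (21, 2, 2), (20, 3, 3), (19, 2, 2), (17, 1, 3), (18, 1, 1), (10, 1, 0), (12, 0, 2), (13, 0, 3), (14, 0, 4), (15, 0, 2), (16, 0, 3), (17, 0, 0), (9, 2, 0), (10, 2, 1), (12, 1, 3), (13, 1, 4), (8, 3, 0), (9, 3, 1), (7, 2, 0), (5, 0, 1), (7, 1, 2), (9, 2, 3), (12, 2, 4), (13, 2, 1), (15, 1, 3), (16, 1, 1), (8, 1, 3), (6, 0, 2), (7, 0, 3)]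
    (by decide +kernel)

theorem k30 (h : Cox g) : ev g ([3] ++ (tq 0 ++ [3])) = ev g (tq 0) :=
  word_eq g h _ _
    [(0, 3, 0), (1, 3, 1), (2, 3, 2), (5, 3, 1), (6, 3, 4), (8, 4, 2), (9, 4, 3), (11, 3, 1), (12, 3, 2), (15, 3, 1), (16, 3, 3), (5, 1, 4), (6, 1, 3), (4, 2, 4)]
    [(5, 1, 4), (6, 1, 3), (4, 2, 4)]
    (by decide +kernel)

theorem k31 (h : Cox g) : ev g ([3] ++ (tq 1 ++ [3])) = ev g (tq 1) :=
  word_eq g h _ _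
    [(21, 1, 1), (20, 2, 2), (19, 3, 3), (18, 2, 2), (17, 1, 1), (0, 3, 1), (1, 3, 2), (4, 3, 1), (5, 3, 0), (6, 3, 1), (7, 3, 2), (10, 3, 1), (11, 3, 4), (13, 4, 2), (14, 4, 3), (16, 3, 3), (10, 1, 4), (11, 1, 3), (4, 1, 0), (6, 0, 2), (7, 0, 3), (8, 0, 2), (9, 0, 4), (10, 0, 3), (8, 2, 4), (3, 2, 0), (4, 2, 1), (6, 1, 3), (7, 1, 4)]
    [(20, 1, 1), (19, 2, 2), (18, 3, 3), (17, 2, 2), (16, 1, 1), (10, 1, 4), (11, 1, 3), (4, 1, 0), (6, 0, 2), (7, 0, 3), (8, 0, 2), (9, 0, 4), (10, 0, 3), (8, 2, 4), (3, 2, 0), (4, 2, 1), (6, 1, 3), (7, 1, 4)]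
    (by decide +kernel)

theorem k32 (h : Cox g) : ev g ([3] ++ (tq 2 ++ [3])) = ev g ((tq 0).reverse ++ ((tq 1).reverse ++ ((tq 2).reverse ++ (tq 3 ++ (tq 3))))) :=
  word_eq g h _ _
    [(22, 1, 1), (21, 2, 2), (20, 3, 3), (19, 2, 2), (18, 1, 1), (17, 4, 4), (16, 3, 3), (12, 1, 4), (13, 1, 3), (6, 1, 0), (8, 0, 2), (9, 0, 3), (10, 0, 2), (11, 0, 4), (12, 0, 3), (10, 2, 4), (5, 2, 0), (6, 2, 1), (8, 1, 3), (9, 1, 4)]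
    [(20, 1, 1), (19, 2, 2), (18, 3, 3), (17, 2, 2), (16, 1, 1), (15, 0, 4), (16, 0, 3), (17, 0, 2), (18, 0, 3), (19, 0, 4), (14, 1, 4), (15, 1, 3), (13, 2, 4), (9, 4, 1), (10, 4, 2), (11, 4, 3), (8, 3, 1), (4, 1, 4), (5, 1, 3), (6, 1, 2), (8, 2, 3), (11, 2, 4), (12, 2, 3), (15, 2, 1), (17, 1, 3), (18, 1, 4), (19, 1, 0), (21, 0, 2), (22, 0, 3), (23, 0, 2), (24, 0, 1), (26, 1, 1), (14, 3, 1), (7, 1, 3), (3, 2, 4), (4, 2, 3), (7, 2, 1), (9, 1, 3), (10, 1, 4), (11, 1, 3), (12, 1, 2), (14, 2, 3), (17, 2, 4), (18, 2, 0), (19, 2, 1), (21, 1, 3), (22, 1, 2), (24, 2, 0), (25, 2, 2), (9, 3, 4), (11, 4, 2), (12, 4, 1), (8, 2, 4), (6, 3, 1), (2, 3, 4), (4, 4, 2), (5, 4, 1), (6, 4, 3), (8, 3, 2), (11, 3, 1), (12, 3, 4), (14, 4, 2), (15, 4, 3), (17, 3, 0), (18, 3, 1), (19, 3, 2), (22, 3, 1), (23, 3, 0), (24, 3, 3), (5, 1, 3), (6, 1, 4),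 (1, 2, 4), (2, 2, 3), (5, 2, 4), (6, 2, 1), (8, 1, 3), (9, 1, 2), (11, 2, 4), (12, 2, 3), (15, 2, 4), (16, 2, 0), (17, 2, 1), (19, 1, 3), (20, 1, 2), (22, 2, 0), (23, 2, 2), (10, 1, 4), (11, 1, 3), (9, 2, 4), (5, 4, 1), (6, 4, 2), (7, 4, 3), (4, 3, 1), (0, 1, 4), (1, 1, 3), (2, 1, 2), (4, 2, 3), (7, 2, 4), (8, 2, 3), (11, 2, 1), (13, 1, 3), (14, 1, 4), (15, 1, 0), (17, 0, 2), (18, 0, 3), (19, 0, 2), (20, 0, 1), (22, 1, 1), (27, 1, 1), (26, 2, 2), (25, 3, 3), (24, 2, 2), (23, 1, 1), (22, 4, 4), (21, 0, 3), (22, 0, 2), (23, 0, 3), (24, 0, 4), (20, 1, 3), (17, 2, 3), (20, 2, 1), (22, 1, 3), (23, 1, 4), (24, 1, 0), (26, 0, 2), (27, 0, 3), (28, 0, 2), (29, 0, 1), (31, 1, 1), (19, 3, 1), (16, 1, 3), (17, 1, 2), (19, 2, 3), (22, 2, 4), (23, 2, 0), (24, 2, 1), (26, 1, 3), (27, 1, 2), (29, 2, 0), (30, 2, 2), (14, 4, 0), (13, 3, 0),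 (14, 3, 4), (16, 4, 2), (17, 4, 1), (12, 2, 0), (13, 2, 4), (10, 3, 1), (11, 3, 0), (6, 3, 4), (8, 4, 2), (9, 4, 1), (10, 4, 0), (11, 4, 3), (13, 3, 2), (16, 3, 1), (17, 3, 4), (19, 4, 2), (20, 4, 3), (22, 3, 0), (23, 3, 1), (24, 3, 2), (27, 3, 1), (28, 3, 0), (29, 3, 3), (21, 4, 0), (22, 4, 1), (23, 4, 2), (20, 3, 0), (21, 3, 1), (19, 2, 0), (16, 1, 4), (17, 1, 3), (10, 0, 3), (11, 0, 4), (12, 0, 2), (13, 0, 3), (14, 0, 2), (15, 0, 4), (16, 0, 3), (17, 0, 1), (19, 1, 2), (16, 3, 1), (17, 3, 0), (14, 2, 4), (9, 1, 3), (10, 1, 4), (5, 2, 4), (6, 2, 3), (9, 2, 4), (10, 2, 1), (12, 1, 3), (13, 1, 4), (14, 1, 2), (16, 2, 0), (9, 4, 1), (10, 4, 2), (11, 4, 3), (8, 3, 1), (3, 1, 3), (4, 1, 4), (5, 1, 3), (6, 1, 2), (8, 2, 3), (11, 2, 4), (3, 3, 4), (5, 4, 2), (6, 4, 1), (2, 2, 4), (0, 4, 3), (2, 3, 2), (5, 3, 1), (6, 3, 4), (8,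 4, 2), (9, 4, 3), (11, 3, 2), (14, 3, 1), (15, 3, 0), (16, 3, 2), (19, 3, 1), (20, 3, 2), (23, 3, 4), (25, 4, 2), (26, 4, 1), (27, 4, 0), (28, 4, 2), (29, 4, 1), (30, 4, 4), (29, 1, 1), (27, 0, 2), (28, 0, 0), (25, 2, 1), (27, 1, 1), (26, 2, 2), (24, 3, 1), (25, 3, 3), (22, 2, 4), (18, 2, 1), (20, 1, 3), (21, 1, 4), (22, 1, 2), (24, 2, 2), (23, 1, 1), (21, 4, 2), (22, 4, 4), (17, 3, 1), (18, 3, 2), (21, 3, 3), (20, 2, 2), (19, 3, 3), (10, 4, 2), (7, 3, 2), (10, 3, 4), (12, 4, 2), (13, 4, 1), (14, 4, 0), (15, 4, 2), (16, 4, 1), (17, 4, 2), (18, 4, 4), (15, 2, 1), (17, 1, 1), (16, 2, 2), (9, 2, 4), (6, 4, 2), (7, 4, 3), (9, 3, 2), (12, 3, 1), (13, 3, 0), (14, 3, 1), (15, 3, 3), (16, 1, 1), (12, 1, 0), (14, 0, 2), (11, 2, 0), (12, 2, 1), (14, 1, 0), (16, 0, 0), (15, 1, 1), (13, 2, 0), (14, 2, 2), (10, 3, 0), (11, 3, 1), (12,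 3, 0), (13, 3, 3), (10, 0, 1), (4, 2, 1), (6, 1, 3), (7, 1, 4), (8, 1, 2), (10, 2, 0), (11, 2, 1), (13, 1, 1), (7, 4, 2), (8, 4, 1), (9, 4, 0), (10, 4, 1), (11, 4, 2), (12, 4, 4), (3, 3, 1), (4, 3, 2), (7, 3, 1), (8, 3, 0), (9, 3, 1), (10, 3, 2), (13, 3, 3), (12, 2, 4), (2, 2, 1), (4, 1, 3), (5, 1, 2), (7, 2, 0), (8, 2, 1), (10, 1, 3), (11, 1, 4), (12, 1, 2), (14, 2, 2), (16, 1, 1), (13, 1, 3), (6, 1, 0), (8, 0, 2), (9, 0, 3), (10, 0, 4), (11, 0, 2), (12, 0, 3), (5, 2, 0), (6, 2, 1), (8, 1, 3), (9, 1, 4)]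
    (by decide +kernel)

theorem k33 (h : Cox g) : ev g ([3] ++ (tq 3 ++ [3])) = ev g (tq 3) :=
  word_eq g h _ _
    [(17, 1, 1), (0, 3, 1), (1, 3, 0), (2, 3, 1), (3, 3, 2), (6, 3, 1), (7, 3, 4), (9, 4, 2), (10, 4, 3), (12, 3, 1), (13, 3, 2), (16, 3, 3), (6, 1, 4), (7, 1, 3), (0, 1, 0), (2, 0, 2), (3, 0, 3), (4, 0, 2), (5, 0, 4), (6, 0, 3), (4, 2, 4)]
    [(16, 1, 1), (6, 1, 4), (7, 1, 3), (0, 1, 0), (2, 0, 2), (3, 0, 3), (4, 0, 2), (5, 0, 4), (6, 0, 3), (4, 2, 4)]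
    (by decide +kernel)

theorem k40 (h : Cox g) : ev g ([4] ++ (tq 0 ++ [4])) = ev g (tq 0) :=
  word_eq g h _ _
    [(11, 4, 1), (12, 4, 2), (10, 3, 1), (6, 1, 4), (7, 1, 3), (8, 1, 2), (5, 2, 4), (0, 4, 0), (1, 4, 1), (2, 4, 2), (3, 4, 3), (5, 3, 2), (8, 3, 1), (9, 3, 2), (12, 3, 4), (14, 4, 2), (15, 4, 1), (16, 4, 4), (11, 2, 4), (7, 2, 1), (9, 1, 3), (10, 1, 4)]
    [(5, 1, 4), (6, 1, 3), (4, 2, 4)]
    (by decide +kernel)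

theorem k41 (h : Cox g) : ev g ([4] ++ (tq 1 ++ [4])) = ev g (tq 2) :=
  word_eq g h _ _
    [(21, 1, 1), (20, 2, 2), (19, 3, 3), (18, 2, 2), (17, 1, 1), (16, 4, 4), (11, 1, 4), (12, 1, 3), (5, 1, 0), (7, 0, 2), (8, 0, 3), (9, 0, 2), (10, 0, 4), (11, 0, 3), (9, 2, 4), (4, 2, 0), (5, 2, 1), (7, 1, 3), (8, 1, 4)]
    [(21, 1, 1), (20, 2, 2), (19, 3, 3), (18, 2, 2), (17, 1, 1), (16, 4, 4), (11, 1, 4), (12, 1, 3), (5, 1, 0), (7, 0, 2), (8, 0, 3), (9, 0, 2), (10, 0, 4), (11, 0, 3), (9, 2, 4), (4, 2, 0), (5, 2, 1), (7, 1, 3), (8, 1, 4)]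
    (by decide +kernel)

theorem k42 (h : Cox g) : ev g ([4] ++ (tq 2 ++ [4])) = ev g (tq 1) :=
  word_eq g h _ _
    [(0, 4, 4), (20, 1, 1), (19, 2, 2), (18, 3, 3), (17, 2, 2), (16, 1, 1), (15, 4, 4), (10, 1, 4), (11, 1, 3), (4, 1, 0), (6, 0, 2), (7, 0, 3), (8, 0, 2), (9, 0, 4), (10, 0, 3), (8, 2, 4), (3, 2, 0), (4, 2, 1), (6, 1, 3), (7, 1, 4)]
    [(20, 1, 1), (19, 2, 2), (18, 3, 3), (17, 2, 2), (16, 1, 1), (10, 1, 4), (11, 1, 3), (4, 1, 0), (6, 0, 2), (7, 0, 3), (8, 0, 2), (9, 0, 4), (10, 0, 3), (8, 2, 4), (3, 2, 0), (4, 2, 1), (6, 1, 3), (7, 1, 4)]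
    (by decide +kernel)

theorem k43 (h : Cox g) : ev g ([4] ++ (tq 3 ++ [4])) = ev g (tq 3) :=
  word_eq g h _ _
    [(17, 1, 1), (12, 4, 1), (13, 4, 2), (11, 3, 1), (7, 1, 4), (8, 1, 3), (9, 1, 2), (6, 2, 4), (0, 4, 1), (1, 4, 0), (2, 4, 1), (3, 4, 2), (4, 4, 3), (6, 3, 2), (9, 3, 1), (10, 3, 2), (13, 3, 4), (15, 4, 2), (16, 4, 4), (12, 2, 4), (8, 2, 1), (10, 1, 3), (11, 1, 4), (0, 1, 0), (2, 0, 2), (3, 0, 3), (4, 0, 4), (5, 0, 2), (6, 0, 3)]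
    [(16, 1, 1), (6, 1, 4), (7, 1, 3), (0, 1, 0), (2, 0, 2), (3, 0, 3), (4, 0, 2), (5, 0, 4), (6, 0, 3), (4, 2, 4)]
    (by decide +kernel)

theorem x1 (h : Cox g) : ev g ([4, 3, 2, 3, 4] ++ (tX ++ [4, 3, 2, 3, 4])) = ev g (tq 0 ++ (tq 1).reverse) :=
  word_eq g h _ _
    [(26, 4, 4), (25, 3, 3), (24, 2, 2), (23, 3, 3), (22, 4, 4), (10, 1, 4), (11, 1, 3), (9, 2, 4), (4, 4, 0), (5, 4, 1), (6, 4, 2), (7, 4, 3)]
    [(15, 1, 1), (14, 2, 2), (13, 3, 3), (12, 2, 2), (11, 1, 1), (15, 1, 4), (16, 1, 3), (14, 2, 4), (10, 4, 1), (11, 4, 2), (12, 4, 3), (9, 3, 1), (5, 1, 4), (6, 1, 3), (7, 1, 2), (9, 2, 3), (12, 2, 4), (13, 2, 3), (16, 2, 1), (18, 1, 3), (19, 1, 4), (20, 1, 1), (15, 3, 1), (8, 1, 3), (4, 2, 4), (5, 2, 3), (8, 2, 1), (10, 1, 3), (11, 1, 4), (12, 1, 3), (13, 1, 2), (15, 2, 3), (18, 2, 4), (19, 2, 2), (10, 3, 4), (12,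 4, 2), (13, 4, 1), (9, 2, 4), (7, 3, 1), (3, 3, 4), (5, 4, 2), (6, 4, 1), (7, 4, 3), (9, 3, 2), (12, 3, 1), (13, 3, 4), (15, 4, 2), (16, 4, 3), (18, 3, 3), (6, 1, 3), (7, 1, 4), (2, 2, 4), (3, 2, 3), (6, 2, 4), (7, 2, 1), (9, 1, 3), (10, 1, 2), (12, 2, 4), (13, 2, 3), (16, 2, 4), (17, 2, 2), (11, 1, 4), (12, 1, 3), (10, 2, 4), (6, 4, 1), (7, 4, 2), (8, 4, 3), (5, 3, 1), (1, 1, 4), (2, 1, 3), (3, 1, 2), (5, 2, 3), (8, 2, 4), (9, 2, 3), (12, 2, 1), (14, 1, 3), (15, 1, 4), (16, 1, 1), (4, 1, 3), (0, 0, 4), (1, 0, 3), (2, 0, 2), (3, 0, 3)]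
    (by decide +kernel)

theorem x2 (h : Cox g) : ev g ([3, 2, 3, 4] ++ (tX ++ [4, 3, 2, 3])) = ev g (tq 0 ++ (tq 2).reverse) :=
  word_eq g h _ _
    [(25, 4, 4), (24, 3, 3), (23, 2, 2), (22, 3, 3), (20, 1, 4), (19, 2, 4), (14, 4, 0), (15, 4, 1), (16, 4, 2), (17, 4, 3), (9, 1, 4), (10, 1, 3), (8, 2, 4), (3, 4, 0), (4, 4, 1), (5, 4, 2), (6, 4, 3)]
    [(15, 1, 4), (16, 1, 1), (14, 2, 4), (15, 2, 2), (10, 4, 1), (11, 4, 2), (12, 4, 3), (14, 3, 3), (9, 3, 1), (5, 1, 4), (6, 1, 3), (7, 1, 2), (9, 2, 3), (12, 2, 4), (13, 2, 2), (8, 1, 3), (4, 2, 4), (5, 2, 3), (8, 2, 1), (10, 1, 3), (11, 1, 4), (12, 1, 1), (11, 4, 1), (12, 4, 2), (10, 3, 1), (8, 1, 2), (5, 3, 2), (8, 3, 1), (9, 3, 2), (12, 3, 4), (14, 4, 2), (15, 4, 1), (16, 4, 4), (15, 1, 3), (11, 2, 4), (12, 2, 3), (15, 2, 1), (17, 1, 3), (18, 1, 4), (19, 1, 1), (14, 3, 1),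 (7, 2, 1), (9, 1, 3), (10, 1, 4), (11, 1, 3), (12, 1, 2), (14, 2, 3), (17, 2, 4), (18, 2, 2), (9, 3, 4), (11, 4, 2), (12, 4, 1), (8, 2, 4), (6, 3, 1), (4, 4, 2), (5, 4, 1), (6, 4, 3), (8, 3, 2), (11, 3, 1), (12, 3, 4), (14, 4, 2), (15, 4, 3), (17, 3, 3), (5, 1, 3), (6, 1, 4), (2, 2, 3), (5, 2, 4), (6, 2, 1), (8, 1, 3), (9, 1, 2), (11, 2, 4), (12, 2, 3), (15, 2, 4), (16, 2, 2), (10, 1, 4), (11, 1, 3), (9, 2, 4), (5, 4, 1), (6, 4, 2), (7, 4, 3), (4, 3, 1), (1, 1, 3), (2, 1, 2), (4, 2, 3), (7, 2, 4), (8, 2, 3), (11, 2, 1), (13, 1, 3), (14, 1, 4), (15, 1, 1), (20, 1, 4), (19, 2, 4), (14, 4, 0), (15, 4, 1), (16, 4, 2), (17, 4, 3), (3, 1, 3), (0, 0, 3), (1, 0, 2), (2, 0, 3)]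
    (by decide +kernel)

theorem x0 (h : Cox g) : ev g tX = ev g (tq 0 ++ tq 1) :=
  word_eq g h _ _
    [(16, 1, 4), (17, 1, 3), (15, 2, 4), (10, 4, 0), (11, 4, 1), (12, 4, 2), (13, 4, 3), (5, 1, 4), (6, 1, 3), (4, 2, 4)]
    [(15, 1, 1), (14, 2, 2), (13, 3, 3), (12, 2, 2), (11, 1, 1), (26, 1, 1), (25, 2, 2), (24, 3, 3), (23, 2, 2), (22, 1, 1), (16, 1, 4), (17, 1, 3), (15, 2, 4), (10, 4, 0), (11, 4, 1), (12, 4, 2), (13, 4, 3), (5, 1, 4), (6, 1, 3), (4, 2, 4)]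
    (by decide +kernel)

theorem conj_gen (h : Cox g) (k : ℕ) (hk : k = 1 ∨ k = 2 ∨ k = 3 ∨ k = 4) (j : Fin 4) :
    g k * trq g j * g k ∈ Subgroup.closure (Set.range (trq g)) := by
  have ht : ∀ i, trq g i ∈ Subgroup.closure (Set.range (trq g)) :=
    fun i => Subgroup.subset_closure ⟨i, rfl⟩
  have hw : ∀ i, ev g (tq i) ∈ Subgroup.closure (Set.range (trq g)) := ht
  have hr : ∀ i, ev g (tq i).reverse ∈ Subgroup.closure (Set.range (trq g)) := by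
    intro i
    rw [ev_rev g h (tq i) (tq_lt i)]
    exact inv_mem (ht i)
  have e : g k * trq g j * g k = ev g ([k] ++ (tq j ++ [k])) := by
    rw [ev_app, ev_app, ev_one, mul_assoc]
    rfl
  rw [e]
  rcases hk with rfl | rfl | rfl | rfl <;> fin_cases j
  · show ev g ([1] ++ (tq 0 ++ [1])) ∈ _
    rw [k10 g h]
    try simp only [ev_app]
    exact (hw 3)
  · show ev g ([1] ++ (tq 1 ++ [1])) ∈ _
    rw [k11 g h]
    try simp only [ev_app]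
    exact (mul_mem (hw 0) (mul_mem (hw 1) (hr 3)))
  · show ev g ([1] ++ (tq 2 ++ [1])) ∈ _
    rw [k12 g h]
    try simp only [ev_app]
    exact (mul_mem (hw 0) (mul_mem (hw 2) (hr 3)))
  · show ev g ([1] ++ (tq 3 ++ [1])) ∈ _
    rw [k13 g h]
    try simp only [ev_app]
    exact (hw 0)
  · show ev g ([2] ++ (tq 0 ++ [2])) ∈ _
    rw [k20 g h]
    try simp only [ev_app]
    exact (hw 0)
  · show ev g ([2] ++ (tq 1 ++ [2])) ∈ _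
    rw [k21 g h]
    try simp only [ev_app]
    exact (hw 1)
  · show ev g ([2] ++ (tq 2 ++ [2])) ∈ _
    rw [k22 g h]
    try simp only [ev_app]
    exact (hw 2)
  · show ev g ([2] ++ (tq 3 ++ [2])) ∈ _
    rw [k23 g h]
    try simp only [ev_app]
    exact (mul_mem (hw 0) (mul_mem (hw 1) (mul_mem (hw 2) (hr 3))))
  · show ev g ([3] ++ (tq 0 ++ [3])) ∈ _
    rw [k30 g h]
    try simp only [ev_app]
    exact (hw 0)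
  · show ev g ([3] ++ (tq 1 ++ [3])) ∈ _
    rw [k31 g h]
    try simp only [ev_app]
    exact (hw 1)
  · show ev g ([3] ++ (tq 2 ++ [3])) ∈ _
    rw [k32 g h]
    try simp only [ev_app]
    exact (mul_mem (hr 0) (mul_mem (hr 1) (mul_mem (hr 2) (mul_mem (hw 3) (hw 3)))))
  · show ev g ([3] ++ (tq 3 ++ [3])) ∈ _
    rw [k33 g h]
    try simp only [ev_app]
    exact (hw 3)
  · show ev g ([4] ++ (tq 0 ++ [4])) ∈ _
    rw [k40 g h]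
    try simp only [ev_app]
    exact (hw 0)
  · show ev g ([4] ++ (tq 1 ++ [4])) ∈ _
    rw [k41 g h]
    try simp only [ev_app]
    exact (hw 2)
  · show ev g ([4] ++ (tq 2 ++ [4])) ∈ _
    rw [k42 g h]
    try simp only [ev_app]
    exact (hw 1)
  · show ev g ([4] ++ (tq 3 ++ [4])) ∈ _
    rw [k43 g h]
    try simp only [ev_app]
    exact (hw 3)

theorem trq_comm (h : Cox g) (i j : Fin 4) : Commute (trq g i) (trq g j) := by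
  have key : ∀ i j : Fin 4, ev g (tq i ++ tq j) = ev g (tq j ++ tq i) → Commute (trq g i) (trq g j) := by
    intro i j e
    rw [ev_app, ev_app] at e
    exact e
  fin_cases i <;> fin_cases j
  · exact Commute.refl _
  · exact (key 1 0 (c10 g h)).symm
  · exact (key 2 0 (c20 g h)).symm
  · exact (key 3 0 (c30 g h)).symm
  · exact key 1 0 (c10 g h)
  · exact Commute.refl _
  · exact (key 2 1 (c21 g h)).symm
  · exact (key 3 1 (c31 g h)).symm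
  · exact key 2 0 (c20 g h)
  · exact key 2 1 (c21 g h)
  · exact Commute.refl _
  · exact (key 3 2 (c32 g h)).symm
  · exact key 3 0 (c30 g h)
  · exact key 3 1 (c31 g h)
  · exact key 3 2 (c32 g h)
  · exact Commute.refl _

/-- `W` normalizes the translation subgroup. -/
theorem norm_gen (h : Cox g) {k : ℕ} (hk : k = 1 ∨ k = 2 ∨ k = 3 ∨ k = 4) {a : G}
    (ha : a ∈ Subgroup.closure (Set.range (trq g))) :
    g k * a * g k ∈ Subgroup.closure (Set.range (trq g)) := by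
  have hk5 : k < 5 := by omega
  have hs := sq h hk5
  induction ha using Subgroup.closure_induction with
  | mem x hx =>
    obtain ⟨j, rfl⟩ := hx
    exact conj_gen g h k hk j
  | one => rw [mul_one, hs]; exact one_mem _
  | mul x y _ _ ihx ihy =>
    have e : g k * (x * y) * g k = (g k * x * g k) * (g k * y * g k) := by
      have : (g k * x * g k) * (g k * y * g k) = g k * x * (g k * g k) * y * g k := by
        simp only [mul_assoc]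
      rw [this, hs, mul_one]
      simp only [mul_assoc]
    rw [e]
    exact mul_mem ihx ihy
  | inv x _ ih =>
    have hi : (g k)⁻¹ = g k := inv_eq_of_mul_eq_one_left hs
    have e : g k * x⁻¹ * g k = (g k * x * g k)⁻¹ := by
      rw [mul_inv_rev, mul_inv_rev, hi, mul_assoc]
    rw [e]
    exact inv_mem ih

/-- The main statement. -/
theorem decomp (h : Cox g) {x : G} (hx : x ∈ Subgroup.closure {g 0, g 1, g 2, g 3, g 4}) :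
    ∃ a : Fin 4 → ℤ, ∃ w ∈ Subgroup.closure {g 1, g 2, g 3, g 4}, x = pp (trq g) a * w := by
  have key : ∀ x ∈ Subgroup.closure {g 0, g 1, g 2, g 3, g 4},
      ∃ a ∈ Subgroup.closure (Set.range (trq g)), ∃ w ∈ Subgroup.closure {g 1, g 2, g 3, g 4},
        x = a * w := by
    have hgW : ∀ k, (k = 1 ∨ k = 2 ∨ k = 3 ∨ k = 4) →
        g k ∈ Subgroup.closure {g 1, g 2, g 3, g 4} := by
      intro k hk
      refine Subgroup.subset_closure ?_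
      rcases hk with rfl | rfl | rfl | rfl <;> simp
    have hevW : ∀ l : List ℕ, (∀ k ∈ l, (k = 1 ∨ k = 2 ∨ k = 3 ∨ k = 4)) →
        ev g l ∈ Subgroup.closure {g 1, g 2, g 3, g 4} := by
      intro l hl
      induction l with
      | nil => rw [ev_nil]; exact one_mem _
      | cons i l ih =>
        rw [ev_cons]
        exact mul_mem (hgW i (hl i (by simp))) (ih (fun k hk => hl k (by simp [hk])))
    have hnW : ∀ w ∈ Subgroup.closure {g 1, g 2, g 3, g 4},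
        ∀ a ∈ Subgroup.closure (Set.range (trq g)),
          w * a * w⁻¹ ∈ Subgroup.closure (Set.range (trq g)) := by
      intro w hw
      have hstep : ∀ y ∈ ({g 1, g 2, g 3, g 4} : Set G), y⁻¹ = y ∧
          ∀ a ∈ Subgroup.closure (Set.range (trq g)),
            y * a * y ∈ Subgroup.closure (Set.range (trq g)) := by
        intro y hy
        have : ∃ k, (k = 1 ∨ k = 2 ∨ k = 3 ∨ k = 4) ∧ y = g k := by
          simp only [Set.mem_insert_iff, Set.mem_singleton_iff] at hy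
          rcases hy with hy | hy | hy | hy
          · exact ⟨1, by simp, hy⟩
          · exact ⟨2, by simp, hy⟩
          · exact ⟨3, by simp, hy⟩
          · exact ⟨4, by simp, hy⟩
        obtain ⟨k, hk, rfl⟩ := this
        exact ⟨inv_eq_of_mul_eq_one_left (sq h (by omega)), fun a ha => norm_gen g h hk ha⟩
      induction hw using Subgroup.closure_induction_left with
      | one => intro a ha; simpa using ha
      | mul_left x hx y _ ih =>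
        intro a ha
        obtain ⟨hi, hc⟩ := hstep x hx
        have e : x * y * a * (x * y)⁻¹ = x * (y * a * y⁻¹) * x := by
          rw [mul_inv_rev, hi]
          simp only [mul_assoc]
        rw [e]
        exact hc _ (ih a ha)
      | inv_mul_cancel x hx y _ ih =>
        intro a ha
        obtain ⟨hi, hc⟩ := hstep x hx
        have e : x⁻¹ * y * a * (x⁻¹ * y)⁻¹ = x * (y * a * y⁻¹) * x := by
          rw [mul_inv_rev, inv_inv, hi]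
          simp only [mul_assoc]
        rw [e]
        exact hc _ (ih a ha)
    have hleft : ∀ y ∈ ({g 0, g 1, g 2, g 3, g 4} : Set G), y⁻¹ = y ∧
        ∀ z : G, (∃ a ∈ Subgroup.closure (Set.range (trq g)),
          ∃ w ∈ Subgroup.closure {g 1, g 2, g 3, g 4}, z = a * w) →
          ∃ a ∈ Subgroup.closure (Set.range (trq g)),
            ∃ w ∈ Subgroup.closure {g 1, g 2, g 3, g 4}, y * z = a * w := by
      have hw : ∀ y ∈ Subgroup.closure {g 1, g 2, g 3, g 4}, 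
          ∀ z : G, (∃ a ∈ Subgroup.closure (Set.range (trq g)),
            ∃ w ∈ Subgroup.closure {g 1, g 2, g 3, g 4}, z = a * w) →
            ∃ a ∈ Subgroup.closure (Set.range (trq g)),
              ∃ w ∈ Subgroup.closure {g 1, g 2, g 3, g 4}, y * z = a * w := by
        rintro y hy z ⟨a, ha, w, hw, rfl⟩
        refine ⟨y * a * y⁻¹, hnW y hy a ha, y * w, mul_mem hy hw, ?_⟩
        rw [mul_assoc (y * a), ← mul_assoc y⁻¹, inv_mul_cancel, one_mul, mul_assoc]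
      intro y hy
      rw [Set.mem_insert_iff] at hy
      rcases hy with rfl | hy
      · refine ⟨inv_eq_of_mul_eq_one_left (sq h (by omega)), ?_⟩
        intro z hz
        have hv : ev g [1, 2, 3, 2, 1, 4, 3, 2, 3, 4, 1, 2, 3, 2, 1] ∈
            Subgroup.closure {g 1, g 2, g 3, g 4} := hevW _ (by decide)
        have e : g 0 = trq g 0 * (ev g [1, 2, 3, 2, 1, 4, 3, 2, 3, 4, 1, 2, 3, 2, 1])⁻¹ := by
          have e1 : trq g 0 = g 0 * ev g [1, 2, 3, 2, 1, 4, 3, 2, 3, 4, 1, 2, 3, 2, 1] := by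
            rw [← ev_cons]
            rfl
          rw [e1, mul_assoc, mul_inv_cancel, mul_one]
        obtain ⟨a, ha, w, hw', e2⟩ := hw _ (inv_mem hv) z hz
        refine ⟨trq g 0 * a, mul_mem (Subgroup.subset_closure ⟨0, rfl⟩) ha, w, hw', ?_⟩
        rw [e, mul_assoc, e2, mul_assoc]
      · have hy' : ∃ k, (k = 1 ∨ k = 2 ∨ k = 3 ∨ k = 4) ∧ y = g k := by
          simp only [Set.mem_insert_iff, Set.mem_singleton_iff] at hy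
          rcases hy with hy | hy | hy | hy
          · exact ⟨1, by simp, hy⟩
          · exact ⟨2, by simp, hy⟩
          · exact ⟨3, by simp, hy⟩
          · exact ⟨4, by simp, hy⟩
        obtain ⟨k, hk, rfl⟩ := hy'
        exact ⟨inv_eq_of_mul_eq_one_left (sq h (by omega)), fun z hz => hw _ (hgW k hk) z hz⟩
    intro x hx
    induction hx using Subgroup.closure_induction_left with
    | one => exact ⟨1, one_mem _, 1, one_mem _, by simp⟩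
    | mul_left x hx y _ ih => exact (hleft x hx).2 y ih
    | inv_mul_cancel x hx y _ ih =>
      rw [(hleft x hx).1]
      exact (hleft x hx).2 y ih
  obtain ⟨a, ha, w, hw, rfl⟩ := key x hx
  obtain ⟨b, rfl⟩ := pp_mem (trq_comm g h) ha
  exact ⟨b, w, hw, rfl⟩



/-- The relation `(ρ₀ σ τ)^(2n) = 1` in terms of the basis. -/
theorem xrel (h : Cox g) (n : ℕ)
    (hX : (g 0 * (g 1 * g 2 * g 3 * g 2 * g 1) * (g 4 * g 3 * g 2 * g 3 * g 4)) ^ (2 * n) = 1) :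
    trq g 1 ^ n = trq g 0 ^ n ∧ trq g 2 ^ n = trq g 0 ^ n ∧ trq g 0 ^ (2 * n) = 1 ∧
      trq g 3 ^ (2 * n) = 1 := by
  have hx : ev g tX ^ n = 1 := by
    rw [pow_mul] at hX
    rw [← hX]
    congr 1
    simp only [tX, ev_cons, ev_nil, mul_one, pow_two, mul_assoc]
  have conjpow : ∀ (l : List ℕ) (_ : ∀ i ∈ l, i < 5) (y : List ℕ) (m : ℕ), ev g y ^ m = 1 →
      ev g (l ++ (y ++ l.reverse)) ^ m = 1 := by
    intro l hl y m hy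
    rw [ev_app, ev_app, ev_rev g h l hl, ← mul_assoc, conj_pow, hy, mul_one, mul_inv_cancel]
  have quot : ∀ a b : Fin 4, ev g (tq a ++ (tq b).reverse) ^ n = 1 → trq g b ^ n = trq g a ^ n := by
    intro a b e
    rw [ev_app, ev_rev g h (tq b) (tq_lt b)] at e
    have e2 : (trq g a * (trq g b)⁻¹) ^ n = 1 := e
    rw [((trq_comm g h a b).inv_right).mul_pow, inv_pow] at e2
    exact (mul_inv_eq_one.1 e2).symm
  have e1 : trq g 1 ^ n = trq g 0 ^ n := by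
    apply quot 0 1
    rw [← x1 g h]
    exact conjpow [4, 3, 2, 3, 4] (by decide) tX n hx
  have e2 : trq g 2 ^ n = trq g 0 ^ n := by
    apply quot 0 2
    rw [← x2 g h]
    exact conjpow [3, 2, 3, 4] (by decide) tX n hx
  have e3 : trq g 0 ^ (2 * n) = 1 := by
    rw [x0 g h, ev_app] at hx
    have hx' : (trq g 0 * trq g 1) ^ n = 1 := hx
    rw [(trq_comm g h 0 1).mul_pow, e1, ← pow_add] at hx'
    rw [two_mul]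
    exact hx'
  refine ⟨e1, e2, e3, ?_⟩
  exact conjpow [1] (by decide) tT (2 * n) e3

/-- All four translations have orders dividing `s` if `T` has. -/
theorem tpow (h : Cox g) (s : ℕ)
    (hT : (g 0 * (g 1 * g 2 * g 3 * g 2 * g 1) * (g 4 * g 3 * g 2 * g 3 * g 4) *
      (g 1 * g 2 * g 3 * g 2 * g 1)) ^ s = 1) (j : Fin 4) : tr g j ^ s = 1 ∧ trq g j ^ s = 1 := by
  have hx : ev g tT ^ s = 1 := by
    rw [← hT]
    congr 1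
    simp only [tT, ev_cons, ev_nil, mul_one, mul_assoc]
  have conjpow : ∀ (l : List ℕ) (_ : ∀ i ∈ l, i < 5) (y : List ℕ) (m : ℕ), ev g y ^ m = 1 →
      ev g (l ++ (y ++ l.reverse)) ^ m = 1 := by
    intro l hl y m hy
    rw [ev_app, ev_app, ev_rev g h l hl, ← mul_assoc, conj_pow, hy, mul_one, mul_inv_cancel]
  fin_cases j
  · exact ⟨hx, hx⟩
  · exact ⟨conjpow [1] (by decide) tT s hx, conjpow [1, 2, 3, 2, 1] (by decide) tT s hx⟩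
  · exact ⟨conjpow [2, 1] (by decide) tT s hx, conjpow [4, 1, 2, 3, 2, 1] (by decide) tT s hx⟩
  · exact ⟨conjpow [3, 2, 1] (by decide) tT s hx, conjpow [1] (by decide) tT s hx⟩

end Pool.Agent.Lib.MP_c2d01e_co.Ex.WrdQ
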