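import Pool.Agent.Lib.MP_c2d01e_co.Ex.Hom
import Pool.Agent.Lib.MP_c2d01e_co.Ex.WrdQ
import Pool.Agent.Lib.MP_c2d01e_co.Ex.InfP
import Pool.Agent.Lib.MP_c2d01e_co.Ex.InfQ

/-!
# Family (B), vectors `(n,n,0,0)`, `(n,0,0,0)`, `n ≥ 3` odd: the intersection property (helper6)
-/

set_option autoImplicit false

namespace Pool.Agent.Lib.MP_c2d01e_co.Ex.CpB2

open Subgroup EqDefs
open Wrd (Cox cx ev pp ev_app ev_cons ev_nil)
open WrdQ (trq tq)

/-! ### The action of the four translations -/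

/-- `T = ρ₀ σ τ σ` acts as the translation by `1`. -/
theorem wordT (v : V) :
    R 1 (R 2 (R 3 (R 4 (R 3 (R 2 (R 5 (R 4 (R 3 (R 4 (R 5 (R 2 (R 3 (R 4 (R 3 (R 2 v))))))))))))))) =
      E (2, -1, -1, -1) v := by
  obtain ⟨⟨p, x, y, z⟩, a, b⟩ := v
  rw [sig_eq, tau_eq, sig_eq]
  simp only [R, E, bil, nm, Prod.smul_mk, Prod.mk_add_mk, smul_eq_mul, Prod.mk.injEq]
  refine ⟨⟨?_, ?_, ?_, ?_⟩, ?_, trivial⟩ <;> ring

/-- The vectors of the four translations. -/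
def yq : Fin 4 → H4 := ![(2, -1, -1, -1), (0, 1, 0, 0), (0, 0, 1, 0), (1, 0, 0, 0)]

section

variable {G : Type*} [Group G] {n : ℕ} (φ : G →* Equiv.Perm (CGroup.VN n)) (g : ℕ → G)
  (hg : ∀ i : Fin 6, (i : ℕ) < 5 → ∀ v,
    φ (g i) (CGroup.pi n v) = CGroup.pi n (CGroupB.B i v))

include hg

theorem act1 (v : V) : φ (g 1) (CGroup.pi n v) = CGroup.pi n (R 2 v) := hg 1 (by decide) v
theorem act2 (v : V) : φ (g 2) (CGroup.pi n v) = CGroup.pi n (R 3 v) := hg 2 (by decide) v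
theorem act3 (v : V) : φ (g 3) (CGroup.pi n v) = CGroup.pi n (R 4 v) := hg 3 (by decide) v
theorem act4 (v : V) : φ (g 4) (CGroup.pi n v) = CGroup.pi n (R 5 v) := hg 4 (by decide) v
theorem act0 (v : V) : φ (g 0) (CGroup.pi n v) = CGroup.pi n (R 1 v) := hg 0 (by decide) v

omit hg in
/-- Conjugation of a translation. -/
theorem cjE {x y : G} {j : Fin 6} (h0 : j ≠ 0) (h1 : j ≠ 1) {u : H4}
    (hy : ∀ v, φ y (CGroup.pi n v) = CGroup.pi n (R j v))
    (hx : ∀ v, φ x (CGroup.pi n v) = CGroup.pi n (E u v)) :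
    ∀ v, φ (y * x * y) (CGroup.pi n v) = CGroup.pi n (E (Rh j u) v) := by
  intro v
  rw [map_mul, map_mul, Equiv.Perm.mul_apply, Equiv.Perm.mul_apply, hy, hx, hy, E_conj j h0 h1]

theorem actT (v : V) : φ (ev g Wrd.tT) (CGroup.pi n v) = CGroup.pi n (E (2, -1, -1, -1) v) := by
  simp only [Wrd.tT, ev_cons, ev_nil, mul_one, map_mul, Equiv.Perm.mul_apply, act0 φ g hg,
    act1 φ g hg, act2 φ g hg, act3 φ g hg, act4 φ g hg]
  rw [wordT]

theorem act_trq (k : Fin 4) (v : V) :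
    φ (trq g k) (CGroup.pi n v) = CGroup.pi n (E (yq k) v) := by
  have c1 := act1 φ g hg
  have c2 := act2 φ g hg
  have c3 := act3 φ g hg
  have c4 := act4 φ g hg
  have c := actT φ g hg
  have e3 : trq g 3 = g 1 * ev g Wrd.tT * g 1 := by
    simp only [trq, tq, Matrix.cons_val, ev_app, ev_cons, ev_nil, mul_one, mul_assoc]
  have e1 : trq g 1 = g 1 * (g 2 * (g 3 * (g 2 * (g 1 * ev g Wrd.tT * g 1) * g 2) * g 3) * g 2) *
      g 1 := by
    simp only [trq, tq, Matrix.cons_val, ev_app, ev_cons, ev_nil, mul_one, mul_assoc]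
  have e2 : trq g 2 = g 4 * (g 1 * (g 2 * (g 3 * (g 2 * (g 1 * ev g Wrd.tT * g 1) * g 2) * g 3) *
      g 2) * g 1) * g 4 := by
    simp only [trq, tq, Matrix.cons_val, ev_app, ev_cons, ev_nil, mul_one, mul_assoc]
  have d1 := cjE φ (x := ev g Wrd.tT) (y := g 1) (j := 2) (by decide) (by decide) c1 c
  have d2 := cjE φ (y := g 2) (j := 3) (by decide) (by decide) c2 d1
  have d3 := cjE φ (y := g 3) (j := 4) (by decide) (by decide) c3 d2
  have d4 := cjE φ (y := g 2) (j := 3) (by decide) (by decide) c2 d3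
  have d5 := cjE φ (y := g 1) (j := 2) (by decide) (by decide) c1 d4
  have d6 := cjE φ (y := g 4) (j := 5) (by decide) (by decide) c4 d5
  fin_cases k
  · exact c v
  · show φ (trq g 1) (CGroup.pi n v) = CGroup.pi n (E (0, 1, 0, 0) v)
    rw [e1, d5]
    congr 2
  · show φ (trq g 2) (CGroup.pi n v) = CGroup.pi n (E (0, 0, 1, 0) v)
    rw [e2, d6]
    congr 2
  · show φ (trq g 3) (CGroup.pi n v) = CGroup.pi n (E (1, 0, 0, 0) v)
    rw [e3, d1]
    congr 2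

end

/-- The coordinates of a translation with coordinates divisible by `c`. -/
theorem yq_dvd (c : ℤ) (a : Fin 4 → ℤ)
    (h1 : c ∣ (a 0 • yq 0 + a 1 • yq 1 + a 2 • yq 2 + a 3 • yq 3).1)
    (h2 : c ∣ (a 0 • yq 0 + a 1 • yq 1 + a 2 • yq 2 + a 3 • yq 3).2.1)
    (h3 : c ∣ (a 0 • yq 0 + a 1 • yq 1 + a 2 • yq 2 + a 3 • yq 3).2.2.1)
    (h4 : c ∣ (a 0 • yq 0 + a 1 • yq 1 + a 2 • yq 2 + a 3 • yq 3).2.2.2) : ∀ k, c ∣ a k := by
  have e1 : (a 0 • yq 0 + a 1 • yq 1 + a 2 • yq 2 + a 3 • yq 3).1 = 2 * a 0 + a 3 := by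
    show a 0 * 2 + a 1 * 0 + a 2 * 0 + a 3 * 1 = _
    ring
  have e2 : (a 0 • yq 0 + a 1 • yq 1 + a 2 • yq 2 + a 3 • yq 3).2.1 = -a 0 + a 1 := by
    show a 0 * (-1) + a 1 * 1 + a 2 * 0 + a 3 * 0 = _
    ring
  have e3 : (a 0 • yq 0 + a 1 • yq 1 + a 2 • yq 2 + a 3 • yq 3).2.2.1 = -a 0 + a 2 := by
    show a 0 * (-1) + a 1 * 0 + a 2 * 1 + a 3 * 0 = _
    ring
  have e4 : (a 0 • yq 0 + a 1 • yq 1 + a 2 • yq 2 + a 3 • yq 3).2.2.2 = -a 0 := by
    show a 0 * (-1) + a 1 * 0 + a 2 * 0 + a 3 * 0 = _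
    ring
  rw [e1] at h1
  rw [e2] at h2
  rw [e3] at h3
  rw [e4] at h4
  have k0 : c ∣ a 0 := by simpa using h4
  have k1 : c ∣ a 1 := by
    have h := dvd_add h2 k0
    have e : -a 0 + a 1 + a 0 = a 1 := by ring
    rwa [e] at h
  have k2 : c ∣ a 2 := by
    have h := dvd_add h3 k0
    have e : -a 0 + a 2 + a 0 = a 2 := by ring
    rwa [e] at h
  have k3 : c ∣ a 3 := by
    have h := dvd_sub h1 (k0.mul_left 2)
    have e : 2 * a 0 + a 3 - 2 * a 0 = a 3 := by ring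
    rwa [e] at h
  intro k
  fin_cases k
  exacts [k0, k1, k2, k3]

/-! ### The groups -/

/-- The generators, as a function on the natural numbers. -/
def gB (s k t l : ℕ) (i : ℕ) : GamB s k t l :=
  if h : i < 6 then PresentedGroup.of (⟨i, h⟩ : Fin 6) else 1

theorem gB_val (s k t l : ℕ) (i : Fin 6) : gB s k t l (i : ℕ) = PresentedGroup.of i := by
  rw [gB, dif_pos i.2]

theorem cox_gB (s k t l : ℕ) : Cox (gB s k t l) := by
  intro i j hi hj
  have h1 := ExHom.of_coxB s k t l ⟨i, by omega⟩ ⟨j, by omega⟩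
  have e : cx i j = coxB ⟨i, by omega⟩ ⟨j, by omega⟩ := by
    clear h1
    interval_cases i <;> interval_cases j <;> rfl
  rw [e, gB, gB, dif_pos (by omega), dif_pos (by omega)]
  exact h1

theorem facet_one (s k t l : ℕ) (hk : k ≠ 1) :
    (gB s k t l 0 * (gB s k t l 1 * gB s k t l 2 * gB s k t l 3 * gB s k t l 2 * gB s k t l 1) *
      (gB s k t l 4 * gB s k t l 3 * gB s k t l 2 * gB s k t l 3 * gB s k t l 4)) ^ (2 * s) = 1 := by
  have h : PresentedGroup.mk (relsB s k t l) (facetB s k) = 1 :=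
    PresentedGroup.one_of_mem (Or.inr (Or.inl rfl))
  rw [facetB, if_neg hk, map_pow] at h
  rw [← h]
  congr 1

/-- The intersection property for odd `n ≥ 3`. -/
theorem interB2 (n : ℕ) (hn : Odd n) (h3 : 3 ≤ n) (I J : Set (Fin 6)) :
    closure ((fun i => (PresentedGroup.of i : GamB n 2 n 1)) '' I) ⊓
      closure ((fun i => (PresentedGroup.of i : GamB n 2 n 1)) '' J) =
    closure ((fun i => (PresentedGroup.of i : GamB n 2 n 1)) '' (I ∩ J)) := by
  obtain ⟨φ, hφ⟩ := ExHom.actB2 n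
  refine CGroupB.interB (r := fun i => (PresentedGroup.of i : GamB n 2 n 1))
    (ExHom.of_coxB n 2 n 1) φ (CGroup.pi n) hφ (CGroupB.nearB_pi n h3) ?_ I J
  have hcox := cox_gB n 2 n 1
  obtain ⟨e1, e2, e3, e4⟩ := WrdQ.xrel (gB n 2 n 1) hcox n (facet_one n 2 n 1 (by norm_num))
  have hg : ∀ i : Fin 6, (i : ℕ) < 5 → ∀ v,
      φ (gB n 2 n 1 i) (CGroup.pi n v) = CGroup.pi n (CGroupB.B i v) := by
    intro i _ v
    rw [gB_val]
    exact hφ i v
  have s1 : closure ((fun i => (PresentedGroup.of i : GamB n 2 n 1)) ''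
      ({0, 1, 2, 3, 4} : Set (Fin 6))) = closure {gB n 2 n 1 0, gB n 2 n 1 1, gB n 2 n 1 2,
        gB n 2 n 1 3, gB n 2 n 1 4} := by
    congr 1
    simp only [Set.image_insert_eq, Set.image_singleton]
    rfl
  have s2 : closure ((fun i => (PresentedGroup.of i : GamB n 2 n 1)) ''
      ({1, 2, 3, 4} : Set (Fin 6))) = closure {gB n 2 n 1 1, gB n 2 n 1 2,
        gB n 2 n 1 3, gB n 2 n 1 4} := by
    congr 1
    simp only [Set.image_insert_eq, Set.image_singleton]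
    rfl
  have ps : ∀ i : Fin 6, psi4 n 2 n 1 (by norm_num) (gB n 2 n 1 i) = P4 i := by
    intro i
    rw [gB_val, psi4_of]
  have p0 : psi4 n 2 n 1 (by norm_num) (gB n 2 n 1 0) = Equiv.swap 0 1 := ps 0
  have p1 : psi4 n 2 n 1 (by norm_num) (gB n 2 n 1 1) = Equiv.swap 1 2 := ps 1
  have p2 : psi4 n 2 n 1 (by norm_num) (gB n 2 n 1 2) = Equiv.swap 2 3 := ps 2
  have p3 : psi4 n 2 n 1 (by norm_num) (gB n 2 n 1 3) = 1 := ps 3
  have p4 : psi4 n 2 n 1 (by norm_num) (gB n 2 n 1 4) = 1 := ps 4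
  have t0 : psi4 n 2 n 1 (by norm_num) (trq (gB n 2 n 1) 0) = Equiv.swap 0 1 * Equiv.swap 2 3 := by
    simp only [trq, tq, Wrd.tT, Matrix.cons_val, ev_cons, ev_nil, map_mul, map_one, p0, p1, p2, p3,
      p4]
    decide
  have t3 : psi4 n 2 n 1 (by norm_num) (trq (gB n 2 n 1) 3) = Equiv.swap 0 2 * Equiv.swap 1 3 := by
    simp only [trq, tq, Wrd.tT, Matrix.cons_val, ev_app, ev_cons, ev_nil, map_mul, map_one, p0, p1,
      p2, p3, p4]
    decide
  have key := infQ (F := closure {gB n 2 n 1 0, gB n 2 n 1 1, gB n 2 n 1 2, gB n 2 n 1 3,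
      gB n 2 n 1 4})
    (W := closure {gB n 2 n 1 1, gB n 2 n 1 2, gB n 2 n 1 3, gB n 2 n 1 4})
    (C := closure ((fun i => (PresentedGroup.of i : GamB n 2 n 1)) ''
      ({1, 2, 3, 4, 5} : Set (Fin 6)))) ?_ hn (trq (gB n 2 n 1))
    (fun x hx => WrdQ.decomp _ hcox hx) ?_ e1 e2 e3 e4 (psi4 n 2 n 1 (by norm_num))
    (fun x hx => psi4_fix n 2 n 1 (by norm_num) _ (by simp) x hx) ?_ ?_ ?_ ?_ ?_
  · intro w h0 h1
    rw [s1] at h0
    rw [s2]
    exact key ⟨h0, h1⟩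
  · rw [← s2]
    exact closure_mono (Set.image_mono (by
      intro x hx
      simp only [Set.mem_insert_iff, Set.mem_singleton_iff] at hx ⊢
      tauto))
  · intro a ha
    have hf := fix_closure φ (CGroup.pi n ((0, 0, 0, 0), 0, 1))
      ((fun i => (PresentedGroup.of i : GamB n 2 n 1)) '' {1, 2, 3, 4, 5}) (by
        rintro x ⟨i, hi, rfl⟩
        have h5 := hφ i ((0, 0, 0, 0), 0, 1)
        rw [h5]
        congr 1
        have hi0 : i ≠ 0 := by
          rintro rfl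
          simp at hi
        exact CGroupB.fvB_fix 0 i hi0) _ ha
    rw [prod_E φ (act_trq φ (gB n 2 n 1) hg)] at hf
    obtain ⟨d1, d2, d3, d4⟩ := dvd_of_fix hf
    exact yq_dvd n a d1 d2 d3 d4
  · rw [t0]; decide
  · rw [t3]; decide
  · rw [t0]; decide
  · rw [t3]; decide
  · rw [t0, t3]; decide

/-- The group `GamB n 2 n 1`, `n ≥ 3` odd, is a string C-group. -/
theorem scB2 (n : ℕ) (hn : Odd n) (h3 : 3 ≤ n) :
    Function.Injective (PresentedGroup.of : Fin 6 → GamB n 2 n 1) ∧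
    (∀ i, (PresentedGroup.of i : GamB n 2 n 1) ≠ 1) ∧
    ∀ I J : Set (Fin 6),
      Subgroup.closure ((PresentedGroup.of : Fin 6 → GamB n 2 n 1) '' I) ⊓
        Subgroup.closure ((PresentedGroup.of : Fin 6 → GamB n 2 n 1) '' J) =
      (Subgroup.closure ((PresentedGroup.of : Fin 6 → GamB n 2 n 1) '' (I ∩ J)) :
        Subgroup (GamB n 2 n 1)) := by
  obtain ⟨φ, hφ⟩ := ExHom.actB2 n
  exact ⟨CGroupB.injective φ (CGroup.pi n) hφ (CGroupB.nearB_pi n h3),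
    CGroupB.ne_one φ (CGroup.pi n) hφ (CGroupB.nearB_pi n h3),
    fun I J => interB2 n hn h3 I J⟩

end Pool.Agent.Lib.MP_c2d01e_co.Ex.CpB2
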