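import Pool.Agent.Lib.MP_c2d01e_co.Ex.ActN
import Pool.Agent.Lib.MP_c2d01e_co.Ex.CpB2

/-!
# Family (B), vectors `(n,n,0,0)`, `(n,0,0,0)`: the string C-group property for all `n ≥ 3`

The two infinite standard subgroups meet in the finite one, by the action on `V / n N`; the facet
and the vertex-figure groups embed.
-/

set_option autoImplicit false

namespace Pool.Agent.Lib.MP_c2d01e_co.Ex.ActN

open Subgroup EqDefs CGroupB CGroup
open Pool.Agent.Lib.MP_c2d01e_co.Ex.Wrd (Cox ev pp)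
open Pool.Agent.Lib.MP_c2d01e_co.Ex.WrdQ (tq trq)
open Pool.Agent.Lib.MP_c2d01e_co.Ex.CpB2 (gB gB_val cox_gB facet_one)
open Pool.Agent.Lib.MP_c2d01e_co.Ex.EmbB3

/-- The intersection property for all `n ≥ 3`. -/
theorem interN (n : ℕ) (h3 : 3 ≤ n) (I J : Set (Fin 6)) :
    closure ((fun i => (PresentedGroup.of i : GamB n 2 n 1)) '' I) ⊓
      closure ((fun i => (PresentedGroup.of i : GamB n 2 n 1)) '' J) =
    closure ((fun i => (PresentedGroup.of i : GamB n 2 n 1)) '' (I ∩ J)) := by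
  obtain ⟨φ, hφ⟩ := ExHom.actB2 n
  obtain ⟨φ2, hφ2⟩ := actN n
  refine CGroupB.interB (r := fun i => (PresentedGroup.of i : GamB n 2 n 1))
    (ExHom.of_coxB n 2 n 1) φ (CGroup.pi n) hφ (CGroupB.nearB_pi n h3) ?_ I J
  have hcox := cox_gB n 2 n 1
  have s1 : closure ((fun i => (PresentedGroup.of i : GamB n 2 n 1)) ''
      ({0, 1, 2, 3, 4} : Set (Fin 6))) = closure {gB n 2 n 1 0, gB n 2 n 1 1, gB n 2 n 1 2,
        gB n 2 n 1 3, gB n 2 n 1 4} := by
    congr 1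
    simp only [Set.image_insert_eq, Set.image_singleton]
    rfl
  have s2 : closure ((fun i => (PresentedGroup.of i : GamB n 2 n 1)) ''
      ({1, 2, 3, 4} : Set (Fin 6))) = closure {gB n 2 n 1 1, gB n 2 n 1 2,
        gB n 2 n 1 3, gB n 2 n 1 4} := by
    congr 1
    simp only [Set.image_insert_eq, Set.image_singleton]
    rfl
  have hWC : closure ((fun i => (PresentedGroup.of i : GamB n 2 n 1)) ''
      ({1, 2, 3, 4} : Set (Fin 6))) ≤ closure ((fun i => (PresentedGroup.of i : GamB n 2 n 1)) ''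
      ({1, 2, 3, 4, 5} : Set (Fin 6))) :=
    closure_mono (Set.image_mono (by
      intro x hx
      simp only [Set.mem_insert_iff, Set.mem_singleton_iff] at hx ⊢
      tauto))
  intro w h0 h1
  rw [s1] at h0
  obtain ⟨a, v, hv, e⟩ := WrdQ.decomp _ hcox h0
  have hv' := hv
  rw [← s2] at hv'
  have hpC : pp (trq (gB n 2 n 1)) a ∈ closure ((fun i => (PresentedGroup.of i : GamB n 2 n 1)) ''
      ({1, 2, 3, 4, 5} : Set (Fin 6))) := by
    have h5 := mul_mem h1 (inv_mem (hWC hv'))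
    rwa [e, mul_inv_cancel_right] at h5
  have hf : φ2 (pp (trq (gB n 2 n 1)) a) (piN n ((0, 0, 0, 0), 0, 1)) =
      piN n ((0, 0, 0, 0), 0, 1) := by
    refine closure_induction (p := fun x _ => φ2 x (piN n ((0, 0, 0, 0), 0, 1)) =
      piN n ((0, 0, 0, 0), 0, 1)) ?_ ?_ ?_ ?_ hpC
    · rintro x ⟨i, hi, rfl⟩
      have h5 := hφ2 i ((0, 0, 0, 0), 0, 1)
      have hi0 : i ≠ 0 := by
        rintro rfl
        simp at hi
      have h6 : B i ((0, 0, 0, 0), 0, 1) = ((0, 0, 0, 0), 0, 1) := fvB_fix 0 i hi0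
      rw [h6] at h5
      exact h5
    · rw [map_one]; rfl
    · intro x y _ _ hx hy
      rw [map_mul, Equiv.Perm.mul_apply, hy, hx]
    · intro x _ hx
      rw [map_inv, Equiv.Perm.inv_eq_iff_eq, hx]
  have h1' := coreN (gB n 2 n 1) hcox n φ2 (by
    intro i hi v
    have h7 := hφ2 ⟨i, by omega⟩ v
    have h8 := gB_val n 2 n 1 ⟨i, by omega⟩
    simp only at h8
    rw [h8, h7, bF, dif_pos (by omega)]) (facet_one n 2 n 1 (by norm_num)) a hf
  rw [s2, e, h1', one_mul]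
  exact hv

/-- The group `GamB n 2 n 1`, `n ≥ 3`, is a string C-group. -/
theorem scBN (n : ℕ) (h3 : 3 ≤ n) :
    Function.Injective (PresentedGroup.of : Fin 6 → GamB n 2 n 1) ∧
    (∀ i, (PresentedGroup.of i : GamB n 2 n 1) ≠ 1) ∧
    ∀ I J : Set (Fin 6),
      Subgroup.closure ((PresentedGroup.of : Fin 6 → GamB n 2 n 1) '' I) ⊓
        Subgroup.closure ((PresentedGroup.of : Fin 6 → GamB n 2 n 1) '' J) =
      (Subgroup.closure ((PresentedGroup.of : Fin 6 → GamB n 2 n 1) '' (I ∩ J)) :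
        Subgroup (GamB n 2 n 1)) := by
  obtain ⟨φ, hφ⟩ := ExHom.actB2 n
  exact ⟨CGroupB.injective φ (CGroup.pi n) hφ (CGroupB.nearB_pi n h3),
    CGroupB.ne_one φ (CGroup.pi n) hφ (CGroupB.nearB_pi n h3),
    fun I J => interN n h3 I J⟩

/-- **Facets of (B), Q-type, all `n ≥ 3`**. -/
theorem fB_QN (n : ℕ) (hn : 3 ≤ n) : ∃ f : EmbDefs.FacB n 2 →* GamB n 2 n 1,
    Function.Injective f ∧ ∀ i : Fin 5, f (PresentedGroup.of i) = PresentedGroup.of i.castSucc := by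
  obtain ⟨f, hf⟩ := mkhom Fin.castSucc (hFac n 2 n 1)
  obtain ⟨φ, hφ⟩ := ExHom.actB2 n
  obtain ⟨φ2, hφ2⟩ := actN n
  refine ⟨f, inj_of f fun x hx => ?_, hf⟩
  have h := coxgF n 2
  refine coreF (gF n 2) (s := n) hn h (φ.comp f) ?_ x (gen5 eF heF x)
    (by rw [MonoidHom.comp_apply, hx, map_one]) ?_
  · intro i hi v
    have hi' : (i : ℕ) < 5 := by
      revert hi; revert i; decide
    rw [MonoidHom.comp_apply, gF, eF, dif_pos hi', hf]
    exact hφ _ v
  · intro a w hw e _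
    have hact : ∀ i < 5, ∀ v, (φ2.comp f) (gF n 2 i) (piN n v) = piN n (bF i v) := by
      intro i hi v
      rw [MonoidHom.comp_apply, gF, eF, dif_pos hi, hf, bF, dif_pos (by omega)]
      exact hφ2 _ v
    refine coreN (gF n 2) h n (φ2.comp f) hact (relF2 n) a ?_
    have hw0 : (φ2.comp f) w (piN n ((0, 0, 0, 0), 0, 1)) = piN n ((0, 0, 0, 0), 0, 1) := by
      refine closure_induction (p := fun w _ => (φ2.comp f) w (piN n ((0, 0, 0, 0), 0, 1)) =
        piN n ((0, 0, 0, 0), 0, 1)) ?_ ?_ ?_ ?_ hw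
      · rintro y (rfl | rfl | rfl | rfl)
        · rw [hact 1 (by norm_num)]; rfl
        · rw [hact 2 (by norm_num)]; rfl
        · rw [hact 3 (by norm_num)]; rfl
        · rw [hact 4 (by norm_num)]; rfl
      · rw [map_one]; rfl
      · intro y z _ _ h1 h2
        rw [map_mul, Equiv.Perm.mul_apply, h2, h1]
      · intro y _ h1
        rw [map_inv, Equiv.Perm.inv_eq_iff_eq, h1]
    have hx1 : (φ2.comp f) x = 1 := by rw [MonoidHom.comp_apply, hx, map_one]
    rw [e, map_mul] at hx1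
    have h7 := congrArg (fun p : Equiv.Perm (XN n) => p (piN n ((0, 0, 0, 0), 0, 1))) hx1
    simp only [Equiv.Perm.mul_apply, hw0, Equiv.Perm.coe_one, id_eq] at h7
    exact h7

/-- The finite part of the vertex-figure group acts faithfully. -/
theorem trivV {P : Type*} [Group P] (g : ℕ → P) {s : ℕ} (hs : 3 ≤ s) (h : Cox g)
    (φ : P →* Equiv.Perm (VN s))
    (hφ : ∀ i : Fin 6, i ≠ 0 → ∀ v, φ (g (5 - (i : ℕ))) (pi s v) = pi s (B i v)) (w : P)
    (hw : w ∈ closure {g 1, g 2, g 3, g 4}) (h1 : φ w = 1) : w = 1 := by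
  have hr : ∀ i ∈ ({1, 2, 3, 4, 5} : Finset (Fin 6)), ∀ j ∈ ({1, 2, 3, 4, 5} : Finset (Fin 6)),
      ((fun i : Fin 6 => g (5 - (i : ℕ))) i * (fun i : Fin 6 => g (5 - (i : ℕ))) j) ^ coxB i j
        = 1 := by
    intro i hi j hj
    have hi5 : i ≠ 0 := by rintro rfl; revert hi; decide
    have hj5 : j ≠ 0 := by rintro rfl; revert hj; decide
    rw [coxV i j hi5 hj5]
    refine h (5 - (i : ℕ)) (5 - (j : ℕ)) ?_ ?_
    · revert hi5; revert i; decide
    · revert hj5; revert j; decide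
  have hφS : ∀ i ∈ ({1, 2, 3, 4, 5} : Finset (Fin 6)), ∀ v,
      φ ((fun i : Fin 6 => g (5 - (i : ℕ))) i) (pi s v) = pi s (B i v) := by
    intro i hi v
    refine hφ i ?_ v
    rintro rfl
    revert hi
    decide
  have hw' : w ∈ closure ((fun i : Fin 6 => g (5 - (i : ℕ))) '' ({1, 2, 3, 4} : Set (Fin 6))) := by
    rw [gsetV]; exact hw
  exact trivW hr (by decide) φ (pi s) hφS (nearB_pi s hs) w hw' h1

/-- **Vertex-figures of (B), Q-type, all `n ≥ 3`**. -/
theorem vB_QN (n : ℕ) (hn : 3 ≤ n) : ∃ f : EmbDefs.VerB n 1 →* GamB n 2 n 1,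
    Function.Injective f ∧ ∀ i : Fin 5, f (PresentedGroup.of i) = PresentedGroup.of i.succ := by
  obtain ⟨f, hf⟩ := mkhom Fin.succ (hVer n 2 n 1)
  obtain ⟨φ, hφ⟩ := ExHom.actB2 n
  obtain ⟨φ2, hφ2⟩ := actN n
  refine ⟨f, inj_of f fun x hx => ?_, hf⟩
  have h := coxgV n 1
  have hval : ∀ i : Fin 6, i ≠ 0 → f (gV n 1 (5 - (i : ℕ))) = PresentedGroup.of i := by
    intro i hi
    rw [gV, hf, eV_succ i hi]
  obtain ⟨a, w, hw, e⟩ := WrdQ.decomp (gV n 1) h (gen5 eV heV x)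
  -- the action on `V / n N`
  have hact : ∀ i : Fin 6, i ≠ 0 → ∀ v,
      (φ2.comp f) (gV n 1 (5 - (i : ℕ))) (piN n v) = piN n (B i v) := by
    intro i hi v
    rw [MonoidHom.comp_apply, hval i hi]
    exact hφ2 i v
  have hfg : ∀ i : Fin 6, i ≠ 0 → i ≠ 5 → (φ2.comp f) (gV n 1 (5 - (i : ℕ))) (piN n (fvB 5)) =
      piN n (fvB 5) := by
    intro i hi hi5
    rw [hact i hi, fvB_fix 5 i hi5]
  have hw0 : (φ2.comp f) w (piN n (fvB 5)) = piN n (fvB 5) := by
    refine closure_induction (p := fun w _ => (φ2.comp f) w (piN n (fvB 5)) =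
      piN n (fvB 5)) ?_ ?_ ?_ ?_ hw
    · rintro y (rfl | rfl | rfl | rfl)
      · exact hfg 4 (by decide) (by decide)
      · exact hfg 3 (by decide) (by decide)
      · exact hfg 2 (by decide) (by decide)
      · exact hfg 1 (by decide) (by decide)
    · rw [map_one]; rfl
    · intro y z _ _ h1 h2
      rw [map_mul, Equiv.Perm.mul_apply, h2, h1]
    · intro y _ h1
      rw [map_inv, Equiv.Perm.inv_eq_iff_eq, h1]
  have hx1 : (φ2.comp f) x = 1 := by rw [MonoidHom.comp_apply, hx, map_one]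
  have f2 : (φ2.comp f) (pp (trq (gV n 1)) a) (piN n (fvB 5)) = piN n (fvB 5) := by
    have h2 := hx1
    rw [e, map_mul] at h2
    have h7 := congrArg (fun p : Equiv.Perm (XN n) => p (piN n (fvB 5))) h2
    simp only [Equiv.Perm.mul_apply, hw0, Equiv.Perm.coe_one, id_eq] at h7
    exact h7
  have hP : (PX n 0)⁻¹ = PX n 0 := inv_eq_of_mul_eq_one_left (PX_sq n 0)
  let φ' : EmbDefs.VerB n 1 →* Equiv.Perm (XN n) :=
    (MulAut.conj (PX n 0)).toMonoidHom.comp (φ2.comp f)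
  have hφ' : ∀ y, φ' y = PX n 0 * (φ2.comp f) y * PX n 0 := by
    intro y
    change PX n 0 * (φ2.comp f) y * (PX n 0)⁻¹ = _
    rw [hP]
  have hbV : ∀ i < 5, ∀ v, φ' (gV n 1 i) (piN n v) = piN n (bV i v) := by
    intro i hi v
    rw [hφ', Equiv.Perm.mul_apply, Equiv.Perm.mul_apply, PX_pi, bV, bF, dif_pos (by omega)]
    have h3 := hact ⟨5 - i, by omega⟩ (by
      intro e
      have := congrArg Fin.val e
      norm_num at this
      omega) (R 0 v)
    have h4 : 5 - (5 - i) = i := by omega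
    simp only [h4] at h3
    rw [h3, PX_pi]
  have f3 : φ' (pp (trq (gV n 1)) a) (piN n ((0, 0, 0, 0), 0, -1)) =
      piN n ((0, 0, 0, 0), 0, -1) := by
    have r1 : R 0 ((0, 0, 0, 0), 0, -1) = fvB 5 := by decide
    have r2 : R 0 (fvB 5) = ((0, 0, 0, 0), 0, -1) := by decide
    rw [hφ', Equiv.Perm.mul_apply, Equiv.Perm.mul_apply, PX_pi, r1, f2, PX_pi, r2]
  have ht : ∀ k v, φ' (trq (gV n 1) k) (piN n v) = piN n (E (yV k) v) := by
    intro k v
    rw [trq, ev_act' (piN n) (gV n 1) φ' bV hbV (tq k) (WrdQ.tq_lt k), tV]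
  rw [prod_E' (piN n) φ' ht] at f3
  obtain ⟨⟨w0, w1, w2, w3⟩, g1, g2, e'⟩ := memN (Or.inr rfl) f3
  simp only [yV, Matrix.cons_val_zero, Matrix.cons_val_one, Matrix.cons_val, Prod.smul_mk,
    smul_eq_mul, Prod.mk_add_mk, Prod.mk.injEq] at e' g1 g2
  obtain ⟨e1, e2, e3, e4⟩ := e'
  obtain ⟨u, rfl⟩ : ∃ u, w0 = 2 * u := ⟨w0 / 2, by omega⟩
  obtain ⟨t, ht2⟩ : ∃ t, w1 + w2 - w3 = 2 * t := ⟨(w1 + w2 - w3) / 2, by omega⟩
  have a3 : a 3 = n * (w2 - w3) := by rw [mul_sub]; linarith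
  have a1 : a 1 = n * (-t) := by
    have : (2 : ℤ) * a 1 = 2 * (n * (-t)) := by
      have h9 : (n : ℤ) * (w1 + w2 - w3) = n * (2 * t) := by rw [ht2]
      linarith [mul_sub (n : ℤ) (w1 + w2) w3, mul_add (n : ℤ) w1 w2]
    linarith
  have a0 : a 0 = n * (u + t - (w2 - w3)) := by
    have : (2 : ℤ) * a 0 = 2 * (n * (u + t - (w2 - w3))) := by
      have : (2 : ℤ) * a 0 = n * (2 * u) - 2 * a 1 - 2 * a 3 := by linarith
      rw [this, a1, a3]
      ring
    linarith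
  have a2 : a 2 = n * (w2 + (u + t - (w2 - w3)) - t) := by
    have : a 2 = n * w2 + a 0 + a 1 := by linarith
    rw [this, a0, a1]
    ring
  have hp1 : pp (trq (gV n 1)) a = 1 :=
    pp_one_of (fun j => (WrdQ.tpow _ h n (relV1 n) j).2) a (by
      intro i
      fin_cases i
      · exact ⟨_, a0⟩
      · exact ⟨_, a1⟩
      · exact ⟨_, a2⟩
      · exact ⟨_, a3⟩)
  rw [hp1, one_mul] at e
  rw [e]
  refine trivV (gV n 1) hn h (φ.comp f) ?_ w hw ?_
  · intro i hi v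
    rw [MonoidHom.comp_apply, hval i hi]
    exact hφ i v
  · rw [← e, MonoidHom.comp_apply, hx, map_one]

end Pool.Agent.Lib.MP_c2d01e_co.Ex.ActN
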