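import Mathlib

/-!
# From an injective homomorphism of presented groups to normal closures
-/

set_option autoImplicit false

namespace Pool.Agent.Lib.MP_c2d01e_co.Ex

/-- If the natural map from the group presented by `R5` is injective, then every word in the letters `ι i` which is
trivial in the group presented by `R` is a consequence of the relators of `R` which are words in these letters. -/
theorem adapt (ι : Fin 5 → Fin 6) (R : Set (FreeGroup (Fin 6))) (R5 : Set (FreeGroup (Fin 5)))
    (hR5 : ∀ r ∈ R5, FreeGroup.map ι r ∈ R) (f : PresentedGroup R5 →* PresentedGroup R)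
    (hf : Function.Injective f) (hof : ∀ i, f (PresentedGroup.of i) = PresentedGroup.of (ι i))
    (w : FreeGroup (Fin 5)) (hw : FreeGroup.map ι w ∈ Subgroup.normalClosure R) :
    w ∈ Subgroup.normalClosure {r : FreeGroup (Fin 5) | FreeGroup.map ι r ∈ R} := by
  have e : f.comp (PresentedGroup.mk R5) = (PresentedGroup.mk R).comp (FreeGroup.map ι) := by
    ext i
    rw [MonoidHom.comp_apply, MonoidHom.comp_apply, FreeGroup.map.of]
    exact hof i
  have h1 : PresentedGroup.mk R (FreeGroup.map ι w) = 1 :=
    (QuotientGroup.eq_one_iff (FreeGroup.map ι w)).2 hw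
  have h2 : f (PresentedGroup.mk R5 w) = 1 := by
    have := DFunLike.congr_fun e w
    rw [MonoidHom.comp_apply, MonoidHom.comp_apply] at this
    rw [this, h1]
  have h3 : PresentedGroup.mk R5 w = 1 := hf (by rw [h2, map_one])
  have h4 : w ∈ Subgroup.normalClosure R5 := (QuotientGroup.eq_one_iff w).1 h3
  exact Subgroup.normalClosure_mono (fun r hr => hR5 r hr) h4

end Pool.Agent.Lib.MP_c2d01e_co.Ex
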