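import Pool.Agent.Lib.MP_c2d01e_co.EqDefs

/-!
# The presented groups of the facets and of the vertex-figures of the families (B) and (C)

Five generators `x 0, …, x 4`: the generators `ρ₀, …, ρ₄` for the facets, `ρ₁, …, ρ₅` for the vertex-figures, with
their Coxeter relators and the relator of the facets or of the vertex-figures.
-/

set_option autoImplicit false

namespace Pool.Agent.Lib.MP_c2d01e_co.EmbDefs

open EqDefs

/-- The generators of the free group with five generators. -/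
def x (i : Fin 5) : FreeGroup (Fin 5) := FreeGroup.of i

/-- The relator of `{3,3,4,3}_(s^k,0^(4-k))` in `x 0 = ρ₀, …, x 4 = ρ₄`. -/
def facB (s k : ℕ) : FreeGroup (Fin 5) :=
  if k = 1 then (x 0 * (x 1 * x 2 * x 3 * x 2 * x 1) * (x 4 * x 3 * x 2 * x 3 * x 4) *
    (x 1 * x 2 * x 3 * x 2 * x 1)) ^ s
  else (x 0 * (x 1 * x 2 * x 3 * x 2 * x 1) * (x 4 * x 3 * x 2 * x 3 * x 4)) ^ (2 * s)

/-- The group of the facets of family (B). -/
abbrev FacB (s k : ℕ) : Type :=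
  PresentedGroup ({r | ∃ i j : Fin 5, r = (x i * x j) ^ coxB i.castSucc j.castSucc} ∪ {facB s k})

/-- The relator of `{3,4,3,3}_(t^l,0^(4-l))` in `x 0 = ρ₁, …, x 4 = ρ₅`. -/
def verB (t l : ℕ) : FreeGroup (Fin 5) :=
  if l = 1 then (x 4 * (x 3 * x 2 * x 1 * x 2 * x 3) * (x 0 * x 1 * x 2 * x 1 * x 0) *
    (x 3 * x 2 * x 1 * x 2 * x 3)) ^ t
  else (x 4 * (x 3 * x 2 * x 1 * x 2 * x 3) * (x 0 * x 1 * x 2 * x 1 * x 0)) ^ (2 * t)

/-- The group of the vertex-figures of family (B). -/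
abbrev VerB (t l : ℕ) : Type :=
  PresentedGroup ({r | ∃ i j : Fin 5, r = (x i * x j) ^ coxB i.succ j.succ} ∪ {verB t l})

/-- The relator of `{3,4,3,3}_(t^k,0^(4-k))` in `x 0 = ρ₀, …, x 4 = ρ₄`. -/
def facC (t k : ℕ) : FreeGroup (Fin 5) :=
  if k = 1 then (x 4 * (x 3 * x 2 * x 1 * x 2 * x 3) * (x 0 * x 1 * x 2 * x 1 * x 0) *
    (x 3 * x 2 * x 1 * x 2 * x 3)) ^ t
  else (x 4 * (x 3 * x 2 * x 1 * x 2 * x 3) * (x 0 * x 1 * x 2 * x 1 * x 0)) ^ (2 * t)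

/-- The group of the facets of family (C). -/
abbrev FacC (t k : ℕ) : Type :=
  PresentedGroup ({r | ∃ i j : Fin 5, r = (x i * x j) ^ coxC i.castSucc j.castSucc} ∪ {facC t k})

/-- The relator of `{4,3,3,4}_(u^l,0^(4-l))` in `x 0 = ρ₁, …, x 4 = ρ₅`. -/
def verC (u l : ℕ) : FreeGroup (Fin 5) :=
  if l = 1 then (x 0 * x 1 * x 2 * x 3 * x 4 * x 3 * x 2 * x 1) ^ u
  else if l = 2 then (x 0 * x 1 * x 2 * x 3 * x 4 * x 3 * x 2) ^ (2 * u)
  else (x 0 * x 1 * x 2 * x 3 * x 4) ^ (4 * u)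

/-- The group of the vertex-figures of family (C). -/
abbrev VerC (u l : ℕ) : Type :=
  PresentedGroup ({r | ∃ i j : Fin 5, r = (x i * x j) ^ coxC i.succ j.succ} ∪ {verC u l})

end Pool.Agent.Lib.MP_c2d01e_co.EmbDefs
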