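import Pool.Agent.Lib.MP_c2d01e_co.Ex.Adapt
import Pool.Agent.Lib.MP_c2d01e_co.Ex.EmbDefs

/-!
# The embeddings of the facet and vertex-figure groups in terms of normal closures
-/

set_option autoImplicit false

namespace Pool.Agent.Lib.MP_c2d01e_co.Ex

open EqDefs

theorem mapx (ι : Fin 5 → Fin 6) (i : Fin 5) : FreeGroup.map ι (EmbDefs.x i) = EqDefs.gen (ι i) := by
  rw [EmbDefs.x, FreeGroup.map.of, EqDefs.gen]

theorem map_facB (s k : ℕ) : FreeGroup.map Fin.castSucc (EmbDefs.facB s k) = facetB s k := by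
  unfold EmbDefs.facB facetB
  split_ifs <;> simp only [map_pow, map_mul, mapx, sB, tB] <;> rfl

theorem map_verB (s k : ℕ) : FreeGroup.map Fin.succ (EmbDefs.verB s k) = vertB s k := by
  unfold EmbDefs.verB vertB
  split_ifs <;> simp only [map_pow, map_mul, mapx, sB, tB] <;> rfl

theorem map_facC (s k : ℕ) : FreeGroup.map Fin.castSucc (EmbDefs.facC s k) = facetC s k := by
  unfold EmbDefs.facC facetC
  split_ifs <;> simp only [map_pow, map_mul, mapx, sC, tC] <;> rfl

theorem map_verC (s k : ℕ) : FreeGroup.map Fin.succ (EmbDefs.verC s k) = vertC s k := by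
  unfold EmbDefs.verC vertC
  split_ifs <;> simp only [map_pow, map_mul, mapx] <;> rfl

theorem adaptFacB (s k t l : ℕ) (h : ∃ f : EmbDefs.FacB s k →* GamB s k t l,
    Function.Injective f ∧ ∀ i : Fin 5, f (PresentedGroup.of i) = PresentedGroup.of i.castSucc)
    (w : FreeGroup (Fin 5))
    (hw : FreeGroup.map Fin.castSucc w ∈ Subgroup.normalClosure (relsB s k t l)) :
    w ∈ Subgroup.normalClosure {r : FreeGroup (Fin 5) |
      FreeGroup.map Fin.castSucc r ∈ relsB s k t l} := by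
  obtain ⟨f, hf, hof⟩ := h
  refine adapt Fin.castSucc _ _ ?_ f hf hof w hw
  rintro r (⟨i, j, rfl⟩ | hr)
  · exact Or.inl ⟨i.castSucc, j.castSucc, by rw [map_pow, map_mul, mapx, mapx]⟩
  · rw [Set.mem_singleton_iff.1 hr, map_facB]
    exact Or.inr (Or.inl rfl)

theorem adaptVerB (s k t l : ℕ) (h : ∃ f : EmbDefs.VerB t l →* GamB s k t l,
    Function.Injective f ∧ ∀ i : Fin 5, f (PresentedGroup.of i) = PresentedGroup.of i.succ)
    (w : FreeGroup (Fin 5))
    (hw : FreeGroup.map Fin.succ w ∈ Subgroup.normalClosure (relsB s k t l)) :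
    w ∈ Subgroup.normalClosure {r : FreeGroup (Fin 5) |
      FreeGroup.map Fin.succ r ∈ relsB s k t l} := by
  obtain ⟨f, hf, hof⟩ := h
  refine adapt Fin.succ _ _ ?_ f hf hof w hw
  rintro r (⟨i, j, rfl⟩ | hr)
  · exact Or.inl ⟨i.succ, j.succ, by rw [map_pow, map_mul, mapx, mapx]⟩
  · rw [Set.mem_singleton_iff.1 hr, map_verB]
    exact Or.inr (Or.inr rfl)

theorem adaptFacC (t k u l : ℕ) (h : ∃ f : EmbDefs.FacC t k →* GamC t k u l,
    Function.Injective f ∧ ∀ i : Fin 5, f (PresentedGroup.of i) = PresentedGroup.of i.castSucc)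
    (w : FreeGroup (Fin 5))
    (hw : FreeGroup.map Fin.castSucc w ∈ Subgroup.normalClosure (relsC t k u l)) :
    w ∈ Subgroup.normalClosure {r : FreeGroup (Fin 5) |
      FreeGroup.map Fin.castSucc r ∈ relsC t k u l} := by
  obtain ⟨f, hf, hof⟩ := h
  refine adapt Fin.castSucc _ _ ?_ f hf hof w hw
  rintro r (⟨i, j, rfl⟩ | hr)
  · exact Or.inl ⟨i.castSucc, j.castSucc, by rw [map_pow, map_mul, mapx, mapx]⟩
  · rw [Set.mem_singleton_iff.1 hr, map_facC]
    exact Or.inr (Or.inl rfl)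

theorem adaptVerC (t k u l : ℕ) (h : ∃ f : EmbDefs.VerC u l →* GamC t k u l,
    Function.Injective f ∧ ∀ i : Fin 5, f (PresentedGroup.of i) = PresentedGroup.of i.succ)
    (w : FreeGroup (Fin 5))
    (hw : FreeGroup.map Fin.succ w ∈ Subgroup.normalClosure (relsC t k u l)) :
    w ∈ Subgroup.normalClosure {r : FreeGroup (Fin 5) |
      FreeGroup.map Fin.succ r ∈ relsC t k u l} := by
  obtain ⟨f, hf, hof⟩ := h
  refine adapt Fin.succ _ _ ?_ f hf hof w hw
  rintro r (⟨i, j, rfl⟩ | hr)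
  · exact Or.inl ⟨i.succ, j.succ, by rw [map_pow, map_mul, mapx, mapx]⟩
  · rw [Set.mem_singleton_iff.1 hr, map_verC]
    exact Or.inr (Or.inr rfl)

end Pool.Agent.Lib.MP_c2d01e_co.Ex
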