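import Pool.Agent.Lib.MP_c2d01e_co.Ex.TrC

/-!
# Family (C): products of translations which are trivial
-/

set_option autoImplicit false

namespace Pool.Agent.Lib.MP_c2d01e_co.TrC

open Fi EqDefs

variable {G : Type} [Group G] {x : Fin 6 → G}

theorem xx (h : Cx coxC x) (k : Fin 6) : (x k)⁻¹ = x k := inv_eq_of_mul_eq_one_left (h.sq k)

theorem tab (h : Cx coxC x) (k i : Fin 4) :
    x (lt k) * t x i * (x (lt k))⁻¹ = lp x (fl (cj k i)) := by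
  have h1 := eq_of_run h _ (okK k i)
  rw [lp_cons, lp_append, lp_cons, lp_nil, mul_one, ← mul_assoc] at h1
  rw [xx h]
  exact h1

theorem fl1 (x : Fin 6 → G) (i : Fin 4) : lp x (fl [(i, true)]) = t x i := by
  simp [fl, t]

theorem fl1' (h : Cx coxC x) (i : Fin 4) : lp x (fl [(i, false)]) = (t x i)⁻¹ := by
  have : fl [(i, false)] = (tw i).reverse := by simp [fl]
  rw [this, lp_rev h, t]

theorem c10 (h : Cx coxC x) : x 1 * t x 0 * (x 1)⁻¹ = (t x 0)⁻¹ := by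
  have := tab h 0 0
  rwa [show cj 0 0 = [(0, false)] from rfl, fl1' h] at this

theorem c11 (h : Cx coxC x) : x 1 * t x 1 * (x 1)⁻¹ = t x 1 := by
  have := tab h 0 1
  rwa [show cj 0 1 = [(1, true)] from rfl, fl1] at this

theorem c12 (h : Cx coxC x) : x 1 * t x 2 * (x 1)⁻¹ = t x 2 := by
  have := tab h 0 2
  rwa [show cj 0 2 = [(2, true)] from rfl, fl1] at this

theorem c13 (h : Cx coxC x) : x 1 * t x 3 * (x 1)⁻¹ = t x 3 := by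
  have := tab h 0 3
  rwa [show cj 0 3 = [(3, true)] from rfl, fl1] at this

theorem c20 (h : Cx coxC x) : x 2 * t x 0 * (x 2)⁻¹ = t x 1 := by
  have := tab h 1 0
  rwa [show cj 1 0 = [(1, true)] from rfl, fl1] at this

theorem c31 (h : Cx coxC x) : x 3 * t x 1 * (x 3)⁻¹ = t x 2 := by
  have := tab h 2 1
  rwa [show cj 2 1 = [(2, true)] from rfl, fl1] at this

theorem c42 (h : Cx coxC x) : x 4 * t x 2 * (x 4)⁻¹ = t x 3 := by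
  have := tab h 3 2
  rwa [show cj 3 2 = [(3, true)] from rfl, fl1] at this

theorem c30 (h : Cx coxC x) : x 3 * t x 0 * (x 3)⁻¹ = t x 0 := by
  have := tab h 2 0
  rwa [show cj 2 0 = [(0, true)] from rfl, fl1] at this

theorem c40 (h : Cx coxC x) : x 4 * t x 0 * (x 4)⁻¹ = t x 0 := by
  have := tab h 3 0
  rwa [show cj 3 0 = [(0, true)] from rfl, fl1] at this

/-- the product of the translations -/
def tp (x : Fin 6 → G) (c : Fin 4 → ℤ) : G := t x 0 ^ c 0 * t x 1 ^ c 1 * t x 2 ^ c 2 * t x 3 ^ c 3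

theorem V2p (h : Cx coxC x) : lp x wV2 = t x 0 * t x 1 := by
  rw [V2_eq h]
  simp [l2, fl, t, lp_append]

theorem V4p (h : Cx coxC x) : lp x wV4 = t x 0 * t x 1 * t x 2 * t x 3 := by
  rw [V4_eq h]
  simp [l4, fl, t, lp_append, mul_assoc]

theorem cj_zpow {g a b : G} (hg : g * a * g⁻¹ = b) (m : ℤ) : g * a ^ m * g⁻¹ = b ^ m := by
  rw [← hg, conj_zpow]

/-- `(u,u,0,0)`: the `n`-th powers of the translations are all the same involution. -/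
theorem Q1 (h : Cx coxC x) {n : ℕ} (hn : lp x wV2 ^ n = 1) :
    t x 1 ^ (n : ℤ) = t x 0 ^ (n : ℤ) ∧ t x 2 ^ (n : ℤ) = t x 0 ^ (n : ℤ) ∧
      t x 3 ^ (n : ℤ) = t x 0 ^ (n : ℤ) ∧ t x 0 ^ (n : ℤ) * t x 0 ^ (n : ℤ) = 1 := by
  have h1 : t x 0 ^ (n : ℤ) * t x 1 ^ (n : ℤ) = 1 := by
    rw [V2p h, (t_comm h 0 1).mul_pow] at hn
    simpa using hn
  have h2 : (t x 0 ^ (n : ℤ))⁻¹ * t x 1 ^ (n : ℤ) = 1 := by
    have e : x 1 * (t x 0 ^ (n : ℤ) * t x 1 ^ (n : ℤ)) * (x 1)⁻¹ =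
        (x 1 * t x 0 ^ (n : ℤ) * (x 1)⁻¹) * (x 1 * t x 1 ^ (n : ℤ) * (x 1)⁻¹) := by group
    rw [h1, cj_zpow (c10 h), cj_zpow (c11 h), mul_one, mul_inv_cancel, inv_zpow] at e
    exact e.symm
  have h3 : t x 1 ^ (n : ℤ) = t x 0 ^ (n : ℤ) := (inv_mul_eq_one.1 h2).symm
  have h4 : t x 2 ^ (n : ℤ) = t x 0 ^ (n : ℤ) := by
    have e := congrArg (fun y => x 3 * y * (x 3)⁻¹) h3
    rwa [cj_zpow (c31 h), cj_zpow (c30 h)] at e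
  have h5 : t x 3 ^ (n : ℤ) = t x 0 ^ (n : ℤ) := by
    have e := congrArg (fun y => x 4 * y * (x 4)⁻¹) h4
    rwa [cj_zpow (c42 h), cj_zpow (c40 h)] at e
  exact ⟨h3, h4, h5, by rw [h3] at h1; exact h1⟩

theorem Qtype (h : Cx coxC x) {n : ℕ} (hn : lp x wV2 ^ n = 1) (c k : Fin 4 → ℤ)
    (hc : ∀ i, c i = n * k i) (hk : Even (k 0 + k 1 + k 2 + k 3)) : tp x c = 1 := by
  obtain ⟨h1, h2, h3, h4⟩ := Q1 h hn
  rw [tp, hc, hc, hc, hc, zpow_mul, zpow_mul, zpow_mul, zpow_mul, h1, h2, h3, ← zpow_add,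
    ← zpow_add, ← zpow_add]
  obtain ⟨r, hr⟩ := hk
  rw [hr, zpow_add, ← Commute.mul_zpow (Commute.refl _), h4, one_zpow]

/-- `(u,u,u,u)`: the `2 n`-th powers are trivial, and the product of the `n`-th powers. -/
theorem P1 (h : Cx coxC x) {n : ℕ} (hn : lp x wV4 ^ n = 1) :
    (∀ i, t x i ^ (n : ℤ) * t x i ^ (n : ℤ) = 1) ∧
      t x 0 ^ (n : ℤ) * t x 1 ^ (n : ℤ) * t x 2 ^ (n : ℤ) * t x 3 ^ (n : ℤ) = 1 := by
  have h1 : t x 0 ^ (n : ℤ) * t x 1 ^ (n : ℤ) * t x 2 ^ (n : ℤ) * t x 3 ^ (n : ℤ) = 1 := by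
    have a1 : Commute (t x 0 * t x 1 * t x 2) (t x 3) :=
      ((t_comm h 0 3).mul_left (t_comm h 1 3)).mul_left (t_comm h 2 3)
    have a2 : Commute (t x 0 * t x 1) (t x 2) := (t_comm h 0 2).mul_left (t_comm h 1 2)
    rw [V4p h, a1.mul_pow, a2.mul_pow, (t_comm h 0 1).mul_pow] at hn
    simpa using hn
  have h2 : (t x 0 ^ (n : ℤ))⁻¹ * t x 1 ^ (n : ℤ) * t x 2 ^ (n : ℤ) * t x 3 ^ (n : ℤ) = 1 := by
    have e : x 1 * (t x 0 ^ (n : ℤ) * t x 1 ^ (n : ℤ) * t x 2 ^ (n : ℤ) * t x 3 ^ (n : ℤ)) *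
        (x 1)⁻¹ = (x 1 * t x 0 ^ (n : ℤ) * (x 1)⁻¹) * (x 1 * t x 1 ^ (n : ℤ) * (x 1)⁻¹) *
        (x 1 * t x 2 ^ (n : ℤ) * (x 1)⁻¹) * (x 1 * t x 3 ^ (n : ℤ) * (x 1)⁻¹) := by group
    rw [h1, cj_zpow (c10 h), cj_zpow (c11 h), cj_zpow (c12 h), cj_zpow (c13 h), mul_one,
      mul_inv_cancel, inv_zpow] at e
    exact e.symm
  have h3 : t x 0 ^ (n : ℤ) * t x 0 ^ (n : ℤ) = 1 := by
    have e2 : t x 0 ^ (n : ℤ) = (t x 0 ^ (n : ℤ))⁻¹ := by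
      have e3 : t x 0 ^ (n : ℤ) * (t x 1 ^ (n : ℤ) * t x 2 ^ (n : ℤ) * t x 3 ^ (n : ℤ)) = 1 := by
        rw [← h1]
        group
      have e4 : (t x 0 ^ (n : ℤ))⁻¹ * (t x 1 ^ (n : ℤ) * t x 2 ^ (n : ℤ) * t x 3 ^ (n : ℤ)) =
          1 := by
        rw [← h2]
        group
      exact (eq_inv_of_mul_eq_one_left e3).trans (eq_inv_of_mul_eq_one_left e4).symm
    nth_rewrite 1 [e2]
    exact inv_mul_cancel _
  have h4 : t x 1 ^ (n : ℤ) * t x 1 ^ (n : ℤ) = 1 := by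
    rw [← cj_zpow (c20 h)]
    have e : x 2 * t x 0 ^ (n : ℤ) * (x 2)⁻¹ * (x 2 * t x 0 ^ (n : ℤ) * (x 2)⁻¹) =
        x 2 * (t x 0 ^ (n : ℤ) * t x 0 ^ (n : ℤ)) * (x 2)⁻¹ := by group
    rw [e, h3, mul_one, mul_inv_cancel]
  have h5 : t x 2 ^ (n : ℤ) * t x 2 ^ (n : ℤ) = 1 := by
    rw [← cj_zpow (c31 h)]
    have e : x 3 * t x 1 ^ (n : ℤ) * (x 3)⁻¹ * (x 3 * t x 1 ^ (n : ℤ) * (x 3)⁻¹) =
        x 3 * (t x 1 ^ (n : ℤ) * t x 1 ^ (n : ℤ)) * (x 3)⁻¹ := by group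
    rw [e, h4, mul_one, mul_inv_cancel]
  have h6 : t x 3 ^ (n : ℤ) * t x 3 ^ (n : ℤ) = 1 := by
    rw [← cj_zpow (c42 h)]
    have e : x 4 * t x 2 ^ (n : ℤ) * (x 4)⁻¹ * (x 4 * t x 2 ^ (n : ℤ) * (x 4)⁻¹) =
        x 4 * (t x 2 ^ (n : ℤ) * t x 2 ^ (n : ℤ)) * (x 4)⁻¹ := by group
    rw [e, h5, mul_one, mul_inv_cancel]
  refine ⟨fun i => ?_, h1⟩
  fin_cases i
  · exact h3
  · exact h4
  · exact h5
  · exact h6

theorem evenz {g : G} (hg : g * g = 1) {k : ℤ} (hk : Even k) : g ^ k = 1 := by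
  obtain ⟨r, rfl⟩ := hk
  rw [zpow_add, ← Commute.mul_zpow (Commute.refl _), hg, one_zpow]

theorem oddz {g : G} (hg : g * g = 1) {k : ℤ} (hk : Odd k) : g ^ k = g := by
  obtain ⟨r, rfl⟩ := hk
  rw [zpow_add, zpow_one, evenz hg ⟨r, by ring⟩, one_mul]

theorem Ptype (h : Cx coxC x) {n : ℕ} (hn : lp x wV4 ^ n = 1) (c k : Fin 4 → ℤ)
    (hc : ∀ i, c i = n * k i) (hk : (∀ i, Even (k i)) ∨ ∀ i, Odd (k i)) : tp x c = 1 := by
  obtain ⟨h1, h2⟩ := P1 h hn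
  rw [tp, hc, hc, hc, hc, zpow_mul, zpow_mul, zpow_mul, zpow_mul]
  rcases hk with hk | hk
  · rw [evenz (h1 0) (hk 0), evenz (h1 1) (hk 1), evenz (h1 2) (hk 2), evenz (h1 3) (hk 3)]
    simp
  · rw [oddz (h1 0) (hk 0), oddz (h1 1) (hk 1), oddz (h1 2) (hk 2), oddz (h1 3) (hk 3), h2]

end Pool.Agent.Lib.MP_c2d01e_co.TrC
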