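import Pool.Agent.Lib.MP_c2d01e_co.Ex.InfC19
import Pool.Agent.Lib.MP_c2d01e_co.Ex.TrC2
import Pool.Agent.Lib.MP_c2d01e_co.Ex.HomC
import Pool.Agent.Lib.MP_c2d01e_co.Ex.CGC
import Pool.Agent.Lib.MP_c2d01e_co.FinC

/-!
# Family (C) with equal lattices: string C-groups (helper19)
-/

set_option autoImplicit false

namespace Pool.Agent.Lib.MP_c2d01e_co.Ex.CC19

open Subgroup CGroup EqDefs Ex.C19

/-- The vectors of the four translations. -/
def y2 : Fin 4 → H4 := ![(0, 0, 0, -1), (0, 0, -1, 0), (0, -1, 0, 0), (2, -1, -1, -1)]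

/-- A generator as a word in the six reflections. -/
def cl : Fin 6 → List (Fin 6) := ![[2], [3], [4], [5], [1, 2, 3, 4, 3, 2, 1], [0]]

theorem wd_append (l l' : List (Fin 6)) (v : V) : wd (l ++ l') v = wd l (wd l' v) := by
  induction l with
  | nil => rfl
  | cons i l ih => exact congrArg (R i) ih

theorem C_cl (i : Fin 6) (v : V) : CGroupC.C i v = wd (cl i) v := by
  fin_cases i
  · rfl
  · rfl
  · rfl
  · rfl
  · exact CGroupC.C_four v
  · rfl

variable {G : Type} [Group G] {x : Fin 6 → G} {s : ℕ}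

theorem act_lp (φ : G →* Equiv.Perm (VN s))
    (hφ : ∀ i v, φ (x i) (CGroup.pi s v) = CGroup.pi s (CGroupC.C i v)) (l : List (Fin 6)) (v : V) :
    φ (Fi.lp x l) (CGroup.pi s v) = CGroup.pi s (wd (l.flatMap cl) v) := by
  induction l generalizing v with
  | nil => rw [Fi.lp_nil, map_one]; rfl
  | cons k l ih =>
    rw [Fi.lp_cons, map_mul, Equiv.Perm.mul_apply, ih, hφ, C_cl, ← wd_append, List.flatMap_cons]

theorem tw_act (k : Fin 4) (v : V) : wd ((TrC.tw k).flatMap cl) v = gg (E (y2 k) (gg v)) := by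
  have h : ∀ k : Fin 4, ∀ i : Fin 6, wd ((TrC.tw k).flatMap cl) (bs i) =
      ((wd [0, 1, 0]).comp ((Em (y2 k)).comp (wd [0, 1, 0]))) (bs i) := by
    decide +kernel
  exact ext_basis _ _ (h k) v

theorem act_t (φ : G →* Equiv.Perm (VN s))
    (hφ : ∀ i v, φ (x i) (CGroup.pi s v) = CGroup.pi s (CGroupC.C i v)) (k : Fin 4) (v : V) :
    φ (TrC.t x k) (CGroup.pi s (gg v)) = CGroup.pi s (gg (E (y2 k) v)) := by
  rw [TrC.t, act_lp φ hφ, tw_act, gg_gg]

theorem exps2 (φ : G →* Equiv.Perm (VN s))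
    (hφ : ∀ i v, φ (x i) (CGroup.pi s v) = CGroup.pi s (CGroupC.C i v)) (a : Fin 4 → ℤ)
    (ha : TrC.tp x a ∈ closure (x '' {0, 1, 2, 3, 4})) :
    (s : ℤ) ∣ 2 * a 3 ∧ (s : ℤ) ∣ a 2 + a 3 ∧ (s : ℤ) ∣ a 1 + a 3 ∧ (s : ℤ) ∣ a 0 + a 3 := by
  have h4 := fix_cl φ (CGroup.pi s ((0, 0, 0, 0), 1, 0)) (x '' {0, 1, 2, 3, 4}) (by
    rintro g ⟨i, hi, rfl⟩
    rw [hφ]
    congr 1
    exact CGroupC.fvC_fix 5 i (by
      rintro rfl
      simp at hi)) _ ha
  have h5 : (CGroup.pi s ((0, 0, 0, 0), 1, 0) : VN s) =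
      CGroup.pi s (gg ((-2, 1, 1, 1), 1, -1)) := by
    congr 1
  rw [h5] at h4
  unfold TrC.tp at h4
  rw [prod_act φ (fun v => CGroup.pi s (gg v)) (act_t φ hφ), ← h5] at h4
  obtain ⟨e1, e2, e3, e4⟩ := dvd_fix h4
  have f1 : (a 0 • y2 0 + a 1 • y2 1 + a 2 • y2 2 + a 3 • y2 3).1 = 2 * a 3 := by
    show a 0 * 0 + a 1 * 0 + a 2 * 0 + a 3 * 2 = _
    ring
  have f2 : (a 0 • y2 0 + a 1 • y2 1 + a 2 • y2 2 + a 3 • y2 3).2.1 = -(a 2 + a 3) := by
    show a 0 * 0 + a 1 * 0 + a 2 * (-1) + a 3 * (-1) = _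
    ring
  have f3 : (a 0 • y2 0 + a 1 • y2 1 + a 2 • y2 2 + a 3 • y2 3).2.2.1 = -(a 1 + a 3) := by
    show a 0 * 0 + a 1 * (-1) + a 2 * 0 + a 3 * (-1) = _
    ring
  have f4 : (a 0 • y2 0 + a 1 • y2 1 + a 2 • y2 2 + a 3 • y2 3).2.2.2 = -(a 0 + a 3) := by
    show a 0 * (-1) + a 1 * 0 + a 2 * 0 + a 3 * (-1) = _
    ring
  rw [f1] at e1
  rw [f2, Int.dvd_neg] at e2
  rw [f3, Int.dvd_neg] at e3
  rw [f4, Int.dvd_neg] at e4
  exact ⟨e1, e2, e3, e4⟩

theorem inf_of (hx : Fi.Cx coxC x)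
    (hone : ∀ a : Fin 4 → ℤ, TrC.tp x a ∈ closure (x '' {0, 1, 2, 3, 4}) → TrC.tp x a = 1)
    (w : G) (h0 : w ∈ closure (x '' {0, 1, 2, 3, 4})) (h1 : w ∈ closure (x '' {1, 2, 3, 4, 5})) :
    w ∈ closure (x '' {1, 2, 3, 4}) :=
  red (c := x) (e := TrC.t x) (TrC.main hx) hone w h0 h1

/-- P-type. -/
theorem infP (hx : Fi.Cx coxC x) {n : ℕ} (φ : G →* Equiv.Perm (VN (2 * n)))
    (hφ : ∀ i v, φ (x i) (CGroup.pi (2 * n) v) = CGroup.pi (2 * n) (CGroupC.C i v))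
    (hn : Fi.lp x TrC.wV4 ^ n = 1)
    (w : G) (h0 : w ∈ closure (x '' {0, 1, 2, 3, 4})) (h1 : w ∈ closure (x '' {1, 2, 3, 4, 5})) :
    w ∈ closure (x '' {1, 2, 3, 4}) := by
  refine inf_of hx (fun a ha => ?_) w h0 h1
  obtain ⟨d3, d2, d1, d0⟩ := exps2 φ hφ a ha
  obtain ⟨k3, e3⟩ := d3
  obtain ⟨k2, e2⟩ := d2
  obtain ⟨k1, e1⟩ := d1
  obtain ⟨k0, e0⟩ := d0
  push_cast at e0 e1 e2 e3
  have f3 : a 3 = n * k3 := by
    have : 2 * a 3 = 2 * ((n : ℤ) * k3) := by rw [e3]; ring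
    linarith
  have f2 : a 2 = n * (2 * k2 - k3) := by
    have : a 2 = (2 * n * k2) - a 3 := by linarith
    rw [this, f3]; ring
  have f1 : a 1 = n * (2 * k1 - k3) := by
    have : a 1 = (2 * n * k1) - a 3 := by linarith
    rw [this, f3]; ring
  have f0 : a 0 = n * (2 * k0 - k3) := by
    have : a 0 = (2 * n * k0) - a 3 := by linarith
    rw [this, f3]; ring
  refine TrC.Ptype hx hn a ![2 * k0 - k3, 2 * k1 - k3, 2 * k2 - k3, k3] ?_ ?_
  · intro i
    fin_cases i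
    · exact f0
    · exact f1
    · exact f2
    · exact f3
  · rcases Int.even_or_odd k3 with h | h
    · left
      intro i
      fin_cases i
      · exact (even_two_mul k0).sub h
      · exact (even_two_mul k1).sub h
      · exact (even_two_mul k2).sub h
      · exact h
    · right
      intro i
      fin_cases i
      · exact (even_two_mul k0).sub_odd h
      · exact (even_two_mul k1).sub_odd h
      · exact (even_two_mul k2).sub_odd h
      · exact h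

/-- Q-type. -/
theorem infQ (hx : Fi.Cx coxC x) {n : ℕ} (hn : Odd n) (φ : G →* Equiv.Perm (VN n))
    (hφ : ∀ i v, φ (x i) (CGroup.pi n v) = CGroup.pi n (CGroupC.C i v))
    (hV : Fi.lp x TrC.wV2 ^ n = 1)
    (ψ : G →* ℤˣ) (hψ : ∀ i, i ≠ 5 → ψ (x i) = 1) (hψ5 : ψ (x 5) = -1)
    (w : G) (h0 : w ∈ closure (x '' {0, 1, 2, 3, 4})) (h1 : w ∈ closure (x '' {1, 2, 3, 4, 5})) :
    w ∈ closure (x '' {1, 2, 3, 4}) := by
  refine inf_of hx (fun a ha => ?_) w h0 h1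
  obtain ⟨d3, d2, d1, d0⟩ := exps2 φ hφ a ha
  have hc2 : IsCoprime (n : ℤ) 2 := by
    obtain ⟨k, hk⟩ := hn
    refine ⟨1, -k, ?_⟩
    rw [hk]
    push_cast
    ring
  have c3 : (n : ℤ) ∣ a 3 := hc2.dvd_of_dvd_mul_left d3
  have c2 : (n : ℤ) ∣ a 2 := (dvd_add_left c3).1 d2
  have c1 : (n : ℤ) ∣ a 1 := (dvd_add_left c3).1 d1
  have c0 : (n : ℤ) ∣ a 0 := (dvd_add_left c3).1 d0
  obtain ⟨k3, e3⟩ := c3
  obtain ⟨k2, e2⟩ := c2
  obtain ⟨k1, e1⟩ := c1
  obtain ⟨k0, e0⟩ := c0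
  have hψF : ∀ g ∈ closure (x '' {0, 1, 2, 3, 4}), ψ g = 1 := by
    intro g hg
    have hle : closure (x '' {0, 1, 2, 3, 4}) ≤ ψ.ker := by
      rw [closure_le]
      rintro y ⟨i, hi, rfl⟩
      exact hψ i (by
        rintro rfl
        simp at hi)
    exact hle hg
  have hψt : ∀ k, ψ (TrC.t x k) = -1 := by
    have q1 := hψ 1 (by decide)
    have q2 := hψ 2 (by decide)
    have q3 := hψ 3 (by decide)
    have q4 := hψ 4 (by decide)
    intro k
    fin_cases k <;>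
      simp [TrC.t, TrC.tw, TrC.gw, TrC.wT, Fi.lp, q1, q2, q3, q4, hψ5]
  have h5 := hψF _ ha
  unfold TrC.tp at h5
  simp only [map_mul, map_zpow, hψt] at h5
  rw [← zpow_add, ← zpow_add, ← zpow_add] at h5
  have hev : Even (a 0 + a 1 + a 2 + a 3) := by
    rcases Int.even_or_odd (a 0 + a 1 + a 2 + a 3) with h | h
    · exact h
    · rw [h.neg_one_zpow] at h5
      exact absurd h5 (by decide)
  have hk : Even (k0 + k1 + k2 + k3) := by
    have e : a 0 + a 1 + a 2 + a 3 = n * (k0 + k1 + k2 + k3) := by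
      rw [e0, e1, e2, e3]; ring
    rw [e, Int.even_mul] at hev
    rcases hev with h | h
    · exfalso
      have h7 : Even n := by exact_mod_cast h
      exact (Nat.not_even_iff_odd.2 hn) h7
    · exact h
  exact TrC.Qtype hx hV a ![k0, k1, k2, k3] (by
    intro i
    fin_cases i
    · exact e0
    · exact e1
    · exact e2
    · exact e3) hk

/-- The signs. -/
def sg5 : Fin 6 → ℤˣ := ![1, 1, 1, 1, 1, -1]

theorem sg5_rels (t k n : ℕ) : ∀ r ∈ relsC t k n 2, FreeGroup.lift sg5 r = 1 := by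
  have hg : ∀ i, FreeGroup.lift sg5 (EqDefs.gen i) = sg5 i := by
    intro i
    rw [EqDefs.gen, FreeGroup.lift_apply_of]
  rintro r (⟨i, j, rfl⟩ | hr | hr)
  · rw [map_pow, map_mul, hg, hg]
    revert i j
    decide
  · rw [hr, facetC]
    split_ifs with hk
    · simp only [sC, tC, map_pow, map_mul, hg]
      simp [sg5]
    · simp only [sC, tC, map_pow, map_mul, hg]
      simp [sg5]
  · rw [Set.mem_singleton_iff.1 hr, vertC, if_neg (by decide), if_pos rfl]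
    simp only [map_pow, map_mul, hg]
    simp [sg5]

/-- Family (C), P-type: a string C-group. -/
theorem scP (m : ℕ) (hm : 2 ≤ m) :
    Function.Injective (PresentedGroup.of : Fin 6 → GamC m 2 m 4) ∧
    (∀ i, (PresentedGroup.of i : GamC m 2 m 4) ≠ 1) ∧
    ∀ I J : Set (Fin 6), closure (PresentedGroup.of '' I) ⊓ closure (PresentedGroup.of '' J) =
      (closure (PresentedGroup.of '' (I ∩ J)) : Subgroup (GamC m 2 m 4)) := by
  obtain ⟨φ, hφ⟩ := ExHom.actC2 m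
  have hnear := CGroupB.nearB_pi (2 * m) (by omega)
  refine ⟨CGroupC.injective φ (CGroup.pi (2 * m)) hφ hnear,
    CGroupC.ne_one φ (CGroup.pi (2 * m)) hφ hnear, ?_⟩
  exact CGroupC.interC (ExHom.of_coxC m 2 m 4) φ (CGroup.pi (2 * m)) hφ hnear
    (infP (FinC.cxC m 2 m 4) φ hφ (FinC.verC4 m 2 m))

/-- Family (C), Q-type: a string C-group. -/
theorem scQ (n : ℕ) (hn : 3 ≤ n) (hodd : Odd n) :
    Function.Injective (PresentedGroup.of : Fin 6 → GamC n 1 n 2) ∧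
    (∀ i, (PresentedGroup.of i : GamC n 1 n 2) ≠ 1) ∧
    ∀ I J : Set (Fin 6), closure (PresentedGroup.of '' I) ⊓ closure (PresentedGroup.of '' J) =
      (closure (PresentedGroup.of '' (I ∩ J)) : Subgroup (GamC n 1 n 2)) := by
  obtain ⟨φ, hφ⟩ := ExHom.actC1 n
  have hnear := CGroupB.nearB_pi n hn
  refine ⟨CGroupC.injective φ (CGroup.pi n) hφ hnear,
    CGroupC.ne_one φ (CGroup.pi n) hφ hnear, ?_⟩
  have hof : ∀ i, PresentedGroup.toGroup (sg5_rels n 1 n) (PresentedGroup.of i) = sg5 i :=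
    fun i => PresentedGroup.toGroup.of _
  refine CGroupC.interC (ExHom.of_coxC n 1 n 2) φ (CGroup.pi n) hφ hnear
    (infQ (FinC.cxC n 1 n 2) hodd φ hφ (FinC.verC2 n 1 n)
      (PresentedGroup.toGroup (sg5_rels n 1 n)) (fun i hi => ?_) ?_)
  · rw [hof]
    revert hi
    revert i
    decide
  · rw [hof]
    rfl

end Pool.Agent.Lib.MP_c2d01e_co.Ex.CC19
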