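import Pool.Agent.Lib.MP_c2d01e_co.GcdY

/-!
# Words of the families (B) and (C) in the groups of family (A) with the vector `(2n,0,0,0)`

With `T = b σ τ σ`, `L = b σ b`: the square of `L τ σ` is `T²`, and the fourth power of `T v`, `v = σ f e`, is
`c T² c`. So the relations with the vectors `(n,n,0,0)` resp. `(n,n,n,n)` of the smaller lattices follow from
`T ^ (2 n) = 1`.
-/

set_option autoImplicit false

namespace Pool.Agent.Lib.MP_c2d01e_co.GcdW

variable {G : Type} [Group G]

section

variable {a b c d e f : G} (h : Rel a b c d e f)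

include h

theorem dt : d * ta d e f = ta d e f * d := by
  have h1 : d * (e * d * e) = (e * d * e) * d := by
    simp only [← mul_assoc]
    exact h.dede
  exact cmm h1 h.df

theorem ct : c * ta d e f * c = ta d e f * c * ta d e f := by
  calc c * (f * (e * d * e) * f) * c = (c * f) * (e * d * e) * (f * c) := by
        simp only [mul_assoc]
    _ = (f * c) * (e * d * e) * (c * f) := by rw [h.cf]
    _ = f * (c * e) * d * (e * c) * f := by simp only [mul_assoc]
    _ = f * (e * c) * d * (c * e) * f := by rw [h.ce]
    _ = f * e * (c * d * c) * e * f := by simp only [mul_assoc]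
    _ = f * e * (d * c * d) * e * f := by rw [h.cdc]
    _ = f * e * d * (e * (f * c * f) * e) * d * e * f := by
        rw [cj h.ff h.cf.symm, cj h.ee h.ce.symm]
        simp only [mul_assoc]
    _ = f * (e * d * e) * f * c * (f * (e * d * e) * f) := by simp only [mul_assoc]

theorem cM : c * (ta d e f * sg c d e * ta d e f) = (ta d e f * sg c d e * ta d e f) * c := by
  have e1 : c * sg c d e * c = d * e * d := by
    simp only [sg, mul_assoc, ca h.cc, h.cc, mul_one]
  have e3 : ta d e f * (d * e * d) * ta d e f = d * e * d :=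
    cj (tt h) (cmm (et h).symm (dt h).symm)
  refine cm h.cc ?_
  calc c * (ta d e f * sg c d e * ta d e f) * c
      = (c * ta d e f * c) * (c * sg c d e * c) * (c * ta d e f * c) := by
        simp only [mul_assoc, ca h.cc]
    _ = (ta d e f * c * ta d e f) * (d * e * d) * (ta d e f * c * ta d e f) := by rw [ct h, e1]
    _ = ta d e f * c * (ta d e f * (d * e * d) * ta d e f) * c * ta d e f := by
        simp only [mul_assoc]
    _ = ta d e f * sg c d e * ta d e f := by
        rw [e3]
        simp only [sg, mul_assoc]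

theorem cX : c * ((b * sg c d e * ta d e f) * (b * sg c d e * ta d e f)) =
    ((b * sg c d e * ta d e f) * (b * sg c d e * ta d e f)) * c := by
  rw [X_eq h]
  have e1 : Commute c (b * sg c d e * b) := cL h
  have e2 : Commute c (ta d e f * sg c d e * ta d e f) := cM h
  exact (e1.mul_right e2).eq

theorem dX : d * ((b * sg c d e * ta d e f) * (b * sg c d e * ta d e f)) =
    ((b * sg c d e * ta d e f) * (b * sg c d e * ta d e f)) * d := by
  rw [X_eq h]
  have e1 : Commute d (b * sg c d e * b) := dL h
  have e2 : Commute d (ta d e f * sg c d e * ta d e f) := cmm (ds h) (dt h)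
  exact (e1.mul_right e2).eq

/-- The square of `Y = L τ σ`. -/
theorem YY2 : ((b * sg c d e * b) * ta d e f * sg c d e) * ((b * sg c d e * b) * ta d e f * sg c d e) =
    tT b (sg c d e) (ta d e f) * tT b (sg c d e) (ta d e f) := by
  have e0 : ta d e f * tT2 b (sg c d e) (ta d e f) * ta d e f = (tT2 b (sg c d e) (ta d e f))⁻¹ :=
    eq_inv_of_mul_eq_one_left (tT2t h)
  have e1 : ta d e f * ((b * sg c d e * ta d e f) * (b * sg c d e * ta d e f)) * ta d e f =
      tT b (sg c d e) (ta d e f) * (tT2 b (sg c d e) (ta d e f))⁻¹ := by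
    rw [← e0, ← TT2 h]
    conv_rhs => rw [← tTt h]
    simp only [mul_assoc, ca (tt h)]
  rw [YY h, e1, ← TT2 h]
  have h1 := (cTT2 h).eq
  calc tT b (sg c d e) (ta d e f) * tT2 b (sg c d e) (ta d e f) *
        (tT b (sg c d e) (ta d e f) * (tT2 b (sg c d e) (ta d e f))⁻¹)
      = (tT b (sg c d e) (ta d e f) * tT2 b (sg c d e) (ta d e f)) * tT b (sg c d e) (ta d e f) *
          (tT2 b (sg c d e) (ta d e f))⁻¹ := by simp only [mul_assoc]
    _ = tT b (sg c d e) (ta d e f) * (tT2 b (sg c d e) (ta d e f) * tT b (sg c d e) (ta d e f)) *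
          (tT2 b (sg c d e) (ta d e f))⁻¹ := by simp only [mul_assoc]
    _ = tT b (sg c d e) (ta d e f) * (tT b (sg c d e) (ta d e f) * tT2 b (sg c d e) (ta d e f)) *
          (tT2 b (sg c d e) (ta d e f))⁻¹ := by rw [h1]
    _ = tT b (sg c d e) (ta d e f) * tT b (sg c d e) (ta d e f) := by
        simp only [mul_assoc, mul_inv_cancel, mul_one]

/-- The square of `v = σ f e`. -/
theorem vv : (sg c d e * f * e) * (sg c d e * f * e) = f * sg c d e * e * f := by
  calc (sg c d e * f * e) * (sg c d e * f * e) = sg c d e * f * (e * sg c d e) * f * e := by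
        simp only [mul_assoc]
    _ = sg c d e * f * (sg c d e * e) * f * e := by rw [es h]
    _ = (sg c d e * f * sg c d e) * (e * f * e) := by simp only [mul_assoc]
    _ = (f * sg c d e * f) * (f * e * f) := by rw [fs h, h.efe]
    _ = f * sg c d e * e * f := by simp only [mul_assoc, ca h.ff]

theorem cV : c * (f * sg c d e * e * f) = ta d e f * (d * c) := by
  have key : ta d e f * (c * (f * sg c d e * e * f)) = d * c := by
    calc ta d e f * (c * (f * sg c d e * e * f))
        = f * (e * d * e) * (f * c * f) * (c * (d * e * d) * c) * e * f := by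
          simp only [ta, sg, mul_assoc]
      _ = f * (e * d * e) * c * (c * (d * e * d) * c) * e * f := by rw [cj h.ff h.cf.symm]
      _ = f * (e * d * e * d) * e * d * (c * e) * f := by simp only [mul_assoc, ca h.cc]
      _ = f * (d * e * d * e) * e * d * (e * c) * f := by rw [← h.dede, h.ce]
      _ = f * d * (c * f) := by simp only [mul_assoc, ca h.ee, ca h.dd]
      _ = f * d * (f * c) := by rw [h.cf]
      _ = (f * d * f) * c := by simp only [mul_assoc]
      _ = d * c := by rw [cj h.ff h.df.symm]
  rw [← key, ca (tt h)]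

theorem VV : (f * sg c d e * e * f) * (f * sg c d e * e * f) = 1 := by
  rw [← vv h]
  have h1 := v4 h
  simp only [mul_assoc] at h1 ⊢
  exact h1

theorem Vc : (f * sg c d e * e * f) * c = c * (d * ta d e f) := by
  have h1 : (f * sg c d e * e * f) * c * (c * (f * sg c d e * e * f)) = 1 := by
    calc (f * sg c d e * e * f) * c * (c * (f * sg c d e * e * f))
        = (f * sg c d e * e * f) * (c * (c * (f * sg c d e * e * f))) := by
          rw [mul_assoc (f * sg c d e * e * f) c]
      _ = 1 := by rw [ca h.cc, VV h]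
  have h2 : c * (d * ta d e f) * (ta d e f * (d * c)) = 1 := by
    simp only [mul_assoc, ca (tt h), ca h.dd, h.cc]
  rw [cV h] at h1
  exact mul_right_cancel (h1.trans h2.symm)

/-- The square of `T v`. -/
theorem TvTv : (tT b (sg c d e) (ta d e f) * (sg c d e * f * e)) *
    (tT b (sg c d e) (ta d e f) * (sg c d e * f * e)) =
    ((b * sg c d e * ta d e f) * (b * sg c d e * ta d e f)) * (f * sg c d e * e * f) := by
  have v1 : (sg c d e * f * e) * tT b (sg c d e) (ta d e f) =
      tT2 b (sg c d e) (ta d e f) * (sg c d e * f * e) := by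
    calc (sg c d e * f * e) * tT b (sg c d e) (ta d e f)
        = sg c d e * f * (e * tT b (sg c d e) (ta d e f)) := by simp only [mul_assoc]
      _ = sg c d e * (f * tT b (sg c d e) (ta d e f)) * e := by rw [eT h]; simp only [mul_assoc]
      _ = sg c d e * tT b (sg c d e) (ta d e f) * (sg c d e * sg c d e) * f * e := by
          rw [fT h, ss h]; simp only [mul_assoc, one_mul]
      _ = (sg c d e * tT b (sg c d e) (ta d e f) * sg c d e) * (sg c d e * f * e) := by
          simp only [mul_assoc]
      _ = tT2 b (sg c d e) (ta d e f) * (sg c d e * f * e) := by rw [T2_eq h]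
  calc (tT b (sg c d e) (ta d e f) * (sg c d e * f * e)) *
        (tT b (sg c d e) (ta d e f) * (sg c d e * f * e))
      = tT b (sg c d e) (ta d e f) * ((sg c d e * f * e) * tT b (sg c d e) (ta d e f)) *
          (sg c d e * f * e) := by simp only [mul_assoc]
    _ = tT b (sg c d e) (ta d e f) * (tT2 b (sg c d e) (ta d e f) * (sg c d e * f * e)) *
          (sg c d e * f * e) := by rw [v1]
    _ = (tT b (sg c d e) (ta d e f) * tT2 b (sg c d e) (ta d e f)) *
          ((sg c d e * f * e) * (sg c d e * f * e)) := by simp only [mul_assoc]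
    _ = _ := by rw [TT2 h, vv h]

/-- The fourth power of `T v`. -/
theorem Tv4 : (tT b (sg c d e) (ta d e f) * (sg c d e * f * e)) ^ 4 =
    c * (tT b (sg c d e) (ta d e f) * tT b (sg c d e) (ta d e f)) * c⁻¹ := by
  have ec : c⁻¹ = c := inv_eq_of_mul_eq_one_left h.cc
  have e4 : (tT b (sg c d e) (ta d e f) * (sg c d e * f * e)) ^ 4 =
      ((tT b (sg c d e) (ta d e f) * (sg c d e * f * e)) *
        (tT b (sg c d e) (ta d e f) * (sg c d e * f * e))) *
      ((tT b (sg c d e) (ta d e f) * (sg c d e * f * e)) *
        (tT b (sg c d e) (ta d e f) * (sg c d e * f * e))) := by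
    simp only [pow_succ, pow_zero, one_mul, mul_assoc]
  rw [e4, TvTv h, ec, ← YY2 h, YY h]
  have hc := cX h
  have hd := dX h
  have hV := cV h
  have hVc := Vc h
  set X := (b * sg c d e * ta d e f) * (b * sg c d e * ta d e f) with hX
  set V := f * sg c d e * e * f with hVd
  calc X * V * (X * V) = c * (c * X * V * X * (V * c)) * c := by
        simp only [mul_assoc, h.cc, mul_one, ca h.cc]
    _ = c * (X * (c * V) * X * (c * (d * ta d e f))) * c := by
        rw [hc, hVc]
        simp only [mul_assoc]
    _ = c * (X * (ta d e f * (d * (c * X))) * (c * (d * ta d e f))) * c := by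
        rw [hV]
        simp only [mul_assoc]
    _ = c * (X * (ta d e f * (d * (X * c))) * (c * (d * ta d e f))) * c := by rw [hc]
    _ = c * (X * ta d e f * (d * X) * (c * (c * (d * ta d e f)))) * c := by
        simp only [mul_assoc]
    _ = c * (X * ta d e f * (X * d) * (d * ta d e f)) * c := by rw [hd, ca h.cc]
    _ = c * (X * (ta d e f * X * ta d e f)) * c := by
        simp only [mul_assoc, ca h.dd]

/-- The relation of `(n,n,0,0)` for `c, d, e, f, L` follows from `T ^ (2 n) = 1`. -/
theorem Y_powT (n : ℕ) (hT : (tT b (sg c d e) (ta d e f)) ^ (2 * n) = 1) :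
    ((b * sg c d e * b) * ta d e f * sg c d e) ^ (2 * n) = 1 := by
  rw [pow_mul, pow_two, YY2 h, ← pow_two, ← pow_mul, hT]

/-- The vertex-figure relation `(n,n,0,0)` of family (B) from `T ^ (2 n) = 1`. -/
theorem vB2T (n : ℕ) (hT : (tT b (sg c d e) (ta d e f)) ^ (2 * n) = 1) :
    ((a * (b * sg c d e * b) * a) * ta d e f * sg c d e) ^ (2 * n) = 1 := by
  have hY := Y_powT h n hT
  have h1 : (a * (b * sg c d e * b) * a) * ta d e f * sg c d e =
      a * ((b * sg c d e * b) * ta d e f * sg c d e) * a⁻¹ := by
    have e0 : a⁻¹ = a := inv_eq_of_mul_eq_one_left h.aa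
    rw [e0]
    calc (a * (b * sg c d e * b) * a) * ta d e f * sg c d e
        = a * (b * sg c d e * b) * (a * ta d e f) * sg c d e := by simp only [mul_assoc]
      _ = a * (b * sg c d e * b) * ta d e f * (a * sg c d e) := by
          rw [at' h]; simp only [mul_assoc]
      _ = _ := by rw [as h]; simp only [mul_assoc]
  rw [h1, conj_pow, hY]
  group

/-- The vertex-figure relation `(n,n,n,n)` of family (C) from `T ^ (2 n) = 1`. -/
theorem vC4T (n : ℕ) (hT : (tT b (sg c d e) (ta d e f)) ^ (2 * n) = 1) :
    (d * e * f * (b * sg c d e * b) * a) ^ (4 * n) = 1 := by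
  have h1 := ((((W_b h).mul_right (W_s h)).mul_right (W_f h)).mul_right (W_e h)).mul_right (W_d h)
  have h3 : (tT b (sg c d e) (ta d e f) * (sg c d e * f * e)) ^ (4 * n) = 1 := by
    rw [pow_mul, Tv4 h, conj_pow, ← pow_two, ← pow_mul, hT]
    group
  have h4 : tT b (sg c d e) (ta d e f) * (sg c d e * f * e) = b * sg c d e * f * e * d := by
    simp only [tT, ta, mul_assoc, ca (ss h), ca h.ff, h.ee, mul_one]
  rw [h4] at h3
  exact one_of_semi h1 h3

end

end Pool.Agent.Lib.MP_c2d01e_co.GcdW
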