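import Pool.Agent.Lib.MP_c2d01e_co.GcdA
import Pool.Agent.Lib.MP_c2d01e_co.CGroup
import Pool.Agent.Lib.MP_c2d01e_co.EqDefs
import Pool.Agent.Lib.MP_c2d01e_co.Ex.GcdZ
import Pool.Agent.Lib.MP_c2d01e_co.Ex.CGB

/-!
# The groups of the families (B) and (C) act on the lattice modulo `n`

The homomorphisms of the groups of the families (B) and (C) with equal lattices to every group with the relations of
`[3,3,3,4,3]` and `T ^ (2 n) = 1` (vectors `(2n,0,0,0), (n,n,0,0)` resp. `(n,n,0,0), (n,n,n,n)`), `X ^ n = 1`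
(vectors `(n,n,0,0), (n,0,0,0)` resp. `(n,0,0,0), (n,n,0,0)`), and the resulting actions on `V` modulo `2 n`, `n`.
-/

set_option autoImplicit false

namespace Pool.Agent.Lib.MP_c2d01e_co.ExHom

open Pool.Agent.Lib.MP_c2d01e_co.EqDefs Pool.Agent.Lib.MP_c2d01e_co.GcdW

section

variable {G : Type} [Group G]

/-- The images of the generators in family (B). -/
def rB (a b c d e f : G) : Fin 6 → G := ![b, c, d, e, f, a * (b * sg c d e * b) * a]

theorem rB0 (a b c d e f : G) : rB a b c d e f 0 = b := rfl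

theorem rB1 (a b c d e f : G) : rB a b c d e f 1 = c := rfl

theorem rB2 (a b c d e f : G) : rB a b c d e f 2 = d := rfl

theorem rB3 (a b c d e f : G) : rB a b c d e f 3 = e := rfl

theorem rB4 (a b c d e f : G) : rB a b c d e f 4 = f := rfl

theorem rB5 (a b c d e f : G) : rB a b c d e f 5 = a * (b * sg c d e * b) * a := rfl

theorem coxB_symm (i j : Fin 6) : coxB i j = coxB j i := by
  revert i j
  decide

theorem rB_cox {a b c d e f : G} (h : Rel a b c d e f) (i j : Fin 6) :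
    (rB a b c d e f i * rB a b c d e f j) ^ coxB i j = 1 := by
  refine coxall coxB_symm ?_ i j
  intro i j hij
  fin_cases i <;> fin_cases j
  · exact p1 h.bb
  · exact p3 h.bb h.cc h.bcb
  · exact p2 h.bb h.dd h.bd
  · exact p2 h.bb h.ee h.be
  · exact p2 h.bb h.ff h.bf
  · exact p2 h.bb (L1L1 h) (bL1 h)
  · exact absurd hij (by decide)
  · exact p1 h.cc
  · exact p3 h.cc h.dd h.cdc
  · exact p2 h.cc h.ee h.ce
  · exact p2 h.cc h.ff h.cf
  · exact p2 h.cc (L1L1 h) (cL1 h)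
  · exact absurd hij (by decide)
  · exact absurd hij (by decide)
  · exact p1 h.dd
  · exact p4 h.dd h.ee h.dede
  · exact p2 h.dd h.ff h.df
  · exact p2 h.dd (L1L1 h) (dL1 h)
  · exact absurd hij (by decide)
  · exact absurd hij (by decide)
  · exact absurd hij (by decide)
  · exact p1 h.ee
  · exact p3 h.ee h.ff h.efe
  · exact p2 h.ee (L1L1 h) (eL1 h)
  · exact absurd hij (by decide)
  · exact absurd hij (by decide)
  · exact absurd hij (by decide)
  · exact absurd hij (by decide)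
  · exact p1 h.ff
  · exact p3 h.ff (L1L1 h) (fL1 h)
  · exact absurd hij (by decide)
  · exact absurd hij (by decide)
  · exact absurd hij (by decide)
  · exact absurd hij (by decide)
  · exact absurd hij (by decide)
  · exact p1 (L1L1 h)

/-- The relators of the vectors `(2n,0,0,0)`, `(n,n,0,0)`. -/
theorem liftB1 {a b c d e f : G} (h : Rel a b c d e f) (n : ℕ)
    (hT : (tT b (sg c d e) (ta d e f)) ^ (2 * n) = 1) :
    ∀ x ∈ relsB (2 * n) 1 n 2, FreeGroup.lift (rB a b c d e f) x = 1 := by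
  rintro x (⟨i, j, rfl⟩ | hx | hx)
  · rw [map_pow, map_mul, gen, gen, FreeGroup.lift_apply_of, FreeGroup.lift_apply_of]
    exact rB_cox h i j
  · rw [hx]
    unfold facetB
    rw [if_pos rfl, map_pow, ← hT]
    congr 1
    simp only [sB, tB, gen, tT, sg, ta, map_mul, FreeGroup.lift_apply_of, rB0, rB1, rB2, rB3, rB4,
      mul_assoc]
  · rw [Set.mem_singleton_iff.1 hx]
    unfold vertB
    rw [if_neg (by norm_num), map_pow, ← vB2T h n hT]
    congr 1
    simp only [sB, tB, gen, sg, ta, map_mul, FreeGroup.lift_apply_of, rB1, rB2, rB3, rB4, rB5,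
      mul_assoc]

/-- The relators of the vectors `(n,n,0,0)`, `(n,0,0,0)`. -/
theorem liftB2 {a b c d e f : G} (h : Rel a b c d e f) (n : ℕ)
    (hX : ((b * sg c d e * ta d e f) * (b * sg c d e * ta d e f)) ^ n = 1) :
    ∀ x ∈ relsB n 2 n 1, FreeGroup.lift (rB a b c d e f) x = 1 := by
  rintro x (⟨i, j, rfl⟩ | hx | hx)
  · rw [map_pow, map_mul, gen, gen, FreeGroup.lift_apply_of, FreeGroup.lift_apply_of]
    exact rB_cox h i j
  · rw [hx]
    unfold facetB
    rw [if_neg (by norm_num), map_pow, ← hX, pow_mul, pow_two]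
    congr 1
    simp only [sB, tB, gen, sg, ta, map_mul, FreeGroup.lift_apply_of, rB0, rB1, rB2, rB3, rB4,
      mul_assoc]
  · rw [Set.mem_singleton_iff.1 hx]
    unfold vertB
    rw [if_pos rfl, map_pow, ← vB1 h n hX]
    congr 1
    simp only [sB, tB, gen, sg, ta, map_mul, FreeGroup.lift_apply_of, rB1, rB2, rB3, rB4, rB5,
      mul_assoc]

end

/-! ### The action -/

theorem PN_cox (n : ℕ) (i j : Fin 6) (m : ℕ) (hm : CGroup.cox i j = m) :
    (CGroup.PN n i * CGroup.PN n j) ^ m = 1 := by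
  subst hm
  have h := CGroup.lift_cox n i j
  rwa [map_pow, map_mul, CGroup.gen, CGroup.gen, FreeGroup.lift_apply_of,
    FreeGroup.lift_apply_of] at h

theorem rel (n : ℕ) : Rel (CGroup.PN n 0) (CGroup.PN n 1) (CGroup.PN n 2) (CGroup.PN n 3)
    (CGroup.PN n 4) (CGroup.PN n 5) where
  aa := CGroup.PN_sq n 0
  bb := CGroup.PN_sq n 1
  cc := CGroup.PN_sq n 2
  dd := CGroup.PN_sq n 3
  ee := CGroup.PN_sq n 4
  ff := CGroup.PN_sq n 5
  aba := q3 (CGroup.PN_sq n 0) (CGroup.PN_sq n 1) (PN_cox n 0 1 3 (by decide))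
  bcb := q3 (CGroup.PN_sq n 1) (CGroup.PN_sq n 2) (PN_cox n 1 2 3 (by decide))
  cdc := q3 (CGroup.PN_sq n 2) (CGroup.PN_sq n 3) (PN_cox n 2 3 3 (by decide))
  dede := q4 (CGroup.PN_sq n 3) (CGroup.PN_sq n 4) (PN_cox n 3 4 4 (by decide))
  efe := q3 (CGroup.PN_sq n 4) (CGroup.PN_sq n 5) (PN_cox n 4 5 3 (by decide))
  ac := q2 (CGroup.PN_sq n 0) (CGroup.PN_sq n 2) (PN_cox n 0 2 2 (by decide))
  ad := q2 (CGroup.PN_sq n 0) (CGroup.PN_sq n 3) (PN_cox n 0 3 2 (by decide))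
  ae := q2 (CGroup.PN_sq n 0) (CGroup.PN_sq n 4) (PN_cox n 0 4 2 (by decide))
  af := q2 (CGroup.PN_sq n 0) (CGroup.PN_sq n 5) (PN_cox n 0 5 2 (by decide))
  bd := q2 (CGroup.PN_sq n 1) (CGroup.PN_sq n 3) (PN_cox n 1 3 2 (by decide))
  be := q2 (CGroup.PN_sq n 1) (CGroup.PN_sq n 4) (PN_cox n 1 4 2 (by decide))
  bf := q2 (CGroup.PN_sq n 1) (CGroup.PN_sq n 5) (PN_cox n 1 5 2 (by decide))
  ce := q2 (CGroup.PN_sq n 2) (CGroup.PN_sq n 4) (PN_cox n 2 4 2 (by decide))
  cf := q2 (CGroup.PN_sq n 2) (CGroup.PN_sq n 5) (PN_cox n 2 5 2 (by decide))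
  df := q2 (CGroup.PN_sq n 3) (CGroup.PN_sq n 5) (PN_cox n 3 5 2 (by decide))

/-- `T ^ n = 1` on the lattice modulo `n`. -/
theorem TN (n : ℕ) : (tT (CGroup.PN n 1) (sg (CGroup.PN n 2) (CGroup.PN n 3) (CGroup.PN n 4))
    (ta (CGroup.PN n 3) (CGroup.PN n 4) (CGroup.PN n 5))) ^ n = 1 := by
  have h := CGroup.lift_extra n 1 (Or.inl rfl)
  rw [CGroup.extra, if_pos rfl, map_pow] at h
  rw [← h]
  congr 1

theorem PN_rB (n : ℕ) (i : Fin 6) (v : V) :
    rB (CGroup.PN n 0) (CGroup.PN n 1) (CGroup.PN n 2) (CGroup.PN n 3) (CGroup.PN n 4)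
      (CGroup.PN n 5) i (CGroup.pi n v) = CGroup.pi n (CGroupB.B i v) := by
  fin_cases i
  · exact CGroup.PN_pi n 1 v
  · exact CGroup.PN_pi n 2 v
  · exact CGroup.PN_pi n 3 v
  · exact CGroup.PN_pi n 4 v
  · exact CGroup.PN_pi n 5 v
  · show (CGroup.PN n 0 * (CGroup.PN n 1 * (CGroup.PN n 2 * (CGroup.PN n 3 * CGroup.PN n 4 *
      CGroup.PN n 3) * CGroup.PN n 2) * CGroup.PN n 1) * CGroup.PN n 0) (CGroup.pi n v) =
      CGroup.pi n (CGroupB.B 5 v)
    rw [CGroupB.B_five]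
    simp only [Equiv.Perm.mul_apply, CGroup.PN_pi]

/-- The group with the vectors `(2n,0,0,0)`, `(n,n,0,0)` acts on the lattice modulo `2 n`. -/
theorem actB1 (n : ℕ) : ∃ φ : GamB (2 * n) 1 n 2 →* Equiv.Perm (CGroup.VN (2 * n)),
    ∀ i v, φ (PresentedGroup.of i) (CGroup.pi (2 * n) v) =
      CGroup.pi (2 * n) (CGroupB.B i v) :=
  ⟨PresentedGroup.toGroup (liftB1 (rel (2 * n)) n (TN (2 * n))), fun i v => by
    rw [PresentedGroup.toGroup.of]
    exact PN_rB (2 * n) i v⟩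

/-- The group with the vectors `(n,n,0,0)`, `(n,0,0,0)` acts on the lattice modulo `n`. -/
theorem actB2 (n : ℕ) : ∃ φ : GamB n 2 n 1 →* Equiv.Perm (CGroup.VN n),
    ∀ i v, φ (PresentedGroup.of i) (CGroup.pi n v) = CGroup.pi n (CGroupB.B i v) :=
  ⟨PresentedGroup.toGroup (liftB2 (rel n) n (X_pow (rel n) n (TN n))), fun i v => by
    rw [PresentedGroup.toGroup.of]
    exact PN_rB n i v⟩

/-- The Coxeter relations of the generators. -/
theorem of_coxB (s k t l : ℕ) (i j : Fin 6) :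
    ((PresentedGroup.of i * PresentedGroup.of j : GamB s k t l)) ^ coxB i j = 1 := by
  have h : (PresentedGroup.mk (relsB s k t l)) ((gen i * gen j) ^ coxB i j) = 1 :=
    PresentedGroup.one_of_mem (Or.inl ⟨i, j, rfl⟩)
  rw [map_pow, map_mul] at h
  exact h

end Pool.Agent.Lib.MP_c2d01e_co.ExHom
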