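import Pool.Agent.Lib.MP_c2d01e_co.Fi.Core
import Pool.Agent.Lib.MP_c2d01e_co.EqDefs

/-!
# Family (B): the translations of the facet group

In a group with the Coxeter relations of `[3,3,4,3,3]` the facet group `⟨x 0, …, x 4⟩` is the product of
the group generated by four commuting conjugates of `T = x₀ s t s` and of `⟨x 1, …, x 4⟩`.
-/

set_option autoImplicit false

namespace Pool.Agent.Lib.MP_c2d01e_co.TrB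

open Fi EqDefs

/-- conjugating words -/
def gw : Fin 4 → List (Fin 6) := ![[], [1], [2, 1], [3, 2, 1]]

/-- the word of `T` -/
def wT : List (Fin 6) := [0, 1, 2, 3, 2, 1, 4, 3, 2, 3, 4, 1, 2, 3, 2, 1]

/-- words of the four translations -/
def tw (i : Fin 4) : List (Fin 6) := gw i ++ (wT ++ (gw i).reverse)

def mc : Fin 4 → Fin 4 → List (ℕ × Fin 6 × Fin 6) :=
    ![![[(31, 1, 1), (30, 2, 2), (29, 3, 3), (28, 2, 2), (27, 1, 1), (26, 4, 4), (25, 3, 3),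
    (24, 2, 2), (23, 3, 3), (22, 4, 4), (21, 1, 1), (20, 2, 2), (19, 3, 3), (18, 2, 2), (17, 1,
    1), (16, 0, 0), (15, 1, 1), (14, 2, 2), (13, 3, 3), (12, 2, 2), (11, 1, 1), (10, 4, 4), (9,
    3, 3), (8, 2, 2), (7, 3, 3), (6, 4, 4), (5, 1, 1), (4, 2, 2), (3, 3, 3), (2, 2, 2), (1, 1,
    1), (0, 0, 0)], [(15, 1, 1), (30, 1, 1), (14, 2, 0), (15, 2, 1), (17, 1, 3), (18, 1, 2),
    (20, 2, 4), (21, 2, 3), (24, 2, 4), (25, 2, 1), (27, 1, 3), (28, 1, 2), (30, 2, 2), (13, 3,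
    0), (14, 3, 1), (15, 3, 2), (18, 3, 1), (19, 3, 4), (21, 4, 2), (22, 4, 3), (24, 3, 1),
    (25, 3, 2), (28, 3, 1), (29, 3, 3), (12, 2, 0), (13, 2, 1), (15, 1, 3), (16, 1, 2), (18, 2,
    4), (19, 2, 3), (22, 2, 4), (23, 2, 1), (25, 1, 3), (26, 1, 2), (28, 2, 2), (27, 1, 1),
    (22, 4, 1), (23, 4, 2), (21, 3, 1), (17, 1, 4), (18, 1, 3), (19, 1, 2), (16, 2, 4), (10, 4,
    1), (11, 4, 0), (12, 4, 1), (13, 4, 2), (14, 4, 3), (16, 3, 2), (19, 3, 1), (20, 3, 2),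
    (23, 3, 4), (25, 4, 2), (26, 4, 4), (22, 2, 4), (15, 4, 2), (9, 3, 1), (10, 3, 0), (11, 3,
    1), (12, 3, 2), (15, 3, 4), (17, 4, 2), (18, 4, 1), (19, 4, 2), (20, 4, 3), (22, 3, 2),
    (25, 3, 3), (24, 2, 2), (23, 3, 3), (21, 4, 2), (22, 4, 4), (17, 2, 1), (19, 1, 3), (16, 3,
    1), (14, 2, 4), (5, 1, 4), (6, 1, 3), (7, 1, 2), (9, 2, 0), (10, 2, 1), (12, 1, 3), (13, 1,
    4), (14, 1, 2), (16, 2, 3), (19, 2, 1), (21, 1, 1), (20, 2, 2), (18, 3, 1), (19, 3, 3),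
    (15, 1, 3), (16, 1, 2), (18, 2, 2), (17, 1, 1), (8, 1, 0), (10, 0, 2), (11, 0, 3), (12, 0,
    4), (13, 0, 2), (14, 0, 3), (15, 0, 2), (16, 0, 0), (16, 1, 1), (15, 2, 2), (14, 3, 3),
    (13, 2, 2), (7, 2, 0), (8, 2, 1), (10, 1, 3), (11, 1, 4), (12, 1, 1), (11, 4, 4), (10, 3,
    3), (9, 2, 2), (6, 3, 0), (7, 3, 1), (8, 3, 3), (5, 4, 0), (6, 4, 1), (7, 4, 4), (6, 1, 1),
    (4, 2, 0), (5, 2, 2), (3, 3, 0), (4, 3, 3), (2, 2, 0), (3, 2, 2), (0, 0, 1), (2, 1, 1), (1,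
    0, 0), (0, 1, 1)], [(14, 2, 1), (16, 1, 1), (31, 1, 1), (30, 2, 2), (15, 2, 0), (16, 2, 1),
    (18, 1, 3), (19, 1, 2), (21, 2, 4), (22, 2, 3), (25, 2, 4), (26, 2, 1), (28, 1, 3), (29, 1,
    1), (13, 3, 1), (14, 3, 0), (15, 3, 1), (16, 3, 2), (19, 3, 1), (20, 3, 4), (22, 4, 2),
    (23, 4, 3), (25, 3, 1), (26, 3, 2), (29, 3, 3), (28, 2, 2), (11, 1, 2), (13, 2, 0), (14, 2,
    1), (16, 1, 3), (17, 1, 2), (19, 2, 4), (20, 2, 3), (23, 2, 4), (24, 2, 1), (26, 1, 3),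
    (27, 1, 1), (23, 4, 1), (24, 4, 2), (22, 3, 1), (18, 1, 4), (19, 1, 3), (20, 1, 2), (17, 2,
    4), (10, 4, 2), (11, 4, 1), (12, 4, 0), (13, 4, 1), (14, 4, 2), (15, 4, 3), (17, 3, 2),
    (20, 3, 1), (21, 3, 2), (24, 3, 4), (26, 4, 4), (25, 3, 3), (23, 2, 4), (24, 2, 2), (16, 4,
    2), (7, 3, 2), (10, 3, 1), (11, 3, 0), (12, 3, 1), (13, 3, 2), (16, 3, 4), (18, 4, 2), (19,
    4, 1), (20, 4, 2), (21, 4, 3), (23, 3, 3), (22, 4, 4), (18, 2, 1), (20, 1, 3), (21, 1, 1),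
    (17, 3, 1), (15, 2, 4), (5, 1, 4), (4, 2, 4), (5, 2, 1), (7, 1, 3), (8, 1, 2), (10, 2, 0),
    (11, 2, 1), (13, 1, 3), (14, 1, 4), (15, 1, 2), (17, 2, 3), (20, 2, 2), (19, 3, 3), (18, 2,
    2), (16, 1, 3), (17, 1, 1), (9, 1, 0), (11, 0, 2), (12, 0, 3), (13, 0, 4), (14, 0, 2), (15,
    0, 3), (16, 0, 0), (17, 1, 1), (16, 2, 2), (15, 3, 3), (14, 2, 2), (8, 2, 0), (9, 2, 1),
    (11, 1, 3), (12, 1, 4), (13, 1, 1), (12, 4, 4), (11, 3, 3), (10, 2, 2), (7, 3, 0), (8, 3,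
    1), (9, 3, 3), (4, 4, 1), (5, 4, 2), (6, 4, 0), (7, 4, 1), (8, 4, 4), (7, 1, 1), (5, 2, 0),
    (6, 2, 2), (3, 3, 1), (4, 3, 0), (5, 3, 3), (1, 1, 2), (3, 2, 0), (4, 2, 2), (0, 0, 2), (1,
    0, 1), (3, 1, 1), (2, 0, 0), (1, 1, 1), (0, 2, 2)], [(15, 1, 3), (12, 2, 3), (15, 2, 1),
    (17, 1, 1), (32, 1, 1), (31, 2, 2), (30, 3, 3), (16, 2, 0), (17, 2, 1), (19, 1, 3), (20, 1,
    2), (22, 2, 4), (23, 2, 3), (26, 2, 4), (27, 2, 1), (29, 1, 1), (28, 2, 2), (14, 3, 1),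
    (15, 3, 0), (16, 3, 1), (17, 3, 2), (20, 3, 1), (21, 3, 4), (23, 4, 2), (24, 4, 3), (26, 3,
    1), (27, 3, 3), (11, 1, 3), (12, 1, 2), (14, 2, 0), (15, 2, 1), (17, 1, 3), (18, 1, 2),
    (20, 2, 4), (21, 2, 3), (24, 2, 4), (25, 2, 1), (27, 1, 1), (24, 4, 1), (25, 4, 2), (26, 4,
    4), (23, 3, 1), (19, 1, 4), (20, 1, 3), (21, 1, 2), (18, 2, 4), (9, 3, 4), (11, 4, 2), (12,
    4, 1), (13, 4, 0), (14, 4, 1), (15, 4, 2), (16, 4, 3), (18, 3, 2), (21, 3, 1), (22, 3, 2),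
    (25, 3, 3), (24, 2, 2), (23, 3, 3), (17, 4, 2), (8, 2, 4), (6, 4, 3), (8, 3, 2), (11, 3,
    1), (12, 3, 0), (13, 3, 1), (14, 3, 2), (17, 3, 4), (19, 4, 2), (20, 4, 1), (21, 4, 2),
    (22, 4, 4), (19, 2, 1), (21, 1, 1), (20, 2, 2), (18, 3, 1), (19, 3, 3), (16, 2, 4), (5, 1,
    3), (6, 1, 4), (2, 2, 3), (5, 2, 4), (6, 2, 1), (8, 1, 3), (9, 1, 2), (11, 2, 0), (12, 2,
    1), (14, 1, 3), (15, 1, 4), (16, 1, 2), (18, 2, 2), (17, 1, 1), (10, 1, 0), (12, 0, 2),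
    (13, 0, 3), (14, 0, 4), (15, 0, 2), (16, 0, 0), (18, 1, 1), (17, 2, 2), (16, 3, 3), (15, 2,
    2), (9, 2, 0), (10, 2, 1), (12, 1, 3), (13, 1, 4), (14, 1, 1), (13, 4, 4), (12, 3, 3), (11,
    2, 2), (8, 3, 0), (9, 3, 1), (10, 3, 3), (5, 4, 1), (6, 4, 2), (7, 4, 0), (8, 4, 1), (9, 4,
    4), (8, 1, 1), (6, 2, 0), (7, 2, 2), (4, 3, 1), (5, 3, 0), (6, 3, 3), (1, 1, 3), (2, 1, 2),
    (4, 2, 0), (5, 2, 2), (0, 0, 3), (1, 0, 2), (2, 0, 1), (4, 1, 1), (3, 0, 0), (2, 1, 1), (1,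
    2, 2), (0, 3, 3)]], ![[(16, 1, 1), (15, 2, 0), (16, 2, 1), (18, 1, 3), (19, 1, 2), (21, 2,
    4), (22, 2, 3), (25, 2, 4), (26, 2, 1), (28, 1, 3), (14, 3, 0), (15, 3, 1), (16, 3, 2),
    (19, 3, 1), (20, 3, 4), (22, 4, 2), (23, 4, 3), (25, 3, 1), (13, 2, 0), (14, 2, 1), (16, 1,
    3), (17, 1, 2), (19, 2, 4), (20, 2, 3), (23, 2, 4), (18, 1, 4), (19, 1, 3), (17, 2, 4),
    (11, 4, 1), (12, 4, 0), (13, 4, 1), (14, 4, 2), (15, 4, 3), (10, 3, 1), (11, 3, 0), (12, 3,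
    1), (6, 1, 4), (7, 1, 3), (8, 1, 2), (10, 2, 0), (0, 1, 0), (2, 0, 2), (3, 0, 3), (4, 0,
    2), (5, 0, 4), (6, 0, 3), (7, 0, 2), (8, 0, 1), (10, 1, 2), (12, 2, 3), (15, 2, 4), (16, 2,
    3), (19, 2, 1), (21, 1, 3), (22, 1, 4), (23, 1, 2), (25, 2, 3), (28, 2, 1), (30, 1, 1),
    (30, 1, 1), (29, 2, 2), (27, 3, 1), (28, 3, 3), (24, 1, 3), (25, 1, 2), (27, 2, 2), (26, 1,
    1), (22, 4, 2), (18, 3, 1), (19, 3, 2), (22, 3, 4), (24, 4, 2), (25, 4, 4), (21, 2, 4),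
    (14, 3, 4), (16, 4, 2), (17, 4, 1), (18, 4, 2), (19, 4, 3), (21, 3, 2), (24, 3, 3), (23, 2,
    2), (22, 3, 3), (20, 4, 2), (21, 4, 4), (16, 2, 1), (18, 1, 3), (15, 3, 1), (13, 2, 4),
    (11, 1, 3), (12, 1, 4), (13, 1, 2), (15, 2, 3), (18, 2, 1), (20, 1, 1), (19, 2, 2), (17, 3,
    1), (18, 3, 3), (14, 1, 3), (15, 1, 2), (17, 2, 2), (16, 1, 1), (9, 0, 2), (10, 0, 3), (11,
    0, 4), (12, 0, 2), (13, 0, 3), (14, 0, 2), (15, 0, 0), (15, 1, 1), (14, 2, 2), (13, 3, 3),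
    (12, 2, 2), (7, 2, 1), (9, 1, 3), (10, 1, 4), (11, 1, 1), (10, 4, 4), (9, 3, 3), (8, 2, 2),
    (6, 3, 1), (7, 3, 3), (5, 4, 1), (6, 4, 4), (5, 1, 1), (4, 2, 2), (3, 3, 3), (2, 2, 2), (1,
    1, 1), (0, 0, 0)], [(16, 1, 1), (32, 1, 1), (32, 1, 1), (31, 2, 2), (30, 3, 3), (29, 2, 2),
    (28, 1, 1), (27, 4, 4), (26, 3, 3), (25, 2, 2), (24, 3, 3), (23, 4, 4), (22, 1, 1), (21, 2,
    2), (20, 3, 3), (19, 2, 2), (18, 1, 1), (17, 0, 0), (16, 1, 1), (16, 1, 1), (15, 2, 2),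
    (14, 3, 3), (13, 2, 2), (12, 1, 1), (11, 4, 4), (10, 3, 3), (9, 2, 2), (8, 3, 3), (7, 4,
    4), (6, 1, 1), (5, 2, 2), (4, 3, 3), (3, 2, 2), (2, 1, 1), (1, 0, 0), (0, 1, 1)], [(16, 1,
    1), (15, 2, 2), (31, 1, 1), (30, 2, 2), (30, 1, 1), (14, 3, 1), (15, 3, 0), (16, 3, 1),
    (17, 3, 2), (20, 3, 1), (21, 3, 4), (23, 4, 2), (24, 4, 3), (26, 3, 1), (27, 3, 2), (30, 3,
    3), (29, 2, 2), (12, 1, 2), (14, 2, 0), (15, 2, 1), (17, 1, 3), (18, 1, 2), (20, 2, 4),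
    (21, 2, 3), (24, 2, 4), (25, 2, 1), (27, 1, 3), (28, 1, 1), (24, 4, 1), (25, 4, 2), (23, 3,
    1), (19, 1, 4), (20, 1, 3), (21, 1, 2), (18, 2, 4), (11, 4, 2), (12, 4, 1), (13, 4, 0),
    (14, 4, 1), (15, 4, 2), (16, 4, 3), (18, 3, 2), (21, 3, 1), (22, 3, 2), (25, 3, 4), (27, 4,
    4), (26, 3, 3), (24, 2, 4), (25, 2, 2), (17, 4, 2), (8, 3, 2), (11, 3, 1), (12, 3, 0), (13,
    3, 1), (14, 3, 2), (17, 3, 4), (19, 4, 2), (20, 4, 1), (21, 4, 2), (22, 4, 3), (24, 3, 3),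
    (23, 4, 4), (19, 2, 1), (21, 1, 3), (22, 1, 1), (18, 3, 1), (16, 2, 4), (6, 1, 4), (5, 2,
    4), (6, 2, 1), (8, 1, 3), (9, 1, 2), (11, 2, 0), (12, 2, 1), (14, 1, 3), (15, 1, 4), (16,
    1, 2), (18, 2, 3), (21, 2, 2), (20, 3, 3), (19, 2, 2), (17, 1, 3), (18, 1, 1), (10, 1, 0),
    (12, 0, 2), (13, 0, 3), (14, 0, 4), (15, 0, 2), (16, 0, 3), (17, 0, 0), (9, 2, 0), (10, 2,
    1), (12, 1, 3), (13, 1, 4), (8, 3, 0), (9, 3, 1), (7, 2, 0), (0, 1, 0), (2, 0, 2), (3, 0,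
    3), (4, 0, 4), (5, 0, 1), (7, 1, 2), (9, 2, 3), (12, 2, 4), (13, 2, 1), (15, 1, 3), (16, 1,
    1), (17, 1, 1), (16, 2, 2), (15, 3, 3), (14, 2, 2), (13, 1, 1), (12, 4, 4), (11, 3, 3),
    (10, 2, 2), (9, 3, 3), (4, 4, 1), (5, 4, 0), (6, 4, 2), (7, 4, 1), (8, 4, 4), (7, 1, 1),
    (6, 2, 2), (3, 3, 1), (4, 3, 0), (5, 3, 3), (1, 1, 2), (3, 2, 0), (4, 2, 2), (0, 0, 2), (1,
    0, 1), (3, 1, 1), (2, 0, 0), (1, 1, 1), (0, 2, 2)], [(16, 1, 1), (13, 2, 3), (16, 2, 2),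
    (32, 1, 1), (31, 2, 2), (30, 3, 3), (30, 1, 1), (29, 2, 2), (15, 3, 1), (16, 3, 0), (17, 3,
    1), (18, 3, 2), (21, 3, 1), (22, 3, 4), (24, 4, 2), (25, 4, 3), (27, 3, 1), (28, 3, 3),
    (12, 1, 3), (13, 1, 2), (15, 2, 0), (16, 2, 1), (18, 1, 3), (19, 1, 2), (21, 2, 4), (22, 2,
    3), (25, 2, 4), (26, 2, 1), (28, 1, 1), (25, 4, 1), (26, 4, 2), (27, 4, 4), (24, 3, 1),
    (20, 1, 4), (21, 1, 3), (22, 1, 2), (19, 2, 4), (10, 3, 4), (12, 4, 2), (13, 4, 1), (14, 4,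
    0), (15, 4, 1), (16, 4, 2), (17, 4, 3), (19, 3, 2), (22, 3, 1), (23, 3, 2), (26, 3, 3),
    (25, 2, 2), (24, 3, 3), (18, 4, 2), (9, 2, 4), (7, 4, 3), (9, 3, 2), (12, 3, 1), (13, 3,
    0), (14, 3, 1), (15, 3, 2), (18, 3, 4), (20, 4, 2), (21, 4, 1), (22, 4, 2), (23, 4, 4),
    (20, 2, 1), (22, 1, 1), (21, 2, 2), (19, 3, 1), (20, 3, 3), (17, 2, 4), (6, 1, 3), (7, 1,
    4), (3, 2, 3), (6, 2, 4), (7, 2, 1), (9, 1, 3), (10, 1, 2), (12, 2, 0), (13, 2, 1), (15, 1,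
    3), (16, 1, 4), (17, 1, 2), (19, 2, 2), (18, 1, 1), (11, 1, 0), (13, 0, 2), (14, 0, 3),
    (15, 0, 4), (16, 0, 2), (17, 0, 0), (10, 2, 0), (11, 2, 1), (13, 1, 3), (14, 1, 4), (9, 3,
    0), (10, 3, 1), (8, 2, 0), (0, 1, 0), (2, 0, 3), (3, 0, 2), (4, 0, 3), (5, 0, 4), (6, 0,
    1), (8, 1, 2), (10, 2, 3), (13, 2, 4), (14, 2, 1), (16, 1, 1), (18, 1, 1), (17, 2, 2), (16,
    3, 3), (15, 2, 2), (14, 1, 1), (13, 4, 4), (12, 3, 3), (11, 2, 2), (10, 3, 3), (5, 4, 1),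
    (6, 4, 0), (7, 4, 2), (8, 4, 1), (9, 4, 4), (8, 1, 1), (7, 2, 2), (4, 3, 1), (5, 3, 0), (6,
    3, 3), (1, 1, 3), (2, 1, 2), (4, 2, 0), (5, 2, 2), (0, 0, 3), (1, 0, 2), (2, 0, 1), (4, 1,
    1), (3, 0, 0), (2, 1, 1), (1, 2, 2), (0, 3, 3)]], ![[(17, 1, 1), (16, 2, 2), (15, 3, 0),
    (16, 3, 1), (17, 3, 2), (20, 3, 1), (21, 3, 4), (23, 4, 2), (24, 4, 3), (26, 3, 1), (14, 2,
    0), (15, 2, 1), (17, 1, 3), (18, 1, 2), (20, 2, 4), (21, 2, 3), (24, 2, 4), (19, 1, 4),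
    (20, 1, 3), (18, 2, 4), (12, 4, 1), (13, 4, 0), (14, 4, 1), (15, 4, 2), (16, 4, 3), (11, 3,
    1), (12, 3, 0), (13, 3, 1), (7, 1, 4), (8, 1, 3), (9, 1, 2), (11, 2, 0), (1, 1, 0), (3, 0,
    2), (4, 0, 3), (5, 0, 2), (6, 0, 4), (7, 0, 3), (8, 0, 2), (9, 0, 1), (11, 1, 2), (13, 2,
    3), (16, 2, 4), (17, 2, 3), (20, 2, 1), (22, 1, 3), (23, 1, 4), (24, 1, 2), (26, 2, 3),
    (29, 2, 2), (31, 1, 1), (30, 2, 2), (28, 3, 1), (29, 3, 3), (25, 1, 3), (26, 1, 2), (28, 2,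
    2), (27, 1, 1), (23, 4, 2), (19, 3, 1), (20, 3, 2), (23, 3, 4), (25, 4, 2), (26, 4, 4),
    (22, 2, 4), (15, 3, 4), (17, 4, 2), (18, 4, 1), (19, 4, 2), (20, 4, 3), (22, 3, 2), (25, 3,
    3), (24, 2, 2), (23, 3, 3), (21, 4, 2), (22, 4, 4), (17, 2, 1), (19, 1, 3), (16, 3, 1),
    (14, 2, 4), (12, 1, 3), (13, 1, 4), (14, 1, 2), (16, 2, 3), (19, 2, 1), (21, 1, 1), (20, 2,
    2), (18, 3, 1), (19, 3, 3), (15, 1, 3), (16, 1, 2), (18, 2, 2), (17, 1, 1), (10, 0, 2),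
    (11, 0, 3), (12, 0, 4), (13, 0, 2), (14, 0, 3), (15, 0, 2), (16, 0, 0), (8, 2, 1), (10, 1,
    3), (11, 1, 4), (7, 3, 1), (5, 2, 4), (0, 2, 0), (1, 2, 1), (3, 1, 3), (4, 1, 4), (5, 1,
    2), (7, 2, 3), (10, 2, 4), (11, 2, 1), (13, 1, 3), (14, 1, 2), (16, 2, 2), (15, 1, 1), (14,
    2, 2), (13, 3, 3), (12, 2, 2), (11, 1, 1), (10, 4, 4), (9, 3, 3), (8, 2, 2), (7, 3, 3), (4,
    4, 2), (5, 4, 1), (6, 4, 4), (5, 1, 1), (4, 2, 2), (3, 3, 3), (2, 2, 2), (1, 1, 1), (0, 0,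
    0)], [(17, 1, 1), (16, 2, 2), (15, 3, 1), (16, 3, 0), (17, 3, 1), (18, 3, 2), (21, 3, 1),
    (22, 3, 4), (24, 4, 2), (25, 4, 3), (27, 3, 1), (13, 1, 2), (15, 2, 0), (16, 2, 1), (18, 1,
    3), (19, 1, 2), (21, 2, 4), (22, 2, 3), (25, 2, 4), (20, 1, 4), (21, 1, 3), (19, 2, 4),
    (12, 4, 2), (13, 4, 1), (14, 4, 0), (15, 4, 1), (16, 4, 2), (17, 4, 3), (9, 3, 2), (12, 3,
    1), (13, 3, 0), (14, 3, 1), (7, 1, 4), (6, 2, 4), (7, 2, 1), (9, 1, 3), (10, 1, 2), (12, 2,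
    0), (1, 1, 0), (3, 0, 2), (4, 0, 3), (5, 0, 4), (0, 2, 0), (1, 2, 1), (3, 1, 3), (4, 1, 4),
    (5, 1, 0), (7, 0, 2), (8, 0, 3), (9, 0, 2), (10, 0, 1), (12, 1, 2), (14, 2, 3), (17, 2, 4),
    (18, 2, 3), (21, 2, 1), (23, 1, 3), (24, 1, 4), (25, 1, 2), (27, 2, 3), (30, 2, 2), (30, 1,
    1), (31, 1, 1), (30, 2, 2), (29, 3, 3), (28, 2, 2), (26, 1, 3), (27, 1, 1), (24, 4, 2),
    (20, 3, 1), (21, 3, 2), (24, 3, 4), (26, 4, 4), (25, 3, 3), (23, 2, 4), (24, 2, 2), (16, 3,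
    4), (18, 4, 2), (19, 4, 1), (20, 4, 2), (21, 4, 3), (23, 3, 3), (22, 4, 4), (18, 2, 1),
    (20, 1, 3), (21, 1, 1), (17, 3, 1), (15, 2, 4), (13, 1, 3), (14, 1, 4), (15, 1, 2), (17, 2,
    3), (20, 2, 2), (19, 3, 3), (18, 2, 2), (16, 1, 3), (17, 1, 1), (11, 0, 2), (12, 0, 3),
    (13, 0, 4), (14, 0, 2), (15, 0, 3), (16, 0, 0), (9, 2, 1), (11, 1, 3), (12, 1, 4), (8, 3,
    1), (6, 1, 2), (8, 2, 3), (11, 2, 4), (12, 2, 1), (14, 1, 3), (15, 1, 1), (16, 1, 1), (15,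
    2, 2), (14, 3, 3), (13, 2, 2), (12, 1, 1), (11, 4, 4), (10, 3, 3), (9, 2, 2), (8, 3, 3),
    (4, 4, 0), (5, 4, 2), (6, 4, 1), (7, 4, 4), (6, 1, 1), (5, 2, 2), (3, 3, 0), (4, 3, 3), (2,
    2, 0), (3, 2, 2), (0, 0, 1), (2, 1, 1), (1, 0, 0), (0, 1, 1)], [(17, 1, 1), (16, 2, 2),
    (33, 1, 1), (32, 2, 2), (33, 1, 1), (32, 2, 2), (31, 3, 3), (30, 2, 2), (29, 1, 1), (28, 4,
    4), (27, 3, 3), (26, 2, 2), (25, 3, 3), (24, 4, 4), (23, 1, 1), (22, 2, 2), (21, 3, 3),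
    (20, 2, 2), (19, 1, 1), (18, 0, 0), (17, 1, 1), (16, 2, 2), (17, 1, 1), (16, 2, 2), (15, 3,
    3), (14, 2, 2), (13, 1, 1), (12, 4, 4), (11, 3, 3), (10, 2, 2), (9, 3, 3), (8, 4, 4), (7,
    1, 1), (6, 2, 2), (5, 3, 3), (4, 2, 2), (3, 1, 1), (2, 0, 0), (1, 1, 1), (0, 2, 2)], [(17,
    1, 1), (16, 2, 2), (15, 3, 3), (14, 2, 2), (13, 1, 1), (18, 1, 4), (19, 1, 3), (17, 2, 4),
    (12, 4, 0), (13, 4, 1), (14, 4, 2), (15, 4, 3), (11, 3, 0), (12, 3, 1), (10, 2, 0), (7, 1,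
    4), (8, 1, 3), (1, 1, 0), (3, 0, 2), (4, 0, 3), (5, 0, 2), (6, 0, 4), (7, 0, 3), (8, 0, 1),
    (10, 1, 2), (12, 2, 3), (15, 2, 4), (16, 2, 3), (19, 2, 1), (21, 1, 3), (22, 1, 4), (23, 1,
    1), (18, 3, 1), (11, 1, 3), (7, 3, 1), (8, 3, 0), (5, 2, 4), (0, 2, 0), (1, 2, 1), (3, 1,
    3), (4, 1, 4), (5, 1, 2), (7, 2, 0), (8, 2, 3), (11, 2, 1), (13, 1, 3), (14, 1, 4), (15, 1,
    3), (16, 1, 2), (18, 2, 3), (21, 2, 4), (22, 2, 2), (24, 1, 1), (23, 2, 2), (22, 3, 3),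
    (23, 1, 1), (22, 2, 2), (20, 3, 4), (22, 4, 2), (23, 4, 1), (24, 4, 4), (19, 2, 4), (13, 3,
    4), (15, 4, 2), (16, 4, 1), (17, 4, 3), (19, 3, 2), (22, 3, 1), (23, 3, 3), (16, 1, 3),
    (17, 1, 4), (12, 2, 4), (13, 2, 3), (16, 2, 4), (17, 2, 1), (19, 1, 3), (20, 1, 2), (22, 2,
    2), (10, 3, 1), (11, 3, 4), (13, 4, 2), (14, 4, 3), (16, 3, 1), (17, 3, 2), (20, 3, 1),
    (21, 3, 3), (15, 4, 1), (16, 4, 2), (14, 3, 1), (10, 1, 4), (11, 1, 3), (12, 1, 2), (9, 2,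
    4), (4, 4, 2), (5, 4, 1), (6, 4, 0), (7, 4, 3), (9, 3, 2), (12, 3, 1), (13, 3, 2), (16, 3,
    4), (18, 4, 2), (19, 4, 1), (20, 4, 4), (19, 1, 1), (18, 2, 2), (17, 3, 3), (15, 2, 4),
    (16, 2, 2), (11, 2, 1), (13, 1, 3), (14, 1, 4), (15, 1, 1), (6, 0, 3), (7, 0, 4), (8, 0,
    2), (9, 0, 3), (5, 1, 3), (6, 1, 4), (2, 2, 3), (5, 2, 4), (6, 2, 1), (8, 1, 3), (9, 1, 0),
    (11, 0, 2), (12, 0, 3), (13, 0, 4), (14, 0, 0), (18, 1, 1), (17, 2, 2), (16, 3, 3), (15, 2,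
    2), (14, 1, 1), (13, 4, 4), (12, 3, 3), (11, 2, 2), (8, 3, 0), (9, 3, 1), (10, 3, 3), (5,
    4, 1), (6, 4, 2), (7, 4, 0), (8, 4, 1), (9, 4, 4), (8, 1, 1), (6, 2, 0), (7, 2, 2), (4, 3,
    1), (5, 3, 0), (6, 3, 3), (1, 1, 3), (2, 1, 2), (4, 2, 0), (5, 2, 2), (0, 0, 3), (1, 0, 2),
    (2, 0, 1), (4, 1, 1), (3, 0, 0), (2, 1, 1), (1, 2, 2), (0, 3, 3)]], ![[(18, 1, 1), (17, 2,
    2), (16, 3, 3), (15, 2, 0), (16, 2, 1), (18, 1, 3), (19, 1, 2), (21, 2, 4), (22, 2, 3),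
    (25, 2, 4), (20, 1, 4), (21, 1, 3), (19, 2, 4), (13, 4, 1), (14, 4, 0), (15, 4, 1), (16, 4,
    2), (17, 4, 3), (12, 3, 1), (13, 3, 0), (14, 3, 1), (8, 1, 4), (9, 1, 3), (10, 1, 2), (12,
    2, 0), (2, 1, 0), (4, 0, 2), (5, 0, 3), (6, 0, 2), (7, 0, 4), (8, 0, 3), (9, 0, 2), (10, 0,
    1), (12, 1, 2), (14, 2, 3), (17, 2, 4), (18, 2, 3), (21, 2, 1), (23, 1, 3), (24, 1, 4),
    (25, 1, 2), (27, 2, 2), (32, 1, 1), (31, 2, 2), (30, 3, 3), (26, 1, 3), (27, 1, 2), (29, 2,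
    2), (28, 1, 1), (24, 4, 2), (20, 3, 1), (21, 3, 2), (24, 3, 4), (26, 4, 2), (27, 4, 4),
    (23, 2, 4), (16, 3, 4), (18, 4, 2), (19, 4, 1), (20, 4, 2), (21, 4, 3), (23, 3, 2), (26, 3,
    3), (25, 2, 2), (24, 3, 3), (22, 4, 2), (23, 4, 4), (18, 2, 1), (20, 1, 3), (17, 3, 1),
    (15, 2, 4), (13, 1, 3), (14, 1, 4), (15, 1, 2), (17, 2, 3), (20, 2, 1), (22, 1, 1), (21, 2,
    2), (19, 3, 1), (20, 3, 3), (16, 1, 3), (17, 1, 2), (19, 2, 2), (18, 1, 1), (11, 0, 2),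
    (12, 0, 3), (13, 0, 4), (14, 0, 2), (15, 0, 3), (16, 0, 2), (17, 0, 0), (9, 2, 1), (11, 1,
    3), (12, 1, 4), (8, 3, 1), (6, 2, 4), (1, 2, 0), (2, 2, 1), (4, 1, 3), (5, 1, 4), (6, 1,
    2), (8, 2, 3), (11, 2, 4), (12, 2, 1), (14, 1, 3), (15, 1, 2), (17, 2, 2), (5, 4, 2), (6,
    4, 1), (0, 3, 0), (1, 3, 1), (2, 3, 2), (5, 3, 1), (6, 3, 4), (8, 4, 2), (9, 4, 3), (11, 3,
    1), (12, 3, 2), (15, 3, 1), (16, 3, 3), (15, 1, 1), (14, 2, 2), (13, 3, 3), (12, 2, 2),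
    (11, 1, 1), (10, 4, 4), (9, 3, 3), (8, 2, 2), (7, 3, 3), (6, 4, 4), (5, 1, 1), (4, 2, 2),
    (3, 3, 3), (2, 2, 2), (1, 1, 1), (0, 0, 0)], [(18, 1, 1), (17, 2, 2), (16, 3, 3), (14, 1,
    2), (16, 2, 0), (17, 2, 1), (19, 1, 3), (20, 1, 2), (22, 2, 4), (23, 2, 3), (26, 2, 4),
    (21, 1, 4), (22, 1, 3), (20, 2, 4), (13, 4, 2), (14, 4, 1), (15, 4, 0), (16, 4, 1), (17, 4,
    2), (18, 4, 3), (10, 3, 2), (13, 3, 1), (14, 3, 0), (15, 3, 1), (8, 1, 4), (7, 2, 4), (8,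
    2, 1), (10, 1, 3), (11, 1, 2), (13, 2, 0), (2, 1, 0), (4, 0, 2), (5, 0, 3), (6, 0, 4), (1,
    2, 0), (2, 2, 1), (4, 1, 3), (5, 1, 4), (6, 1, 0), (8, 0, 2), (9, 0, 3), (10, 0, 2), (11,
    0, 1), (13, 1, 2), (15, 2, 3), (18, 2, 4), (19, 2, 3), (22, 2, 1), (24, 1, 3), (25, 1, 4),
    (26, 1, 2), (28, 2, 2), (30, 1, 1), (32, 1, 1), (31, 2, 2), (30, 3, 3), (29, 2, 2), (27, 1,
    3), (28, 1, 1), (25, 4, 2), (21, 3, 1), (22, 3, 2), (25, 3, 4), (27, 4, 4), (26, 3, 3),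
    (24, 2, 4), (25, 2, 2), (17, 3, 4), (19, 4, 2), (20, 4, 1), (21, 4, 2), (22, 4, 3), (24, 3,
    3), (23, 4, 4), (19, 2, 1), (21, 1, 3), (22, 1, 1), (18, 3, 1), (16, 2, 4), (14, 1, 3),
    (15, 1, 4), (16, 1, 2), (18, 2, 3), (21, 2, 2), (20, 3, 3), (19, 2, 2), (17, 1, 3), (18, 1,
    1), (12, 0, 2), (13, 0, 3), (14, 0, 4), (15, 0, 2), (16, 0, 3), (17, 0, 0), (10, 2, 1),
    (12, 1, 3), (13, 1, 4), (9, 3, 1), (7, 1, 2), (9, 2, 3), (12, 2, 4), (13, 2, 1), (15, 1,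
    3), (16, 1, 1), (5, 4, 0), (6, 4, 2), (7, 4, 1), (4, 3, 0), (3, 2, 0), (0, 3, 0), (1, 3,
    1), (2, 3, 0), (3, 3, 2), (6, 3, 1), (7, 3, 4), (9, 4, 2), (10, 4, 3), (12, 3, 1), (13, 3,
    2), (16, 3, 3), (16, 1, 1), (15, 2, 2), (14, 3, 3), (13, 2, 2), (12, 1, 1), (11, 4, 4),
    (10, 3, 3), (9, 2, 2), (8, 3, 3), (7, 4, 4), (6, 1, 1), (5, 2, 2), (4, 3, 3), (3, 2, 2),
    (0, 0, 1), (2, 1, 1), (1, 0, 0), (0, 1, 1)], [(18, 1, 1), (17, 2, 2), (16, 3, 3), (15, 2,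
    2), (14, 1, 1), (19, 1, 4), (20, 1, 3), (18, 2, 4), (13, 4, 0), (14, 4, 1), (15, 4, 2),
    (16, 4, 3), (12, 3, 0), (13, 3, 1), (11, 2, 0), (8, 1, 4), (9, 1, 3), (2, 1, 0), (4, 0, 2),
    (5, 0, 3), (6, 0, 2), (7, 0, 4), (8, 0, 3), (9, 0, 1), (11, 1, 2), (13, 2, 3), (16, 2, 4),
    (17, 2, 3), (20, 2, 1), (22, 1, 3), (23, 1, 4), (24, 1, 1), (19, 3, 1), (12, 1, 3), (8, 3,
    1), (9, 3, 0), (6, 2, 4), (1, 2, 0), (2, 2, 1), (4, 1, 3), (5, 1, 4), (6, 1, 2), (8, 2, 0),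
    (9, 2, 3), (12, 2, 1), (14, 1, 3), (15, 1, 4), (16, 1, 3), (17, 1, 2), (19, 2, 3), (22, 2,
    4), (23, 2, 2), (14, 3, 4), (16, 4, 2), (17, 4, 1), (13, 2, 4), (11, 3, 1), (5, 4, 2), (6,
    4, 1), (7, 4, 0), (0, 3, 0), (1, 3, 1), (2, 3, 2), (5, 3, 1), (6, 3, 0), (7, 3, 4), (9, 4,
    2), (10, 4, 1), (11, 4, 3), (13, 3, 2), (16, 3, 1), (17, 3, 4), (19, 4, 2), (20, 4, 3),
    (22, 3, 3), (23, 1, 1), (22, 2, 2), (24, 1, 1), (23, 2, 2), (22, 3, 3), (21, 4, 2), (22, 4,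
    1), (23, 4, 4), (18, 3, 2), (21, 3, 1), (22, 3, 3), (16, 1, 4), (15, 2, 4), (16, 2, 1),
    (18, 1, 3), (19, 1, 2), (21, 2, 2), (12, 4, 2), (13, 4, 3), (15, 3, 1), (16, 3, 2), (19, 3,
    1), (20, 3, 3), (14, 4, 1), (15, 4, 2), (13, 3, 1), (10, 1, 3), (11, 1, 2), (8, 3, 2), (11,
    3, 1), (12, 3, 2), (15, 3, 4), (17, 4, 2), (18, 4, 1), (19, 4, 4), (18, 1, 1), (17, 2, 2),
    (16, 3, 3), (14, 2, 4), (15, 2, 2), (10, 2, 1), (12, 1, 3), (13, 1, 4), (14, 1, 1), (6, 0,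
    4), (7, 0, 2), (8, 0, 3), (5, 1, 4), (4, 2, 4), (5, 2, 1), (7, 1, 3), (8, 1, 0), (10, 0,
    2), (11, 0, 3), (12, 0, 4), (13, 0, 0), (17, 1, 1), (16, 2, 2), (15, 3, 3), (14, 2, 2),
    (13, 1, 1), (12, 4, 4), (11, 3, 3), (10, 2, 2), (7, 3, 0), (8, 3, 1), (9, 3, 3), (4, 4, 1),
    (5, 4, 2), (6, 4, 0), (7, 4, 1), (8, 4, 4), (7, 1, 1), (5, 2, 0), (6, 2, 2), (3, 3, 1), (4,
    3, 0), (5, 3, 3), (1, 1, 2), (3, 2, 0), (4, 2, 2), (0, 0, 2), (1, 0, 1), (3, 1, 1), (2, 0,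
    0), (1, 1, 1), (0, 2, 2)], [(18, 1, 1), (17, 2, 2), (16, 3, 3), (34, 1, 1), (33, 2, 2),
    (32, 3, 3), (34, 1, 1), (33, 2, 2), (32, 3, 3), (31, 2, 2), (30, 1, 1), (29, 4, 4), (28, 3,
    3), (27, 2, 2), (26, 3, 3), (25, 4, 4), (24, 1, 1), (23, 2, 2), (22, 3, 3), (21, 2, 2),
    (20, 1, 1), (19, 0, 0), (18, 1, 1), (17, 2, 2), (16, 3, 3), (18, 1, 1), (17, 2, 2), (16, 3,
    3), (15, 2, 2), (14, 1, 1), (13, 4, 4), (12, 3, 3), (11, 2, 2), (10, 3, 3), (9, 4, 4), (8,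
    1, 1), (7, 2, 2), (6, 3, 3), (5, 2, 2), (4, 1, 1), (3, 0, 0), (2, 1, 1), (1, 2, 2), (0, 3,
    3)]]]

theorem okC : ∀ i j : Fin 4, run coxB ((tw i ++ tw j) ++ (tw j ++ tw i).reverse) (mc i j) =
    some [] := by
  decide +kernel

/-- conjugates of the translations as products -/
def cj : Fin 4 → Fin 4 → List (Fin 4 × Bool) :=
    ![![[(1, true)], [(0, true)], [(2, true)], [(3, true)]], ![[(0, true)], [(2, true)], [(1,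
    true)], [(1, false), (2, true), (3, true)]], ![[(0, true)], [(1, true)], [(3, true)], [(2,
    true)]], ![[(0, true)], [(1, true)], [(2, true)], [(0, true), (1, true), (2, false), (3,
    false)]]]

def mk : Fin 4 → Fin 4 → List (ℕ × Fin 6 × Fin 6) :=
    ![![[(16, 1, 1), (16, 1, 1), (15, 2, 2), (14, 3, 3), (13, 2, 2), (12, 1, 1), (11, 4, 4),
    (10, 3, 3), (9, 2, 2), (8, 3, 3), (7, 4, 4), (6, 1, 1), (5, 2, 2), (4, 3, 3), (3, 2, 2),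
    (2, 1, 1), (1, 0, 0), (0, 1, 1)], [(0, 1, 1), (15, 1, 1), (15, 1, 1), (14, 2, 2), (13, 3,
    3), (12, 2, 2), (11, 1, 1), (10, 4, 4), (9, 3, 3), (8, 2, 2), (7, 3, 3), (6, 4, 4), (5, 1,
    1), (4, 2, 2), (3, 3, 3), (2, 2, 2), (1, 1, 1), (0, 0, 0)], [(18, 1, 1), (17, 2, 2), (0, 1,
    2), (2, 2, 0), (3, 2, 1), (5, 1, 3), (6, 1, 2), (8, 2, 4), (9, 2, 3), (12, 2, 4), (13, 2,
    1), (15, 1, 3), (16, 1, 1), (17, 1, 1), (16, 2, 2), (15, 3, 3), (14, 2, 2), (13, 1, 1),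
    (12, 4, 4), (11, 3, 3), (10, 2, 2), (9, 3, 3), (8, 4, 4), (7, 1, 1), (6, 2, 2), (5, 3, 3),
    (4, 2, 2), (3, 1, 1), (2, 0, 0), (1, 1, 1), (0, 2, 2)], [(19, 1, 1), (18, 2, 2), (17, 3,
    3), (0, 1, 3), (1, 1, 2), (3, 2, 0), (4, 2, 1), (6, 1, 3), (7, 1, 2), (9, 2, 4), (10, 2,
    3), (13, 2, 4), (14, 2, 1), (16, 1, 1), (18, 1, 1), (17, 2, 2), (16, 3, 3), (15, 2, 2),
    (14, 1, 1), (13, 4, 4), (12, 3, 3), (11, 2, 2), (10, 3, 3), (9, 4, 4), (8, 1, 1), (7, 2,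
    2), (6, 3, 3), (5, 2, 2), (4, 1, 1), (3, 0, 0), (2, 1, 1), (1, 2, 2), (0, 3, 3)]], ![[(0,
    2, 0), (1, 2, 1), (3, 1, 3), (4, 1, 2), (6, 2, 4), (7, 2, 3), (10, 2, 4), (11, 2, 1), (13,
    1, 3), (14, 1, 2), (16, 2, 2), (15, 1, 1), (14, 2, 2), (13, 3, 3), (12, 2, 2), (11, 1, 1),
    (10, 4, 4), (9, 3, 3), (8, 2, 2), (7, 3, 3), (6, 4, 4), (5, 1, 1), (4, 2, 2), (3, 3, 3),
    (2, 2, 2), (1, 1, 1), (0, 0, 0)], [(17, 1, 1), (16, 2, 2), (17, 1, 1), (16, 2, 2), (15, 3,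
    3), (14, 2, 2), (13, 1, 1), (12, 4, 4), (11, 3, 3), (10, 2, 2), (9, 3, 3), (8, 4, 4), (7,
    1, 1), (6, 2, 2), (5, 3, 3), (4, 2, 2), (3, 1, 1), (2, 0, 0), (1, 1, 1), (0, 2, 2)], [(0,
    2, 2), (16, 1, 1), (15, 2, 2), (16, 1, 1), (15, 2, 2), (14, 3, 3), (13, 2, 2), (12, 1, 1),
    (11, 4, 4), (10, 3, 3), (9, 2, 2), (8, 3, 3), (7, 4, 4), (6, 1, 1), (5, 2, 2), (4, 3, 3),
    (3, 2, 2), (2, 1, 1), (1, 0, 0), (0, 1, 1)], [(19, 1, 1), (18, 2, 2), (17, 3, 3), (16, 2,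
    2), (18, 1, 1), (17, 2, 2), (16, 3, 3), (14, 4, 1), (15, 4, 2), (16, 4, 1), (17, 4, 4),
    (14, 1, 2), (11, 3, 2), (14, 3, 1), (9, 1, 4), (8, 2, 4), (9, 2, 1), (11, 1, 3), (12, 1,
    2), (14, 2, 3), (17, 2, 2), (16, 3, 3), (13, 1, 3), (10, 2, 3), (13, 2, 1), (15, 1, 4),
    (16, 1, 1), (14, 2, 4), (15, 2, 2), (12, 3, 1), (8, 4, 1), (7, 3, 1), (8, 3, 4), (10, 4,
    2), (11, 4, 1), (12, 4, 3), (14, 3, 3), (11, 1, 3), (12, 1, 4), (5, 1, 2), (7, 2, 4), (8,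
    2, 3), (11, 2, 4), (12, 2, 1), (14, 1, 1), (13, 2, 0), (4, 0, 2), (2, 2, 1), (4, 1, 0), (6,
    0, 4), (7, 0, 3), (8, 0, 2), (9, 0, 3), (10, 0, 4), (11, 0, 1), (13, 1, 2), (15, 2, 2),
    (17, 1, 1), (16, 2, 2), (15, 3, 3), (13, 2, 1), (15, 1, 1), (10, 4, 1), (11, 4, 0), (12, 4,
    1), (13, 4, 2), (14, 4, 4), (9, 3, 1), (10, 3, 0), (11, 3, 1), (5, 1, 4), (6, 1, 3), (7, 1,
    2), (9, 2, 0), (4, 0, 4), (5, 0, 3), (6, 0, 2), (7, 0, 1), (9, 1, 2), (11, 2, 3), (14, 2,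
    2), (13, 3, 3), (12, 2, 4), (10, 1, 3), (11, 1, 4), (12, 1, 2), (14, 2, 2), (8, 0, 2), (9,
    0, 3), (10, 0, 4), (11, 0, 2), (6, 2, 1), (8, 1, 3), (9, 1, 4), (5, 3, 1), (3, 2, 4), (2,
    1, 4), (3, 1, 2), (5, 2, 3), (8, 2, 4), (9, 2, 1), (11, 1, 0), (13, 0, 3), (14, 0, 2), (15,
    0, 1), (17, 1, 1), (12, 1, 3), (13, 1, 2), (15, 2, 0), (16, 2, 2), (11, 0, 3), (12, 0, 2),
    (13, 0, 1), (15, 1, 1), (14, 0, 0), (13, 1, 1), (12, 2, 2), (11, 3, 3), (10, 2, 2), (9, 1,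
    1), (8, 4, 4), (7, 3, 3), (6, 2, 2), (5, 3, 3), (2, 4, 2), (3, 4, 1), (4, 4, 4), (3, 1, 1),
    (2, 2, 2), (1, 3, 3), (0, 2, 2), (0, 1, 1)]], ![[(0, 3, 0), (1, 3, 1), (2, 3, 2), (5, 3,
    1), (6, 3, 4), (8, 4, 2), (9, 4, 3), (11, 3, 1), (12, 3, 2), (15, 3, 1), (16, 3, 3), (15,
    1, 1), (14, 2, 2), (13, 3, 3), (12, 2, 2), (11, 1, 1), (10, 4, 4), (9, 3, 3), (8, 2, 2),
    (7, 3, 3), (6, 4, 4), (5, 1, 1), (4, 2, 2), (3, 3, 3), (2, 2, 2), (1, 1, 1), (0, 0, 0)],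
    [(17, 1, 1), (0, 3, 1), (1, 3, 0), (2, 3, 1), (3, 3, 2), (6, 3, 1), (7, 3, 4), (9, 4, 2),
    (10, 4, 3), (12, 3, 1), (13, 3, 2), (16, 3, 3), (16, 1, 1), (15, 2, 2), (14, 3, 3), (13, 2,
    2), (12, 1, 1), (11, 4, 4), (10, 3, 3), (9, 2, 2), (8, 3, 3), (7, 4, 4), (6, 1, 1), (5, 2,
    2), (4, 3, 3), (3, 2, 2), (2, 1, 1), (1, 0, 0), (0, 1, 1)], [(18, 1, 1), (17, 2, 2), (16,
    3, 3), (18, 1, 1), (17, 2, 2), (16, 3, 3), (15, 2, 2), (14, 1, 1), (13, 4, 4), (12, 3, 3),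
    (11, 2, 2), (10, 3, 3), (9, 4, 4), (8, 1, 1), (7, 2, 2), (6, 3, 3), (5, 2, 2), (4, 1, 1),
    (3, 0, 0), (2, 1, 1), (1, 2, 2), (0, 3, 3)], [(0, 3, 3), (17, 1, 1), (16, 2, 2), (15, 3,
    3), (17, 1, 1), (16, 2, 2), (15, 3, 3), (14, 2, 2), (13, 1, 1), (12, 4, 4), (11, 3, 3),
    (10, 2, 2), (9, 3, 3), (8, 4, 4), (7, 1, 1), (6, 2, 2), (5, 3, 3), (4, 2, 2), (3, 1, 1),
    (2, 0, 0), (1, 1, 1), (0, 2, 2)]], ![[(11, 4, 1), (12, 4, 2), (10, 3, 1), (6, 1, 4), (7, 1,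
    3), (8, 1, 2), (5, 2, 4), (0, 4, 0), (1, 4, 1), (2, 4, 2), (3, 4, 3), (5, 3, 2), (8, 3, 1),
    (9, 3, 2), (12, 3, 4), (14, 4, 2), (15, 4, 1), (16, 4, 4), (15, 1, 1), (14, 2, 2), (13, 3,
    3), (11, 2, 4), (12, 2, 2), (7, 2, 1), (9, 1, 3), (10, 1, 4), (11, 1, 1), (10, 4, 4), (9,
    3, 3), (8, 2, 2), (6, 3, 1), (7, 3, 3), (4, 4, 2), (5, 4, 1), (6, 4, 4), (5, 1, 1), (4, 2,
    2), (3, 3, 3), (2, 2, 2), (1, 1, 1), (0, 0, 0)], [(17, 1, 1), (12, 4, 1), (13, 4, 2), (11,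
    3, 1), (7, 1, 4), (8, 1, 3), (9, 1, 2), (6, 2, 4), (0, 4, 1), (1, 4, 0), (2, 4, 1), (3, 4,
    2), (4, 4, 3), (6, 3, 2), (9, 3, 1), (10, 3, 2), (13, 3, 4), (15, 4, 2), (16, 4, 4), (16,
    1, 1), (15, 2, 2), (14, 3, 3), (12, 2, 4), (13, 2, 2), (8, 2, 1), (10, 1, 3), (11, 1, 4),
    (12, 1, 1), (11, 4, 4), (10, 3, 3), (9, 2, 2), (7, 3, 1), (8, 3, 3), (5, 4, 2), (6, 4, 1),
    (7, 4, 4), (6, 1, 1), (5, 2, 2), (4, 3, 3), (3, 2, 2), (2, 1, 1), (1, 0, 0), (0, 1, 1)],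
    [(18, 1, 1), (17, 2, 2), (13, 4, 1), (14, 4, 2), (12, 3, 1), (8, 1, 4), (9, 1, 3), (10, 1,
    2), (7, 2, 4), (0, 4, 2), (1, 4, 1), (2, 4, 0), (3, 4, 1), (4, 4, 2), (5, 4, 3), (7, 3, 2),
    (10, 3, 1), (11, 3, 2), (14, 3, 4), (16, 4, 4), (17, 1, 1), (16, 2, 2), (15, 3, 3), (13, 2,
    4), (14, 2, 2), (9, 2, 1), (11, 1, 3), (12, 1, 4), (13, 1, 1), (12, 4, 4), (11, 3, 3), (10,
    2, 2), (8, 3, 1), (9, 3, 3), (6, 4, 2), (7, 4, 1), (8, 4, 4), (7, 1, 1), (6, 2, 2), (5, 3,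
    3), (4, 2, 2), (3, 1, 1), (2, 0, 0), (1, 1, 1), (0, 2, 2)], [(19, 1, 1), (18, 2, 2), (17,
    3, 3), (14, 4, 1), (15, 4, 2), (16, 4, 4), (13, 3, 1), (9, 1, 4), (10, 1, 3), (11, 1, 2),
    (13, 2, 3), (16, 2, 2), (12, 1, 3), (8, 2, 4), (9, 2, 3), (12, 2, 1), (14, 1, 3), (15, 1,
    1), (14, 3, 0), (15, 3, 1), (13, 2, 0), (3, 1, 0), (5, 0, 2), (6, 0, 3), (7, 0, 4), (8, 0,
    3), (9, 0, 2), (10, 0, 3), (11, 0, 1), (13, 1, 2), (15, 2, 3), (18, 2, 2), (14, 1, 3), (10,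
    3, 1), (11, 3, 0), (2, 2, 0), (3, 2, 1), (5, 1, 3), (6, 1, 4), (7, 1, 3), (8, 1, 2), (10,
    2, 0), (11, 2, 3), (14, 2, 1), (16, 1, 3), (17, 1, 1), (16, 3, 4), (18, 4, 2), (15, 2, 4),
    (13, 3, 1), (5, 3, 4), (7, 4, 2), (8, 4, 1), (9, 4, 0), (4, 2, 4), (1, 3, 0), (2, 3, 1),
    (0, 4, 0), (1, 4, 1), (2, 4, 3), (4, 3, 2), (7, 3, 1), (8, 3, 0), (9, 3, 4), (11, 4, 2),
    (12, 4, 1), (13, 4, 3), (15, 3, 2), (18, 3, 4), (20, 4, 4), (24, 1, 1), (23, 2, 2), (22, 3,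
    3), (21, 2, 2), (20, 1, 1), (19, 3, 0), (20, 3, 1), (21, 3, 2), (24, 3, 1), (25, 3, 4),
    (27, 4, 2), (17, 2, 4), (18, 2, 0), (19, 2, 1), (21, 1, 3), (22, 1, 2), (24, 2, 4), (14, 4,
    2), (15, 4, 3), (17, 3, 0), (18, 3, 1), (19, 3, 2), (22, 3, 1), (16, 4, 0), (17, 4, 1),
    (18, 4, 2), (15, 3, 0), (16, 3, 1), (14, 2, 0), (12, 1, 3), (8, 0, 4), (9, 0, 3), (10, 0,
    2), (11, 0, 3), (12, 0, 1), (14, 1, 2), (11, 3, 1), (12, 3, 0), (7, 1, 4), (8, 1, 3), (9,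
    1, 2), (11, 2, 0), (6, 2, 4), (3, 4, 2), (4, 4, 3), (6, 3, 2), (9, 3, 1), (10, 3, 0), (11,
    3, 2), (14, 3, 1), (15, 3, 2), (18, 3, 4), (20, 4, 2), (21, 4, 1), (22, 4, 3), (24, 3, 2),
    (27, 3, 4), (29, 4, 4), (28, 3, 1), (26, 2, 4), (21, 1, 3), (22, 1, 4), (17, 2, 4), (18, 2,
    3), (21, 2, 4), (22, 2, 1), (24, 1, 3), (25, 1, 4), (26, 1, 2), (21, 4, 1), (22, 4, 2),
    (23, 4, 3), (20, 3, 1), (13, 2, 1), (15, 1, 3), (16, 1, 4), (17, 1, 3), (18, 1, 2), (20, 2,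
    3), (23, 2, 4), (15, 3, 4), (17, 4, 2), (18, 4, 1), (14, 2, 4), (12, 3, 1), (5, 4, 2), (2,
    3, 2), (5, 3, 4), (7, 4, 2), (8, 4, 1), (9, 4, 0), (10, 4, 2), (11, 4, 1), (12, 4, 3), (14,
    3, 2), (17, 3, 1), (18, 3, 4), (20, 4, 2), (21, 4, 3), (23, 3, 2), (26, 3, 1), (27, 3, 2),
    (30, 3, 3), (29, 2, 2), (25, 2, 1), (27, 1, 3), (28, 1, 1), (30, 1, 1), (29, 2, 2), (27, 3,
    1), (28, 3, 3), (25, 1, 2), (27, 2, 2), (26, 1, 1), (22, 4, 2), (19, 3, 2), (22, 3, 4),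
    (24, 4, 2), (25, 4, 4), (21, 2, 4), (18, 4, 2), (19, 4, 3), (21, 3, 2), (24, 3, 3), (23, 2,
    2), (22, 3, 3), (20, 4, 2), (21, 4, 4), (16, 2, 1), (18, 1, 3), (15, 3, 1), (11, 1, 3),
    (12, 1, 4), (13, 1, 2), (15, 2, 3), (18, 2, 1), (20, 1, 1), (19, 2, 2), (17, 3, 1), (18, 3,
    3), (14, 1, 3), (15, 1, 2), (17, 2, 2), (16, 1, 1), (9, 0, 2), (10, 0, 3), (11, 0, 4), (12,
    0, 2), (13, 0, 3), (14, 0, 2), (15, 0, 0), (15, 1, 1), (14, 2, 2), (13, 3, 3), (12, 2, 2),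
    (7, 2, 1), (9, 1, 3), (10, 1, 4), (11, 1, 1), (10, 4, 4), (9, 3, 3), (8, 2, 2), (6, 3, 1),
    (7, 3, 3), (5, 4, 1), (6, 4, 4), (5, 1, 1), (4, 2, 2), (3, 3, 3), (2, 2, 2), (1, 1, 1), (0,
    0, 0)]]]

/-- word of a product of translations -/
def fl : List (Fin 4 × Bool) → List (Fin 6)
  | [] => []
  | p :: l => (if p.2 then tw p.1 else (tw p.1).reverse) ++ fl l

/-- the letter of `k` -/
def lt (k : Fin 4) : Fin 6 := ![1, 2, 3, 4] k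

theorem okK : ∀ k i : Fin 4, run coxB ((lt k :: (tw i ++ [lt k])) ++ (fl (cj k i)).reverse) (mk k i) =
    some [] := by
  decide +kernel

variable {G : Type} [Group G] {x : Fin 6 → G}

/-- the translations -/
def t (x : Fin 6 → G) (i : Fin 4) : G := lp x (tw i)

theorem t_eq (h : Cx coxB x) (i : Fin 4) : t x i = lp x (gw i) * lp x wT * (lp x (gw i))⁻¹ := by
  rw [t, tw, lp_append, lp_append, lp_rev h, mul_assoc]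

theorem t_comm (h : Cx coxB x) (i j : Fin 4) : Commute (t x i) (t x j) := by
  have h1 := eq_of_run h _ (okC i j)
  rw [lp_append, lp_append] at h1
  exact h1

/-- the group of the translations -/
def A (x : Fin 6 → G) : Subgroup G := Subgroup.closure (Set.range (t x))

theorem fl_mem (h : Cx coxB x) (l : List (Fin 4 × Bool)) : lp x (fl l) ∈ A x := by
  induction l with
  | nil => exact (A x).one_mem
  | cons p l ih =>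
    rw [fl, lp_append]
    refine (A x).mul_mem ?_ ih
    split_ifs
    · exact Subgroup.subset_closure ⟨p.1, rfl⟩
    · rw [lp_rev h]
      exact (A x).inv_mem (Subgroup.subset_closure ⟨p.1, rfl⟩)

theorem conj_lt (h : Cx coxB x) (k : Fin 4) (a : G) (ha : a ∈ A x) :
    x (lt k) * a * (x (lt k))⁻¹ ∈ A x := by
  induction ha using Subgroup.closure_induction with
  | mem y hy =>
    obtain ⟨i, rfl⟩ := hy
    have h1 := eq_of_run h _ (okK k i)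
    rw [lp_cons, lp_append, lp_cons, lp_nil, mul_one, ← mul_assoc] at h1
    have h2 : (x (lt k))⁻¹ = x (lt k) := inv_eq_of_mul_eq_one_left (h.sq _)
    rw [h2]
    have h3 : x (lt k) * t x i * x (lt k) = lp x (fl (cj k i)) := h1
    rw [h3]
    exact fl_mem h _
  | one =>
    rw [mul_one, mul_inv_cancel]
    exact (A x).one_mem
  | mul y z _ _ hy hz =>
    have := (A x).mul_mem hy hz
    have e : x (lt k) * y * (x (lt k))⁻¹ * (x (lt k) * z * (x (lt k))⁻¹) =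
        x (lt k) * (y * z) * (x (lt k))⁻¹ := by group
    rwa [e] at this
  | inv y _ hy =>
    have := (A x).inv_mem hy
    have e : (x (lt k) * y * (x (lt k))⁻¹)⁻¹ = x (lt k) * y⁻¹ * (x (lt k))⁻¹ := by group
    rwa [e] at this

/-- the group of the vertex of the facet -/
def W (x : Fin 6 → G) : Subgroup G := Subgroup.closure (x '' {1, 2, 3, 4})

theorem mem_lt {k : Fin 6} (hk : k ∈ ({1, 2, 3, 4} : Set (Fin 6))) : ∃ i : Fin 4, k = lt i := by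
  rcases hk with h | h | h | h
  · exact ⟨0, h⟩
  · exact ⟨1, h⟩
  · exact ⟨2, h⟩
  · exact ⟨3, h⟩

theorem conj_W (h : Cx coxB x) (w : G) (hw : w ∈ W x) : ∀ a ∈ A x, w * a * w⁻¹ ∈ A x := by
  induction hw using Subgroup.closure_induction_left with
  | one =>
    intro a ha
    rwa [one_mul, inv_one, mul_one]
  | mul_left y hy z _ ih =>
    obtain ⟨k, hk, rfl⟩ := hy
    obtain ⟨i, rfl⟩ := mem_lt hk
    intro a ha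
    have := conj_lt h i _ (ih a ha)
    have e : x (lt i) * (z * a * z⁻¹) * (x (lt i))⁻¹ = x (lt i) * z * a * (x (lt i) * z)⁻¹ := by
      group
    rwa [e] at this
  | inv_mul_cancel y hy z _ ih =>
    obtain ⟨k, hk, rfl⟩ := hy
    obtain ⟨i, rfl⟩ := mem_lt hk
    intro a ha
    have := conj_lt h i _ (ih a ha)
    have e : x (lt i) * (z * a * z⁻¹) * (x (lt i))⁻¹ =
        (x (lt i))⁻¹ * z * a * ((x (lt i))⁻¹ * z)⁻¹ := by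
      have h2 : (x (lt i))⁻¹ = x (lt i) := inv_eq_of_mul_eq_one_left (h.sq _)
      rw [mul_inv_rev, inv_inv, h2]
      group
    rwa [e] at this

/-- the word `s t s` -/
def wu : List (Fin 6) := [1, 2, 3, 2, 1, 4, 3, 2, 3, 4, 1, 2, 3, 2, 1]

theorem wu_mem (x : Fin 6 → G) : lp x wu ∈ W x := by
  have h : ∀ k ∈ wu, k ∈ ({1, 2, 3, 4} : Set (Fin 6)) := by
    intro k hk
    simp [wu] at hk
    simp
    tauto
  generalize wu = u at h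
  induction u with
  | nil => exact (W x).one_mem
  | cons k u ih =>
    rw [lp_cons]
    exact (W x).mul_mem (Subgroup.subset_closure ⟨k, h k (by simp), rfl⟩)
      (ih fun j hj => h j (by simp [hj]))

theorem x0_eq (h : Cx coxB x) : x 0 = t x 0 * (lp x wu)⁻¹ := by
  rw [eq_mul_inv_iff_mul_eq, t_eq h]
  have e1 : gw 0 = [] := rfl
  have e2 : wT = 0 :: wu := rfl
  rw [e1, e2, lp_nil, one_mul, inv_one, mul_one, lp_cons]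

theorem decomp (h : Cx coxB x) (g : G) (hg : g ∈ Subgroup.closure (x '' {0, 1, 2, 3, 4})) :
    ∃ a ∈ A x, ∃ w ∈ W x, g = a * w := by
  have key : ∀ k : Fin 6, k ∈ ({0, 1, 2, 3, 4} : Set (Fin 6)) → ∀ a ∈ A x, ∀ w ∈ W x,
      ∃ a' ∈ A x, ∃ w' ∈ W x, x k * (a * w) = a' * w' := by
    intro k hk a ha w hw
    rcases hk with h0 | hk
    · subst h0
      refine ⟨t x 0 * ((lp x wu)⁻¹ * a * ((lp x wu)⁻¹)⁻¹), (A x).mul_mem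
        (Subgroup.subset_closure ⟨0, rfl⟩) (conj_W h _ ((W x).inv_mem (wu_mem x)) a ha),
        (lp x wu)⁻¹ * w, (W x).mul_mem ((W x).inv_mem (wu_mem x)) hw, ?_⟩
      rw [x0_eq h]
      group
    · obtain ⟨i, rfl⟩ := mem_lt hk
      refine ⟨x (lt i) * a * (x (lt i))⁻¹, conj_lt h i a ha, x (lt i) * w,
        (W x).mul_mem (Subgroup.subset_closure ⟨_, hk, rfl⟩) hw, ?_⟩
      group
  induction hg using Subgroup.closure_induction_left with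
  | one => exact ⟨1, (A x).one_mem, 1, (W x).one_mem, (one_mul 1).symm⟩
  | mul_left y hy z _ ih =>
    obtain ⟨k, hk, rfl⟩ := hy
    obtain ⟨a, ha, w, hw, rfl⟩ := ih
    exact key k hk a ha w hw
  | inv_mul_cancel y hy z _ ih =>
    obtain ⟨k, hk, rfl⟩ := hy
    obtain ⟨a, ha, w, hw, rfl⟩ := ih
    rw [inv_eq_of_mul_eq_one_left (h.sq _)]
    exact key k hk a ha w hw

theorem A_zpow (h : Cx coxB x) (a : G) (ha : a ∈ A x) : ∃ c : Fin 4 → ℤ,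
    a = t x 0 ^ c 0 * t x 1 ^ c 1 * t x 2 ^ c 2 * t x 3 ^ c 3 := by
  have hc : ∀ (i j : Fin 4) (m n : ℤ), Commute (t x i ^ m) (t x j ^ n) := fun i j m n =>
    (t_comm h i j).zpow_zpow m n
  induction ha using Subgroup.closure_induction with
  | mem y hy =>
    obtain ⟨i, rfl⟩ := hy
    refine ⟨Pi.single i 1, ?_⟩
    fin_cases i <;> simp
  | one => exact ⟨0, by simp⟩
  | mul y z _ _ hy hz =>
    obtain ⟨c, rfl⟩ := hy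
    obtain ⟨d, rfl⟩ := hz
    refine ⟨c + d, ?_⟩
    have c1 : Commute (t x 3 ^ c 3) (t x 0 ^ d 0 * t x 1 ^ d 1 * t x 2 ^ d 2) :=
      ((hc 3 0 _ _).mul_right (hc 3 1 _ _)).mul_right (hc 3 2 _ _)
    have c2 : Commute (t x 2 ^ c 2) (t x 0 ^ d 0 * t x 1 ^ d 1) :=
      (hc 2 0 _ _).mul_right (hc 2 1 _ _)
    rw [c1.mul_mul_mul_comm, c2.mul_mul_mul_comm, (hc 1 0 (c 1) (d 0)).mul_mul_mul_comm]
    simp only [Pi.add_apply, zpow_add]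
  | inv y _ hy =>
    obtain ⟨c, rfl⟩ := hy
    refine ⟨-c, ?_⟩
    have c1 : Commute (t x 0 ^ c 0 * t x 1 ^ c 1 * t x 2 ^ c 2) (t x 3 ^ c 3) :=
      ((hc 0 3 _ _).mul_left (hc 1 3 _ _)).mul_left (hc 2 3 _ _)
    have c2 : Commute (t x 0 ^ c 0 * t x 1 ^ c 1) (t x 2 ^ c 2) :=
      (hc 0 2 _ _).mul_left (hc 1 2 _ _)
    rw [c1.mul_inv, c2.mul_inv, (hc 0 1 (c 0) (c 1)).mul_inv]
    simp only [Pi.neg_apply, zpow_neg]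

/-- **The facet group**: a product of translations and of the group `⟨x 1, …, x 4⟩`. -/
theorem main (h : Cx coxB x) (g : G) (hg : g ∈ Subgroup.closure (x '' {0, 1, 2, 3, 4})) :
    ∃ c : Fin 4 → ℤ, ∃ w ∈ Subgroup.closure (x '' {1, 2, 3, 4}),
      g = t x 0 ^ c 0 * t x 1 ^ c 1 * t x 2 ^ c 2 * t x 3 ^ c 3 * w := by
  obtain ⟨a, ha, w, hw, rfl⟩ := decomp h g hg
  obtain ⟨c, hc⟩ := A_zpow h a ha
  exact ⟨c, w, hw, by rw [← hc]⟩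

/-- The order of the translations. -/
theorem t_pow (h : Cx coxB x) {n : ℕ} (hn : lp x wT ^ n = 1) (i : Fin 4) : t x i ^ n = 1 := by
  rw [t_eq h, conj_pow, hn]
  simp

end Pool.Agent.Lib.MP_c2d01e_co.TrB
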