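import Pool.Agent.Lib.MP_c2d01e_co.Ex.InfP
import Pool.Agent.Lib.MP_c2d01e_co.Ex.TrB
import Pool.Agent.Lib.MP_c2d01e_co.Ex.CGB
import Pool.Agent.Lib.MP_c2d01e_co.Ex.Hom

/-!
# Family (B), P-type: the intersection property

For `m ≥ 2` the group of family (B) with the vectors `(2m,0,0,0)`, `(m,m,0,0)` is a string C-group.
-/

set_option autoImplicit false

namespace Pool.Agent.Lib.MP_c2d01e_co.Ex

open CGroup EqDefs

section

variable {G : Type} [Group G] {x : Fin 6 → G} {s : ℕ} (ψ : G →* Equiv.Perm (VN s))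
  (hψ : ∀ i v, ψ (x i) (CGroup.pi s v) = CGroup.pi s (CGroupB.B i v))

include hψ

theorem act_lp (w : List (Fin 6)) (v : V) :
    ψ (Fi.lp x w) (CGroup.pi s v) = CGroup.pi s (w.foldr CGroupB.B v) := by
  induction w with
  | nil => rw [Fi.lp_nil, map_one]; rfl
  | cons i w ih => rw [Fi.lp_cons, map_mul, Equiv.Perm.mul_apply, ih, hψ]; rfl

omit hψ

/-- the vectors of the four translations -/
def yB : Fin 4 → H4 := ![(2, -1, -1, -1), (1, 0, 0, 0), (1, 0, 0, -1), (1, 0, -1, 0)]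

theorem wT_act (v : V) : TrB.wT.foldr CGroupB.B v = E (2, -1, -1, -1) v := by
  obtain ⟨⟨p, x, y, z⟩, a, b⟩ := v
  show R 1 (R 2 (R 3 (R 4 (R 3 (R 2 (R 5 (R 4 (R 3 (R 4 (R 5 (R 2 (R 3 (R 4 (R 3 (R 2
    ((p, x, y, z), a, b)))))))))))))))) = _
  rw [sig_eq, tau_eq, sig_eq]
  simp only [R, E, bil, nm, Prod.smul_mk, Prod.mk_add_mk, smul_eq_mul, Prod.mk.injEq]
  refine ⟨⟨?_, ?_, ?_, ?_⟩, ?_, trivial⟩ <;> ring

theorem tw_act (k : Fin 4) (v : V) : (TrB.tw k).foldr CGroupB.B v = E (yB k) v := by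
  have e1 : ∀ v, R 2 (E (2, -1, -1, -1) (R 2 v)) = E (1, 0, 0, 0) v := by
    intro v
    rw [← E_conj 2 (by decide) (by decide)]
    rfl
  have e2 : ∀ v, R 3 (E (1, 0, 0, 0) (R 3 v)) = E (1, 0, 0, -1) v := by
    intro v
    rw [← E_conj 3 (by decide) (by decide)]
    rfl
  have e3 : ∀ v, R 4 (E (1, 0, 0, -1) (R 4 v)) = E (1, 0, -1, 0) v := by
    intro v
    rw [← E_conj 4 (by decide) (by decide)]
    rfl
  unfold TrB.tw
  rw [List.foldr_append, List.foldr_append, wT_act]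
  fin_cases k
  · rfl
  · exact e1 v
  · show R 3 (R 2 (E (2, -1, -1, -1) (R 2 (R 3 v)))) = _
    rw [e1, e2]
    rfl
  · show R 4 (R 3 (R 2 (E (2, -1, -1, -1) (R 2 (R 3 (R 4 v)))))) = _
    rw [e1, e2, e3]
    rfl

theorem yB_dvd (c : ℤ) (a : Fin 4 → ℤ)
    (h1 : c ∣ (a 0 • yB 0 + a 1 • yB 1 + a 2 • yB 2 + a 3 • yB 3).1)
    (h2 : c ∣ (a 0 • yB 0 + a 1 • yB 1 + a 2 • yB 2 + a 3 • yB 3).2.1)
    (h3 : c ∣ (a 0 • yB 0 + a 1 • yB 1 + a 2 • yB 2 + a 3 • yB 3).2.2.1)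
    (h4 : c ∣ (a 0 • yB 0 + a 1 • yB 1 + a 2 • yB 2 + a 3 • yB 3).2.2.2) : ∀ k, c ∣ a k := by
  have e1 : (a 0 • yB 0 + a 1 • yB 1 + a 2 • yB 2 + a 3 • yB 3).1 =
      2 * a 0 + a 1 + a 2 + a 3 := by
    show a 0 * 2 + a 1 * 1 + a 2 * 1 + a 3 * 1 = _
    ring
  have e2 : (a 0 • yB 0 + a 1 • yB 1 + a 2 • yB 2 + a 3 • yB 3).2.1 = -a 0 := by
    show a 0 * (-1) + a 1 * 0 + a 2 * 0 + a 3 * 0 = _
    ring
  have e3 : (a 0 • yB 0 + a 1 • yB 1 + a 2 • yB 2 + a 3 • yB 3).2.2.1 = -a 0 - a 3 := by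
    show a 0 * (-1) + a 1 * 0 + a 2 * 0 + a 3 * (-1) = _
    ring
  have e4 : (a 0 • yB 0 + a 1 • yB 1 + a 2 • yB 2 + a 3 • yB 3).2.2.2 = -a 0 - a 2 := by
    show a 0 * (-1) + a 1 * 0 + a 2 * (-1) + a 3 * 0 = _
    ring
  rw [e1] at h1
  rw [e2] at h2
  rw [e3] at h3
  rw [e4] at h4
  have f0 : c ∣ a 0 := by simpa using h2
  have f3 : c ∣ a 3 := by
    have := dvd_sub h2 h3
    have e : -a 0 - (-a 0 - a 3) = a 3 := by ring
    rwa [e] at this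
  have f2 : c ∣ a 2 := by
    have := dvd_sub h2 h4
    have e : -a 0 - (-a 0 - a 2) = a 2 := by ring
    rwa [e] at this
  have f1 : c ∣ a 1 := by
    have := dvd_sub (dvd_sub (dvd_sub h1 (f0.mul_left 2)) f2) f3
    have e : 2 * a 0 + a 1 + a 2 + a 3 - 2 * a 0 - a 2 - a 3 = a 1 := by ring
    rwa [e] at this
  intro k
  fin_cases k
  exacts [f0, f1, f2, f3]

include hψ

/-- The two infinite parabolic subgroups, P-type. -/
theorem hinfB (h : Fi.Cx coxB x) (hs : Fi.lp x TrB.wT ^ s = 1) (w : G)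
    (h0 : w ∈ Subgroup.closure (x '' {0, 1, 2, 3, 4}))
    (h1 : w ∈ Subgroup.closure (x '' {1, 2, 3, 4, 5})) :
    w ∈ Subgroup.closure (x '' {1, 2, 3, 4}) := by
  refine infP' ψ x (fun i hi => ?_) (TrB.t x) yB (fun k v => ?_) (fun k => TrB.t_pow h hs k)
    yB_dvd (TrB.main h) w h0 h1
  · rw [hψ]
    exact congrArg (CGroup.pi s) (CGroupB.fvB_fix 0 i hi)
  · rw [← tw_act]
    exact act_lp ψ hψ _ _

end

/-- The group `GamB (2 m) 1 m 2`, `m ≥ 2`, is a string C-group. -/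
theorem scB1 (m : ℕ) (hm : 2 ≤ m) :
    Function.Injective (PresentedGroup.of : Fin 6 → GamB (2 * m) 1 m 2) ∧
    (∀ i, (PresentedGroup.of i : GamB (2 * m) 1 m 2) ≠ 1) ∧
    ∀ I J : Set (Fin 6),
      Subgroup.closure ((PresentedGroup.of : Fin 6 → GamB (2 * m) 1 m 2) '' I) ⊓
        Subgroup.closure ((PresentedGroup.of : Fin 6 → GamB (2 * m) 1 m 2) '' J) =
      (Subgroup.closure ((PresentedGroup.of : Fin 6 → GamB (2 * m) 1 m 2) '' (I ∩ J)) :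
        Subgroup (GamB (2 * m) 1 m 2)) := by
  obtain ⟨ψ, hψ⟩ := ExHom.actB1 m
  have hcox := ExHom.of_coxB (2 * m) 1 m 2
  have hCx : Fi.Cx coxB (PresentedGroup.of : Fin 6 → GamB (2 * m) 1 m 2) :=
    Fi.mkCx (by decide) (by decide) hcox
  have hT : Fi.lp (PresentedGroup.of : Fin 6 → GamB (2 * m) 1 m 2) TrB.wT ^ (2 * m) = 1 := by
    have h : (PresentedGroup.mk (relsB (2 * m) 1 m 2)) (facetB (2 * m) 1) = 1 :=
      PresentedGroup.one_of_mem (Or.inr (Or.inl rfl))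
    rw [facetB, if_pos rfl, map_pow] at h
    rw [← h]
    congr 1
  exact ⟨CGroupB.injective ψ (CGroup.pi (2 * m)) hψ (CGroupB.nearB_pi (2 * m) (by omega)),
    CGroupB.ne_one ψ (CGroup.pi (2 * m)) hψ (CGroupB.nearB_pi (2 * m) (by omega)),
    CGroupB.interB hcox ψ (CGroup.pi (2 * m)) hψ (CGroupB.nearB_pi (2 * m) (by omega))
      (fun w h0 h1 => hinfB ψ hψ hCx hT w h0 h1)⟩

end Pool.Agent.Lib.MP_c2d01e_co.Ex
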