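import Pool.Agent.Lib.MP_c2d01e_co.Ex.InfP
import Pool.Agent.Lib.MP_c2d01e_co.Ex.TrC2
import Pool.Agent.Lib.MP_c2d01e_co.Ex.CGC
import Pool.Agent.Lib.MP_c2d01e_co.Ex.HomC
import Pool.Agent.Lib.MP_c2d01e_co.FinC

/-!
# Family (C), P-type: the intersection property

For `m ≥ 2` the group of family (C) with the vectors `(m,m,0,0)`, `(m,m,m,m)` is a string C-group.
-/

set_option autoImplicit false

namespace Pool.Agent.Lib.MP_c2d01e_co.CpC8

open CGroup EqDefs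

/-- Translation at the cusp of the cubic side. -/
def E' (y : H4) (v : V) : V := R 1 (R 0 (E y (R 0 (R 1 v))))

theorem E'_E' (y w : H4) (v : V) : E' y (E' w v) = E' (y + w) v := by
  unfold E'
  rw [R_R, R_R, E_E]

theorem E'_zero (v : V) : E' 0 v = v := by
  unfold E'
  rw [E_zero, R_R, R_R]

/-- the vectors of the four translations -/
def yC : Fin 4 → H4 := ![(0, 0, 0, -1), (0, 0, -1, 0), (0, -1, 0, 0), (-2, 1, 1, 1)]

theorem wT_act (v : V) : TrC.wT.foldr CGroupC.C v = E' (0, 0, 0, -1) v := by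
  obtain ⟨⟨p, x, y, z⟩, a, b⟩ := v
  show CGroupC.C 1 (CGroupC.C 2 (CGroupC.C 3 (CGroupC.C 4 (CGroupC.C 5 (CGroupC.C 4
    (CGroupC.C 3 (CGroupC.C 2 ((p, x, y, z), a, b)))))))) = _
  simp only [CGroupC.C, R, E', E, bil, nm, Prod.smul_mk, Prod.mk_add_mk, smul_eq_mul,
    Prod.mk.injEq]
  refine ⟨⟨?_, ?_, ?_, ?_⟩, ?_, ?_⟩ <;> ring

theorem st1 (v : V) : CGroupC.C 2 (E' (0, 0, 0, -1) (CGroupC.C 2 v)) = E' (0, 0, -1, 0) v := by
  obtain ⟨⟨p, x, y, z⟩, a, b⟩ := v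
  simp only [CGroupC.C, R, E', E, bil, nm, Prod.smul_mk, Prod.mk_add_mk, smul_eq_mul,
    Prod.mk.injEq]
  refine ⟨⟨?_, ?_, ?_, ?_⟩, ?_, ?_⟩ <;> ring

theorem st2 (v : V) : CGroupC.C 3 (E' (0, 0, -1, 0) (CGroupC.C 3 v)) = E' (0, -1, 0, 0) v := by
  obtain ⟨⟨p, x, y, z⟩, a, b⟩ := v
  simp only [CGroupC.C, R, E', E, bil, nm, Prod.smul_mk, Prod.mk_add_mk, smul_eq_mul,
    Prod.mk.injEq]
  refine ⟨⟨?_, ?_, ?_, ?_⟩, ?_, ?_⟩ <;> ring

theorem st3 (v : V) : CGroupC.C 4 (E' (0, -1, 0, 0) (CGroupC.C 4 v)) = E' (-2, 1, 1, 1) v := by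
  obtain ⟨⟨p, x, y, z⟩, a, b⟩ := v
  simp only [CGroupC.C, R, E', E, bil, nm, Prod.smul_mk, Prod.mk_add_mk, smul_eq_mul,
    Prod.mk.injEq]
  refine ⟨⟨?_, ?_, ?_, ?_⟩, ?_, ?_⟩ <;> ring

theorem tw_act (k : Fin 4) (v : V) : (TrC.tw k).foldr CGroupC.C v = E' (yC k) v := by
  unfold TrC.tw
  rw [List.foldr_append, List.foldr_append, wT_act]
  fin_cases k
  · rfl
  · exact st1 v
  · show CGroupC.C 3 (CGroupC.C 2 (E' (0, 0, 0, -1) (CGroupC.C 2 (CGroupC.C 3 v)))) = _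
    rw [st1, st2]
    rfl
  · show CGroupC.C 4 (CGroupC.C 3 (CGroupC.C 2 (E' (0, 0, 0, -1)
      (CGroupC.C 2 (CGroupC.C 3 (CGroupC.C 4 v)))))) = _
    rw [st1, st2, st3]
    rfl

section

variable {G : Type} [Group G] {x : Fin 6 → G} {s : ℕ} (ψ : G →* Equiv.Perm (VN s))

theorem zpow_E' {t : G} {y : H4}
    (ht : ∀ v, ψ t (CGroup.pi s v) = CGroup.pi s (E' y v)) (a : ℤ) :
    ∀ v, ψ (t ^ a) (CGroup.pi s v) = CGroup.pi s (E' (a • y) v) := by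
  have hinv : ∀ v, ψ t⁻¹ (CGroup.pi s v) = CGroup.pi s (E' (-y) v) := by
    intro v
    rw [map_inv, Equiv.Perm.inv_eq_iff_eq, ht, E'_E', add_neg_cancel, E'_zero]
  induction a using Int.induction_on with
  | zero => intro v; rw [zpow_zero, map_one, zero_smul, E'_zero]; rfl
  | succ k ih =>
    intro v
    rw [zpow_add_one, map_mul, Equiv.Perm.mul_apply, ht, ih, E'_E', add_smul, one_smul]
  | pred k ih =>
    intro v
    rw [zpow_sub_one, map_mul, Equiv.Perm.mul_apply, hinv, ih, E'_E', sub_smul, one_smul,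
      sub_eq_add_neg]

variable (hψ : ∀ i v, ψ (x i) (CGroup.pi s v) = CGroup.pi s (CGroupC.C i v))

include hψ

theorem act_lp (w : List (Fin 6)) (v : V) :
    ψ (Fi.lp x w) (CGroup.pi s v) = CGroup.pi s (w.foldr CGroupC.C v) := by
  induction w with
  | nil => rw [Fi.lp_nil, map_one]; rfl
  | cons i w ih => rw [Fi.lp_cons, map_mul, Equiv.Perm.mul_apply, ih, hψ]; rfl

theorem tp_act (c : Fin 4 → ℤ) (v : V) :
    ψ (TrC.tp x c) (CGroup.pi s v) =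
      CGroup.pi s (E' (c 0 • yC 0 + c 1 • yC 1 + c 2 • yC 2 + c 3 • yC 3) v) := by
  have ht : ∀ k v, ψ (TrC.t x k) (CGroup.pi s v) = CGroup.pi s (E' (yC k) v) := by
    intro k v
    rw [← tw_act]
    exact act_lp ψ hψ _ _
  unfold TrC.tp
  rw [map_mul, map_mul, map_mul, Equiv.Perm.mul_apply, Equiv.Perm.mul_apply, Equiv.Perm.mul_apply,
    zpow_E' ψ (ht 3), zpow_E' ψ (ht 2), zpow_E' ψ (ht 1), zpow_E' ψ (ht 0), E'_E', E'_E', E'_E']

omit hψ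

/-- A translation which fixes `(0, 1, 0)` modulo `s` is by a vector divisible by `s`. -/
theorem dvd_of_fixC {y : H4}
    (h : CGroup.pi s (E' y ((0, 0, 0, 0), 1, 0)) = CGroup.pi s ((0, 0, 0, 0), 1, 0)) :
    (s : ℤ) ∣ y.1 ∧ (s : ℤ) ∣ y.2.1 ∧ (s : ℤ) ∣ y.2.2.1 ∧ (s : ℤ) ∣ y.2.2.2 := by
  obtain ⟨p, q, r, t⟩ := y
  have e0 : E' (p, q, r, t) ((0, 0, 0, 0), 1, 0) =
      ((p - 2 * nm (p, q, r, t), -q - p + nm (p, q, r, t), -r - p + nm (p, q, r, t),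
        -t - p + nm (p, q, r, t)), 1 + nm (p, q, r, t) - p, -nm (p, q, r, t)) := by
    simp only [R, E', E, bil, nm, Prod.smul_mk, Prod.mk_add_mk, smul_eq_mul,
      Prod.mk.injEq]
    refine ⟨⟨?_, ?_, ?_, ?_⟩, ?_, ?_⟩ <;> ring
  rw [e0] at h
  have e : ∀ x : ℤ, ((x : ℤ) : ZMod s) = ((0 : ℤ) : ZMod s) → (s : ℤ) ∣ x := by
    intro x hx
    rw [← ZMod.intCast_zmod_eq_zero_iff_dvd]
    simpa using hx
  have h0 := congrArg Prod.fst h
  have h1 := e _ (congrArg Prod.fst h0)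
  have h2 := e _ (congrArg (fun x => x.2.1) h0)
  have h3 := e _ (congrArg (fun x => x.2.2.1) h0)
  have h4 := e _ (congrArg (fun x => x.2.2.2) h0)
  have h5 : (s : ℤ) ∣ -nm (p, q, r, t) := e _ (congrArg (fun x => x.2.2) h)
  simp only at h1 h2 h3 h4
  have hN : (s : ℤ) ∣ nm (p, q, r, t) := (dvd_neg).1 h5
  have hp : (s : ℤ) ∣ p := by
    have := dvd_add h1 (hN.mul_left 2)
    rwa [show p - 2 * nm (p, q, r, t) + 2 * nm (p, q, r, t) = p by ring] at this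
  refine ⟨hp, ?_, ?_, ?_⟩
  · have := dvd_sub (dvd_sub hN h2) hp
    rwa [show nm (p, q, r, t) - (-q - p + nm (p, q, r, t)) - p = q by ring] at this
  · have := dvd_sub (dvd_sub hN h3) hp
    rwa [show nm (p, q, r, t) - (-r - p + nm (p, q, r, t)) - p = r by ring] at this
  · have := dvd_sub (dvd_sub hN h4) hp
    rwa [show nm (p, q, r, t) - (-t - p + nm (p, q, r, t)) - p = t by ring] at this

include hψ

/-- The coordinates of a product of translations in `⟨x 0, …, x 4⟩`. -/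
theorem coord (c : Fin 4 → ℤ) (hc : TrC.tp x c ∈ Subgroup.closure (x '' {0, 1, 2, 3, 4})) :
    (s : ℤ) ∣ 2 * c 3 ∧ (s : ℤ) ∣ c 3 - c 2 ∧ (s : ℤ) ∣ c 3 - c 1 ∧ (s : ℤ) ∣ c 3 - c 0 := by
  have h4 := Ex.fix_closure ψ (CGroup.pi s ((0, 0, 0, 0), 1, 0)) (x '' {0, 1, 2, 3, 4}) (by
    rintro g ⟨i, hi, rfl⟩
    rw [hψ]
    refine congrArg (CGroup.pi s) (CGroupC.fvC_fix 5 i ?_)
    rintro rfl
    simp at hi) _ hc
  rw [tp_act ψ hψ] at h4
  obtain ⟨e1, e2, e3, e4⟩ := dvd_of_fixC h4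
  have f1 : (c 0 • yC 0 + c 1 • yC 1 + c 2 • yC 2 + c 3 • yC 3).1 = -(2 * c 3) := by
    show c 0 * 0 + c 1 * 0 + c 2 * 0 + c 3 * (-2) = _
    ring
  have f2 : (c 0 • yC 0 + c 1 • yC 1 + c 2 • yC 2 + c 3 • yC 3).2.1 = c 3 - c 2 := by
    show c 0 * 0 + c 1 * 0 + c 2 * (-1) + c 3 * 1 = _
    ring
  have f3 : (c 0 • yC 0 + c 1 • yC 1 + c 2 • yC 2 + c 3 • yC 3).2.2.1 = c 3 - c 1 := by
    show c 0 * 0 + c 1 * (-1) + c 2 * 0 + c 3 * 1 = _
    ring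
  have f4 : (c 0 • yC 0 + c 1 • yC 1 + c 2 • yC 2 + c 3 • yC 3).2.2.2 = c 3 - c 0 := by
    show c 0 * (-1) + c 1 * 0 + c 2 * 0 + c 3 * 1 = _
    ring
  rw [f1] at e1
  rw [f2] at e2
  rw [f3] at e3
  rw [f4] at e4
  exact ⟨(dvd_neg).1 e1, e2, e3, e4⟩

end

/-- The two infinite parabolic subgroups, P-type. -/
theorem hinfC {G : Type} [Group G] {x : Fin 6 → G} {m : ℕ} (hm : 2 ≤ m)
    (ψ : G →* Equiv.Perm (VN (2 * m)))
    (hψ : ∀ i v, ψ (x i) (CGroup.pi (2 * m) v) = CGroup.pi (2 * m) (CGroupC.C i v))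
    (h : Fi.Cx coxC x) (hn : Fi.lp x TrC.wV4 ^ m = 1) (w : G)
    (h0 : w ∈ Subgroup.closure (x '' {0, 1, 2, 3, 4}))
    (h1 : w ∈ Subgroup.closure (x '' {1, 2, 3, 4, 5})) :
    w ∈ Subgroup.closure (x '' {1, 2, 3, 4}) := by
  obtain ⟨c, u, hu, rfl⟩ := TrC.main h w h1
  have hs0 : Subgroup.closure (x '' {1, 2, 3, 4}) ≤ Subgroup.closure (x '' {0, 1, 2, 3, 4}) :=
    Subgroup.closure_mono (Set.image_mono (by
      intro x hx
      simp only [Set.mem_insert_iff, Set.mem_singleton_iff] at hx ⊢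
      tauto))
  have hc : TrC.tp x c ∈ Subgroup.closure (x '' {0, 1, 2, 3, 4}) := by
    have h4 := mul_mem h0 (inv_mem (hs0 hu))
    rwa [mul_inv_cancel_right] at h4
  obtain ⟨e1, e2, e3, e4⟩ := coord ψ hψ c hc
  have hm0 : (m : ℤ) ≠ 0 := by
    have : 0 < m := by omega
    exact_mod_cast this.ne'
  push_cast at e1 e2 e3 e4
  obtain ⟨k3, hk3⟩ := (mul_dvd_mul_iff_left (two_ne_zero (α := ℤ))).1 e1
  obtain ⟨j2, hj2⟩ := e2
  obtain ⟨j1, hj1⟩ := e3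
  obtain ⟨j0, hj0⟩ := e4
  have key : TrC.tp x c = 1 := by
    refine TrC.Ptype h hn c ![k3 - 2 * j0, k3 - 2 * j1, k3 - 2 * j2, k3] ?_ ?_
    · intro i
      fin_cases i
      · show c 0 = (m : ℤ) * (k3 - 2 * j0)
        linear_combination hk3 - hj0
      · show c 1 = (m : ℤ) * (k3 - 2 * j1)
        linear_combination hk3 - hj1
      · show c 2 = (m : ℤ) * (k3 - 2 * j2)
        linear_combination hk3 - hj2
      · exact hk3
    · rcases Int.even_or_odd k3 with hk | hk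
      · left
        intro i
        fin_cases i
        · exact hk.sub (even_two_mul j0)
        · exact hk.sub (even_two_mul j1)
        · exact hk.sub (even_two_mul j2)
        · exact hk
      · right
        intro i
        fin_cases i
        · exact hk.sub_even (even_two_mul j0)
        · exact hk.sub_even (even_two_mul j1)
        · exact hk.sub_even (even_two_mul j2)
        · exact hk
  have key' : TrC.t x 0 ^ c 0 * TrC.t x 1 ^ c 1 * TrC.t x 2 ^ c 2 * TrC.t x 3 ^ c 3 = 1 := key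
  rw [key', one_mul]
  exact hu

/-- The group `GamC m 2 m 4`, `m ≥ 2`, is a string C-group. -/
theorem scC2 (m : ℕ) (hm : 2 ≤ m) :
    Function.Injective (PresentedGroup.of : Fin 6 → GamC m 2 m 4) ∧
    (∀ i, (PresentedGroup.of i : GamC m 2 m 4) ≠ 1) ∧
    ∀ I J : Set (Fin 6),
      Subgroup.closure ((PresentedGroup.of : Fin 6 → GamC m 2 m 4) '' I) ⊓
        Subgroup.closure ((PresentedGroup.of : Fin 6 → GamC m 2 m 4) '' J) =
      (Subgroup.closure ((PresentedGroup.of : Fin 6 → GamC m 2 m 4) '' (I ∩ J)) :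
        Subgroup (GamC m 2 m 4)) := by
  obtain ⟨ψ, hψ⟩ := ExHom.actC2 m
  have hcox := ExHom.of_coxC m 2 m 4
  have hCx : Fi.Cx coxC (PresentedGroup.of : Fin 6 → GamC m 2 m 4) :=
    Fi.mkCx (by decide) (by decide) hcox
  have hT : Fi.lp (PresentedGroup.of : Fin 6 → GamC m 2 m 4) TrC.wV4 ^ m = 1 := FinC.verC4 m 2 m
  exact ⟨CGroupC.injective ψ (CGroup.pi (2 * m)) hψ (CGroupB.nearB_pi (2 * m) (by omega)),
    CGroupC.ne_one ψ (CGroup.pi (2 * m)) hψ (CGroupB.nearB_pi (2 * m) (by omega)),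
    CGroupC.interC hcox ψ (CGroup.pi (2 * m)) hψ (CGroupB.nearB_pi (2 * m) (by omega))
      (fun w h0 h1 => hinfC hm ψ hψ hCx hT w h0 h1)⟩

end Pool.Agent.Lib.MP_c2d01e_co.CpC8
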