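import Pool.Agent.Lib.MP_c2d01e_co.Ex.Wrd
import Pool.Agent.Lib.MP_c2d01e_co.Ex.InfQ

/-!
# The translations of family (B), vectors `(n,n,0,0)`, `n` odd (helper6)

`A, B, C, D` = the `n`-th powers of the four translations `tr g 0, …, tr g 3`. The relation
`(ρ₀ σ τ)^(2n) = 1` says `C D = 1`; its conjugates give `C = D = A B`, `A² = B² = 1`.
-/

set_option autoImplicit false

namespace Pool.Agent.Lib.MP_c2d01e_co.Ex

open Wrd

variable {G : Type*} [Group G]

/-- A conjugation by an involution, on powers. -/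
theorem cj {y a b : G} (hy : y * y = 1) (h : y * a * y = b) (n : ℕ) : y * a ^ n * y = b ^ n := by
  have hi : y⁻¹ = y := inv_eq_of_mul_eq_one_left hy
  rw [← h]
  have : y * a * y = y * a * y⁻¹ := by rw [hi]
  rw [this, conj_pow, hi]

theorem cj2 {y a b a' b' : G} (hy : y * y = 1) (h : y * a * y = a') (h' : y * b * y = b') :
    y * (a * b) * y = a' * b' := by
  rw [← h, ← h']
  have : (y * a * y) * (y * b * y) = y * a * (y * y) * b * y := by simp only [mul_assoc]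
  rw [this, hy, mul_one]
  simp only [mul_assoc]

theorem cj1 {y : G} (hy : y * y = 1) {a : G} (h : a = 1) : y * a * y = 1 := by
  rw [h, mul_one, hy]

/-- The relations between the `n`-th powers. -/
theorem npow (g : ℕ → G) (h : Cox g) (n : ℕ) (hX : (tr g 2 * tr g 3) ^ n = 1) :
    tr g 2 ^ n = tr g 0 ^ n * tr g 1 ^ n ∧ tr g 3 ^ n = tr g 0 ^ n * tr g 1 ^ n ∧
      (tr g 0 ^ n) ^ 2 = 1 ∧ (tr g 1 ^ n) ^ 2 = 1 := by
  have s1 : g 1 * g 1 = 1 := sq h (by norm_num)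
  have s2 : g 2 * g 2 = 1 := sq h (by norm_num)
  have s3 : g 3 * g 3 = 1 := sq h (by norm_num)
  have s4 : g 4 * g 4 = 1 := sq h (by norm_num)
  have hc := tr_comm g h
  have rv : ∀ j, ev g (tw j).reverse = (tr g j)⁻¹ := fun j => ev_rev g h (tw j) (tw_lt j)
  have e : ∀ k j, ev g ([k] ++ (tw j ++ [k])) = g k * tr g j * g k := by
    intro k j
    rw [ev_app, ev_app, ev_one, mul_assoc]
    rfl
  -- the conjugations
  have a42 : g 4 * tr g 2 * g 4 = tr g 2 := by rw [← e]; exact k42 g h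
  have a43 : g 4 * tr g 3 * g 4 = tr g 0 * (tr g 1 * ((tr g 2)⁻¹ * (tr g 3)⁻¹)) := by
    rw [← e, k43 g h, ev_app, ev_app, ev_app, rv, rv]
    rfl
  have a30 : g 3 * tr g 0 * g 3 = tr g 0 := by rw [← e]; exact k30 g h
  have a31 : g 3 * tr g 1 * g 3 = tr g 1 := by rw [← e]; exact k31 g h
  have a33 : g 3 * tr g 3 * g 3 = tr g 2 := by rw [← e]; exact k33 g h
  have a20 : g 2 * tr g 0 * g 2 = tr g 0 := by rw [← e]; exact k20 g h
  have a21 : g 2 * tr g 1 * g 2 = tr g 2 := by rw [← e]; exact k21 g h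
  have a22 : g 2 * tr g 2 * g 2 = tr g 1 := by rw [← e]; exact k22 g h
  -- the powers
  set A := tr g 0 ^ n with hA
  set B := tr g 1 ^ n with hB
  set C := tr g 2 ^ n with hC
  set D := tr g 3 ^ n with hD
  have cAB : Commute A B := (hc 0 1).pow_pow n n
  have cAC : Commute A C := (hc 0 2).pow_pow n n
  have cAD : Commute A D := (hc 0 3).pow_pow n n
  have cBC : Commute B C := (hc 1 2).pow_pow n n
  have cBD : Commute B D := (hc 1 3).pow_pow n n
  have cCD : Commute C D := (hc 2 3).pow_pow n n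
  have R1 : C * D = 1 := by
    rw [← (hc 2 3).mul_pow]
    exact hX
  have p4 : g 4 * D * g 4 = A * (B * (C⁻¹ * D⁻¹)) := by
    rw [cj s4 a43 n, (((hc 0 1).mul_right (((hc 0 2).inv_right).mul_right
      ((hc 0 3).inv_right)))).mul_pow, (((hc 1 2).inv_right).mul_right
      ((hc 1 3).inv_right)).mul_pow, ((hc 2 3).inv_inv).mul_pow, inv_pow, inv_pow]
  -- conjugate `C D = 1` by `g 4`
  have R2 : D = A * B := by
    have h1 := cj2 s4 (cj s4 a42 n) p4
    rw [cj1 s4 R1] at h1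
    -- 1 = C * (A * (B * (C⁻¹ * D⁻¹)))
    have h2 : C * (A * (B * (C⁻¹ * D⁻¹))) = A * B * D⁻¹ := by
      have c1 : C * (A * (B * (C⁻¹ * D⁻¹))) = (C * (A * B)) * (C⁻¹ * D⁻¹) := by
        simp only [mul_assoc]
      rw [c1, (cAC.symm.mul_right cBC.symm).eq]
      simp only [mul_assoc, mul_inv_cancel_left]
    have h3 : A * B * D⁻¹ = 1 := by
      rw [← h2]
      exact h1.symm
    exact (mul_inv_eq_one.1 h3).symm
  -- conjugate by `g 3`
  have R3 : C = A * B := by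
    have h1 := cj s3 a33 n
    have h2 : g 3 * D * g 3 = A * B := by
      rw [R2]
      exact cj2 s3 (cj s3 a30 n) (cj s3 a31 n)
    rw [← h2]
    exact h1.symm
  -- conjugate `C = A B` by `g 2`
  have R4 : B = A * C := by
    have h1 := cj s2 a22 n
    have h2 : g 2 * C * g 2 = A * C := by
      conv_lhs => rw [R3]
      exact cj2 s2 (cj s2 a20 n) (cj s2 a21 n)
    rw [← h2]
    exact h1.symm
  have hA2 : A ^ 2 = 1 := by
    have h1 : B = A * (A * B) := by
      rw [← R3]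
      exact R4
    rw [← mul_assoc] at h1
    have h2 := mul_eq_right.1 h1.symm
    rw [pow_two]
    exact h2
  refine ⟨R3, R2, hA2, ?_⟩
  have h1 : (A * B) * (A * B) = 1 := by
    have := R1
    rw [R3, R2] at this
    exact this
  have h2 : (A * B) ^ 2 = 1 := by
    rw [pow_two]
    exact h1
  rw [cAB.mul_pow, hA2, one_mul] at h2
  exact h2

/-- The intersection lemma for family (B), vectors `(n,n,0,0)`, `(n,0,0,0)`, `n` odd: `n` divides
the coordinates of the translation (`hdiv`), and `ψ` is the action on four points. -/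
theorem infQ2 (g : ℕ → G) (h : Cox g) {n : ℕ} (hn : Odd n)
    (hX : (tr g 2 * tr g 3) ^ n = 1) {C : Subgroup G}
    (hWC : Subgroup.closure {g 1, g 2, g 3, g 4} ≤ C)
    (hdiv : ∀ a : Fin 4 → ℤ, pp (tr g) a ∈ C → ∀ i, (n : ℤ) ∣ a i)
    (ψ : G →* Equiv.Perm (Fin 4)) (hC : ∀ x ∈ C, ψ x 0 = 0)
    (h0 : ψ (g 0) = Equiv.swap 0 1) (h1 : ψ (g 1) = Equiv.swap 1 2)
    (h2 : ψ (g 2) = Equiv.swap 2 3) (h3 : ψ (g 3) = 1) (h4 : ψ (g 4) = 1) :
    Subgroup.closure {g 0, g 1, g 2, g 3, g 4} ⊓ C ≤ Subgroup.closure {g 1, g 2, g 3, g 4} := by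
  obtain ⟨e2, e3, hA, hB⟩ := npow g h n hX
  rintro x ⟨hxF, hxC⟩
  obtain ⟨a, w, hw, rfl⟩ := decomp g h hxF
  have ha : pp (tr g) a ∈ C := by
    have h5 := C.mul_mem hxC (C.inv_mem (hWC hw))
    rwa [mul_inv_cancel_right] at h5
  obtain ⟨c0, d0⟩ := hdiv a ha 0
  obtain ⟨c1, d1⟩ := hdiv a ha 1
  obtain ⟨c2, d2⟩ := hdiv a ha 2
  obtain ⟨c3, d3⟩ := hdiv a ha 3
  have cAB : Commute (tr g 0 ^ n) (tr g 1 ^ n) := (tr_comm g h 0 1).pow_pow n n
  have e : pp (tr g) a = (tr g 0 ^ n) ^ (c0 + c2 + c3) * (tr g 1 ^ n) ^ (c1 + c2 + c3) := by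
    rw [pp, d0, d1, d2, d3, zpow_mul, zpow_mul, zpow_mul, zpow_mul, zpow_natCast, zpow_natCast,
      zpow_natCast, zpow_natCast, e2, e3, cAB.mul_zpow, cAB.mul_zpow]
    set A := tr g 0 ^ n
    set B := tr g 1 ^ n
    have k : ∀ i j : ℤ, Commute (A ^ i) (B ^ j) := fun i j => cAB.zpow_zpow i j
    calc A ^ c0 * B ^ c1 * (A ^ c2 * B ^ c2) * (A ^ c3 * B ^ c3)
        = (A ^ c0 * A ^ c2) * (B ^ c1 * B ^ c2) * (A ^ c3 * B ^ c3) := by
          rw [(k c2 c1).symm.mul_mul_mul_comm]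
      _ = (A ^ c0 * A ^ c2 * A ^ c3) * (B ^ c1 * B ^ c2 * B ^ c3) := by
          have : Commute (B ^ c1 * B ^ c2) (A ^ c3) :=
            ((k c3 c1).symm).mul_left ((k c3 c2).symm)
          rw [this.mul_mul_mul_comm]
      _ = A ^ (c0 + c2 + c3) * B ^ (c1 + c2 + c3) := by
          rw [zpow_add, zpow_add, zpow_add, zpow_add]
  have t0 : ψ (tr g 0) = Equiv.swap 0 1 * Equiv.swap 2 3 := by
    simp only [tr, tw, tT, ev, List.map_cons, List.map_nil, List.prod_cons, List.prod_nil,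
      Matrix.cons_val_zero, map_mul, map_one, h0, h1, h2, h3, h4]
    decide
  have t1 : ψ (tr g 1) = Equiv.swap 0 2 * Equiv.swap 1 3 := by
    have e5 : tr g 1 = g 1 * tr g 0 * g 1 := by
      have h5 : tr g 1 = ev g ([1] ++ (tw 0 ++ [1])) := (k10 g h).symm
      rw [h5, ev_app, ev_app, ev_one, mul_assoc]
      rfl
    rw [e5, map_mul, map_mul, t0, h1]
    decide
  obtain ⟨k, hk⟩ := hn
  have u0 : ψ (tr g 0 ^ n) = Equiv.swap 0 1 * Equiv.swap 2 3 := by
    have : (Equiv.swap (0 : Fin 4) 1 * Equiv.swap 2 3) ^ 2 = 1 := by decide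
    rw [map_pow, t0, hk, pow_succ, pow_mul, this, one_pow, one_mul]
  have u1 : ψ (tr g 1 ^ n) = Equiv.swap 0 2 * Equiv.swap 1 3 := by
    have : (Equiv.swap (0 : Fin 4) 2 * Equiv.swap 1 3) ^ 2 = 1 := by decide
    rw [map_pow, t1, hk, pow_succ, pow_mul, this, one_pow, one_mul]
  have hfix := hC _ ha
  rw [e] at hfix ⊢
  rcases Int.even_or_odd (c0 + c2 + c3) with hm | hm <;>
    rcases Int.even_or_odd (c1 + c2 + c3) with hl | hl
  · rw [(zpow_par hA _).1 hm, (zpow_par hB _).1 hl, one_mul, one_mul]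
    exact hw
  · rw [(zpow_par hA _).1 hm, (zpow_par hB _).2 hl, one_mul, u1] at hfix
    exact absurd hfix (by decide)
  · rw [(zpow_par hA _).2 hm, (zpow_par hB _).1 hl, mul_one, u0] at hfix
    exact absurd hfix (by decide)
  · rw [(zpow_par hA _).2 hm, (zpow_par hB _).2 hl, map_mul, u0, u1] at hfix
    exact absurd hfix (by decide)

end Pool.Agent.Lib.MP_c2d01e_co.Ex
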