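import Pool.Agent.Lib.MP_c2d01e_co.Ex.Wrd

/-!
# MP_c2d01e_co: the square of `ρ₀ σ τ` in terms of the translations
-/

set_option autoImplicit false

namespace Pool.Agent.Lib.MP_c2d01e_co.Ex.WX

open Pool.Agent.Lib.MP_c2d01e_co.Ex.Wrd

variable {G : Type*} [Group G] (g : ℕ → G)

theorem x23 (h : Cox g) :
    ev g [0, 1, 2, 3, 2, 1, 4, 3, 2, 3, 4, 0, 1, 2, 3, 2, 1, 4, 3, 2, 3, 4] = ev g (tw 2 ++ tw 3) :=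
  word_eq g h _ _
    [(16, 1, 4), (17, 1, 3), (15, 2, 4), (10, 4, 0), (11, 4, 1), (12, 4, 2), (13, 4, 3), (5, 1, 4), (6, 1, 3), (4, 2, 4)]
    [(17, 1, 1), (16, 2, 2), (15, 3, 3), (14, 2, 2), (13, 1, 1), (18, 1, 4), (19, 1, 3), (17, 2, 4), (12, 4, 0), (13, 4, 1), (14, 4, 2), (15, 4, 3), (11, 3, 0), (12, 3, 1), (10, 2, 0), (7, 1, 4), (8, 1, 3), (1, 1, 0), (3, 0, 2), (4, 0, 3), (5, 0, 2), (6, 0, 4), (7, 0, 3), (8, 0, 1), (10, 1, 2), (12, 2, 3), (15, 2, 4), (16, 2, 3), (19, 2, 1), (21, 1, 3), (22, 1, 4), (23, 1, 1), (18, 3, 1), (11, 1, 3), (7, 3, 1), (8, 3, 0), (5, 2, 4), (0, 2, 0), (1, 2, 1), (3, 1, 3), (4, 1, 4), (5, 1, 2), (7, 2, 0), (8, 2, 3), (11, 2, 1), (13, 1, 3), (14, 1, 4), (15, 1, 3), (16, 1, 2), (18, 2, 3), (21, 2, 4), (22, 2, 2), (24, 1, 1), (23, 2, 2), (22, 3, 3), (17, 1, 3), (7, 0, 3),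 (8, 0, 2), (9, 0, 3), (6, 1, 3)]
    (by decide +kernel)

end Pool.Agent.Lib.MP_c2d01e_co.Ex.WX
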