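import Pool.Agent.Lib.MP_c2d01e_co.Ex.CpB1
import Pool.Agent.Lib.MP_c2d01e_co.Ex.InfQ2
import Pool.Agent.Lib.MP_c2d01e_co.Ex.WX
import Pool.Agent.Lib.MP_c2d01e_co.Ex.Wrd

/-!
# Family (B), Q-type: the intersection property

For odd `n ≥ 3` the group of family (B) with the vectors `(n,n,0,0)`, `(n,0,0,0)` is a string C-group.
-/

set_option autoImplicit false

namespace Pool.Agent.Lib.MP_c2d01e_co.Ex.CqB

open CGroup EqDefs Wrd

variable (n : ℕ)

/-- The generators, indexed by the natural numbers. -/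
def gq (i : ℕ) : GamB n 2 n 1 := PresentedGroup.of (Fin.ofNat 6 i)

theorem cx_eq : ∀ i < 5, ∀ j < 5, coxB (Fin.ofNat 6 i) (Fin.ofNat 6 j) = cx i j := by decide

theorem gq_cox : Cox (gq n) := by
  intro i j hi hj
  rw [← cx_eq i hi j hj]
  exact ExHom.of_coxB n 2 n 1 _ _

theorem tr_eq (j : Fin 4) :
    tr (gq n) j = Fi.lp (PresentedGroup.of : Fin 6 → GamB n 2 n 1) (TrB.tw j) := by
  fin_cases j <;> rfl

theorem hX : (tr (gq n) 2 * tr (gq n) 3) ^ n = 1 := by
  have h : (PresentedGroup.mk (relsB n 2 n 1)) (facetB n 2) = 1 :=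
    PresentedGroup.one_of_mem (Or.inr (Or.inl rfl))
  rw [facetB, if_neg (by norm_num), map_pow, pow_mul, pow_two] at h
  have e := WX.x23 (gq n) (gq_cox n)
  rw [ev_app] at e
  change _ = tr (gq n) 2 * tr (gq n) 3 at e
  rw [← e, ← h]
  congr 1

theorem scB2 (hn : 3 ≤ n) (ho : Odd n) :
    Function.Injective (PresentedGroup.of : Fin 6 → GamB n 2 n 1) ∧
    (∀ i, (PresentedGroup.of i : GamB n 2 n 1) ≠ 1) ∧
    ∀ I J : Set (Fin 6),
      Subgroup.closure ((PresentedGroup.of : Fin 6 → GamB n 2 n 1) '' I) ⊓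
        Subgroup.closure ((PresentedGroup.of : Fin 6 → GamB n 2 n 1) '' J) =
      (Subgroup.closure ((PresentedGroup.of : Fin 6 → GamB n 2 n 1) '' (I ∩ J)) :
        Subgroup (GamB n 2 n 1)) := by
  obtain ⟨ψ, hψ⟩ := ExHom.actB2 n
  have hcox := ExHom.of_coxB n 2 n 1
  have hs : (2 : ℕ) = 1 → Even n := fun h => absurd h (by norm_num)
  refine ⟨CGroupB.injective ψ (CGroup.pi n) hψ (CGroupB.nearB_pi n hn),
    CGroupB.ne_one ψ (CGroup.pi n) hψ (CGroupB.nearB_pi n hn),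
    CGroupB.interB hcox ψ (CGroup.pi n) hψ (CGroupB.nearB_pi n hn) (fun w h0 h1 => ?_)⟩
  have hact : ∀ k v, ψ (tr (gq n) k) (CGroup.pi n v) = CGroup.pi n (E (yB k) v) := by
    intro k v
    rw [tr_eq, ← tw_act]
    exact act_lp ψ hψ _ _
  have e0 : ((PresentedGroup.of : Fin 6 → GamB n 2 n 1) '' {0, 1, 2, 3, 4}) =
      {gq n 0, gq n 1, gq n 2, gq n 3, gq n 4} := by
    rw [Set.image_insert_eq, Set.image_insert_eq, Set.image_insert_eq, Set.image_insert_eq,
      Set.image_singleton]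
    rfl
  have e1 : ((PresentedGroup.of : Fin 6 → GamB n 2 n 1) '' {1, 2, 3, 4}) =
      {gq n 1, gq n 2, gq n 3, gq n 4} := by
    rw [Set.image_insert_eq, Set.image_insert_eq, Set.image_insert_eq, Set.image_singleton]
    rfl
  have hmono : Subgroup.closure ((PresentedGroup.of : Fin 6 → GamB n 2 n 1) '' {1, 2, 3, 4}) ≤
      Subgroup.closure ((PresentedGroup.of : Fin 6 → GamB n 2 n 1) '' {1, 2, 3, 4, 5}) :=
    Subgroup.closure_mono (Set.image_mono (by
      intro x hx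
      simp only [Set.mem_insert_iff, Set.mem_singleton_iff] at hx ⊢
      tauto))
  have key := infQ2 (gq n) (gq_cox n) ho (hX n)
    (C := Subgroup.closure ((PresentedGroup.of : Fin 6 → GamB n 2 n 1) '' {1, 2, 3, 4, 5}))
    (by rw [← e1]; exact hmono)
    (fun a ha => by
      have h4 := fix_closure ψ (CGroup.pi n ((0, 0, 0, 0), 0, 1))
        ((PresentedGroup.of : Fin 6 → GamB n 2 n 1) '' {1, 2, 3, 4, 5}) (by
          rintro _ ⟨i, hi, rfl⟩
          have hi0 : i ≠ 0 := by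
            rintro rfl
            simp at hi
          rw [hψ]
          exact congrArg (CGroup.pi n) (CGroupB.fvB_fix 0 i hi0)) _ ha
      rw [pp, prod_E ψ hact] at h4
      obtain ⟨d1, d2, d3, d4⟩ := dvd_of_fix h4
      exact yB_dvd n a d1 d2 d3 d4)
    (psi4 n 2 n 1 hs)
    (fun x hx => psi4_fix n 2 n 1 hs {1, 2, 3, 4, 5} (by simp) x hx)
    (psi4_of n 2 n 1 hs 0) (psi4_of n 2 n 1 hs 1) (psi4_of n 2 n 1 hs 2) (psi4_of n 2 n 1 hs 3)
    (psi4_of n 2 n 1 hs 4)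
  rw [← e0, ← e1] at key
  exact key ⟨h0, h1⟩

end Pool.Agent.Lib.MP_c2d01e_co.Ex.CqB
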