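import Pool.Agent.Lib.MP_c2d01e_co.Ex.InfC
import Pool.Agent.Lib.MP_c2d01e_co.Ex.HomC

/-!
# The groups of family (C) with the vectors `(n,0,0,0)`, `(n,n,0,0)`, `n` odd, are string C-groups (helper4)
-/

set_option autoImplicit false

namespace Pool.Agent.Lib.MP_c2d01e_co.Ex

open Subgroup CGroup CGroupC TrC Fi EqDefs

/-- The images of the generators under the sign of the last one. -/
def sg5 : Fin 6 → ℤˣ := ![1, 1, 1, 1, 1, -1]

theorem sg5_cox : ∀ i j : Fin 6, (sg5 i * sg5 j) ^ coxC i j = 1 := by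
  decide

theorem sg5_rels (t k u l : ℕ) (hl : l = 2 ∨ l = 4) :
    ∀ r ∈ relsC t k u l, FreeGroup.lift sg5 r = 1 := by
  have a : ∀ i, (FreeGroup.lift sg5) (EqDefs.gen i) = sg5 i := by
    intro i
    rw [EqDefs.gen, FreeGroup.lift_apply_of]
  rintro r (⟨i, j, rfl⟩ | hr | hr)
  · rw [map_pow, map_mul, a, a]
    exact sg5_cox i j
  · rw [hr, facetC]
    split_ifs with hk
    · simp only [sC, tC, map_pow, map_mul, a]
      have : (sg5 4 * (sg5 3 * sg5 2 * sg5 1 * sg5 2 * sg5 3) * (sg5 0 * sg5 1 * sg5 2 * sg5 1 * sg5 0) *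
        (sg5 3 * sg5 2 * sg5 1 * sg5 2 * sg5 3)) = 1 := by decide
      rw [this, one_pow]
    · simp only [sC, tC, map_pow, map_mul, a]
      have : (sg5 4 * (sg5 3 * sg5 2 * sg5 1 * sg5 2 * sg5 3) *
        (sg5 0 * sg5 1 * sg5 2 * sg5 1 * sg5 0)) = 1 := by decide
      rw [this, one_pow]
  · rw [Set.mem_singleton_iff.1 hr, vertC]
    rcases hl with rfl | rfl
    · rw [if_neg (by norm_num), if_pos rfl]
      simp only [map_pow, map_mul, a]
      rw [pow_mul]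
      have : (sg5 1 * sg5 2 * sg5 3 * sg5 4 * sg5 5 * sg5 4 * sg5 3) ^ 2 = 1 := by decide
      rw [this, one_pow]
    · rw [if_neg (by norm_num), if_neg (by norm_num)]
      simp only [map_pow, map_mul, a]
      rw [pow_mul]
      have : (sg5 1 * sg5 2 * sg5 3 * sg5 4 * sg5 5) ^ 4 = 1 := by decide
      rw [this, one_pow]

/-- The sign of the last generator. -/
def psi5 (t k u l : ℕ) (hl : l = 2 ∨ l = 4) : GamC t k u l →* ℤˣ :=
  PresentedGroup.toGroup (sg5_rels t k u l hl)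

theorem psi5_of (t k u l : ℕ) (hl : l = 2 ∨ l = 4) (i : Fin 6) :
    psi5 t k u l hl (PresentedGroup.of i) = sg5 i := by
  rw [psi5, PresentedGroup.toGroup.of]

section

variable {G : Type} [Group G] {x : Fin 6 → G}

theorem psi_t (h : Cx coxC x) (ψ : G →* ℤˣ) (hψ : ∀ i, ψ (x i) = sg5 i) (i : Fin 4) :
    ψ (t x i) = -1 := by
  have h0 : ψ (t x 0) = -1 := by
    have e : t x 0 = x 1 * (x 2 * (x 3 * (x 4 * (x 5 * (x 4 * (x 3 * x 2)))))) := by
      have : tw 0 = [1, 2, 3, 4, 5, 4, 3, 2] := by decide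
      rw [t, this]
      simp only [Fi.lp_cons, Fi.lp_nil, mul_one]
    rw [e]
    simp only [map_mul, hψ]
    decide
  have hc : ∀ (k : Fin 6) (a b : G), x k * a * (x k)⁻¹ = b → ψ a = -1 → ψ b = -1 := by
    intro k a b hab ha
    rw [← hab, map_mul, map_mul, map_inv, mul_comm (ψ (x k)) (ψ a), mul_inv_cancel_right, ha]
  have h1 := hc 2 _ _ (c20 h) h0
  have h2 := hc 3 _ _ (c31 h) h1
  have h3 := hc 4 _ _ (c42 h) h2
  fin_cases i
  · exact h0
  · exact h1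
  · exact h2
  · exact h3

theorem psi_tp (h : Cx coxC x) (ψ : G →* ℤˣ) (hψ : ∀ i, ψ (x i) = sg5 i) (c : Fin 4 → ℤ) :
    ψ (tp x c) = (-1) ^ (c 0 + c 1 + c 2 + c 3) := by
  rw [tp, map_mul, map_mul, map_mul, map_zpow, map_zpow, map_zpow, map_zpow, psi_t h ψ hψ,
    psi_t h ψ hψ, psi_t h ψ hψ, psi_t h ψ hψ, zpow_add, zpow_add, zpow_add]

theorem psi_closure (ψ : G →* ℤˣ) (hψ : ∀ i, ψ (x i) = sg5 i) (w : G)
    (hw : w ∈ closure (x '' ({0, 1, 2, 3, 4} : Set (Fin 6)))) : ψ w = 1 := by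
  have : closure (x '' ({0, 1, 2, 3, 4} : Set (Fin 6))) ≤ ψ.ker := by
    rw [closure_le]
    rintro y ⟨i, hi, rfl⟩
    rw [SetLike.mem_coe, MonoidHom.mem_ker, hψ]
    simp only [Set.mem_insert_iff, Set.mem_singleton_iff] at hi
    rcases hi with rfl | rfl | rfl | rfl | rfl <;> rfl
  exact MonoidHom.mem_ker.1 (this hw)

end

theorem even_of_pow {n : ℤ} (h : ((-1 : ℤˣ)) ^ n = 1) : Even n := by
  rcases Int.even_or_odd n with h1 | h1
  · exact h1
  · exfalso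
    rw [Odd.neg_one_zpow h1] at h
    exact absurd h (by decide)

theorem cx_of (t k u l : ℕ) :
    Cx coxC (fun i => (PresentedGroup.of i : GamC t k u l)) :=
  mkCx (by decide) (by decide) (ExHom.of_coxC t k u l)

theorem cqC_inf {n : ℕ} (hn : Odd n) (w : GamC n 1 n 2)
    (h0 : w ∈ closure ((fun i => (PresentedGroup.of i : GamC n 1 n 2)) ''
      ({0, 1, 2, 3, 4} : Set (Fin 6))))
    (h1 : w ∈ closure ((fun i => (PresentedGroup.of i : GamC n 1 n 2)) ''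
      ({1, 2, 3, 4, 5} : Set (Fin 6)))) :
    w ∈ closure ((fun i => (PresentedGroup.of i : GamC n 1 n 2)) ''
      ({1, 2, 3, 4} : Set (Fin 6))) := by
  obtain ⟨φ, hφ⟩ := ExHom.actC1 n
  have h := cx_of n 1 n 2
  have hrel : Fi.lp (fun i => (PresentedGroup.of i : GamC n 1 n 2)) wV2 ^ n = 1 := by
    have h2 : PresentedGroup.mk (relsC n 1 n 2) (vertC n 2) = 1 :=
      PresentedGroup.one_of_mem (Or.inr (Or.inr rfl))
    rw [vertC, if_neg (by norm_num), if_pos rfl, map_pow, pow_mul] at h2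
    rw [← h2]
    congr 1
  refine infC φ hφ h (fun c e1 e2 e3 e4 hc => ?_) w h0 h1
  have hcop : IsCoprime (n : ℤ) 2 := by
    rw [Int.isCoprime_iff_gcd_eq_one]
    obtain ⟨k, hk⟩ := hn
    rw [hk]
    have : Nat.gcd (2 * k + 1) 2 = 1 := by
      rw [Nat.gcd_comm, Nat.gcd_rec]
      simp
    exact_mod_cast this
  have d3 : (n : ℤ) ∣ c 3 := hcop.dvd_of_dvd_mul_left e1
  have d2 : (n : ℤ) ∣ c 2 := (dvd_add_right d3).1 e2
  have d1 : (n : ℤ) ∣ c 1 := (dvd_add_right d3).1 e3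
  have d0 : (n : ℤ) ∣ c 0 := (dvd_add_right d3).1 e4
  obtain ⟨k0, hk0⟩ := d0
  obtain ⟨k1, hk1⟩ := d1
  obtain ⟨k2, hk2⟩ := d2
  obtain ⟨k3, hk3⟩ := d3
  have hψ := psi_closure (psi5 n 1 n 2 (Or.inl rfl)) (psi5_of n 1 n 2 (Or.inl rfl)) _ hc
  rw [psi_tp h _ (psi5_of n 1 n 2 (Or.inl rfl))] at hψ
  have hev := even_of_pow hψ
  have hsum : c 0 + c 1 + c 2 + c 3 = n * (k0 + k1 + k2 + k3) := by
    rw [hk0, hk1, hk2, hk3]; ring
  rw [hsum, Int.even_mul] at hev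
  have hno : ¬ Even (n : ℤ) := by
    rw [Int.not_even_iff_odd]
    exact_mod_cast hn
  refine Qtype h hrel c ![k0, k1, k2, k3] (fun i => ?_) ?_
  · fin_cases i
    · exact hk0
    · exact hk1
    · exact hk2
    · exact hk3
  · exact hev.resolve_left hno

/-- C_Q: string C-groups of family (C). -/
theorem cqC (n : ℕ) (hn3 : 3 ≤ n) (hn : Odd n) :
    Function.Injective (PresentedGroup.of : Fin 6 → GamC n 1 n 2) ∧
    (∀ i, (PresentedGroup.of i : GamC n 1 n 2) ≠ 1) ∧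
    ∀ I J : Set (Fin 6),
      closure ((PresentedGroup.of : Fin 6 → GamC n 1 n 2) '' I) ⊓
        closure ((PresentedGroup.of : Fin 6 → GamC n 1 n 2) '' J) =
      (closure ((PresentedGroup.of : Fin 6 → GamC n 1 n 2) '' (I ∩ J)) : Subgroup (GamC n 1 n 2)) := by
  obtain ⟨φ, hφ⟩ := ExHom.actC1 n
  have hπ : ∀ v w, CGroupB.nearB v w = true → CGroup.pi n v ≠ CGroup.pi n w :=
    fun v w hvw => CGroupB.nearB_pi n hn3 v w hvw
  exact ⟨CGroupC.injective φ (CGroup.pi n) hφ hπ, CGroupC.ne_one φ (CGroup.pi n) hφ hπ,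
    CGroupC.interC (ExHom.of_coxC n 1 n 2) φ (CGroup.pi n) hφ hπ
      (fun w h0 h1 => cqC_inf hn w h0 h1)⟩

end Pool.Agent.Lib.MP_c2d01e_co.Ex
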