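import Pool.Agent.Lib.MP_c2d01e_co.Ex.CqCN4

/-!
# The group of family (C) with the vectors `(2,0,0,0)`, `(2,2,0,0)` is a string C-group (helper4)

The stabilizers of six sets of vectors (the vertex sets of base faces, and single vectors) replace the
stabilizers of the vectors `fvC i`; the group acts on the lattice modulo `2 N`.
-/

set_option autoImplicit false

namespace Pool.Agent.Lib.MP_c2d01e_co.Ex.CqC2

open Subgroup CGroupC EqDefs
open Pool.Agent.Lib.MP_c2d01e_co.Ex.ActN Pool.Agent.Lib.MP_c2d01e_co.Ex.CqCN4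

/-- Six sets of vectors. -/
def bs : Fin 6 → List V
  | 0 => [fvC 0]
  | 1 => [fvC 1]
  | 2 => [fvC 0, C 0 (fvC 0), C 1 (C 0 (fvC 0))]
  | 3 => [fvC 0, C 0 (fvC 0), C 1 (C 0 (fvC 0)), C 2 (C 1 (C 0 (fvC 0))),
      C 1 (C 2 (C 1 (C 0 (fvC 0)))), C 0 (C 1 (C 2 (C 1 (C 0 (fvC 0)))))]
  | 4 => [fvC 5, C 5 (fvC 5)]
  | 5 => [fvC 5]

/-- Same elements. -/
def eqs (l l' : List V) : Bool := (l.all fun v => l'.contains v) && (l'.all fun v => l.contains v)

/-- Congruence modulo `2 N`. -/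
def eqN (v w : V) : Bool :=
  ((v.1.1 - w.1.1) % 4 == 0) && ((v.1.2.1 - w.1.2.1) % 2 == 0) &&
  ((v.1.2.2.1 - w.1.2.2.1) % 2 == 0) && ((v.1.2.2.2 - w.1.2.2.2) % 2 == 0) &&
  ((v.1.2.1 - w.1.2.1 + (v.1.2.2.1 - w.1.2.2.1) + (v.1.2.2.2 - w.1.2.2.2)) % 4 == 0) &&
  ((v.2.1 - w.2.1) % 4 == 0) && ((v.2.2 - w.2.2) % 4 == 0)

/-- Every vector of `l` is congruent to one of `l'`. -/
def subN (l l' : List V) : Bool := l.all fun v => l'.any fun w => eqN v w

/-- The images of the set of vectors. -/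
def build (L : List (V × Fin 6)) (B : List V) : ℕ → List (List V)
  | 0 => [B]
  | n + 1 => build L B n ++
      [((build L B n).getD (T L (n + 1) (par L (n + 1))) []).map (C (par L (n + 1)))]

/-- The second certificate, for given lists. -/
def cert2' (a b : Fin 6) (L : List (V × Fin 6)) (B : List V) (P : List (List V)) : Bool :=
  (P.getD 0 [] == B) &&
  (List.range L.length).all fun k =>
    ((gens a b).all fun g => eqs ((P.getD k []).map (C g)) (P.getD (T L k g) [])) &&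
    ((List.finRange 6).all fun g => !((g : ℕ) + 1 < a || (b : ℕ) + 1 < g) ||
      eqs ((P.getD k []).map (C g)) (P.getD k [])) &&
    (k == 0 || !(subN (P.getD k []) B))

/-- The second certificate. -/
def cert2 (a b i : Fin 6) : Bool :=
  cert2' a b (orb a b i) (bs i) (build (orb a b i) (bs i) ((orb a b i).length - 1))

/-- All certificates are correct. -/
theorem all_cert2 : ∀ a b i : Fin 6, a ≤ i → i ≤ b → fn a b i = true → cert2 a b i = true := by
  decide +kernel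

/-- The conditions checked by the second certificate. -/
structure Ct2 (L : List (V × Fin 6)) (P : List (List V)) (a b i : Fin 6) : Prop where
  zero : P.getD 0 [] = bs i
  step : ∀ k < L.length, ∀ g ∈ gens a b,
    eqs ((P.getD k []).map (C g)) (P.getD (T L k g) []) = true
  far : ∀ k < L.length, ∀ g : Fin 6, ((g : ℕ) + 1 < a ∨ (b : ℕ) + 1 < g) →
    eqs ((P.getD k []).map (C g)) (P.getD k []) = true
  ne : ∀ k < L.length, k ≠ 0 → subN (P.getD k []) (bs i) = false

theorem ct2_of_cert {a b i : Fin 6} (h : cert2 a b i = true) :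
    Ct2 (orb a b i) (build (orb a b i) (bs i) ((orb a b i).length - 1)) a b i := by
  unfold cert2 at h
  generalize build (orb a b i) (bs i) ((orb a b i).length - 1) = P at h ⊢
  unfold cert2' at h
  simp only [Bool.and_eq_true, beq_iff_eq, List.all_eq_true, List.mem_range,
    Bool.or_eq_true, List.mem_finRange, forall_const, Bool.not_eq_eq_eq_not, Bool.not_true] at h
  obtain ⟨h1, h3⟩ := h
  refine ⟨h1, ?_, ?_, ?_⟩
  · exact fun k hk g hg => (h3 k hk).1.1 g hg
  · intro k hk g hg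
    rcases (h3 k hk).1.2 g with h4 | h4
    · exfalso
      simp only [Bool.or_eq_false_iff, decide_eq_false_iff_not] at h4
      rcases hg with hg | hg
      · exact h4.1 hg
      · exact h4.2 hg
    · exact h4
  · intro k hk hk0
    rcases (h3 k hk).2 with h4 | h4
    · exact absurd h4 hk0
    · exact h4

theorem bs_fix (i j : Fin 6) (h : j ≠ i) : eqs ((bs i).map (C j)) (bs i) = true := by
  revert h
  revert i j
  decide +kernel

theorem bs_move (i : Fin 6) : subN ((bs i).map (C i)) (bs i) = false := by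
  revert i
  decide +kernel

/-! ### Soundness -/

section sound2

variable {G : Type*} [Group G] {r : Fin 6 → G}
variable (hr : ∀ i j : Fin 6, (r i * r j) ^ coxC i j = 1)
include hr

theorem inv_r (g : Fin 6) : (r g)⁻¹ = r g := by
  rw [inv_eq_iff_mul_eq_one]; exact CGroupC.sq hr g

theorem stabS {X : Type*} (φ : G →* Equiv.Perm X) (S : List V → Set X)
    (hφ : ∀ g l, φ (r g) '' S l = S (l.map (C g)))
    (hS : ∀ l l', eqs l l' = true → S l = S l')
    (hne : ∀ l l', subN l l' = false → S l ≠ S l')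
    (J : Finset (Fin 6)) (a b i : Fin 6)
    (hai : a ≤ i) (hib : i ≤ b) (hfin : fn a b i = true) (hJ1 : ∀ g, a ≤ g → g ≤ b → g ∈ J)
    (hJ2 : ∀ g ∈ J, (a ≤ g ∧ g ≤ b) ∨ (g : ℕ) + 1 < a ∨ (b : ℕ) + 1 < g) (w : G)
    (hw : w ∈ closure (r '' (J : Set (Fin 6)))) (hfix : φ w '' S (bs i) = S (bs i)) :
    w ∈ closure (r '' ((J.erase i : Finset (Fin 6)) : Set (Fin 6))) := by
  set K := closure (r '' ((J.erase i : Finset (Fin 6)) : Set (Fin 6))) with hKdef
  have hL := ct_of_cert (all_cert a b i hai hib hfin)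
  have hP := ct2_of_cert (all_cert2 a b i hai hib hfin)
  set L := orb a b i with hLdef
  set P := build L (bs i) (L.length - 1) with hPdef
  have hrK : ∀ g ∈ J, g ≠ i → r g ∈ K := fun g hg hgi =>
    subset_closure ⟨g, by simp [hg, hgi], rfl⟩
  have hgens : ∀ g : Fin 6, g ∈ gens a b ↔ a ≤ g ∧ g ≤ b := by
    intro g; simp [gens]
  have hK : ∀ g ∈ gens a b, g ≠ i → r g ∈ K := fun g hg hgi =>
    hrK g (hJ1 g ((hgens g).1 hg).1 ((hgens g).1 hg).2) hgi
  have hinvr : ∀ g, (r g)⁻¹ = r g := inv_r hr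
  have hmul : ∀ x y : G, ∀ s : Set X, φ (x * y) '' s = φ x '' (φ y '' s) := by
    intro x y s
    rw [map_mul, Equiv.Perm.coe_mul, Set.image_comp]
  have key : ∃ l < L.length, w • cc r L K 0 = cc r L K l ∧
      φ w '' S (P.getD 0 []) = S (P.getD l []) := by
    have stp : ∀ g ∈ J, ∀ y : G,
        (∃ l < L.length, y • cc r L K 0 = cc r L K l ∧
          φ y '' S (P.getD 0 []) = S (P.getD l [])) →
        ∃ l < L.length, (r g * y) • cc r L K 0 = cc r L K l ∧
          φ (r g * y) '' S (P.getD 0 []) = S (P.getD l []) := by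
      rintro g hg y ⟨l, hl, h1, h2⟩
      rcases hJ2 g hg with h3 | h3
      · have hgg := (hgens g).2 h3
        refine ⟨T L l g, hL.lt l hl g hgg, ?_, ?_⟩
        · rw [mul_smul, h1, CGroupC.claim' hr hL K hK l hl g hgg]
        · rw [hmul, h2, hφ]
          exact hS _ _ (hP.step l hl g hgg)
      · refine ⟨l, hl, ?_, ?_⟩
        · have hgi : g ≠ i := by
            rintro rfl
            have h5 : (a : ℕ) ≤ (g : ℕ) := hai
            have h6 : (g : ℕ) ≤ (b : ℕ) := hib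
            omega
          rw [mul_smul, h1, CGroupC.claim_far hr hL K g (hrK g hg hgi) h3 l hl]
        · rw [hmul, h2, hφ]
          exact hS _ _ (hP.far l hl g h3)
    refine closure_induction_left (p := fun w _ => ∃ l < L.length, w • cc r L K 0 = cc r L K l ∧
      φ w '' S (P.getD 0 []) = S (P.getD l [])) ?_ ?_ ?_ hw
    · exact ⟨0, hL.pos, by rw [one_smul], by rw [map_one]; simp⟩
    · rintro x ⟨g, hg, rfl⟩ y _ h
      exact stp g hg y h
    · rintro x ⟨g, hg, rfl⟩ y _ h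
      rw [hinvr g]
      exact stp g hg y h
  obtain ⟨l, hl, h1, h2⟩ := key
  by_cases hl0 : l = 0
  · subst hl0
    rw [cc_zero] at h1
    have h3 : ((w : G) : G ⧸ K) = ((1 : G) : G ⧸ K) := by
      rw [← h1]
      change _ = ((w * 1 : G) : G ⧸ K)
      rw [mul_one]
    rw [QuotientGroup.eq, mul_one] at h3
    exact (K.inv_mem_iff).1 h3
  · exfalso
    rw [hP.zero, hfix] at h2
    exact hne _ _ (hP.ne l hl hl0) h2.symm

theorem fixS {X : Type*} (φ : G →* Equiv.Perm X) (S : List V → Set X)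
    (hφ : ∀ g l, φ (r g) '' S l = S (l.map (C g)))
    (hS : ∀ l l', eqs l l' = true → S l = S l') (J : Finset (Fin 6)) (i : Fin 6) (hi : i ∉ J)
    (w : G) (hw : w ∈ closure (r '' (J : Set (Fin 6)))) : φ w '' S (bs i) = S (bs i) := by
  have stp : ∀ g ∈ J, ∀ y : G, φ y '' S (bs i) = S (bs i) →
      φ (r g * y) '' S (bs i) = S (bs i) := by
    intro g hg y h
    rw [map_mul, Equiv.Perm.coe_mul, Set.image_comp, h, hφ]
    exact hS _ _ (bs_fix i g (by rintro rfl; exact hi hg))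
  refine closure_induction_left (p := fun w _ => φ w '' S (bs i) = S (bs i)) ?_ ?_ ?_ hw
  · rw [map_one]; simp
  · rintro x ⟨g, hg, rfl⟩ y _ h
    exact stp g hg y h
  · rintro x ⟨g, hg, rfl⟩ y _ h
    rw [inv_r hr g]
    exact stp g hg y h

theorem inter_fin_auxS {X : Type*} (φ : G →* Equiv.Perm X) (S : List V → Set X)
    (hφ : ∀ g l, φ (r g) '' S l = S (l.map (C g)))
    (hS : ∀ l l', eqs l l' = true → S l = S l')
    (hne : ∀ l l', subN l l' = false → S l ≠ S l')
    (J : Finset (Fin 6)) (w : G)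
    (hwJ : w ∈ closure (r '' (J : Set (Fin 6)))) (n : ℕ) :
    ∀ I : Finset (Fin 6), (I \ J).card = n → (¬({0, 1, 2, 3} ⊆ I) ∧ ¬({1, 2, 3, 4, 5} ⊆ I)) →
      w ∈ closure (r '' (I : Set (Fin 6))) →
      w ∈ closure (r '' ((I ∩ J : Finset (Fin 6)) : Set (Fin 6))) := by
  induction n with
  | zero =>
    intro I hI _ hw
    have : I ⊆ J := Finset.sdiff_eq_empty_iff_subset.1 (Finset.card_eq_zero.1 hI)
    rwa [Finset.inter_eq_left.2 this]
  | succ n ih =>
    intro I hI hI2 hw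
    obtain ⟨i, hi⟩ : (I \ J).Nonempty := Finset.card_pos.1 (by omega)
    have hi' := Finset.mem_sdiff.1 hi
    obtain ⟨a, b, h1, h2, h3, h4, h5⟩ := component I i hi'.1 (Or.inl hI2)
    have h6 := stabS hr φ S hφ hS hne I a b i h1 h2 h3 h4 h5 w hw
      (fixS hr φ S hφ hS J i hi'.2 w hwJ)
    have h7 : ((I.erase i) \ J).card = n := by
      rw [Finset.erase_sdiff_comm, Finset.card_erase_of_mem hi, hI]
      omega
    have h8 := ih (I.erase i) h7 (⟨fun h => hI2.1 (h.trans (Finset.erase_subset _ _)),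
      fun h => hI2.2 (h.trans (Finset.erase_subset _ _))⟩) h6
    have h9 : (I.erase i) ∩ J = I ∩ J := by
      rw [Finset.erase_inter, Finset.erase_eq_of_notMem]
      simp [hi'.2]
    rwa [h9] at h8

theorem inter_finS {X : Type*} (φ : G →* Equiv.Perm X) (S : List V → Set X)
    (hφ : ∀ g l, φ (r g) '' S l = S (l.map (C g)))
    (hS : ∀ l l', eqs l l' = true → S l = S l')
    (hne : ∀ l l', subN l l' = false → S l ≠ S l')
    (hinf : ∀ w, w ∈ closure (r '' (({0, 1, 2, 3, 4} : Finset (Fin 6)) : Set (Fin 6))) →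
      w ∈ closure (r '' (({1, 2, 3, 4, 5} : Finset (Fin 6)) : Set (Fin 6))) →
      w ∈ closure (r '' (({1, 2, 3, 4} : Finset (Fin 6)) : Set (Fin 6))))
    (I J : Finset (Fin 6)) :
    closure (r '' (I : Set (Fin 6))) ⊓ closure (r '' (J : Set (Fin 6))) =
      closure (r '' ((I ∩ J : Finset (Fin 6)) : Set (Fin 6))) := by
  apply le_antisymm
  · rintro w ⟨hwI, hwJ⟩
    by_cases h1 : I ⊆ J
    · rwa [Finset.inter_eq_left.2 h1]
    by_cases h2 : J ⊆ I
    · rwa [Finset.inter_eq_right.2 h2]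
    by_cases h3 : ¬({0, 1, 2, 3} ⊆ I) ∧ ¬({1, 2, 3, 4, 5} ⊆ I)
    · exact inter_fin_auxS hr φ S hφ hS hne J w hwJ _ I rfl h3 hwI
    by_cases h4 : ¬({0, 1, 2, 3} ⊆ J) ∧ ¬({1, 2, 3, 4, 5} ⊆ J)
    · have := inter_fin_auxS hr φ S hφ hS hne I w hwI _ J rfl h4 hwJ
      rwa [Finset.inter_comm] at this
    rcases two_big I J (by unfold Big; tauto) (by unfold Big; tauto) h1 h2 with
      ⟨i, hi, hg, hiJ, h5⟩ | ⟨i, hi, hg, hiI, h5⟩ | ⟨e, ⟨e1, e2⟩ | ⟨e1, e2⟩⟩
    · obtain ⟨a, b, g1, g2, g3, g4, g5⟩ := component I i hi hg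
      rw [← h5]
      exact stabS hr φ S hφ hS hne I a b i g1 g2 g3 g4 g5 w hwI
        (fixS hr φ S hφ hS J i hiJ w hwJ)
    · obtain ⟨a, b, g1, g2, g3, g4, g5⟩ := component J i hi hg
      rw [Finset.inter_comm, ← h5]
      exact stabS hr φ S hφ hS hne J a b i g1 g2 g3 g4 g5 w hwJ
        (fixS hr φ S hφ hS I i hiI w hwI)
    · rw [e]
      rw [e1] at hwI
      rw [e2] at hwJ
      exact hinf w hwI hwJ
    · rw [e]
      rw [e1] at hwJ
      rw [e2] at hwI
      exact hinf w hwJ hwI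
  · apply le_inf
    · exact closure_mono (Set.image_mono (by exact_mod_cast Finset.inter_subset_left))
    · exact closure_mono (Set.image_mono (by exact_mod_cast Finset.inter_subset_right))

theorem interS {X : Type*} (φ : G →* Equiv.Perm X) (S : List V → Set X)
    (hφ : ∀ g l, φ (r g) '' S l = S (l.map (C g)))
    (hS : ∀ l l', eqs l l' = true → S l = S l')
    (hne : ∀ l l', subN l l' = false → S l ≠ S l')
    (hinf : ∀ w, w ∈ closure (r '' ({0, 1, 2, 3, 4} : Set (Fin 6))) →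
      w ∈ closure (r '' ({1, 2, 3, 4, 5} : Set (Fin 6))) →
      w ∈ closure (r '' ({1, 2, 3, 4} : Set (Fin 6))))
    (I J : Set (Fin 6)) :
    closure (r '' I) ⊓ closure (r '' J) = closure (r '' (I ∩ J)) := by
  classical
  have := inter_finS hr φ S hφ hS hne (by simpa using hinf) I.toFinite.toFinset
    J.toFinite.toFinset
  simp only [Finset.coe_inter, Set.Finite.coe_toFinset] at this
  exact this

omit hr in
theorem ne_oneS {X : Type*} (φ : G →* Equiv.Perm X) (S : List V → Set X)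
    (hφ : ∀ g l, φ (r g) '' S l = S (l.map (C g)))
    (hne : ∀ l l', subN l l' = false → S l ≠ S l') (i : Fin 6) :
    r i ≠ 1 := by
  intro h
  have h1 := hφ i (bs i)
  rw [h, map_one] at h1
  have h2 := hne _ _ (bs_move i)
  apply h2
  rw [← h1]
  simp

omit hr in
theorem injectiveS {X : Type*} (φ : G →* Equiv.Perm X) (S : List V → Set X)
    (hφ : ∀ g l, φ (r g) '' S l = S (l.map (C g)))
    (hS : ∀ l l', eqs l l' = true → S l = S l')
    (hne : ∀ l l', subN l l' = false → S l ≠ S l') :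
    Function.Injective r := by
  intro i j h
  by_contra hij
  have h1 := hφ i (bs i)
  rw [h, hφ, hS _ _ (bs_fix i j (fun e => hij e.symm))] at h1
  exact hne _ _ (bs_move i) h1.symm

end sound2

/-! ### The action modulo `2 N` -/

theorem eqN_of_piN (v w : V) (h : piN 2 v = piN 2 w) : eqN v w = true := by
  obtain ⟨⟨a1, h1⟩, ⟨a2, h2⟩, ⟨a3, h3⟩, ⟨a4, h4⟩, ⟨a5, h5⟩, ⟨a6, h6⟩, ⟨a7, h7⟩⟩ := sepN 2 v w h
  obtain ⟨⟨p, x, y, z⟩, a, b⟩ := v
  obtain ⟨⟨p', x', y', z'⟩, a', b'⟩ := w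
  simp only [Prod.mk_sub_mk] at h1 h2 h3 h4 h5 h6 h7
  push_cast at h1 h2 h3 h4 h5 h6 h7
  simp only [eqN, Bool.and_eq_true, beq_iff_eq]
  refine ⟨⟨⟨⟨⟨⟨?_, ?_⟩, ?_⟩, ?_⟩, ?_⟩, ?_⟩, ?_⟩ <;> omega

/-- The sets of images of vectors. -/
def SX (l : List V) : Set (XN 2) := {x | ∃ v ∈ l, piN 2 v = x}

theorem SX_eq (l l' : List V) (h : eqs l l' = true) : SX l = SX l' := by
  simp only [eqs, Bool.and_eq_true, List.all_eq_true, List.contains_iff_mem] at h
  ext x
  constructor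
  · rintro ⟨v, hv, hx⟩
    exact ⟨v, h.1 v hv, hx⟩
  · rintro ⟨v, hv, hx⟩
    exact ⟨v, h.2 v hv, hx⟩

theorem SX_ne (l l' : List V) (h : subN l l' = false) : SX l ≠ SX l' := by
  intro he
  have h1 : subN l l' = true := by
    rw [subN, List.all_eq_true]
    intro v hv
    have h2 : piN 2 v ∈ SX l := ⟨v, hv, rfl⟩
    rw [he] at h2
    obtain ⟨w, hw, hx⟩ := h2
    exact List.any_eq_true.2 ⟨w, hw, eqN_of_piN v w hx.symm⟩
  rw [h] at h1
  exact Bool.false_ne_true h1

theorem phi_SX {G : Type*} [Group G] {r : Fin 6 → G} (φ : G →* Equiv.Perm (XN 2))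
    (hφ : ∀ i v, φ (r i) (piN 2 v) = piN 2 (C i v)) (g : Fin 6) (l : List V) :
    φ (r g) '' SX l = SX (l.map (C g)) := by
  ext x
  constructor
  · rintro ⟨y, ⟨v, hv, rfl⟩, rfl⟩
    exact ⟨C g v, List.mem_map_of_mem hv, (hφ g v).symm⟩
  · rintro ⟨w, hw, rfl⟩
    obtain ⟨v, hv, rfl⟩ := List.mem_map.1 hw
    exact ⟨piN 2 v, ⟨v, hv, rfl⟩, hφ g v⟩

/-- The case `n = 2`. -/
theorem cqC2 :
    Function.Injective (PresentedGroup.of : Fin 6 → GamC 2 1 2 2) ∧
    (∀ i, (PresentedGroup.of i : GamC 2 1 2 2) ≠ 1) ∧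
    ∀ I J : Set (Fin 6),
      closure ((PresentedGroup.of : Fin 6 → GamC 2 1 2 2) '' I) ⊓
        closure ((PresentedGroup.of : Fin 6 → GamC 2 1 2 2) '' J) =
      (closure ((PresentedGroup.of : Fin 6 → GamC 2 1 2 2) '' (I ∩ J)) : Subgroup (GamC 2 1 2 2)) := by
  obtain ⟨φ, hφ⟩ := actCN 2
  exact ⟨injectiveS φ SX (phi_SX φ hφ) SX_eq SX_ne, ne_oneS φ SX (phi_SX φ hφ) SX_ne,
    interS (ExHom.of_coxC 2 1 2 2) φ SX (phi_SX φ hφ) SX_eq SX_ne
      (fun w h0 h1 => hinfCN (by norm_num) w h0 h1)⟩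

/-- C_Q for all `n ≥ 2`: string C-groups of family (C). -/
theorem cqC'' (n : ℕ) (hn : 2 ≤ n) :
    Function.Injective (PresentedGroup.of : Fin 6 → GamC n 1 n 2) ∧
    (∀ i, (PresentedGroup.of i : GamC n 1 n 2) ≠ 1) ∧
    ∀ I J : Set (Fin 6),
      closure ((PresentedGroup.of : Fin 6 → GamC n 1 n 2) '' I) ⊓
        closure ((PresentedGroup.of : Fin 6 → GamC n 1 n 2) '' J) =
      (closure ((PresentedGroup.of : Fin 6 → GamC n 1 n 2) '' (I ∩ J)) : Subgroup (GamC n 1 n 2)) := by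
  rcases hn.eq_or_lt with rfl | hn
  · exact cqC2
  · exact cqC' n hn

end Pool.Agent.Lib.MP_c2d01e_co.Ex.CqC2
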