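import Pool.Agent.Lib.MP_c2d01e_co.Ex.InfCN
import Pool.Agent.Lib.MP_c2d01e_co.Ex.CqC
import Pool.Agent.Lib.MP_c2d01e_co.Ex.ActN

/-!
# The groups of family (C) with the vectors `(n,0,0,0)`, `(n,n,0,0)`, `n ≥ 3`, are string C-groups (helper4)
-/

set_option autoImplicit false

namespace Pool.Agent.Lib.MP_c2d01e_co.Ex.CqCN4

open Subgroup CGroup CGroupC TrC Fi EqDefs
open Pool.Agent.Lib.MP_c2d01e_co.Ex.ActN Pool.Agent.Lib.MP_c2d01e_co.ExHom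

theorem PX_rC (n : ℕ) (i : Fin 6) (v : V) :
    rC (PX n 0) (PX n 1) (PX n 2) (PX n 3) (PX n 4) (PX n 5) i (piN n v) =
      piN n (CGroupC.C i v) := by
  fin_cases i
  · exact PX_pi n 2 v
  · exact PX_pi n 3 v
  · exact PX_pi n 4 v
  · exact PX_pi n 5 v
  · show (PX n 1 * (PX n 2 * (PX n 3 * PX n 4 * PX n 3) * PX n 2) * PX n 1) (piN n v) =
      piN n (CGroupC.C 4 v)
    rw [CGroupC.C_four]
    simp only [Equiv.Perm.mul_apply, PX_pi]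
  · exact PX_pi n 0 v

/-- The group with the vectors `(n,0,0,0)`, `(n,n,0,0)` acts on the lattice modulo `n N`. -/
theorem actCN (n : ℕ) : ∃ φ : GamC n 1 n 2 →* Equiv.Perm (XN n),
    ∀ i v, φ (PresentedGroup.of i) (piN n v) = piN n (CGroupC.C i v) :=
  ⟨PresentedGroup.toGroup (liftC1 (relX n) n (X_pow n)), fun i v => by
    rw [PresentedGroup.toGroup.of]
    exact PX_rC n i v⟩

/-- Two vectors with the same image differ by an element of `n N`. -/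
theorem sepN (n : ℕ) : InfCN.Sep (piN n) n := by
  intro v w h
  have h1 : -w + v ∈ NN n := QuotientAddGroup.eq.1 h.symm
  obtain ⟨u, hu, hvu⟩ := h1
  have h2 : v - w = (n : ℤ) • u := by rw [← hvu]; abel
  rw [h2]
  obtain ⟨⟨p, x, y, z⟩, a, b⟩ := u
  simp only [inN, Bool.and_eq_true, beq_iff_eq] at hu
  obtain ⟨⟨⟨u1, u2⟩, u3⟩, u4⟩ := hu
  obtain ⟨p', hp⟩ : (2 : ℤ) ∣ p := Int.dvd_of_emod_eq_zero u1
  obtain ⟨s', hs⟩ : (2 : ℤ) ∣ x + y + z := Int.dvd_of_emod_eq_zero u2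
  obtain ⟨a', ha⟩ : (2 : ℤ) ∣ a := Int.dvd_of_emod_eq_zero u3
  obtain ⟨b', hb⟩ : (2 : ℤ) ∣ b := Int.dvd_of_emod_eq_zero u4
  refine ⟨⟨p', ?_⟩, ⟨x, ?_⟩, ⟨y, ?_⟩, ⟨z, ?_⟩, ⟨s', ?_⟩, ⟨a', ?_⟩, ⟨b', ?_⟩⟩
  · show (n : ℤ) * p = _
    rw [hp]; ring
  · rfl
  · rfl
  · rfl
  · show (n : ℤ) * x + n * y + n * z = _
    linear_combination (n : ℤ) * hs
  · show (n : ℤ) * a = _
    rw [ha]; ring
  · show (n : ℤ) * b = _
    rw [hb]; ring

theorem rel_wV2 (n : ℕ) :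
    Fi.lp (fun i => (PresentedGroup.of i : GamC n 1 n 2)) wV2 ^ n = 1 := by
  have h2 : PresentedGroup.mk (relsC n 1 n 2) (vertC n 2) = 1 :=
    PresentedGroup.one_of_mem (Or.inr (Or.inr rfl))
  rw [vertC, if_neg (by norm_num), if_pos rfl, map_pow, pow_mul] at h2
  rw [← h2]
  congr 1

/-- The intersection of the two infinite parabolic subgroups, all `n`. -/
theorem hinfCN {n : ℕ} (hn : n ≠ 0) (w : GamC n 1 n 2)
    (h0 : w ∈ closure ((PresentedGroup.of : Fin 6 → GamC n 1 n 2) ''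
      ({0, 1, 2, 3, 4} : Set (Fin 6))))
    (h1 : w ∈ closure ((PresentedGroup.of : Fin 6 → GamC n 1 n 2) ''
      ({1, 2, 3, 4, 5} : Set (Fin 6)))) :
    w ∈ closure ((PresentedGroup.of : Fin 6 → GamC n 1 n 2) ''
      ({1, 2, 3, 4} : Set (Fin 6))) := by
  obtain ⟨φ, hφ⟩ := actCN n
  exact InfCN.infCN φ (piN n) hφ (cx_of n 1 n 2) hn (sepN n) (rel_wV2 n) w h0 h1

/-- C_Q for all `n ≥ 3`: string C-groups of family (C). -/
theorem cqC' (n : ℕ) (hn3 : 3 ≤ n) :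
    Function.Injective (PresentedGroup.of : Fin 6 → GamC n 1 n 2) ∧
    (∀ i, (PresentedGroup.of i : GamC n 1 n 2) ≠ 1) ∧
    ∀ I J : Set (Fin 6),
      closure ((PresentedGroup.of : Fin 6 → GamC n 1 n 2) '' I) ⊓
        closure ((PresentedGroup.of : Fin 6 → GamC n 1 n 2) '' J) =
      (closure ((PresentedGroup.of : Fin 6 → GamC n 1 n 2) '' (I ∩ J)) : Subgroup (GamC n 1 n 2)) := by
  obtain ⟨φ, hφ⟩ := ExHom.actC1 n
  have hπ : ∀ v w, CGroupB.nearB v w = true → CGroup.pi n v ≠ CGroup.pi n w :=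
    fun v w hvw => CGroupB.nearB_pi n hn3 v w hvw
  exact ⟨CGroupC.injective φ (CGroup.pi n) hφ hπ, CGroupC.ne_one φ (CGroup.pi n) hφ hπ,
    CGroupC.interC (ExHom.of_coxC n 1 n 2) φ (CGroup.pi n) hφ hπ
      (fun w h0 h1 => hinfCN (by omega) w h0 h1)⟩

end Pool.Agent.Lib.MP_c2d01e_co.Ex.CqCN4
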