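import Mathlib

/-!
# A group generated by commuting translations and a finite part

If the four commuting elements `u 0, .., u 3` span a subgroup normalized by the set `S`, and `b` is
a product of an element of that subgroup and one of `closure S`, then every element of the group
generated by `b` and `S` is a product of powers of the `u i` and an element of `closure S`.
-/

namespace Pool.Agent.Lib.MP_c2d01e_co.Ex

variable {G : Type*} [Group G]

/-- The product of the powers of four elements. -/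
def pw (u : Fin 4 → G) (a : Fin 4 → ℤ) : G :=
  u 0 ^ a 0 * u 1 ^ a 1 * u 2 ^ a 2 * u 3 ^ a 3

theorem pw_zero (u : Fin 4 → G) : pw u 0 = 1 := by simp [pw]

theorem pw_single (u : Fin 4 → G) (i : Fin 4) : pw u (Pi.single i 1) = u i := by
  fin_cases i <;> simp [pw]

theorem pw_add (u : Fin 4 → G) (hc : ∀ i j, Commute (u i) (u j)) (a b : Fin 4 → ℤ) :
    pw u (a + b) = pw u a * pw u b := by
  have c1 : ∀ i j (m n : ℤ), u i ^ m * u j ^ n = u j ^ n * u i ^ m :=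
    fun i j m n => ((hc i j).zpow_zpow m n).eq
  unfold pw
  simp only [Pi.add_apply, zpow_add]
  calc u 0 ^ a 0 * u 0 ^ b 0 * (u 1 ^ a 1 * u 1 ^ b 1) * (u 2 ^ a 2 * u 2 ^ b 2)
        * (u 3 ^ a 3 * u 3 ^ b 3)
      = u 0 ^ a 0 * (u 0 ^ b 0 * u 1 ^ a 1) * u 1 ^ b 1 * u 2 ^ a 2 * (u 2 ^ b 2
        * u 3 ^ a 3) * u 3 ^ b 3 := by group
    _ = u 0 ^ a 0 * (u 1 ^ a 1 * u 0 ^ b 0) * u 1 ^ b 1 * u 2 ^ a 2 * (u 3 ^ a 3
        * u 2 ^ b 2) * u 3 ^ b 3 := by rw [c1 0 1, c1 2 3]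
    _ = u 0 ^ a 0 * u 1 ^ a 1 * u 0 ^ b 0 * (u 1 ^ b 1 * u 2 ^ a 2) * u 3 ^ a 3
        * u 2 ^ b 2 * u 3 ^ b 3 := by group
    _ = u 0 ^ a 0 * u 1 ^ a 1 * u 0 ^ b 0 * (u 2 ^ a 2 * u 1 ^ b 1) * u 3 ^ a 3
        * u 2 ^ b 2 * u 3 ^ b 3 := by rw [c1 1 2]
    _ = u 0 ^ a 0 * u 1 ^ a 1 * (u 0 ^ b 0 * u 2 ^ a 2) * (u 1 ^ b 1 * u 3 ^ a 3)
        * u 2 ^ b 2 * u 3 ^ b 3 := by group
    _ = u 0 ^ a 0 * u 1 ^ a 1 * (u 2 ^ a 2 * u 0 ^ b 0) * (u 3 ^ a 3 * u 1 ^ b 1)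
        * u 2 ^ b 2 * u 3 ^ b 3 := by rw [c1 0 2, c1 1 3]
    _ = u 0 ^ a 0 * u 1 ^ a 1 * u 2 ^ a 2 * (u 0 ^ b 0 * u 3 ^ a 3) * u 1 ^ b 1
        * u 2 ^ b 2 * u 3 ^ b 3 := by group
    _ = u 0 ^ a 0 * u 1 ^ a 1 * u 2 ^ a 2 * (u 3 ^ a 3 * u 0 ^ b 0) * u 1 ^ b 1
        * u 2 ^ b 2 * u 3 ^ b 3 := by rw [c1 0 3]
    _ = _ := by group

theorem pw_neg (u : Fin 4 → G) (hc : ∀ i j, Commute (u i) (u j)) (a : Fin 4 → ℤ) :
    pw u (-a) = (pw u a)⁻¹ := by
  have h := pw_add u hc (-a) a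
  rw [neg_add_cancel, pw_zero] at h
  exact eq_inv_of_mul_eq_one_left h.symm

/-- The subgroup of all products of powers of the four elements. -/
def Sp (u : Fin 4 → G) (hc : ∀ i j, Commute (u i) (u j)) : Subgroup G where
  carrier := {x | ∃ a, x = pw u a}
  mul_mem' := by
    rintro x y ⟨a, rfl⟩ ⟨b, rfl⟩
    exact ⟨a + b, (pw_add u hc a b).symm⟩
  one_mem' := ⟨0, (pw_zero u).symm⟩
  inv_mem' := by
    rintro x ⟨a, rfl⟩
    exact ⟨-a, (pw_neg u hc a).symm⟩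

theorem mem_Sp (u : Fin 4 → G) (hc : ∀ i j, Commute (u i) (u j)) (x : G) :
    x ∈ Sp u hc ↔ ∃ a, x = pw u a := Iff.rfl

theorem u_mem (u : Fin 4 → G) (hc : ∀ i j, Commute (u i) (u j)) (i : Fin 4) : u i ∈ Sp u hc :=
  ⟨Pi.single i 1, (pw_single u i).symm⟩

theorem conj_mem (u : Fin 4 → G) (hc : ∀ i j, Commute (u i) (u j)) (g : G)
    (h : ∀ i, g * u i * g⁻¹ ∈ Sp u hc) {x : G} (hx : x ∈ Sp u hc) : g * x * g⁻¹ ∈ Sp u hc := by
  obtain ⟨a, rfl⟩ := hx
  have e : g * pw u a * g⁻¹ = (g * u 0 * g⁻¹) ^ a 0 * (g * u 1 * g⁻¹) ^ a 1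
      * (g * u 2 * g⁻¹) ^ a 2 * (g * u 3 * g⁻¹) ^ a 3 := by
    simp only [conj_zpow, pw]
    group
  rw [e]
  exact mul_mem (mul_mem (mul_mem (zpow_mem (h 0) _) (zpow_mem (h 1) _)) (zpow_mem (h 2) _))
    (zpow_mem (h 3) _)

/-- **Factorization**: `S` consists of involutions normalizing the span of the `u i`, and `b` is a
product of an element of the span and an element of `closure S`. -/
theorem faw (u : Fin 4 → G) (hc : ∀ i j, Commute (u i) (u j)) (S : Set G) (b : G)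
    (hS : ∀ g ∈ S, g * g = 1) (hn : ∀ g ∈ S, ∀ i, g * u i * g ∈ Sp u hc)
    (hb : b * b = 1) (hbw : ∃ a ∈ Sp u hc, ∃ w ∈ Subgroup.closure S, b = a * w)
    {x : G} (hx : x ∈ Subgroup.closure (insert b S)) :
    ∃ a : Fin 4 → ℤ, ∃ w ∈ Subgroup.closure S, x = pw u a * w := by
  have iS : ∀ g ∈ S, g⁻¹ = g := fun g hg => inv_eq_of_mul_eq_one_left (hS g hg)
  -- the elements of closure S normalize the span
  have nW : ∀ w ∈ Subgroup.closure S, ∀ y ∈ Sp u hc, w * y * w⁻¹ ∈ Sp u hc := by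
    intro w hw
    refine Subgroup.closure_induction (p := fun w _ => ∀ y ∈ Sp u hc, w * y * w⁻¹ ∈ Sp u hc)
      ?_ ?_ ?_ ?_ hw
    · intro g hg y hy
      refine conj_mem u hc g (fun i => ?_) hy
      have := hn g hg i
      rwa [iS g hg]
    · intro y hy
      simpa using hy
    · intro v w _ _ hv hw y hy
      have h1 := hv _ (hw y hy)
      have e : v * w * y * (v * w)⁻¹ = v * (w * y * w⁻¹) * v⁻¹ := by group
      rw [e]
      exact h1
    · intro v hv ih y hy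
      -- conjugation by the inverse: generated by involutions
      have key : ∀ v ∈ Subgroup.closure S, ∀ y ∈ Sp u hc, v⁻¹ * y * v ∈ Sp u hc := by
        intro v hv
        refine Subgroup.closure_induction (p := fun v _ => ∀ y ∈ Sp u hc, v⁻¹ * y * v ∈ Sp u hc ∧
          v * y * v⁻¹ ∈ Sp u hc) ?_ ?_ ?_ ?_ hv |> fun H => fun y hy => (H y hy).1
        · intro g hg y hy
          have h1 : g * y * g⁻¹ ∈ Sp u hc := by
            refine conj_mem u hc g (fun i => ?_) hy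
            have := hn g hg i
            rwa [iS g hg]
          refine ⟨?_, h1⟩
          rw [iS g hg] at h1 ⊢
          exact h1
        · intro y hy
          exact ⟨by simpa using hy, by simpa using hy⟩
        · intro v w _ _ hv hw y hy
          refine ⟨?_, ?_⟩
          · have e : (v * w)⁻¹ * y * (v * w) = w⁻¹ * (v⁻¹ * y * v) * w := by group
            rw [e]
            exact (hw _ (hv y hy).1).1
          · have e : v * w * y * (v * w)⁻¹ = v * (w * y * w⁻¹) * v⁻¹ := by group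
            rw [e]
            exact (hv _ (hw y hy).2).2
        · intro v _ hv y hy
          refine ⟨?_, ?_⟩
          · rw [inv_inv]
            exact (hv y hy).2
          · rw [inv_inv]
            exact (hv y hy).1
      rw [inv_inv]
      exact key v hv y hy
  -- the set of products is a subgroup containing the generators
  have hgen : ∀ g ∈ insert b S, ∃ a ∈ Sp u hc, ∃ w ∈ Subgroup.closure S, g = a * w := by
    intro g hg
    rcases Set.mem_insert_iff.1 hg with rfl | hg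
    · exact hbw
    · exact ⟨1, one_mem _, g, Subgroup.subset_closure hg, (one_mul g).symm⟩
  have hinv : ∀ g ∈ insert b S, g⁻¹ = g := by
    intro g hg
    rcases Set.mem_insert_iff.1 hg with rfl | hg
    · exact inv_eq_of_mul_eq_one_left hb
    · exact iS g hg
  have hmul : ∀ x y : G, (∃ a ∈ Sp u hc, ∃ w ∈ Subgroup.closure S, x = a * w) →
      (∃ a ∈ Sp u hc, ∃ w ∈ Subgroup.closure S, y = a * w) →
      ∃ a ∈ Sp u hc, ∃ w ∈ Subgroup.closure S, x * y = a * w := by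
    rintro _ _ ⟨a, ha, v, hv, rfl⟩ ⟨a', ha', w, hw, rfl⟩
    refine ⟨a * (v * a' * v⁻¹), mul_mem ha (nW v hv a' ha'), v * w, mul_mem hv hw, ?_⟩
    group
  have main : ∃ a ∈ Sp u hc, ∃ w ∈ Subgroup.closure S, x = a * w := by
    refine Subgroup.closure_induction
      (p := fun x _ => ∃ a ∈ Sp u hc, ∃ w ∈ Subgroup.closure S, x = a * w) ?_ ?_ ?_ ?_ hx
    · exact hgen
    · exact ⟨1, one_mem _, 1, one_mem _, by simp⟩
    · intro x y _ _ h1 h2
      exact hmul x y h1 h2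
    · rintro y _ ⟨a, ha, w, hw, rfl⟩
      refine ⟨w⁻¹ * a⁻¹ * (w⁻¹)⁻¹, nW w⁻¹ (inv_mem hw) a⁻¹ (inv_mem ha), w⁻¹, inv_mem hw, ?_⟩
      group
  obtain ⟨a, ⟨k, rfl⟩, w, hw, e⟩ := main
  exact ⟨k, w, hw, e⟩

/-- Powers of conjugates. -/
theorem conj_pow_one {g T : G} {s : ℕ} (h : T ^ s = 1) : (g * T * g⁻¹) ^ s = 1 := by
  rw [conj_pow, h]
  group

end Pool.Agent.Lib.MP_c2d01e_co.Ex
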