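import Pool.Agent.Lib.MP_c2d01e_co.Ex.Emb
import Pool.Agent.Lib.MP_c2d01e_co.Ex.InfP
import Pool.Agent.Lib.MP_c2d01e_co.Ex.InfQ
import Pool.Agent.Lib.MP_c2d01e_co.Ex.WrdQ
import Pool.Agent.Lib.MP_c2d01e_co.Ex.Hom

/-!
# The facet groups and the vertex-figure groups of family (B) embed

`g 0, …, g 4` satisfy the relations of `[3,3,4,3]` and act on the lattice modulo `s` by `B 0, …, B 4`
(facets) or by `B 5, …, B 1` (vertex-figures). An element acting trivially is trivial as soon as the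
translations in the kernel lattice are trivial.
-/

set_option autoImplicit false

namespace Pool.Agent.Lib.MP_c2d01e_co.Ex

open Subgroup EqDefs CGroupB CGroup
open Pool.Agent.Lib.MP_c2d01e_co.Ex.Wrd (Cox ev pp)
open Pool.Agent.Lib.MP_c2d01e_co.Ex.WrdQ (tq trq)

/-- The reflections, numbered by natural numbers. -/
def bF (i : ℕ) (v : V) : V := if h : i < 6 then B ⟨i, h⟩ v else v

/-- The reflections in the reverse order, conjugated by `R 0`. -/
def bV (i : ℕ) (v : V) : V := R 0 (bF (5 - i) (R 0 v))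

theorem B_add (i : Fin 6) (v w : V) : B i (v + w) = B i v + B i w := by
  fin_cases i
  · exact R_add 1 v w
  · exact R_add 2 v w
  · exact R_add 3 v w
  · exact R_add 4 v w
  · exact R_add 5 v w
  · change B 5 (v + w) = B 5 v + B 5 w
    simp only [B_five, R_add]

theorem B_smul (i : Fin 6) (c : ℤ) (v : V) : B i (c • v) = c • B i v := by
  fin_cases i
  · exact R_smul 1 c v
  · exact R_smul 2 c v
  · exact R_smul 3 c v
  · exact R_smul 4 c v
  · exact R_smul 5 c v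
  · change B 5 (c • v) = c • B 5 v
    simp only [B_five, R_smul]

theorem bF_add (i : ℕ) (v w : V) : bF i (v + w) = bF i v + bF i w := by
  unfold bF
  split_ifs
  · exact B_add _ v w
  · rfl

theorem bF_smul (i : ℕ) (c : ℤ) (v : V) : bF i (c • v) = c • bF i v := by
  unfold bF
  split_ifs
  · exact B_smul _ c v
  · rfl

theorem bV_add (i : ℕ) (v w : V) : bV i (v + w) = bV i v + bV i w := by
  simp only [bV, R_add, bF_add]

theorem bV_smul (i : ℕ) (c : ℤ) (v : V) : bV i (c • v) = c • bV i v := by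
  simp only [bV, R_smul, bF_smul]

theorem foldr_add {β : ℕ → V → V} (ha : ∀ i v w, β i (v + w) = β i v + β i w) (l : List ℕ)
    (v w : V) : l.foldr β (v + w) = l.foldr β v + l.foldr β w := by
  induction l with
  | nil => rfl
  | cons i l ih => rw [List.foldr_cons, List.foldr_cons, List.foldr_cons, ih, ha]

theorem foldr_smul {β : ℕ → V → V} (hs : ∀ i (c : ℤ) v, β i (c • v) = c • β i v) (l : List ℕ)
    (c : ℤ) (v : V) : l.foldr β (c • v) = c • l.foldr β v := by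
  induction l with
  | nil => rfl
  | cons i l ih => rw [List.foldr_cons, List.foldr_cons, ih, hs]

/-- The basis of the lattice. -/
def bs (k : Fin 6) : V :=
  ![((1, 0, 0, 0), 0, 0), ((0, 1, 0, 0), 0, 0), ((0, 0, 1, 0), 0, 0), ((0, 0, 0, 1), 0, 0),
    ((0, 0, 0, 0), 1, 0), ((0, 0, 0, 0), 0, 1)] k

theorem bs_sum (v : V) : v = v.1.1 • bs 0 + (v.1.2.1 • bs 1 + (v.1.2.2.1 • bs 2 +
    (v.1.2.2.2 • bs 3 + (v.2.1 • bs 4 + v.2.2 • bs 5)))) := by
  obtain ⟨⟨p, x, y, z⟩, a, b⟩ := v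
  simp [bs]

theorem E_add' (y : H4) (v w : V) : E y (v + w) = E y v + E y w := by
  obtain ⟨⟨p, x, y1, z⟩, a, b⟩ := v
  obtain ⟨⟨p', x', y', z'⟩, a', b'⟩ := w
  obtain ⟨q, q1, q2, q3⟩ := y
  simp only [E, bil, nm, Prod.smul_mk, Prod.mk_add_mk, smul_eq_mul, Prod.mk.injEq]
  refine ⟨⟨?_, ?_, ?_, ?_⟩, ?_, ?_⟩ <;> first | trivial | ring

theorem E_smul' (y : H4) (c : ℤ) (v : V) : E y (c • v) = c • E y v := by
  obtain ⟨⟨p, x, y1, z⟩, a, b⟩ := v
  obtain ⟨q, q1, q2, q3⟩ := y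
  simp only [E, bil, nm, Prod.smul_mk, Prod.mk_add_mk, smul_eq_mul, Prod.mk.injEq]
  refine ⟨⟨?_, ?_, ?_, ?_⟩, ?_, ?_⟩ <;> first | trivial | ring

theorem foldr_E {β : ℕ → V → V} (ha : ∀ i v w, β i (v + w) = β i v + β i w)
    (hs : ∀ i (c : ℤ) v, β i (c • v) = c • β i v) (l : List ℕ) (y : H4)
    (h : ∀ k, l.foldr β (bs k) = E y (bs k)) (v : V) : l.foldr β v = E y v := by
  rw [bs_sum v]
  simp only [foldr_add ha, foldr_smul hs, E_add', E_smul', h]

/-- The vectors of the four translations of the facets. -/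
def yF (k : Fin 4) : H4 := ![(2, -1, -1, -1), (0, 1, 0, 0), (0, 0, 1, 0), (1, 0, 0, 0)] k

/-- The vectors of the four translations of the vertex-figures. -/
def yV (k : Fin 4) : H4 := ![(2, 0, -1, -1), (2, -2, -1, -1), (0, 0, 1, 1), (2, -1, 0, -1)] k

theorem tF (j : Fin 4) (v : V) : (tq j).foldr bF v = E (yF j) v :=
  foldr_E bF_add bF_smul (tq j) (yF j) (by revert j; decide +kernel) v

theorem tV (j : Fin 4) (v : V) : (tq j).foldr bV v = E (yV j) v :=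
  foldr_E bV_add bV_smul (tq j) (yV j) (by revert j; decide +kernel) v

section core

variable {P : Type*} [Group P] (g : ℕ → P)

theorem ev_act {s : ℕ} (φ : P →* Equiv.Perm (VN s)) (β : ℕ → V → V)
    (hφ : ∀ i < 5, ∀ v, φ (g i) (pi s v) = pi s (β i v)) (l : List ℕ) (hl : ∀ i ∈ l, i < 5)
    (v : V) : φ (ev g l) (pi s v) = pi s (l.foldr β v) := by
  induction l with
  | nil => rw [Wrd.ev_nil, map_one]; rfl
  | cons i l ih =>
    rw [Wrd.ev_cons, map_mul, Equiv.Perm.mul_apply, ih fun j hj => hl j (List.mem_cons_of_mem _ hj),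
      hφ i (hl i List.mem_cons_self), List.foldr_cons]

omit [Group P] in
theorem gsetF : (fun i : Fin 6 => g i) '' ({1, 2, 3, 4} : Set (Fin 6)) = {g 1, g 2, g 3, g 4} := by
  simp [Set.image_insert_eq]

omit [Group P] in
theorem gsetV : (fun i : Fin 6 => g (5 - (i : ℕ))) '' ({1, 2, 3, 4} : Set (Fin 6)) =
    {g 1, g 2, g 3, g 4} := by
  have : ({g 1, g 2, g 3, g 4} : Set P) = {g 4, g 3, g 2, g 1} := by
    ext x
    simp only [Set.mem_insert_iff, Set.mem_singleton_iff]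
    tauto
  rw [this]
  simp [Set.image_insert_eq]

theorem coxF : ∀ i j : Fin 6, i ≠ 5 → j ≠ 5 → coxB i j = Wrd.cx i j := by decide

theorem coxV : ∀ i j : Fin 6, i ≠ 0 → j ≠ 0 → coxB i j = Wrd.cx (5 - (i : ℕ)) (5 - (j : ℕ)) := by
  decide

/-- **Facets**: an element acting trivially is trivial. -/
theorem coreF {s : ℕ} (hs : 3 ≤ s) (h : Cox g) (φ : P →* Equiv.Perm (VN s))
    (hφ : ∀ i : Fin 6, i ≠ 5 → ∀ v, φ (g i) (pi s v) = pi s (B i v)) (x : P)
    (hx : x ∈ closure {g 0, g 1, g 2, g 3, g 4}) (h1 : φ x = 1)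
    (hA : ∀ (a : Fin 4 → ℤ), ∀ w ∈ closure {g 1, g 2, g 3, g 4}, x = pp (trq g) a * w →
      (∀ i, (s : ℤ) ∣ a i) → pp (trq g) a = 1) : x = 1 := by
  obtain ⟨a, w, hw, e⟩ := WrdQ.decomp g h hx
  have hr : ∀ i ∈ ({0, 1, 2, 3, 4} : Finset (Fin 6)), ∀ j ∈ ({0, 1, 2, 3, 4} : Finset (Fin 6)),
      ((fun i : Fin 6 => g i) i * (fun i : Fin 6 => g i) j) ^ coxB i j = 1 := by
    intro i hi j hj
    have hi5 : i ≠ 5 := by rintro rfl; revert hi; decide
    have hj5 : j ≠ 5 := by rintro rfl; revert hj; decide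
    rw [coxF i j hi5 hj5]
    refine h i j ?_ ?_
    · revert hi5; revert i; decide
    · revert hj5; revert j; decide
  have hφS : ∀ i ∈ ({0, 1, 2, 3, 4} : Finset (Fin 6)), ∀ v,
      φ ((fun i : Fin 6 => g i) i) (pi s v) = pi s (B i v) := by
    intro i hi v
    refine hφ i ?_ v
    rintro rfl
    revert hi
    decide
  have hbF : ∀ i < 5, ∀ v, φ (g i) (pi s v) = pi s (bF i v) := by
    intro i hi v
    rw [bF, dif_pos (by omega)]
    refine hφ ⟨i, by omega⟩ ?_ v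
    intro e
    have := congrArg Fin.val e
    norm_num at this
    omega
  have hw' : w ∈ closure ((fun i : Fin 6 => g i) '' ({1, 2, 3, 4} : Set (Fin 6))) := by
    rw [gsetF]; exact hw
  have hw'' : w ∈ closure ((fun i : Fin 6 => g i) '' (({1, 2, 3, 4} : Finset (Fin 6)) :
      Set (Fin 6))) := by simpa using hw'
  have f1 := fix_of_notMem hr φ (pi s) hφS {1, 2, 3, 4} (by decide) 0 (by decide) w hw''
  have f2 : φ (pp (trq g) a) (pi s (fvB 0)) = pi s (fvB 0) := by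
    have h2 : φ x (pi s (fvB 0)) = pi s (fvB 0) := by rw [h1]; rfl
    rw [e, map_mul, Equiv.Perm.mul_apply, f1] at h2
    exact h2
  have ht : ∀ k v, φ (trq g k) (pi s v) = pi s (E (yF k) v) := by
    intro k v
    rw [trq, ev_act g φ bF hbF (tq k) (WrdQ.tq_lt k), tF]
  rw [pp, prod_E φ ht] at f2
  obtain ⟨e1, e2, e3, e4⟩ := dvd_of_fix f2
  simp only [yF, Matrix.cons_val_zero, Matrix.cons_val_one, Matrix.cons_val, Prod.smul_mk,
    smul_eq_mul, Prod.mk_add_mk] at e1 e2 e3 e4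
  have d0 : (s : ℤ) ∣ a 0 := by
    have : a 0 = -(a 0 * -1 + a 1 * 0 + a 2 * 0 + a 3 * 0) := by ring
    rw [this]; exact e4.neg_right
  have d1 : (s : ℤ) ∣ a 1 := by
    have : a 1 = (a 0 * -1 + a 1 * 1 + a 2 * 0 + a 3 * 0) + a 0 := by ring
    rw [this]; exact dvd_add e2 d0
  have d2 : (s : ℤ) ∣ a 2 := by
    have : a 2 = (a 0 * -1 + a 1 * 0 + a 2 * 1 + a 3 * 0) + a 0 := by ring
    rw [this]; exact dvd_add e3 d0
  have d3 : (s : ℤ) ∣ a 3 := by
    have : a 3 = (a 0 * 2 + a 1 * 0 + a 2 * 0 + a 3 * 1) - 2 * a 0 := by ring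
    rw [this]; exact dvd_sub e1 (d0.mul_left 2)
  have ht1 := hA a w hw e (by intro i; fin_cases i <;> assumption)
  rw [ht1, one_mul] at e
  rw [e]
  exact trivW hr (by decide) φ (pi s) hφS (nearB_pi s hs) w hw' (by rw [← e]; exact h1)

theorem dvd_of_fix' {s : ℕ} {y : H4}
    (h : pi s (E y ((0, 0, 0, 0), 0, -1)) = pi s ((0, 0, 0, 0), 0, -1)) :
    (s : ℤ) ∣ y.1 ∧ (s : ℤ) ∣ y.2.1 ∧ (s : ℤ) ∣ y.2.2.1 ∧ (s : ℤ) ∣ y.2.2.2 := by
  obtain ⟨p, q, r, t⟩ := y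
  have e : ∀ x : ℤ, (((0 + -1 * x : ℤ)) : ZMod s) = ((0 : ℤ) : ZMod s) → (s : ℤ) ∣ x := by
    intro x hx
    rw [← ZMod.intCast_zmod_eq_zero_iff_dvd]
    simpa using hx
  have h0 := congrArg Prod.fst h
  have h1 := congrArg Prod.fst h0
  have h2 := congrArg (fun x => x.2.1) h0
  have h3 := congrArg (fun x => x.2.2.1) h0
  have h4 := congrArg (fun x => x.2.2.2) h0
  exact ⟨e _ h1, e _ h2, e _ h3, e _ h4⟩

/-- **Vertex-figures**: an element acting trivially is trivial. -/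
theorem coreV {s : ℕ} (hs : 3 ≤ s) (h : Cox g) (φ : P →* Equiv.Perm (VN s))
    (hφ : ∀ i : Fin 6, i ≠ 0 → ∀ v, φ (g (5 - (i : ℕ))) (pi s v) = pi s (B i v)) (x : P)
    (hx : x ∈ closure {g 0, g 1, g 2, g 3, g 4}) (h1 : φ x = 1)
    (hA : ∀ (a : Fin 4 → ℤ), (s : ℤ) ∣ 2 * a 0 → (s : ℤ) ∣ 2 * a 1 → (s : ℤ) ∣ a 2 - a 0 - a 1 →
      (s : ℤ) ∣ a 3 → pp (trq g) a = 1) : x = 1 := by
  obtain ⟨a, w, hw, e⟩ := WrdQ.decomp g h hx
  have hr : ∀ i ∈ ({1, 2, 3, 4, 5} : Finset (Fin 6)), ∀ j ∈ ({1, 2, 3, 4, 5} : Finset (Fin 6)),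
      ((fun i : Fin 6 => g (5 - (i : ℕ))) i * (fun i : Fin 6 => g (5 - (i : ℕ))) j) ^ coxB i j
        = 1 := by
    intro i hi j hj
    have hi5 : i ≠ 0 := by rintro rfl; revert hi; decide
    have hj5 : j ≠ 0 := by rintro rfl; revert hj; decide
    rw [coxV i j hi5 hj5]
    refine h (5 - (i : ℕ)) (5 - (j : ℕ)) ?_ ?_
    · revert hi5; revert i; decide
    · revert hj5; revert j; decide
  have hφS : ∀ i ∈ ({1, 2, 3, 4, 5} : Finset (Fin 6)), ∀ v,
      φ ((fun i : Fin 6 => g (5 - (i : ℕ))) i) (pi s v) = pi s (B i v) := by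
    intro i hi v
    refine hφ i ?_ v
    rintro rfl
    revert hi
    decide
  have hP : (PN s 0)⁻¹ = PN s 0 := inv_eq_of_mul_eq_one_left (PN_sq s 0)
  let φ' : P →* Equiv.Perm (VN s) := (MulAut.conj (PN s 0)).toMonoidHom.comp φ
  have hφ' : ∀ y, φ' y = PN s 0 * φ y * PN s 0 := by
    intro y
    change PN s 0 * φ y * (PN s 0)⁻¹ = _
    rw [hP]
  have hbV : ∀ i < 5, ∀ v, φ' (g i) (pi s v) = pi s (bV i v) := by
    intro i hi v
    rw [hφ', Equiv.Perm.mul_apply, Equiv.Perm.mul_apply, PN_pi, bV, bF, dif_pos (by omega)]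
    have h3 := hφ ⟨5 - i, by omega⟩ (by
      intro e
      have := congrArg Fin.val e
      norm_num at this
      omega) (R 0 v)
    have h4 : 5 - (5 - i) = i := by omega
    simp only [h4] at h3
    rw [h3, PN_pi]
  have hw' : w ∈ closure ((fun i : Fin 6 => g (5 - (i : ℕ))) '' ({1, 2, 3, 4} : Set (Fin 6))) := by
    rw [gsetV]; exact hw
  have hw'' : w ∈ closure ((fun i : Fin 6 => g (5 - (i : ℕ))) ''
      (({1, 2, 3, 4} : Finset (Fin 6)) : Set (Fin 6))) := by simpa using hw'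
  have f1 := fix_of_notMem hr φ (pi s) hφS {1, 2, 3, 4} (by decide) 5 (by decide) w hw''
  have f2 : φ (pp (trq g) a) (pi s (fvB 5)) = pi s (fvB 5) := by
    have h2 : φ x (pi s (fvB 5)) = pi s (fvB 5) := by rw [h1]; rfl
    rw [e, map_mul, Equiv.Perm.mul_apply, f1] at h2
    exact h2
  have f3 : φ' (pp (trq g) a) (pi s ((0, 0, 0, 0), 0, -1)) = pi s ((0, 0, 0, 0), 0, -1) := by
    have r1 : R 0 ((0, 0, 0, 0), 0, -1) = fvB 5 := by decide
    have r2 : R 0 (fvB 5) = ((0, 0, 0, 0), 0, -1) := by decide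
    rw [hφ', Equiv.Perm.mul_apply, Equiv.Perm.mul_apply, PN_pi, r1, f2, PN_pi, r2]
  have ht : ∀ k v, φ' (trq g k) (pi s v) = pi s (E (yV k) v) := by
    intro k v
    rw [trq, ev_act g φ' bV hbV (tq k) (WrdQ.tq_lt k), tV]
  rw [pp, prod_E φ' ht] at f3
  obtain ⟨e1, e2, e3, e4⟩ := dvd_of_fix' f3
  simp only [yV, Matrix.cons_val_zero, Matrix.cons_val_one, Matrix.cons_val, Prod.smul_mk,
    smul_eq_mul, Prod.mk_add_mk] at e1 e2 e3 e4
  have d3 : (s : ℤ) ∣ a 3 := by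
    have h5 := dvd_sub e3 e4
    have : a 3 = (a 0 * -1 + a 1 * -1 + a 2 * 1 + a 3 * 0) -
      (a 0 * -1 + a 1 * -1 + a 2 * 1 + a 3 * -1) := by ring
    rw [this]; exact h5
  have d1 : (s : ℤ) ∣ 2 * a 1 := by
    have : 2 * a 1 = -(a 0 * 0 + a 1 * -2 + a 2 * 0 + a 3 * -1) - a 3 := by ring
    rw [this]; exact dvd_sub e2.neg_right d3
  have d0 : (s : ℤ) ∣ 2 * a 0 := by
    have : 2 * a 0 = (a 0 * 2 + a 1 * 2 + a 2 * 0 + a 3 * 2) - 2 * a 1 - 2 * a 3 := by ring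
    rw [this]; exact dvd_sub (dvd_sub e1 d1) (d3.mul_left 2)
  have d2 : (s : ℤ) ∣ a 2 - a 0 - a 1 := by
    have : a 2 - a 0 - a 1 = (a 0 * -1 + a 1 * -1 + a 2 * 1 + a 3 * 0) := by ring
    rw [this]; exact e3
  have ht1 := hA a d0 d1 d2 d3
  rw [ht1, one_mul] at e
  rw [e]
  exact trivW hr (by decide) φ (pi s) hφS (nearB_pi s hs) w hw' (by rw [← e]; exact h1)

end core

end Pool.Agent.Lib.MP_c2d01e_co.Ex
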