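import Pool.Agent.Lib.MP_c2d01e_co.Ex.EmbB

/-!
# The facet groups and the vertex-figure groups of family (B) embed: the presented groups

Every relation between `ρ₀, …, ρ₄` (between `ρ₁, …, ρ₅`) in the group of family (B) with equal
lattices follows from the relators containing these generators only.
-/

set_option autoImplicit false

namespace Pool.Agent.Lib.MP_c2d01e_co.Ex

open Subgroup EqDefs CGroupB CGroup
open Pool.Agent.Lib.MP_c2d01e_co.Ex.Wrd (Cox ev pp)
open Pool.Agent.Lib.MP_c2d01e_co.Ex.WrdQ (tq trq)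

section sub

variable (R : Set (FreeGroup (Fin 6))) (c : Fin 5 → Fin 6)

/-- The relators containing only the generators with the numbers `c i`. -/
def SR : Set (FreeGroup (Fin 5)) := {r | FreeGroup.map c r ∈ R}

theorem lift_SR (w : FreeGroup (Fin 5)) :
    FreeGroup.lift (fun i => (PresentedGroup.of (c i) : PresentedGroup R)) w =
      PresentedGroup.mk R (FreeGroup.map c w) := by
  induction w using FreeGroup.induction_on with
  | C1 => simp
  | of i => simp [PresentedGroup.of]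
  | inv_of i h => simpa using h
  | mul x y hx hy => rw [map_mul, map_mul, map_mul, hx, hy]

/-- The natural map. -/
def nu : PresentedGroup (SR R c) →* PresentedGroup R :=
  PresentedGroup.toGroup (f := fun i => (PresentedGroup.of (c i) : PresentedGroup R)) (by
    intro r hr
    rw [lift_SR]
    exact PresentedGroup.one_of_mem hr)

theorem nu_of (i : Fin 5) : nu R c (PresentedGroup.of i) = PresentedGroup.of (c i) := by
  rw [nu, PresentedGroup.toGroup.of]

theorem nu_mk (w : FreeGroup (Fin 5)) :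
    nu R c (PresentedGroup.mk _ w) = PresentedGroup.mk R (FreeGroup.map c w) := by
  rw [← lift_SR]
  induction w using FreeGroup.induction_on with
  | C1 => simp
  | of i => simpa [PresentedGroup.of] using nu_of R c i
  | inv_of i h => simpa using h
  | mul x y hx hy => rw [map_mul, map_mul, map_mul, hx, hy]

/-- The conclusion for words from the injectivity of the natural map. -/
theorem words_of_inj (h : ∀ x, nu R c x = 1 → x = 1) (w : FreeGroup (Fin 5))
    (hw : FreeGroup.map c w ∈ normalClosure R) : w ∈ normalClosure (SR R c) := by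
  have h1 : PresentedGroup.mk R (FreeGroup.map c w) = 1 :=
    (QuotientGroup.eq_one_iff _).2 hw
  have h2 := h (PresentedGroup.mk _ w) (by rw [nu_mk]; exact h1)
  exact (QuotientGroup.eq_one_iff _).1 h2

/-- The generators, numbered by natural numbers through `e`. -/
def gg (e : ℕ → Fin 5) (i : ℕ) : PresentedGroup (SR R c) := PresentedGroup.of (e i)

end sub

/-- The numbering of the facets. -/
def eF (i : ℕ) : Fin 5 := if h : i < 5 then ⟨i, h⟩ else 0

/-- The numbering of the vertex-figures. -/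
def eV (i : ℕ) : Fin 5 := ⟨4 - i, by omega⟩

theorem ggen (R : Set (FreeGroup (Fin 6))) (c : Fin 5 → Fin 6) (e : ℕ → Fin 5)
    (he : ∀ k : Fin 5, ∃ i < 5, e i = k) (x : PresentedGroup (SR R c)) :
    x ∈ closure {gg R c e 0, gg R c e 1, gg R c e 2, gg R c e 3, gg R c e 4} := by
  have h1 : x ∈ (⊤ : Subgroup (PresentedGroup (SR R c))) := mem_top x
  rw [← PresentedGroup.closure_range_of] at h1
  refine closure_mono ?_ h1
  rintro y ⟨k, rfl⟩
  obtain ⟨i, hi, rfl⟩ := he k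
  have : i = 0 ∨ i = 1 ∨ i = 2 ∨ i = 3 ∨ i = 4 := by omega
  rcases this with rfl | rfl | rfl | rfl | rfl <;> simp [gg]

theorem heF (k : Fin 5) : ∃ i < 5, eF i = k := by
  refine ⟨k, k.isLt, ?_⟩
  rw [eF, dif_pos k.isLt]

theorem heV (k : Fin 5) : ∃ i < 5, eV i = k := by
  refine ⟨4 - k, by omega, ?_⟩
  apply Fin.ext
  change 4 - (4 - (k : ℕ)) = k
  omega

theorem rel_one (R : Set (FreeGroup (Fin 6))) (c : Fin 5 → Fin 6) (r : FreeGroup (Fin 5))
    (hr : FreeGroup.map c r ∈ R) : PresentedGroup.mk (SR R c) r = 1 :=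
  PresentedGroup.one_of_mem hr

theorem coxFF : ∀ i j : Fin 5, coxB (i.castSucc) (j.castSucc) = Wrd.cx i j := by decide

theorem coxVV : ∀ i j : Fin 5, coxB ((eV i).succ) ((eV j).succ) = Wrd.cx i j := by decide

theorem CoxF (s k t l : ℕ) : Cox (gg (relsB s k t l) Fin.castSucc eF) := by
  intro i j hi hj
  have h := rel_one (relsB s k t l) Fin.castSucc
    ((FreeGroup.of (⟨i, hi⟩ : Fin 5) * FreeGroup.of (⟨j, hj⟩ : Fin 5)) ^ Wrd.cx i j) (by
      left
      refine ⟨Fin.castSucc ⟨i, hi⟩, Fin.castSucc ⟨j, hj⟩, ?_⟩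
      rw [coxFF ⟨i, hi⟩ ⟨j, hj⟩]
      simp [EqDefs.gen])
  simp only [map_pow, map_mul] at h
  rw [gg, gg, eF, eF, dif_pos hi, dif_pos hj]
  exact h

theorem CoxV (s k t l : ℕ) : Cox (gg (relsB s k t l) Fin.succ eV) := by
  intro i j hi hj
  have h := rel_one (relsB s k t l) Fin.succ
    ((FreeGroup.of (eV i) * FreeGroup.of (eV j)) ^ Wrd.cx i j) (by
      left
      refine ⟨Fin.succ (eV i), Fin.succ (eV j), ?_⟩
      rw [coxVV ⟨i, hi⟩ ⟨j, hj⟩]
      simp [EqDefs.gen])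
  simp only [map_pow, map_mul] at h
  exact h

theorem facetF1 (s t l : ℕ) (g : ℕ → PresentedGroup (SR (relsB s 1 t l) Fin.castSucc))
    (hg : g = gg (relsB s 1 t l) Fin.castSucc eF) :
    (g 0 * (g 1 * g 2 * g 3 * g 2 * g 1) * (g 4 * g 3 * g 2 * g 3 * g 4) *
      (g 1 * g 2 * g 3 * g 2 * g 1)) ^ s = 1 := by
  subst hg
  have h := rel_one (relsB s 1 t l) Fin.castSucc
    ((FreeGroup.of 0 * (FreeGroup.of 1 * FreeGroup.of 2 * FreeGroup.of 3 * FreeGroup.of 2 *
      FreeGroup.of 1) * (FreeGroup.of 4 * FreeGroup.of 3 * FreeGroup.of 2 * FreeGroup.of 3 *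
      FreeGroup.of 4) * (FreeGroup.of 1 * FreeGroup.of 2 * FreeGroup.of 3 * FreeGroup.of 2 *
      FreeGroup.of 1)) ^ s) (by
      right; left
      rw [facetB, if_pos rfl]
      simp only [map_pow, map_mul, FreeGroup.map.of, sB, tB, EqDefs.gen]
      rfl)
  simp only [map_pow, map_mul] at h
  exact h

theorem facetF2 (n t l : ℕ) (g : ℕ → PresentedGroup (SR (relsB n 2 t l) Fin.castSucc))
    (hg : g = gg (relsB n 2 t l) Fin.castSucc eF) :
    (g 0 * (g 1 * g 2 * g 3 * g 2 * g 1) * (g 4 * g 3 * g 2 * g 3 * g 4)) ^ (2 * n) = 1 := by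
  subst hg
  have h := rel_one (relsB n 2 t l) Fin.castSucc
    ((FreeGroup.of 0 * (FreeGroup.of 1 * FreeGroup.of 2 * FreeGroup.of 3 * FreeGroup.of 2 *
      FreeGroup.of 1) * (FreeGroup.of 4 * FreeGroup.of 3 * FreeGroup.of 2 * FreeGroup.of 3 *
      FreeGroup.of 4)) ^ (2 * n)) (by
      right; left
      rw [facetB, if_neg (by norm_num)]
      simp only [map_pow, map_mul, FreeGroup.map.of, sB, tB, EqDefs.gen]
      rfl)
  simp only [map_pow, map_mul] at h
  exact h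

theorem vertV2 (s k m : ℕ) (g : ℕ → PresentedGroup (SR (relsB s k m 2) Fin.succ))
    (hg : g = gg (relsB s k m 2) Fin.succ eV) :
    (g 0 * (g 1 * g 2 * g 3 * g 2 * g 1) * (g 4 * g 3 * g 2 * g 3 * g 4)) ^ (2 * m) = 1 := by
  subst hg
  have h := rel_one (relsB s k m 2) Fin.succ
    ((FreeGroup.of 4 * (FreeGroup.of 3 * FreeGroup.of 2 * FreeGroup.of 1 * FreeGroup.of 2 *
      FreeGroup.of 3) * (FreeGroup.of 0 * FreeGroup.of 1 * FreeGroup.of 2 * FreeGroup.of 1 *
      FreeGroup.of 0)) ^ (2 * m)) (by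
      right; right
      rw [vertB, if_neg (by norm_num)]
      simp only [map_pow, map_mul, FreeGroup.map.of, sB, tB, EqDefs.gen]
      rfl)
  simp only [map_pow, map_mul] at h
  exact h

theorem vertV1 (s k n : ℕ) (g : ℕ → PresentedGroup (SR (relsB s k n 1) Fin.succ))
    (hg : g = gg (relsB s k n 1) Fin.succ eV) :
    (g 0 * (g 1 * g 2 * g 3 * g 2 * g 1) * (g 4 * g 3 * g 2 * g 3 * g 4) *
      (g 1 * g 2 * g 3 * g 2 * g 1)) ^ n = 1 := by
  subst hg
  have h := rel_one (relsB s k n 1) Fin.succ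
    ((FreeGroup.of 4 * (FreeGroup.of 3 * FreeGroup.of 2 * FreeGroup.of 1 * FreeGroup.of 2 *
      FreeGroup.of 3) * (FreeGroup.of 0 * FreeGroup.of 1 * FreeGroup.of 2 * FreeGroup.of 1 *
      FreeGroup.of 0) * (FreeGroup.of 3 * FreeGroup.of 2 * FreeGroup.of 1 * FreeGroup.of 2 *
      FreeGroup.of 3)) ^ n) (by
      right; right
      rw [vertB, if_pos rfl]
      simp only [map_pow, map_mul, FreeGroup.map.of, sB, tB, EqDefs.gen]
      rfl)
  simp only [map_pow, map_mul] at h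
  exact h

theorem pp_one_of {P : Type*} [Group P] {t : Fin 4 → P} {s : ℕ} (ht : ∀ j, t j ^ s = 1)
    (a : Fin 4 → ℤ) (ha : ∀ i, (s : ℤ) ∣ a i) : pp t a = 1 := by
  rw [pp, zpow_dvd (ht 0) (ha 0), zpow_dvd (ht 1) (ha 1), zpow_dvd (ht 2) (ha 2),
    zpow_dvd (ht 3) (ha 3)]
  simp

/-- **Facets, P-type**. -/
theorem embFP (m : ℕ) (hm : 2 ≤ m) (w : FreeGroup (Fin 5))
    (hw : FreeGroup.map Fin.castSucc w ∈ normalClosure (relsB (2 * m) 1 m 2)) :
    w ∈ normalClosure {r : FreeGroup (Fin 5) |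
      FreeGroup.map Fin.castSucc r ∈ relsB (2 * m) 1 m 2} := by
  refine words_of_inj _ _ (fun x hx => ?_) w hw
  obtain ⟨φ, hφ⟩ := ExHom.actB1 m
  set g := gg (relsB (2 * m) 1 m 2) Fin.castSucc eF with hg
  have h := CoxF (2 * m) 1 m 2
  refine coreF g (s := 2 * m) (by omega) h (φ.comp (nu _ _)) ?_ x (ggen _ _ _ heF x) ?_ ?_
  · intro i hi v
    have hi' : (i : ℕ) < 5 := by
      revert hi; revert i; decide
    rw [MonoidHom.comp_apply, hg, gg, nu_of, eF, dif_pos hi']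
    exact hφ _ v
  · rw [MonoidHom.comp_apply, hx, map_one]
  · intro a w _ _ ha
    exact pp_one_of (fun j => (WrdQ.tpow g h (2 * m) (facetF1 (2 * m) m 2 g hg) j).2) a
      (by exact_mod_cast ha)

theorem nuV (s k t l : ℕ) (i : Fin 6) (hi : i ≠ 0) :
    nu (relsB s k t l) Fin.succ (gg (relsB s k t l) Fin.succ eV (5 - (i : ℕ))) =
      PresentedGroup.of i := by
  rw [gg, nu_of]
  congr 1
  revert hi
  revert i
  decide

theorem nuF (s k t l : ℕ) (i : Fin 6) (hi : i ≠ 5) :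
    nu (relsB s k t l) Fin.castSucc (gg (relsB s k t l) Fin.castSucc eF i) =
      PresentedGroup.of i := by
  rw [gg, nu_of]
  congr 1
  revert hi
  revert i
  decide

theorem xr {P : Type*} [Group P] {T : Fin 4 → P} {m : ℕ} (h1 : T 1 ^ m = T 0 ^ m)
    (h2 : T 2 ^ m = T 0 ^ m) (h0 : T 0 ^ (2 * m) = 1) (h3 : T 3 ^ (2 * m) = 1) (hm : m ≠ 0)
    (a : Fin 4 → ℤ) (d0 : ((2 * m : ℕ) : ℤ) ∣ 2 * a 0) (d1 : ((2 * m : ℕ) : ℤ) ∣ 2 * a 1)
    (d2 : ((2 * m : ℕ) : ℤ) ∣ a 2 - a 0 - a 1) (d3 : ((2 * m : ℕ) : ℤ) ∣ a 3) : pp T a = 1 := by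
  push_cast at d0 d1
  obtain ⟨c0, e0⟩ := (mul_dvd_mul_iff_left (two_ne_zero' ℤ)).1 d0
  obtain ⟨c1, e1⟩ := (mul_dvd_mul_iff_left (two_ne_zero' ℤ)).1 d1
  obtain ⟨d, e2⟩ := d2
  push_cast at e2
  have e2' : a 2 = (m : ℤ) * (c0 + c1 + 2 * d) := by linear_combination e2 + e0 + e1
  rw [pp, zpow_dvd h3 d3, e0, e1, e2', zpow_mul, zpow_mul, zpow_mul, zpow_natCast, zpow_natCast,
    zpow_natCast, h1, h2, mul_one, ← zpow_add, ← zpow_add]
  have e : c0 + c1 + (c0 + c1 + 2 * d) = 2 * (c0 + c1 + d) := by ring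
  rw [e, zpow_mul]
  have h4 : (T 0 ^ m) ^ (2 : ℤ) = 1 := by
    have : (T 0 ^ m) ^ (2 : ℤ) = (T 0 ^ m) ^ (2 : ℕ) := by norm_cast
    rw [this, ← pow_mul, mul_comm m 2, h0]
  rw [h4, one_zpow]

/-- **Vertex-figures, P-type**. -/
theorem embVP (m : ℕ) (hm : 2 ≤ m) (w : FreeGroup (Fin 5))
    (hw : FreeGroup.map Fin.succ w ∈ normalClosure (relsB (2 * m) 1 m 2)) :
    w ∈ normalClosure {r : FreeGroup (Fin 5) |
      FreeGroup.map Fin.succ r ∈ relsB (2 * m) 1 m 2} := by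
  refine words_of_inj _ _ (fun x hx => ?_) w hw
  obtain ⟨φ, hφ⟩ := ExHom.actB1 m
  set g := gg (relsB (2 * m) 1 m 2) Fin.succ eV with hg
  have h := CoxV (2 * m) 1 m 2
  refine coreV g (s := 2 * m) (by omega) h (φ.comp (nu _ _)) ?_ x (ggen _ _ _ heV x) ?_ ?_
  · intro i hi v
    rw [MonoidHom.comp_apply, hg, nuV _ _ _ _ i hi]
    exact hφ _ v
  · rw [MonoidHom.comp_apply, hx, map_one]
  · intro a d0 d1 d2 d3
    obtain ⟨x1, x2, x0, x3⟩ := WrdQ.xrel g h m (vertV2 (2 * m) 1 m g hg)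
    exact xr x1 x2 x0 x3 (by omega) a d0 d1 d2 d3

theorem odd_dvd {n : ℕ} (hn : Odd n) {a : ℤ} (h : (n : ℤ) ∣ 2 * a) : (n : ℤ) ∣ a := by
  refine IsCoprime.dvd_of_dvd_mul_left ?_ h
  exact_mod_cast (Nat.isCoprime_iff_coprime.2 ((Nat.coprime_two_right).2 hn))

/-- **Vertex-figures, Q-type**. -/
theorem embVQ (n : ℕ) (hn : 3 ≤ n) (hodd : Odd n) (w : FreeGroup (Fin 5))
    (hw : FreeGroup.map Fin.succ w ∈ normalClosure (relsB n 2 n 1)) :
    w ∈ normalClosure {r : FreeGroup (Fin 5) | FreeGroup.map Fin.succ r ∈ relsB n 2 n 1} := by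
  refine words_of_inj _ _ (fun x hx => ?_) w hw
  obtain ⟨φ, hφ⟩ := ExHom.actB2 n
  set g := gg (relsB n 2 n 1) Fin.succ eV with hg
  have h := CoxV n 2 n 1
  refine coreV g (s := n) hn h (φ.comp (nu _ _)) ?_ x (ggen _ _ _ heV x) ?_ ?_
  · intro i hi v
    rw [MonoidHom.comp_apply, hg, nuV _ _ _ _ i hi]
    exact hφ _ v
  · rw [MonoidHom.comp_apply, hx, map_one]
  · intro a d0 d1 d2 d3
    have e0 := odd_dvd hodd d0
    have e1 := odd_dvd hodd d1
    have e2 : (n : ℤ) ∣ a 2 := by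
      have : a 2 = (a 2 - a 0 - a 1) + a 0 + a 1 := by ring
      rw [this]
      exact dvd_add (dvd_add d2 e0) e1
    exact pp_one_of (fun j => (WrdQ.tpow g h n (vertV1 n 2 n g hg) j).2) a
      (by intro i; fin_cases i <;> assumption)

theorem ev_hom {P Q : Type*} [Group P] [Group Q] (f : P →* Q) (g : ℕ → P) (q : ℕ → Q)
    (l : List ℕ) (h : ∀ i ∈ l, f (g i) = q i) : f (ev g l) = ev q l := by
  induction l with
  | nil => simp [Wrd.ev_nil]
  | cons i l ih =>
    rw [Wrd.ev_cons, Wrd.ev_cons, map_mul, h i List.mem_cons_self,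
      ih fun j hj => h j (List.mem_cons_of_mem _ hj)]

/-- The action on four points. -/
def q4 (i : ℕ) : Equiv.Perm (Fin 4) := if h : i < 6 then P4 ⟨i, h⟩ else 1

theorem q4_0 : ev q4 (tq 0) = Equiv.swap 0 1 * Equiv.swap 2 3 := by decide +kernel

theorem q4_3 : ev q4 (tq 3) = Equiv.swap 0 2 * Equiv.swap 1 3 := by decide +kernel

/-- **Facets, Q-type**. -/
theorem embFQ (n : ℕ) (hn : 3 ≤ n) (hodd : Odd n) (w : FreeGroup (Fin 5))
    (hw : FreeGroup.map Fin.castSucc w ∈ normalClosure (relsB n 2 n 1)) :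
    w ∈ normalClosure {r : FreeGroup (Fin 5) | FreeGroup.map Fin.castSucc r ∈ relsB n 2 n 1} := by
  refine words_of_inj _ _ (fun x hx => ?_) w hw
  obtain ⟨φ, hφ⟩ := ExHom.actB2 n
  set g := gg (relsB n 2 n 1) Fin.castSucc eF with hg
  have h := CoxF n 2 n 1
  refine coreF g (s := n) hn h (φ.comp (nu _ _)) ?_ x (ggen _ _ _ heF x) ?_ ?_
  · intro i hi v
    rw [MonoidHom.comp_apply, hg, nuF _ _ _ _ i hi]
    exact hφ _ v
  · rw [MonoidHom.comp_apply, hx, map_one]
  · intro a w hw e ha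
    have hk : ∀ (h : (2 : ℕ) = 1), Even n := fun h => absurd h (by norm_num)
    let ψ : PresentedGroup (SR (relsB n 2 n 1) Fin.castSucc) →* Equiv.Perm (Fin 4) :=
      (psi4 n 2 n 1 hk).comp (nu _ _)
    have hψ : ∀ i : ℕ, i < 5 → ψ (g i) = q4 i := by
      intro i hi
      have h5 := nuF n 2 n 1 ⟨i, by omega⟩ (by
        intro e
        have := congrArg Fin.val e
        norm_num at this
        omega)
      change psi4 n 2 n 1 hk (nu _ _ (gg _ _ eF i)) = q4 i
      simp only at h5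
      rw [h5, psi4_of, q4, dif_pos (by omega)]
    have hw0 : ψ w 0 = 0 := by
      refine closure_induction (p := fun w _ => ψ w 0 = 0) ?_ ?_ ?_ ?_ hw
      · rintro y (rfl | rfl | rfl | rfl)
        · rw [hψ 1 (by norm_num)]; decide
        · rw [hψ 2 (by norm_num)]; decide
        · rw [hψ 3 (by norm_num)]; decide
        · rw [hψ 4 (by norm_num)]; decide
      · rw [map_one]; rfl
      · intro y z _ _ h1 h2
        rw [map_mul, Equiv.Perm.mul_apply, h2, h1]
      · intro y _ h1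
        rw [map_inv, Equiv.Perm.inv_eq_iff_eq, h1]
    have hp0 : ψ (pp (trq g) a) 0 = 0 := by
      have h6 : ψ x = 1 := by
        change psi4 n 2 n 1 hk (nu _ _ x) = 1
        rw [hx, map_one]
      rw [e, map_mul] at h6
      have h7 := congrArg (fun p : Equiv.Perm (Fin 4) => p 0) h6
      simp only [Equiv.Perm.mul_apply, hw0, Equiv.Perm.coe_one, id_eq] at h7
      exact h7
    obtain ⟨x1, x2, x0, x3⟩ := WrdQ.xrel g h n (facetF2 n n 1 g hg)
    obtain ⟨c0, e0⟩ := ha 0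
    obtain ⟨c1, e1⟩ := ha 1
    obtain ⟨c2, e2⟩ := ha 2
    obtain ⟨c3, e3⟩ := ha 3
    have hA2 : (trq g 0 ^ n) ^ 2 = 1 := by rw [← pow_mul, mul_comm n 2, x0]
    have hD2 : (trq g 3 ^ n) ^ 2 = 1 := by rw [← pow_mul, mul_comm n 2, x3]
    have hpp : pp (trq g) a = (trq g 0 ^ n) ^ (c0 + c1 + c2) * (trq g 3 ^ n) ^ c3 := by
      rw [pp, e0, e1, e2, e3, zpow_mul, zpow_mul, zpow_mul, zpow_mul, zpow_natCast, zpow_natCast,
        zpow_natCast, zpow_natCast, x1, x2, ← zpow_add, ← zpow_add]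
    have v0 : ψ (trq g 0) = Equiv.swap 0 1 * Equiv.swap 2 3 := by
      rw [← q4_0]
      exact ev_hom ψ g q4 (tq 0) fun i hi => hψ i (WrdQ.tq_lt 0 i hi)
    have v3 : ψ (trq g 3) = Equiv.swap 0 2 * Equiv.swap 1 3 := by
      rw [← q4_3]
      exact ev_hom ψ g q4 (tq 3) fun i hi => hψ i (WrdQ.tq_lt 3 i hi)
    have po : ∀ p : Equiv.Perm (Fin 4), p ^ 2 = 1 → p ^ n = p := by
      intro p hp
      obtain ⟨k, rfl⟩ := hodd
      rw [pow_succ, pow_mul, hp, one_pow, one_mul]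
    have v0n : ψ (trq g 0 ^ n) = Equiv.swap 0 1 * Equiv.swap 2 3 := by
      rw [map_pow, v0]
      exact po _ (by decide)
    have v3n : ψ (trq g 3 ^ n) = Equiv.swap 0 2 * Equiv.swap 1 3 := by
      rw [map_pow, v3]
      exact po _ (by decide)
    have zA := zpow_par hA2 (c0 + c1 + c2)
    have zD := zpow_par hD2 c3
    rcases Int.even_or_odd (c0 + c1 + c2) with hc | hc <;>
      rcases Int.even_or_odd c3 with hd | hd
    · rw [hpp, zA.1 hc, zD.1 hd, one_mul]
    · exfalso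
      rw [hpp, zA.1 hc, zD.2 hd, one_mul, v3n] at hp0
      revert hp0
      decide
    · exfalso
      rw [hpp, zA.2 hc, zD.1 hd, mul_one, v0n] at hp0
      revert hp0
      decide
    · exfalso
      rw [hpp, zA.2 hc, zD.2 hd, map_mul, v0n, v3n] at hp0
      revert hp0
      decide

end Pool.Agent.Lib.MP_c2d01e_co.Ex
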