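import Pool.Agent.Lib.MP_c2d01e_co.Ex.EmbB2
import Pool.Agent.Lib.MP_c2d01e_co.Ex.Adapt2

/-!
# The facet groups and the vertex-figure groups of family (B) embed: the natural maps

The natural maps from the presented groups `EmbDefs.FacB`, `EmbDefs.VerB` are injective.
-/

set_option autoImplicit false

namespace Pool.Agent.Lib.MP_c2d01e_co.Ex.EmbB3

open Subgroup EqDefs CGroupB CGroup
open Pool.Agent.Lib.MP_c2d01e_co.Ex.Wrd (Cox ev pp)
open Pool.Agent.Lib.MP_c2d01e_co.Ex.WrdQ (tq trq)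

/-- The natural map. -/
theorem mkhom {R5 : Set (FreeGroup (Fin 5))} {R : Set (FreeGroup (Fin 6))} (c : Fin 5 → Fin 6)
    (h : ∀ r ∈ R5, FreeGroup.map c r ∈ R) :
    ∃ f : PresentedGroup R5 →* PresentedGroup R,
      ∀ i, f (PresentedGroup.of i) = PresentedGroup.of (c i) :=
  ⟨PresentedGroup.toGroup (f := fun i => (PresentedGroup.of (c i) : PresentedGroup R)) (by
    intro r hr
    rw [lift_SR]
    exact PresentedGroup.one_of_mem (h r hr)), fun i => by rw [PresentedGroup.toGroup.of]⟩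

theorem hFac (s k t l : ℕ) : ∀ r ∈ ({r | ∃ i j : Fin 5, r = (EmbDefs.x i * EmbDefs.x j) ^
    coxB i.castSucc j.castSucc} ∪ {EmbDefs.facB s k} : Set (FreeGroup (Fin 5))),
    FreeGroup.map Fin.castSucc r ∈ relsB s k t l := by
  rintro r (⟨i, j, rfl⟩ | hr)
  · left
    exact ⟨i.castSucc, j.castSucc, by rw [map_pow, map_mul, mapx, mapx]⟩
  · right; left
    rw [hr, map_facB]

theorem hVer (s k t l : ℕ) : ∀ r ∈ ({r | ∃ i j : Fin 5, r = (EmbDefs.x i * EmbDefs.x j) ^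
    coxB i.succ j.succ} ∪ {EmbDefs.verB t l} : Set (FreeGroup (Fin 5))),
    FreeGroup.map Fin.succ r ∈ relsB s k t l := by
  rintro r (⟨i, j, rfl⟩ | hr)
  · left
    exact ⟨i.succ, j.succ, by rw [map_pow, map_mul, mapx, mapx]⟩
  · right; right
    rw [hr, map_verB]
    rfl

theorem gen5 {R5 : Set (FreeGroup (Fin 5))} (e : ℕ → Fin 5) (he : ∀ k : Fin 5, ∃ i < 5, e i = k)
    (x : PresentedGroup R5) :
    x ∈ closure {(fun i : ℕ => (PresentedGroup.of (e i) : PresentedGroup R5)) 0,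
      (fun i : ℕ => (PresentedGroup.of (e i) : PresentedGroup R5)) 1,
      (fun i : ℕ => (PresentedGroup.of (e i) : PresentedGroup R5)) 2,
      (fun i : ℕ => (PresentedGroup.of (e i) : PresentedGroup R5)) 3,
      (fun i : ℕ => (PresentedGroup.of (e i) : PresentedGroup R5)) 4} := by
  have h1 : x ∈ (⊤ : Subgroup (PresentedGroup R5)) := mem_top x
  rw [← PresentedGroup.closure_range_of] at h1
  refine closure_mono ?_ h1
  rintro y ⟨k, rfl⟩
  obtain ⟨i, hi, rfl⟩ := he k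
  have : i = 0 ∨ i = 1 ∨ i = 2 ∨ i = 3 ∨ i = 4 := by omega
  rcases this with rfl | rfl | rfl | rfl | rfl <;> simp

/-- The generators of the facet group. -/
def gF (s k : ℕ) (i : ℕ) : EmbDefs.FacB s k := PresentedGroup.of (eF i)

/-- The generators of the vertex-figure group, in the reverse order. -/
def gV (t l : ℕ) (i : ℕ) : EmbDefs.VerB t l := PresentedGroup.of (eV i)

theorem coxgF (s k : ℕ) : Cox (gF s k) := by
  intro i j hi hj
  have h : (PresentedGroup.mk ({r | ∃ i j : Fin 5, r = (EmbDefs.x i * EmbDefs.x j) ^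
    coxB i.castSucc j.castSucc} ∪ {EmbDefs.facB s k}))
      ((EmbDefs.x ⟨i, hi⟩ * EmbDefs.x ⟨j, hj⟩) ^ coxB (⟨i, hi⟩ : Fin 5).castSucc
        (⟨j, hj⟩ : Fin 5).castSucc) = 1 := PresentedGroup.one_of_mem (Or.inl ⟨_, _, rfl⟩)
  rw [coxFF ⟨i, hi⟩ ⟨j, hj⟩, map_pow, map_mul] at h
  rw [gF, gF, eF, eF, dif_pos hi, dif_pos hj]
  exact h

theorem coxgV (t l : ℕ) : Cox (gV t l) := by
  intro i j hi hj
  have h : (PresentedGroup.mk ({r | ∃ i j : Fin 5, r = (EmbDefs.x i * EmbDefs.x j) ^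
    coxB i.succ j.succ} ∪ {EmbDefs.verB t l}))
      ((EmbDefs.x (eV i) * EmbDefs.x (eV j)) ^ coxB (eV i).succ (eV j).succ) = 1 :=
    PresentedGroup.one_of_mem (Or.inl ⟨_, _, rfl⟩)
  rw [coxVV ⟨i, hi⟩ ⟨j, hj⟩, map_pow, map_mul] at h
  exact h

theorem relF1 (s : ℕ) : (gF s 1 0 * (gF s 1 1 * gF s 1 2 * gF s 1 3 * gF s 1 2 * gF s 1 1) *
    (gF s 1 4 * gF s 1 3 * gF s 1 2 * gF s 1 3 * gF s 1 4) *
      (gF s 1 1 * gF s 1 2 * gF s 1 3 * gF s 1 2 * gF s 1 1)) ^ s = 1 := by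
  have h : (PresentedGroup.mk ({r | ∃ i j : Fin 5, r = (EmbDefs.x i * EmbDefs.x j) ^
    coxB i.castSucc j.castSucc} ∪ {EmbDefs.facB s 1})) (EmbDefs.facB s 1) = 1 :=
    PresentedGroup.one_of_mem (Or.inr rfl)
  have e : EmbDefs.facB s 1 = (EmbDefs.x 0 * (EmbDefs.x 1 * EmbDefs.x 2 * EmbDefs.x 3 *
    EmbDefs.x 2 * EmbDefs.x 1) * (EmbDefs.x 4 * EmbDefs.x 3 * EmbDefs.x 2 * EmbDefs.x 3 *
    EmbDefs.x 4) * (EmbDefs.x 1 * EmbDefs.x 2 * EmbDefs.x 3 * EmbDefs.x 2 * EmbDefs.x 1)) ^ s := by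
    rw [EmbDefs.facB, if_pos rfl]
  conv at h => lhs; arg 2; rw [e]
  simp only [map_pow, map_mul] at h
  exact h

theorem relF2 (n : ℕ) : (gF n 2 0 * (gF n 2 1 * gF n 2 2 * gF n 2 3 * gF n 2 2 * gF n 2 1) *
    (gF n 2 4 * gF n 2 3 * gF n 2 2 * gF n 2 3 * gF n 2 4)) ^ (2 * n) = 1 := by
  have h : (PresentedGroup.mk ({r | ∃ i j : Fin 5, r = (EmbDefs.x i * EmbDefs.x j) ^
    coxB i.castSucc j.castSucc} ∪ {EmbDefs.facB n 2})) (EmbDefs.facB n 2) = 1 :=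
    PresentedGroup.one_of_mem (Or.inr rfl)
  have e : EmbDefs.facB n 2 = (EmbDefs.x 0 * (EmbDefs.x 1 * EmbDefs.x 2 * EmbDefs.x 3 *
    EmbDefs.x 2 * EmbDefs.x 1) * (EmbDefs.x 4 * EmbDefs.x 3 * EmbDefs.x 2 * EmbDefs.x 3 *
    EmbDefs.x 4)) ^ (2 * n) := by
    rw [EmbDefs.facB, if_neg (by norm_num)]
  conv at h => lhs; arg 2; rw [e]
  simp only [map_pow, map_mul] at h
  exact h

theorem relV1 (t : ℕ) : (gV t 1 0 * (gV t 1 1 * gV t 1 2 * gV t 1 3 * gV t 1 2 * gV t 1 1) *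
    (gV t 1 4 * gV t 1 3 * gV t 1 2 * gV t 1 3 * gV t 1 4) *
      (gV t 1 1 * gV t 1 2 * gV t 1 3 * gV t 1 2 * gV t 1 1)) ^ t = 1 := by
  have h : (PresentedGroup.mk ({r | ∃ i j : Fin 5, r = (EmbDefs.x i * EmbDefs.x j) ^
    coxB i.succ j.succ} ∪ {EmbDefs.verB t 1})) (EmbDefs.verB t 1) = 1 :=
    PresentedGroup.one_of_mem (Or.inr rfl)
  have e : EmbDefs.verB t 1 = (EmbDefs.x 4 * (EmbDefs.x 3 * EmbDefs.x 2 * EmbDefs.x 1 *
    EmbDefs.x 2 * EmbDefs.x 3) * (EmbDefs.x 0 * EmbDefs.x 1 * EmbDefs.x 2 * EmbDefs.x 1 *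
    EmbDefs.x 0) * (EmbDefs.x 3 * EmbDefs.x 2 * EmbDefs.x 1 * EmbDefs.x 2 * EmbDefs.x 3)) ^ t := by
    rw [EmbDefs.verB, if_pos rfl]
  conv at h => lhs; arg 2; rw [e]
  simp only [map_pow, map_mul] at h
  exact h

theorem relV2 (m : ℕ) : (gV m 2 0 * (gV m 2 1 * gV m 2 2 * gV m 2 3 * gV m 2 2 * gV m 2 1) *
    (gV m 2 4 * gV m 2 3 * gV m 2 2 * gV m 2 3 * gV m 2 4)) ^ (2 * m) = 1 := by
  have h : (PresentedGroup.mk ({r | ∃ i j : Fin 5, r = (EmbDefs.x i * EmbDefs.x j) ^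
    coxB i.succ j.succ} ∪ {EmbDefs.verB m 2})) (EmbDefs.verB m 2) = 1 :=
    PresentedGroup.one_of_mem (Or.inr rfl)
  have e : EmbDefs.verB m 2 = (EmbDefs.x 4 * (EmbDefs.x 3 * EmbDefs.x 2 * EmbDefs.x 1 *
    EmbDefs.x 2 * EmbDefs.x 3) * (EmbDefs.x 0 * EmbDefs.x 1 * EmbDefs.x 2 * EmbDefs.x 1 *
    EmbDefs.x 0)) ^ (2 * m) := by
    rw [EmbDefs.verB, if_neg (by norm_num)]
  conv at h => lhs; arg 2; rw [e]
  simp only [map_pow, map_mul] at h
  exact h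

/-- Facets, P-type: every action by the reflections is faithful. -/
theorem faithFP (m : ℕ) (hm : 2 ≤ m) (φ : EmbDefs.FacB (2 * m) 1 →* Equiv.Perm (VN (2 * m)))
    (hφ : ∀ i v, φ (PresentedGroup.of i) (pi (2 * m) v) = pi (2 * m) (B i.castSucc v))
    (x : EmbDefs.FacB (2 * m) 1) (h1 : φ x = 1) : x = 1 := by
  have h := coxgF (2 * m) 1
  refine coreF (gF (2 * m) 1) (s := 2 * m) (by omega) h φ ?_ x (gen5 eF heF x) h1 ?_
  · intro i hi v
    have hi' : (i : ℕ) < 5 := by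
      revert hi; revert i; decide
    rw [gF, eF, dif_pos hi']
    exact hφ _ v
  · intro a w _ _ ha
    exact pp_one_of (fun j => (WrdQ.tpow _ h (2 * m) (relF1 (2 * m)) j).2) a
      (by exact_mod_cast ha)

theorem eV_succ : ∀ i : Fin 6, i ≠ 0 → (eV (5 - (i : ℕ))).succ = i := by decide

/-- Vertex-figures, P-type: every action by the reflections is faithful. -/
theorem faithVP (m : ℕ) (hm : 2 ≤ m) (φ : EmbDefs.VerB m 2 →* Equiv.Perm (VN (2 * m)))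
    (hφ : ∀ i v, φ (PresentedGroup.of i) (pi (2 * m) v) = pi (2 * m) (B i.succ v))
    (x : EmbDefs.VerB m 2) (h1 : φ x = 1) : x = 1 := by
  have h := coxgV m 2
  refine coreV (gV m 2) (s := 2 * m) (by omega) h φ ?_ x (gen5 eV heV x) h1 ?_
  · intro i hi v
    rw [gV, hφ, eV_succ i hi]
  · intro a d0 d1 d2 d3
    obtain ⟨x1, x2, x0, x3⟩ := WrdQ.xrel _ h m (relV2 m)
    exact xr x1 x2 x0 x3 (by omega) a d0 d1 d2 d3

/-- Vertex-figures, Q-type: every action by the reflections is faithful. -/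
theorem faithVQ (n : ℕ) (hn : 3 ≤ n) (hodd : Odd n) (φ : EmbDefs.VerB n 1 →* Equiv.Perm (VN n))
    (hφ : ∀ i v, φ (PresentedGroup.of i) (pi n v) = pi n (B i.succ v))
    (x : EmbDefs.VerB n 1) (h1 : φ x = 1) : x = 1 := by
  have h := coxgV n 1
  refine coreV (gV n 1) (s := n) hn h φ ?_ x (gen5 eV heV x) h1 ?_
  · intro i hi v
    rw [gV, hφ, eV_succ i hi]
  · intro a d0 d1 d2 d3
    have e0 := odd_dvd hodd d0
    have e1 := odd_dvd hodd d1
    have e2 : (n : ℤ) ∣ a 2 := by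
      have : a 2 = (a 2 - a 0 - a 1) + a 0 + a 1 := by ring
      rw [this]
      exact dvd_add (dvd_add d2 e0) e1
    exact pp_one_of (fun j => (WrdQ.tpow _ h n (relV1 n) j).2) a
      (by intro i; fin_cases i <;> assumption)

theorem inj_of {A G : Type*} [Group A] [Group G] (f : A →* G) (h : ∀ x, f x = 1 → x = 1) :
    Function.Injective f := (injective_iff_map_eq_one f).2 h

/-- **Facets of (B), P-type**. -/
theorem fB_P (m : ℕ) (hm : 2 ≤ m) : ∃ f : EmbDefs.FacB (2 * m) 1 →* GamB (2 * m) 1 m 2,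
    Function.Injective f ∧ ∀ i : Fin 5, f (PresentedGroup.of i) = PresentedGroup.of i.castSucc := by
  obtain ⟨f, hf⟩ := mkhom Fin.castSucc (hFac (2 * m) 1 m 2)
  obtain ⟨φ, hφ⟩ := ExHom.actB1 m
  refine ⟨f, inj_of f fun x hx => faithFP m hm (φ.comp f) ?_ x ?_, hf⟩
  · intro i v
    rw [MonoidHom.comp_apply, hf]
    exact hφ _ v
  · rw [MonoidHom.comp_apply, hx, map_one]

/-- **Vertex-figures of (B), P-type**. -/
theorem vB_P (m : ℕ) (hm : 2 ≤ m) : ∃ f : EmbDefs.VerB m 2 →* GamB (2 * m) 1 m 2,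
    Function.Injective f ∧ ∀ i : Fin 5, f (PresentedGroup.of i) = PresentedGroup.of i.succ := by
  obtain ⟨f, hf⟩ := mkhom Fin.succ (hVer (2 * m) 1 m 2)
  obtain ⟨φ, hφ⟩ := ExHom.actB1 m
  refine ⟨f, inj_of f fun x hx => faithVP m hm (φ.comp f) ?_ x ?_, hf⟩
  · intro i v
    rw [MonoidHom.comp_apply, hf]
    exact hφ _ v
  · rw [MonoidHom.comp_apply, hx, map_one]

/-- **Vertex-figures of (B), Q-type**. -/
theorem vB_Q (n : ℕ) (hn : 3 ≤ n) (hodd : Odd n) : ∃ f : EmbDefs.VerB n 1 →* GamB n 2 n 1,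
    Function.Injective f ∧ ∀ i : Fin 5, f (PresentedGroup.of i) = PresentedGroup.of i.succ := by
  obtain ⟨f, hf⟩ := mkhom Fin.succ (hVer n 2 n 1)
  obtain ⟨φ, hφ⟩ := ExHom.actB2 n
  refine ⟨f, inj_of f fun x hx => faithVQ n hn hodd (φ.comp f) ?_ x ?_, hf⟩
  · intro i v
    rw [MonoidHom.comp_apply, hf]
    exact hφ _ v
  · rw [MonoidHom.comp_apply, hx, map_one]

/-- **Facets of (B), Q-type**. -/
theorem fB_Q (n : ℕ) (hn : 3 ≤ n) (hodd : Odd n) : ∃ f : EmbDefs.FacB n 2 →* GamB n 2 n 1,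
    Function.Injective f ∧ ∀ i : Fin 5, f (PresentedGroup.of i) = PresentedGroup.of i.castSucc := by
  obtain ⟨f, hf⟩ := mkhom Fin.castSucc (hFac n 2 n 1)
  obtain ⟨φ, hφ⟩ := ExHom.actB2 n
  refine ⟨f, inj_of f fun x hx => ?_, hf⟩
  have h := coxgF n 2
  refine coreF (gF n 2) (s := n) hn h (φ.comp f) ?_ x (gen5 eF heF x)
    (by rw [MonoidHom.comp_apply, hx, map_one]) ?_
  · intro i hi v
    have hi' : (i : ℕ) < 5 := by
      revert hi; revert i; decide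
    rw [MonoidHom.comp_apply, gF, eF, dif_pos hi', hf]
    exact hφ _ v
  · intro a w hw e ha
    have hk : ∀ (h : (2 : ℕ) = 1), Even n := fun h => absurd h (by norm_num)
    let ψ : EmbDefs.FacB n 2 →* Equiv.Perm (Fin 4) := (psi4 n 2 n 1 hk).comp f
    have hψ : ∀ i : ℕ, i < 5 → ψ (gF n 2 i) = q4 i := by
      intro i hi
      change psi4 n 2 n 1 hk (f (gF n 2 i)) = q4 i
      rw [gF, eF, dif_pos hi, hf, psi4_of, q4, dif_pos (by omega)]
      rfl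
    have hw0 : ψ w 0 = 0 := by
      refine closure_induction (p := fun w _ => ψ w 0 = 0) ?_ ?_ ?_ ?_ hw
      · rintro y (rfl | rfl | rfl | rfl)
        · rw [hψ 1 (by norm_num)]; decide
        · rw [hψ 2 (by norm_num)]; decide
        · rw [hψ 3 (by norm_num)]; decide
        · rw [hψ 4 (by norm_num)]; decide
      · rw [map_one]; rfl
      · intro y z _ _ h1 h2
        rw [map_mul, Equiv.Perm.mul_apply, h2, h1]
      · intro y _ h1
        rw [map_inv, Equiv.Perm.inv_eq_iff_eq, h1]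
    have hp0 : ψ (pp (trq (gF n 2)) a) 0 = 0 := by
      have h6 : ψ x = 1 := by
        change psi4 n 2 n 1 hk (f x) = 1
        rw [hx, map_one]
      rw [e, map_mul] at h6
      have h7 := congrArg (fun p : Equiv.Perm (Fin 4) => p 0) h6
      simp only [Equiv.Perm.mul_apply, hw0, Equiv.Perm.coe_one, id_eq] at h7
      exact h7
    obtain ⟨x1, x2, x0, x3⟩ := WrdQ.xrel (gF n 2) h n (relF2 n)
    obtain ⟨c0, e0⟩ := ha 0
    obtain ⟨c1, e1⟩ := ha 1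
    obtain ⟨c2, e2⟩ := ha 2
    obtain ⟨c3, e3⟩ := ha 3
    have hA2 : (trq (gF n 2) 0 ^ n) ^ 2 = 1 := by rw [← pow_mul, mul_comm n 2, x0]
    have hD2 : (trq (gF n 2) 3 ^ n) ^ 2 = 1 := by rw [← pow_mul, mul_comm n 2, x3]
    have hpp : pp (trq (gF n 2)) a = (trq (gF n 2) 0 ^ n) ^ (c0 + c1 + c2) * (trq (gF n 2) 3 ^ n) ^ c3 := by
      rw [pp, e0, e1, e2, e3, zpow_mul, zpow_mul, zpow_mul, zpow_mul, zpow_natCast, zpow_natCast,
        zpow_natCast, zpow_natCast, x1, x2, ← zpow_add, ← zpow_add]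
    have v0 : ψ (trq (gF n 2) 0) = Equiv.swap 0 1 * Equiv.swap 2 3 := by
      rw [← q4_0]
      exact ev_hom ψ (gF n 2) q4 (tq 0) fun i hi => hψ i (WrdQ.tq_lt 0 i hi)
    have v3 : ψ (trq (gF n 2) 3) = Equiv.swap 0 2 * Equiv.swap 1 3 := by
      rw [← q4_3]
      exact ev_hom ψ (gF n 2) q4 (tq 3) fun i hi => hψ i (WrdQ.tq_lt 3 i hi)
    have po : ∀ p : Equiv.Perm (Fin 4), p ^ 2 = 1 → p ^ n = p := by
      intro p hp
      obtain ⟨k, rfl⟩ := hodd
      rw [pow_succ, pow_mul, hp, one_pow, one_mul]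
    have v0n : ψ (trq (gF n 2) 0 ^ n) = Equiv.swap 0 1 * Equiv.swap 2 3 := by
      rw [map_pow, v0]
      exact po _ (by decide)
    have v3n : ψ (trq (gF n 2) 3 ^ n) = Equiv.swap 0 2 * Equiv.swap 1 3 := by
      rw [map_pow, v3]
      exact po _ (by decide)
    have zA := zpow_par hA2 (c0 + c1 + c2)
    have zD := zpow_par hD2 c3
    rcases Int.even_or_odd (c0 + c1 + c2) with hc | hc <;>
      rcases Int.even_or_odd c3 with hd | hd
    · rw [hpp, zA.1 hc, zD.1 hd, one_mul]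
    · exfalso
      rw [hpp, zA.1 hc, zD.2 hd, one_mul, v3n] at hp0
      revert hp0
      decide
    · exfalso
      rw [hpp, zA.2 hc, zD.1 hd, mul_one, v0n] at hp0
      revert hp0
      decide
    · exfalso
      rw [hpp, zA.2 hc, zD.2 hd, map_mul, v0n, v3n] at hp0
      revert hp0
      decide

end Pool.Agent.Lib.MP_c2d01e_co.Ex.EmbB3
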