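import Pool.Agent.Lib.MP_c2d01e_co.Ex.ActN

/-!
# Family (B), Q-type: the facet group and the vertex-figure group embed, for all `n ≥ 3`

As in `EmbB.lean`, `EmbB3.lean`, with the action on the lattice modulo `n N`, so without a condition on the parity.
-/

set_option autoImplicit false

namespace Pool.Agent.Lib.MP_c2d01e_co.Ex.EmbBN90

open Subgroup EqDefs CGroupB CGroup ActN EmbB3
open Pool.Agent.Lib.MP_c2d01e_co.Ex.Wrd (Cox ev pp)
open Pool.Agent.Lib.MP_c2d01e_co.Ex.WrdQ (tq trq)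

theorem piN_pi {n : ℕ} {v w : V} (h : piN n v = piN n w) : CGroup.pi n v = CGroup.pi n w := by
  obtain ⟨u, _, e⟩ := QuotientAddGroup.eq.1 h
  have e' : w = v + (n : ℤ) • u := by rw [← e]; abel
  rw [e']
  obtain ⟨⟨p, x, y, z⟩, a, b⟩ := v
  obtain ⟨⟨p', x', y', z'⟩, a', b'⟩ := u
  simp [CGroup.pi]

theorem nearB_piN (n : ℕ) (hn : 3 ≤ n) (v w : V) (h : nearB v w = true) : piN n v ≠ piN n w :=
  fun e => nearB_pi n hn v w h (piN_pi e)

section core

variable {P : Type*} [Group P] (g : ℕ → P)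

/-- **Facets**: an element acting trivially is trivial. -/
theorem coreFN {n : ℕ} (h : Cox g) (φ : P →* Equiv.Perm (XN n))
    (hsep : ∀ v w, nearB v w = true → piN n v ≠ piN n w)
    (hφ : ∀ i : Fin 6, i ≠ 5 → ∀ v, φ (g i) (piN n v) = piN n (B i v))
    (hX : (g 0 * (g 1 * g 2 * g 3 * g 2 * g 1) * (g 4 * g 3 * g 2 * g 3 * g 4)) ^ (2 * n) = 1)
    (x : P) (hx : x ∈ closure {g 0, g 1, g 2, g 3, g 4}) (h1 : φ x = 1) : x = 1 := by
  obtain ⟨a, w, hw, e⟩ := WrdQ.decomp g h hx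
  have hr : ∀ i ∈ ({0, 1, 2, 3, 4} : Finset (Fin 6)), ∀ j ∈ ({0, 1, 2, 3, 4} : Finset (Fin 6)),
      ((fun i : Fin 6 => g i) i * (fun i : Fin 6 => g i) j) ^ coxB i j = 1 := by
    intro i hi j hj
    have hi5 : i ≠ 5 := by rintro rfl; revert hi; decide
    have hj5 : j ≠ 5 := by rintro rfl; revert hj; decide
    rw [coxF i j hi5 hj5]
    refine h i j ?_ ?_
    · revert hi5; revert i; decide
    · revert hj5; revert j; decide
  have hφS : ∀ i ∈ ({0, 1, 2, 3, 4} : Finset (Fin 6)), ∀ v,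
      φ ((fun i : Fin 6 => g i) i) (piN n v) = piN n (B i v) := by
    intro i hi v
    refine hφ i ?_ v
    rintro rfl
    revert hi
    decide
  have hbF : ∀ i < 5, ∀ v, φ (g i) (piN n v) = piN n (bF i v) := by
    intro i hi v
    rw [bF, dif_pos (by omega)]
    refine hφ ⟨i, by omega⟩ ?_ v
    intro e
    have := congrArg Fin.val e
    norm_num at this
    omega
  have hw' : w ∈ closure ((fun i : Fin 6 => g i) '' ({1, 2, 3, 4} : Set (Fin 6))) := by
    rw [gsetF]; exact hw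
  have hw'' : w ∈ closure ((fun i : Fin 6 => g i) '' (({1, 2, 3, 4} : Finset (Fin 6)) :
      Set (Fin 6))) := by simpa using hw'
  have f1 := fix_of_notMem hr φ (piN n) hφS {1, 2, 3, 4} (by decide) 0 (by decide) w hw''
  have f2 : φ (pp (trq g) a) (piN n (fvB 0)) = piN n (fvB 0) := by
    have h2 : φ x (piN n (fvB 0)) = piN n (fvB 0) := by rw [h1]; rfl
    rw [e, map_mul, Equiv.Perm.mul_apply, f1] at h2
    exact h2
  have ht1 := coreN g h n φ hbF hX a f2
  rw [ht1, one_mul] at e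
  rw [e]
  exact trivW hr (by decide) φ (piN n) hφS hsep w hw' (by rw [← e]; exact h1)

/-- **Vertex-figures**: an element acting trivially is trivial. -/
theorem coreVN {n : ℕ} (h : Cox g) (φ : P →* Equiv.Perm (XN n))
    (hsep : ∀ v w, nearB v w = true → piN n v ≠ piN n w)
    (hφ : ∀ i : Fin 6, i ≠ 0 → ∀ v, φ (g (5 - (i : ℕ))) (piN n v) = piN n (B i v)) (x : P)
    (hx : x ∈ closure {g 0, g 1, g 2, g 3, g 4}) (h1 : φ x = 1)
    (hT : ∀ j, trq g j ^ n = 1) : x = 1 := by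
  obtain ⟨a, w, hw, e⟩ := WrdQ.decomp g h hx
  have hr : ∀ i ∈ ({1, 2, 3, 4, 5} : Finset (Fin 6)), ∀ j ∈ ({1, 2, 3, 4, 5} : Finset (Fin 6)),
      ((fun i : Fin 6 => g (5 - (i : ℕ))) i * (fun i : Fin 6 => g (5 - (i : ℕ))) j) ^ coxB i j
        = 1 := by
    intro i hi j hj
    have hi5 : i ≠ 0 := by rintro rfl; revert hi; decide
    have hj5 : j ≠ 0 := by rintro rfl; revert hj; decide
    rw [coxV i j hi5 hj5]
    refine h (5 - (i : ℕ)) (5 - (j : ℕ)) ?_ ?_
    · revert hi5; revert i; decide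
    · revert hj5; revert j; decide
  have hφS : ∀ i ∈ ({1, 2, 3, 4, 5} : Finset (Fin 6)), ∀ v,
      φ ((fun i : Fin 6 => g (5 - (i : ℕ))) i) (piN n v) = piN n (B i v) := by
    intro i hi v
    refine hφ i ?_ v
    rintro rfl
    revert hi
    decide
  have hP : (PX n 0)⁻¹ = PX n 0 := inv_eq_of_mul_eq_one_left (PX_sq n 0)
  let φ' : P →* Equiv.Perm (XN n) := (MulAut.conj (PX n 0)).toMonoidHom.comp φ
  have hφ' : ∀ y, φ' y = PX n 0 * φ y * PX n 0 := by
    intro y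
    change PX n 0 * φ y * (PX n 0)⁻¹ = _
    rw [hP]
  have hbV : ∀ i < 5, ∀ v, φ' (g i) (piN n v) = piN n (bV i v) := by
    intro i hi v
    rw [hφ', Equiv.Perm.mul_apply, Equiv.Perm.mul_apply, PX_pi, bV, bF, dif_pos (by omega)]
    have h3 := hφ ⟨5 - i, by omega⟩ (by
      intro e
      have := congrArg Fin.val e
      norm_num at this
      omega) (R 0 v)
    have h4 : 5 - (5 - i) = i := by omega
    simp only [h4] at h3
    rw [h3, PX_pi]
  have hw' : w ∈ closure ((fun i : Fin 6 => g (5 - (i : ℕ))) '' ({1, 2, 3, 4} : Set (Fin 6))) := by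
    rw [gsetV]; exact hw
  have hw'' : w ∈ closure ((fun i : Fin 6 => g (5 - (i : ℕ))) ''
      (({1, 2, 3, 4} : Finset (Fin 6)) : Set (Fin 6))) := by simpa using hw'
  have f1 := fix_of_notMem hr φ (piN n) hφS {1, 2, 3, 4} (by decide) 5 (by decide) w hw''
  have f2 : φ (pp (trq g) a) (piN n (fvB 5)) = piN n (fvB 5) := by
    have h2 : φ x (piN n (fvB 5)) = piN n (fvB 5) := by rw [h1]; rfl
    rw [e, map_mul, Equiv.Perm.mul_apply, f1] at h2
    exact h2
  have f3 : φ' (pp (trq g) a) (piN n ((0, 0, 0, 0), 0, -1)) = piN n ((0, 0, 0, 0), 0, -1) := by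
    have r1 : R 0 ((0, 0, 0, 0), 0, -1) = fvB 5 := by decide
    have r2 : R 0 (fvB 5) = ((0, 0, 0, 0), 0, -1) := by decide
    rw [hφ', Equiv.Perm.mul_apply, Equiv.Perm.mul_apply, PX_pi, r1, f2, PX_pi, r2]
  have ht : ∀ k v, φ' (trq g k) (piN n v) = piN n (E (yV k) v) := by
    intro k v
    rw [trq, ev_act' (piN n) g φ' bV hbV (tq k) (WrdQ.tq_lt k), tV]
  rw [prod_E' (piN n) φ' ht] at f3
  obtain ⟨⟨w0, w1, w2, w3⟩, k1, k2, ee⟩ := memN (Or.inr rfl) f3
  simp only [yV, Matrix.cons_val_zero, Matrix.cons_val_one, Matrix.cons_val, Prod.smul_mk,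
    smul_eq_mul, Prod.mk_add_mk, Prod.mk.injEq] at ee k1 k2
  obtain ⟨e1, e2, e3, e4⟩ := ee
  obtain ⟨u, hu⟩ : ∃ u, w0 = 2 * u := ⟨w0 / 2, by omega⟩
  obtain ⟨r, hr'⟩ : ∃ r, w1 + w2 + w3 = 2 * r := ⟨(w1 + w2 + w3) / 2, by omega⟩
  obtain rfl : w1 = 2 * r - w2 - w3 := by omega
  subst hu
  have a3 : a 3 = n * (w2 - w3) := by rw [mul_sub]; linarith
  have a1 : a 1 = n * (w3 - r) := by
    have : 2 * a 1 = 2 * (n * (w3 - r)) := by
      have t : (n : ℤ) * (2 * r - w2 - w3) = 2 * (n * r) - n * w2 - n * w3 := by ring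
      rw [t] at e2
      rw [mul_sub] at a3 ⊢
      linarith
    linarith
  have a0 : a 0 = n * (u + r - w2) := by
    have t : (n : ℤ) * (2 * u) = 2 * (n * u) := by ring
    rw [t] at e1
    rw [mul_sub] at a1 a3 ⊢
    rw [mul_add]
    linarith
  have a2 : a 2 = n * (w2 + (u + r - w2) + (w3 - r)) := by
    rw [mul_add, mul_add, ← a0, ← a1]
    linarith
  have ht1 : pp (trq g) a = 1 := by
    rw [pp, a0, a1, a2, a3, zpow_mul, zpow_mul, zpow_mul, zpow_mul, zpow_natCast, zpow_natCast,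
      zpow_natCast, zpow_natCast, hT 0, hT 1, hT 2, hT 3]
    simp
  rw [ht1, one_mul] at e
  rw [e]
  exact trivW hr (by decide) φ (piN n) hφS hsep w hw' (by rw [← e]; exact h1)

end core

/-- **Facets of (B), Q-type**, for all `n ≥ 3`. -/
theorem fB_QN (n : ℕ) (hn : 3 ≤ n) : ∃ f : EmbDefs.FacB n 2 →* GamB n 2 n 1,
    Function.Injective f ∧ ∀ i : Fin 5, f (PresentedGroup.of i) = PresentedGroup.of i.castSucc := by
  obtain ⟨f, hf⟩ := mkhom Fin.castSucc (hFac n 2 n 1)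
  obtain ⟨φ, hφ⟩ := actN n
  refine ⟨f, inj_of f fun x hx => ?_, hf⟩
  refine coreFN (gF n 2) (coxgF n 2) (φ.comp f) (nearB_piN n hn) ?_ (relF2 n) x (gen5 eF heF x)
    (by rw [MonoidHom.comp_apply, hx, map_one])
  intro i hi v
  have hi' : (i : ℕ) < 5 := by
    revert hi; revert i; decide
  rw [MonoidHom.comp_apply, gF, eF, dif_pos hi', hf]
  exact hφ _ v

/-- **Vertex-figures of (B), Q-type**, for all `n ≥ 3`. -/
theorem vB_QN (n : ℕ) (hn : 3 ≤ n) : ∃ f : EmbDefs.VerB n 1 →* GamB n 2 n 1,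
    Function.Injective f ∧ ∀ i : Fin 5, f (PresentedGroup.of i) = PresentedGroup.of i.succ := by
  obtain ⟨f, hf⟩ := mkhom Fin.succ (hVer n 2 n 1)
  obtain ⟨φ, hφ⟩ := actN n
  refine ⟨f, inj_of f fun x hx => ?_, hf⟩
  refine coreVN (gV n 1) (coxgV n 1) (φ.comp f) (nearB_piN n hn) ?_ x (gen5 eV heV x)
    (by rw [MonoidHom.comp_apply, hx, map_one])
    (fun j => (WrdQ.tpow _ (coxgV n 1) n (relV1 n) j).2)
  intro i hi v
  rw [MonoidHom.comp_apply, gV, hf, hφ, eV_succ i hi]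

end Pool.Agent.Lib.MP_c2d01e_co.Ex.EmbBN90
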