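import Pool.Agent.Lib.MP_c2d01e_co.Ex.EmbW
import Pool.Agent.Lib.MP_c2d01e_co.Ex.InfP
import Pool.Agent.Lib.MP_c2d01e_co.Ex.Wrd

/-!
# The groups of the facets of family (B): faithfulness

Let `F` be a group with elements `g 0, …, g 4` satisfying the Coxeter relations of type `{3,3,4,3}`, acting on the
lattice modulo `s ≥ 3` by the reflections `B 0, …, B 4`. An element of `⟨g 0, …, g 4⟩` which acts trivially is a
product of powers of the four translations with exponents divisible by `s`. If `T ^ s = 1` it is trivial.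
-/

set_option autoImplicit false

namespace Pool.Agent.Lib.MP_c2d01e_co.EmbF

open Subgroup EqDefs CGroup CGroupB Ex

/-- The index as an element of `Fin 6`. -/
def ix (i : ℕ) : Fin 6 := ⟨i % 6, Nat.mod_lt _ (by norm_num)⟩

/-- The additive map `R i`. -/
def RH (i : Fin 6) : V →+ V := AddMonoidHom.mk' (R i) (R_add i)

/-- The additive map of a word in the reflections `B i = R (i + 1)`. -/
def actH : List ℕ → (V →+ V)
  | [] => AddMonoidHom.id V
  | i :: l => (RH (ix (i + 1))).comp (actH l)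

/-- The additive map `E y`. -/
def EH (y : H4) : V →+ V := AddMonoidHom.mk' (E y) (fun v w => by
  obtain ⟨⟨p, x, y1, z⟩, a, b⟩ := v
  obtain ⟨⟨p', x', y1', z'⟩, a', b'⟩ := w
  obtain ⟨q, q1, q2, q3⟩ := y
  simp only [E, bil, nm, Prod.smul_mk, Prod.mk_add_mk, smul_eq_mul, Prod.mk.injEq]
  refine ⟨⟨?_, ?_, ?_, ?_⟩, ?_, trivial⟩ <;> ring)

theorem hom_ext {f g : V →+ V} (h0 : f ((1, 0, 0, 0), 0, 0) = g ((1, 0, 0, 0), 0, 0))
    (h1 : f ((0, 1, 0, 0), 0, 0) = g ((0, 1, 0, 0), 0, 0))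
    (h2 : f ((0, 0, 1, 0), 0, 0) = g ((0, 0, 1, 0), 0, 0))
    (h3 : f ((0, 0, 0, 1), 0, 0) = g ((0, 0, 0, 1), 0, 0))
    (h4 : f ((0, 0, 0, 0), 1, 0) = g ((0, 0, 0, 0), 1, 0))
    (h5 : f ((0, 0, 0, 0), 0, 1) = g ((0, 0, 0, 0), 0, 1)) (v : V) : f v = g v := by
  obtain ⟨⟨p, x, y, z⟩, a, b⟩ := v
  have e : (((p, x, y, z), a, b) : V) = p • ((1, 0, 0, 0), 0, 0) + x • ((0, 1, 0, 0), 0, 0) +
      y • ((0, 0, 1, 0), 0, 0) + z • ((0, 0, 0, 1), 0, 0) + a • ((0, 0, 0, 0), 1, 0) +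
      b • ((0, 0, 0, 0), 0, 1) := by
    simp [Prod.smul_mk]
  rw [e]
  simp only [map_add, map_zsmul, h0, h1, h2, h3, h4, h5]

/-- The vectors of the four translations. -/
def yv : Fin 4 → H4 := ![(2, -1, -1, -1), (1, 0, 0, 0), (1, 0, 0, -1), (1, 0, -1, 0)]

theorem act_tw (k : Fin 4) (v : V) : actH (Wrd.tw k) v = EH (yv k) v := by
  revert v
  fin_cases k <;> intro v <;> refine hom_ext ?_ ?_ ?_ ?_ ?_ ?_ v <;> decide +kernel

theorem yv_dvd (c : ℤ) (a : Fin 4 → ℤ)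
    (h1 : c ∣ (a 0 • yv 0 + a 1 • yv 1 + a 2 • yv 2 + a 3 • yv 3).1)
    (h2 : c ∣ (a 0 • yv 0 + a 1 • yv 1 + a 2 • yv 2 + a 3 • yv 3).2.1)
    (h3 : c ∣ (a 0 • yv 0 + a 1 • yv 1 + a 2 • yv 2 + a 3 • yv 3).2.2.1)
    (h4 : c ∣ (a 0 • yv 0 + a 1 • yv 1 + a 2 • yv 2 + a 3 • yv 3).2.2.2) :
    ∀ k, c ∣ a k := by
  simp [yv] at h1 h2 h3 h4
  have e0 : c ∣ a 0 := h2
  have e3 : c ∣ a 3 := by
    have := dvd_add h3 e0
    have e : -a 0 + -a 3 + a 0 = -a 3 := by ring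
    simpa [e] using this
  have e2 : c ∣ a 2 := by
    have := dvd_add h4 e0
    have e : -a 0 + -a 2 + a 0 = -a 2 := by ring
    simpa [e] using this
  have e1 : c ∣ a 1 := by
    have := dvd_sub (dvd_sub (dvd_sub h1 (e0.mul_right 2)) e2) e3
    have e : a 0 * 2 + a 1 + a 2 + a 3 - a 0 * 2 - a 2 - a 3 = a 1 := by ring
    rwa [e] at this
  intro k
  fin_cases k
  exacts [e0, e1, e2, e3]

/-- Translations by vectors divisible by `s` act trivially modulo `s`. -/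
theorem E_dvd {s : ℕ} {y : H4} (h1 : (s : ℤ) ∣ y.1) (h2 : (s : ℤ) ∣ y.2.1)
    (h3 : (s : ℤ) ∣ y.2.2.1) (h4 : (s : ℤ) ∣ y.2.2.2) (v : V) : CGroup.pi s (E y v) = CGroup.pi s v := by
  obtain ⟨⟨p, x, y1, z⟩, a, b⟩ := v
  obtain ⟨q, q1, q2, q3⟩ := y
  simp only at h1 h2 h3 h4
  rw [← ZMod.intCast_zmod_eq_zero_iff_dvd] at h1 h2 h3 h4
  simp only [CGroup.pi, E, bil, nm, Prod.smul_mk, Prod.mk_add_mk, smul_eq_mul, Prod.mk.injEq]
  push_cast
  rw [h1, h2, h3, h4]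
  refine ⟨⟨?_, ?_, ?_, ?_⟩, ?_, trivial⟩ <;> ring

section group

variable {F : Type*} [Group F] {s : ℕ} (φ : F →* Equiv.Perm (VN s)) (g : ℕ → F)
  (hφ : ∀ i : ℕ, i < 5 → ∀ v, φ (g i) (pi s v) = pi s (B (ix i) v))
include hφ

theorem ev_act (l : List ℕ) (hl : ∀ i ∈ l, i < 5) (v : V) :
    φ (Wrd.ev g l) (pi s v) = pi s (actH l v) := by
  induction l with
  | nil => simp [Wrd.ev, actH]
  | cons i l ih =>
    rw [Wrd.ev_cons, map_mul, Equiv.Perm.mul_apply, ih (fun j hj => hl j (List.mem_cons_of_mem _ hj)),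
      hφ i (hl i List.mem_cons_self)]
    have hi := hl i List.mem_cons_self
    have e : B (ix i) (actH l v) = actH (i :: l) v := by
      change _ = R (ix (i + 1)) (actH l v)
      interval_cases i <;> rfl
    rw [e]

theorem tr_act (k : Fin 4) (v : V) : φ (Wrd.tr g k) (pi s v) = pi s (E (yv k) v) := by
  rw [Wrd.tr, ev_act φ g hφ _ (Wrd.tw_lt k), act_tw]
  rfl

/-- An element of the group generated by `g 0, …, g 4` which acts trivially is a product of powers of the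
translations with exponents divisible by `s`. -/
theorem triv_of_act (hs : 3 ≤ s) (h : Wrd.Cox g) {x : F}
    (hx : x ∈ closure {g 0, g 1, g 2, g 3, g 4}) (h1 : φ x = 1) :
    ∃ a : Fin 4 → ℤ, (∀ k, (s : ℤ) ∣ a k) ∧ x = Wrd.pp (Wrd.tr g) a := by
  obtain ⟨a, w, hw, rfl⟩ := Wrd.decomp g h hx
  have hfixw : φ w (pi s ((0, 0, 0, 0), 0, 1)) = pi s ((0, 0, 0, 0), 0, 1) := by
    refine fix_closure φ _ {g 1, g 2, g 3, g 4} ?_ w hw
    rintro y (rfl | rfl | rfl | rfl)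
    all_goals
      rw [hφ _ (by norm_num)]
      rfl
  have hfix : φ (Wrd.pp (Wrd.tr g) a) (pi s ((0, 0, 0, 0), 0, 1)) =
      pi s ((0, 0, 0, 0), 0, 1) := by
    have e : φ (Wrd.pp (Wrd.tr g) a * w) (pi s ((0, 0, 0, 0), 0, 1)) =
        pi s ((0, 0, 0, 0), 0, 1) := by rw [h1]; rfl
    rw [map_mul, Equiv.Perm.mul_apply, hfixw] at e
    exact e
  have hE := prod_E φ (tr_act φ g hφ) a
  rw [Wrd.pp, hE] at hfix
  obtain ⟨e1, e2, e3, e4⟩ := dvd_of_fix hfix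
  have hd := yv_dvd s a e1 e2 e3 e4
  refine ⟨a, hd, ?_⟩
  have h2 : φ (Wrd.pp (Wrd.tr g) a) = 1 := by
    ext1 v
    obtain ⟨v, rfl⟩ := pi_surj s v
    rw [Wrd.pp, hE, E_dvd e1 e2 e3 e4]
    rfl
  have h3 : φ w = 1 := by
    rw [map_mul, h2, one_mul] at h1
    exact h1
  have h4 : w = 1 := by
    refine EmbW.triv (r := fun i : Fin 6 => g i) (S := {0, 1, 2, 3, 4}) ?_ φ (pi s) ?_
      (fun v w => nearB_pi s hs v w) (by decide) w ?_ h3
    · intro i hi j hj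
      have hi5 : (i : ℕ) < 5 := by revert hi; revert i; decide
      have hj5 : (j : ℕ) < 5 := by revert hj; revert j; decide
      have e : coxB i j = Wrd.cx i j := by
        revert hi hj
        clear hi5 hj5
        revert i j
        decide
      rw [e]
      exact h i j hi5 hj5
    · intro i hi v
      have hi5 : (i : ℕ) < 5 := by revert hi; revert i; decide
      have e : ix (i : ℕ) = i := by revert i; decide
      change φ (g i) (pi s v) = _
      rw [hφ i hi5 v, e]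
    · have e : (fun i : Fin 6 => g i) '' ({1, 2, 3, 4} : Set (Fin 6)) = {g 1, g 2, g 3, g 4} := by
        simp [Set.image_insert_eq]
      rw [e]
      exact hw
  rw [h4, mul_one]

/-- P-type: if `T ^ s = 1` then the action is faithful. -/
theorem faithful (hs : 3 ≤ s) (h : Wrd.Cox g) (hT : ∀ k, Wrd.tr g k ^ s = 1) {x : F}
    (hx : x ∈ closure {g 0, g 1, g 2, g 3, g 4}) (h1 : φ x = 1) : x = 1 := by
  obtain ⟨a, hd, rfl⟩ := triv_of_act φ g hφ hs h hx h1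
  rw [Wrd.pp, zpow_dvd (hT 0) (hd 0), zpow_dvd (hT 1) (hd 1), zpow_dvd (hT 2) (hd 2),
    zpow_dvd (hT 3) (hd 3)]
  simp

end group

end Pool.Agent.Lib.MP_c2d01e_co.EmbF
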