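import Pool.Agent.Lib.MP_c2d01e_co.Ex.EmbF
import Pool.Agent.Lib.MP_c2d01e_co.Ex.WrdQ
import Pool.Agent.Lib.MP_c2d01e_co.Ex.CqB

/-!
# The groups of the facets of family (B) embed

The relators of the facet group are the relators of the whole group which contain only `ρ₀, …, ρ₄`. A word in
`ρ₀, …, ρ₄` which is trivial in the group of family (B) is trivial in the facet group: for the vectors `(2m,0,0,0)`,
`(m,m,0,0)` (`m ≥ 2`) and `(n,n,0,0)`, `(n,0,0,0)` (`n ≥ 3` odd).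
-/

set_option autoImplicit false

namespace Pool.Agent.Lib.MP_c2d01e_co.EmbFB

open Subgroup EqDefs CGroup CGroupB Ex Ex.Wrd EmbF

/-- The relators which contain only `ρ₀, …, ρ₄`. -/
def R5 (R : Set (FreeGroup (Fin 6))) : Set (FreeGroup (Fin 5)) :=
  {r | FreeGroup.map Fin.castSucc r ∈ R}

variable (R : Set (FreeGroup (Fin 6)))

theorem lift_cast (w : FreeGroup (Fin 5)) :
    FreeGroup.lift (fun i : Fin 5 => (PresentedGroup.of i.castSucc : PresentedGroup R)) w =
      PresentedGroup.mk R (FreeGroup.map Fin.castSucc w) := by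
  have e : FreeGroup.lift (fun i : Fin 5 => (PresentedGroup.of i.castSucc : PresentedGroup R)) =
      (PresentedGroup.mk R).comp (FreeGroup.map Fin.castSucc) := by
    ext i
    simp [PresentedGroup.of]
  rw [e]
  rfl

/-- The natural homomorphism. -/
def nat : PresentedGroup (R5 R) →* PresentedGroup R :=
  PresentedGroup.toGroup (f := fun i : Fin 5 => (PresentedGroup.of i.castSucc : PresentedGroup R))
    (fun r hr => by rw [lift_cast]; exact PresentedGroup.one_of_mem hr)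

theorem nat_of (i : Fin 5) : nat R (PresentedGroup.of i) = PresentedGroup.of i.castSucc := by
  rw [nat, PresentedGroup.toGroup.of]

theorem nat_mk (w : FreeGroup (Fin 5)) :
    nat R (PresentedGroup.mk (R5 R) w) = PresentedGroup.mk R (FreeGroup.map Fin.castSucc w) := by
  rw [← lift_cast]
  rfl

/-- The generators, indexed by the natural numbers. -/
def g5 (i : ℕ) : PresentedGroup (R5 R) := PresentedGroup.of (Fin.ofNat 5 i)

theorem cx5 : ∀ i < 5, ∀ j < 5, coxB (Fin.ofNat 5 i).castSucc (Fin.ofNat 5 j).castSucc = cx i j := by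
  decide

theorem ix5 : ∀ i < 5, (Fin.ofNat 5 i).castSucc = ix i := by decide

variable {R}

theorem g5_cox (hR : ∀ i j : Fin 6, (EqDefs.gen i * EqDefs.gen j) ^ coxB i j ∈ R) : Cox (g5 R) := by
  intro i j hi hj
  rw [← cx5 i hi j hj]
  have h : PresentedGroup.mk (R5 R) ((FreeGroup.of (Fin.ofNat 5 i) * FreeGroup.of (Fin.ofNat 5 j)) ^
      coxB (Fin.ofNat 5 i).castSucc (Fin.ofNat 5 j).castSucc) = 1 := by
    refine PresentedGroup.one_of_mem ?_
    change FreeGroup.map Fin.castSucc _ ∈ R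
    rw [map_pow, map_mul, FreeGroup.map.of, FreeGroup.map.of]
    exact hR _ _
  rw [map_pow, map_mul] at h
  exact h

theorem mem_top (x : PresentedGroup (R5 R)) :
    x ∈ closure {g5 R 0, g5 R 1, g5 R 2, g5 R 3, g5 R 4} := by
  have h : closure (Set.range (PresentedGroup.of : Fin 5 → PresentedGroup (R5 R))) ≤
      closure {g5 R 0, g5 R 1, g5 R 2, g5 R 3, g5 R 4} := by
    rw [closure_le]
    rintro y ⟨i, rfl⟩
    refine subset_closure ?_
    fin_cases i
    · exact Or.inl rfl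
    · exact Or.inr (Or.inl rfl)
    · exact Or.inr (Or.inr (Or.inl rfl))
    · exact Or.inr (Or.inr (Or.inr (Or.inl rfl)))
    · exact Or.inr (Or.inr (Or.inr (Or.inr rfl)))
  exact h (by rw [PresentedGroup.closure_range_of]; exact Subgroup.mem_top x)

section act

variable {s : ℕ} (ψ : PresentedGroup R →* Equiv.Perm (VN s))
  (hψ : ∀ i v, ψ (PresentedGroup.of i) (CGroup.pi s v) = CGroup.pi s (B i v))
include hψ

theorem act5 (i : ℕ) (hi : i < 5) (v : V) :
    (ψ.comp (nat R)) (g5 R i) (CGroup.pi s v) = CGroup.pi s (B (ix i) v) := by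
  rw [MonoidHom.comp_apply, g5, nat_of, hψ, ix5 i hi]

/-- Elements of `⟨g 1, …, g 4⟩` which act trivially are trivial. -/
theorem trivW (hs : 3 ≤ s) (hR : ∀ i j : Fin 6, (EqDefs.gen i * EqDefs.gen j) ^ coxB i j ∈ R)
    (w : PresentedGroup (R5 R)) (hw : w ∈ closure {g5 R 1, g5 R 2, g5 R 3, g5 R 4})
    (h3 : (ψ.comp (nat R)) w = 1) : w = 1 := by
  refine EmbW.triv (r := fun i : Fin 6 => g5 R i) (S := {0, 1, 2, 3, 4}) ?_ (ψ.comp (nat R))
    (CGroup.pi s) ?_ (fun v w => nearB_pi s hs v w) (by decide) w ?_ h3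
  · intro i hi j hj
    have hi5 : (i : ℕ) < 5 := by revert hi; revert i; decide
    have hj5 : (j : ℕ) < 5 := by revert hj; revert j; decide
    have e : coxB i j = cx i j := by
      revert hi hj
      clear hi5 hj5
      revert i j
      decide
    rw [e]
    exact g5_cox hR i j hi5 hj5
  · intro i hi v
    have hi5 : (i : ℕ) < 5 := by revert hi; revert i; decide
    have e : ix (i : ℕ) = i := by revert i; decide
    change (ψ.comp (nat R)) (g5 R i) (CGroup.pi s v) = _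
    rw [act5 ψ hψ i hi5 v, e]
  · have e : (fun i : Fin 6 => g5 R i) '' ({1, 2, 3, 4} : Set (Fin 6)) =
        {g5 R 1, g5 R 2, g5 R 3, g5 R 4} := by
      simp [Set.image_insert_eq]
    rw [e]
    exact hw

end act

/-- Facets, P-type. -/
theorem facP (m : ℕ) (hm : 2 ≤ m) (w : FreeGroup (Fin 5))
    (hw : FreeGroup.map Fin.castSucc w ∈ normalClosure (relsB (2 * m) 1 m 2)) :
    w ∈ normalClosure {r : FreeGroup (Fin 5) | FreeGroup.map Fin.castSucc r ∈
      relsB (2 * m) 1 m 2} := by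
  obtain ⟨ψ, hψ⟩ := ExHom.actB1 m
  have hR : ∀ i j : Fin 6, (EqDefs.gen i * EqDefs.gen j) ^ coxB i j ∈ relsB (2 * m) 1 m 2 :=
    fun i j => Or.inl ⟨i, j, rfl⟩
  have h1 : nat (relsB (2 * m) 1 m 2) (PresentedGroup.mk (R5 (relsB (2 * m) 1 m 2)) w) = 1 := by
    rw [nat_mk]
    exact (QuotientGroup.eq_one_iff _).2 hw
  have hT : (g5 (relsB (2 * m) 1 m 2) 0 * (g5 _ 1 * g5 _ 2 * g5 _ 3 * g5 _ 2 * g5 _ 1) *
      (g5 _ 4 * g5 _ 3 * g5 _ 2 * g5 _ 3 * g5 _ 4) *
      (g5 _ 1 * g5 _ 2 * g5 _ 3 * g5 _ 2 * g5 _ 1)) ^ (2 * m) = 1 := by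
    have h : PresentedGroup.mk (R5 (relsB (2 * m) 1 m 2))
        ((FreeGroup.of 0 * (FreeGroup.of 1 * FreeGroup.of 2 * FreeGroup.of 3 * FreeGroup.of 2 *
          FreeGroup.of 1) * (FreeGroup.of 4 * FreeGroup.of 3 * FreeGroup.of 2 * FreeGroup.of 3 *
          FreeGroup.of 4) * (FreeGroup.of 1 * FreeGroup.of 2 * FreeGroup.of 3 * FreeGroup.of 2 *
          FreeGroup.of 1)) ^ (2 * m)) = 1 := by
      refine PresentedGroup.one_of_mem ?_
      change FreeGroup.map Fin.castSucc _ ∈ relsB (2 * m) 1 m 2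
      refine Or.inr (Or.inl ?_)
      rw [facetB, if_pos rfl]
      simp only [map_pow, map_mul, FreeGroup.map.of]
      rfl
    simp only [map_pow, map_mul] at h
    exact h
  have h2 := faithful (ψ.comp (nat (relsB (2 * m) 1 m 2))) (g5 _) (act5 ψ hψ) (by omega)
    (g5_cox hR) (fun k => (WrdQ.tpow (g5 _) (g5_cox hR) (2 * m) hT k).1)
    (mem_top (PresentedGroup.mk (R5 (relsB (2 * m) 1 m 2)) w))
    (by rw [MonoidHom.comp_apply, h1, map_one])
  exact (QuotientGroup.eq_one_iff _).1 h2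

/-- Facets, Q-type. -/
theorem facQ (n : ℕ) (hn : 3 ≤ n) (ho : Odd n) (w : FreeGroup (Fin 5))
    (hw : FreeGroup.map Fin.castSucc w ∈ normalClosure (relsB n 2 n 1)) :
    w ∈ normalClosure {r : FreeGroup (Fin 5) | FreeGroup.map Fin.castSucc r ∈
      relsB n 2 n 1} := by
  obtain ⟨ψ, hψ⟩ := ExHom.actB2 n
  have hs : (2 : ℕ) = 1 → Even n := fun h => absurd h (by norm_num)
  have hR : ∀ i j : Fin 6, (EqDefs.gen i * EqDefs.gen j) ^ coxB i j ∈ relsB n 2 n 1 :=
    fun i j => Or.inl ⟨i, j, rfl⟩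
  have h1 : nat (relsB n 2 n 1) (PresentedGroup.mk (R5 (relsB n 2 n 1)) w) = 1 := by
    rw [nat_mk]
    exact (QuotientGroup.eq_one_iff _).2 hw
  have hX : (tr (g5 (relsB n 2 n 1)) 2 * tr (g5 _) 3) ^ n = 1 := by
    have h : PresentedGroup.mk (R5 (relsB n 2 n 1))
        ((FreeGroup.of 0 * (FreeGroup.of 1 * FreeGroup.of 2 * FreeGroup.of 3 * FreeGroup.of 2 *
          FreeGroup.of 1) * (FreeGroup.of 4 * FreeGroup.of 3 * FreeGroup.of 2 * FreeGroup.of 3 *
          FreeGroup.of 4)) ^ (2 * n)) = 1 := by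
      refine PresentedGroup.one_of_mem ?_
      change FreeGroup.map Fin.castSucc _ ∈ relsB n 2 n 1
      refine Or.inr (Or.inl ?_)
      rw [facetB, if_neg (by norm_num)]
      simp only [map_pow, map_mul, FreeGroup.map.of]
      rfl
    rw [map_pow, pow_mul, pow_two] at h
    have e := WX.x23 (g5 (relsB n 2 n 1)) (g5_cox hR)
    rw [ev_app] at e
    change _ = tr (g5 _) 2 * tr (g5 _) 3 at e
    rw [← e, ← h]
    congr 1
  set φ := ψ.comp (nat (relsB n 2 n 1)) with hφ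
  set χ := (psi4 n 2 n 1 hs).comp (nat (relsB n 2 n 1)) with hχ
  have hact := act5 ψ hψ
  have hχg : ∀ i < 5, χ (g5 _ i) = P4 (ix i) := by
    intro i hi
    rw [hχ, MonoidHom.comp_apply, g5, nat_of, psi4_of, ix5 i hi]
  let C : Subgroup (PresentedGroup (R5 (relsB n 2 n 1))) :=
    (MulAction.stabilizer (Equiv.Perm (VN n))
      (CGroup.pi n ((0, 0, 0, 0), 0, 1))).comap φ ⊓
    (MulAction.stabilizer (Equiv.Perm (Fin 4)) (0 : Fin 4)).comap χ
  have hCm : ∀ x, x ∈ C ↔ φ x (CGroup.pi n ((0, 0, 0, 0), 0, 1)) =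
      CGroup.pi n ((0, 0, 0, 0), 0, 1) ∧ χ x 0 = 0 := fun x => Iff.rfl
  have hWC : closure {g5 (relsB n 2 n 1) 1, g5 _ 2, g5 _ 3, g5 _ 4} ≤ C := by
    rw [closure_le]
    rintro y (rfl | rfl | rfl | rfl)
    all_goals
      refine (hCm _).2 ⟨?_, ?_⟩
      · rw [hact _ (by norm_num)]
        rfl
      · rw [hχg _ (by norm_num)]
        decide
  have key := infQ2 (g5 (relsB n 2 n 1)) (g5_cox hR) ho hX (C := C) hWC
    (fun a ha => by
      have h4 := ((hCm _).1 ha).1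
      rw [pp, prod_E φ (tr_act φ (g5 _) hact)] at h4
      obtain ⟨d1, d2, d3, d4⟩ := dvd_of_fix h4
      exact yv_dvd n a d1 d2 d3 d4)
    χ (fun x hx => ((hCm _).1 hx).2)
    (by rw [hχg 0 (by norm_num)]; rfl) (by rw [hχg 1 (by norm_num)]; rfl)
    (by rw [hχg 2 (by norm_num)]; rfl) (by rw [hχg 3 (by norm_num)]; rfl)
    (by rw [hχg 4 (by norm_num)]; rfl)
  have hφ1 : φ (PresentedGroup.mk (R5 (relsB n 2 n 1)) w) = 1 := by
    rw [hφ, MonoidHom.comp_apply, h1, map_one]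
  have hχ1 : χ (PresentedGroup.mk (R5 (relsB n 2 n 1)) w) = 1 := by
    rw [hχ, MonoidHom.comp_apply, h1, map_one]
  have hx := key ⟨mem_top (PresentedGroup.mk (R5 (relsB n 2 n 1)) w),
    (hCm _).2 ⟨by rw [hφ1]; rfl, by rw [hχ1]; rfl⟩⟩
  have h2 := trivW ψ hψ hn hR _ hx hφ1
  exact (QuotientGroup.eq_one_iff _).1 h2

end Pool.Agent.Lib.MP_c2d01e_co.EmbFB
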