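import Pool.Agent.Lib.MP_c2d01e_co.Ex.EmbDefs
import Pool.Agent.Lib.MP_c2d01e_co.Ex.HomC
import Pool.Agent.Lib.MP_c2d01e_co.Ex.CGC

/-!
# The facets of family (C)

The presented groups of the facets of family (C) and of the vertex-figures of family (B) are the same; the actions on the
lattice are conjugate by the reflection `R 0`. So the facets of (C) embed as soon as the vertex-figures of (B) act
faithfully.
-/

set_option autoImplicit false

namespace Pool.Agent.Lib.MP_c2d01e_co.EmbFC

open EqDefs EmbDefs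

/-- Every action by the maps `A i` modulo `s` is faithful. -/
def Faith (R : Set (FreeGroup (Fin 5))) (s : ℕ) (A : Fin 5 → V → V) : Prop :=
  ∀ φ : PresentedGroup R →* Equiv.Perm (CGroup.VN s),
    (∀ i v, φ (PresentedGroup.of i) (CGroup.pi s v) = CGroup.pi s (A i v)) → Function.Injective φ

theorem cox_eq : ∀ i j : Fin 5, coxC i.castSucc j.castSucc = coxB i.succ j.succ := by decide

theorem rels_eq (t k : ℕ) :
    ({r | ∃ i j : Fin 5, r = (x i * x j) ^ coxC i.castSucc j.castSucc} ∪ {facC t k} :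
      Set (FreeGroup (Fin 5))) =
    {r | ∃ i j : Fin 5, r = (x i * x j) ^ coxB i.succ j.succ} ∪ {verB t k} := by
  simp only [cox_eq]
  rfl

theorem conj_R (j : Fin 6) (h : ((0 : Fin 6) : ℕ) + 2 ≤ j) (v : V) : R 0 (R j (R 0 v)) = R j v := by
  have := congrArg (R j) (comm_R 0 j h v)
  rwa [R_R] at this

/-- The conjugate by `R 0` of a reflection of (C) is one of (B). -/
theorem conj_C (i : Fin 5) (v : V) : R 0 (CGroupC.C i.castSucc (R 0 v)) = CGroupB.B i.succ v := by
  fin_cases i
  · exact conj_R 2 (by decide) v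
  · exact conj_R 3 (by decide) v
  · exact conj_R 4 (by decide) v
  · exact conj_R 5 (by decide) v
  · show R 0 (CGroupC.C 4 (R 0 v)) = CGroupB.B 5 v
    rw [CGroupC.C_four, CGroupB.B_five]

theorem faithC {t k s : ℕ}
    (hV : Faith ({r | ∃ i j : Fin 5, r = (x i * x j) ^ coxB i.succ j.succ} ∪ {verB t k}) s
      (fun i => CGroupB.B i.succ)) :
    Faith ({r | ∃ i j : Fin 5, r = (x i * x j) ^ coxC i.castSucc j.castSucc} ∪ {facC t k}) s
      (fun i => CGroupC.C i.castSucc) := by
  rw [← rels_eq] at hV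
  intro φ hφ
  have h := hV ((MulAut.conj (CGroup.PN s 0)).toMonoidHom.comp φ) (fun i v => by
    have hinv : (CGroup.PN s 0)⁻¹ = CGroup.PN s 0 :=
      inv_eq_of_mul_eq_one_left (CGroup.PN_sq s 0)
    show (CGroup.PN s 0 * φ (PresentedGroup.of i) * (CGroup.PN s 0)⁻¹) (CGroup.pi s v) = _
    rw [hinv, Equiv.Perm.mul_apply, Equiv.Perm.mul_apply, CGroup.PN_pi, hφ, CGroup.PN_pi, conj_C])
  intro a b hab
  exact h (by rw [MonoidHom.comp_apply, MonoidHom.comp_apply, hab])

/-- The natural map from the facets, and its injectivity. -/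
theorem embC {t k u l s : ℕ} {ψ : GamC t k u l →* Equiv.Perm (CGroup.VN s)}
    (hψ : ∀ i v, ψ (PresentedGroup.of i) (CGroup.pi s v) = CGroup.pi s (CGroupC.C i v))
    (hV : ∀ φ : VerB t k →* Equiv.Perm (CGroup.VN s),
      (∀ i v, φ (PresentedGroup.of i) (CGroup.pi s v) = CGroup.pi s (CGroupB.B i.succ v)) →
        Function.Injective φ) :
    ∃ f : FacC t k →* GamC t k u l, Function.Injective f ∧
      ∀ i : Fin 5, f (PresentedGroup.of i) = PresentedGroup.of i.castSucc := by
  have hrel : ∀ r ∈ ({r | ∃ i j : Fin 5, r = (x i * x j) ^ coxC i.castSucc j.castSucc} ∪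
      {facC t k} : Set (FreeGroup (Fin 5))),
      FreeGroup.lift (fun i : Fin 5 => (PresentedGroup.of i.castSucc : GamC t k u l)) r = 1 := by
    rintro r (⟨i, j, rfl⟩ | hr)
    · rw [map_pow, map_mul, x, x, FreeGroup.lift_apply_of, FreeGroup.lift_apply_of]
      exact ExHom.of_coxC t k u l _ _
    · rw [Set.mem_singleton_iff.1 hr]
      have h : (PresentedGroup.mk (relsC t k u l)) (facetC t k) = 1 :=
        PresentedGroup.one_of_mem (Or.inr (Or.inl rfl))
      rw [← h]
      unfold facC facetC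
      split_ifs
      · rw [map_pow, map_pow]
        congr 1
      · rw [map_pow, map_pow]
        congr 1
  refine ⟨PresentedGroup.toGroup hrel, ?_, fun i => PresentedGroup.toGroup.of _⟩
  have h := faithC (t := t) (k := k) (s := s) hV (ψ.comp (PresentedGroup.toGroup hrel))
    (fun i v => by
      rw [MonoidHom.comp_apply, PresentedGroup.toGroup.of]
      exact hψ _ _)
  intro a b hab
  exact h (by rw [MonoidHom.comp_apply, MonoidHom.comp_apply, hab])

/-- The facets `{3,4,3,3}_(n,0,0,0)` in the group with the vectors `(n,0,0,0)`, `(n,n,0,0)`. -/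
theorem embC1 (n : ℕ) (hV : ∀ φ : VerB n 1 →* Equiv.Perm (CGroup.VN n),
      (∀ i v, φ (PresentedGroup.of i) (CGroup.pi n v) = CGroup.pi n (CGroupB.B i.succ v)) →
        Function.Injective φ) :
    ∃ f : FacC n 1 →* GamC n 1 n 2, Function.Injective f ∧
      ∀ i : Fin 5, f (PresentedGroup.of i) = PresentedGroup.of i.castSucc := by
  obtain ⟨ψ, hψ⟩ := ExHom.actC1 n
  exact embC hψ hV

/-- The facets `{3,4,3,3}_(n,n,0,0)` in the group with the vectors `(n,n,0,0)`, `(n,n,n,n)`. -/
theorem embC2 (n : ℕ) (hV : ∀ φ : VerB n 2 →* Equiv.Perm (CGroup.VN (2 * n)),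
      (∀ i v, φ (PresentedGroup.of i) (CGroup.pi (2 * n) v) =
        CGroup.pi (2 * n) (CGroupB.B i.succ v)) → Function.Injective φ) :
    ∃ f : FacC n 2 →* GamC n 2 n 4, Function.Injective f ∧
      ∀ i : Fin 5, f (PresentedGroup.of i) = PresentedGroup.of i.castSucc := by
  obtain ⟨ψ, hψ⟩ := ExHom.actC2 n
  exact embC hψ hV

end Pool.Agent.Lib.MP_c2d01e_co.EmbFC
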