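import Pool.Agent.Lib.MP_c2d01e_co.Ex.CC19
import Pool.Agent.Lib.MP_c2d01e_co.Ex.EmbC
import Pool.Agent.Lib.MP_c2d01e_co.Ex.EmbDefs
import Pool.Agent.Lib.MP_c2d01e_co.Ex.WrdQ

/-!
# The facet groups of family (C) embed (helper19)
-/

set_option autoImplicit false

namespace Pool.Agent.Lib.MP_c2d01e_co.Ex.EmbFC19

open Subgroup EqDefs Ex.C19 Ex.CC19 Ex.Wrd

/-- The vectors of the four translations. -/
def y3 : Fin 4 → H4 := ![(2, 0, -1, -1), (2, -2, -1, -1), (0, 0, 1, 1), (2, -1, 0, -1)]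

/-- The reversed generators. -/
def gi {P : Type} (r : Fin 6 → P) : ℕ → P
  | 0 => r 4
  | 1 => r 3
  | 2 => r 2
  | 3 => r 1
  | _ => r 0

/-- The words of the reversed generators. -/
def cg : ℕ → List (Fin 6)
  | 0 => [1, 2, 3, 4, 3, 2, 1]
  | 1 => [5]
  | 2 => [4]
  | 3 => [3]
  | _ => [2]

variable {P : Type} [Group P] {r : Fin 6 → P} {s : ℕ}

theorem gi_cox (hr : ∀ i ∈ ({0, 1, 2, 3, 4} : Finset (Fin 6)),
    ∀ j ∈ ({0, 1, 2, 3, 4} : Finset (Fin 6)), (r i * r j) ^ coxC i j = 1) : Cox (gi r) := by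
  intro i j hi hj
  interval_cases i <;> interval_cases j <;> exact hr _ (by decide) _ (by decide)

theorem act_gi (φ : P →* Equiv.Perm (CGroup.VN s))
    (hφ : ∀ i ∈ ({0, 1, 2, 3, 4} : Finset (Fin 6)), ∀ v, φ (r i) (CGroup.pi s v) =
      CGroup.pi s (CGroupC.C i v)) (i : ℕ) (v : V) :
    φ (gi r i) (CGroup.pi s v) = CGroup.pi s (wd (cg i) v) := by
  match i with
  | 0 =>
    show φ (r 4) _ = _
    rw [hφ 4 (by decide), C_cl]
    rfl
  | 1 =>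
    show φ (r 3) _ = _
    rw [hφ 3 (by decide), C_cl]
    rfl
  | 2 =>
    show φ (r 2) _ = _
    rw [hφ 2 (by decide), C_cl]
    rfl
  | 3 =>
    show φ (r 1) _ = _
    rw [hφ 1 (by decide), C_cl]
    rfl
  | k + 4 =>
    show φ (r 0) _ = _
    rw [hφ 0 (by decide), C_cl]
    rfl

theorem act_ev (φ : P →* Equiv.Perm (CGroup.VN s))
    (hφ : ∀ i ∈ ({0, 1, 2, 3, 4} : Finset (Fin 6)), ∀ v, φ (r i) (CGroup.pi s v) =
      CGroup.pi s (CGroupC.C i v)) (l : List ℕ) (v : V) :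
    φ (ev (gi r) l) (CGroup.pi s v) = CGroup.pi s (wd (l.flatMap cg) v) := by
  induction l generalizing v with
  | nil => rw [ev_nil, map_one]; rfl
  | cons k l ih =>
    rw [ev_cons, map_mul, Equiv.Perm.mul_apply, ih, act_gi φ hφ, ← wd_append, List.flatMap_cons]

theorem tq_act (k : Fin 4) (v : V) : wd ((WrdQ.tq k).flatMap cg) v = E (y3 k) v := by
  have h : ∀ k : Fin 4, ∀ i : Fin 6, wd ((WrdQ.tq k).flatMap cg) (bs i) = (Em (y3 k)) (bs i) := by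
    decide +kernel
  exact ext_basis _ _ (h k) v

theorem act_trq (φ : P →* Equiv.Perm (CGroup.VN s))
    (hφ : ∀ i ∈ ({0, 1, 2, 3, 4} : Finset (Fin 6)), ∀ v, φ (r i) (CGroup.pi s v) =
      CGroup.pi s (CGroupC.C i v)) (k : Fin 4) (v : V) :
    φ (WrdQ.trq (gi r) k) (CGroup.pi s v) = CGroup.pi s (E (y3 k) v) := by
  rw [WrdQ.trq, act_ev φ hφ, tq_act]

theorem dvd_fix4 {y : H4}
    (h : CGroup.pi s (E y ((0, 0, 0, 0), -1, 1)) = CGroup.pi s ((0, 0, 0, 0), -1, 1)) :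
    (s : ℤ) ∣ y.1 ∧ (s : ℤ) ∣ y.2.1 ∧ (s : ℤ) ∣ y.2.2.1 ∧ (s : ℤ) ∣ y.2.2.2 := by
  obtain ⟨p, q, r, t⟩ := y
  have e : ∀ x : ℤ, (((0 + 1 * x : ℤ)) : ZMod s) = ((0 : ℤ) : ZMod s) → (s : ℤ) ∣ x := by
    intro x hx
    rw [← ZMod.intCast_zmod_eq_zero_iff_dvd]
    simpa using hx
  have h0 := congrArg Prod.fst h
  have h1 := congrArg Prod.fst h0
  have h2 := congrArg (fun x => x.2.1) h0
  have h3 := congrArg (fun x => x.2.2.1) h0
  have h4 := congrArg (fun x => x.2.2.2) h0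
  exact ⟨e _ h1, e _ h2, e _ h3, e _ h4⟩

/-- The divisibilities. -/
theorem coords (φ : P →* Equiv.Perm (CGroup.VN s))
    (hφ : ∀ i ∈ ({0, 1, 2, 3, 4} : Finset (Fin 6)), ∀ v, φ (r i) (CGroup.pi s v) =
      CGroup.pi s (CGroupC.C i v)) (a : Fin 4 → ℤ)
    (h : φ (pp (WrdQ.trq (gi r)) a) (CGroup.pi s (CGroupC.fvC 4)) = CGroup.pi s (CGroupC.fvC 4)) :
    (s : ℤ) ∣ 2 * a 0 + 2 * a 1 + 2 * a 3 ∧ (s : ℤ) ∣ 2 * a 1 + a 3 ∧
      (s : ℤ) ∣ a 2 - a 0 - a 1 ∧ (s : ℤ) ∣ a 2 - a 0 - a 1 - a 3 := by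
  unfold pp at h
  rw [prod_act φ (fun v => CGroup.pi s v) (act_trq φ hφ)] at h
  obtain ⟨e1, e2, e3, e4⟩ := dvd_fix4 h
  have f1 : (a 0 • y3 0 + a 1 • y3 1 + a 2 • y3 2 + a 3 • y3 3).1 =
      2 * a 0 + 2 * a 1 + 2 * a 3 := by
    show a 0 * 2 + a 1 * 2 + a 2 * 0 + a 3 * 2 = _
    ring
  have f2 : (a 0 • y3 0 + a 1 • y3 1 + a 2 • y3 2 + a 3 • y3 3).2.1 = -(2 * a 1 + a 3) := by
    show a 0 * 0 + a 1 * (-2) + a 2 * 0 + a 3 * (-1) = _
    ring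
  have f3 : (a 0 • y3 0 + a 1 • y3 1 + a 2 • y3 2 + a 3 • y3 3).2.2.1 = a 2 - a 0 - a 1 := by
    show a 0 * (-1) + a 1 * (-1) + a 2 * 1 + a 3 * 0 = _
    ring
  have f4 : (a 0 • y3 0 + a 1 • y3 1 + a 2 • y3 2 + a 3 • y3 3).2.2.2 =
      a 2 - a 0 - a 1 - a 3 := by
    show a 0 * (-1) + a 1 * (-1) + a 2 * 1 + a 3 * (-1) = _
    ring
  rw [f1] at e1
  rw [f2, Int.dvd_neg] at e2
  rw [f3] at e3
  rw [f4] at e4
  exact ⟨e1, e2, e3, e4⟩

/-- From the triviality of the translations to the faithfulness. -/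
theorem faith (hr : ∀ i ∈ ({0, 1, 2, 3, 4} : Finset (Fin 6)),
    ∀ j ∈ ({0, 1, 2, 3, 4} : Finset (Fin 6)), (r i * r j) ^ coxC i j = 1) (hs : 3 ≤ s)
    (φ : P →* Equiv.Perm (CGroup.VN s))
    (hφ : ∀ i ∈ ({0, 1, 2, 3, 4} : Finset (Fin 6)), ∀ v, φ (r i) (CGroup.pi s v) =
      CGroup.pi s (CGroupC.C i v))
    (hone : ∀ a : Fin 4 → ℤ, (s : ℤ) ∣ 2 * a 0 + 2 * a 1 + 2 * a 3 → (s : ℤ) ∣ 2 * a 1 + a 3 →
      (s : ℤ) ∣ a 2 - a 0 - a 1 → (s : ℤ) ∣ a 2 - a 0 - a 1 - a 3 →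
      pp (WrdQ.trq (gi r)) a = 1)
    (x : P) (hx : x ∈ closure {gi r 0, gi r 1, gi r 2, gi r 3, gi r 4}) (h1 : φ x = 1) : x = 1 := by
  refine ExC.embF hr (by decide) φ (CGroup.pi s) hφ (CGroupB.nearB_pi s hs) 4 (by decide)
    {x | x ∈ closure {gi r 0, gi r 1, gi r 2, gi r 3, gi r 4}}
    {t | ∃ a : Fin 4 → ℤ, t = pp (WrdQ.trq (gi r)) a} ?_ ?_ x hx h1
  · intro y hy
    obtain ⟨a, w, hw, rfl⟩ := WrdQ.decomp (gi r) (gi_cox hr) hy
    refine ⟨_, ⟨a, rfl⟩, w, ?_, rfl⟩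
    have hle : closure {gi r 1, gi r 2, gi r 3, gi r 4} ≤
        closure (r '' ({0, 1, 2, 3} : Set (Fin 6))) := by
      rw [closure_le]
      intro z hz
      simp only [Set.mem_insert_iff, Set.mem_singleton_iff] at hz
      rcases hz with rfl | rfl | rfl | rfl
      · exact Subgroup.subset_closure ⟨3, by simp, rfl⟩
      · exact Subgroup.subset_closure ⟨2, by simp, rfl⟩
      · exact Subgroup.subset_closure ⟨1, by simp, rfl⟩
      · exact Subgroup.subset_closure ⟨0, by simp, rfl⟩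
    exact hle hw
  · rintro t ⟨a, rfl⟩ ht
    obtain ⟨e1, e2, e3, e4⟩ := coords φ hφ a ht
    exact hone a e1 e2 e3 e4

/-- P-type: the relator of `(m,m,0,0)`, the action modulo `2 m`. -/
theorem faithP (hr : ∀ i ∈ ({0, 1, 2, 3, 4} : Finset (Fin 6)),
    ∀ j ∈ ({0, 1, 2, 3, 4} : Finset (Fin 6)), (r i * r j) ^ coxC i j = 1) {m : ℕ} (hm : 2 ≤ m)
    (hX : (r 4 * (r 3 * r 2 * r 1 * r 2 * r 3) * (r 0 * r 1 * r 2 * r 1 * r 0)) ^ (2 * m) = 1)
    (φ : P →* Equiv.Perm (CGroup.VN (2 * m)))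
    (hφ : ∀ i ∈ ({0, 1, 2, 3, 4} : Finset (Fin 6)), ∀ v, φ (r i) (CGroup.pi (2 * m) v) =
      CGroup.pi (2 * m) (CGroupC.C i v))
    (x : P) (hx : x ∈ closure {gi r 0, gi r 1, gi r 2, gi r 3, gi r 4}) (h1 : φ x = 1) : x = 1 := by
  refine faith hr (by omega) φ hφ (fun a e1 e2 e3 e4 => ?_) x hx h1
  obtain ⟨t1, t2, t0, t3⟩ := WrdQ.xrel (gi r) (gi_cox hr) m hX
  have e5 : ((2 * m : ℕ) : ℤ) ∣ a 3 := by
    have := dvd_sub e3 e4
    rwa [show a 2 - a 0 - a 1 - (a 2 - a 0 - a 1 - a 3) = a 3 by ring] at this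
  obtain ⟨k3, h3⟩ := e5
  obtain ⟨k1, h2⟩ := e2
  obtain ⟨k0, h0⟩ := e1
  obtain ⟨k2, h4⟩ := e3
  push_cast at h0 h2 h3 h4
  have f1 : a 1 = m * (k1 - k3) := by
    have : 2 * a 1 = 2 * (m * (k1 - k3)) := by rw [mul_sub, mul_sub]; linarith
    linarith
  have f0 : a 0 = m * (k0 - k1 - k3) := by
    have : 2 * a 0 = 2 * (m * (k0 - k1 - k3)) := by
      rw [f1] at h0
      rw [h3] at h0
      linarith
    linarith
  have f2 : a 2 = m * (2 * k2 + k0 - 2 * k3) := by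
    rw [f0, f1] at h4
    linarith
  have g3 : WrdQ.trq (gi r) 3 ^ a 3 = 1 := by
    rw [h3, show (2 * (m : ℤ) * k3) = ((2 * m : ℕ) : ℤ) * k3 by push_cast; ring, zpow_mul,
      zpow_natCast, t3, one_zpow]
  unfold pp
  rw [g3, mul_one, f0, f1, f2, zpow_mul, zpow_mul, zpow_mul, zpow_natCast, zpow_natCast,
    zpow_natCast, t1, t2, ← zpow_add, ← zpow_add,
    show k0 - k1 - k3 + (k1 - k3) + (2 * k2 + k0 - 2 * k3) = 2 * (k0 + k2 - 2 * k3) by ring,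
    zpow_mul]
  have : (WrdQ.trq (gi r) 0 ^ m) ^ (2 : ℤ) = 1 := by
    rw [mul_comm, pow_mul] at t0
    exact_mod_cast t0
  rw [this, one_zpow]

/-- Q-type: the relator of `(n,0,0,0)`, `n` odd, the action modulo `n`. -/
theorem faithQ (hr : ∀ i ∈ ({0, 1, 2, 3, 4} : Finset (Fin 6)),
    ∀ j ∈ ({0, 1, 2, 3, 4} : Finset (Fin 6)), (r i * r j) ^ coxC i j = 1) {n : ℕ} (hn : 3 ≤ n)
    (hodd : Odd n)
    (hT : (r 4 * (r 3 * r 2 * r 1 * r 2 * r 3) * (r 0 * r 1 * r 2 * r 1 * r 0) *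
      (r 3 * r 2 * r 1 * r 2 * r 3)) ^ n = 1)
    (φ : P →* Equiv.Perm (CGroup.VN n))
    (hφ : ∀ i ∈ ({0, 1, 2, 3, 4} : Finset (Fin 6)), ∀ v, φ (r i) (CGroup.pi n v) =
      CGroup.pi n (CGroupC.C i v))
    (x : P) (hx : x ∈ closure {gi r 0, gi r 1, gi r 2, gi r 3, gi r 4}) (h1 : φ x = 1) : x = 1 := by
  refine faith hr hn φ hφ (fun a e1 e2 e3 e4 => ?_) x hx h1
  have hc2 : IsCoprime (n : ℤ) 2 := by
    obtain ⟨k, hk⟩ := hodd
    refine ⟨1, -k, ?_⟩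
    rw [hk]
    push_cast
    ring
  have d3 : (n : ℤ) ∣ a 3 := by
    have := dvd_sub e3 e4
    rwa [show a 2 - a 0 - a 1 - (a 2 - a 0 - a 1 - a 3) = a 3 by ring] at this
  have d1 : (n : ℤ) ∣ a 1 := hc2.dvd_of_dvd_mul_left ((dvd_add_left d3).1 e2)
  have d0 : (n : ℤ) ∣ a 0 := by
    have h5 : (n : ℤ) ∣ 2 * a 0 := by
      have := dvd_sub (dvd_sub e1 (d1.mul_left 2)) (d3.mul_left 2)
      rwa [show 2 * a 0 + 2 * a 1 + 2 * a 3 - 2 * a 1 - 2 * a 3 = 2 * a 0 by ring] at this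
    exact hc2.dvd_of_dvd_mul_left h5
  have d2 : (n : ℤ) ∣ a 2 := by
    have := dvd_add (dvd_add e3 d0) d1
    rwa [show a 2 - a 0 - a 1 + a 0 + a 1 = a 2 by ring] at this
  have ht := fun j => (WrdQ.tpow (gi r) (gi_cox hr) n hT j).2
  have hz : ∀ j, (n : ℤ) ∣ a j → WrdQ.trq (gi r) j ^ a j = 1 := by
    rintro j ⟨k, hk⟩
    rw [hk, zpow_mul, zpow_natCast, ht, one_zpow]
  unfold pp
  rw [hz 0 d0, hz 1 d1, hz 2 d2, hz 3 d3]
  simp

/-- The six elements of the facet group. -/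
def r5 (t k : ℕ) : Fin 6 → EmbDefs.FacC t k := ![PresentedGroup.of 0, PresentedGroup.of 1,
  PresentedGroup.of 2, PresentedGroup.of 3, PresentedGroup.of 4, 1]

theorem r5_cast (t k : ℕ) (i : Fin 5) : r5 t k i.castSucc = PresentedGroup.of i := by
  fin_cases i <;> rfl

theorem r5_cox (t k : ℕ) : ∀ i ∈ ({0, 1, 2, 3, 4} : Finset (Fin 6)),
    ∀ j ∈ ({0, 1, 2, 3, 4} : Finset (Fin 6)), (r5 t k i * r5 t k j) ^ coxC i j = 1 := by
  have key : ∀ i j : Fin 5, ((PresentedGroup.of i : EmbDefs.FacC t k) * PresentedGroup.of j) ^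
      coxC i.castSucc j.castSucc = 1 := by
    intro i j
    have h : (PresentedGroup.mk _ ((EmbDefs.x i * EmbDefs.x j) ^ coxC i.castSucc j.castSucc) :
        EmbDefs.FacC t k) = 1 := PresentedGroup.one_of_mem (Or.inl ⟨i, j, rfl⟩)
    rw [map_pow, map_mul] at h
    exact h
  intro i hi j hj
  have h5 : ∀ i ∈ ({0, 1, 2, 3, 4} : Finset (Fin 6)), ∃ i' : Fin 5, i = i'.castSucc := by decide
  obtain ⟨i', rfl⟩ := h5 i hi
  obtain ⟨j', rfl⟩ := h5 j hj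
  rw [r5_cast, r5_cast]
  exact key i' j'

theorem r5_top (t k : ℕ) (x : EmbDefs.FacC t k) :
    x ∈ closure {gi (r5 t k) 0, gi (r5 t k) 1, gi (r5 t k) 2, gi (r5 t k) 3, gi (r5 t k) 4} := by
  have h : (⊤ : Subgroup (EmbDefs.FacC t k)) ≤
      closure {gi (r5 t k) 0, gi (r5 t k) 1, gi (r5 t k) 2, gi (r5 t k) 3, gi (r5 t k) 4} := by
    rw [← PresentedGroup.closure_range_of, closure_le]
    rintro y ⟨i, rfl⟩
    apply Subgroup.subset_closure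
    fin_cases i
    · exact Or.inr (Or.inr (Or.inr (Or.inr rfl)))
    · exact Or.inr (Or.inr (Or.inr (Or.inl rfl)))
    · exact Or.inr (Or.inr (Or.inl rfl))
    · exact Or.inr (Or.inl rfl)
    · exact Or.inl rfl
  exact h trivial

theorem facC_rels (t k u l : ℕ) : ∀ w ∈ ({w | ∃ i j : Fin 5, w = (EmbDefs.x i * EmbDefs.x j) ^
      coxC i.castSucc j.castSucc} ∪ {EmbDefs.facC t k} : Set (FreeGroup (Fin 5))),
    FreeGroup.lift (fun i : Fin 5 => (PresentedGroup.of i.castSucc : GamC t k u l)) w = 1 := by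
  have hg : ∀ i : Fin 5, FreeGroup.lift (fun i : Fin 5 => (PresentedGroup.of i.castSucc :
      GamC t k u l)) (EmbDefs.x i) = PresentedGroup.of i.castSucc := by
    intro i
    rw [EmbDefs.x, FreeGroup.lift_apply_of]
  rintro w (⟨i, j, rfl⟩ | hw)
  · rw [map_pow, map_mul, hg, hg]
    exact ExHom.of_coxC t k u l _ _
  · rw [Set.mem_singleton_iff.1 hw]
    have h : (PresentedGroup.mk (relsC t k u l)) (facetC t k) = 1 :=
      PresentedGroup.one_of_mem (Or.inr (Or.inl rfl))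
    rw [← h]
    unfold EmbDefs.facC facetC
    split_ifs with hk
    · simp only [map_pow, map_mul, hg, sC, tC]
      rfl
    · simp only [map_pow, map_mul, hg, sC, tC]
      rfl

/-- The facet groups of family (C), P-type, embed. -/
theorem embFacCP (m : ℕ) (hm : 2 ≤ m) : ∃ f : EmbDefs.FacC m 2 →* GamC m 2 m 4,
    Function.Injective f ∧ ∀ i : Fin 5, f (PresentedGroup.of i) = PresentedGroup.of i.castSucc := by
  have hof : ∀ i : Fin 5, PresentedGroup.toGroup (facC_rels m 2 m 4) (PresentedGroup.of i) =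
      PresentedGroup.of i.castSucc := fun i => PresentedGroup.toGroup.of _
  refine ⟨PresentedGroup.toGroup (facC_rels m 2 m 4), ?_, hof⟩
  obtain ⟨φ, hφ⟩ := ExHom.actC2 m
  rw [injective_iff_map_eq_one]
  intro x hx
  have hX : (PresentedGroup.mk _ (EmbDefs.facC m 2) : EmbDefs.FacC m 2) = 1 :=
    PresentedGroup.one_of_mem (Or.inr rfl)
  rw [EmbDefs.facC, if_neg (by decide)] at hX
  refine faithP (r := r5 m 2) (r5_cox m 2) hm hX
    (φ.comp (PresentedGroup.toGroup (facC_rels m 2 m 4))) ?_ x (r5_top m 2 x) ?_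
  · intro i hi v
    have h5 : ∀ i ∈ ({0, 1, 2, 3, 4} : Finset (Fin 6)), ∃ i' : Fin 5, i = i'.castSucc := by decide
    obtain ⟨i', rfl⟩ := h5 i hi
    rw [r5_cast, MonoidHom.comp_apply, hof]
    exact hφ _ v
  · rw [MonoidHom.comp_apply, hx, map_one]

/-- The facet groups of family (C), Q-type, embed. -/
theorem embFacCQ (n : ℕ) (hn : 3 ≤ n) (hodd : Odd n) : ∃ f : EmbDefs.FacC n 1 →* GamC n 1 n 2,
    Function.Injective f ∧ ∀ i : Fin 5, f (PresentedGroup.of i) = PresentedGroup.of i.castSucc := by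
  have hof : ∀ i : Fin 5, PresentedGroup.toGroup (facC_rels n 1 n 2) (PresentedGroup.of i) =
      PresentedGroup.of i.castSucc := fun i => PresentedGroup.toGroup.of _
  refine ⟨PresentedGroup.toGroup (facC_rels n 1 n 2), ?_, hof⟩
  obtain ⟨φ, hφ⟩ := ExHom.actC1 n
  rw [injective_iff_map_eq_one]
  intro x hx
  have hX : (PresentedGroup.mk _ (EmbDefs.facC n 1) : EmbDefs.FacC n 1) = 1 :=
    PresentedGroup.one_of_mem (Or.inr rfl)
  rw [EmbDefs.facC, if_pos rfl] at hX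
  refine faithQ (r := r5 n 1) (r5_cox n 1) hn hodd hX
    (φ.comp (PresentedGroup.toGroup (facC_rels n 1 n 2))) ?_ x (r5_top n 1 x) ?_
  · intro i hi v
    have h5 : ∀ i ∈ ({0, 1, 2, 3, 4} : Finset (Fin 6)), ∃ i' : Fin 5, i = i'.castSucc := by decide
    obtain ⟨i', rfl⟩ := h5 i hi
    rw [r5_cast, MonoidHom.comp_apply, hof]
    exact hφ _ v
  · rw [MonoidHom.comp_apply, hx, map_one]

end Pool.Agent.Lib.MP_c2d01e_co.Ex.EmbFC19
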