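import Pool.Agent.Lib.MP_c2d01e_co.Ex.ActCN19
import Pool.Agent.Lib.MP_c2d01e_co.Ex.EmbFC19

/-!
# The facet groups of family (C), vector `(n,0,0,0)`, embed for all `n ≥ 3` (helper19)
-/

set_option autoImplicit false

namespace Pool.Agent.Lib.MP_c2d01e_co.Ex.EmbFCN19

open Subgroup EqDefs Ex.C19 Ex.Wrd Ex.EmbFC19
open Pool.Agent.Lib.MP_c2d01e_co.Ex.ActN (piN XN)

variable {P : Type} [Group P] {r : Fin 6 → P}

section gen

variable {X : Type} (π : V → X)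

theorem act_gi' (φ : P →* Equiv.Perm X)
    (hφ : ∀ i ∈ ({0, 1, 2, 3, 4} : Finset (Fin 6)), ∀ v, φ (r i) (π v) = π (CGroupC.C i v))
    (i : ℕ) (v : V) : φ (gi r i) (π v) = π (wd (cg i) v) := by
  match i with
  | 0 =>
    show φ (r 4) _ = _
    rw [hφ 4 (by decide), CC19.C_cl]
    rfl
  | 1 =>
    show φ (r 3) _ = _
    rw [hφ 3 (by decide), CC19.C_cl]
    rfl
  | 2 =>
    show φ (r 2) _ = _
    rw [hφ 2 (by decide), CC19.C_cl]
    rfl
  | 3 =>
    show φ (r 1) _ = _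
    rw [hφ 1 (by decide), CC19.C_cl]
    rfl
  | k + 4 =>
    show φ (r 0) _ = _
    rw [hφ 0 (by decide), CC19.C_cl]
    rfl

theorem act_ev' (φ : P →* Equiv.Perm X)
    (hφ : ∀ i ∈ ({0, 1, 2, 3, 4} : Finset (Fin 6)), ∀ v, φ (r i) (π v) = π (CGroupC.C i v))
    (l : List ℕ) (v : V) :
    φ (ev (gi r) l) (π v) = π (wd (l.flatMap cg) v) := by
  induction l generalizing v with
  | nil => rw [ev_nil, map_one]; rfl
  | cons k l ih =>
    rw [ev_cons, map_mul, Equiv.Perm.mul_apply, ih, act_gi' π φ hφ, ← CC19.wd_append,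
      List.flatMap_cons]

theorem act_trq' (φ : P →* Equiv.Perm X)
    (hφ : ∀ i ∈ ({0, 1, 2, 3, 4} : Finset (Fin 6)), ∀ v, φ (r i) (π v) = π (CGroupC.C i v))
    (k : Fin 4) (v : V) : φ (WrdQ.trq (gi r) k) (π v) = π (E (y3 k) v) := by
  rw [WrdQ.trq, act_ev' π φ hφ, tq_act]

end gen

/-- The divisibilities. -/
theorem coordsN {n : ℕ} (φ : P →* Equiv.Perm (XN n))
    (hφ : ∀ i ∈ ({0, 1, 2, 3, 4} : Finset (Fin 6)), ∀ v, φ (r i) (piN n v) =
      piN n (CGroupC.C i v)) (a : Fin 4 → ℤ)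
    (h : φ (pp (WrdQ.trq (gi r)) a) (piN n (CGroupC.fvC 4)) = piN n (CGroupC.fvC 4)) :
    ∀ j, (n : ℤ) ∣ a j := by
  unfold pp at h
  rw [prod_act φ (fun v => piN n v) (act_trq' (piN n) φ hφ)] at h
  obtain ⟨u, hu, e⟩ := ActCN19.diffN h
  obtain ⟨⟨p, x, y, z⟩, c, d⟩ := u
  simp only [ActN.inN, Bool.and_eq_true, beq_iff_eq] at hu
  obtain ⟨⟨⟨h1, h2⟩, h3⟩, h4⟩ := hu
  have g1 := congrArg (fun v : V => v.1.1) e
  have g2 := congrArg (fun v : V => v.1.2.1) e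
  have g3 := congrArg (fun v : V => v.1.2.2.1) e
  have g4 := congrArg (fun v : V => v.1.2.2.2) e
  have f1 : 2 * a 0 + 2 * a 1 + 2 * a 3 = n * p := by
    have := g1
    simp [E, y3, CGroupC.fvC] at this
    linarith
  have f2 : -(2 * a 1 + a 3) = n * x := by
    have := g2
    simp [E, y3, CGroupC.fvC] at this
    linarith
  have f3 : a 2 - a 0 - a 1 = n * y := by
    have := g3
    simp [E, y3, CGroupC.fvC] at this
    linarith
  have f4 : a 2 - a 0 - a 1 - a 3 = n * z := by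
    have := g4
    simp [E, y3, CGroupC.fvC] at this
    linarith
  obtain ⟨p', rfl⟩ : ∃ q', p = 2 * q' := ⟨p / 2, by omega⟩
  obtain ⟨k, hk⟩ : ∃ k, x + y - z = 2 * k := ⟨(x + y - z) / 2, by omega⟩
  have a3 : a 3 = n * (y - z) := by rw [mul_sub]; linarith
  have a1 : a 1 = n * (-k) := by
    have : 2 * a 1 = 2 * (n * (-k)) := by
      have : (n : ℤ) * (x + y - z) = n * (2 * k) := by rw [hk]
      rw [mul_sub, mul_add] at this
      rw [mul_sub] at a3
      linarith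
    linarith
  have a0 : a 0 = n * (p' + k - (y - z)) := by
    have : 2 * a 0 = 2 * (n * (p' + k - (y - z))) := by
      rw [a1, a3] at f1
      linarith
    linarith
  have a2 : a 2 = n * (y + (p' + k - (y - z)) - k) := by
    rw [a0, a1] at f3
    linarith
  intro j
  fin_cases j
  · exact ⟨_, a0⟩
  · exact ⟨_, a1⟩
  · exact ⟨_, a2⟩
  · exact ⟨_, a3⟩

/-- The faithfulness for the relator of `(n,0,0,0)`. -/
theorem faithN (hr : ∀ i ∈ ({0, 1, 2, 3, 4} : Finset (Fin 6)),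
    ∀ j ∈ ({0, 1, 2, 3, 4} : Finset (Fin 6)), (r i * r j) ^ coxC i j = 1) {n : ℕ} (hn : 3 ≤ n)
    (hT : (r 4 * (r 3 * r 2 * r 1 * r 2 * r 3) * (r 0 * r 1 * r 2 * r 1 * r 0) *
      (r 3 * r 2 * r 1 * r 2 * r 3)) ^ n = 1)
    (φ : P →* Equiv.Perm (XN n))
    (hφ : ∀ i ∈ ({0, 1, 2, 3, 4} : Finset (Fin 6)), ∀ v, φ (r i) (piN n v) =
      piN n (CGroupC.C i v))
    (x : P) (hx : x ∈ closure {gi r 0, gi r 1, gi r 2, gi r 3, gi r 4}) (h1 : φ x = 1) : x = 1 := by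
  refine ExC.embF hr (by decide) φ (piN n) hφ (ActCN19.nearN n hn) 4 (by decide)
    {x | x ∈ closure {gi r 0, gi r 1, gi r 2, gi r 3, gi r 4}}
    {t | ∃ a : Fin 4 → ℤ, t = pp (WrdQ.trq (gi r)) a} ?_ ?_ x hx h1
  · intro y hy
    obtain ⟨a, w, hw, rfl⟩ := WrdQ.decomp (gi r) (gi_cox hr) hy
    refine ⟨_, ⟨a, rfl⟩, w, ?_, rfl⟩
    have hle : closure {gi r 1, gi r 2, gi r 3, gi r 4} ≤
        closure (r '' ({0, 1, 2, 3} : Set (Fin 6))) := by
      rw [closure_le]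
      intro z hz
      simp only [Set.mem_insert_iff, Set.mem_singleton_iff] at hz
      rcases hz with rfl | rfl | rfl | rfl
      · exact Subgroup.subset_closure ⟨3, by simp, rfl⟩
      · exact Subgroup.subset_closure ⟨2, by simp, rfl⟩
      · exact Subgroup.subset_closure ⟨1, by simp, rfl⟩
      · exact Subgroup.subset_closure ⟨0, by simp, rfl⟩
    exact hle hw
  · rintro t ⟨a, rfl⟩ ht
    have d := coordsN φ hφ a ht
    have ht := fun j => (WrdQ.tpow (gi r) (gi_cox hr) n hT j).2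
    have hz : ∀ j, WrdQ.trq (gi r) j ^ a j = 1 := by
      intro j
      obtain ⟨k, hk⟩ := d j
      rw [hk, zpow_mul, zpow_natCast, ht, one_zpow]
    unfold pp
    rw [hz 0, hz 1, hz 2, hz 3]
    simp

/-- The facet groups of family (C), vector `(n,0,0,0)`, embed for all `n ≥ 3`. -/
theorem fC_Q' (n : ℕ) (hn : 3 ≤ n) : ∃ f : EmbDefs.FacC n 1 →* GamC n 1 n 2,
    Function.Injective f ∧ ∀ i : Fin 5, f (PresentedGroup.of i) = PresentedGroup.of i.castSucc := by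
  have hof : ∀ i : Fin 5, PresentedGroup.toGroup (facC_rels n 1 n 2) (PresentedGroup.of i) =
      PresentedGroup.of i.castSucc := fun i => PresentedGroup.toGroup.of _
  refine ⟨PresentedGroup.toGroup (facC_rels n 1 n 2), ?_, hof⟩
  obtain ⟨φ, hφ⟩ := ActCN19.actCN n
  rw [injective_iff_map_eq_one]
  intro x hx
  have hX : (PresentedGroup.mk _ (EmbDefs.facC n 1) : EmbDefs.FacC n 1) = 1 :=
    PresentedGroup.one_of_mem (Or.inr rfl)
  rw [EmbDefs.facC, if_pos rfl] at hX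
  refine faithN (r := r5 n 1) (r5_cox n 1) hn hX
    (φ.comp (PresentedGroup.toGroup (facC_rels n 1 n 2))) ?_ x (r5_top n 1 x) ?_
  · intro i hi v
    have h5 : ∀ i ∈ ({0, 1, 2, 3, 4} : Finset (Fin 6)), ∃ i' : Fin 5, i = i'.castSucc := by decide
    obtain ⟨i', rfl⟩ := h5 i hi
    rw [r5_cast, MonoidHom.comp_apply, hof]
    exact hφ _ v
  · rw [MonoidHom.comp_apply, hx, map_one]

end Pool.Agent.Lib.MP_c2d01e_co.Ex.EmbFCN19
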