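import Pool.Agent.Lib.MP_c2d01e_co.Ex.EmbB
import Pool.Agent.Lib.MP_c2d01e_co.Ex.EmbDefs
import Pool.Agent.Lib.MP_c2d01e_co.Ex.HomC
import Pool.Agent.Lib.MP_c2d01e_co.Ex.CGC
import Pool.Agent.Lib.MP_c2d01e_co.Ex.Hom

/-!
# The vertex-figures of family (B) and the facets of family (C)

Every action of the presented groups by the reflections is faithful, so the natural maps are injective.
-/

set_option autoImplicit false

namespace Pool.Agent.Lib.MP_c2d01e_co.EmbV71a

open EqDefs EmbDefs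

/-- Every action by the maps `A i` modulo `s` is faithful. -/
def Faith (R : Set (FreeGroup (Fin 5))) (s : ℕ) (A : Fin 5 → V → V) : Prop :=
  ∀ φ : PresentedGroup R →* Equiv.Perm (CGroup.VN s),
    (∀ i v, φ (PresentedGroup.of i) (CGroup.pi s v) = CGroup.pi s (A i v)) → Function.Injective φ

theorem cox_eq : ∀ i j : Fin 5, coxC i.castSucc j.castSucc = coxB i.succ j.succ := by decide

theorem rels_eq (t k : ℕ) :
    ({r | ∃ i j : Fin 5, r = (x i * x j) ^ coxC i.castSucc j.castSucc} ∪ {facC t k} :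
      Set (FreeGroup (Fin 5))) =
    {r | ∃ i j : Fin 5, r = (x i * x j) ^ coxB i.succ j.succ} ∪ {verB t k} := by
  simp only [cox_eq]
  rfl

theorem conj_R (j : Fin 6) (h : ((0 : Fin 6) : ℕ) + 2 ≤ j) (v : V) : R 0 (R j (R 0 v)) = R j v := by
  have := congrArg (R j) (comm_R 0 j h v)
  rwa [R_R] at this

/-- The conjugate by `R 0` of a reflection of (C) is one of (B). -/
theorem conj_C (i : Fin 5) (v : V) : R 0 (CGroupC.C i.castSucc (R 0 v)) = CGroupB.B i.succ v := by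
  fin_cases i
  · exact conj_R 2 (by decide) v
  · exact conj_R 3 (by decide) v
  · exact conj_R 4 (by decide) v
  · exact conj_R 5 (by decide) v
  · show R 0 (CGroupC.C 4 (R 0 v)) = CGroupB.B 5 v
    rw [CGroupC.C_four, CGroupB.B_five]

theorem faithC {t k s : ℕ}
    (hV : Faith ({r | ∃ i j : Fin 5, r = (x i * x j) ^ coxB i.succ j.succ} ∪ {verB t k}) s
      (fun i => CGroupB.B i.succ)) :
    Faith ({r | ∃ i j : Fin 5, r = (x i * x j) ^ coxC i.castSucc j.castSucc} ∪ {facC t k}) s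
      (fun i => CGroupC.C i.castSucc) := by
  rw [← rels_eq] at hV
  intro φ hφ
  have h := hV ((MulAut.conj (CGroup.PN s 0)).toMonoidHom.comp φ) (fun i v => by
    have hinv : (CGroup.PN s 0)⁻¹ = CGroup.PN s 0 :=
      inv_eq_of_mul_eq_one_left (CGroup.PN_sq s 0)
    show (CGroup.PN s 0 * φ (PresentedGroup.of i) * (CGroup.PN s 0)⁻¹) (CGroup.pi s v) = _
    rw [hinv, Equiv.Perm.mul_apply, Equiv.Perm.mul_apply, CGroup.PN_pi, hφ, CGroup.PN_pi, conj_C])
  intro a b hab
  exact h (by rw [MonoidHom.comp_apply, MonoidHom.comp_apply, hab])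

/-- The natural map from the facets, and its injectivity. -/
theorem embC {t k u l s : ℕ} {ψ : GamC t k u l →* Equiv.Perm (CGroup.VN s)}
    (hψ : ∀ i v, ψ (PresentedGroup.of i) (CGroup.pi s v) = CGroup.pi s (CGroupC.C i v))
    (hV : ∀ φ : VerB t k →* Equiv.Perm (CGroup.VN s),
      (∀ i v, φ (PresentedGroup.of i) (CGroup.pi s v) = CGroup.pi s (CGroupB.B i.succ v)) →
        Function.Injective φ) :
    ∃ f : FacC t k →* GamC t k u l, Function.Injective f ∧
      ∀ i : Fin 5, f (PresentedGroup.of i) = PresentedGroup.of i.castSucc := by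
  have hrel : ∀ r ∈ ({r | ∃ i j : Fin 5, r = (x i * x j) ^ coxC i.castSucc j.castSucc} ∪
      {facC t k} : Set (FreeGroup (Fin 5))),
      FreeGroup.lift (fun i : Fin 5 => (PresentedGroup.of i.castSucc : GamC t k u l)) r = 1 := by
    rintro r (⟨i, j, rfl⟩ | hr)
    · rw [map_pow, map_mul, x, x, FreeGroup.lift_apply_of, FreeGroup.lift_apply_of]
      exact ExHom.of_coxC t k u l _ _
    · rw [Set.mem_singleton_iff.1 hr]
      have h : (PresentedGroup.mk (relsC t k u l)) (facetC t k) = 1 :=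
        PresentedGroup.one_of_mem (Or.inr (Or.inl rfl))
      rw [← h]
      unfold facC facetC
      split_ifs
      · rw [map_pow, map_pow]
        congr 1
      · rw [map_pow, map_pow]
        congr 1
  refine ⟨PresentedGroup.toGroup hrel, ?_, fun i => PresentedGroup.toGroup.of _⟩
  have h := faithC (t := t) (k := k) (s := s) hV (ψ.comp (PresentedGroup.toGroup hrel))
    (fun i v => by
      rw [MonoidHom.comp_apply, PresentedGroup.toGroup.of]
      exact hψ _ _)
  intro a b hab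
  exact h (by rw [MonoidHom.comp_apply, MonoidHom.comp_apply, hab])

/-- The facets `{3,4,3,3}_(n,0,0,0)` in the group with the vectors `(n,0,0,0)`, `(n,n,0,0)`. -/
theorem embC1 (n : ℕ) (hV : ∀ φ : VerB n 1 →* Equiv.Perm (CGroup.VN n),
      (∀ i v, φ (PresentedGroup.of i) (CGroup.pi n v) = CGroup.pi n (CGroupB.B i.succ v)) →
        Function.Injective φ) :
    ∃ f : FacC n 1 →* GamC n 1 n 2, Function.Injective f ∧
      ∀ i : Fin 5, f (PresentedGroup.of i) = PresentedGroup.of i.castSucc := by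
  obtain ⟨ψ, hψ⟩ := ExHom.actC1 n
  exact embC hψ hV

/-- The facets `{3,4,3,3}_(n,n,0,0)` in the group with the vectors `(n,n,0,0)`, `(n,n,n,n)`. -/
theorem embC2 (n : ℕ) (hV : ∀ φ : VerB n 2 →* Equiv.Perm (CGroup.VN (2 * n)),
      (∀ i v, φ (PresentedGroup.of i) (CGroup.pi (2 * n) v) =
        CGroup.pi (2 * n) (CGroupB.B i.succ v)) → Function.Injective φ) :
    ∃ f : FacC n 2 →* GamC n 2 n 4, Function.Injective f ∧
      ∀ i : Fin 5, f (PresentedGroup.of i) = PresentedGroup.of i.castSucc := by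
  obtain ⟨ψ, hψ⟩ := ExHom.actC2 n
  exact embC hψ hV

end Pool.Agent.Lib.MP_c2d01e_co.EmbV71a

namespace Pool.Agent.Lib.MP_c2d01e_co.EmbV71

open EqDefs EmbDefs Ex Ex.Wrd Ex.WrdQ

variable (t l : ℕ)

/-- The generators in reversed order. -/
def gv (j : ℕ) : VerB t l := PresentedGroup.of (Fin.ofNat 5 (4 - j))

theorem cx_eq : ∀ i < 5, ∀ j < 5,
    coxB (Fin.ofNat 5 (4 - i)).succ (Fin.ofNat 5 (4 - j)).succ = cx i j := by decide

theorem gv_cox : Cox (gv t l) := by
  intro i j hi hj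
  rw [← cx_eq i hi j hj]
  exact PresentedGroup.one_of_mem (Or.inl ⟨Fin.ofNat 5 (4 - i), Fin.ofNat 5 (4 - j), rfl⟩)

theorem mem_top (y : VerB t l) :
    y ∈ Subgroup.closure {gv t l 0, gv t l 1, gv t l 2, gv t l 3, gv t l 4} := by
  have h : Subgroup.closure (Set.range (PresentedGroup.of : Fin 5 → VerB t l)) = ⊤ :=
    PresentedGroup.closure_range_of _
  have h1 : Set.range (PresentedGroup.of : Fin 5 → VerB t l) ⊆
      {gv t l 0, gv t l 1, gv t l 2, gv t l 3, gv t l 4} := by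
    rintro _ ⟨i, rfl⟩
    fin_cases i
    · exact Or.inr (Or.inr (Or.inr (Or.inr rfl)))
    · exact Or.inr (Or.inr (Or.inr (Or.inl rfl)))
    · exact Or.inr (Or.inr (Or.inl rfl))
    · exact Or.inr (Or.inl rfl)
    · exact Or.inl rfl
  have h2 : y ∈ Subgroup.closure (Set.range (PresentedGroup.of : Fin 5 → VerB t l)) := by
    rw [h]
    trivial
  exact Subgroup.closure_mono h1 h2

variable {t l}

theorem act_gv {s : ℕ} (φ : VerB t l →* Equiv.Perm (CGroup.VN s))
    (hφ : ∀ i v, φ (PresentedGroup.of i) (CGroup.pi s v) = CGroup.pi s (CGroupB.B i.succ v))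
    (i : Fin 6) (hi : i ≠ 0) (v : V) :
    φ (gv t l (5 - (i : ℕ))) (CGroup.pi s v) = CGroup.pi s (CGroupB.B i v) := by
  obtain ⟨j, rfl⟩ := Fin.exists_succ_eq.2 hi
  have e : Fin.ofNat 5 (4 - (5 - (j.succ : ℕ))) = j := by
    revert j
    decide
  rw [gv, e]
  exact hφ j v

theorem faith {s : ℕ} (hs : 3 ≤ s)
    (hA : ∀ (a : Fin 4 → ℤ), (s : ℤ) ∣ 2 * a 0 → (s : ℤ) ∣ 2 * a 1 → (s : ℤ) ∣ a 2 - a 0 - a 1 →
      (s : ℤ) ∣ a 3 → pp (trq (gv t l)) a = 1)
    (φ : VerB t l →* Equiv.Perm (CGroup.VN s))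
    (hφ : ∀ i v, φ (PresentedGroup.of i) (CGroup.pi s v) = CGroup.pi s (CGroupB.B i.succ v)) :
    Function.Injective φ := by
  rw [injective_iff_map_eq_one]
  intro y hy
  exact coreV (gv t l) hs (gv_cox t l) φ (act_gv φ hφ) y (mem_top t l y) hy hA

theorem faithV2 (m : ℕ) (hm : 2 ≤ m) (φ : VerB m 2 →* Equiv.Perm (CGroup.VN (2 * m)))
    (hφ : ∀ i v, φ (PresentedGroup.of i) (CGroup.pi (2 * m) v) =
      CGroup.pi (2 * m) (CGroupB.B i.succ v)) : Function.Injective φ := by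
  refine faith (by omega) (fun a h0 h1 h2 h3 => ?_) φ hφ
  have hX : (gv m 2 0 * (gv m 2 1 * gv m 2 2 * gv m 2 3 * gv m 2 2 * gv m 2 1) *
      (gv m 2 4 * gv m 2 3 * gv m 2 2 * gv m 2 3 * gv m 2 4)) ^ (2 * m) = 1 := by
    have h : (PresentedGroup.mk ({r | ∃ i j : Fin 5, r = (x i * x j) ^ coxB i.succ j.succ} ∪
        {verB m 2})) (verB m 2) = 1 :=
      PresentedGroup.one_of_mem (Or.inr rfl)
    rw [verB, if_neg (by norm_num), map_pow] at h
    exact h
  obtain ⟨e1, e2, e0, e3⟩ := xrel (gv m 2) (gv_cox m 2) m hX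
  have hm0 : (m : ℤ) ≠ 0 := by exact_mod_cast (by omega : m ≠ 0)
  push_cast at h0 h1 h2 h3
  obtain ⟨k0, c0⟩ := h0
  obtain ⟨k1, c1⟩ := h1
  obtain ⟨k2, c2⟩ := h2
  obtain ⟨k3, c3⟩ := h3
  have d0 : a 0 = m * k0 := by linarith
  have d1 : a 1 = m * k1 := by linarith
  have d2 : a 2 = m * (k0 + k1 + 2 * k2) := by linarith
  have d3 : a 3 = ((2 * m : ℕ) : ℤ) * k3 := by push_cast; linarith
  have q : (trq (gv m 2) 0 ^ m) ^ (2 : ℤ) = 1 := by
    rw [← e0, mul_comm 2 m, pow_mul]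
    exact zpow_natCast _ 2
  rw [pp, d0, d1, d2, d3, zpow_mul, zpow_mul, zpow_mul, zpow_mul, zpow_natCast, zpow_natCast,
    zpow_natCast, zpow_natCast, e1, e2, e3, one_zpow, mul_one, ← zpow_add, ← zpow_add]
  have e : k0 + k1 + (k0 + k1 + 2 * k2) = 2 * (k0 + k1 + k2) := by ring
  rw [e, zpow_mul, q, one_zpow]

theorem faithV1 (n : ℕ) (hn : 3 ≤ n) (ho : Odd n) (φ : VerB n 1 →* Equiv.Perm (CGroup.VN n))
    (hφ : ∀ i v, φ (PresentedGroup.of i) (CGroup.pi n v) = CGroup.pi n (CGroupB.B i.succ v)) :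
    Function.Injective φ := by
  refine faith hn (fun a h0 h1 h2 h3 => ?_) φ hφ
  have hT : (gv n 1 0 * (gv n 1 1 * gv n 1 2 * gv n 1 3 * gv n 1 2 * gv n 1 1) *
      (gv n 1 4 * gv n 1 3 * gv n 1 2 * gv n 1 3 * gv n 1 4) *
      (gv n 1 1 * gv n 1 2 * gv n 1 3 * gv n 1 2 * gv n 1 1)) ^ n = 1 := by
    have h : (PresentedGroup.mk ({r | ∃ i j : Fin 5, r = (x i * x j) ^ coxB i.succ j.succ} ∪
        {verB n 1})) (verB n 1) = 1 :=
      PresentedGroup.one_of_mem (Or.inr rfl)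
    rw [verB, if_pos rfl, map_pow] at h
    exact h
  have hp := fun j => (tpow (gv n 1) (gv_cox n 1) n hT j).2
  have hco : IsCoprime (n : ℤ) 2 := by
    rw [Int.isCoprime_iff_gcd_eq_one]
    exact_mod_cast (Nat.coprime_two_right.2 ho)
  have d0 : (n : ℤ) ∣ a 0 := hco.dvd_of_dvd_mul_left h0
  have d1 : (n : ℤ) ∣ a 1 := hco.dvd_of_dvd_mul_left h1
  have d2 : (n : ℤ) ∣ a 2 := by
    have : a 2 = (a 2 - a 0 - a 1) + a 0 + a 1 := by ring
    rw [this]
    exact dvd_add (dvd_add h2 d0) d1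
  rw [pp, zpow_dvd (hp 0) d0, zpow_dvd (hp 1) d1, zpow_dvd (hp 2) d2, zpow_dvd (hp 3) h3]
  simp

/-- The facets of (C), vectors `(m,m,0,0)`. -/
theorem fC_P (m : ℕ) (hm : 2 ≤ m) : ∃ f : FacC m 2 →* GamC m 2 m 4, Function.Injective f ∧
    ∀ i : Fin 5, f (PresentedGroup.of i) = PresentedGroup.of i.castSucc :=
  EmbV71a.embC2 m (faithV2 m hm)

/-- The facets of (C), vectors `(n,0,0,0)`, `n` odd. -/
theorem fC_Q (n : ℕ) (hn : 3 ≤ n) (ho : Odd n) :
    ∃ f : FacC n 1 →* GamC n 1 n 2, Function.Injective f ∧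
      ∀ i : Fin 5, f (PresentedGroup.of i) = PresentedGroup.of i.castSucc :=
  EmbV71a.embC1 n (faithV1 n hn ho)

/-- The natural map from the vertex-figures of (B), and its injectivity. -/
theorem embB {s k t l c : ℕ} {ψ : GamB s k t l →* Equiv.Perm (CGroup.VN c)}
    (hψ : ∀ i v, ψ (PresentedGroup.of i) (CGroup.pi c v) = CGroup.pi c (CGroupB.B i v))
    (hV : ∀ φ : VerB t l →* Equiv.Perm (CGroup.VN c),
      (∀ i v, φ (PresentedGroup.of i) (CGroup.pi c v) = CGroup.pi c (CGroupB.B i.succ v)) →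
        Function.Injective φ) :
    ∃ f : VerB t l →* GamB s k t l, Function.Injective f ∧
      ∀ i : Fin 5, f (PresentedGroup.of i) = PresentedGroup.of i.succ := by
  have hrel : ∀ r ∈ ({r | ∃ i j : Fin 5, r = (x i * x j) ^ coxB i.succ j.succ} ∪
      {verB t l} : Set (FreeGroup (Fin 5))),
      FreeGroup.lift (fun i : Fin 5 => (PresentedGroup.of i.succ : GamB s k t l)) r = 1 := by
    rintro r (⟨i, j, rfl⟩ | hr)
    · rw [map_pow, map_mul, x, x, FreeGroup.lift_apply_of, FreeGroup.lift_apply_of]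
      exact ExHom.of_coxB s k t l _ _
    · rw [Set.mem_singleton_iff.1 hr]
      have h : (PresentedGroup.mk (relsB s k t l)) (vertB t l) = 1 :=
        PresentedGroup.one_of_mem (Or.inr (Or.inr rfl))
      rw [← h]
      unfold verB vertB
      split_ifs
      · rw [map_pow, map_pow]
        congr 1
      · rw [map_pow, map_pow]
        congr 1
  refine ⟨PresentedGroup.toGroup hrel, ?_, fun i => PresentedGroup.toGroup.of _⟩
  have h := hV (ψ.comp (PresentedGroup.toGroup hrel)) (fun i v => by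
      rw [MonoidHom.comp_apply, PresentedGroup.toGroup.of]
      exact hψ _ _)
  intro a b hab
  exact h (by rw [MonoidHom.comp_apply, MonoidHom.comp_apply, hab])

/-- The vertex-figures of (B), vectors `(m,m,0,0)`. -/
theorem vB_P (m : ℕ) (hm : 2 ≤ m) : ∃ f : VerB m 2 →* GamB (2 * m) 1 m 2, Function.Injective f ∧
    ∀ i : Fin 5, f (PresentedGroup.of i) = PresentedGroup.of i.succ := by
  obtain ⟨ψ, hψ⟩ := ExHom.actB1 m
  exact embB hψ (faithV2 m hm)

/-- The vertex-figures of (B), vectors `(n,0,0,0)`, `n` odd. -/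
theorem vB_Q (n : ℕ) (hn : 3 ≤ n) (ho : Odd n) :
    ∃ f : VerB n 1 →* GamB n 2 n 1, Function.Injective f ∧
      ∀ i : Fin 5, f (PresentedGroup.of i) = PresentedGroup.of i.succ := by
  obtain ⟨ψ, hψ⟩ := ExHom.actB2 n
  exact embB hψ (faithV1 n hn ho)

end Pool.Agent.Lib.MP_c2d01e_co.EmbV71
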