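import Pool.Agent.Lib.MP_c2d01e_co.CGroup

/-!
# The two infinite parabolic subgroups of family (C) (STEP 3C, helper19)

`c 0, …, c 5` act on the lattice modulo `s` by the reflections `R 2, R 3, R 4, R 5, R 1 σ R 1, R 0`. The unit
translations `e k` of the cubic tessellation act as `g (E (y k)) g`, `g = R 0 R 1 R 0`.
-/

set_option autoImplicit false

namespace Pool.Agent.Lib.MP_c2d01e_co.Ex.C19

open Subgroup CGroup

/-- The reflections. -/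
def C : Fin 6 → V → V
  | 0, v => R 2 v
  | 1, v => R 3 v
  | 2, v => R 4 v
  | 3, v => R 5 v
  | 4, v => R 1 (R 2 (R 3 (R 4 (R 3 (R 2 (R 1 v))))))
  | 5, v => R 0 v

/-- The change of the cusp. -/
def gg (v : V) : V := R 0 (R 1 (R 0 v))

theorem gg_gg (v : V) : gg (gg v) = v := by
  simp only [gg, R_R]

theorem gg_eq (p x y z a b : ℤ) : gg ((p, x, y, z), a, b) =
    ((-2 * a - p, x + p + a, y + p + a, z + p + a), a, b - a - p) := by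
  simp only [gg, R, Prod.mk.injEq]
  constructorm* _ ∧ _ <;> ring

/-- The four vectors. -/
def yy : Fin 4 → H4 := ![(-2, 1, 1, 1), (0, 1, 0, 0), (0, 0, 1, 0), (0, 0, 0, 1)]

/-- `R i` as a homomorphism. -/
def Rm (i : Fin 6) : V →+ V := AddMonoidHom.mk' (R i) (R_add i)

theorem E_add (y : H4) (v w : V) : E y (v + w) = E y v + E y w := by
  obtain ⟨⟨p, x, y1, z⟩, a, b⟩ := v
  obtain ⟨⟨p', x', y', z'⟩, a', b'⟩ := w
  obtain ⟨q, q1, q2, q3⟩ := y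
  simp only [E, bil, nm, Prod.smul_mk, Prod.mk_add_mk, smul_eq_mul, Prod.mk.injEq]
  refine ⟨⟨?_, ?_, ?_, ?_⟩, ?_, trivial⟩ <;> ring

/-- `E y` as a homomorphism. -/
def Em (y : H4) : V →+ V := AddMonoidHom.mk' (E y) (E_add y)

/-- A word in the reflections. -/
def wd : List (Fin 6) → V →+ V
  | [] => AddMonoidHom.id V
  | i :: l => (Rm i).comp (wd l)

/-- The basis. -/
def bs : Fin 6 → V
  | 0 => ((1, 0, 0, 0), 0, 0)
  | 1 => ((0, 1, 0, 0), 0, 0)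
  | 2 => ((0, 0, 1, 0), 0, 0)
  | 3 => ((0, 0, 0, 1), 0, 0)
  | 4 => ((0, 0, 0, 0), 1, 0)
  | 5 => ((0, 0, 0, 0), 0, 1)

theorem ext_basis (f g : V →+ V) (h : ∀ i : Fin 6, f (bs i) = g (bs i)) (v : V) : f v = g v := by
  have hv : v = v.1.1 • bs 0 + v.1.2.1 • bs 1 + v.1.2.2.1 • bs 2 + v.1.2.2.2 • bs 3 +
      v.2.1 • bs 4 + v.2.2 • bs 5 := by
    obtain ⟨⟨p, x, y, z⟩, a, b⟩ := v
    simp [bs]
  rw [hv]
  simp only [map_add, map_zsmul, h]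

/-- The words of the unit translations. -/
def ew : Fin 4 → List (Fin 6)
  | 0 => [0, 1, 2, 3, 4, 3, 2, 1, 5, 4, 3, 4, 5, 1, 2, 3, 4, 3, 2, 1]
  | 1 => [1, 2, 3, 4, 3, 2, 1, 0, 1, 2, 3, 4, 3, 2, 1, 5, 4, 3, 4, 5, 1, 2, 3, 4, 3, 2, 1, 1, 2, 3, 4, 3, 2, 1]
  | 2 => [5, 1, 2, 3, 4, 3, 2, 1, 0, 1, 2, 3, 4, 3, 2, 1, 5, 4, 3, 4, 5, 1, 2, 3, 4, 3, 2, 1, 1, 2, 3, 4, 3, 2, 1, 5]
  | 3 => [4, 5, 1, 2, 3, 4, 3, 2, 1, 0, 1, 2, 3, 4, 3, 2, 1, 5, 4, 3, 4, 5, 1, 2, 3, 4, 3, 2, 1, 1, 2, 3, 4, 3, 2, 1,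
      5, 4]

theorem ew_act (k : Fin 4) (v : V) : wd (ew k) v = gg (E (yy k) (gg v)) := by
  have h : ∀ k : Fin 4, ∀ i : Fin 6, wd (ew k) (bs i) =
      ((wd [0, 1, 0]).comp ((Em (yy k)).comp (wd [0, 1, 0]))) (bs i) := by
    decide +kernel
  exact ext_basis _ _ (h k) v

variable {G : Type*} [Group G]

/-- The translations act as translations. -/
theorem act_e {s : ℕ} (φ : G →* Equiv.Perm (VN s)) (c : Fin 6 → G)
    (hC : ∀ i v, φ (c i) (pi s v) = pi s (C i v)) (e : Fin 4 → G)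
    (h0 : e 0 = c 5 * c 4 * c 3 * c 2 * c 1 * c 2 * c 3 * c 4) (h1 : e 1 = c 4 * e 0 * c 4)
    (h2 : e 2 = c 3 * e 1 * c 3) (h3 : e 3 = c 2 * e 2 * c 2) (k : Fin 4) (v : V) :
    φ (e k) (pi s (gg v)) = pi s (gg (E (yy k) v)) := by
  have h : ∀ k v, φ (e k) (pi s v) = pi s (wd (ew k) v) := by
    intro k v
    fin_cases k
    · change φ (e 0) _ = _
      rw [h0]
      simp only [map_mul, Equiv.Perm.mul_apply, hC]
      rfl
    · change φ (e 1) _ = _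
      rw [h1, h0]
      simp only [map_mul, Equiv.Perm.mul_apply, hC]
      rfl
    · change φ (e 2) _ = _
      rw [h2, h1, h0]
      simp only [map_mul, Equiv.Perm.mul_apply, hC]
      rfl
    · change φ (e 3) _ = _
      rw [h3, h2, h1, h0]
      simp only [map_mul, Equiv.Perm.mul_apply, hC]
      rfl
  rw [h, ew_act, gg_gg]

theorem zpow_act {X : Type*} (φ : G →* Equiv.Perm X) (pr : V → X) {t : G} {y : H4}
    (ht : ∀ v, φ t (pr v) = pr (E y v)) (a : ℤ) :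
    ∀ v, φ (t ^ a) (pr v) = pr (E (a • y) v) := by
  have hinv : ∀ v, φ t⁻¹ (pr v) = pr (E (-y) v) := by
    intro v
    rw [map_inv, Equiv.Perm.inv_eq_iff_eq, ht, E_E, add_neg_cancel, E_zero]
  induction a using Int.induction_on with
  | zero => intro v; rw [zpow_zero, map_one, zero_smul, E_zero]; rfl
  | succ k ih =>
    intro v
    rw [zpow_add_one, map_mul, Equiv.Perm.mul_apply, ht, ih, E_E, add_smul, one_smul]
  | pred k ih =>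
    intro v
    rw [zpow_sub_one, map_mul, Equiv.Perm.mul_apply, hinv, ih, E_E, sub_smul, one_smul,
      sub_eq_add_neg]

theorem prod_act {X : Type*} (φ : G →* Equiv.Perm X) (pr : V → X) {t : Fin 4 → G} {y : Fin 4 → H4}
    (ht : ∀ k v, φ (t k) (pr v) = pr (E (y k) v)) (a : Fin 4 → ℤ) (v : V) :
    φ (t 0 ^ a 0 * t 1 ^ a 1 * t 2 ^ a 2 * t 3 ^ a 3) (pr v) =
      pr (E (a 0 • y 0 + a 1 • y 1 + a 2 • y 2 + a 3 • y 3) v) := by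
  rw [map_mul, map_mul, map_mul, Equiv.Perm.mul_apply, Equiv.Perm.mul_apply, Equiv.Perm.mul_apply,
    zpow_act φ pr (ht 3), zpow_act φ pr (ht 2), zpow_act φ pr (ht 1), zpow_act φ pr (ht 0), E_E,
    E_E, E_E]

theorem fix_cl {X : Type*} (φ : G →* Equiv.Perm X) (x : X) (S : Set G)
    (h : ∀ g ∈ S, φ g x = x) : ∀ g ∈ closure S, φ g x = x := by
  intro g hg
  induction hg using closure_induction with
  | mem g hg => exact h g hg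
  | one => rw [map_one]; rfl
  | mul g g' _ _ h1 h2 => rw [map_mul, Equiv.Perm.mul_apply, h2, h1]
  | inv g _ h1 => rw [map_inv, Equiv.Perm.inv_eq_iff_eq, h1]

/-- The divisibility. -/
theorem dvd_fix {s : ℕ} {y : H4}
    (h : pi s (gg (E y ((-2, 1, 1, 1), 1, -1))) = pi s ((0, 0, 0, 0), 1, 0)) :
    (s : ℤ) ∣ y.1 ∧ (s : ℤ) ∣ y.2.1 ∧ (s : ℤ) ∣ y.2.2.1 ∧ (s : ℤ) ∣ y.2.2.2 := by
  obtain ⟨p, q, r, t⟩ := y
  obtain ⟨N, hN⟩ : ∃ N : ℤ, (E (p, q, r, t) ((-2, 1, 1, 1), 1, -1)) =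
      ((-2 - p, 1 - q, 1 - r, 1 - t), N, -1) := by
    refine ⟨(E (p, q, r, t) ((-2, 1, 1, 1), 1, -1)).2.1, ?_⟩
    refine Prod.ext ?_ (Prod.ext rfl rfl)
    simp only [E, Prod.smul_mk, Prod.mk_add_mk, smul_eq_mul, Prod.mk.injEq]
    refine ⟨?_, ?_, ?_, ?_⟩ <;> ring
  rw [hN, gg_eq] at h
  have e : ∀ x w : ℤ, ((x : ℤ) : ZMod s) = ((w : ℤ) : ZMod s) → (s : ℤ) ∣ w - x := by
    intro x w hx
    exact (ZMod.intCast_eq_intCast_iff_dvd_sub x w s).1 hx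
  have h0 := congrArg Prod.fst h
  have h1 := e _ _ (congrArg Prod.fst h0)
  have h2 := e _ _ (congrArg (fun x => x.2.1) h0)
  have h3 := e _ _ (congrArg (fun x => x.2.2.1) h0)
  have h4 := e _ _ (congrArg (fun x => x.2.2.2) h0)
  have h5 := e _ _ (congrArg (fun x => x.2.1) h)
  obtain ⟨k1, k1'⟩ := h1
  obtain ⟨k2, k2'⟩ := h2
  obtain ⟨k3, k3'⟩ := h3
  obtain ⟨k4, k4'⟩ := h4
  obtain ⟨k5, k5'⟩ := h5
  refine ⟨⟨-k1 - 2 * k5, ?_⟩, ⟨k2 - k5 + k1 + 2 * k5, ?_⟩, ⟨k3 - k5 + k1 + 2 * k5, ?_⟩,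
    ⟨k4 - k5 + k1 + 2 * k5, ?_⟩⟩ <;> simp only <;> linarith

/-- The exponents of an element of the intersection. -/
theorem exps {s : ℕ} (φ : G →* Equiv.Perm (VN s)) (c : Fin 6 → G)
    (hC : ∀ i v, φ (c i) (pi s v) = pi s (C i v)) (e : Fin 4 → G)
    (h0 : e 0 = c 5 * c 4 * c 3 * c 2 * c 1 * c 2 * c 3 * c 4) (h1 : e 1 = c 4 * e 0 * c 4)
    (h2 : e 2 = c 3 * e 1 * c 3) (h3 : e 3 = c 2 * e 2 * c 2) (a : Fin 4 → ℤ)
    (ha : e 0 ^ a 0 * e 1 ^ a 1 * e 2 ^ a 2 * e 3 ^ a 3 ∈ closure (c '' {0, 1, 2, 3, 4})) :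
    (s : ℤ) ∣ 2 * a 0 ∧ (s : ℤ) ∣ a 0 + a 1 ∧ (s : ℤ) ∣ a 0 + a 2 ∧ (s : ℤ) ∣ a 0 + a 3 := by
  have h4 := fix_cl φ (pi s ((0, 0, 0, 0), 1, 0)) (c '' {0, 1, 2, 3, 4}) (by
    rintro g ⟨i, hi, rfl⟩
    rw [hC]
    congr 1
    have : ∀ i : Fin 6, i ≠ 5 → C i ((0, 0, 0, 0), 1, 0) = ((0, 0, 0, 0), 1, 0) := by
      decide +kernel
    refine this i ?_
    rintro rfl
    simp at hi) _ ha
  have h5 : (pi s ((0, 0, 0, 0), 1, 0) : VN s) = pi s (gg ((-2, 1, 1, 1), 1, -1)) := by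
    congr 1
  rw [h5] at h4
  rw [prod_act φ (fun v => pi s (gg v)) (act_e φ c hC e h0 h1 h2 h3), ← h5] at h4
  obtain ⟨e1, e2, e3, e4⟩ := dvd_fix h4
  simp [yy] at e1 e2 e3 e4
  refine ⟨?_, ?_, ?_, ?_⟩
  · rw [mul_comm]
    exact e1
  · exact e2
  · exact e3
  · exact e4

theorem zdvd {t : G} {s : ℕ} (ht : t ^ s = 1) {a b : ℤ} (h : (s : ℤ) ∣ a - b) : t ^ a = t ^ b := by
  obtain ⟨c, hc⟩ := h
  have : a = b + s * c := by linarith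
  rw [this, zpow_add, zpow_mul, zpow_natCast, ht, one_zpow, mul_one]

/-- From an element of the intersection to the translation. -/
theorem red {c : Fin 6 → G} {e : Fin 4 → G}
    (hdec : ∀ x ∈ closure (c '' {1, 2, 3, 4, 5}), ∃ a : Fin 4 → ℤ,
      ∃ w ∈ closure (c '' {1, 2, 3, 4}), x = e 0 ^ a 0 * e 1 ^ a 1 * e 2 ^ a 2 * e 3 ^ a 3 * w)
    (hone : ∀ a : Fin 4 → ℤ,
      e 0 ^ a 0 * e 1 ^ a 1 * e 2 ^ a 2 * e 3 ^ a 3 ∈ closure (c '' {0, 1, 2, 3, 4}) →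
      e 0 ^ a 0 * e 1 ^ a 1 * e 2 ^ a 2 * e 3 ^ a 3 = 1)
    (x : G) (hx0 : x ∈ closure (c '' {0, 1, 2, 3, 4})) (hx1 : x ∈ closure (c '' {1, 2, 3, 4, 5})) :
    x ∈ closure (c '' {1, 2, 3, 4}) := by
  have hs0 : closure (c '' {1, 2, 3, 4}) ≤ closure (c '' {0, 1, 2, 3, 4}) :=
    closure_mono (Set.image_mono (by
      intro x hx
      simp only [Set.mem_insert_iff, Set.mem_singleton_iff] at hx ⊢
      tauto))
  obtain ⟨a, w, hw, rfl⟩ := hdec x hx1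
  have h3 : e 0 ^ a 0 * e 1 ^ a 1 * e 2 ^ a 2 * e 3 ^ a 3 ∈ closure (c '' {0, 1, 2, 3, 4}) := by
    have h4 := mul_mem hx0 (inv_mem (hs0 hw))
    rwa [mul_inv_cancel_right] at h4
  rw [hone a h3, one_mul]
  exact hw

/-- STEP 3C, P-type: vectors `(n,n,0,0)` and `(n,n,n,n)`, the action modulo `2 n`. -/
theorem infCP {n : ℕ} (φ : G →* Equiv.Perm (VN (2 * n))) (c : Fin 6 → G)
    (hC : ∀ i v, φ (c i) (pi (2 * n) v) = pi (2 * n) (C i v)) (e : Fin 4 → G)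
    (h0 : e 0 = c 5 * c 4 * c 3 * c 2 * c 1 * c 2 * c 3 * c 4) (h1 : e 1 = c 4 * e 0 * c 4)
    (h2 : e 2 = c 3 * e 1 * c 3) (h3 : e 3 = c 2 * e 2 * c 2)
    (hcom : ∀ i j, Commute (e i) (e j))
    (hdec : ∀ x ∈ closure (c '' {1, 2, 3, 4, 5}), ∃ a : Fin 4 → ℤ,
      ∃ w ∈ closure (c '' {1, 2, 3, 4}), x = e 0 ^ a 0 * e 1 ^ a 1 * e 2 ^ a 2 * e 3 ^ a 3 * w)
    (hord : ∀ i, e i ^ (2 * n) = 1) (hall : (e 0 * e 1 * e 2 * e 3) ^ n = 1)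
    (x : G) (hx0 : x ∈ closure (c '' {0, 1, 2, 3, 4})) (hx1 : x ∈ closure (c '' {1, 2, 3, 4, 5})) :
    x ∈ closure (c '' {1, 2, 3, 4}) := by
  refine red hdec (fun a ha => ?_) x hx0 hx1
  obtain ⟨d0, d1, d2, d3⟩ := exps φ c hC e h0 h1 h2 h3 a ha
  obtain ⟨k, hk⟩ : (n : ℤ) ∣ a 0 := by
    obtain ⟨k, hk⟩ := d0
    refine ⟨k, ?_⟩
    push_cast at hk
    have : 2 * a 0 = 2 * ((n : ℤ) * k) := by rw [hk]; ring
    linarith
  have g1 : e 1 ^ a 1 = e 1 ^ a 0 := zdvd (hord 1) (by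
    have := dvd_sub d1 d0
    rwa [show a 0 + a 1 - 2 * a 0 = a 1 - a 0 by ring] at this)
  have g2 : e 2 ^ a 2 = e 2 ^ a 0 := zdvd (hord 2) (by
    have := dvd_sub d2 d0
    rwa [show a 0 + a 2 - 2 * a 0 = a 2 - a 0 by ring] at this)
  have g3 : e 3 ^ a 3 = e 3 ^ a 0 := zdvd (hord 3) (by
    have := dvd_sub d3 d0
    rwa [show a 0 + a 3 - 2 * a 0 = a 3 - a 0 by ring] at this)
  rw [g1, g2, g3, ← (hcom 0 1).mul_zpow,
    ← ((hcom 0 2).mul_left (hcom 1 2)).mul_zpow,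
    ← (((hcom 0 3).mul_left (hcom 1 3)).mul_left (hcom 2 3)).mul_zpow, hk, zpow_mul, zpow_natCast,
    hall, one_zpow]

/-- STEP 3C, Q-type: vectors `(n,0,0,0)` and `(n,n,0,0)`, `n` odd, the action modulo `n`, and the
homomorphism `ψ` with values `1` at `c 0, …, c 4` and `-1` at `c 5`. -/
theorem infCQ {n : ℕ} (hn : Odd n) (φ : G →* Equiv.Perm (VN n)) (c : Fin 6 → G)
    (hC : ∀ i v, φ (c i) (pi n v) = pi n (C i v)) (e : Fin 4 → G)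
    (h0 : e 0 = c 5 * c 4 * c 3 * c 2 * c 1 * c 2 * c 3 * c 4) (h1 : e 1 = c 4 * e 0 * c 4)
    (h2 : e 2 = c 3 * e 1 * c 3) (h3 : e 3 = c 2 * e 2 * c 2)
    (hdec : ∀ x ∈ closure (c '' {1, 2, 3, 4, 5}), ∃ a : Fin 4 → ℤ,
      ∃ w ∈ closure (c '' {1, 2, 3, 4}), x = e 0 ^ a 0 * e 1 ^ a 1 * e 2 ^ a 2 * e 3 ^ a 3 * w)
    (hord : e 0 ^ (2 * n) = 1) (heq : ∀ i, e i ^ n = e 0 ^ n)
    (ψ : G →* ℤˣ) (hψ : ∀ i, i ≠ 5 → ψ (c i) = 1) (hψ5 : ψ (c 5) = -1)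
    (x : G) (hx0 : x ∈ closure (c '' {0, 1, 2, 3, 4})) (hx1 : x ∈ closure (c '' {1, 2, 3, 4, 5})) :
    x ∈ closure (c '' {1, 2, 3, 4}) := by
  refine red hdec (fun a ha => ?_) x hx0 hx1
  obtain ⟨d0, d1, d2, d3⟩ := exps φ c hC e h0 h1 h2 h3 a ha
  have hc2 : IsCoprime (n : ℤ) 2 := by
    obtain ⟨k, hk⟩ := hn
    refine ⟨1, -k, ?_⟩
    rw [hk]
    push_cast
    ring
  have c0 : (n : ℤ) ∣ a 0 := hc2.dvd_of_dvd_mul_left d0
  have c1 : (n : ℤ) ∣ a 1 := by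
    have := dvd_sub d1 c0
    rwa [show a 0 + a 1 - a 0 = a 1 by ring] at this
  have c2 : (n : ℤ) ∣ a 2 := by
    have := dvd_sub d2 c0
    rwa [show a 0 + a 2 - a 0 = a 2 by ring] at this
  have c3 : (n : ℤ) ∣ a 3 := by
    have := dvd_sub d3 c0
    rwa [show a 0 + a 3 - a 0 = a 3 by ring] at this
  obtain ⟨k0, e0⟩ := c0
  obtain ⟨k1, e1⟩ := c1
  obtain ⟨k2, e2⟩ := c2
  obtain ⟨k3, e3⟩ := c3
  have heq' : e 0 ^ a 0 * e 1 ^ a 1 * e 2 ^ a 2 * e 3 ^ a 3 = (e 0 ^ n) ^ (k0 + k1 + k2 + k3) := by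
    rw [e0, e1, e2, e3, zpow_mul, zpow_mul, zpow_mul, zpow_mul, zpow_natCast, zpow_natCast,
      zpow_natCast, zpow_natCast, heq 1, heq 2, heq 3, ← zpow_add, ← zpow_add, ← zpow_add]
  have hψF : ∀ g ∈ closure (c '' {0, 1, 2, 3, 4}), ψ g = 1 := by
    intro g hg
    have hle : closure (c '' {0, 1, 2, 3, 4}) ≤ ψ.ker := by
      rw [closure_le]
      rintro y ⟨i, hi, rfl⟩
      exact hψ i (by
        rintro rfl
        simp at hi)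
    exact hle hg
  have hψe : ψ (e 0) = -1 := by
    rw [h0]
    simp only [map_mul, hψ5, hψ 1 (by decide), hψ 2 (by decide), hψ 3 (by decide),
      hψ 4 (by decide), mul_one]
  have h5 := hψF _ ha
  rw [heq'] at h5 ⊢
  rw [map_zpow, map_pow, hψe, hn.neg_one_pow] at h5
  have hev : Even (k0 + k1 + k2 + k3) := by
    rcases Int.even_or_odd (k0 + k1 + k2 + k3) with h | h
    · exact h
    · rw [h.neg_one_zpow] at h5
      exact absurd h5 (by decide)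
  obtain ⟨m, hm⟩ := hev
  rw [hm, ← two_mul, zpow_mul]
  have : (e 0 ^ n) ^ (2 : ℤ) = 1 := by
    have h6 := hord
    rw [mul_comm, pow_mul] at h6
    exact_mod_cast h6
  rw [this, one_zpow]

end Pool.Agent.Lib.MP_c2d01e_co.Ex.C19
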