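import Pool.Agent.Lib.MP_c2d01e_co.Ex.EmbC
import Pool.Agent.Lib.MP_c2d01e_co.Ex.TrV2
import Pool.Agent.Lib.MP_c2d01e_co.Ex.InfC19

/-!
# The vertex-figure groups of family (C) embed

Five generators `x 1, …, x 5` with the relations of `[4,3,3,4]` and one relation for the vertex-figure,
acting on the lattice modulo `s` by the reflections `C i`: an element of `⟨x 1, …, x 5⟩` which acts
trivially is trivial.
-/

set_option autoImplicit false

namespace Pool.Agent.Lib.MP_c2d01e_co.EmbVC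

open Subgroup CGroup EqDefs Ex.C19

section

variable {G : Type} [Group G]

theorem act_e {s : ℕ} (φ : G →* Equiv.Perm (VN s)) (c : Fin 6 → G)
    (hC : ∀ i, i ≠ 0 → ∀ v, φ (c i) (pi s v) = pi s (Ex.C19.C i v)) (e : Fin 4 → G)
    (h0 : e 0 = c 5 * c 4 * c 3 * c 2 * c 1 * c 2 * c 3 * c 4) (h1 : e 1 = c 4 * e 0 * c 4)
    (h2 : e 2 = c 3 * e 1 * c 3) (h3 : e 3 = c 2 * e 2 * c 2) (k : Fin 4) (v : V) :
    φ (e k) (pi s (gg v)) = pi s (gg (E (yy k) v)) := by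
  have g1 := hC 1 (by decide)
  have g2 := hC 2 (by decide)
  have g3 := hC 3 (by decide)
  have g4 := hC 4 (by decide)
  have g5 := hC 5 (by decide)
  have h : ∀ k v, φ (e k) (pi s v) = pi s (wd (ew k) v) := by
    intro k v
    fin_cases k
    · change φ (e 0) _ = _
      rw [h0]
      simp only [map_mul, Equiv.Perm.mul_apply, g1, g2, g3, g4, g5]
      rfl
    · change φ (e 1) _ = _
      rw [h1, h0]
      simp only [map_mul, Equiv.Perm.mul_apply, g1, g2, g3, g4, g5]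
      rfl
    · change φ (e 2) _ = _
      rw [h2, h1, h0]
      simp only [map_mul, Equiv.Perm.mul_apply, g1, g2, g3, g4, g5]
      rfl
    · change φ (e 3) _ = _
      rw [h3, h2, h1, h0]
      simp only [map_mul, Equiv.Perm.mul_apply, g1, g2, g3, g4, g5]
      rfl
  rw [h, ew_act, gg_gg]

/-- The exponents of a translation fixing the last vector. -/
theorem exps {s : ℕ} (φ : G →* Equiv.Perm (VN s)) (c : Fin 6 → G)
    (hC : ∀ i, i ≠ 0 → ∀ v, φ (c i) (pi s v) = pi s (Ex.C19.C i v)) (e : Fin 4 → G)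
    (h0 : e 0 = c 5 * c 4 * c 3 * c 2 * c 1 * c 2 * c 3 * c 4) (h1 : e 1 = c 4 * e 0 * c 4)
    (h2 : e 2 = c 3 * e 1 * c 3) (h3 : e 3 = c 2 * e 2 * c 2) (a : Fin 4 → ℤ)
    (h4 : φ (e 0 ^ a 0 * e 1 ^ a 1 * e 2 ^ a 2 * e 3 ^ a 3) (pi s ((0, 0, 0, 0), 1, 0)) =
      pi s ((0, 0, 0, 0), 1, 0)) :
    (s : ℤ) ∣ 2 * a 0 ∧ (s : ℤ) ∣ a 0 + a 1 ∧ (s : ℤ) ∣ a 0 + a 2 ∧ (s : ℤ) ∣ a 0 + a 3 := by
  have h5 : (pi s ((0, 0, 0, 0), 1, 0) : VN s) = pi s (gg ((-2, 1, 1, 1), 1, -1)) := by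
    congr 1
  rw [h5] at h4
  rw [prod_act φ (fun v => pi s (gg v)) (act_e φ c hC e h0 h1 h2 h3), ← h5] at h4
  obtain ⟨e1, e2, e3, e4⟩ := dvd_fix h4
  simp [yy] at e1 e2 e3 e4
  refine ⟨?_, ?_, ?_, ?_⟩
  · rw [mul_comm]
    exact e1
  · exact e2
  · exact e3
  · exact e4

variable {x : Fin 6 → G}

/-- the inverse translations in the other order -/
def ee (x : Fin 6 → G) : Fin 4 → G :=
  ![(TrV.t x 3)⁻¹, (TrV.t x 2)⁻¹, (TrV.t x 1)⁻¹, (TrV.t x 0)⁻¹]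

theorem inv_x (h : Fi.Cx TrV.coxV x) (k : Fin 6) : (x k)⁻¹ = x k :=
  inv_eq_of_mul_eq_one_left (h.sq k)

theorem ee3 (h : Fi.Cx TrV.coxV x) : ee x 3 = x 2 * ee x 2 * x 2 := by
  show (TrV.t x 0)⁻¹ = x 2 * (TrV.t x 1)⁻¹ * x 2
  rw [← TrV.c20 h, inv_x h]
  simp only [mul_inv_rev, inv_x h, mul_assoc]
  rw [h.sq 2, mul_one, ← mul_assoc (x 2) (x 2), h.sq 2, one_mul]

theorem ee2 (h : Fi.Cx TrV.coxV x) : ee x 2 = x 3 * ee x 1 * x 3 := by
  show (TrV.t x 1)⁻¹ = x 3 * (TrV.t x 2)⁻¹ * x 3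
  rw [← TrV.c31 h, inv_x h]
  simp only [mul_inv_rev, inv_x h, mul_assoc]
  rw [h.sq 3, mul_one, ← mul_assoc (x 3) (x 3), h.sq 3, one_mul]

theorem ee1 (h : Fi.Cx TrV.coxV x) : ee x 1 = x 4 * ee x 0 * x 4 := by
  show (TrV.t x 2)⁻¹ = x 4 * (TrV.t x 3)⁻¹ * x 4
  rw [← TrV.c42 h, inv_x h]
  simp only [mul_inv_rev, inv_x h, mul_assoc]
  rw [h.sq 4, mul_one, ← mul_assoc (x 4) (x 4), h.sq 4, one_mul]

theorem sq2 (h : Fi.Cx TrV.coxV x) (k : Fin 6) (y : G) : x k * (x k * y) = y := by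
  rw [← mul_assoc, h.sq, one_mul]

theorem ee0 (h : Fi.Cx TrV.coxV x) :
    ee x 0 = x 5 * x 4 * x 3 * x 2 * x 1 * x 2 * x 3 * x 4 := by
  show (TrV.t x 3)⁻¹ = _
  rw [← TrV.c42 h, ← TrV.c31 h, ← TrV.c20 h]
  have ht : TrV.t x 0 = x 1 * (x 2 * (x 3 * (x 4 * (x 5 * (x 4 * (x 3 * x 2)))))) := by
    show Fi.lp x [1, 2, 3, 4, 5, 4, 3, 2] = _
    simp only [Fi.lp_cons, Fi.lp_nil, mul_one]
  rw [ht]
  simp only [inv_x h, mul_inv_rev, mul_assoc, sq2 h]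

theorem tp_eq (h : Fi.Cx TrV.coxV x) (c : Fin 4 → ℤ) :
    TrV.tp x c = ee x 0 ^ (-c 3) * ee x 1 ^ (-c 2) * ee x 2 ^ (-c 1) * ee x 3 ^ (-c 0) := by
  show _ = (TrV.t x 3)⁻¹ ^ (-c 3) * (TrV.t x 2)⁻¹ ^ (-c 2) * (TrV.t x 1)⁻¹ ^ (-c 1) *
    (TrV.t x 0)⁻¹ ^ (-c 0)
  simp only [inv_zpow', neg_neg]
  unfold TrV.tp
  have c01 : Commute (TrV.t x 0 ^ c 0) (TrV.t x 1 ^ c 1) :=
    ((TrV.t_comm h 0 1).zpow_left _).zpow_right _
  have c02 : Commute (TrV.t x 0 ^ c 0) (TrV.t x 2 ^ c 2) :=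
    ((TrV.t_comm h 0 2).zpow_left _).zpow_right _
  have c03 : Commute (TrV.t x 0 ^ c 0) (TrV.t x 3 ^ c 3) :=
    ((TrV.t_comm h 0 3).zpow_left _).zpow_right _
  have c12 : Commute (TrV.t x 1 ^ c 1) (TrV.t x 2 ^ c 2) :=
    ((TrV.t_comm h 1 2).zpow_left _).zpow_right _
  have c13 : Commute (TrV.t x 1 ^ c 1) (TrV.t x 3 ^ c 3) :=
    ((TrV.t_comm h 1 3).zpow_left _).zpow_right _
  have c23 : Commute (TrV.t x 2 ^ c 2) (TrV.t x 3 ^ c 3) :=
    ((TrV.t_comm h 2 3).zpow_left _).zpow_right _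
  rw [((c03.mul_left c13).mul_left c23).eq, (c02.mul_left c12).eq, c01.eq]
  simp only [mul_assoc]

theorem C_eq (i : Fin 6) (v : V) : CGroupC.C i v = Ex.C19.C i v := by
  fin_cases i
  · rfl
  · rfl
  · rfl
  · rfl
  · exact CGroupC.C_four v
  · rfl

theorem hrS (h : Fi.Cx TrV.coxV x) : ∀ i ∈ ({1, 2, 3, 4, 5} : Finset (Fin 6)),
    ∀ j ∈ ({1, 2, 3, 4, 5} : Finset (Fin 6)), (x i * x j) ^ coxC i j = 1 := by
  intro i hi j hj
  have h1 := h.pw i j
  have hi0 : i ≠ 0 := by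
    rintro rfl
    simp at hi
  have hj0 : j ≠ 0 := by
    rintro rfl
    simp at hj
  unfold TrV.coxV at h1
  rwa [if_neg (by tauto)] at h1

theorem fixW {s : ℕ} (φ : G →* Equiv.Perm (VN s)) (h : Fi.Cx TrV.coxV x)
    (hφ : ∀ i, i ≠ 0 → ∀ v, φ (x i) (pi s v) = pi s (CGroupC.C i v)) (w : G)
    (hw : w ∈ closure (x '' {1, 2, 3, 4})) :
    φ w (pi s ((0, 0, 0, 0), 1, 0)) = pi s ((0, 0, 0, 0), 1, 0) := by
  have h1 := ExC.fix_of_notMem (hrS h) φ (pi s) (fun i hi v => hφ i (by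
    rintro rfl
    simp at hi) v) {1, 2, 3, 4} (by decide) 5 (by decide) w (by simpa using hw)
  exact h1

/-- The common part: the exponents of the translation part. -/
theorem core {s : ℕ} (φ : G →* Equiv.Perm (VN s)) (h : Fi.Cx TrV.coxV x)
    (hφ : ∀ i, i ≠ 0 → ∀ v, φ (x i) (pi s v) = pi s (CGroupC.C i v)) (c : Fin 4 → ℤ) (w : G)
    (hw : w ∈ closure (x '' {1, 2, 3, 4})) (h1 : φ (TrV.tp x c * w) = 1) :
    (s : ℤ) ∣ 2 * -c 3 ∧ (s : ℤ) ∣ -c 3 + -c 2 ∧ (s : ℤ) ∣ -c 3 + -c 1 ∧ (s : ℤ) ∣ -c 3 + -c 0 := by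
  have h2 := fixW φ h hφ w hw
  have h3 : φ (TrV.tp x c) (pi s ((0, 0, 0, 0), 1, 0)) = pi s ((0, 0, 0, 0), 1, 0) := by
    have h4 : φ (TrV.tp x c * w) (pi s ((0, 0, 0, 0), 1, 0)) = pi s ((0, 0, 0, 0), 1, 0) := by
      rw [h1]; rfl
    rw [map_mul, Equiv.Perm.mul_apply, h2] at h4
    exact h4
  rw [tp_eq h] at h3
  exact exps φ x (fun i hi v => by rw [hφ i hi, C_eq]) (ee x) (ee0 h) (ee1 h) (ee2 h) (ee3 h)
    ![-c 3, -c 2, -c 1, -c 0] h3

/-- The vertex-figure groups of the P-type: vector `(n,n,n,n)`, the action modulo `2 n`. -/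
theorem vertP {n : ℕ} (hn2 : 2 ≤ n) (h : Fi.Cx TrV.coxV x) (hn : Fi.lp x TrV.wV4 ^ n = 1)
    (φ : G →* Equiv.Perm (VN (2 * n)))
    (hφ : ∀ i, i ≠ 0 → ∀ v, φ (x i) (pi (2 * n) v) = pi (2 * n) (CGroupC.C i v))
    (y : G) (hy : y ∈ closure (x '' {1, 2, 3, 4, 5})) (h1 : φ y = 1) : y = 1 := by
  obtain ⟨c, w, hw, rfl⟩ := TrV.main h y hy
  change φ (TrV.tp x c * w) = 1 at h1
  obtain ⟨d0, d1, d2, d3⟩ := core φ h hφ c w hw h1
  push_cast at d0 d1 d2 d3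
  have ht : TrV.tp x c = 1 := by
    obtain ⟨k, hk⟩ : (n : ℤ) ∣ c 3 := by
      obtain ⟨k, hk⟩ := d0
      exact ⟨-k, by linarith⟩
    obtain ⟨j2, e2⟩ := d1
    obtain ⟨j1, e1⟩ := d2
    obtain ⟨j0, e0⟩ := d3
    have f2 : c 2 = n * (-k - 2 * j2) := by
      have : c 2 = -(2 * (n : ℤ) * j2) - c 3 := by linarith
      rw [this, hk]; ring
    have f1 : c 1 = n * (-k - 2 * j1) := by
      have : c 1 = -(2 * (n : ℤ) * j1) - c 3 := by linarith
      rw [this, hk]; ring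
    have f0 : c 0 = n * (-k - 2 * j0) := by
      have : c 0 = -(2 * (n : ℤ) * j0) - c 3 := by linarith
      rw [this, hk]; ring
    refine TrV.Ptype h hn c ![-k - 2 * j0, -k - 2 * j1, -k - 2 * j2, k] ?_ ?_
    · intro i
      fin_cases i
      exacts [f0, f1, f2, hk]
    · rcases Int.even_or_odd k with hk2 | hk2
      · left
        obtain ⟨r, hr⟩ := hk2
        intro i
        fin_cases i
        exacts [⟨-r - j0, by show -k - 2 * j0 = _; rw [hr]; ring⟩,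
          ⟨-r - j1, by show -k - 2 * j1 = _; rw [hr]; ring⟩,
          ⟨-r - j2, by show -k - 2 * j2 = _; rw [hr]; ring⟩, ⟨r, hr⟩]
      · right
        obtain ⟨r, hr⟩ := hk2
        intro i
        fin_cases i
        exacts [⟨-r - j0 - 1, by show -k - 2 * j0 = _; rw [hr]; ring⟩,
          ⟨-r - j1 - 1, by show -k - 2 * j1 = _; rw [hr]; ring⟩,
          ⟨-r - j2 - 1, by show -k - 2 * j2 = _; rw [hr]; ring⟩, ⟨r, hr⟩]
  rw [ht, one_mul] at h1
  have hw1 : w = 1 := ExC.trivW (hrS h) (by decide) φ (pi (2 * n)) (fun i hi v => hφ i (by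
    rintro rfl
    simp at hi) v) (CGroupB.nearB_pi (2 * n) (by omega)) w hw h1
  change TrV.tp x c * w = 1
  rw [ht, hw1, one_mul]

/-- The vertex-figure groups of the Q-type: vector `(n,n,0,0)`, `n` odd, the action modulo `n` and
the sign of the last generator. -/
theorem vertQ {n : ℕ} (hn3 : 3 ≤ n) (hodd : Odd n) (h : Fi.Cx TrV.coxV x)
    (hn : Fi.lp x TrV.wV2 ^ n = 1) (φ : G →* Equiv.Perm (VN n))
    (hφ : ∀ i, i ≠ 0 → ∀ v, φ (x i) (pi n v) = pi n (CGroupC.C i v))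
    (ψ : G →* ℤˣ) (hψ : ∀ i, i ≠ 0 → i ≠ 5 → ψ (x i) = 1) (hψ5 : ψ (x 5) = -1)
    (y : G) (hy : y ∈ closure (x '' {1, 2, 3, 4, 5})) (h1 : φ y = 1) (h2 : ψ y = 1) : y = 1 := by
  obtain ⟨c, w, hw, rfl⟩ := TrV.main h y hy
  change φ (TrV.tp x c * w) = 1 at h1
  change ψ (TrV.tp x c * w) = 1 at h2
  obtain ⟨d0, d1, d2, d3⟩ := core φ h hφ c w hw h1
  have ht : TrV.tp x c = 1 := by
    have hc2 : IsCoprime (n : ℤ) 2 := by
      obtain ⟨k, hk⟩ := hodd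
      refine ⟨1, -k, ?_⟩
      rw [hk]
      push_cast
      ring
    have g3 : (n : ℤ) ∣ c 3 := by
      have := hc2.dvd_of_dvd_mul_left d0
      exact (dvd_neg).1 this
    have g2 : (n : ℤ) ∣ c 2 := by
      have := dvd_add d1 g3
      rw [show -c 3 + -c 2 + c 3 = -c 2 by ring] at this
      exact (dvd_neg).1 this
    have g1 : (n : ℤ) ∣ c 1 := by
      have := dvd_add d2 g3
      rw [show -c 3 + -c 1 + c 3 = -c 1 by ring] at this
      exact (dvd_neg).1 this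
    have g0 : (n : ℤ) ∣ c 0 := by
      have := dvd_add d3 g3
      rw [show -c 3 + -c 0 + c 3 = -c 0 by ring] at this
      exact (dvd_neg).1 this
    obtain ⟨k0, e0⟩ := g0
    obtain ⟨k1, e1⟩ := g1
    obtain ⟨k2, e2⟩ := g2
    obtain ⟨k3, e3⟩ := g3
    have hψw : ψ w = 1 := by
      have hle : closure (x '' {1, 2, 3, 4}) ≤ ψ.ker := by
        rw [closure_le]
        rintro z ⟨i, hi, rfl⟩
        refine hψ i ?_ ?_
        · rintro rfl
          simp at hi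
        · rintro rfl
          simp at hi
      exact hle hw
    have hψt : ∀ i, ψ (TrV.t x i) = -1 := by
      have q0 : ψ (TrV.t x 0) = -1 := by
        have ht : TrV.t x 0 = x 1 * (x 2 * (x 3 * (x 4 * (x 5 * (x 4 * (x 3 * x 2)))))) := by
          show Fi.lp x [1, 2, 3, 4, 5, 4, 3, 2] = _
          simp only [Fi.lp_cons, Fi.lp_nil, mul_one]
        rw [ht]
        simp only [map_mul, hψ5, hψ 1 (by decide) (by decide), hψ 2 (by decide) (by decide),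
          hψ 3 (by decide) (by decide), hψ 4 (by decide) (by decide), mul_one, one_mul]
      have q1 : ψ (TrV.t x 1) = -1 := by
        rw [← TrV.c20 h]
        simp only [map_mul, map_inv, q0, hψ 2 (by decide) (by decide), inv_one, mul_one, one_mul]
      have q2 : ψ (TrV.t x 2) = -1 := by
        rw [← TrV.c31 h]
        simp only [map_mul, map_inv, q1, hψ 3 (by decide) (by decide), inv_one, mul_one, one_mul]
      have q3 : ψ (TrV.t x 3) = -1 := by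
        rw [← TrV.c42 h]
        simp only [map_mul, map_inv, q2, hψ 4 (by decide) (by decide), inv_one, mul_one, one_mul]
      intro i
      fin_cases i
      exacts [q0, q1, q2, q3]
    have h3 : ((-1 : ℤˣ)) ^ (c 0 + c 1 + c 2 + c 3) = 1 := by
      rw [map_mul, hψw, mul_one] at h2
      unfold TrV.tp at h2
      simp only [map_mul, map_zpow, hψt] at h2
      rw [zpow_add, zpow_add, zpow_add]
      exact h2
    have hev : Even (k0 + k1 + k2 + k3) := by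
      rcases Int.even_or_odd (k0 + k1 + k2 + k3) with h4 | h4
      · exact h4
      · exfalso
        have h5 : Odd (c 0 + c 1 + c 2 + c 3) := by
          have : c 0 + c 1 + c 2 + c 3 = n * (k0 + k1 + k2 + k3) := by
            rw [e0, e1, e2, e3]; ring
          rw [this]
          exact Odd.mul (by exact_mod_cast hodd) h4
        rw [h5.neg_one_zpow] at h3
        exact absurd h3 (by decide)
    refine TrV.Qtype h hn c ![k0, k1, k2, k3] ?_ hev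
    intro i
    fin_cases i
    exacts [e0, e1, e2, e3]
  rw [ht, one_mul] at h1
  have hw1 : w = 1 := ExC.trivW (hrS h) (by decide) φ (pi n) (fun i hi v => hφ i (by
    rintro rfl
    simp at hi) v) (CGroupB.nearB_pi n hn3) w hw h1
  change TrV.tp x c * w = 1
  rw [ht, hw1, one_mul]

end

end Pool.Agent.Lib.MP_c2d01e_co.EmbVC
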