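import Pool.Agent.Lib.MP_c2d01e_co.Ex.EmbVC

/-!
# The vertex-figure groups of family (C) embed: Q-type, all `n ≥ 3`

The action on the lattice modulo `n N`, `N = {(h, a, b) : h ∈ (1+i)H, a, b even}`, in abstract form.
-/

set_option autoImplicit false

namespace Pool.Agent.Lib.MP_c2d01e_co.EmbVCN

open Subgroup CGroup EqDefs Ex.C19 EmbVC

/-- Membership in `n N`. -/
def InN (n : ℕ) (d : V) : Prop :=
  (2 * n : ℤ) ∣ d.1.1 ∧ (n : ℤ) ∣ d.1.2.1 ∧ (n : ℤ) ∣ d.1.2.2.1 ∧ (n : ℤ) ∣ d.1.2.2.2 ∧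
    (2 * n : ℤ) ∣ d.1.2.1 + d.1.2.2.1 + d.1.2.2.2 ∧ (2 * n : ℤ) ∣ d.2.1 ∧ (2 * n : ℤ) ∣ d.2.2

section

variable {G : Type} [Group G] {X : Type*}

theorem act_e (φ : G →* Equiv.Perm X) (π : V → X) (c : Fin 6 → G)
    (hC : ∀ i, i ≠ 0 → ∀ v, φ (c i) (π v) = π (Ex.C19.C i v)) (e : Fin 4 → G)
    (h0 : e 0 = c 5 * c 4 * c 3 * c 2 * c 1 * c 2 * c 3 * c 4) (h1 : e 1 = c 4 * e 0 * c 4)
    (h2 : e 2 = c 3 * e 1 * c 3) (h3 : e 3 = c 2 * e 2 * c 2) (k : Fin 4) (v : V) :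
    φ (e k) (π (gg v)) = π (gg (E (yy k) v)) := by
  have g1 := hC 1 (by decide)
  have g2 := hC 2 (by decide)
  have g3 := hC 3 (by decide)
  have g4 := hC 4 (by decide)
  have g5 := hC 5 (by decide)
  have h : ∀ k v, φ (e k) (π v) = π (wd (ew k) v) := by
    intro k v
    fin_cases k
    · change φ (e 0) _ = _
      rw [h0]
      simp only [map_mul, Equiv.Perm.mul_apply, g1, g2, g3, g4, g5]
      rfl
    · change φ (e 1) _ = _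
      rw [h1, h0]
      simp only [map_mul, Equiv.Perm.mul_apply, g1, g2, g3, g4, g5]
      rfl
    · change φ (e 2) _ = _
      rw [h2, h1, h0]
      simp only [map_mul, Equiv.Perm.mul_apply, g1, g2, g3, g4, g5]
      rfl
    · change φ (e 3) _ = _
      rw [h3, h2, h1, h0]
      simp only [map_mul, Equiv.Perm.mul_apply, g1, g2, g3, g4, g5]
      rfl
  rw [h, ew_act, gg_gg]

/-- The exponents of a translation fixing the last vector. -/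
theorem expsN {n : ℕ} (hn1 : 1 ≤ n) (φ : G →* Equiv.Perm X) (π : V → X)
    (hsep : ∀ v w, π v = π w → InN n (v - w)) (c : Fin 6 → G)
    (hC : ∀ i, i ≠ 0 → ∀ v, φ (c i) (π v) = π (Ex.C19.C i v)) (e : Fin 4 → G)
    (h0 : e 0 = c 5 * c 4 * c 3 * c 2 * c 1 * c 2 * c 3 * c 4) (h1 : e 1 = c 4 * e 0 * c 4)
    (h2 : e 2 = c 3 * e 1 * c 3) (h3 : e 3 = c 2 * e 2 * c 2) (a : Fin 4 → ℤ)
    (h4 : φ (e 0 ^ a 0 * e 1 ^ a 1 * e 2 ^ a 2 * e 3 ^ a 3) (π ((0, 0, 0, 0), 1, 0)) =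
      π ((0, 0, 0, 0), 1, 0)) :
    ∃ k : Fin 4 → ℤ, (∀ i, a i = n * k i) ∧ Even (k 0 + k 1 + k 2 + k 3) := by
  have h5 : (((0, 0, 0, 0), 1, 0) : V) = gg ((-2, 1, 1, 1), 1, -1) := by decide
  have h6 : π (gg (E (a 0 • yy 0 + a 1 • yy 1 + a 2 • yy 2 + a 3 • yy 3)
      ((-2, 1, 1, 1), 1, -1))) = π ((0, 0, 0, 0), 1, 0) := by
    rw [← prod_act φ (fun v => π (gg v)) (act_e φ π c hC e h0 h1 h2 h3)]
    rw [← h5]
    exact h4
  have hy : a 0 • yy 0 + a 1 • yy 1 + a 2 • yy 2 + a 3 • yy 3 =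
      ((-2 * a 0, a 0 + a 1, a 0 + a 2, a 0 + a 3) : H4) := by
    simp only [yy, Matrix.cons_val_zero, Matrix.cons_val_one, Matrix.cons_val, Prod.smul_mk,
      Prod.mk_add_mk, smul_eq_mul, Prod.mk.injEq]
    refine ⟨?_, ?_, ?_, ?_⟩ <;> ring
  rw [hy] at h6
  obtain ⟨M, hM⟩ : ∃ M : ℤ, (E (-2 * a 0, a 0 + a 1, a 0 + a 2, a 0 + a 3)
      ((-2, 1, 1, 1), 1, -1)) =
      ((-2 - (-2 * a 0), 1 - (a 0 + a 1), 1 - (a 0 + a 2), 1 - (a 0 + a 3)), M, -1) := by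
    refine ⟨(E (-2 * a 0, a 0 + a 1, a 0 + a 2, a 0 + a 3) ((-2, 1, 1, 1), 1, -1)).2.1, ?_⟩
    refine Prod.ext ?_ (Prod.ext rfl rfl)
    simp only [E, Prod.smul_mk, Prod.mk_add_mk, smul_eq_mul, Prod.mk.injEq]
    refine ⟨?_, ?_, ?_, ?_⟩ <;> ring
  rw [hM, gg_eq] at h6
  obtain ⟨d1, d2, d3, d4, d5, d6, d7⟩ := hsep _ _ h6
  simp only [Prod.mk_sub_mk] at d1 d2 d3 d4 d5 d6 d7
  obtain ⟨j1, e1⟩ := d1
  obtain ⟨j2, e2⟩ := d2
  obtain ⟨j3, e3⟩ := d3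
  obtain ⟨j4, e4⟩ := d4
  obtain ⟨j5, e5⟩ := d5
  obtain ⟨j6, e6⟩ := d6
  obtain ⟨j7, e7⟩ := d7
  have f0 : a 0 = n * (-(j6 + j7)) := by linarith
  have f1 : a 1 = n * (2 * j6 + 2 * (-(j6 + j7)) - (-(j6 + j7)) - j2) := by linarith
  have f2 : a 2 = n * (2 * j6 + 2 * (-(j6 + j7)) - (-(j6 + j7)) - j3) := by linarith
  have f3 : a 3 = n * (2 * j6 + 2 * (-(j6 + j7)) - (-(j6 + j7)) - j4) := by linarith
  have hn0 : (n : ℤ) ≠ 0 := by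
    have : n ≠ 0 := by omega
    exact_mod_cast this
  have f5 : j2 + j3 + j4 = 2 * j5 := by
    have : (n : ℤ) * (j2 + j3 + j4) = n * (2 * j5) := by linarith
    exact mul_left_cancel₀ hn0 this
  refine ⟨![-(j6 + j7), 2 * j6 + 2 * (-(j6 + j7)) - (-(j6 + j7)) - j2,
    2 * j6 + 2 * (-(j6 + j7)) - (-(j6 + j7)) - j3,
    2 * j6 + 2 * (-(j6 + j7)) - (-(j6 + j7)) - j4], ?_, ?_⟩
  · intro i
    fin_cases i
    exacts [f0, f1, f2, f3]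
  · change Even (-(j6 + j7) + (2 * j6 + 2 * (-(j6 + j7)) - (-(j6 + j7)) - j2) +
      (2 * j6 + 2 * (-(j6 + j7)) - (-(j6 + j7)) - j3) +
      (2 * j6 + 2 * (-(j6 + j7)) - (-(j6 + j7)) - j4))
    refine ⟨j6 - 2 * j7 - j5, ?_⟩
    linarith

variable {x : Fin 6 → G}

/-- The vertex-figure groups of the Q-type: vector `(n,n,0,0)`, all `n`. -/
theorem vertN {n : ℕ} (hn1 : 1 ≤ n) (h : Fi.Cx TrV.coxV x)
    (hn : Fi.lp x TrV.wV2 ^ n = 1) (φ : G →* Equiv.Perm X) (π : V → X)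
    (hφ : ∀ i, i ≠ 0 → ∀ v, φ (x i) (π v) = π (CGroupC.C i v))
    (hπ : ∀ v w, CGroupB.nearB v w = true → π v ≠ π w)
    (hsep : ∀ v w, π v = π w → InN n (v - w))
    (y : G) (hy : y ∈ closure (x '' {1, 2, 3, 4, 5})) (h1 : φ y = 1) : y = 1 := by
  obtain ⟨c, w, hw, rfl⟩ := TrV.main h y hy
  change φ (TrV.tp x c * w) = 1 at h1
  have hS : ∀ i ∈ ({1, 2, 3, 4, 5} : Finset (Fin 6)), ∀ v, φ (x i) (π v) = π (CGroupC.C i v) :=
    fun i hi v => hφ i (by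
      rintro rfl
      simp at hi) v
  have h2 : φ w (π ((0, 0, 0, 0), 1, 0)) = π ((0, 0, 0, 0), 1, 0) :=
    ExC.fix_of_notMem (hrS h) φ π hS {1, 2, 3, 4} (by decide) 5 (by decide) w (by simpa using hw)
  have h3 : φ (TrV.tp x c) (π ((0, 0, 0, 0), 1, 0)) = π ((0, 0, 0, 0), 1, 0) := by
    have h4 : φ (TrV.tp x c * w) (π ((0, 0, 0, 0), 1, 0)) = π ((0, 0, 0, 0), 1, 0) := by
      rw [h1]; rfl
    rw [map_mul, Equiv.Perm.mul_apply, h2] at h4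
    exact h4
  rw [tp_eq h] at h3
  obtain ⟨k, hk, hev⟩ := expsN hn1 φ π hsep x (fun i hi v => by rw [hφ i hi, C_eq]) (ee x) (ee0 h)
    (ee1 h) (ee2 h) (ee3 h) ![-c 3, -c 2, -c 1, -c 0] h3
  have ht : TrV.tp x c = 1 := by
    refine TrV.Qtype h hn c ![-k 3, -k 2, -k 1, -k 0] ?_ ?_
    · intro i
      have k0 : -c 3 = n * k 0 := hk 0
      have k1 : -c 2 = n * k 1 := hk 1
      have k2 : -c 1 = n * k 2 := hk 2
      have k3 : -c 0 = n * k 3 := hk 3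
      fin_cases i
      · show c 0 = n * -k 3
        linarith
      · show c 1 = n * -k 2
        linarith
      · show c 2 = n * -k 1
        linarith
      · show c 3 = n * -k 0
        linarith
    · show Even (-k 3 + -k 2 + -k 1 + -k 0)
      obtain ⟨r, hr⟩ := hev
      exact ⟨-r, by linarith⟩
  rw [ht, one_mul] at h1
  have hw1 : w = 1 := ExC.trivW (hrS h) (by decide) φ π hS hπ w hw h1
  change TrV.tp x c * w = 1
  rw [ht, hw1, one_mul]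

end

end Pool.Agent.Lib.MP_c2d01e_co.EmbVCN
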