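import Pool.Agent.Lib.MP_c2d01e_co.Ex.EmbVC
import Pool.Agent.Lib.MP_c2d01e_co.Ex.HomC
import Pool.Agent.Lib.MP_c2d01e_co.Ex.EmbDefs

/-!
# The vertex-figure groups of family (C) embed: final form

The natural homomorphisms `VerC n 4 → GamC n 2 n 4` (`n ≥ 2`) and `VerC n 2 → GamC n 1 n 2` (`n ≥ 3` odd)
are injective.
-/

set_option autoImplicit false

namespace Pool.Agent.Lib.MP_c2d01e_co.EmbVCf

open Subgroup EqDefs

def sg5 : Fin 6 → ℤˣ := ![1, 1, 1, 1, 1, -1]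

theorem sg5_cox : ∀ i j : Fin 6, (sg5 i * sg5 j) ^ coxC i j = 1 := by
  decide

theorem sg5_rels (t k u l : ℕ) (hl : l = 2 ∨ l = 4) :
    ∀ r ∈ relsC t k u l, FreeGroup.lift sg5 r = 1 := by
  have a : ∀ i, (FreeGroup.lift sg5) (EqDefs.gen i) = sg5 i := by
    intro i
    rw [EqDefs.gen, FreeGroup.lift_apply_of]
  rintro r (⟨i, j, rfl⟩ | hr | hr)
  · rw [map_pow, map_mul, a, a]
    exact sg5_cox i j
  · rw [hr, facetC]
    split_ifs with hk
    · simp only [sC, tC, map_pow, map_mul, a]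
      have : (sg5 4 * (sg5 3 * sg5 2 * sg5 1 * sg5 2 * sg5 3) * (sg5 0 * sg5 1 * sg5 2 * sg5 1 * sg5 0) *
        (sg5 3 * sg5 2 * sg5 1 * sg5 2 * sg5 3)) = 1 := by decide
      rw [this, one_pow]
    · simp only [sC, tC, map_pow, map_mul, a]
      have : (sg5 4 * (sg5 3 * sg5 2 * sg5 1 * sg5 2 * sg5 3) *
        (sg5 0 * sg5 1 * sg5 2 * sg5 1 * sg5 0)) = 1 := by decide
      rw [this, one_pow]
  · rw [Set.mem_singleton_iff.1 hr, vertC]
    rcases hl with rfl | rfl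
    · rw [if_neg (by norm_num), if_pos rfl]
      simp only [map_pow, map_mul, a]
      rw [pow_mul]
      have : (sg5 1 * sg5 2 * sg5 3 * sg5 4 * sg5 5 * sg5 4 * sg5 3) ^ 2 = 1 := by decide
      rw [this, one_pow]
    · rw [if_neg (by norm_num), if_neg (by norm_num)]
      simp only [map_pow, map_mul, a]
      rw [pow_mul]
      have : (sg5 1 * sg5 2 * sg5 3 * sg5 4 * sg5 5) ^ 4 = 1 := by decide
      rw [this, one_pow]

/-- The sign of the last generator. -/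
def psi5 (t k u l : ℕ) (hl : l = 2 ∨ l = 4) : GamC t k u l →* ℤˣ :=
  PresentedGroup.toGroup (sg5_rels t k u l hl)

theorem psi5_of (t k u l : ℕ) (hl : l = 2 ∨ l = 4) (i : Fin 6) :
    psi5 t k u l hl (PresentedGroup.of i) = sg5 i := by
  rw [psi5, PresentedGroup.toGroup.of]

open EmbDefs in
theorem rel_hom (t k u l : ℕ) : ∀ r ∈ ({r | ∃ i j : Fin 5, r = (x i * x j) ^ coxC i.succ j.succ} ∪
    {verC u l} : Set (FreeGroup (Fin 5))),
    FreeGroup.lift (fun i : Fin 5 => (PresentedGroup.of i.succ : GamC t k u l)) r = 1 := by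
  rintro r (⟨i, j, rfl⟩ | hr)
  · rw [map_pow, map_mul, x, x, FreeGroup.lift_apply_of, FreeGroup.lift_apply_of]
    exact ExHom.of_coxC t k u l i.succ j.succ
  · rw [Set.mem_singleton_iff.1 hr]
    have h : (PresentedGroup.mk (relsC t k u l)) (vertC u l) = 1 :=
      PresentedGroup.one_of_mem (Or.inr (Or.inr rfl))
    rw [← h]
    unfold verC vertC
    split_ifs <;>
      simp only [x, gen, map_mul, map_pow, FreeGroup.lift_apply_of] <;> rfl

/-- The natural homomorphism from the group of the vertex-figures. -/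
def nat (t k u l : ℕ) : EmbDefs.VerC u l →* GamC t k u l :=
  PresentedGroup.toGroup (rel_hom t k u l)

theorem nat_of (t k u l : ℕ) (i : Fin 5) :
    nat t k u l (PresentedGroup.of i) = PresentedGroup.of i.succ := by
  rw [nat, PresentedGroup.toGroup.of]

/-- The generators. -/
def g5 (u l : ℕ) : Fin 5 → EmbDefs.VerC u l := PresentedGroup.of

/-- The generators with indices `1, …, 5`. -/
def x6 (u l : ℕ) : Fin 6 → EmbDefs.VerC u l := Fin.cons 1 (g5 u l)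

theorem x6_succ (u l : ℕ) (i : Fin 5) : x6 u l i.succ = g5 u l i := by
  unfold x6
  rw [Fin.cons_succ]

open EmbDefs in
theorem cx6 (u l : ℕ) : Fi.Cx TrV.coxV (x6 u l) := by
  refine TrV.cxV fun i j => ?_
  have h : (PresentedGroup.mk ({r | ∃ i j : Fin 5, r = (x i * x j) ^ coxC i.succ j.succ} ∪
      {verC u l})) ((x i * x j) ^ coxC i.succ j.succ) = 1 :=
    PresentedGroup.one_of_mem (Or.inl ⟨i, j, rfl⟩)
  rw [map_pow, map_mul] at h
  exact h

theorem mem6 (u l : ℕ) (y : EmbDefs.VerC u l) : y ∈ closure (x6 u l '' {1, 2, 3, 4, 5}) := by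
  have h1 : Set.range (g5 u l) ⊆ x6 u l '' {1, 2, 3, 4, 5} := by
    rintro z ⟨i, rfl⟩
    refine ⟨i.succ, ?_, x6_succ u l i⟩
    fin_cases i <;> simp
  have h2 : closure (Set.range (g5 u l)) = ⊤ := PresentedGroup.closure_range_of _
  have h3 : y ∈ closure (Set.range (g5 u l)) := by rw [h2]; trivial
  exact closure_mono h1 h3

open EmbDefs in
theorem rel4 (n : ℕ) : Fi.lp (x6 n 4) TrV.wV4 ^ n = 1 := by
  have e : verC n 4 = ((x 0 * x 1 * x 2 * x 3 * x 4) ^ 4) ^ n := by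
    unfold verC
    rw [if_neg (by norm_num), if_neg (by norm_num), pow_mul]
  have h : (PresentedGroup.mk ({r | ∃ i j : Fin 5, r = (x i * x j) ^ coxC i.succ j.succ} ∪
      {verC n 4})) (((x 0 * x 1 * x 2 * x 3 * x 4) ^ 4) ^ n) = 1 := by
    rw [← e]
    exact PresentedGroup.one_of_mem (Or.inr rfl)
  have h2 : Fi.lp (x6 n 4) TrV.wV4 =
      (PresentedGroup.mk ({r | ∃ i j : Fin 5, r = (x i * x j) ^ coxC i.succ j.succ} ∪
      {verC n 4})) ((x 0 * x 1 * x 2 * x 3 * x 4) ^ 4) := by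
    show Fi.lp (x6 n 4) [1, 2, 3, 4, 5, 1, 2, 3, 4, 5, 1, 2, 3, 4, 5, 1, 2, 3, 4, 5] = _
    simp only [Fi.lp_cons, Fi.lp_nil, pow_succ, pow_zero, one_mul, mul_one, mul_assoc, map_mul]
    rfl
  rw [h2, ← map_pow]
  exact h

open EmbDefs in
theorem rel2 (n : ℕ) : Fi.lp (x6 n 2) TrV.wV2 ^ n = 1 := by
  have e : verC n 2 = ((x 0 * x 1 * x 2 * x 3 * x 4 * x 3 * x 2) ^ 2) ^ n := by
    unfold verC
    rw [if_neg (by norm_num), if_pos rfl, pow_mul]
  have h : (PresentedGroup.mk ({r | ∃ i j : Fin 5, r = (x i * x j) ^ coxC i.succ j.succ} ∪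
      {verC n 2})) (((x 0 * x 1 * x 2 * x 3 * x 4 * x 3 * x 2) ^ 2) ^ n) = 1 := by
    rw [← e]
    exact PresentedGroup.one_of_mem (Or.inr rfl)
  have h2 : Fi.lp (x6 n 2) TrV.wV2 =
      (PresentedGroup.mk ({r | ∃ i j : Fin 5, r = (x i * x j) ^ coxC i.succ j.succ} ∪
      {verC n 2})) ((x 0 * x 1 * x 2 * x 3 * x 4 * x 3 * x 2) ^ 2) := by
    show Fi.lp (x6 n 2) [1, 2, 3, 4, 5, 4, 3, 1, 2, 3, 4, 5, 4, 3] = _
    simp only [Fi.lp_cons, Fi.lp_nil, pow_succ, pow_zero, one_mul, mul_one, mul_assoc, map_mul]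
    rfl
  rw [h2, ← map_pow]
  exact h

theorem phi_x6 {t k u l s : ℕ} (φ : GamC t k u l →* Equiv.Perm (CGroup.VN s))
    (hφ : ∀ i v, φ (PresentedGroup.of i) (CGroup.pi s v) = CGroup.pi s (CGroupC.C i v))
    (i : Fin 6) (hi : i ≠ 0) (v : V) :
    (φ.comp (nat t k u l)) (x6 u l i) (CGroup.pi s v) = CGroup.pi s (CGroupC.C i v) := by
  obtain ⟨j, rfl⟩ := Fin.exists_succ_eq.2 hi
  rw [x6_succ, MonoidHom.comp_apply]
  have h1 : nat t k u l (g5 u l j) = PresentedGroup.of j.succ := nat_of t k u l j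
  rw [h1, hφ]

/-- **P-type.** The vertex-figure group of the vector `(n,n,n,n)` embeds. -/
theorem embP (n : ℕ) (hn : 2 ≤ n) : ∃ f : EmbDefs.VerC n 4 →* GamC n 2 n 4,
    Function.Injective f ∧ ∀ i : Fin 5, f (PresentedGroup.of i) = PresentedGroup.of i.succ := by
  refine ⟨nat n 2 n 4, ?_, nat_of n 2 n 4⟩
  obtain ⟨φ, hφ⟩ := ExHom.actC2 n
  rw [injective_iff_map_eq_one]
  intro y hy
  refine EmbVC.vertP hn (cx6 n 4) (rel4 n) (φ.comp (nat n 2 n 4)) (fun i hi v => phi_x6 φ hφ i hi v)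
    y (mem6 n 4 y) ?_
  rw [MonoidHom.comp_apply, hy, map_one]

/-- **Q-type.** The vertex-figure group of the vector `(n,n,0,0)`, `n` odd, embeds. -/
theorem embQ (n : ℕ) (hn : 3 ≤ n) (hodd : Odd n) : ∃ f : EmbDefs.VerC n 2 →* GamC n 1 n 2,
    Function.Injective f ∧ ∀ i : Fin 5, f (PresentedGroup.of i) = PresentedGroup.of i.succ := by
  refine ⟨nat n 1 n 2, ?_, nat_of n 1 n 2⟩
  obtain ⟨φ, hφ⟩ := ExHom.actC1 n
  rw [injective_iff_map_eq_one]
  intro y hy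
  have hψ : ∀ i : Fin 6, i ≠ 0 →
      ((psi5 n 1 n 2 (Or.inl rfl)).comp (nat n 1 n 2)) (x6 n 2 i) = sg5 i := by
    intro i hi
    obtain ⟨j, rfl⟩ := Fin.exists_succ_eq.2 hi
    rw [x6_succ, MonoidHom.comp_apply]
    have h1 : nat n 1 n 2 (g5 n 2 j) = PresentedGroup.of j.succ := nat_of n 1 n 2 j
    rw [h1, psi5_of]
  refine EmbVC.vertQ hn hodd (cx6 n 2) (rel2 n) (φ.comp (nat n 1 n 2))
    (fun i hi v => phi_x6 φ hφ i hi v) ((psi5 n 1 n 2 (Or.inl rfl)).comp (nat n 1 n 2)) ?_ ?_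
    y (mem6 n 2 y) ?_ ?_
  · intro i h0 h5
    rw [hψ i h0]
    revert h0 h5
    revert i
    decide
  · rw [hψ 5 (by decide)]
    rfl
  · rw [MonoidHom.comp_apply, hy, map_one]
  · rw [MonoidHom.comp_apply, hy, map_one]

end Pool.Agent.Lib.MP_c2d01e_co.EmbVCf
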