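import Pool.Agent.Lib.MP_c2d01e_co.Ex.EmbVCN
import Pool.Agent.Lib.MP_c2d01e_co.Ex.EmbVCf
import Pool.Agent.Lib.MP_c2d01e_co.Ex.ActN

/-!
# The vertex-figure groups of family (C), Q-type, embed for all `n ≥ 3`

The action of `GamC n 1 n 2` on the lattice modulo `n N`, and the separation properties of this quotient.
-/

set_option autoImplicit false

namespace Pool.Agent.Lib.MP_c2d01e_co.EmbVCq

open Subgroup CGroup EqDefs Ex.ActN

theorem PX_rC (n : ℕ) (i : Fin 6) (v : V) :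
    ExHom.rC (PX n 0) (PX n 1) (PX n 2) (PX n 3) (PX n 4) (PX n 5) i (piN n v) =
      piN n (CGroupC.C i v) := by
  fin_cases i
  · exact PX_pi n 2 v
  · exact PX_pi n 3 v
  · exact PX_pi n 4 v
  · exact PX_pi n 5 v
  · show (PX n 1 * (PX n 2 * (PX n 3 * PX n 4 * PX n 3) * PX n 2) * PX n 1) (piN n v) =
      piN n (CGroupC.C 4 v)
    rw [CGroupC.C_four]
    simp only [Equiv.Perm.mul_apply, PX_pi]
  · exact PX_pi n 0 v

/-- The group with the vectors `(n,0,0,0)`, `(n,n,0,0)` acts on the lattice modulo `n N`. -/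
theorem actCN (n : ℕ) : ∃ φ : GamC n 1 n 2 →* Equiv.Perm (XN n),
    ∀ i v, φ (PresentedGroup.of i) (piN n v) = piN n (CGroupC.C i v) :=
  ⟨PresentedGroup.toGroup (ExHom.liftC1 (relX n) n (X_pow n)), fun i v => by
    rw [PresentedGroup.toGroup.of]
    exact PX_rC n i v⟩

/-- The separation. -/
theorem sepN (n : ℕ) (v w : V) (h : piN n v = piN n w) : EmbVCN.InN n (v - w) := by
  obtain ⟨u, hu, e⟩ := QuotientAddGroup.eq.1 h
  obtain ⟨⟨p, x, y, z⟩, a, b⟩ := u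
  obtain ⟨⟨p1, x1, y1, z1⟩, a1, b1⟩ := v
  obtain ⟨⟨p2, x2, y2, z2⟩, a2, b2⟩ := w
  simp only [inN, Bool.and_eq_true, beq_iff_eq] at hu
  obtain ⟨⟨⟨h1, h2⟩, h3⟩, h4⟩ := hu
  simp only [Prod.neg_mk, Prod.mk_add_mk, Prod.smul_mk, smul_eq_mul, Prod.mk.injEq] at e
  obtain ⟨⟨e1, e2, e3, e4⟩, e5, e6⟩ := e
  obtain ⟨j1, f1⟩ : (2 : ℤ) ∣ p := by omega
  obtain ⟨j2, f2⟩ : (2 : ℤ) ∣ x + y + z := by omega
  obtain ⟨j3, f3⟩ : (2 : ℤ) ∣ a := by omega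
  obtain ⟨j4, f4⟩ : (2 : ℤ) ∣ b := by omega
  refine ⟨⟨-j1, ?_⟩, ⟨-x, ?_⟩, ⟨-y, ?_⟩, ⟨-z, ?_⟩, ⟨-j2, ?_⟩, ⟨-j3, ?_⟩, ⟨-j4, ?_⟩⟩
  · show p1 - p2 = _
    rw [f1] at e1
    linarith
  · show x1 - x2 = _
    linarith
  · show y1 - y2 = _
    linarith
  · show z1 - z2 = _
    linarith
  · show x1 - x2 + (y1 - y2) + (z1 - z2) = _
    have : (n : ℤ) * (x + y + z) = n * (2 * j2) := by rw [f2]
    linarith
  · show a1 - a2 = _
    rw [f3] at e5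
    linarith
  · show b1 - b2 = _
    rw [f4] at e6
    linarith

theorem pi_of_piN (n : ℕ) (v w : V) (h : piN n v = piN n w) : pi n v = pi n w := by
  obtain ⟨d1, d2, d3, d4, -, d6, d7⟩ := sepN n v w h
  have hd : (n : ℤ) ∣ 2 * n := ⟨2, by ring⟩
  have e : ∀ a b : ℤ, (n : ℤ) ∣ a - b → ((a : ℤ) : ZMod n) = ((b : ℤ) : ZMod n) := by
    intro a b hab
    exact ((ZMod.intCast_eq_intCast_iff_dvd_sub b a n).2 hab).symm
  have g1 := e _ _ (hd.trans d1)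
  have g2 := e _ _ d2
  have g3 := e _ _ d3
  have g4 := e _ _ d4
  have g6 := e _ _ (hd.trans d6)
  have g7 := e _ _ (hd.trans d7)
  simp only [CGroup.pi, Prod.mk.injEq]
  exact ⟨⟨g1, g2, g3, g4⟩, g6, g7⟩

theorem nearN (n : ℕ) (hn : 3 ≤ n) (v w : V) (h : CGroupB.nearB v w = true) :
    piN n v ≠ piN n w :=
  fun he => CGroupB.nearB_pi n hn v w h (pi_of_piN n v w he)

/-- **Q-type, all `n ≥ 3`.** The vertex-figure group of the vector `(n,n,0,0)` embeds. -/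
theorem embQ' (n : ℕ) (hn : 3 ≤ n) : ∃ f : EmbDefs.VerC n 2 →* GamC n 1 n 2,
    Function.Injective f ∧ ∀ i : Fin 5, f (PresentedGroup.of i) = PresentedGroup.of i.succ := by
  refine ⟨EmbVCf.nat n 1 n 2, ?_, EmbVCf.nat_of n 1 n 2⟩
  obtain ⟨φ, hφ⟩ := actCN n
  rw [injective_iff_map_eq_one]
  intro y hy
  refine EmbVCN.vertN (by omega) (EmbVCf.cx6 n 2) (EmbVCf.rel2 n) (φ.comp (EmbVCf.nat n 1 n 2))
    (piN n) (fun i hi v => ?_) (nearN n hn) (sepN n) y (EmbVCf.mem6 n 2 y) ?_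
  · obtain ⟨j, rfl⟩ := Fin.exists_succ_eq.2 hi
    rw [EmbVCf.x6_succ, MonoidHom.comp_apply]
    have h1 : EmbVCf.nat n 1 n 2 (EmbVCf.g5 n 2 j) = PresentedGroup.of j.succ :=
      EmbVCf.nat_of n 1 n 2 j
    rw [h1, hφ]
  · rw [MonoidHom.comp_apply, hy, map_one]

end Pool.Agent.Lib.MP_c2d01e_co.EmbVCq
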