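import Pool.Agent.Lib.MP_c2d01e_co.Ex.CGB

/-!
# Faithfulness: the certificates of `CGB.lean` for groups with fewer generators

Let `S` be a set of indices and `r i`, `i ∈ S`, elements of a group `G` which satisfy the Coxeter relations of
type `{3,3,4,3,3}` with indices in `S`, and let `G` act on `X` so that `r i`, `i ∈ S`, acts on the image of the
lattice by the reflection `B i`. If `w` is a product of the `r i` with `i ∈ I`, where `I ⊆ S` does not contain
`{0,1,2,3,4}` or `{1,2,3,4,5}`, and `w` acts trivially on `X`, then `w = 1`.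
This is used for the groups of the facets and of the vertex-figures, which have five generators.
-/

set_option autoImplicit false

namespace Pool.Agent.Lib.MP_c2d01e_co.EmbW

open Subgroup EqDefs CGroupB

section sound

variable {G : Type*} [Group G] {r : Fin 6 → G} {S : Finset (Fin 6)}
  (hr : ∀ i ∈ S, ∀ j ∈ S, (r i * r j) ^ coxB i j = 1)
include hr

theorem sq {i : Fin 6} (hi : i ∈ S) : r i * r i = 1 := by simpa [coxB] using hr i hi i hi

theorem alt_smul {Y : Type*} [MulAction G Y] (g h : Fin 6) (hg : g ∈ S) (hh : h ∈ S)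
    (hne : g ≠ h) (c : Y) :
    (alt h g (coxB g h)).foldl (fun c a => r a • c) c = r g • c := by
  have ha := sq hr hg
  have hm := hr g hg h hh
  rcases coxB_cases g h hne with e | e | e <;> rw [e] at hm ⊢ <;>
    simp only [alt, List.foldl_cons, List.foldl_nil, smul_smul]
  · rw [alt_two ha hm]
  · rw [alt_three ha hm]
  · rw [alt_four ha hm]

/-- The table gives the action on the cosets. -/
theorem claim {L : List (V × Fin 6)} {a b i : Fin 6} (hS : ∀ g ∈ gens a b, g ∈ S)
    (hL : Ct L a b i) (K : Subgroup G)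
    (hK : ∀ g ∈ gens a b, g ≠ i → r g ∈ K) (N : ℕ) :
    ∀ k l : ℕ, k ≤ N → l ≤ N → k < L.length → ∀ g ∈ gens a b, T L k g = l →
      r g • cc r L K k = cc r L K l := by
  induction N using Nat.strong_induction_on with
  | _ N ih =>
    -- the edges from `N`
    have step : ∀ l : ℕ, l ≤ N → N < L.length → ∀ g ∈ gens a b, T L N g = l →
        r g • cc r L K N = cc r L K l := by
      intro l hl hN g hg hT
      by_cases hN0 : N = 0
      · subst hN0
        obtain rfl : l = 0 := by omega
        have hgi : g ≠ i := by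
          rintro rfl
          exact hL.base' hg hT
        rw [cc_zero]
        exact QuotientGroup.eq.2 (by simpa using K.inv_mem (hK g hg hgi))
      · have hp := hL.par_lt N hN hN0
        have hpm := hL.par_mem N hN hN0
        have hdef := cc_lt (r := r) (K := K) hp
        have hedge : r (par L N) • cc r L K N = cc r L K (T L N (par L N)) := by
          rw [hdef, smul_smul, sq hr (hS _ hpm), one_smul]
        by_cases hgp : g = par L N
        · subst hgp
          rw [← hT]
          exact hedge
        · have hw := hL.walk N hN hN0 g hg hgp (by omega)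
          -- soundness of the walk
          have ws : ∀ (w : List (Fin 6)) (cur l' : ℕ), (∀ x ∈ w, x ∈ gens a b) → cur < L.length →
              cur ≤ N → walk L N (par L N) w cur = some l' →
              w.foldl (fun c a => r a • c) (cc r L K cur) = cc r L K l' := by
            intro w
            induction w with
            | nil =>
              intro cur l' _ _ _ hw
              simp only [walk, Option.some.injEq] at hw
              rw [hw]
              rfl
            | cons x w ihw =>
              intro cur l' hx hcur hcurN hw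
              simp only [walk] at hw
              split_ifs at hw with hc
              rw [List.foldl_cons]
              have hxg := hx x List.mem_cons_self
              have hlt := hL.lt cur hcur x hxg
              have e : r x • cc r L K cur = cc r L K (T L cur x) := by
                rcases hc with ⟨h1, h2⟩ | ⟨h1, h2⟩ | ⟨h1, h2⟩
                · exact ih (max cur (T L cur x)) (by omega) cur _ (le_max_left _ _)
                    (le_max_right _ _) hcur x hxg rfl
                · rw [h1, h2]; exact hedge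
                · have h3 := hL.inv cur hcur x hxg
                  rw [h1, h2] at h3
                  rw [h1, h2, ← h3, ← hedge, smul_smul, sq hr (hS _ hpm), one_smul]
              rw [e]
              refine ihw _ l' (fun y hy => hx y (List.mem_cons_of_mem _ hy)) hlt ?_ hw
              rcases hc with ⟨h1, h2⟩ | ⟨h1, h2⟩ | ⟨h1, h2⟩
              · omega
              · rw [h1, h2]; exact hp.le
              · omega
          have hmem : ∀ m : ℕ, ∀ x ∈ alt (par L N) g m, x ∈ gens a b := by
            intro m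
            induction m using Nat.strong_induction_on with
            | _ m ihm =>
              match m with
              | 0 => intro x hx; simp [alt] at hx
              | 1 => intro x hx; simp only [alt, List.mem_singleton] at hx; rw [hx]; exact hpm
              | m + 2 =>
                intro x hx
                simp only [alt, List.mem_cons] at hx
                rcases hx with rfl | rfl | hx
                · exact hpm
                · exact hg
                · exact ihm (m + 1) (by omega) x hx
          have h5 := ws _ N _ (hmem _) hN le_rfl hw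
          rw [alt_smul hr g (par L N) (hS g hg) (hS _ hpm) hgp, hT] at h5
          exact h5
    intro k l hk hl hkL g hg hT
    by_cases hkN : k = N
    · subst hkN
      exact step l hl hkL g hg hT
    · by_cases hlN : l = N
      · have hlt := hL.lt k hkL g hg
        have hinv := hL.inv k hkL g hg
        rw [hT] at hlt hinv
        subst hlN
        rw [← step k hk hlt g hg hinv, smul_smul, sq hr (hS g hg), one_smul]
      · exact ih (max k l) (by omega) k l (le_max_left _ _) (le_max_right _ _) hkL g hg hT

theorem claim' {L : List (V × Fin 6)} {a b i : Fin 6} (hS : ∀ g ∈ gens a b, g ∈ S)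
    (hL : Ct L a b i) (K : Subgroup G)
    (hK : ∀ g ∈ gens a b, g ≠ i → r g ∈ K) (k : ℕ) (hk : k < L.length) (g : Fin 6)
    (hg : g ∈ gens a b) : r g • cc r L K k = cc r L K (T L k g) :=
  claim hr hS hL K hK (max k (T L k g)) k _ (le_max_left _ _) (le_max_right _ _) hk g hg rfl

theorem comm_r (g h : Fin 6) (hg : g ∈ S) (hh : h ∈ S)
    (hgh : (g : ℕ) + 1 < h ∨ (h : ℕ) + 1 < g) :
    r g * r h = r h * r g := by
  have e : coxB g h = 2 := by
    unfold coxB
    rw [if_neg (by rintro rfl; omega), if_neg (by rintro (⟨rfl, rfl⟩ | ⟨rfl, rfl⟩) <;> simp at hgh),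
      if_neg (by omega)]
  have h1 := alt_two (sq hr hg) (by rw [← e]; exact hr g hg h hh)
  calc r g * r h = (r h * (r g * r h)) * r h := by rw [h1]
    _ = r h * r g := by rw [mul_assoc, mul_assoc, sq hr hh, mul_one]

theorem claim_far {L : List (V × Fin 6)} {a b i : Fin 6} (hS : ∀ g ∈ gens a b, g ∈ S)
    (hL : Ct L a b i) (K : Subgroup G) (g : Fin 6) (hgS : g ∈ S) (hgK : r g ∈ K) (hg : (g : ℕ) + 1 < a ∨ (b : ℕ) + 1 < g) (k : ℕ)
    (hk : k < L.length) : r g • cc r L K k = cc r L K k := by
  induction k using Nat.strong_induction_on with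
  | _ k ih =>
    by_cases hk0 : k = 0
    · subst hk0
      rw [cc_zero]
      exact QuotientGroup.eq.2 (by simpa using K.inv_mem hgK)
    · have hp := hL.par_lt k hk hk0
      have hpm := hL.par_mem k hk hk0
      rw [cc_lt hp, smul_smul, comm_r hr g (par L k) hgS (hS _ hpm), ← smul_smul, ih _ hp (hp.trans hk)]
      simp only [gens, List.mem_filter, List.mem_finRange, true_and, decide_eq_true_eq] at hpm
      obtain ⟨h1, h2⟩ := hpm
      have h3 : (a : ℕ) ≤ (par L k : ℕ) := h1
      have h4 : (par L k : ℕ) ≤ (b : ℕ) := h2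
      omega

/-- The stabilizer of `fvB i` in a parabolic subgroup in which `i` has a finite component. -/
theorem stab {X : Type*} (φ : G →* Equiv.Perm X) (π : V → X)
    (hφ : ∀ i ∈ S, ∀ v, φ (r i) (π v) = π (B i v))
    (hπ : ∀ v w, nearB v w = true → π v ≠ π w) (J : Finset (Fin 6)) (hJS : J ⊆ S) (a b i : Fin 6)
    (hai : a ≤ i) (hib : i ≤ b) (hcert : cert a b i = true) (hJ1 : ∀ g, a ≤ g → g ≤ b → g ∈ J)
    (hJ2 : ∀ g ∈ J, (a ≤ g ∧ g ≤ b) ∨ (g : ℕ) + 1 < a ∨ (b : ℕ) + 1 < g) (w : G)
    (hw : w ∈ closure (r '' (J : Set (Fin 6)))) (hfix : φ w (π (fvB i)) = π (fvB i)) :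
    w ∈ closure (r '' ((J.erase i : Finset (Fin 6)) : Set (Fin 6))) := by
  set K := closure (r '' ((J.erase i : Finset (Fin 6)) : Set (Fin 6))) with hKdef
  have hL := ct_of_cert hcert
  set L := orb a b i with hLdef
  have hrK : ∀ g ∈ J, g ≠ i → r g ∈ K := fun g hg hgi =>
    subset_closure ⟨g, by simp [hg, hgi], rfl⟩
  have hgens : ∀ g : Fin 6, g ∈ gens a b ↔ a ≤ g ∧ g ≤ b := by
    intro g; simp [gens]
  have hK : ∀ g ∈ gens a b, g ≠ i → r g ∈ K := fun g hg hgi =>
    hrK g (hJ1 g ((hgens g).1 hg).1 ((hgens g).1 hg).2) hgi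
  have hS : ∀ g ∈ gens a b, g ∈ S := fun g hg =>
    hJS (hJ1 g ((hgens g).1 hg).1 ((hgens g).1 hg).2)
  have hinvr : ∀ g ∈ J, (r g)⁻¹ = r g := fun g hg => by
    rw [inv_eq_iff_mul_eq_one]; exact sq hr (hJS hg)
  have key : ∃ l < L.length, w • cc r L K 0 = cc r L K l ∧ φ w (π (vec L 0)) = π (vec L l) := by
    have stp : ∀ g ∈ J, ∀ y : G,
        (∃ l < L.length, y • cc r L K 0 = cc r L K l ∧ φ y (π (vec L 0)) = π (vec L l)) →
        ∃ l < L.length, (r g * y) • cc r L K 0 = cc r L K l ∧
          φ (r g * y) (π (vec L 0)) = π (vec L l) := by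
      rintro g hg y ⟨l, hl, h1, h2⟩
      rcases hJ2 g hg with h3 | h3
      · have hgg := (hgens g).2 h3
        refine ⟨T L l g, hL.lt l hl g hgg, ?_, ?_⟩
        · rw [mul_smul, h1, claim' hr hS hL K hK l hl g hgg]
        · rw [map_mul, Equiv.Perm.mul_apply, h2, hφ g (hJS hg)]
          congr 1
          have h4 : (L[T L l g]'(hL.lt l hl g hgg)).1 == B g (vec L l) :=
            List.findIdx_getElem (p := fun y : V × Fin 6 => y.1 == B g (vec L l))
              (w := hL.lt l hl g hgg)
          rw [beq_iff_eq] at h4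
          rw [← h4, vec, List.getD_eq_getElem _ _ (hL.lt l hl g hgg)]
      · refine ⟨l, hl, ?_, ?_⟩
        · have hgi : g ≠ i := by
            rintro rfl
            have h5 : (a : ℕ) ≤ (g : ℕ) := hai
            have h6 : (g : ℕ) ≤ (b : ℕ) := hib
            omega
          rw [mul_smul, h1, claim_far hr hS hL K g (hJS hg) (hrK g hg hgi) h3 l hl]
        · rw [map_mul, Equiv.Perm.mul_apply, h2, hφ g (hJS hg), hL.far l hl g h3]
    refine closure_induction_left (p := fun w _ => ∃ l < L.length, w • cc r L K 0 = cc r L K l ∧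
      φ w (π (vec L 0)) = π (vec L l)) ?_ ?_ ?_ hw
    · exact ⟨0, hL.pos, by rw [one_smul], by rw [map_one]; rfl⟩
    · rintro x ⟨g, hg, rfl⟩ y _ h
      exact stp g hg y h
    · rintro x ⟨g, hg, rfl⟩ y _ h
      rw [hinvr g hg]
      exact stp g hg y h
  obtain ⟨l, hl, h1, h2⟩ := key
  by_cases hl0 : l = 0
  · subst hl0
    rw [cc_zero] at h1
    have h3 : ((w : G) : G ⧸ K) = ((1 : G) : G ⧸ K) := by
      rw [← h1]
      change _ = ((w * 1 : G) : G ⧸ K)
      rw [mul_one]
    rw [QuotientGroup.eq, mul_one] at h3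
    exact (K.inv_mem_iff).1 h3
  · exfalso
    have h3 := hL.nearB l hl hl0
    rw [hL.zero, hfix] at h2
    exact hπ _ _ h3 h2.symm

omit hr in
/-- The components of a set of indices which does not contain `{1,2,3,4}`. -/
theorem comp_le : ∀ (I : Finset (Fin 6)), I.Nonempty → ¬({1, 2, 3, 4} ⊆ I) →
    ∃ i ∈ I, ∃ a b : Fin 6, a ≤ i ∧ i ≤ b ∧ ¬(a ≤ 1 ∧ 4 ≤ b) ∧ (∀ g, a ≤ g → g ≤ b → g ∈ I) ∧
      ∀ g ∈ I, (a ≤ g ∧ g ≤ b) ∨ (g : ℕ) + 1 < a ∨ (b : ℕ) + 1 < g := by
  intro I hI h
  obtain ⟨i, hi⟩ := hI
  obtain ⟨a, b, h1⟩ := component I i hi h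
  exact ⟨i, hi, a, b, h1⟩

theorem triv_aux {X : Type*} (φ : G →* Equiv.Perm X) (π : V → X)
    (hφ : ∀ i ∈ S, ∀ v, φ (r i) (π v) = π (B i v))
    (hπ : ∀ v w, nearB v w = true → π v ≠ π w) (w : G) (hw1 : φ w = 1) (n : ℕ) :
    ∀ I : Finset (Fin 6), I ⊆ S → I.card = n → ¬({1, 2, 3, 4} ⊆ I) →
      w ∈ closure (r '' (I : Set (Fin 6))) → w = 1 := by
  induction n with
  | zero =>
    intro I _ hI _ hw
    rw [Finset.card_eq_zero.1 hI] at hw
    simpa using hw
  | succ n ih =>
    intro I hIS hI hI2 hw
    obtain ⟨i, hi, a, b, h1, h2, h3, h4, h5⟩ := comp_le I (Finset.card_pos.1 (by omega)) hI2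
    have h6 := stab hr φ π hφ hπ I hIS a b i h1 h2 (all_cert a b i h1 h2 h3) h4 h5 w hw
      (by rw [hw1]; rfl)
    exact ih (I.erase i) ((Finset.erase_subset _ _).trans hIS)
      (by rw [Finset.card_erase_of_mem hi, hI]; omega)
      (fun h => hI2 (h.trans (Finset.erase_subset _ _))) h6

omit hr in
theorem cert_one : cert 1 4 1 = true := by decide +kernel

/-- Elements of the group generated by `r 1, r 2, r 3, r 4` are determined by their action. -/
theorem triv {X : Type*} (φ : G →* Equiv.Perm X) (π : V → X)
    (hφ : ∀ i ∈ S, ∀ v, φ (r i) (π v) = π (B i v))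
    (hπ : ∀ v w, nearB v w = true → π v ≠ π w) (hS : {1, 2, 3, 4} ⊆ S)
    (w : G) (hw : w ∈ closure (r '' ({1, 2, 3, 4} : Set (Fin 6)))) (hw1 : φ w = 1) : w = 1 := by
  have h6 := stab hr φ π hφ hπ {1, 2, 3, 4} hS 1 4 1 (by decide) (by decide) cert_one (by decide)
    (by decide) w (by simpa using hw) (by rw [hw1]; rfl)
  exact triv_aux hr φ π hφ hπ w hw1 _ _ ((Finset.erase_subset _ _).trans hS) rfl (by decide) h6

end sound

end Pool.Agent.Lib.MP_c2d01e_co.EmbW
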