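import Mathlib

/-!
# The intersection property from intervals

(McMullen-Schulte, Abstract Regular Polytopes, 2E16.) Let `r 0, …, r 5` be involutions, `r i` and `r j` commuting for
`|i - j| ≥ 2`, such that `⟨r a, …, r (b-1)⟩ ∩ ⟨r (a+1), …, r b⟩ = ⟨r (a+1), …, r (b-1)⟩` for all `a < b`. Then the
intersection property holds for all sets of generators.
-/

set_option autoImplicit false

namespace Pool.Agent.Lib.MP_c2d01e_co.Ex.Two90

open Subgroup

/-- The indices `a, …, b - 1`. -/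
def S (a b : ℕ) : Set (Fin 6) := {i | a ≤ (i : ℕ) ∧ (i : ℕ) < b}

theorem S_mono {a b c d : ℕ} (h1 : c ≤ a) (h2 : b ≤ d) : S a b ⊆ S c d :=
  fun _ hi => ⟨h1.trans hi.1, hi.2.trans_le h2⟩

section

variable {G : Type*} [Group G] (r : Fin 6 → G)

/-- The subgroup generated by the `r i`, `i ∈ I`. -/
abbrev H (I : Set (Fin 6)) : Subgroup G := closure (r '' I)

theorem H_mono {I J : Set (Fin 6)} (h : I ⊆ J) : H r I ≤ H r J := closure_mono (Set.image_mono h)

variable {r}
  (hend : ∀ a b : ℕ, a < b → b < 6 → ∀ x, x ∈ H r (S a b) → x ∈ H r (S (a + 1) (b + 1)) →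
    x ∈ H r (S (a + 1) b))
include hend

theorem lemA (a b d : ℕ) (hab : a < b) (hbd : b ≤ d) (x : G) (h1 : x ∈ H r (S a b))
    (h2 : x ∈ H r (S (a + 1) d)) : x ∈ H r (S (a + 1) b) := by
  induction d, hbd using Nat.le_induction with
  | base => exact h2
  | succ d hbd ih =>
    apply ih
    by_cases hd : d < 6
    · exact hend a d (by omega) hd x (H_mono r (S_mono le_rfl hbd) h1) h2
    · refine H_mono r ?_ h2
      intro i hi
      exact ⟨hi.1, by have := i.isLt; omega⟩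

theorem lemB (a b c d : ℕ) (hac : a ≤ c) (hcb : c ≤ b) (hbd : b ≤ d) (x : G)
    (h1 : x ∈ H r (S a b)) (h2 : x ∈ H r (S c d)) : x ∈ H r (S c b) := by
  obtain ⟨k, rfl⟩ := Nat.exists_eq_add_of_le hac
  have key : ∀ m ≤ k, x ∈ H r (S (a + m) b) := by
    intro m hm
    induction m with
    | zero => exact h1
    | succ m ih =>
      have h3 := ih (by omega)
      exact lemA hend (a + m) b d (by omega) hbd x h3
        (H_mono r (S_mono (by omega) le_rfl) h2)
  exact key k le_rfl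

omit hend in
theorem comm_H (hcomm : ∀ i j : Fin 6, (i : ℕ) + 1 < j → Commute (r i) (r j)) {I J : Set (Fin 6)}
    (hIJ : ∀ i ∈ I, ∀ j ∈ J, (i : ℕ) + 1 < j ∨ (j : ℕ) + 1 < i) {x y : G} (hx : x ∈ H r I)
    (hy : y ∈ H r J) : Commute x y := by
  have h1 : ∀ i ∈ I, ∀ y ∈ H r J, Commute (r i) y := by
    intro i hi y hy
    induction hy using closure_induction with
    | mem z hz =>
      obtain ⟨j, hj, rfl⟩ := hz
      rcases hIJ i hi j hj with h | h
      · exact hcomm i j h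
      · exact (hcomm j i h).symm
    | one => exact Commute.one_right _
    | mul z z' _ _ h1 h2 => exact h1.mul_right h2
    | inv z _ h1 => exact h1.inv_right
  induction hx using closure_induction with
  | mem z hz =>
    obtain ⟨i, hi, rfl⟩ := hz
    exact h1 i hi y hy
  | one => exact Commute.one_left _
  | mul z z' _ _ h1 h2 => exact h1.mul_left h2
  | inv z _ h1 => exact h1.inv_left

omit hend in
/-- Elements of `H (I ∪ J)` are products if `I` and `J` are far from each other. -/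
theorem split (hcomm : ∀ i j : Fin 6, (i : ℕ) + 1 < j → Commute (r i) (r j)) {I J : Set (Fin 6)}
    (hIJ : ∀ i ∈ I, ∀ j ∈ J, (i : ℕ) + 1 < j ∨ (j : ℕ) + 1 < i) {x : G} (hx : x ∈ H r (I ∪ J)) :
    ∃ u ∈ H r I, ∃ v ∈ H r J, x = u * v := by
  induction hx using closure_induction with
  | mem z hz =>
    obtain ⟨i, hi, rfl⟩ := hz
    rcases hi with hi | hi
    · exact ⟨r i, subset_closure ⟨i, hi, rfl⟩, 1, one_mem _, by rw [mul_one]⟩
    · exact ⟨1, one_mem _, r i, subset_closure ⟨i, hi, rfl⟩, by rw [one_mul]⟩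
  | one => exact ⟨1, one_mem _, 1, one_mem _, by rw [mul_one]⟩
  | mul z z' _ _ h1 h2 =>
    obtain ⟨u, hu, v, hv, rfl⟩ := h1
    obtain ⟨u', hu', v', hv', rfl⟩ := h2
    refine ⟨u * u', mul_mem hu hu', v * v', mul_mem hv hv', ?_⟩
    have h := (comm_H hcomm hIJ hu' hv).eq
    calc u * v * (u' * v') = u * (v * u') * v' := by group
      _ = u * (u' * v) * v' := by rw [h]
      _ = u * u' * (v * v') := by group
  | inv z _ h1 =>
    obtain ⟨u, hu, v, hv, rfl⟩ := h1
    refine ⟨u⁻¹, inv_mem hu, v⁻¹, inv_mem hv, ?_⟩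
    rw [mul_inv_rev]
    exact (comm_H hcomm hIJ (inv_mem hu) (inv_mem hv)).eq.symm

variable (hcomm : ∀ i j : Fin 6, (i : ℕ) + 1 < j → Commute (r i) (r j))
include hcomm

/-- Removing one index from an interval. -/
theorem lemC (a b : ℕ) (j : Fin 6) (haj : a ≤ j) (hjb : (j : ℕ) < b) (x : G)
    (h1 : x ∈ H r (S a b)) (h2 : x ∈ H r {i | i ≠ j}) : x ∈ H r (S a b \ {j}) := by
  have e : ({i | i ≠ j} : Set (Fin 6)) ⊆ S 0 j ∪ S (j + 1) 6 := by
    intro i hi
    have : (i : ℕ) ≠ j := fun e => hi (Fin.ext e)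
    have hi6 := i.isLt
    rcases Nat.lt_or_gt_of_ne this with h | h
    · exact Or.inl ⟨Nat.zero_le _, h⟩
    · exact Or.inr ⟨h, hi6⟩
  obtain ⟨p, hp, q, hq, rfl⟩ := split hcomm (by
    rintro i ⟨_, hi⟩ k ⟨hk, _⟩
    left
    omega) (H_mono r e h2)
  have hle1 : H r (S a b) ≤ H r (S a (max b 6)) := H_mono r (S_mono le_rfl (le_max_left _ _))
  have hp' : p ∈ H r (S a (max b 6)) := by
    have hq' : q ∈ H r (S a (max b 6)) := H_mono r (S_mono (by omega) (le_max_right _ _)) hq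
    have h3 := mul_mem (hle1 h1) (inv_mem hq')
    rwa [mul_inv_cancel_right] at h3
  have hp2 : p ∈ H r (S a j) := lemB hend 0 j a (max b 6) (Nat.zero_le _) haj (by omega) p hp hp'
  have hq1 : q ∈ H r (S a b) := by
    have h3 := mul_mem (inv_mem (H_mono r (S_mono le_rfl hjb.le) hp2)) h1
    rwa [inv_mul_cancel_left] at h3
  have hq2 : q ∈ H r (S (j + 1) b) := by
    by_cases hb : b ≤ 6
    · exact lemB hend a b (j + 1) 6 (by omega) (by omega) hb q hq1 hq
    · exact H_mono r (S_mono le_rfl (by omega)) hq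
  refine mul_mem (H_mono r ?_ hp2) (H_mono r ?_ hq2)
  · rintro i ⟨h3, h4⟩
    exact ⟨⟨h3, h4.trans hjb⟩, fun e => by rw [Set.mem_singleton_iff.1 e] at h4; omega⟩
  · rintro i ⟨h3, h4⟩
    exact ⟨⟨by omega, h4⟩, fun e => by rw [Set.mem_singleton_iff.1 e] at h3; omega⟩

omit hend hcomm in
theorem comp (I : Finset (Fin 6)) (j : Fin 6) (hj : j ∈ I) :
    ∃ a b : Fin 7, (a : ℕ) ≤ j ∧ (j : ℕ) < b ∧ (∀ i : Fin 6, (a : ℕ) ≤ i → (i : ℕ) < b → i ∈ I) ∧
      ∀ i ∈ I, ((a : ℕ) ≤ i ∧ (i : ℕ) < b) ∨ (i : ℕ) + 1 < a ∨ (b : ℕ) < i := by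
  revert hj
  revert I j
  decide +kernel

/-- Removing one index. -/
theorem lemD (I : Finset (Fin 6)) (j : Fin 6) (hj : j ∈ I) (x : G)
    (h1 : x ∈ H r (I : Set (Fin 6))) (h2 : x ∈ H r {i | i ≠ j}) :
    x ∈ H r ((I : Set (Fin 6)) \ {j}) := by
  obtain ⟨a, b, haj, hjb, hin, hout⟩ := comp I j hj
  have e : (I : Set (Fin 6)) ⊆ S a b ∪ ((I : Set (Fin 6)) \ S a b) := by
    intro i hi
    by_cases h : i ∈ S a b
    · exact Or.inl h
    · exact Or.inr ⟨hi, h⟩
  obtain ⟨u, hu, v, hv, rfl⟩ := split hcomm (by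
    rintro i ⟨hi1, hi2⟩ k ⟨hk, hk'⟩
    rcases hout k hk with h | h | h
    · exact absurd h hk'
    · right; omega
    · left; omega) (H_mono r e h1)
  have hv2 : v ∈ H r {i | i ≠ j} := by
    refine H_mono r ?_ hv
    rintro i ⟨_, hi⟩ e
    exact hi (e ▸ ⟨haj, hjb⟩)
  have hu2 : u ∈ H r {i | i ≠ j} := by
    have h3 := mul_mem h2 (inv_mem hv2)
    rwa [mul_inv_cancel_right] at h3
  have hu3 := lemC hend hcomm a b j haj hjb u hu hu2
  refine mul_mem (H_mono r ?_ hu3) (H_mono r ?_ hv)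
  · rintro i ⟨⟨h3, h4⟩, h5⟩
    exact ⟨hin i h3 h4, h5⟩
  · rintro i ⟨h3, h4⟩
    exact ⟨h3, fun e => h4 (Set.mem_singleton_iff.1 e ▸ ⟨haj, hjb⟩)⟩

theorem lemE (J : Set (Fin 6)) (x : G) (hJ : x ∈ H r J) (K : Finset (Fin 6)) :
    x ∈ H r (K : Set (Fin 6)) → x ∈ H r ((K : Set (Fin 6)) ∩ J) := by
  induction K using Finset.strongInduction with
  | _ K ih =>
    intro hx
    by_cases h : ∃ j ∈ K, j ∉ J
    · obtain ⟨j, hjK, hjJ⟩ := h
      have hsub : J ⊆ ({i | i ≠ j} : Set (Fin 6)) := by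
        intro i hi e
        rw [e] at hi
        exact hjJ hi
      have h3 := lemD hend hcomm K j hjK x hx (H_mono r hsub hJ)
      have h4 := ih (K.erase j) (Finset.erase_ssubset hjK) (by rw [Finset.coe_erase]; exact h3)
      have hsub2 : ((K.erase j : Finset (Fin 6)) : Set (Fin 6)) ∩ J ⊆ (K : Set (Fin 6)) ∩ J := by
        rintro i ⟨h5, h6⟩
        exact ⟨Finset.mem_of_mem_erase h5, h6⟩
      exact H_mono r hsub2 h4
    · have hsub : (K : Set (Fin 6)) ⊆ (K : Set (Fin 6)) ∩ J := by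
        intro i hi
        refine ⟨hi, ?_⟩
        by_contra hiJ
        exact h ⟨i, hi, hiJ⟩
      exact H_mono r hsub hx

/-- **The intersection property** for all sets of generators. -/
theorem inter_of_ends (I J : Set (Fin 6)) :
    closure (r '' I) ⊓ closure (r '' J) = closure (r '' (I ∩ J)) := by
  apply le_antisymm
  · rintro x ⟨hI, hJ⟩
    have h5 := lemE hend hcomm J x hJ I.toFinite.toFinset
      (by rw [Set.Finite.coe_toFinset]; exact hI)
    rw [Set.Finite.coe_toFinset] at h5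
    exact h5
  · exact le_inf (H_mono r Set.inter_subset_left) (H_mono r Set.inter_subset_right)

end

end Pool.Agent.Lib.MP_c2d01e_co.Ex.Two90
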