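import Pool.Agent.Lib.MP_c2d01e_co.Ex.Two26
import Pool.Agent.Lib.MP_c2d01e_co.Ex.Two90
import Pool.Agent.Lib.MP_c2d01e_co.Ex.CqCN4

/-!
# Family (C), vectors `(2,0,0,0)`, `(2,2,0,0)`: a string C-group

The criterion of `Two90` and the action modulo `2 N`.
-/

set_option autoImplicit false

namespace Pool.Agent.Lib.MP_c2d01e_co.Ends26

open Subgroup EqDefs CGroupC Ex.ActN

/-- The separation on the orbits of the left ends. -/
theorem sep : ∀ a b : Fin 6, a ≤ b → b ≤ 4 → (a ≠ 0 ∨ b ≠ 4) →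
    ∀ l ∈ List.range (orb a b a).length, l ≠ 0 →
      ¬ EmbVCN.InN 2 (vec (orb a b a) l - fvC a) := by decide +kernel

theorem fn_end : ∀ a b : Fin 6, a ≤ b → b ≤ 4 → (a ≠ 0 ∨ b ≠ 4) → fn a b a = true := by
  decide +kernel

theorem near2 : ∀ i : Fin 6, ¬ EmbVCN.InN 2 (C i (fvC i) - fvC i) := by decide +kernel

theorem hr2 : ∀ i ∈ (Finset.univ : Finset (Fin 6)), ∀ j ∈ (Finset.univ : Finset (Fin 6)),
    ((PresentedGroup.of i * PresentedGroup.of j : GamC 2 1 2 2)) ^ coxC i j = 1 :=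
  fun i _ j _ => ExHom.of_coxC 2 1 2 2 i j

/-- The end condition. -/
theorem hend (a b : ℕ) (hab : a < b) (hb : b < 6) (x : GamC 2 1 2 2)
    (h1 : x ∈ Ex.Two90.H (PresentedGroup.of : Fin 6 → GamC 2 1 2 2) (Ex.Two90.S a b))
    (h2 : x ∈ Ex.Two90.H (PresentedGroup.of : Fin 6 → GamC 2 1 2 2) (Ex.Two90.S (a + 1) (b + 1))) :
    x ∈ Ex.Two90.H (PresentedGroup.of : Fin 6 → GamC 2 1 2 2) (Ex.Two90.S (a + 1) b) := by
  obtain ⟨φ, hφ⟩ := EmbVCq.actCN 2
  by_cases h05 : a = 0 ∧ b = 5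
  · obtain ⟨rfl, rfl⟩ := h05
    have e1 : Ex.Two90.S 0 5 = ({0, 1, 2, 3, 4} : Set (Fin 6)) := by
      ext i
      fin_cases i <;> simp [Ex.Two90.S]
    have e2 : Ex.Two90.S (0 + 1) (5 + 1) = ({1, 2, 3, 4, 5} : Set (Fin 6)) := by
      ext i
      fin_cases i <;> simp [Ex.Two90.S]
    have e3 : Ex.Two90.S (0 + 1) 5 = ({1, 2, 3, 4} : Set (Fin 6)) := by
      ext i
      fin_cases i <;> simp [Ex.Two90.S]
    rw [e1] at h1
    rw [e2] at h2
    rw [e3]
    exact Ex.CqCN4.hinfCN (by norm_num) x h1 h2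
  · -- the interval from `a` to `b - 1`
    obtain ⟨c, rfl⟩ : ∃ c, b = c + 1 := ⟨b - 1, by omega⟩
    set A : Fin 6 := ⟨a, by omega⟩ with hA
    set B : Fin 6 := ⟨c, by omega⟩ with hB
    have hAB : A ≤ B := by
      show a ≤ c
      omega
    have hB4 : B ≤ 4 := by
      show c ≤ 4
      omega
    have hne : A ≠ 0 ∨ B ≠ 4 := by
      by_contra hcon
      push Not at hcon
      apply h05
      have e1 : a = 0 := congrArg Fin.val hcon.1
      have e2 : c = 4 := congrArg Fin.val hcon.2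
      omega
    have hJ : ((Finset.Icc A B : Finset (Fin 6)) : Set (Fin 6)) = Ex.Two90.S a (c + 1) := by
      ext i
      simp only [Finset.coe_Icc, Set.mem_Icc, Ex.Two90.S, Set.mem_ofPred_eq]
      constructor
      · rintro ⟨h3, h4⟩
        have h3' : a ≤ (i : ℕ) := h3
        have h4' : (i : ℕ) ≤ c := h4
        omega
      · rintro ⟨h3, h4⟩
        refine ⟨?_, ?_⟩
        · show a ≤ (i : ℕ)
          omega
        · show (i : ℕ) ≤ c
          omega
    have hJ2 : (((Finset.Icc A B).erase A : Finset (Fin 6)) : Set (Fin 6)) ⊆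
        Ex.Two90.S (a + 1) (c + 1) := by
      intro i hi
      rw [Finset.coe_erase, Set.mem_sdiff, Finset.mem_coe, Finset.mem_Icc] at hi
      obtain ⟨⟨h3, h4⟩, h5⟩ := hi
      have h3' : a ≤ (i : ℕ) := h3
      have h4' : (i : ℕ) ≤ c := h4
      have h5' : (i : ℕ) ≠ a := fun e => h5 (Set.mem_singleton_iff.2 (Fin.ext e))
      exact ⟨by omega, by omega⟩
    have hfix : φ x (piN 2 (fvC A)) = piN 2 (fvC A) := by
      have hle : x ∈ closure ((PresentedGroup.of : Fin 6 → GamC 2 1 2 2) ''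
          ((Finset.univ.erase A : Finset (Fin 6)) : Set (Fin 6))) := by
        refine closure_mono (Set.image_mono ?_) h2
        rintro i ⟨h3, _⟩
        rw [Finset.coe_erase, Set.mem_sdiff]
        refine ⟨by simp, fun e => ?_⟩
        have : (i : ℕ) = a := congrArg Fin.val (Set.mem_singleton_iff.1 e)
        omega
      exact ExC.fix_of_notMem hr2 φ (piN 2) (fun i _ v => hφ i v) (Finset.univ.erase A)
        (Finset.subset_univ _) A (Finset.notMem_erase _ _) x hle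
    have h3 := Two26.stab2 hr2 φ (piN 2) (fun i _ v => hφ i v) (Finset.Icc A B)
      (Finset.subset_univ _) A B A
      (fun l hl hl0 he => sep A B hAB hB4 hne l hl hl0 (EmbVCq.sepN 2 _ _ he)) le_rfl hAB
      (all_cert A B A le_rfl hAB (fn_end A B hAB hB4 hne))
      (fun g h3 h4 => Finset.mem_Icc.2 ⟨h3, h4⟩)
      (fun g hg => Or.inl (Finset.mem_Icc.1 hg)) x (by rw [hJ]; exact h1) hfix
    exact closure_mono (Set.image_mono hJ2) h3

theorem hcomm (i j : Fin 6) (hij : (i : ℕ) + 1 < j) :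
    Commute (PresentedGroup.of i : GamC 2 1 2 2) (PresentedGroup.of j) :=
  ExC.comm_r hr2 i j (Finset.mem_univ _) (Finset.mem_univ _) (Or.inl hij)

/-- **`(2,0,0,0)`, `(2,2,0,0)`**: a string C-group. -/
theorem sc2 : Function.Injective (PresentedGroup.of : Fin 6 → GamC 2 1 2 2) ∧
    (∀ i, (PresentedGroup.of i : GamC 2 1 2 2) ≠ 1) ∧
    ∀ I J : Set (Fin 6),
      closure ((PresentedGroup.of : Fin 6 → GamC 2 1 2 2) '' I) ⊓
        closure ((PresentedGroup.of : Fin 6 → GamC 2 1 2 2) '' J) =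
      (closure ((PresentedGroup.of : Fin 6 → GamC 2 1 2 2) '' (I ∩ J)) :
        Subgroup (GamC 2 1 2 2)) := by
  obtain ⟨φ, hφ⟩ := EmbVCq.actCN 2
  refine ⟨?_, ?_, Ex.Two90.inter_of_ends hend hcomm⟩
  · intro i j h
    by_contra hne
    have h1 := hφ i (fvC i)
    rw [h, hφ, fvC_fix i j (fun e => hne e.symm)] at h1
    exact near2 i (EmbVCq.sepN 2 _ _ h1.symm)
  · intro i h
    have h1 := hφ i (fvC i)
    rw [h, map_one] at h1
    exact near2 i (EmbVCq.sepN 2 _ _ h1.symm)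

/-- **Family (C), Q-type, all `n ≥ 2`**: string C-groups. -/
theorem scAll (n : ℕ) (hn : 2 ≤ n) : Function.Injective (PresentedGroup.of : Fin 6 → GamC n 1 n 2) ∧
    (∀ i, (PresentedGroup.of i : GamC n 1 n 2) ≠ 1) ∧
    ∀ I J : Set (Fin 6),
      closure ((PresentedGroup.of : Fin 6 → GamC n 1 n 2) '' I) ⊓
        closure ((PresentedGroup.of : Fin 6 → GamC n 1 n 2) '' J) =
      (closure ((PresentedGroup.of : Fin 6 → GamC n 1 n 2) '' (I ∩ J)) :
        Subgroup (GamC n 1 n 2)) := by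
  rcases Nat.lt_or_ge n 3 with h | h
  · have : n = 2 := by omega
    subst this
    exact sc2
  · exact Ex.CqCN4.cqC' n h

end Pool.Agent.Lib.MP_c2d01e_co.Ends26
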