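import Mathlib

/-!
# The intersection property from the end conditions (helper6)

`r 0, r 1, …` elements of a group, `r i` and `r j` commute if `|i - j| ≥ 2`. If for all `a < b < n`
the subgroups of the intervals `a, …, b - 1` and `a + 1, …, b` meet in the subgroup of
`a + 1, …, b - 1`, then the subgroups of all subsets of `0, …, n - 1` have the intersection
property (McMullen and Schulte, Abstract Regular Polytopes, 2E16).
-/

set_option autoImplicit false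

namespace Pool.Agent.Lib.MP_c2d01e_co.Ex.Ends6

variable {G : Type*} [Group G] (r : ℕ → G)

/-- The subgroup of a set of indices. -/
def H (S : Set ℕ) : Subgroup G := Subgroup.closure (r '' S)

theorem H_mono {S T : Set ℕ} (h : S ⊆ T) : H r S ≤ H r T :=
  Subgroup.closure_mono (Set.image_mono h)

theorem H_empty : H r ∅ = ⊥ := by simp [H]

variable (hc : ∀ i j : ℕ, i + 1 < j → r i * r j = r j * r i)
include hc

theorem comm {A B : Set ℕ} (k : ℕ) (hA : ∀ i ∈ A, i < k) (hB : ∀ i ∈ B, k < i) {u v : G}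
    (hu : u ∈ H r A) (hv : v ∈ H r B) : u * v = v * u := by
  have h1 : ∀ v ∈ H r B, ∀ i ∈ A, r i * v = v * r i := by
    intro v hv i hi
    refine Subgroup.closure_induction (p := fun v _ => r i * v = v * r i) ?_ ?_ ?_ ?_ hv
    · rintro y ⟨j, hj, rfl⟩
      have := hA i hi
      have := hB j hj
      exact hc i j (by omega)
    · rw [mul_one, one_mul]
    · intro x y _ _ hx hy
      rw [← mul_assoc, hx, mul_assoc, hy, mul_assoc]
    · intro x _ hx
      rw [mul_inv_eq_iff_eq_mul, mul_assoc, hx, inv_mul_cancel_left]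
  refine Subgroup.closure_induction (p := fun u _ => u * v = v * u) ?_ ?_ ?_ ?_ hu
  · rintro y ⟨i, hi, rfl⟩
    exact h1 v hv i hi
  · rw [mul_one, one_mul]
  · intro x y _ _ hx hy
    rw [mul_assoc, hy, ← mul_assoc, hx, mul_assoc]
  · intro x _ hx
    rw [inv_mul_eq_iff_eq_mul, ← mul_assoc, hx, mul_inv_cancel_right]

theorem dec {I : Set ℕ} {k : ℕ} (hk : k ∉ I) {x : G} (hx : x ∈ H r I) :
    ∃ u ∈ H r (I ∩ {i | i < k}), ∃ v ∈ H r (I ∩ {i | k < i}), x = u * v := by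
  refine Subgroup.closure_induction (p := fun x _ => ∃ u ∈ H r (I ∩ {i | i < k}),
    ∃ v ∈ H r (I ∩ {i | k < i}), x = u * v) ?_ ?_ ?_ ?_ hx
  · rintro y ⟨i, hi, rfl⟩
    rcases lt_trichotomy i k with h | h | h
    · exact ⟨r i, Subgroup.subset_closure ⟨i, ⟨hi, h⟩, rfl⟩, 1, one_mem _, by rw [mul_one]⟩
    · exact absurd (h ▸ hi) hk
    · exact ⟨1, one_mem _, r i, Subgroup.subset_closure ⟨i, ⟨hi, h⟩, rfl⟩, by rw [one_mul]⟩
  · exact ⟨1, one_mem _, 1, one_mem _, by rw [mul_one]⟩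
  · rintro x y _ _ ⟨u, hu, v, hv, rfl⟩ ⟨u', hu', v', hv', rfl⟩
    refine ⟨u * u', mul_mem hu hu', v * v', mul_mem hv hv', ?_⟩
    have := comm r hc k (fun i hi => hi.2) (fun i hi => hi.2) hu' hv
    rw [mul_assoc, ← mul_assoc v, ← this]
    simp only [mul_assoc]
  · rintro x _ ⟨u, hu, v, hv, rfl⟩
    refine ⟨u⁻¹, inv_mem hu, v⁻¹, inv_mem hv, ?_⟩
    rw [mul_inv_rev]
    exact (comm r hc k (fun i hi => hi.2) (fun i hi => hi.2) (inv_mem hu) (inv_mem hv)).symm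

/-- One step of the induction. -/
theorem step {a b : ℕ}
    (he : ∀ x, x ∈ H r (Set.Ico a (b - 1)) → x ∈ H r (Set.Ico (a + 1) b) →
      x ∈ H r (Set.Ico (a + 1) (b - 1)))
    (ih : ∀ a' b', a ≤ a' → b' ≤ b → b' - a' < b - a → ∀ I J : Set ℕ, I ⊆ Set.Ico a' b' →
      J ⊆ Set.Ico a' b' → ∀ x, x ∈ H r I → x ∈ H r J → x ∈ H r (I ∩ J))
    {I J : Set ℕ} (hI : I ⊆ Set.Ico a b) (hJ : J ⊆ Set.Ico a b) {k l : ℕ} (hk : k ∉ I)
    (hl : l ∉ J) (hak : a ≤ k) (hkl : k ≤ l) (hlb : l < b) (x : G) (hx : x ∈ H r I)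
    (hx' : x ∈ H r J) : x ∈ H r (I ∩ J) := by
  obtain ⟨u, hu, v, hv, e⟩ := dec r hc hk hx
  obtain ⟨u', hu', v', hv', e'⟩ := dec r hc hl hx'
  -- `y = u'⁻¹ u = v' v⁻¹`
  have ey : u'⁻¹ * u = v' * v⁻¹ := by
    rw [inv_mul_eq_iff_eq_mul, ← mul_assoc, eq_mul_inv_iff_mul_eq, ← e, e']
  have y1 : u'⁻¹ * u ∈ H r (Set.Ico a l) := by
    refine mul_mem (inv_mem (H_mono r ?_ hu')) (H_mono r ?_ hu)
    · rintro i ⟨hi, hi'⟩
      exact ⟨(hJ hi).1, hi'⟩
    · rintro i ⟨hi, hi'⟩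
      exact ⟨(hI hi).1, lt_of_lt_of_le hi' hkl⟩
  have y2 : u'⁻¹ * u ∈ H r (Set.Ico (k + 1) b) := by
    rw [ey]
    refine mul_mem (H_mono r ?_ hv') (inv_mem (H_mono r ?_ hv))
    · rintro i ⟨hi, hi'⟩
      have h' : l < i := hi'
      exact ⟨by omega, (hJ hi).2⟩
    · rintro i ⟨hi, hi'⟩
      have h' : k < i := hi'
      exact ⟨by omega, (hI hi).2⟩
  have y3 : u'⁻¹ * u ∈ H r (Set.Ico (a + 1) (b - 1)) := by
    refine he _ (H_mono r ?_ y1) (H_mono r ?_ y2)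
    · exact Set.Ico_subset_Ico le_rfl (by omega)
    · exact Set.Ico_subset_Ico (by omega) le_rfl
  have y4 : u'⁻¹ * u ∈ H r (Set.Ico (a + 1) l) := by
    have h := ih a (b - 1) le_rfl (by omega) (by omega) (Set.Ico a l)
      (Set.Ico (a + 1) (b - 1)) (Set.Ico_subset_Ico le_rfl (by omega))
      (Set.Ico_subset_Ico (by omega) le_rfl) _ y1 y3
    refine H_mono r ?_ h
    rintro i ⟨h1, h2⟩
    exact ⟨h2.1, h1.2⟩
  have y5 : u'⁻¹ * u ∈ H r (Set.Ico (k + 1) l) := by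
    have h := ih (a + 1) b (by omega) le_rfl (by omega) (Set.Ico (a + 1) l)
      (Set.Ico (k + 1) b) (Set.Ico_subset_Ico le_rfl (by omega))
      (Set.Ico_subset_Ico (by omega) le_rfl) _ y4 y2
    refine H_mono r ?_ h
    rintro i ⟨h1, h2⟩
    exact ⟨h2.1, h1.2⟩
  -- `u' = u y⁻¹`
  have hu1 : u' ∈ H r ((I ∩ {i | i < k}) ∪ Set.Ico (k + 1) l) := by
    have h : u' = u * (u'⁻¹ * u)⁻¹ := by group
    rw [h]
    exact mul_mem (H_mono r Set.subset_union_left hu)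
      (inv_mem (H_mono r Set.subset_union_right y5))
  have sub1 : (I ∩ {i | i < k}) ∪ Set.Ico (k + 1) l ⊆ Set.Ico a l := by
    rintro i (⟨hi, hi'⟩ | hi)
    · exact ⟨(hI hi).1, lt_of_lt_of_le hi' hkl⟩
    · exact ⟨by have := hi.1; omega, hi.2⟩
  have hu2 := ih a l le_rfl (by omega) (by omega) _ (J ∩ {i | i < l}) sub1
    (fun i hi => ⟨(hJ hi.1).1, hi.2⟩) _ hu1 hu'
  have hk2 : k ∉ ((I ∩ {i | i < k}) ∪ Set.Ico (k + 1) l) ∩ (J ∩ {i | i < l}) := by
    rintro ⟨⟨hi, _⟩ | hi, _⟩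
    · exact hk hi
    · have := hi.1
      omega
  obtain ⟨u1, hu1', y', hy', e2⟩ := dec r hc hk2 hu2
  have hu1a : u1 ∈ H r ((I ∩ J) ∩ {i | i < k}) := by
    refine H_mono r ?_ hu1'
    rintro i ⟨⟨⟨hi, _⟩ | hi, h1, _⟩, h2⟩
    · exact ⟨⟨hi, h1⟩, h2⟩
    · have := hi.1
      have h2' : i < k := h2
      omega
  have hy1 : y' ∈ H r (J ∩ Set.Ico (k + 1) l) := by
    refine H_mono r ?_ hy'
    rintro i ⟨⟨⟨_, hi⟩ | hi, h1, _⟩, h2⟩
    · have hi' : i < k := hi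
      have h2' : k < i := h2
      omega
    · exact ⟨h1, hi⟩
  -- `z = u1⁻¹ u = y' y`
  have ez : u1⁻¹ * u = y' * (u'⁻¹ * u) := by
    rw [e2]
    group
  have z1 : u1⁻¹ * u ∈ H r (Set.Ico a k) := by
    refine mul_mem (inv_mem (H_mono r ?_ hu1a)) (H_mono r ?_ hu)
    · rintro i ⟨hi, hi'⟩
      exact ⟨(hI hi.1).1, hi'⟩
    · rintro i ⟨hi, hi'⟩
      exact ⟨(hI hi).1, hi'⟩
  have z2 : u1⁻¹ * u ∈ H r (Set.Ico (k + 1) l) := by
    rw [ez]
    exact mul_mem (H_mono r Set.inter_subset_right hy1) y5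
  have z3 : u1⁻¹ * u = 1 := by
    have h := ih a l le_rfl (by omega) (by omega) (Set.Ico a k) (Set.Ico (k + 1) l)
      (Set.Ico_subset_Ico le_rfl hkl) (Set.Ico_subset_Ico (by omega) le_rfl) _ z1 z2
    have hem : Set.Ico a k ∩ Set.Ico (k + 1) l = ∅ := by
      ext i
      simp only [Set.mem_inter_iff, Set.mem_Ico, Set.mem_empty_iff_false, iff_false]
      omega
    rw [hem, H_empty, Subgroup.mem_bot] at h
    exact h
  have eu : u = u1 := (inv_mul_eq_one.1 z3).symm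
  have ey2 : u'⁻¹ * u = y'⁻¹ := by
    rw [z3] at ez
    exact eq_inv_of_mul_eq_one_right ez.symm
  have hyJ : u'⁻¹ * u ∈ H r (J ∩ {i | k < i}) := by
    rw [ey2]
    refine inv_mem (H_mono r ?_ hy1)
    rintro i ⟨hi, hi'⟩
    exact ⟨hi, by have := hi'.1; show k < i; omega⟩
  have hvJ : v ∈ H r (J ∩ {i | k < i}) := by
    have h : v = (u'⁻¹ * u)⁻¹ * v' := by
      rw [ey]
      group
    rw [h]
    refine mul_mem (inv_mem hyJ) (H_mono r ?_ hv')
    rintro i ⟨hi, hi'⟩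
    exact ⟨hi, lt_of_le_of_lt hkl hi'⟩
  have hv2 := ih (k + 1) b (by omega) le_rfl (by omega) (I ∩ {i | k < i}) (J ∩ {i | k < i})
    (by
      rintro i ⟨hi, hi'⟩
      have h' : k < i := hi'
      exact ⟨by omega, (hI hi).2⟩)
    (by
      rintro i ⟨hi, hi'⟩
      have h' : k < i := hi'
      exact ⟨by omega, (hJ hi).2⟩) v hv hvJ
  rw [e]
  refine mul_mem (H_mono r ?_ (eu ▸ hu1a)) (H_mono r ?_ hv2)
  · rintro i ⟨hi, _⟩
    exact hi
  · rintro i ⟨hi, hi'⟩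
    exact ⟨hi.1, hi'.1⟩

/-- The intersection property for subsets of an interval. -/
theorem main {n : ℕ}
    (he : ∀ a b, a < b → b < n → ∀ x, x ∈ H r (Set.Ico a b) → x ∈ H r (Set.Ico (a + 1) (b + 1)) →
      x ∈ H r (Set.Ico (a + 1) b)) (d : ℕ) :
    ∀ a b, b ≤ n → b - a = d → ∀ I J : Set ℕ, I ⊆ Set.Ico a b → J ⊆ Set.Ico a b →
      ∀ x, x ∈ H r I → x ∈ H r J → x ∈ H r (I ∩ J) := by
  induction d using Nat.strong_induction_on with
  | _ d ihd =>
    intro a b hb hd I J hI hJ x hx hx'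
    by_cases hIa : Set.Ico a b ⊆ I
    · rw [Set.inter_eq_right.2 (hJ.trans hIa)]
      exact hx'
    by_cases hJa : Set.Ico a b ⊆ J
    · rw [Set.inter_eq_left.2 (hI.trans hJa)]
      exact hx
    obtain ⟨k, hk1, hk2⟩ := Set.not_subset.1 hIa
    obtain ⟨l, hl1, hl2⟩ := Set.not_subset.1 hJa
    have hab : a < b := lt_of_le_of_lt hk1.1 hk1.2
    have ih : ∀ a' b', a ≤ a' → b' ≤ b → b' - a' < b - a → ∀ I J : Set ℕ,
        I ⊆ Set.Ico a' b' → J ⊆ Set.Ico a' b' → ∀ x, x ∈ H r I → x ∈ H r J →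
          x ∈ H r (I ∩ J) := fun a' b' _ h2 h3 =>
      ihd (b' - a') (by omega) a' b' (by omega) rfl
    have he' : ∀ x, x ∈ H r (Set.Ico a (b - 1)) → x ∈ H r (Set.Ico (a + 1) b) →
        x ∈ H r (Set.Ico (a + 1) (b - 1)) := by
      intro x h1 h2
      rcases Nat.lt_or_ge (a + 1) b with h | h
      · have h3 := he a (b - 1) (by omega) (by omega) x h1
        rw [Nat.sub_add_cancel (by omega)] at h3
        exact h3 h2
      · have h3 : Set.Ico (a + 1) b = ∅ := Set.Ico_eq_empty (by omega)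
        rw [h3, H_empty, Subgroup.mem_bot] at h2
        rw [h2]
        exact one_mem _
    rcases Nat.le_total k l with hkl | hkl
    · exact step r hc he' ih hI hJ hk2 hl2 hk1.1 hkl hl1.2 x hx hx'
    · rw [Set.inter_comm]
      exact step r hc he' ih hJ hI hl2 hk2 hl1.1 hkl hk1.2 x hx' hx

omit hc in
/-- The extension of a family with six members by `1`. -/
def ext (q : Fin 6 → G) (i : ℕ) : G := if h : i < 6 then q ⟨i, h⟩ else 1

omit hc in
theorem ext_val (q : Fin 6 → G) (i : Fin 6) : ext q (i : ℕ) = q i := by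
  rw [ext, dif_pos i.2]

omit hc in
theorem H_ext (q : Fin 6 → G) (I : Set (Fin 6)) :
    H (ext q) (Fin.val '' I) = Subgroup.closure (q '' I) := by
  rw [H, Set.image_image]
  simp only [ext_val]

omit hc in
/-- Six generators: the intersection property from the end conditions. -/
theorem inter6 (q : Fin 6 → G) (hq : ∀ i j : Fin 6, (i : ℕ) + 1 < j → q i * q j = q j * q i)
    (he : ∀ a b : Fin 6, a < b → ∀ x, x ∈ Subgroup.closure (q '' {i | a ≤ i ∧ i < b}) →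
      x ∈ Subgroup.closure (q '' {i | a < i ∧ i ≤ b}) →
      x ∈ Subgroup.closure (q '' {i | a < i ∧ i < b}))
    (I J : Set (Fin 6)) :
    Subgroup.closure (q '' I) ⊓ Subgroup.closure (q '' J) =
      Subgroup.closure (q '' (I ∩ J)) := by
  apply le_antisymm
  · rintro x ⟨hx, hx'⟩
    have hx1 : x ∈ Subgroup.closure (q '' I) := hx
    have hx2 : x ∈ Subgroup.closure (q '' J) := hx'
    rw [← H_ext] at hx1 hx2
    have hc' : ∀ i j : ℕ, i + 1 < j → ext q i * ext q j = ext q j * ext q i := by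
      intro i j hij
      by_cases hj : j < 6
      · have h := hq ⟨i, by omega⟩ ⟨j, hj⟩ hij
        rw [ext, ext, dif_pos (by omega), dif_pos hj]
        exact h
      · rw [ext, ext, dif_neg hj, mul_one, one_mul]
    have he' : ∀ a b, a < b → b < 6 → ∀ x, x ∈ H (ext q) (Set.Ico a b) →
        x ∈ H (ext q) (Set.Ico (a + 1) (b + 1)) → x ∈ H (ext q) (Set.Ico (a + 1) b) := by
      intro a b hab hb x h1 h2
      have i1 : Set.Ico a b = Fin.val '' {i : Fin 6 | (⟨a, by omega⟩ : Fin 6) ≤ i ∧ i < ⟨b, hb⟩} := by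
        ext i
        constructor
        · rintro ⟨g1, g2⟩
          exact ⟨⟨i, by omega⟩, ⟨g1, g2⟩, rfl⟩
        · rintro ⟨k, ⟨g1, g2⟩, rfl⟩
          exact ⟨g1, g2⟩
      have i2 : Set.Ico (a + 1) (b + 1) =
          Fin.val '' {i : Fin 6 | (⟨a, by omega⟩ : Fin 6) < i ∧ i ≤ ⟨b, hb⟩} := by
        ext i
        constructor
        · rintro ⟨g1, g2⟩
          exact ⟨⟨i, by omega⟩, ⟨g1, Nat.lt_succ_iff.1 g2⟩, rfl⟩
        · rintro ⟨k, ⟨g1, g2⟩, rfl⟩
          exact ⟨g1, Nat.lt_succ_iff.2 g2⟩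
      have i3 : Set.Ico (a + 1) b =
          Fin.val '' {i : Fin 6 | (⟨a, by omega⟩ : Fin 6) < i ∧ i < ⟨b, hb⟩} := by
        ext i
        constructor
        · rintro ⟨g1, g2⟩
          exact ⟨⟨i, by omega⟩, ⟨g1, g2⟩, rfl⟩
        · rintro ⟨k, ⟨g1, g2⟩, rfl⟩
          exact ⟨g1, g2⟩
      rw [i1, H_ext] at h1
      rw [i2, H_ext] at h2
      rw [i3, H_ext]
      exact he _ _ hab x h1 h2
    have h := main (ext q) hc' he' 6 0 6 le_rfl rfl (Fin.val '' I) (Fin.val '' J)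
      (by rintro i ⟨k, _, rfl⟩; exact ⟨Nat.zero_le _, k.2⟩)
      (by rintro i ⟨k, _, rfl⟩; exact ⟨Nat.zero_le _, k.2⟩) x hx1 hx2
    rw [← Set.image_inter Fin.val_injective, H_ext] at h
    exact h
  · exact le_inf (Subgroup.closure_mono (Set.image_mono Set.inter_subset_left))
      (Subgroup.closure_mono (Set.image_mono Set.inter_subset_right))

end Pool.Agent.Lib.MP_c2d01e_co.Ex.Ends6
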