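import Pool.Agent.Lib.MP_c2d01e_co.Ex.InfP
import Pool.Agent.Lib.MP_c2d01e_co.Ex.TrC2
import Pool.Agent.Lib.MP_c2d01e_co.Ex.CGC

/-!
# The two infinite parabolic subgroups of `{3,4,3,3,4}` (STEP 3C, helper4)

The generators `x 0, …, x 5` act on the lattice modulo `s` by the reflections `C 0, …, C 5`. The translations of
the cubic tessellation act by `TC`. An element of `⟨x 0, …, x 4⟩ ∩ ⟨x 1, …, x 5⟩` is a product of powers of the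
translations and of an element of `⟨x 1, …, x 4⟩`; the product of the powers fixes `((0,0,0,0),1,0)`.
-/

set_option autoImplicit false

namespace Pool.Agent.Lib.MP_c2d01e_co.Ex

open Subgroup CGroup CGroupC TrC Fi EqDefs

/-- The translations of the cubic tessellation. -/
def TC (t0 t1 t2 t3 : ℤ) : V → V
  | ((p, x, y, z), a, b) =>
    ((p + 2 * (t1 * (p + 2 * x) + t2 * (p + 2 * y) + t3 * (p + 2 * z) + t0 * (a + b) -
          (t0 ^ 2 + t1 ^ 2 + t2 ^ 2 + t3 ^ 2) * (p + a - b)),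
      x - (t1 * (p + 2 * x) + t2 * (p + 2 * y) + t3 * (p + 2 * z) + t0 * (a + b) -
          (t0 ^ 2 + t1 ^ 2 + t2 ^ 2 + t3 ^ 2) * (p + a - b)) - t1 * (p + a - b),
      y - (t1 * (p + 2 * x) + t2 * (p + 2 * y) + t3 * (p + 2 * z) + t0 * (a + b) -
          (t0 ^ 2 + t1 ^ 2 + t2 ^ 2 + t3 ^ 2) * (p + a - b)) - t2 * (p + a - b),
      z - (t1 * (p + 2 * x) + t2 * (p + 2 * y) + t3 * (p + 2 * z) + t0 * (a + b) -
          (t0 ^ 2 + t1 ^ 2 + t2 ^ 2 + t3 ^ 2) * (p + a - b)) - t3 * (p + a - b)),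
      a - (t1 * (p + 2 * x) + t2 * (p + 2 * y) + t3 * (p + 2 * z) + t0 * (a + b) -
          (t0 ^ 2 + t1 ^ 2 + t2 ^ 2 + t3 ^ 2) * (p + a - b)) - t0 * (p + a - b),
      b + (t1 * (p + 2 * x) + t2 * (p + 2 * y) + t3 * (p + 2 * z) + t0 * (a + b) -
          (t0 ^ 2 + t1 ^ 2 + t2 ^ 2 + t3 ^ 2) * (p + a - b)) - t0 * (p + a - b))

theorem TC_TC (t0 t1 t2 t3 u0 u1 u2 u3 : ℤ) (v : V) :
    TC t0 t1 t2 t3 (TC u0 u1 u2 u3 v) = TC (t0 + u0) (t1 + u1) (t2 + u2) (t3 + u3) v := by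
  obtain ⟨⟨p, x, y, z⟩, a, b⟩ := v
  simp only [TC, Prod.mk.injEq]
  refine ⟨⟨?_, ?_, ?_, ?_⟩, ?_, ?_⟩ <;> ring

theorem TC_zero (v : V) : TC 0 0 0 0 v = v := by
  obtain ⟨⟨p, x, y, z⟩, a, b⟩ := v
  simp only [TC, Prod.mk.injEq]
  refine ⟨⟨?_, ?_, ?_, ?_⟩, ?_, ?_⟩ <;> ring

/-- The word `[1, 2, 3, 4, 5, 4, 3, 2]`. -/
theorem word_T (v : V) :
    C 1 (C 2 (C 3 (C 4 (C 5 (C 4 (C 3 (C 2 v))))))) = TC 0 0 0 (-1) v := by
  obtain ⟨⟨p, x, y, z⟩, a, b⟩ := v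
  simp only [C, R, TC, Prod.mk.injEq]
  refine ⟨⟨?_, ?_, ?_, ?_⟩, ?_, ?_⟩ <;> ring

theorem conj2 (v : V) : C 2 (TC 0 0 0 (-1) (C 2 v)) = TC 0 0 (-1) 0 v := by
  obtain ⟨⟨p, x, y, z⟩, a, b⟩ := v
  simp only [C, R, TC, Prod.mk.injEq]
  refine ⟨⟨?_, ?_, ?_, ?_⟩, ?_, ?_⟩ <;> ring

theorem conj3 (v : V) : C 3 (TC 0 0 (-1) 0 (C 3 v)) = TC 0 (-1) 0 0 v := by
  obtain ⟨⟨p, x, y, z⟩, a, b⟩ := v
  simp only [C, R, TC, Prod.mk.injEq]
  refine ⟨⟨?_, ?_, ?_, ?_⟩, ?_, ?_⟩ <;> ring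

theorem conj4 (v : V) : C 4 (TC 0 (-1) 0 0 (C 4 v)) = TC (-1) 0 0 0 v := by
  obtain ⟨⟨p, x, y, z⟩, a, b⟩ := v
  simp only [C, R, TC, Prod.mk.injEq]
  refine ⟨⟨?_, ?_, ?_, ?_⟩, ?_, ?_⟩ <;> ring

section

variable {G : Type} [Group G] {x : Fin 6 → G}

theorem zpow_TC {s : ℕ} (φ : G →* Equiv.Perm (VN s)) {t : G} {u0 u1 u2 u3 : ℤ}
    (ht : ∀ v, φ t (pi s v) = pi s (TC u0 u1 u2 u3 v)) (a : ℤ) :
    ∀ v, φ (t ^ a) (pi s v) = pi s (TC (a * u0) (a * u1) (a * u2) (a * u3) v) := by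
  have hinv : ∀ v, φ t⁻¹ (pi s v) = pi s (TC (-u0) (-u1) (-u2) (-u3) v) := by
    intro v
    rw [map_inv, Equiv.Perm.inv_eq_iff_eq, ht, TC_TC, add_neg_cancel, add_neg_cancel,
      add_neg_cancel, add_neg_cancel, TC_zero]
  induction a using Int.induction_on with
  | zero =>
    intro v
    rw [zpow_zero, map_one, zero_mul, zero_mul, zero_mul, zero_mul, TC_zero]
    rfl
  | succ k ih =>
    intro v
    rw [zpow_add_one, map_mul, Equiv.Perm.mul_apply, ht, ih, TC_TC, add_mul, add_mul, add_mul,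
      add_mul, one_mul, one_mul, one_mul, one_mul]
  | pred k ih =>
    intro v
    rw [zpow_sub_one, map_mul, Equiv.Perm.mul_apply, hinv, ih, TC_TC, sub_mul, sub_mul, sub_mul,
      sub_mul, one_mul, one_mul, one_mul, one_mul, sub_eq_add_neg, sub_eq_add_neg, sub_eq_add_neg,
      sub_eq_add_neg]

variable {s : ℕ} (φ : G →* Equiv.Perm (VN s)) (hφ : ∀ i v, φ (x i) (pi s v) = pi s (C i v))

include hφ

theorem act_t0 (v : V) : φ (t x 0) (pi s v) = pi s (TC 0 0 0 (-1) v) := by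
  have e : t x 0 = x 1 * (x 2 * (x 3 * (x 4 * (x 5 * (x 4 * (x 3 * x 2)))))) := by
    have : tw 0 = [1, 2, 3, 4, 5, 4, 3, 2] := by decide
    rw [t, this]
    simp only [Fi.lp_cons, Fi.lp_nil, mul_one]
  rw [e]
  simp only [map_mul, Equiv.Perm.mul_apply, hφ]
  rw [word_T]

theorem act_conj (h : Cx coxC x) (k : Fin 6) {a b : G} {f g : V → V}
    (hab : x k * a * (x k)⁻¹ = b) (ha : ∀ v, φ a (pi s v) = pi s (f v))
    (hfg : ∀ v, C k (f (C k v)) = g v) (v : V) : φ b (pi s v) = pi s (g v) := by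
  rw [← hab, xx h k, map_mul, map_mul, Equiv.Perm.mul_apply, Equiv.Perm.mul_apply, hφ, ha, hφ, hfg]

theorem act_t1 (h : Cx coxC x) (v : V) : φ (t x 1) (pi s v) = pi s (TC 0 0 (-1) 0 v) :=
  act_conj φ hφ h 2 (c20 h) (act_t0 φ hφ) conj2 v

theorem act_t2 (h : Cx coxC x) (v : V) : φ (t x 2) (pi s v) = pi s (TC 0 (-1) 0 0 v) :=
  act_conj φ hφ h 3 (c31 h) (act_t1 φ hφ h) conj3 v

theorem act_t3 (h : Cx coxC x) (v : V) : φ (t x 3) (pi s v) = pi s (TC (-1) 0 0 0 v) :=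
  act_conj φ hφ h 4 (c42 h) (act_t2 φ hφ h) conj4 v

/-- A product of powers of the translations. -/
theorem act_tp (h : Cx coxC x) (c : Fin 4 → ℤ) (v : V) :
    φ (tp x c) (pi s v) = pi s (TC (-c 3) (-c 2) (-c 1) (-c 0) v) := by
  rw [tp, map_mul, map_mul, map_mul, Equiv.Perm.mul_apply, Equiv.Perm.mul_apply,
    Equiv.Perm.mul_apply, zpow_TC φ (act_t3 φ hφ h), zpow_TC φ (act_t2 φ hφ h),
    zpow_TC φ (act_t1 φ hφ h), zpow_TC φ (act_t0 φ hφ), TC_TC, TC_TC, TC_TC]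
  congr 2 <;> ring

/-- The congruences. -/
theorem tp_dvd (h : Cx coxC x) (c : Fin 4 → ℤ)
    (hc : tp x c ∈ closure (x '' ({0, 1, 2, 3, 4} : Set (Fin 6)))) :
    (s : ℤ) ∣ 2 * c 3 ∧ (s : ℤ) ∣ c 3 + c 2 ∧ (s : ℤ) ∣ c 3 + c 1 ∧ (s : ℤ) ∣ c 3 + c 0 := by
  have h1 := fix_closure φ (pi s (fvC 5)) (x '' ({0, 1, 2, 3, 4} : Set (Fin 6))) (by
    rintro g ⟨i, hi, rfl⟩
    rw [hφ, fvC_fix]
    rintro rfl
    simp at hi) _ hc
  rw [act_tp φ hφ h] at h1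
  have e : ∀ a b : ℤ, ((a : ℤ) : ZMod s) = ((b : ℤ) : ZMod s) → (s : ℤ) ∣ a - b := by
    intro a b hab
    rw [← ZMod.intCast_zmod_eq_zero_iff_dvd]
    push_cast
    rw [hab, sub_self]
  have h2 := e _ _ (congrArg (fun y => y.1.2.1) h1)
  have h3 := e _ _ (congrArg (fun y => y.1.2.2.1) h1)
  have h4 := e _ _ (congrArg (fun y => y.1.2.2.2) h1)
  have h5 := e _ _ (congrArg (fun y => y.2.1) h1)
  have h6 := e _ _ (congrArg (fun y => y.2.2) h1)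
  simp only [TC, fvC] at h2 h3 h4 h5 h6
  obtain ⟨k2, hk2⟩ := h2
  obtain ⟨k3, hk3⟩ := h3
  obtain ⟨k4, hk4⟩ := h4
  obtain ⟨k5, hk5⟩ := h5
  obtain ⟨k6, hk6⟩ := h6
  exact ⟨⟨k5 + k6, by linear_combination hk5 + hk6⟩, ⟨k2 + k6, by linear_combination hk2 + hk6⟩,
    ⟨k3 + k6, by linear_combination hk3 + hk6⟩, ⟨k4 + k6, by linear_combination hk4 + hk6⟩⟩

/-- The two infinite parabolic subgroups: reduction to products of powers of the translations. -/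
theorem infC (h : Cx coxC x)
    (hone : ∀ c : Fin 4 → ℤ, (s : ℤ) ∣ 2 * c 3 → (s : ℤ) ∣ c 3 + c 2 → (s : ℤ) ∣ c 3 + c 1 →
      (s : ℤ) ∣ c 3 + c 0 → tp x c ∈ closure (x '' ({0, 1, 2, 3, 4} : Set (Fin 6))) → tp x c = 1)
    (w : G) (h0 : w ∈ closure (x '' ({0, 1, 2, 3, 4} : Set (Fin 6))))
    (h1 : w ∈ closure (x '' ({1, 2, 3, 4, 5} : Set (Fin 6)))) :
    w ∈ closure (x '' ({1, 2, 3, 4} : Set (Fin 6))) := by
  obtain ⟨c, u, hu, hw⟩ := TrC.main h w h1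
  have hs : closure (x '' ({1, 2, 3, 4} : Set (Fin 6))) ≤
      closure (x '' ({0, 1, 2, 3, 4} : Set (Fin 6))) :=
    closure_mono (Set.image_mono (by
      intro y hy
      simp only [Set.mem_insert_iff, Set.mem_singleton_iff] at hy ⊢
      tauto))
  have h2 : tp x c ∈ closure (x '' ({0, 1, 2, 3, 4} : Set (Fin 6))) := by
    have h3 := mul_mem h0 (inv_mem (hs hu))
    rw [hw, mul_inv_cancel_right] at h3
    exact h3
  obtain ⟨e1, e2, e3, e4⟩ := tp_dvd φ hφ h c h2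
  have h4 := hone c e1 e2 e3 e4 h2
  have h5 : w = tp x c * u := hw
  rw [h5, h4, one_mul]
  exact hu

end

end Pool.Agent.Lib.MP_c2d01e_co.Ex
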