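import Pool.Agent.Lib.MP_c2d01e_co.Ex.InfC

/-!
# The two infinite parabolic subgroups of `{3,4,3,3,4}`, all `n` (helper4)

The same as in `InfC`, for an action on a quotient of `V` in which two vectors are equal only if their difference is
in `n N`, where `N` is the lattice of the vectors `(h, a, b)` with `h ∈ (1 + i) H` and `a`, `b` even.
-/

set_option autoImplicit false

namespace Pool.Agent.Lib.MP_c2d01e_co.Ex.InfCN

open Subgroup CGroup CGroupC TrC Fi EqDefs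

section

variable {G : Type} [Group G] {x : Fin 6 → G}

theorem zpow_TC {X : Type*} (φ : G →* Equiv.Perm X) (π : V → X) {t : G} {u0 u1 u2 u3 : ℤ}
    (ht : ∀ v, φ t (π v) = π (TC u0 u1 u2 u3 v)) (a : ℤ) :
    ∀ v, φ (t ^ a) (π v) = π (TC (a * u0) (a * u1) (a * u2) (a * u3) v) := by
  have hinv : ∀ v, φ t⁻¹ (π v) = π (TC (-u0) (-u1) (-u2) (-u3) v) := by
    intro v
    rw [map_inv, Equiv.Perm.inv_eq_iff_eq, ht, TC_TC, add_neg_cancel, add_neg_cancel,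
      add_neg_cancel, add_neg_cancel, TC_zero]
  induction a using Int.induction_on with
  | zero =>
    intro v
    rw [zpow_zero, map_one, zero_mul, zero_mul, zero_mul, zero_mul, TC_zero]
    rfl
  | succ k ih =>
    intro v
    rw [zpow_add_one, map_mul, Equiv.Perm.mul_apply, ht, ih, TC_TC, add_mul, add_mul, add_mul,
      add_mul, one_mul, one_mul, one_mul, one_mul]
  | pred k ih =>
    intro v
    rw [zpow_sub_one, map_mul, Equiv.Perm.mul_apply, hinv, ih, TC_TC, sub_mul, sub_mul, sub_mul,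
      sub_mul, one_mul, one_mul, one_mul, one_mul, sub_eq_add_neg, sub_eq_add_neg, sub_eq_add_neg,
      sub_eq_add_neg]

variable {X : Type*} (φ : G →* Equiv.Perm X) (π : V → X) (hφ : ∀ i v, φ (x i) (π v) = π (C i v))

include hφ

theorem act_t0 (v : V) : φ (t x 0) (π v) = π (TC 0 0 0 (-1) v) := by
  have e : t x 0 = x 1 * (x 2 * (x 3 * (x 4 * (x 5 * (x 4 * (x 3 * x 2)))))) := by
    have : tw 0 = [1, 2, 3, 4, 5, 4, 3, 2] := by decide
    rw [t, this]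
    simp only [Fi.lp_cons, Fi.lp_nil, mul_one]
  rw [e]
  simp only [map_mul, Equiv.Perm.mul_apply, hφ]
  rw [word_T]

theorem act_conj (h : Cx coxC x) (k : Fin 6) {a b : G} {f g : V → V}
    (hab : x k * a * (x k)⁻¹ = b) (ha : ∀ v, φ a (π v) = π (f v))
    (hfg : ∀ v, C k (f (C k v)) = g v) (v : V) : φ b (π v) = π (g v) := by
  rw [← hab, xx h k, map_mul, map_mul, Equiv.Perm.mul_apply, Equiv.Perm.mul_apply, hφ, ha, hφ, hfg]

theorem act_t1 (h : Cx coxC x) (v : V) : φ (t x 1) (π v) = π (TC 0 0 (-1) 0 v) :=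
  act_conj φ π hφ h 2 (c20 h) (act_t0 φ π hφ) conj2 v

theorem act_t2 (h : Cx coxC x) (v : V) : φ (t x 2) (π v) = π (TC 0 (-1) 0 0 v) :=
  act_conj φ π hφ h 3 (c31 h) (act_t1 φ π hφ h) conj3 v

theorem act_t3 (h : Cx coxC x) (v : V) : φ (t x 3) (π v) = π (TC (-1) 0 0 0 v) :=
  act_conj φ π hφ h 4 (c42 h) (act_t2 φ π hφ h) conj4 v

/-- A product of powers of the translations. -/
theorem act_tp (h : Cx coxC x) (c : Fin 4 → ℤ) (v : V) :
    φ (tp x c) (π v) = π (TC (-c 3) (-c 2) (-c 1) (-c 0) v) := by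
  rw [tp, map_mul, map_mul, map_mul, Equiv.Perm.mul_apply, Equiv.Perm.mul_apply,
    Equiv.Perm.mul_apply, zpow_TC φ π (act_t3 φ π hφ h), zpow_TC φ π (act_t2 φ π hφ h),
    zpow_TC φ π (act_t1 φ π hφ h), zpow_TC φ π (act_t0 φ π hφ), TC_TC, TC_TC, TC_TC]
  congr 2 <;> ring

/-- Two vectors with the same image differ by an element of `n N`. -/
def Sep {X : Type*} (π : V → X) (n : ℕ) : Prop := ∀ v w : V, π v = π w →
  (2 * n : ℤ) ∣ (v - w).1.1 ∧ (n : ℤ) ∣ (v - w).1.2.1 ∧ (n : ℤ) ∣ (v - w).1.2.2.1 ∧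
    (n : ℤ) ∣ (v - w).1.2.2.2 ∧
    (2 * n : ℤ) ∣ (v - w).1.2.1 + (v - w).1.2.2.1 + (v - w).1.2.2.2 ∧
    (2 * n : ℤ) ∣ (v - w).2.1 ∧ (2 * n : ℤ) ∣ (v - w).2.2

/-- The congruences. -/
theorem tp_dvd (h : Cx coxC x) {n : ℕ} (hn : n ≠ 0) (hsep : Sep π n) (c : Fin 4 → ℤ)
    (hc : tp x c ∈ closure (x '' ({0, 1, 2, 3, 4} : Set (Fin 6)))) :
    ∃ k : Fin 4 → ℤ, (∀ i, c i = n * k i) ∧ Even (k 0 + k 1 + k 2 + k 3) := by
  have h1 := fix_closure φ (π (fvC 5)) (x '' ({0, 1, 2, 3, 4} : Set (Fin 6))) (by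
    rintro g ⟨i, hi, rfl⟩
    rw [hφ, fvC_fix]
    rintro rfl
    simp at hi) _ hc
  rw [act_tp φ π hφ h] at h1
  obtain ⟨⟨k1, h1⟩, ⟨k2, h2⟩, ⟨k3, h3⟩, ⟨k4, h4⟩, ⟨k5, h5⟩, ⟨k6, h6⟩, ⟨k7, h7⟩⟩ := hsep _ _ h1
  simp only [TC, fvC, Prod.fst_sub, Prod.snd_sub] at h1 h2 h3 h4 h5 h6 h7
  have hn' : (n : ℤ) ≠ 0 := by exact_mod_cast hn
  have e3 : c 3 = n * (k6 + k7) := by
    have : 2 * c 3 = 2 * (n * (k6 + k7)) := by linear_combination h6 + h7
    linarith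
  have e2 : c 2 = n * (k2 + 2 * k7 - (k6 + k7)) := by linear_combination h2 + h7 - e3
  have e1 : c 1 = n * (k3 + 2 * k7 - (k6 + k7)) := by linear_combination h3 + h7 - e3
  have e0 : c 0 = n * (k4 + 2 * k7 - (k6 + k7)) := by linear_combination h4 + h7 - e3
  have e5 : k2 + k3 + k4 = 2 * k5 := by
    have : (n : ℤ) * (k2 + k3 + k4) = n * (2 * k5) := by linear_combination h5 - h2 - h3 - h4
    exact mul_left_cancel₀ hn' this
  refine ⟨![k4 + 2 * k7 - (k6 + k7), k3 + 2 * k7 - (k6 + k7), k2 + 2 * k7 - (k6 + k7), k6 + k7],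
    fun i => ?_, ?_⟩
  · fin_cases i
    · exact e0
    · exact e1
    · exact e2
    · exact e3
  · refine ⟨k5 + 2 * k7 - k6, ?_⟩
    show k4 + 2 * k7 - (k6 + k7) + (k3 + 2 * k7 - (k6 + k7)) + (k2 + 2 * k7 - (k6 + k7)) +
      (k6 + k7) = _
    linear_combination e5

/-- `hinf` of `interC` for the groups with `(n,n,0,0)` on the cubic side. -/
theorem infCN (h : Cx coxC x) {n : ℕ} (hn : n ≠ 0) (hsep : Sep π n)
    (hV : Fi.lp x wV2 ^ n = 1) (w : G)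
    (h0 : w ∈ closure (x '' ({0, 1, 2, 3, 4} : Set (Fin 6))))
    (h1 : w ∈ closure (x '' ({1, 2, 3, 4, 5} : Set (Fin 6)))) :
    w ∈ closure (x '' ({1, 2, 3, 4} : Set (Fin 6))) := by
  obtain ⟨c, u, hu, hw⟩ := TrC.main h w h1
  have hs : closure (x '' ({1, 2, 3, 4} : Set (Fin 6))) ≤
      closure (x '' ({0, 1, 2, 3, 4} : Set (Fin 6))) :=
    closure_mono (Set.image_mono (by
      intro y hy
      simp only [Set.mem_insert_iff, Set.mem_singleton_iff] at hy ⊢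
      tauto))
  have h2 : tp x c ∈ closure (x '' ({0, 1, 2, 3, 4} : Set (Fin 6))) := by
    have h3 := mul_mem h0 (inv_mem (hs hu))
    rw [hw, mul_inv_cancel_right] at h3
    exact h3
  obtain ⟨k, hk1, hk2⟩ := tp_dvd φ π hφ h hn hsep c h2
  have h4 := Qtype h hV c k hk1 hk2
  have h5 : w = tp x c * u := hw
  rw [h5, h4, one_mul]
  exact hu

end

end Pool.Agent.Lib.MP_c2d01e_co.Ex.InfCN
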