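import Pool.Agent.Lib.MP_c2d01e_co.Ex.EmbV71
import Pool.Agent.Lib.MP_c2d01e_co.Ex.EmbBN90
import Pool.Agent.Lib.MP_c2d01e_co.Ex.EmbVCq

/-!
# The facets of family (C), vectors `(n,0,0,0)`, `n ≥ 3`
-/

set_option autoImplicit false

namespace Pool.Agent.Lib.MP_c2d01e_co.Ex.QF71

open EqDefs EmbDefs Ex Ex.Wrd Ex.WrdQ Ex.ActN

/-- The generators in reversed order. -/
def gc (n j : ℕ) : FacC n 1 := PresentedGroup.of (Fin.ofNat 5 (4 - j))

theorem cx_eq : ∀ i < 5, ∀ j < 5,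
    coxC (Fin.ofNat 5 (4 - i)).castSucc (Fin.ofNat 5 (4 - j)).castSucc = cx i j := by decide

theorem gc_cox (n : ℕ) : Cox (gc n) := by
  intro i j hi hj
  rw [← cx_eq i hi j hj]
  exact PresentedGroup.one_of_mem (Or.inl ⟨Fin.ofNat 5 (4 - i), Fin.ofNat 5 (4 - j), rfl⟩)

theorem mem_top (n : ℕ) (y : FacC n 1) :
    y ∈ Subgroup.closure {gc n 0, gc n 1, gc n 2, gc n 3, gc n 4} := by
  have h : Subgroup.closure (Set.range (PresentedGroup.of : Fin 5 → FacC n 1)) = ⊤ :=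
    PresentedGroup.closure_range_of _
  have h1 : Set.range (PresentedGroup.of : Fin 5 → FacC n 1) ⊆
      {gc n 0, gc n 1, gc n 2, gc n 3, gc n 4} := by
    rintro _ ⟨i, rfl⟩
    fin_cases i
    · exact Or.inr (Or.inr (Or.inr (Or.inr rfl)))
    · exact Or.inr (Or.inr (Or.inr (Or.inl rfl)))
    · exact Or.inr (Or.inr (Or.inl rfl))
    · exact Or.inr (Or.inl rfl)
    · exact Or.inl rfl
  have h2 : y ∈ Subgroup.closure (Set.range (PresentedGroup.of : Fin 5 → FacC n 1)) := by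
    rw [h]
    trivial
  exact Subgroup.closure_mono h1 h2

theorem hrel (t k u l : ℕ) :
    ∀ r ∈ ({r | ∃ i j : Fin 5, r = (x i * x j) ^ coxC i.castSucc j.castSucc} ∪
      {facC t k} : Set (FreeGroup (Fin 5))),
      FreeGroup.lift (fun i : Fin 5 => (PresentedGroup.of i.castSucc : GamC t k u l)) r = 1 := by
  rintro r (⟨i, j, rfl⟩ | hr)
  · rw [map_pow, map_mul, x, x, FreeGroup.lift_apply_of, FreeGroup.lift_apply_of]
    exact ExHom.of_coxC t k u l _ _
  · rw [Set.mem_singleton_iff.1 hr]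
    have h : (PresentedGroup.mk (relsC t k u l)) (facetC t k) = 1 :=
      PresentedGroup.one_of_mem (Or.inr (Or.inl rfl))
    rw [← h]
    unfold facC facetC
    split_ifs
    · rw [map_pow, map_pow]
      congr 1
    · rw [map_pow, map_pow]
      congr 1

/-- The facets of (C), vectors `(n,0,0,0)`. -/
theorem fC_Q' (n : ℕ) (hn : 3 ≤ n) :
    ∃ f : FacC n 1 →* GamC n 1 n 2, Function.Injective f ∧
      ∀ i : Fin 5, f (PresentedGroup.of i) = PresentedGroup.of i.castSucc := by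
  obtain ⟨φ, hφ⟩ := EmbVCq.actCN n
  refine ⟨PresentedGroup.toGroup (hrel n 1 n 2), ?_, fun i => PresentedGroup.toGroup.of _⟩
  rw [injective_iff_map_eq_one]
  intro y hy
  have hT : (gc n 0 * (gc n 1 * gc n 2 * gc n 3 * gc n 2 * gc n 1) *
      (gc n 4 * gc n 3 * gc n 2 * gc n 3 * gc n 4) *
      (gc n 1 * gc n 2 * gc n 3 * gc n 2 * gc n 1)) ^ n = 1 := by
    have h : (PresentedGroup.mk ({r | ∃ i j : Fin 5,
        r = (x i * x j) ^ coxC i.castSucc j.castSucc} ∪ {facC n 1})) (facC n 1) = 1 :=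
      PresentedGroup.one_of_mem (Or.inr rfl)
    rw [facC, if_pos rfl, map_pow] at h
    exact h
  refine EmbBN90.coreVN (gc n) (gc_cox n)
    ((MulAut.conj (PX n 0)).toMonoidHom.comp (φ.comp (PresentedGroup.toGroup (hrel n 1 n 2))))
    (EmbBN90.nearB_piN n hn) ?_ y (mem_top n y) ?_
    (fun j => (tpow (gc n) (gc_cox n) n hT j).2)
  · intro i hi v
    obtain ⟨j, rfl⟩ := Fin.exists_succ_eq.2 hi
    have e : Fin.ofNat 5 (4 - (5 - (j.succ : ℕ))) = j := by
      revert j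
      decide
    have hinv : (PX n 0)⁻¹ = PX n 0 := inv_eq_of_mul_eq_one_left (PX_sq n 0)
    rw [gc, e]
    show (PX n 0 * φ (PresentedGroup.toGroup (hrel n 1 n 2) (PresentedGroup.of j)) *
      (PX n 0)⁻¹) (piN n v) = _
    rw [PresentedGroup.toGroup.of, hinv, Equiv.Perm.mul_apply, Equiv.Perm.mul_apply, PX_pi, hφ,
      PX_pi, EmbV71a.conj_C]
  · rw [MonoidHom.comp_apply, MonoidHom.comp_apply, hy, map_one, map_one]

end Pool.Agent.Lib.MP_c2d01e_co.Ex.QF71
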