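import Pool.Agent.Lib.MP_c2d01e_co.Ex.Hom
import Pool.Agent.Lib.MP_c2d01e_co.Ex.WrdQ
import Pool.Agent.Lib.MP_c2d01e_co.Ex.InfQ

/-!
# Family (B), vectors `(n,n,0,0)`, `(n,0,0,0)`, all `n ≥ 3`: the intersection property (helper6)

The groups act on `V / n N`, `N` = the vectors `(h, a, b)` with `h ∈ (1 + i) H` and `a`, `b` even (idea: helper7).
-/

set_option autoImplicit false

namespace Pool.Agent.Lib.MP_c2d01e_co.Ex.QN6

open Subgroup EqDefs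
open Wrd (Cox cx ev pp ev_app ev_cons ev_nil)
open WrdQ (trq tq)
open Pool.Agent.Lib.MP_c2d01e_co.GcdW

/-! ### The quotient -/

/-- The sublattice `N`. -/
def inNp (v : V) : Prop :=
  v.1.1 % 2 = 0 ∧ (v.1.2.1 + v.1.2.2.1 + v.1.2.2.2) % 2 = 0 ∧ v.2.1 % 2 = 0 ∧ v.2.2 % 2 = 0

theorem inNp_R (i : Fin 6) (v : V) (h : inNp v) : inNp (R i v) := by
  obtain ⟨⟨p, x, y, z⟩, a, b⟩ := v
  simp only [inNp] at h
  obtain ⟨h1, h2, h3, h4⟩ := h
  fin_cases i <;> simp only [R, inNp] <;> refine ⟨?_, ?_, ?_, ?_⟩ <;> omega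

theorem inNp_zero : inNp 0 := ⟨rfl, rfl, rfl, rfl⟩

theorem inNp_neg (v : V) (h : inNp v) : inNp (-v) := by
  obtain ⟨⟨p, x, y, z⟩, a, b⟩ := v
  simp only [inNp] at h
  obtain ⟨h1, h2, h3, h4⟩ := h
  show (-p) % 2 = 0 ∧ (-x + -y + -z) % 2 = 0 ∧ (-a) % 2 = 0 ∧ (-b) % 2 = 0
  refine ⟨?_, ?_, ?_, ?_⟩ <;> omega

theorem inNp_add (v w : V) (h : inNp v) (h' : inNp w) : inNp (v + w) := by
  obtain ⟨⟨p, x, y, z⟩, a, b⟩ := v
  obtain ⟨⟨p', x', y', z'⟩, a', b'⟩ := w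
  simp only [inNp] at h h'
  obtain ⟨h1, h2, h3, h4⟩ := h
  obtain ⟨g1, g2, g3, g4⟩ := h'
  show (p + p') % 2 = 0 ∧ ((x + x') + (y + y') + (z + z')) % 2 = 0 ∧ (a + a') % 2 = 0 ∧
    (b + b') % 2 = 0
  refine ⟨?_, ?_, ?_, ?_⟩ <;> omega

/-- Congruence modulo `n N`. -/
def St (n : ℕ) : Setoid V where
  r v w := ∃ u, inNp u ∧ v - w = (n : ℤ) • u
  iseqv := by
    refine ⟨fun v => ⟨0, inNp_zero, by rw [sub_self, smul_zero]⟩, ?_, ?_⟩
    · rintro v w ⟨u, hu, h⟩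
      exact ⟨-u, inNp_neg u hu, by rw [smul_neg, ← h, neg_sub]⟩
    · rintro v w x ⟨u, hu, h⟩ ⟨u', hu', h'⟩
      exact ⟨u + u', inNp_add u u' hu hu', by rw [smul_add, ← h, ← h']; abel⟩

/-- The lattice modulo `n N`. -/
def XN (n : ℕ) : Type := Quotient (St n)

/-- The projection. -/
def pq (n : ℕ) (v : V) : XN n := Quotient.mk (St n) v

theorem pq_eq {n : ℕ} {v w : V} : pq n v = pq n w ↔ ∃ u, inNp u ∧ v - w = (n : ℤ) • u :=
  Quotient.eq (r := St n)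

theorem pq_surj (n : ℕ) (x : XN n) : ∃ v, pq n v = x := Quotient.exists_rep x

/-- The reflections modulo `n N`. -/
def RQ (n : ℕ) (i : Fin 6) : Equiv.Perm (XN n) where
  toFun := Quotient.map (R i) (fun v w ⟨u, hu, h⟩ =>
    ⟨R i u, inNp_R i u hu, by rw [← R_sub, h, R_smul]⟩)
  invFun := Quotient.map (R i) (fun v w ⟨u, hu, h⟩ =>
    ⟨R i u, inNp_R i u hu, by rw [← R_sub, h, R_smul]⟩)
  left_inv := by
    rintro ⟨v⟩
    exact congrArg (pq n) (R_R i v)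
  right_inv := by
    rintro ⟨v⟩
    exact congrArg (pq n) (R_R i v)

theorem RQ_pq (n : ℕ) (i : Fin 6) (v : V) : RQ n i (pq n v) = pq n (R i v) := rfl

theorem eq_one_pq (n : ℕ) (g : Equiv.Perm (XN n)) (h : ∀ v, g (pq n v) = pq n v) : g = 1 := by
  ext1 x
  obtain ⟨v, rfl⟩ := pq_surj n x
  exact h v

theorem pow_pq (n : ℕ) (g : Equiv.Perm (XN n)) (f : V → V) (h : ∀ v, g (pq n v) = pq n (f v))
    (m : ℕ) (v : V) : (g ^ m) (pq n v) = pq n (f^[m] v) := by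
  induction m generalizing v with
  | zero => rfl
  | succ m ih => rw [pow_succ, Equiv.Perm.mul_apply, h, ih, Function.iterate_succ_apply]

theorem RQ_sq (n : ℕ) (i : Fin 6) : RQ n i * RQ n i = 1 := by
  apply eq_one_pq
  intro v
  rw [Equiv.Perm.mul_apply, RQ_pq, RQ_pq, R_R]

theorem RQ_cox (n : ℕ) (i j : Fin 6) (m : ℕ) (hm : CGroup.cox i j = m) :
    (RQ n i * RQ n j) ^ m = 1 := by
  subst hm
  apply eq_one_pq
  intro v
  rw [pow_pq n _ (fun v => R i (R j v)) (fun v => by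
    rw [Equiv.Perm.mul_apply, RQ_pq, RQ_pq]) _ v, CGroup.R_cox]

theorem rel (n : ℕ) : Rel (RQ n 0) (RQ n 1) (RQ n 2) (RQ n 3) (RQ n 4) (RQ n 5) where
  aa := RQ_sq n 0
  bb := RQ_sq n 1
  cc := RQ_sq n 2
  dd := RQ_sq n 3
  ee := RQ_sq n 4
  ff := RQ_sq n 5
  aba := q3 (RQ_sq n 0) (RQ_sq n 1) (RQ_cox n 0 1 3 (by decide))
  bcb := q3 (RQ_sq n 1) (RQ_sq n 2) (RQ_cox n 1 2 3 (by decide))
  cdc := q3 (RQ_sq n 2) (RQ_sq n 3) (RQ_cox n 2 3 3 (by decide))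
  dede := q4 (RQ_sq n 3) (RQ_sq n 4) (RQ_cox n 3 4 4 (by decide))
  efe := q3 (RQ_sq n 4) (RQ_sq n 5) (RQ_cox n 4 5 3 (by decide))
  ac := q2 (RQ_sq n 0) (RQ_sq n 2) (RQ_cox n 0 2 2 (by decide))
  ad := q2 (RQ_sq n 0) (RQ_sq n 3) (RQ_cox n 0 3 2 (by decide))
  ae := q2 (RQ_sq n 0) (RQ_sq n 4) (RQ_cox n 0 4 2 (by decide))
  af := q2 (RQ_sq n 0) (RQ_sq n 5) (RQ_cox n 0 5 2 (by decide))
  bd := q2 (RQ_sq n 1) (RQ_sq n 3) (RQ_cox n 1 3 2 (by decide))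
  be := q2 (RQ_sq n 1) (RQ_sq n 4) (RQ_cox n 1 4 2 (by decide))
  bf := q2 (RQ_sq n 1) (RQ_sq n 5) (RQ_cox n 1 5 2 (by decide))
  ce := q2 (RQ_sq n 2) (RQ_sq n 4) (RQ_cox n 2 4 2 (by decide))
  cf := q2 (RQ_sq n 2) (RQ_sq n 5) (RQ_cox n 2 5 2 (by decide))
  df := q2 (RQ_sq n 3) (RQ_sq n 5) (RQ_cox n 3 5 2 (by decide))

/-- The translations by `n q`, `q ∈ (1 + i) H`, are trivial. -/
theorem E_pq (n : ℕ) (v : V) : pq n (E ((n : ℤ) • (-2, 0, 1, 1)) v) = pq n v := by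
  obtain ⟨⟨p, x, y, z⟩, a, b⟩ := v
  rw [pq_eq]
  refine ⟨((b * (-2), 0, b, b), -(bil (p, x, y, z) (-2, 0, 1, 1)) - n * (2 * b), 0), ?_, ?_⟩
  · simp only [inNp, bil]
    refine ⟨?_, ?_, ?_, ?_⟩ <;> ring_nf <;> omega
  · simp only [E, bil, nm, Prod.smul_mk, Prod.mk_add_mk, Prod.mk_sub_mk, smul_eq_mul,
      Prod.mk.injEq]
    refine ⟨⟨?_, ?_, ?_, ?_⟩, ?_, ?_⟩ <;> ring

/-- `X ^ n = 1` on the lattice modulo `n N`. -/
theorem Xn (n : ℕ) : ((RQ n 1 * sg (RQ n 2) (RQ n 3) (RQ n 4) * ta (RQ n 3) (RQ n 4) (RQ n 5)) *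
    (RQ n 1 * sg (RQ n 2) (RQ n 3) (RQ n 4) * ta (RQ n 3) (RQ n 4) (RQ n 5))) ^ n = 1 := by
  have h0 := RQ_sq n
  have c : ∀ i (g : Equiv.Perm (XN n)), RQ n i * (RQ n i * g) = g := by
    intro i g
    rw [← mul_assoc, h0, one_mul]
  set g' := (ta (RQ n 3) (RQ n 4) (RQ n 5) * sg (RQ n 2) (RQ n 3) (RQ n 4) * RQ n 1) *
    (ta (RQ n 3) (RQ n 4) (RQ n 5) * sg (RQ n 2) (RQ n 3) (RQ n 4) * RQ n 1) with hg'
  have h1 : ((RQ n 1 * sg (RQ n 2) (RQ n 3) (RQ n 4) * ta (RQ n 3) (RQ n 4) (RQ n 5)) *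
      (RQ n 1 * sg (RQ n 2) (RQ n 3) (RQ n 4) * ta (RQ n 3) (RQ n 4) (RQ n 5))) * g' = 1 := by
    rw [hg']
    simp only [sg, ta, mul_assoc, c, h0]
  have h2 : g' ^ n = 1 := by
    apply eq_one_pq
    intro v
    rw [pow_pq n g' (E (-2, 0, 1, 1)) (fun v => ?_), CGroup.E_iter]
    · exact E_pq n v
    · rw [hg']
      simp only [sg, ta, Equiv.Perm.mul_apply, RQ_pq]
      rw [word2]
  rw [eq_inv_of_mul_eq_one_left h1, inv_pow, h2, inv_one]

theorem RQ_rB (n : ℕ) (i : Fin 6) (v : V) :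
    ExHom.rB (RQ n 0) (RQ n 1) (RQ n 2) (RQ n 3) (RQ n 4) (RQ n 5) i (pq n v) =
      pq n (CGroupB.B i v) := by
  fin_cases i
  · exact RQ_pq n 1 v
  · exact RQ_pq n 2 v
  · exact RQ_pq n 3 v
  · exact RQ_pq n 4 v
  · exact RQ_pq n 5 v
  · show (RQ n 0 * (RQ n 1 * (RQ n 2 * (RQ n 3 * RQ n 4 * RQ n 3) * RQ n 2) * RQ n 1) *
      RQ n 0) (pq n v) = pq n (CGroupB.B 5 v)
    rw [CGroupB.B_five]
    simp only [Equiv.Perm.mul_apply, RQ_pq]

/-- The group with the vectors `(n,n,0,0)`, `(n,0,0,0)` acts on the lattice modulo `n N`. -/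
theorem actN (n : ℕ) : ∃ φ : GamB n 2 n 1 →* Equiv.Perm (XN n),
    ∀ i v, φ (PresentedGroup.of i) (pq n v) = pq n (CGroupB.B i v) :=
  ⟨PresentedGroup.toGroup (ExHom.liftB2 (rel n) n (Xn n)), fun i v => by
    rw [PresentedGroup.toGroup.of]
    exact RQ_rB n i v⟩

theorem pi_of_pq {n : ℕ} {v w : V} (h : pq n v = pq n w) : CGroup.pi n v = CGroup.pi n w := by
  obtain ⟨u, _, hu⟩ := pq_eq.1 h
  have hv : v = w + (n : ℤ) • u := by rw [← hu]; abel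
  rw [hv]
  obtain ⟨⟨p, x, y, z⟩, a, b⟩ := w
  obtain ⟨⟨p', x', y', z'⟩, a', b'⟩ := u
  simp [CGroup.pi]

theorem nearB_pq (n : ℕ) (hn : 3 ≤ n) (v w : V) (h : CGroupB.nearB v w = true) :
    pq n v ≠ pq n w := fun e => CGroupB.nearB_pi n hn v w h (pi_of_pq e)

/-! ### The action of the four translations -/

/-- `T = ρ₀ σ τ σ` acts as the translation by `1`. -/
theorem wordT (v : V) :
    R 1 (R 2 (R 3 (R 4 (R 3 (R 2 (R 5 (R 4 (R 3 (R 4 (R 5 (R 2 (R 3 (R 4 (R 3 (R 2 v))))))))))))))) =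
      E (2, -1, -1, -1) v := by
  obtain ⟨⟨p, x, y, z⟩, a, b⟩ := v
  rw [sig_eq, tau_eq, sig_eq]
  simp only [R, E, bil, nm, Prod.smul_mk, Prod.mk_add_mk, smul_eq_mul, Prod.mk.injEq]
  refine ⟨⟨?_, ?_, ?_, ?_⟩, ?_, trivial⟩ <;> ring

/-- The vectors of the four translations. -/
def yq : Fin 4 → H4 := ![(2, -1, -1, -1), (0, 1, 0, 0), (0, 0, 1, 0), (1, 0, 0, 0)]

section

variable {G X : Type*} [Group G] (φ : G →* Equiv.Perm X) (π : V → X) (g : ℕ → G)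
  (hg : ∀ i : Fin 6, (i : ℕ) < 5 → ∀ v, φ (g i) (π v) = π (CGroupB.B i v))

include hg

theorem act1 (v : V) : φ (g 1) (π v) = π (R 2 v) := hg 1 (by decide) v
theorem act2 (v : V) : φ (g 2) (π v) = π (R 3 v) := hg 2 (by decide) v
theorem act3 (v : V) : φ (g 3) (π v) = π (R 4 v) := hg 3 (by decide) v
theorem act4 (v : V) : φ (g 4) (π v) = π (R 5 v) := hg 4 (by decide) v
theorem act0 (v : V) : φ (g 0) (π v) = π (R 1 v) := hg 0 (by decide) v

omit hg in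
/-- Conjugation of a translation. -/
theorem cjE {x y : G} {j : Fin 6} (h0 : j ≠ 0) (h1 : j ≠ 1) {u : H4}
    (hy : ∀ v, φ y (π v) = π (R j v)) (hx : ∀ v, φ x (π v) = π (E u v)) :
    ∀ v, φ (y * x * y) (π v) = π (E (Rh j u) v) := by
  intro v
  rw [map_mul, map_mul, Equiv.Perm.mul_apply, Equiv.Perm.mul_apply, hy, hx, hy, E_conj j h0 h1]

theorem actT (v : V) : φ (ev g Wrd.tT) (π v) = π (E (2, -1, -1, -1) v) := by
  simp only [Wrd.tT, ev_cons, ev_nil, mul_one, map_mul, Equiv.Perm.mul_apply, act0 φ π g hg,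
    act1 φ π g hg, act2 φ π g hg, act3 φ π g hg, act4 φ π g hg]
  rw [wordT]

theorem act_trq (k : Fin 4) (v : V) : φ (trq g k) (π v) = π (E (yq k) v) := by
  have c1 := act1 φ π g hg
  have c2 := act2 φ π g hg
  have c3 := act3 φ π g hg
  have c4 := act4 φ π g hg
  have c := actT φ π g hg
  have e3 : trq g 3 = g 1 * ev g Wrd.tT * g 1 := by
    simp only [trq, tq, Matrix.cons_val, ev_app, ev_cons, ev_nil, mul_one, mul_assoc]
  have e1 : trq g 1 = g 1 * (g 2 * (g 3 * (g 2 * (g 1 * ev g Wrd.tT * g 1) * g 2) * g 3) * g 2) *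
      g 1 := by
    simp only [trq, tq, Matrix.cons_val, ev_app, ev_cons, ev_nil, mul_one, mul_assoc]
  have e2 : trq g 2 = g 4 * (g 1 * (g 2 * (g 3 * (g 2 * (g 1 * ev g Wrd.tT * g 1) * g 2) * g 3) *
      g 2) * g 1) * g 4 := by
    simp only [trq, tq, Matrix.cons_val, ev_app, ev_cons, ev_nil, mul_one, mul_assoc]
  have d1 := cjE φ π (x := ev g Wrd.tT) (y := g 1) (j := 2) (by decide) (by decide) c1 c
  have d2 := cjE φ π (y := g 2) (j := 3) (by decide) (by decide) c2 d1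
  have d3 := cjE φ π (y := g 3) (j := 4) (by decide) (by decide) c3 d2
  have d4 := cjE φ π (y := g 2) (j := 3) (by decide) (by decide) c2 d3
  have d5 := cjE φ π (y := g 1) (j := 2) (by decide) (by decide) c1 d4
  have d6 := cjE φ π (y := g 4) (j := 5) (by decide) (by decide) c4 d5
  fin_cases k
  · exact c v
  · show φ (trq g 1) (π v) = π (E (0, 1, 0, 0) v)
    rw [e1, d5]
    congr 2
  · show φ (trq g 2) (π v) = π (E (0, 0, 1, 0) v)
    rw [e2, d6]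
    congr 2
  · show φ (trq g 3) (π v) = π (E (1, 0, 0, 0) v)
    rw [e3, d1]
    congr 2

omit hg in
theorem zpowE {t : G} {y : H4} (ht : ∀ v, φ t (π v) = π (E y v)) (a : ℤ) :
    ∀ v, φ (t ^ a) (π v) = π (E (a • y) v) := by
  have hinv : ∀ v, φ t⁻¹ (π v) = π (E (-y) v) := by
    intro v
    rw [map_inv, Equiv.Perm.inv_eq_iff_eq, ht, E_E, add_neg_cancel, E_zero]
  induction a using Int.induction_on with
  | zero => intro v; rw [zpow_zero, map_one, zero_smul, E_zero]; rfl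
  | succ k ih =>
    intro v
    rw [zpow_add_one, map_mul, Equiv.Perm.mul_apply, ht, ih, E_E, add_smul, one_smul]
  | pred k ih =>
    intro v
    rw [zpow_sub_one, map_mul, Equiv.Perm.mul_apply, hinv, ih, E_E, sub_smul, one_smul,
      sub_eq_add_neg]

/-- The product of the powers acts as a translation. -/
theorem ppE (a : Fin 4 → ℤ) (v : V) : φ (pp (trq g) a) (π v) =
    π (E (a 0 • yq 0 + a 1 • yq 1 + a 2 • yq 2 + a 3 • yq 3) v) := by
  have ht := act_trq φ π g hg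
  rw [pp, map_mul, map_mul, map_mul, Equiv.Perm.mul_apply, Equiv.Perm.mul_apply,
    Equiv.Perm.mul_apply, zpowE φ π (ht 3), zpowE φ π (ht 2), zpowE φ π (ht 1), zpowE φ π (ht 0),
    E_E, E_E, E_E]

end

/-- The coordinates of a translation which fixes `(0, 0, 1)` modulo `n N`. -/
theorem coord (n : ℕ) (hn : n ≠ 0) (a : Fin 4 → ℤ)
    (h : pq n (E (a 0 • yq 0 + a 1 • yq 1 + a 2 • yq 2 + a 3 • yq 3) ((0, 0, 0, 0), 0, 1)) =
      pq n ((0, 0, 0, 0), 0, 1)) :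
    ∃ c : Fin 4 → ℤ, (∀ i, a i = n * c i) ∧ Even (c 0 + c 1 + c 2) ∧ Even (c 3) := by
  obtain ⟨⟨⟨p, x, y, z⟩, s, t⟩, ⟨h1, h2, _, _⟩, h5⟩ := pq_eq.1 h
  have e : a 0 • yq 0 + a 1 • yq 1 + a 2 • yq 2 + a 3 • yq 3 =
      ((2 * a 0 + a 3, -a 0 + a 1, -a 0 + a 2, -a 0) : H4) := by
    show ((a 0 * 2 + a 1 * 0 + a 2 * 0 + a 3 * 1, a 0 * (-1) + a 1 * 1 + a 2 * 0 + a 3 * 0,
      a 0 * (-1) + a 1 * 0 + a 2 * 1 + a 3 * 0, a 0 * (-1) + a 1 * 0 + a 2 * 0 + a 3 * 0) : H4) = _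
    simp only [Prod.mk.injEq]
    refine ⟨?_, ?_, ?_, ?_⟩ <;> ring
  rw [e] at h5
  have f1 : (0 + 1 * (2 * a 0 + a 3)) - 0 = (n : ℤ) * p := congrArg (fun v : V => v.1.1) h5
  have f2 : (0 + 1 * (-a 0 + a 1)) - 0 = (n : ℤ) * x := congrArg (fun v : V => v.1.2.1) h5
  have f3 : (0 + 1 * (-a 0 + a 2)) - 0 = (n : ℤ) * y := congrArg (fun v : V => v.1.2.2.1) h5
  have f4 : (0 + 1 * (-a 0)) - 0 = (n : ℤ) * z := congrArg (fun v : V => v.1.2.2.2) h5
  simp only at h1 h2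
  refine ⟨![-z, x - z, y - z, p + 2 * z], ?_, ?_, ?_⟩
  · intro i
    fin_cases i
    · show a 0 = n * (-z)
      linarith
    · show a 1 = n * (x - z)
      linarith
    · show a 2 = n * (y - z)
      linarith
    · show a 3 = n * (p + 2 * z)
      linarith
  · show Even (-z + (x - z) + (y - z))
    rw [Int.even_iff]
    omega
  · show Even (p + 2 * z)
    rw [Int.even_iff]
    omega

/-- A translation with such coordinates is trivial. -/
theorem pp_one {G : Type*} [Group G] (g : ℕ → G) (h : Cox g) (n : ℕ)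
    (hX : (g 0 * (g 1 * g 2 * g 3 * g 2 * g 1) * (g 4 * g 3 * g 2 * g 3 * g 4)) ^ (2 * n) = 1)
    (a c : Fin 4 → ℤ) (hac : ∀ i, a i = n * c i) (h0 : Even (c 0 + c 1 + c 2)) (h3 : Even (c 3)) :
    pp (trq g) a = 1 := by
  obtain ⟨e1, e2, e3, e4⟩ := WrdQ.xrel g h n hX
  have hA : (trq g 0 ^ n) ^ 2 = 1 := by rw [← pow_mul, mul_comm, e3]
  have hB : (trq g 3 ^ n) ^ 2 = 1 := by rw [← pow_mul, mul_comm, e4]
  rw [pp, hac 0, hac 1, hac 2, hac 3, zpow_mul, zpow_mul, zpow_mul, zpow_mul, zpow_natCast,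
    zpow_natCast, zpow_natCast, zpow_natCast, e1, e2, ← zpow_add, ← zpow_add,
    (zpow_par hA _).1 h0, (zpow_par hB _).1 h3, one_mul]

/-! ### The groups -/

/-- The generators, as a function on the natural numbers. -/
def gB (s k t l : ℕ) (i : ℕ) : GamB s k t l :=
  if h : i < 6 then PresentedGroup.of (⟨i, h⟩ : Fin 6) else 1

theorem gB_val (s k t l : ℕ) (i : Fin 6) : gB s k t l (i : ℕ) = PresentedGroup.of i := by
  rw [gB, dif_pos i.2]

theorem cox_gB (s k t l : ℕ) : Cox (gB s k t l) := by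
  intro i j hi hj
  have h1 := ExHom.of_coxB s k t l ⟨i, by omega⟩ ⟨j, by omega⟩
  have e : cx i j = coxB ⟨i, by omega⟩ ⟨j, by omega⟩ := by
    clear h1
    interval_cases i <;> interval_cases j <;> rfl
  rw [e, gB, gB, dif_pos (by omega), dif_pos (by omega)]
  exact h1

theorem facet_one (s k t l : ℕ) (hk : k ≠ 1) :
    (gB s k t l 0 * (gB s k t l 1 * gB s k t l 2 * gB s k t l 3 * gB s k t l 2 * gB s k t l 1) *
      (gB s k t l 4 * gB s k t l 3 * gB s k t l 2 * gB s k t l 3 * gB s k t l 4)) ^ (2 * s) = 1 := by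
  have h : PresentedGroup.mk (relsB s k t l) (facetB s k) = 1 :=
    PresentedGroup.one_of_mem (Or.inr (Or.inl rfl))
  rw [facetB, if_neg hk, map_pow] at h
  rw [← h]
  congr 1

/-- The two infinite parabolic subgroups, for every `n ≥ 1`. -/
theorem hinfN (n : ℕ) (hn : n ≠ 0) (w : GamB n 2 n 1)
    (h0 : w ∈ closure ((fun i => (PresentedGroup.of i : GamB n 2 n 1)) ''
      ({0, 1, 2, 3, 4} : Set (Fin 6))))
    (h1 : w ∈ closure ((fun i => (PresentedGroup.of i : GamB n 2 n 1)) ''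
      ({1, 2, 3, 4, 5} : Set (Fin 6)))) :
    w ∈ closure ((fun i => (PresentedGroup.of i : GamB n 2 n 1)) ''
      ({1, 2, 3, 4} : Set (Fin 6))) := by
  obtain ⟨φ, hφ⟩ := actN n
  have hcox := cox_gB n 2 n 1
  have hX := facet_one n 2 n 1 (by norm_num)
  have hg : ∀ i : Fin 6, (i : ℕ) < 5 → ∀ v,
      φ (gB n 2 n 1 i) (pq n v) = pq n (CGroupB.B i v) := by
    intro i _ v
    rw [gB_val]
    exact hφ i v
  have s1 : closure ((fun i => (PresentedGroup.of i : GamB n 2 n 1)) ''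
      ({0, 1, 2, 3, 4} : Set (Fin 6))) = closure {gB n 2 n 1 0, gB n 2 n 1 1, gB n 2 n 1 2,
        gB n 2 n 1 3, gB n 2 n 1 4} := by
    congr 1
    simp only [Set.image_insert_eq, Set.image_singleton]
    rfl
  have s2 : closure ((fun i => (PresentedGroup.of i : GamB n 2 n 1)) ''
      ({1, 2, 3, 4} : Set (Fin 6))) = closure {gB n 2 n 1 1, gB n 2 n 1 2,
        gB n 2 n 1 3, gB n 2 n 1 4} := by
    congr 1
    simp only [Set.image_insert_eq, Set.image_singleton]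
    rfl
  have s3 : closure ((fun i => (PresentedGroup.of i : GamB n 2 n 1)) ''
      ({1, 2, 3, 4} : Set (Fin 6))) ≤ closure ((fun i => (PresentedGroup.of i : GamB n 2 n 1)) ''
      ({1, 2, 3, 4, 5} : Set (Fin 6))) :=
    closure_mono (Set.image_mono (by
      intro x hx
      simp only [Set.mem_insert_iff, Set.mem_singleton_iff] at hx ⊢
      tauto))
  rw [s1] at h0
  obtain ⟨a, u, hu, rfl⟩ := WrdQ.decomp _ hcox h0
  rw [← s2] at hu
  have ha : pp (trq (gB n 2 n 1)) a ∈ closure ((fun i => (PresentedGroup.of i : GamB n 2 n 1)) ''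
      ({1, 2, 3, 4, 5} : Set (Fin 6))) := by
    have h5 := mul_mem h1 (inv_mem (s3 hu))
    rwa [mul_inv_cancel_right] at h5
  have hf : ∀ y ∈ closure ((fun i => (PresentedGroup.of i : GamB n 2 n 1)) ''
      ({1, 2, 3, 4, 5} : Set (Fin 6))), φ y (pq n ((0, 0, 0, 0), 0, 1)) =
        pq n ((0, 0, 0, 0), 0, 1) := by
    intro y hy
    induction hy using closure_induction with
    | mem y hy =>
      obtain ⟨i, hi, rfl⟩ := hy
      have h5 := hφ i ((0, 0, 0, 0), 0, 1)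
      have hi0 : i ≠ 0 := by
        rintro rfl
        simp at hi
      show φ (PresentedGroup.of i) _ = _
      rw [h5]
      exact congrArg (pq n) (CGroupB.fvB_fix 0 i hi0)
    | one => rw [map_one]; rfl
    | mul x y _ _ h1 h2 => rw [map_mul, Equiv.Perm.mul_apply, h2, h1]
    | inv x _ h1 => rw [map_inv, Equiv.Perm.inv_eq_iff_eq, h1]
  have hfa := hf _ ha
  rw [ppE φ (pq n) (gB n 2 n 1) hg] at hfa
  obtain ⟨c, c1, c2, c3⟩ := coord n hn a hfa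
  rw [pp_one _ hcox n hX a c c1 c2 c3, one_mul]
  exact hu

/-- The group `GamB n 2 n 1`, `n ≥ 3`, is a string C-group. -/
theorem scB2 (n : ℕ) (h3 : 3 ≤ n) :
    Function.Injective (PresentedGroup.of : Fin 6 → GamB n 2 n 1) ∧
    (∀ i, (PresentedGroup.of i : GamB n 2 n 1) ≠ 1) ∧
    ∀ I J : Set (Fin 6),
      Subgroup.closure ((PresentedGroup.of : Fin 6 → GamB n 2 n 1) '' I) ⊓
        Subgroup.closure ((PresentedGroup.of : Fin 6 → GamB n 2 n 1) '' J) =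
      (Subgroup.closure ((PresentedGroup.of : Fin 6 → GamB n 2 n 1) '' (I ∩ J)) :
        Subgroup (GamB n 2 n 1)) := by
  obtain ⟨φ, hφ⟩ := actN n
  exact ⟨CGroupB.injective φ (pq n) hφ (nearB_pq n h3),
    CGroupB.ne_one φ (pq n) hφ (nearB_pq n h3),
    CGroupB.interB (r := fun i => (PresentedGroup.of i : GamB n 2 n 1))
      (ExHom.of_coxB n 2 n 1) φ (pq n) hφ (nearB_pq n h3)
      (fun w h0 h1 => hinfN n (by omega) w h0 h1)⟩

end Pool.Agent.Lib.MP_c2d01e_co.Ex.QN6
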