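import Pool.Agent.Lib.MP_c2d01e_co.Fi.Core
import Pool.Agent.Lib.MP_c2d01e_co.EqDefs

/-!
# Family (C): the translations of the group of the vertex-figure

In a group with the Coxeter relations of `[3,4,3,3,4]` the group `⟨x 1, …, x 5⟩` is the product of
the group generated by four commuting conjugates of `T = x₁ x₂ x₃ x₄ x₅ x₄ x₃ x₂` and of `⟨x 1, …, x 4⟩`.
-/

set_option autoImplicit false

namespace Pool.Agent.Lib.MP_c2d01e_co.TrC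

open Fi EqDefs

/-- conjugating words -/
def gw : Fin 4 → List (Fin 6) := ![[], [2], [3, 2], [4, 3, 2]]

/-- the word of `T` -/
def wT : List (Fin 6) := [1, 2, 3, 4, 5, 4, 3, 2]

/-- words of the four translations -/
def tw (i : Fin 4) : List (Fin 6) := gw i ++ (wT ++ (gw i).reverse)

def mc : Fin 4 → Fin 4 → List (ℕ × Fin 6 × Fin 6) :=
    ![![[(15, 2, 2), (14, 3, 3), (13, 4, 4), (12, 5, 5), (11, 4, 4), (10, 3, 3), (9, 2, 2), (8,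
    1, 1), (7, 2, 2), (6, 3, 3), (5, 4, 4), (4, 5, 5), (3, 4, 4), (2, 3, 3), (1, 2, 2), (0, 1,
    1)], [(7, 2, 2), (14, 2, 2), (6, 3, 1), (7, 3, 2), (9, 2, 4), (10, 2, 5), (11, 2, 4), (12,
    2, 3), (14, 3, 3), (5, 4, 1), (6, 4, 2), (7, 4, 3), (9, 3, 5), (10, 3, 4), (12, 4, 2), (13,
    4, 4), (4, 5, 1), (5, 5, 2), (6, 5, 3), (7, 5, 4), (10, 5, 3), (11, 5, 2), (12, 5, 5), (3,
    4, 1), (4, 4, 2), (5, 4, 3), (7, 3, 5), (8, 3, 4), (10, 4, 2), (11, 4, 4), (2, 3, 1), (3,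
    3, 2), (5, 2, 4), (6, 2, 5), (7, 2, 4), (8, 2, 3), (10, 3, 3), (9, 2, 2), (0, 1, 2), (3, 1,
    3), (4, 1, 4), (5, 1, 5), (6, 1, 4), (7, 1, 3), (8, 1, 1), (8, 2, 2), (7, 3, 3), (6, 4, 4),
    (5, 5, 5), (4, 4, 4), (3, 3, 3), (2, 2, 2), (1, 1, 1), (0, 2, 2)], [(6, 3, 2), (8, 2, 2),
    (15, 2, 2), (14, 3, 3), (7, 3, 1), (8, 3, 2), (10, 2, 4), (11, 2, 5), (12, 2, 4), (13, 2,
    2), (5, 4, 2), (6, 4, 1), (7, 4, 2), (8, 4, 3), (10, 3, 5), (11, 3, 4), (13, 4, 4), (4, 5,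
    2), (5, 5, 1), (6, 5, 2), (7, 5, 3), (8, 5, 4), (11, 5, 3), (12, 5, 5), (3, 4, 2), (4, 4,
    1), (5, 4, 2), (6, 4, 3), (8, 3, 5), (9, 3, 4), (11, 4, 4), (10, 3, 3), (1, 2, 3), (3, 3,
    1), (4, 3, 2), (6, 2, 4), (7, 2, 5), (8, 2, 4), (9, 2, 2), (0, 1, 3), (1, 1, 2), (4, 1, 3),
    (5, 1, 4), (6, 1, 5), (7, 1, 4), (8, 1, 1), (9, 2, 2), (8, 3, 3), (7, 4, 4), (6, 5, 5), (5,
    4, 4), (4, 3, 3), (3, 2, 2), (2, 1, 1), (1, 2, 2), (0, 3, 3)], [(7, 2, 4), (5, 4, 3), (7,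
    3, 2), (9, 2, 2), (16, 2, 2), (15, 3, 3), (14, 4, 4), (8, 3, 1), (9, 3, 2), (11, 2, 4),
    (12, 2, 5), (13, 2, 2), (6, 4, 2), (7, 4, 1), (8, 4, 2), (9, 4, 3), (11, 3, 5), (12, 3, 3),
    (4, 5, 3), (5, 5, 2), (6, 5, 1), (7, 5, 2), (8, 5, 3), (9, 5, 4), (12, 5, 5), (11, 4, 4),
    (2, 3, 4), (4, 4, 2), (5, 4, 1), (6, 4, 2), (7, 4, 3), (9, 3, 5), (10, 3, 3), (1, 2, 4),
    (2, 2, 3), (4, 3, 1), (5, 3, 2), (7, 2, 4), (8, 2, 5), (9, 2, 2), (0, 1, 4), (1, 1, 3), (2,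
    1, 2), (5, 1, 3), (6, 1, 4), (7, 1, 5), (8, 1, 1), (10, 2, 2), (9, 3, 3), (8, 4, 4), (7, 5,
    5), (6, 4, 4), (5, 3, 3), (4, 2, 2), (3, 1, 1), (2, 2, 2), (1, 3, 3), (0, 4, 4)]], ![[(8,
    2, 2), (7, 3, 1), (8, 3, 2), (10, 2, 4), (11, 2, 5), (12, 2, 4), (6, 4, 1), (7, 4, 2), (8,
    4, 3), (10, 3, 5), (5, 5, 1), (6, 5, 2), (7, 5, 3), (4, 4, 1), (5, 4, 2), (3, 3, 1), (0, 2,
    1), (3, 2, 3), (5, 3, 4), (7, 4, 5), (10, 4, 3), (12, 3, 2), (14, 2, 2), (14, 2, 2), (13,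
    3, 3), (11, 4, 2), (12, 4, 4), (9, 5, 3), (10, 5, 2), (11, 5, 5), (6, 3, 5), (7, 3, 4), (9,
    4, 2), (10, 4, 4), (4, 2, 4), (5, 2, 5), (6, 2, 4), (7, 2, 3), (9, 3, 3), (8, 2, 2), (2, 1,
    3), (3, 1, 4), (4, 1, 5), (5, 1, 4), (6, 1, 3), (7, 1, 1), (7, 2, 2), (6, 3, 3), (5, 4, 4),
    (4, 5, 5), (3, 4, 4), (2, 3, 3), (1, 2, 2), (0, 1, 1)], [(8, 2, 2), (16, 2, 2), (16, 2, 2),
    (15, 3, 3), (14, 4, 4), (13, 5, 5), (12, 4, 4), (11, 3, 3), (10, 2, 2), (9, 1, 1), (8, 2,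
    2), (8, 2, 2), (7, 3, 3), (6, 4, 4), (5, 5, 5), (4, 4, 4), (3, 3, 3), (2, 2, 2), (1, 1, 1),
    (0, 2, 2)], [(8, 2, 2), (7, 3, 3), (15, 2, 2), (14, 3, 3), (14, 2, 2), (6, 4, 2), (7, 4,
    1), (8, 4, 2), (9, 4, 3), (11, 3, 5), (12, 3, 4), (14, 4, 4), (5, 5, 2), (6, 5, 1), (7, 5,
    2), (8, 5, 3), (9, 5, 4), (12, 5, 3), (13, 5, 5), (4, 4, 2), (5, 4, 1), (6, 4, 2), (7, 4,
    3), (9, 3, 5), (10, 3, 4), (12, 4, 4), (11, 3, 3), (2, 2, 3), (4, 3, 1), (5, 3, 2), (7, 2,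
    4), (8, 2, 5), (9, 2, 4), (10, 2, 2), (1, 1, 3), (2, 1, 2), (5, 1, 3), (6, 1, 4), (7, 1,
    5), (8, 1, 4), (9, 1, 1), (0, 2, 3), (2, 3, 1), (3, 3, 2), (5, 2, 4), (6, 2, 5), (7, 2, 4),
    (8, 2, 2), (9, 2, 2), (8, 3, 3), (7, 4, 4), (6, 5, 5), (5, 4, 4), (4, 3, 3), (3, 2, 2), (2,
    1, 1), (1, 2, 2), (0, 3, 3)], [(8, 2, 2), (6, 4, 3), (8, 3, 3), (16, 2, 2), (15, 3, 3),
    (14, 4, 4), (14, 2, 2), (7, 4, 2), (8, 4, 1), (9, 4, 2), (10, 4, 3), (12, 3, 5), (13, 3,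
    3), (5, 5, 3), (6, 5, 2), (7, 5, 1), (8, 5, 2), (9, 5, 3), (10, 5, 4), (13, 5, 5), (12, 4,
    4), (3, 3, 4), (5, 4, 2), (6, 4, 1), (7, 4, 2), (8, 4, 3), (10, 3, 5), (11, 3, 3), (2, 2,
    4), (3, 2, 3), (5, 3, 1), (6, 3, 2), (8, 2, 4), (9, 2, 5), (10, 2, 2), (1, 1, 4), (2, 1,
    3), (3, 1, 2), (6, 1, 3), (7, 1, 4), (8, 1, 5), (9, 1, 1), (0, 2, 4), (1, 2, 3), (3, 3, 1),
    (4, 3, 2), (6, 2, 4), (7, 2, 5), (8, 2, 2), (10, 2, 2), (9, 3, 3), (8, 4, 4), (7, 5, 5),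
    (6, 4, 4), (5, 3, 3), (4, 2, 2), (3, 1, 1), (2, 2, 2), (1, 3, 3), (0, 4, 4)]], ![[(9, 2,
    2), (8, 3, 3), (7, 4, 1), (8, 4, 2), (9, 4, 3), (11, 3, 5), (6, 5, 1), (7, 5, 2), (8, 5,
    3), (5, 4, 1), (6, 4, 2), (4, 3, 1), (1, 2, 1), (4, 2, 3), (6, 3, 4), (8, 4, 5), (11, 4,
    3), (13, 3, 3), (15, 2, 2), (14, 3, 3), (12, 4, 2), (13, 4, 4), (10, 5, 3), (11, 5, 2),
    (12, 5, 5), (7, 3, 5), (8, 3, 4), (10, 4, 2), (11, 4, 4), (5, 2, 4), (6, 2, 5), (7, 2, 4),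
    (8, 2, 3), (10, 3, 3), (9, 2, 2), (3, 1, 3), (4, 1, 4), (5, 1, 5), (6, 1, 4), (7, 1, 3),
    (8, 1, 1), (0, 3, 1), (1, 3, 2), (3, 2, 4), (4, 2, 5), (5, 2, 4), (6, 2, 3), (8, 3, 3), (7,
    2, 2), (6, 3, 3), (5, 4, 4), (4, 5, 5), (3, 4, 4), (2, 3, 3), (1, 2, 2), (0, 1, 1)], [(9,
    2, 2), (8, 3, 3), (7, 4, 2), (8, 4, 1), (9, 4, 2), (10, 4, 3), (12, 3, 5), (6, 5, 2), (7,
    5, 1), (8, 5, 2), (9, 5, 3), (5, 4, 2), (6, 4, 1), (7, 4, 2), (3, 2, 3), (5, 3, 1), (2, 1,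
    3), (0, 3, 2), (2, 2, 1), (5, 2, 3), (7, 3, 4), (9, 4, 5), (12, 4, 3), (14, 3, 3), (14, 2,
    2), (15, 2, 2), (14, 3, 3), (13, 4, 4), (11, 5, 3), (12, 5, 5), (8, 3, 5), (9, 3, 4), (11,
    4, 4), (10, 3, 3), (6, 2, 4), (7, 2, 5), (8, 2, 4), (9, 2, 2), (4, 1, 3), (5, 1, 4), (6, 1,
    5), (7, 1, 4), (8, 1, 1), (1, 3, 1), (2, 3, 2), (4, 2, 4), (5, 2, 5), (6, 2, 4), (7, 2, 2),
    (8, 2, 2), (7, 3, 3), (6, 4, 4), (5, 5, 5), (4, 4, 4), (3, 3, 3), (2, 2, 2), (1, 1, 1), (0,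
    2, 2)], [(9, 2, 2), (8, 3, 3), (17, 2, 2), (16, 3, 3), (17, 2, 2), (16, 3, 3), (15, 4, 4),
    (14, 5, 5), (13, 4, 4), (12, 3, 3), (11, 2, 2), (10, 1, 1), (9, 2, 2), (8, 3, 3), (9, 2,
    2), (8, 3, 3), (7, 4, 4), (6, 5, 5), (5, 4, 4), (4, 3, 3), (3, 2, 2), (2, 1, 1), (1, 2, 2),
    (0, 3, 3)], [(9, 2, 2), (8, 3, 3), (7, 4, 4), (16, 2, 2), (15, 3, 3), (14, 4, 4), (15, 2,
    2), (14, 3, 3), (6, 5, 3), (7, 5, 2), (8, 5, 1), (9, 5, 2), (10, 5, 3), (11, 5, 4), (14, 5,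
    5), (13, 4, 4), (4, 3, 4), (6, 4, 2), (7, 4, 1), (8, 4, 2), (9, 4, 3), (11, 3, 5), (12, 3,
    3), (3, 2, 4), (4, 2, 3), (6, 3, 1), (7, 3, 2), (9, 2, 4), (10, 2, 5), (11, 2, 2), (2, 1,
    4), (3, 1, 3), (4, 1, 2), (7, 1, 3), (8, 1, 4), (9, 1, 5), (10, 1, 1), (1, 2, 4), (2, 2,
    3), (4, 3, 1), (5, 3, 2), (7, 2, 4), (8, 2, 5), (9, 2, 2), (0, 3, 4), (2, 4, 2), (3, 4, 1),
    (4, 4, 2), (5, 4, 3), (7, 3, 5), (8, 3, 3), (10, 2, 2), (9, 3, 3), (8, 4, 4), (7, 5, 5),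
    (6, 4, 4), (5, 3, 3), (4, 2, 2), (3, 1, 1), (2, 2, 2), (1, 3, 3), (0, 4, 4)]], ![[(10, 2,
    2), (9, 3, 3), (8, 4, 4), (7, 5, 1), (8, 5, 2), (9, 5, 3), (6, 4, 1), (7, 4, 2), (5, 3, 1),
    (2, 2, 1), (5, 2, 3), (7, 3, 4), (9, 4, 5), (12, 4, 4), (16, 2, 2), (15, 3, 3), (14, 4, 4),
    (11, 5, 3), (12, 5, 2), (13, 5, 5), (8, 3, 5), (9, 3, 4), (11, 4, 2), (12, 4, 4), (6, 2,
    4), (7, 2, 5), (8, 2, 4), (9, 2, 3), (11, 3, 3), (10, 2, 2), (4, 1, 3), (5, 1, 4), (6, 1,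
    5), (7, 1, 4), (8, 1, 3), (9, 1, 1), (1, 3, 1), (2, 3, 2), (4, 2, 4), (5, 2, 5), (6, 2, 4),
    (7, 2, 3), (9, 3, 3), (0, 4, 1), (1, 4, 2), (2, 4, 3), (4, 3, 5), (5, 3, 4), (7, 4, 2), (8,
    4, 4), (7, 2, 2), (6, 3, 3), (5, 4, 4), (4, 5, 5), (3, 4, 4), (2, 3, 3), (1, 2, 2), (0, 1,
    1)], [(10, 2, 2), (9, 3, 3), (8, 4, 4), (7, 5, 2), (8, 5, 1), (9, 5, 2), (10, 5, 3), (6, 4,
    2), (7, 4, 1), (8, 4, 2), (4, 2, 3), (6, 3, 1), (3, 1, 3), (1, 3, 2), (3, 2, 1), (6, 2, 3),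
    (8, 3, 4), (10, 4, 5), (13, 4, 4), (14, 2, 2), (16, 2, 2), (15, 3, 3), (14, 4, 4), (12, 5,
    3), (13, 5, 5), (9, 3, 5), (10, 3, 4), (12, 4, 4), (11, 3, 3), (7, 2, 4), (8, 2, 5), (9, 2,
    4), (10, 2, 2), (5, 1, 3), (6, 1, 4), (7, 1, 5), (8, 1, 4), (9, 1, 1), (2, 3, 1), (3, 3,
    2), (5, 2, 4), (6, 2, 5), (7, 2, 4), (8, 2, 2), (0, 4, 2), (1, 4, 1), (2, 4, 2), (3, 4, 3),
    (5, 3, 5), (6, 3, 4), (8, 4, 4), (8, 2, 2), (7, 3, 3), (6, 4, 4), (5, 5, 5), (4, 4, 4), (3,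
    3, 3), (2, 2, 2), (1, 1, 1), (0, 2, 2)], [(10, 2, 2), (9, 3, 3), (8, 4, 4), (7, 5, 3), (8,
    5, 2), (9, 5, 1), (10, 5, 2), (11, 5, 3), (5, 3, 4), (7, 4, 2), (8, 4, 1), (9, 4, 2), (4,
    2, 4), (5, 2, 3), (7, 3, 1), (3, 1, 4), (4, 1, 3), (2, 2, 4), (0, 4, 3), (2, 3, 2), (4, 2,
    1), (7, 2, 3), (9, 3, 4), (11, 4, 5), (14, 4, 4), (15, 2, 2), (14, 3, 3), (16, 2, 2), (15,
    3, 3), (14, 4, 4), (13, 5, 5), (12, 4, 4), (10, 3, 5), (11, 3, 3), (8, 2, 4), (9, 2, 5),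
    (10, 2, 2), (6, 1, 3), (7, 1, 4), (8, 1, 5), (9, 1, 1), (3, 3, 1), (4, 3, 2), (6, 2, 4),
    (7, 2, 5), (8, 2, 2), (1, 4, 2), (2, 4, 1), (3, 4, 2), (4, 4, 3), (6, 3, 5), (7, 3, 3), (9,
    2, 2), (8, 3, 3), (7, 4, 4), (6, 5, 5), (5, 4, 4), (4, 3, 3), (3, 2, 2), (2, 1, 1), (1, 2,
    2), (0, 3, 3)], [(10, 2, 2), (9, 3, 3), (8, 4, 4), (18, 2, 2), (17, 3, 3), (16, 4, 4), (18,
    2, 2), (17, 3, 3), (16, 4, 4), (15, 5, 5), (14, 4, 4), (13, 3, 3), (12, 2, 2), (11, 1, 1),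
    (10, 2, 2), (9, 3, 3), (8, 4, 4), (10, 2, 2), (9, 3, 3), (8, 4, 4), (7, 5, 5), (6, 4, 4),
    (5, 3, 3), (4, 2, 2), (3, 1, 1), (2, 2, 2), (1, 3, 3), (0, 4, 4)]]]

theorem okC : ∀ i j : Fin 4, run coxC ((tw i ++ tw j) ++ (tw j ++ tw i).reverse) (mc i j) =
    some [] := by
  decide +kernel

/-- conjugates of the translations as products -/
def cj : Fin 4 → Fin 4 → List (Fin 4 × Bool) :=
    ![![[(0, false)], [(1, true)], [(2, true)], [(3, true)]], ![[(1, true)], [(0, true)], [(2,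
    true)], [(3, true)]], ![[(0, true)], [(2, true)], [(1, true)], [(3, true)]], ![[(0, true)],
    [(1, true)], [(3, true)], [(2, true)]]]

def mk : Fin 4 → Fin 4 → List (ℕ × Fin 6 × Fin 6) :=
    ![![[(0, 1, 1), (7, 1, 1), (6, 2, 2), (5, 3, 3), (4, 4, 4), (3, 5, 5), (2, 4, 4), (1, 3,
    3), (0, 2, 2)], [(9, 2, 2), (0, 1, 2), (3, 1, 3), (4, 1, 4), (5, 1, 5), (6, 1, 4), (7, 1,
    3), (8, 1, 1), (8, 2, 2), (7, 3, 3), (6, 4, 4), (5, 5, 5), (4, 4, 4), (3, 3, 3), (2, 2, 2),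
    (1, 1, 1), (0, 2, 2)], [(10, 2, 2), (9, 3, 3), (0, 1, 3), (1, 1, 2), (4, 1, 3), (5, 1, 4),
    (6, 1, 5), (7, 1, 4), (8, 1, 1), (9, 2, 2), (8, 3, 3), (7, 4, 4), (6, 5, 5), (5, 4, 4), (4,
    3, 3), (3, 2, 2), (2, 1, 1), (1, 2, 2), (0, 3, 3)], [(11, 2, 2), (10, 3, 3), (9, 4, 4), (0,
    1, 4), (1, 1, 3), (2, 1, 2), (5, 1, 3), (6, 1, 4), (7, 1, 5), (8, 1, 1), (10, 2, 2), (9, 3,
    3), (8, 4, 4), (7, 5, 5), (6, 4, 4), (5, 3, 3), (4, 2, 2), (3, 1, 1), (2, 2, 2), (1, 3, 3),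
    (0, 4, 4)]], ![[(8, 2, 2), (8, 2, 2), (7, 3, 3), (6, 4, 4), (5, 5, 5), (4, 4, 4), (3, 3,
    3), (2, 2, 2), (1, 1, 1), (0, 2, 2)], [(0, 2, 2), (7, 2, 2), (7, 2, 2), (6, 3, 3), (5, 4,
    4), (4, 5, 5), (3, 4, 4), (2, 3, 3), (1, 2, 2), (0, 1, 1)], [(10, 2, 2), (9, 3, 3), (0, 2,
    3), (2, 3, 1), (3, 3, 2), (5, 2, 4), (6, 2, 5), (7, 2, 4), (8, 2, 2), (9, 2, 2), (8, 3, 3),
    (7, 4, 4), (6, 5, 5), (5, 4, 4), (4, 3, 3), (3, 2, 2), (2, 1, 1), (1, 2, 2), (0, 3, 3)],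
    [(11, 2, 2), (10, 3, 3), (9, 4, 4), (0, 2, 4), (1, 2, 3), (3, 3, 1), (4, 3, 2), (6, 2, 4),
    (7, 2, 5), (8, 2, 2), (10, 2, 2), (9, 3, 3), (8, 4, 4), (7, 5, 5), (6, 4, 4), (5, 3, 3),
    (4, 2, 2), (3, 1, 1), (2, 2, 2), (1, 3, 3), (0, 4, 4)]], ![[(0, 3, 1), (1, 3, 2), (3, 2,
    4), (4, 2, 5), (5, 2, 4), (6, 2, 3), (8, 3, 3), (7, 2, 2), (6, 3, 3), (5, 4, 4), (4, 5, 5),
    (3, 4, 4), (2, 3, 3), (1, 2, 2), (0, 1, 1)], [(9, 2, 2), (8, 3, 3), (9, 2, 2), (8, 3, 3),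
    (7, 4, 4), (6, 5, 5), (5, 4, 4), (4, 3, 3), (3, 2, 2), (2, 1, 1), (1, 2, 2), (0, 3, 3)],
    [(0, 3, 3), (8, 2, 2), (7, 3, 3), (8, 2, 2), (7, 3, 3), (6, 4, 4), (5, 5, 5), (4, 4, 4),
    (3, 3, 3), (2, 2, 2), (1, 1, 1), (0, 2, 2)], [(11, 2, 2), (10, 3, 3), (9, 4, 4), (0, 3, 4),
    (2, 4, 2), (3, 4, 1), (4, 4, 2), (5, 4, 3), (7, 3, 5), (8, 3, 3), (10, 2, 2), (9, 3, 3),
    (8, 4, 4), (7, 5, 5), (6, 4, 4), (5, 3, 3), (4, 2, 2), (3, 1, 1), (2, 2, 2), (1, 3, 3), (0,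
    4, 4)]], ![[(0, 4, 1), (1, 4, 2), (2, 4, 3), (4, 3, 5), (5, 3, 4), (7, 4, 2), (8, 4, 4),
    (7, 2, 2), (6, 3, 3), (5, 4, 4), (4, 5, 5), (3, 4, 4), (2, 3, 3), (1, 2, 2), (0, 1, 1)],
    [(9, 2, 2), (0, 4, 2), (1, 4, 1), (2, 4, 2), (3, 4, 3), (5, 3, 5), (6, 3, 4), (8, 4, 4),
    (8, 2, 2), (7, 3, 3), (6, 4, 4), (5, 5, 5), (4, 4, 4), (3, 3, 3), (2, 2, 2), (1, 1, 1), (0,
    2, 2)], [(10, 2, 2), (9, 3, 3), (8, 4, 4), (10, 2, 2), (9, 3, 3), (8, 4, 4), (7, 5, 5), (6,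
    4, 4), (5, 3, 3), (4, 2, 2), (3, 1, 1), (2, 2, 2), (1, 3, 3), (0, 4, 4)], [(0, 4, 4), (9,
    2, 2), (8, 3, 3), (7, 4, 4), (9, 2, 2), (8, 3, 3), (7, 4, 4), (6, 5, 5), (5, 4, 4), (4, 3,
    3), (3, 2, 2), (2, 1, 1), (1, 2, 2), (0, 3, 3)]]]

/-- word of a product of translations -/
def fl : List (Fin 4 × Bool) → List (Fin 6)
  | [] => []
  | p :: l => (if p.2 then tw p.1 else (tw p.1).reverse) ++ fl l

/-- the letter of `k` -/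
def lt (k : Fin 4) : Fin 6 := ![1, 2, 3, 4] k

theorem okK : ∀ k i : Fin 4, run coxC ((lt k :: (tw i ++ [lt k])) ++ (fl (cj k i)).reverse) (mk k i) =
    some [] := by
  decide +kernel

/-- the words of the relators of `(u,u,u,u)` and `(u,u,0,0)` -/
def wV4 : List (Fin 6) := [1, 2, 3, 4, 5, 1, 2, 3, 4, 5, 1, 2, 3, 4, 5, 1, 2, 3, 4, 5]
def wV2 : List (Fin 6) := [1, 2, 3, 4, 5, 4, 3, 1, 2, 3, 4, 5, 4, 3]
def l4 : List (Fin 4 × Bool) := [(0, true), (1, true), (2, true), (3, true)]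
def l2 : List (Fin 4 × Bool) := [(0, true), (1, true)]
def m4 : List (ℕ × Fin 6 × Fin 6) :=
    [(22, 2, 2), (21, 3, 3), (20, 4, 4), (19, 5, 5), (18, 4, 4), (17, 3, 3), (16, 2, 2), (15,
    1, 1), (19, 2, 2), (18, 3, 3), (17, 4, 4), (14, 5, 2), (15, 5, 3), (16, 5, 5), (13, 4, 2),
    (11, 2, 3), (13, 3, 4), (15, 4, 4), (14, 3, 3), (12, 2, 4), (13, 2, 2), (10, 1, 3), (11, 1,
    4), (12, 1, 1), (14, 2, 2), (13, 3, 3), (11, 4, 2), (12, 4, 4), (9, 5, 3), (10, 5, 2), (11,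
    5, 5), (7, 3, 4), (9, 4, 2), (10, 4, 4), (6, 2, 4), (7, 2, 3), (9, 3, 3), (8, 2, 2), (5, 1,
    4), (6, 1, 3), (7, 1, 1), (7, 2, 2), (6, 3, 3), (5, 4, 4), (4, 5, 5), (3, 4, 4), (2, 3, 3),
    (1, 2, 2), (0, 1, 1)]
def m2 : List (ℕ × Fin 6 × Fin 6) :=
    [(14, 2, 2), (13, 3, 3), (12, 4, 4), (11, 5, 5), (10, 4, 4), (9, 3, 3), (8, 2, 2), (7, 1,
    1), (7, 2, 2), (6, 3, 3), (5, 4, 4), (4, 5, 5), (3, 4, 4), (2, 3, 3), (1, 2, 2), (0, 1, 1)]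

theorem ok4 : run coxC (wV4 ++ (fl l4).reverse) m4 = some [] := by
  decide +kernel

theorem ok2 : run coxC (wV2 ++ (fl l2).reverse) m2 = some [] := by
  decide +kernel

variable {G : Type} [Group G] {x : Fin 6 → G}

/-- the translations -/
def t (x : Fin 6 → G) (i : Fin 4) : G := lp x (tw i)

theorem t_eq (h : Cx coxC x) (i : Fin 4) : t x i = lp x (gw i) * lp x wT * (lp x (gw i))⁻¹ := by
  rw [t, tw, lp_append, lp_append, lp_rev h, mul_assoc]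

theorem t_comm (h : Cx coxC x) (i j : Fin 4) : Commute (t x i) (t x j) := by
  have h1 := eq_of_run h _ (okC i j)
  rw [lp_append, lp_append] at h1
  exact h1

/-- the group of the translations -/
def A (x : Fin 6 → G) : Subgroup G := Subgroup.closure (Set.range (t x))

theorem fl_mem (h : Cx coxC x) (l : List (Fin 4 × Bool)) : lp x (fl l) ∈ A x := by
  induction l with
  | nil => exact (A x).one_mem
  | cons p l ih =>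
    rw [fl, lp_append]
    refine (A x).mul_mem ?_ ih
    split_ifs
    · exact Subgroup.subset_closure ⟨p.1, rfl⟩
    · rw [lp_rev h]
      exact (A x).inv_mem (Subgroup.subset_closure ⟨p.1, rfl⟩)

theorem conj_lt (h : Cx coxC x) (k : Fin 4) (a : G) (ha : a ∈ A x) :
    x (lt k) * a * (x (lt k))⁻¹ ∈ A x := by
  induction ha using Subgroup.closure_induction with
  | mem y hy =>
    obtain ⟨i, rfl⟩ := hy
    have h1 := eq_of_run h _ (okK k i)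
    rw [lp_cons, lp_append, lp_cons, lp_nil, mul_one, ← mul_assoc] at h1
    have h2 : (x (lt k))⁻¹ = x (lt k) := inv_eq_of_mul_eq_one_left (h.sq _)
    rw [h2]
    have h3 : x (lt k) * t x i * x (lt k) = lp x (fl (cj k i)) := h1
    rw [h3]
    exact fl_mem h _
  | one =>
    rw [mul_one, mul_inv_cancel]
    exact (A x).one_mem
  | mul y z _ _ hy hz =>
    have := (A x).mul_mem hy hz
    have e : x (lt k) * y * (x (lt k))⁻¹ * (x (lt k) * z * (x (lt k))⁻¹) =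
        x (lt k) * (y * z) * (x (lt k))⁻¹ := by group
    rwa [e] at this
  | inv y _ hy =>
    have := (A x).inv_mem hy
    have e : (x (lt k) * y * (x (lt k))⁻¹)⁻¹ = x (lt k) * y⁻¹ * (x (lt k))⁻¹ := by group
    rwa [e] at this

/-- the group `⟨x 1, …, x 4⟩` -/
def W (x : Fin 6 → G) : Subgroup G := Subgroup.closure (x '' {1, 2, 3, 4})

theorem mem_lt {k : Fin 6} (hk : k ∈ ({1, 2, 3, 4} : Set (Fin 6))) : ∃ i : Fin 4, k = lt i := by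
  rcases hk with h | h | h | h
  · exact ⟨0, h⟩
  · exact ⟨1, h⟩
  · exact ⟨2, h⟩
  · exact ⟨3, h⟩

theorem conj_W (h : Cx coxC x) (w : G) (hw : w ∈ W x) : ∀ a ∈ A x, w * a * w⁻¹ ∈ A x := by
  induction hw using Subgroup.closure_induction_left with
  | one =>
    intro a ha
    rwa [one_mul, inv_one, mul_one]
  | mul_left y hy z _ ih =>
    obtain ⟨k, hk, rfl⟩ := hy
    obtain ⟨i, rfl⟩ := mem_lt hk
    intro a ha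
    have := conj_lt h i _ (ih a ha)
    have e : x (lt i) * (z * a * z⁻¹) * (x (lt i))⁻¹ = x (lt i) * z * a * (x (lt i) * z)⁻¹ := by
      group
    rwa [e] at this
  | inv_mul_cancel y hy z _ ih =>
    obtain ⟨k, hk, rfl⟩ := hy
    obtain ⟨i, rfl⟩ := mem_lt hk
    intro a ha
    have := conj_lt h i _ (ih a ha)
    have e : x (lt i) * (z * a * z⁻¹) * (x (lt i))⁻¹ =
        (x (lt i))⁻¹ * z * a * ((x (lt i))⁻¹ * z)⁻¹ := by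
      have h2 : (x (lt i))⁻¹ = x (lt i) := inv_eq_of_mul_eq_one_left (h.sq _)
      rw [mul_inv_rev, inv_inv, h2]
      group
    rwa [e] at this

/-- the words `x₁ x₂ x₃ x₄` and `x₄ x₃ x₂` -/
def wu : List (Fin 6) := [1, 2, 3, 4]
def wv : List (Fin 6) := [4, 3, 2]

theorem word_mem (x : Fin 6 → G) (u : List (Fin 6))
    (h : ∀ k ∈ u, k ∈ ({1, 2, 3, 4} : Set (Fin 6))) : lp x u ∈ W x := by
  induction u with
  | nil => exact (W x).one_mem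
  | cons k u ih =>
    rw [lp_cons]
    exact (W x).mul_mem (Subgroup.subset_closure ⟨k, h k (by simp), rfl⟩)
      (ih fun j hj => h j (by simp [hj]))

theorem wu_mem (x : Fin 6 → G) : lp x wu ∈ W x := by
  refine word_mem x _ fun k hk => ?_
  simp [wu] at hk
  simp
  tauto

theorem wv_mem (x : Fin 6 → G) : lp x wv ∈ W x := by
  refine word_mem x _ fun k hk => ?_
  simp [wv] at hk
  simp
  tauto

theorem x5_eq (h : Cx coxC x) : x 5 = (lp x wu)⁻¹ * t x 0 * (lp x wv)⁻¹ := by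
  rw [eq_mul_inv_iff_mul_eq, eq_inv_mul_iff_mul_eq, t_eq h]
  have e1 : gw 0 = [] := rfl
  have e2 : wT = wu ++ (5 :: wv) := rfl
  rw [e1, e2, lp_nil, one_mul, inv_one, mul_one, lp_append, lp_cons]

theorem decomp (h : Cx coxC x) (g : G) (hg : g ∈ Subgroup.closure (x '' {1, 2, 3, 4, 5})) :
    ∃ a ∈ A x, ∃ w ∈ W x, g = a * w := by
  have key : ∀ k : Fin 6, k ∈ ({1, 2, 3, 4, 5} : Set (Fin 6)) → ∀ a ∈ A x, ∀ w ∈ W x,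
      ∃ a' ∈ A x, ∃ w' ∈ W x, x k * (a * w) = a' * w' := by
    intro k hk a ha w hw
    have hk' : k = 5 ∨ k ∈ ({1, 2, 3, 4} : Set (Fin 6)) := by
      rcases hk with h | h | h | h | h
      · exact Or.inr (Or.inl h)
      · exact Or.inr (Or.inr (Or.inl h))
      · exact Or.inr (Or.inr (Or.inr (Or.inl h)))
      · exact Or.inr (Or.inr (Or.inr (Or.inr h)))
      · exact Or.inl h
    rcases hk' with h0 | hk
    · subst h0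
      refine ⟨((lp x wu)⁻¹ * t x 0 * ((lp x wu)⁻¹)⁻¹) *
        (((lp x wu)⁻¹ * (lp x wv)⁻¹) * a * ((lp x wu)⁻¹ * (lp x wv)⁻¹)⁻¹), (A x).mul_mem
        (conj_W h _ ((W x).inv_mem (wu_mem x)) _ (Subgroup.subset_closure ⟨0, rfl⟩))
        (conj_W h _ ((W x).mul_mem ((W x).inv_mem (wu_mem x)) ((W x).inv_mem (wv_mem x))) a ha),
        (lp x wu)⁻¹ * (lp x wv)⁻¹ * w, (W x).mul_mem ((W x).mul_mem ((W x).inv_mem (wu_mem x))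
          ((W x).inv_mem (wv_mem x))) hw, ?_⟩
      rw [x5_eq h]
      group
    · obtain ⟨i, rfl⟩ := mem_lt hk
      refine ⟨x (lt i) * a * (x (lt i))⁻¹, conj_lt h i a ha, x (lt i) * w,
        (W x).mul_mem (Subgroup.subset_closure ⟨_, hk, rfl⟩) hw, ?_⟩
      group
  induction hg using Subgroup.closure_induction_left with
  | one => exact ⟨1, (A x).one_mem, 1, (W x).one_mem, (one_mul 1).symm⟩
  | mul_left y hy z _ ih =>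
    obtain ⟨k, hk, rfl⟩ := hy
    obtain ⟨a, ha, w, hw, rfl⟩ := ih
    exact key k hk a ha w hw
  | inv_mul_cancel y hy z _ ih =>
    obtain ⟨k, hk, rfl⟩ := hy
    obtain ⟨a, ha, w, hw, rfl⟩ := ih
    rw [inv_eq_of_mul_eq_one_left (h.sq _)]
    exact key k hk a ha w hw

theorem A_zpow (h : Cx coxC x) (a : G) (ha : a ∈ A x) : ∃ c : Fin 4 → ℤ,
    a = t x 0 ^ c 0 * t x 1 ^ c 1 * t x 2 ^ c 2 * t x 3 ^ c 3 := by
  have hc : ∀ (i j : Fin 4) (m n : ℤ), Commute (t x i ^ m) (t x j ^ n) := fun i j m n =>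
    (t_comm h i j).zpow_zpow m n
  induction ha using Subgroup.closure_induction with
  | mem y hy =>
    obtain ⟨i, rfl⟩ := hy
    refine ⟨Pi.single i 1, ?_⟩
    fin_cases i <;> simp
  | one => exact ⟨0, by simp⟩
  | mul y z _ _ hy hz =>
    obtain ⟨c, rfl⟩ := hy
    obtain ⟨d, rfl⟩ := hz
    refine ⟨c + d, ?_⟩
    have c1 : Commute (t x 3 ^ c 3) (t x 0 ^ d 0 * t x 1 ^ d 1 * t x 2 ^ d 2) :=
      ((hc 3 0 _ _).mul_right (hc 3 1 _ _)).mul_right (hc 3 2 _ _)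
    have c2 : Commute (t x 2 ^ c 2) (t x 0 ^ d 0 * t x 1 ^ d 1) :=
      (hc 2 0 _ _).mul_right (hc 2 1 _ _)
    rw [c1.mul_mul_mul_comm, c2.mul_mul_mul_comm, (hc 1 0 (c 1) (d 0)).mul_mul_mul_comm]
    simp only [Pi.add_apply, zpow_add]
  | inv y _ hy =>
    obtain ⟨c, rfl⟩ := hy
    refine ⟨-c, ?_⟩
    have c1 : Commute (t x 0 ^ c 0 * t x 1 ^ c 1 * t x 2 ^ c 2) (t x 3 ^ c 3) :=
      ((hc 0 3 _ _).mul_left (hc 1 3 _ _)).mul_left (hc 2 3 _ _)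
    have c2 : Commute (t x 0 ^ c 0 * t x 1 ^ c 1) (t x 2 ^ c 2) :=
      (hc 0 2 _ _).mul_left (hc 1 2 _ _)
    rw [c1.mul_inv, c2.mul_inv, (hc 0 1 (c 0) (c 1)).mul_inv]
    simp only [Pi.neg_apply, zpow_neg]

/-- **The group of the vertex-figure**: a product of translations and of `⟨x 1, …, x 4⟩`. -/
theorem main (h : Cx coxC x) (g : G) (hg : g ∈ Subgroup.closure (x '' {1, 2, 3, 4, 5})) :
    ∃ c : Fin 4 → ℤ, ∃ w ∈ Subgroup.closure (x '' {1, 2, 3, 4}),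
      g = t x 0 ^ c 0 * t x 1 ^ c 1 * t x 2 ^ c 2 * t x 3 ^ c 3 * w := by
  obtain ⟨a, ha, w, hw, rfl⟩ := decomp h g hg
  obtain ⟨c, hc⟩ := A_zpow h a ha
  exact ⟨c, w, hw, by rw [← hc]⟩

/-- The order of the translations. -/
theorem t_pow (h : Cx coxC x) {n : ℕ} (hn : lp x wT ^ n = 1) (i : Fin 4) : t x i ^ n = 1 := by
  rw [t_eq h, conj_pow, hn]
  simp

theorem V4_eq (h : Cx coxC x) : lp x wV4 = lp x (fl l4) := eq_of_run h m4 ok4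

theorem V2_eq (h : Cx coxC x) : lp x wV2 = lp x (fl l2) := eq_of_run h m2 ok2

end Pool.Agent.Lib.MP_c2d01e_co.TrC
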