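import Pool.Agent.Lib.MP_c2d01e_co.Ex.EmbVCq

/-!
# The vertex-figure groups of family (C), Q-type, embed for `n = 2`

The stabilizer argument with the separation needed only on the orbit of the certificate.
-/

set_option autoImplicit false

namespace Pool.Agent.Lib.MP_c2d01e_co.Two26

open Subgroup EqDefs CGroupC ExC

section emb

variable {G : Type*} [Group G] {r : Fin 6 → G}

variable {S : Finset (Fin 6)} (hr : ∀ i ∈ S, ∀ j ∈ S, (r i * r j) ^ coxC i j = 1)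
include hr

/-- The stabilizer of `fvC i` in a parabolic subgroup in which `i` has a finite component. -/
theorem stab2 {X : Type*} (φ : G →* Equiv.Perm X) (π : V → X)
    (hφ : ∀ i ∈ S, ∀ v, φ (r i) (π v) = π (C i v))
    (J : Finset (Fin 6)) (hJS : J ⊆ S) (a b i : Fin 6)
    (hπ : ∀ l ∈ List.range (orb a b i).length, l ≠ 0 → π (vec (orb a b i) l) ≠ π (fvC i))
    (hai : a ≤ i) (hib : i ≤ b) (hcert : cert a b i = true) (hJ1 : ∀ g, a ≤ g → g ≤ b → g ∈ J)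
    (hJ2 : ∀ g ∈ J, (a ≤ g ∧ g ≤ b) ∨ (g : ℕ) + 1 < a ∨ (b : ℕ) + 1 < g) (w : G)
    (hw : w ∈ closure (r '' (J : Set (Fin 6)))) (hfix : φ w (π (fvC i)) = π (fvC i)) :
    w ∈ closure (r '' ((J.erase i : Finset (Fin 6)) : Set (Fin 6))) := by
  set K := closure (r '' ((J.erase i : Finset (Fin 6)) : Set (Fin 6))) with hKdef
  have hL := ct_of_cert hcert
  set L := orb a b i with hLdef
  have hrK : ∀ g ∈ J, g ≠ i → r g ∈ K := fun g hg hgi =>
    subset_closure ⟨g, by simp [hg, hgi], rfl⟩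
  have hgens : ∀ g : Fin 6, g ∈ gens a b ↔ a ≤ g ∧ g ≤ b := by
    intro g; simp [gens]
  have hK : ∀ g ∈ gens a b, g ≠ i → r g ∈ K := fun g hg hgi =>
    hrK g (hJ1 g ((hgens g).1 hg).1 ((hgens g).1 hg).2) hgi
  have hS : ∀ g ∈ gens a b, g ∈ S := fun g hg =>
    hJS (hJ1 g ((hgens g).1 hg).1 ((hgens g).1 hg).2)
  have hinvr : ∀ g ∈ J, (r g)⁻¹ = r g := fun g hg => by
    rw [inv_eq_iff_mul_eq_one]; exact sq hr g (hJS hg)
  have key : ∃ l < L.length, w • cc r L K 0 = cc r L K l ∧ φ w (π (vec L 0)) = π (vec L l) := by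
    have stp : ∀ g ∈ J, ∀ y : G,
        (∃ l < L.length, y • cc r L K 0 = cc r L K l ∧ φ y (π (vec L 0)) = π (vec L l)) →
        ∃ l < L.length, (r g * y) • cc r L K 0 = cc r L K l ∧
          φ (r g * y) (π (vec L 0)) = π (vec L l) := by
      rintro g hg y ⟨l, hl, h1, h2⟩
      rcases hJ2 g hg with h3 | h3
      · have hgg := (hgens g).2 h3
        refine ⟨T L l g, hL.lt l hl g hgg, ?_, ?_⟩
        · rw [mul_smul, h1, claim' hr hL K hS hK l hl g hgg]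
        · rw [map_mul, Equiv.Perm.mul_apply, h2, hφ g (hJS hg)]
          congr 1
          have h4 : (L[T L l g]'(hL.lt l hl g hgg)).1 == C g (vec L l) :=
            List.findIdx_getElem (p := fun y : V × Fin 6 => y.1 == C g (vec L l))
              (w := hL.lt l hl g hgg)
          rw [beq_iff_eq] at h4
          rw [← h4, vec, List.getD_eq_getElem _ _ (hL.lt l hl g hgg)]
      · refine ⟨l, hl, ?_, ?_⟩
        · have hgi : g ≠ i := by
            rintro rfl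
            have h5 : (a : ℕ) ≤ (g : ℕ) := hai
            have h6 : (g : ℕ) ≤ (b : ℕ) := hib
            omega
          rw [mul_smul, h1, claim_far hr hL K hS g (hJS hg) (hrK g hg hgi) h3 l hl]
        · rw [map_mul, Equiv.Perm.mul_apply, h2, hφ g (hJS hg), hL.far l hl g h3]
    refine closure_induction_left (p := fun w _ => ∃ l < L.length, w • cc r L K 0 = cc r L K l ∧
      φ w (π (vec L 0)) = π (vec L l)) ?_ ?_ ?_ hw
    · exact ⟨0, hL.pos, by rw [one_smul], by rw [map_one]; rfl⟩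
    · rintro x ⟨g, hg, rfl⟩ y _ h
      exact stp g hg y h
    · rintro x ⟨g, hg, rfl⟩ y _ h
      rw [hinvr g hg]
      exact stp g hg y h
  obtain ⟨l, hl, h1, h2⟩ := key
  by_cases hl0 : l = 0
  · subst hl0
    rw [cc_zero] at h1
    have h3 : ((w : G) : G ⧸ K) = ((1 : G) : G ⧸ K) := by
      rw [← h1]
      change _ = ((w * 1 : G) : G ⧸ K)
      rw [mul_one]
    rw [QuotientGroup.eq, mul_one] at h3
    exact (K.inv_mem_iff).1 h3
  · exfalso
    rw [hL.zero, hfix] at h2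
    exact hπ l (List.mem_range.2 hl) hl0 h2.symm


/-- **The finite part of the vertex-figure group embeds**, separation on the orbits. -/
theorem trivW2 (hS : ({1, 2, 3, 4} : Finset (Fin 6)) ⊆ S) {X : Type*} (φ : G →* Equiv.Perm X)
    (π : V → X) (hφ : ∀ i ∈ S, ∀ v, φ (r i) (π v) = π (C i v))
    (p1 : ∀ l ∈ List.range (orb 1 4 1).length, l ≠ 0 → π (vec (orb 1 4 1) l) ≠ π (fvC 1))
    (p2 : ∀ l ∈ List.range (orb 2 4 2).length, l ≠ 0 → π (vec (orb 2 4 2) l) ≠ π (fvC 2))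
    (p3 : ∀ l ∈ List.range (orb 3 4 3).length, l ≠ 0 → π (vec (orb 3 4 3) l) ≠ π (fvC 3))
    (p4 : ∀ l ∈ List.range (orb 4 4 4).length, l ≠ 0 → π (vec (orb 4 4 4) l) ≠ π (fvC 4)) (w : G)
    (hw : w ∈ closure (r '' ({1, 2, 3, 4} : Set (Fin 6)))) (h1 : φ w = 1) : w = 1 := by
  have fx : ∀ i, φ w (π (fvC i)) = π (fvC i) := fun i => by rw [h1]; rfl
  have w1 : w ∈ closure (r '' (({1, 2, 3, 4} : Finset (Fin 6)) : Set (Fin 6))) := by
    simpa using hw
  have w2 := stab2 hr φ π hφ {1, 2, 3, 4} hS 1 4 1 p1 (by decide) (by decide) c141 (by decide)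
    (by decide) w w1 (fx 1)
  have e2 : ({1, 2, 3, 4} : Finset (Fin 6)).erase 1 = {2, 3, 4} := by decide
  rw [e2] at w2
  have w3 := stab2 hr φ π hφ {2, 3, 4} ((by decide : ({2, 3, 4} : Finset (Fin 6)) ⊆
    {1, 2, 3, 4}).trans hS) 2 4 2 p2 (by decide) (by decide) c242 (by decide) (by decide) w w2 (fx 2)
  have e3 : ({2, 3, 4} : Finset (Fin 6)).erase 2 = {3, 4} := by decide
  rw [e3] at w3
  have w4 := stab2 hr φ π hφ {3, 4} ((by decide : ({3, 4} : Finset (Fin 6)) ⊆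
    {1, 2, 3, 4}).trans hS) 3 4 3 p3 (by decide) (by decide) c343 (by decide) (by decide) w w3 (fx 3)
  have e4 : ({3, 4} : Finset (Fin 6)).erase 3 = {4} := by decide
  rw [e4] at w4
  have w5 := stab2 hr φ π hφ {4} ((by decide : ({4} : Finset (Fin 6)) ⊆
    {1, 2, 3, 4}).trans hS) 4 4 4 p4 (by decide) (by decide) c444 (by decide) (by decide) w w4 (fx 4)
  have e5 : ({4} : Finset (Fin 6)).erase 4 = ∅ := by decide
  rw [e5] at w5
  simpa using w5

end emb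

instance (n : ℕ) (d : V) : Decidable (EmbVCN.InN n d) := by unfold EmbVCN.InN; infer_instance

theorem q1 : ∀ l ∈ List.range (orb 1 4 1).length, l ≠ 0 →
    ¬ EmbVCN.InN 2 (vec (orb 1 4 1) l - fvC 1) := by decide +kernel

theorem q2 : ∀ l ∈ List.range (orb 2 4 2).length, l ≠ 0 →
    ¬ EmbVCN.InN 2 (vec (orb 2 4 2) l - fvC 2) := by decide +kernel

theorem q3 : ∀ l ∈ List.range (orb 3 4 3).length, l ≠ 0 →
    ¬ EmbVCN.InN 2 (vec (orb 3 4 3) l - fvC 3) := by decide +kernel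

theorem q4 : ∀ l ∈ List.range (orb 4 4 4).length, l ≠ 0 →
    ¬ EmbVCN.InN 2 (vec (orb 4 4 4) l - fvC 4) := by decide +kernel

/-- The vertex-figure group of the vector `(2,2,0,0)`. -/
theorem vert2 {G : Type} [Group G] {x : Fin 6 → G} {X : Type*} (h : Fi.Cx TrV.coxV x)
    (hn : Fi.lp x TrV.wV2 ^ 2 = 1) (φ : G →* Equiv.Perm X) (π : V → X)
    (hφ : ∀ i, i ≠ 0 → ∀ v, φ (x i) (π v) = π (CGroupC.C i v))
    (hsep : ∀ v w, π v = π w → EmbVCN.InN 2 (v - w))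
    (y : G) (hy : y ∈ closure (x '' {1, 2, 3, 4, 5})) (h1 : φ y = 1) : y = 1 := by
  obtain ⟨c, w, hw, rfl⟩ := TrV.main h y hy
  change φ (TrV.tp x c * w) = 1 at h1
  have hS : ∀ i ∈ ({1, 2, 3, 4, 5} : Finset (Fin 6)), ∀ v, φ (x i) (π v) = π (CGroupC.C i v) :=
    fun i hi v => hφ i (by
      rintro rfl
      simp at hi) v
  have h2 : φ w (π ((0, 0, 0, 0), 1, 0)) = π ((0, 0, 0, 0), 1, 0) :=
    ExC.fix_of_notMem (EmbVC.hrS h) φ π hS {1, 2, 3, 4} (by decide) 5 (by decide) w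
      (by simpa using hw)
  have h3 : φ (TrV.tp x c) (π ((0, 0, 0, 0), 1, 0)) = π ((0, 0, 0, 0), 1, 0) := by
    have h4 : φ (TrV.tp x c * w) (π ((0, 0, 0, 0), 1, 0)) = π ((0, 0, 0, 0), 1, 0) := by
      rw [h1]; rfl
    rw [map_mul, Equiv.Perm.mul_apply, h2] at h4
    exact h4
  rw [EmbVC.tp_eq h] at h3
  obtain ⟨k, hk, hev⟩ := EmbVCN.expsN (by norm_num) φ π hsep x
    (fun i hi v => by rw [hφ i hi, EmbVC.C_eq]) (EmbVC.ee x) (EmbVC.ee0 h)
    (EmbVC.ee1 h) (EmbVC.ee2 h) (EmbVC.ee3 h) ![-c 3, -c 2, -c 1, -c 0] h3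
  have ht : TrV.tp x c = 1 := by
    refine TrV.Qtype h hn c ![-k 3, -k 2, -k 1, -k 0] ?_ ?_
    · intro i
      have k0 : -c 3 = (2 : ℕ) * k 0 := hk 0
      have k1 : -c 2 = (2 : ℕ) * k 1 := hk 1
      have k2 : -c 1 = (2 : ℕ) * k 2 := hk 2
      have k3 : -c 0 = (2 : ℕ) * k 3 := hk 3
      fin_cases i
      · show c 0 = (2 : ℕ) * -k 3
        linarith
      · show c 1 = (2 : ℕ) * -k 2
        linarith
      · show c 2 = (2 : ℕ) * -k 1
        linarith
      · show c 3 = (2 : ℕ) * -k 0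
        linarith
    · show Even (-k 3 + -k 2 + -k 1 + -k 0)
      obtain ⟨r, hr⟩ := hev
      exact ⟨-r, by linarith⟩
  rw [ht, one_mul] at h1
  have hw1 : w = 1 := trivW2 (EmbVC.hrS h) (by decide) φ π hS
    (fun l hl hl0 he => q1 l hl hl0 (hsep _ _ he)) (fun l hl hl0 he => q2 l hl hl0 (hsep _ _ he))
    (fun l hl hl0 he => q3 l hl hl0 (hsep _ _ he)) (fun l hl hl0 he => q4 l hl hl0 (hsep _ _ he))
    w hw h1
  change TrV.tp x c * w = 1
  rw [ht, hw1, one_mul]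

/-- **Q-type, `n = 2`.** The vertex-figure group of the vector `(2,2,0,0)` embeds. -/
theorem embQ2 : ∃ f : EmbDefs.VerC 2 2 →* GamC 2 1 2 2,
    Function.Injective f ∧ ∀ i : Fin 5, f (PresentedGroup.of i) = PresentedGroup.of i.succ := by
  refine ⟨EmbVCf.nat 2 1 2 2, ?_, EmbVCf.nat_of 2 1 2 2⟩
  obtain ⟨φ, hφ⟩ := EmbVCq.actCN 2
  rw [injective_iff_map_eq_one]
  intro y hy
  refine vert2 (EmbVCf.cx6 2 2) (EmbVCf.rel2 2) (φ.comp (EmbVCf.nat 2 1 2 2))
    (Ex.ActN.piN 2) (fun i hi v => ?_) (EmbVCq.sepN 2) y (EmbVCf.mem6 2 2 y) ?_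
  · obtain ⟨j, rfl⟩ := Fin.exists_succ_eq.2 hi
    rw [EmbVCf.x6_succ, MonoidHom.comp_apply]
    have h1 : EmbVCf.nat 2 1 2 2 (EmbVCf.g5 2 2 j) = PresentedGroup.of j.succ :=
      EmbVCf.nat_of 2 1 2 2 j
    rw [h1, hφ]
  · rw [MonoidHom.comp_apply, hy, map_one]

/-- **Q-type, all `n ≥ 2`.** -/
theorem embQall (n : ℕ) (hn : 2 ≤ n) : ∃ f : EmbDefs.VerC n 2 →* GamC n 1 n 2,
    Function.Injective f ∧ ∀ i : Fin 5, f (PresentedGroup.of i) = PresentedGroup.of i.succ := by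
  rcases Nat.lt_or_ge n 3 with h | h
  · have : n = 2 := by omega
    subst this
    exact embQ2
  · exact EmbVCq.embQ' n h

end Pool.Agent.Lib.MP_c2d01e_co.Two26
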