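import Pool.Agent.Lib.MP_c2d01e_co.Ex.EmbFCN19
import Pool.Agent.Lib.MP_c2d01e_co.Ex.Two26

/-!
# The facet groups of family (C), vector `(n,0,0,0)`, embed for all `n ≥ 2` (helper19)
-/

set_option autoImplicit false

namespace Pool.Agent.Lib.MP_c2d01e_co.Ex.Two19

open Subgroup EqDefs CGroupC ExC Two26 Ex.Wrd Ex.EmbFC19
open Pool.Agent.Lib.MP_c2d01e_co.Ex.ActN (piN XN)

section emb

variable {G : Type*} [Group G] {r : Fin 6 → G}

variable {S : Finset (Fin 6)} (hr : ∀ i ∈ S, ∀ j ∈ S, (r i * r j) ^ coxC i j = 1)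
include hr

/-- **The finite part of the facet group embeds**, separation on the orbits. -/
theorem trivF2 (hS : ({0, 1, 2, 3} : Finset (Fin 6)) ⊆ S) {X : Type*} (φ : G →* Equiv.Perm X)
    (π : V → X) (hφ : ∀ i ∈ S, ∀ v, φ (r i) (π v) = π (C i v))
    (p1 : ∀ l ∈ List.range (orb 0 3 0).length, l ≠ 0 → π (vec (orb 0 3 0) l) ≠ π (fvC 0))
    (p2 : ∀ l ∈ List.range (orb 1 3 1).length, l ≠ 0 → π (vec (orb 1 3 1) l) ≠ π (fvC 1))
    (p3 : ∀ l ∈ List.range (orb 2 3 2).length, l ≠ 0 → π (vec (orb 2 3 2) l) ≠ π (fvC 2))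
    (p4 : ∀ l ∈ List.range (orb 3 3 3).length, l ≠ 0 → π (vec (orb 3 3 3) l) ≠ π (fvC 3)) (w : G)
    (hw : w ∈ closure (r '' ({0, 1, 2, 3} : Set (Fin 6)))) (h1 : φ w = 1) : w = 1 := by
  have fx : ∀ i, φ w (π (fvC i)) = π (fvC i) := fun i => by rw [h1]; rfl
  have w1 : w ∈ closure (r '' (({0, 1, 2, 3} : Finset (Fin 6)) : Set (Fin 6))) := by
    simpa using hw
  have w2 := stab2 hr φ π hφ {0, 1, 2, 3} hS 0 3 0 p1 (by decide) (by decide) c030 (by decide)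
    (by decide) w w1 (fx 0)
  have e2 : ({0, 1, 2, 3} : Finset (Fin 6)).erase 0 = {1, 2, 3} := by decide
  rw [e2] at w2
  have w3 := stab2 hr φ π hφ {1, 2, 3} ((by decide : ({1, 2, 3} : Finset (Fin 6)) ⊆
    {0, 1, 2, 3}).trans hS) 1 3 1 p2 (by decide) (by decide) c131 (by decide) (by decide) w w2 (fx 1)
  have e3 : ({1, 2, 3} : Finset (Fin 6)).erase 1 = {2, 3} := by decide
  rw [e3] at w3
  have w4 := stab2 hr φ π hφ {2, 3} ((by decide : ({2, 3} : Finset (Fin 6)) ⊆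
    {0, 1, 2, 3}).trans hS) 2 3 2 p3 (by decide) (by decide) c232 (by decide) (by decide) w w3 (fx 2)
  have e4 : ({2, 3} : Finset (Fin 6)).erase 2 = {3} := by decide
  rw [e4] at w4
  have w5 := stab2 hr φ π hφ {3} ((by decide : ({3} : Finset (Fin 6)) ⊆
    {0, 1, 2, 3}).trans hS) 3 3 3 p4 (by decide) (by decide) c333 (by decide) (by decide) w w4 (fx 3)
  have e5 : ({3} : Finset (Fin 6)).erase 3 = ∅ := by decide
  rw [e5] at w5
  simpa using w5

end emb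

theorem q1 : ∀ l ∈ List.range (orb 0 3 0).length, l ≠ 0 →
    ¬ EmbVCN.InN 2 (vec (orb 0 3 0) l - fvC 0) := by decide +kernel

theorem q2 : ∀ l ∈ List.range (orb 1 3 1).length, l ≠ 0 →
    ¬ EmbVCN.InN 2 (vec (orb 1 3 1) l - fvC 1) := by decide +kernel

theorem q3 : ∀ l ∈ List.range (orb 2 3 2).length, l ≠ 0 →
    ¬ EmbVCN.InN 2 (vec (orb 2 3 2) l - fvC 2) := by decide +kernel

theorem q4 : ∀ l ∈ List.range (orb 3 3 3).length, l ≠ 0 →
    ¬ EmbVCN.InN 2 (vec (orb 3 3 3) l - fvC 3) := by decide +kernel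

/-- The faithfulness for the relator of `(2,0,0,0)`. -/
theorem faith2 {P : Type} [Group P] {r : Fin 6 → P}
    (hr : ∀ i ∈ ({0, 1, 2, 3, 4} : Finset (Fin 6)),
    ∀ j ∈ ({0, 1, 2, 3, 4} : Finset (Fin 6)), (r i * r j) ^ coxC i j = 1)
    (hT : (r 4 * (r 3 * r 2 * r 1 * r 2 * r 3) * (r 0 * r 1 * r 2 * r 1 * r 0) *
      (r 3 * r 2 * r 1 * r 2 * r 3)) ^ 2 = 1)
    (φ : P →* Equiv.Perm (XN 2))
    (hφ : ∀ i ∈ ({0, 1, 2, 3, 4} : Finset (Fin 6)), ∀ v, φ (r i) (piN 2 v) =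
      piN 2 (CGroupC.C i v))
    (x : P) (hx : x ∈ closure {gi r 0, gi r 1, gi r 2, gi r 3, gi r 4}) (h1 : φ x = 1) : x = 1 := by
  obtain ⟨a, w, hw, rfl⟩ := WrdQ.decomp (gi r) (gi_cox hr) hx
  have hle : closure {gi r 1, gi r 2, gi r 3, gi r 4} ≤
      closure (r '' ({0, 1, 2, 3} : Set (Fin 6))) := by
    rw [closure_le]
    intro z hz
    simp only [Set.mem_insert_iff, Set.mem_singleton_iff] at hz
    rcases hz with rfl | rfl | rfl | rfl
    · exact Subgroup.subset_closure ⟨3, by simp, rfl⟩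
    · exact Subgroup.subset_closure ⟨2, by simp, rfl⟩
    · exact Subgroup.subset_closure ⟨1, by simp, rfl⟩
    · exact Subgroup.subset_closure ⟨0, by simp, rfl⟩
  have hw0 := hle hw
  have hw' : w ∈ closure (r '' (({0, 1, 2, 3} : Finset (Fin 6)) : Set (Fin 6))) := by
    simpa using hw0
  have f1 := ExC.fix_of_notMem hr φ (piN 2) hφ {0, 1, 2, 3} (by decide) 4 (by decide) w hw'
  have f2 : φ (pp (WrdQ.trq (gi r)) a) (piN 2 (fvC 4)) = piN 2 (fvC 4) := by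
    have h2 : φ (pp (WrdQ.trq (gi r)) a * w) (piN 2 (fvC 4)) = piN 2 (fvC 4) := by rw [h1]; rfl
    rw [map_mul, Equiv.Perm.mul_apply, f1] at h2
    exact h2
  have d := EmbFCN19.coordsN φ hφ a f2
  have ht := fun j => (WrdQ.tpow (gi r) (gi_cox hr) 2 hT j).2
  have hz : ∀ j, WrdQ.trq (gi r) j ^ a j = 1 := by
    intro j
    obtain ⟨k, hk⟩ := d j
    rw [hk, zpow_mul, zpow_natCast, ht, one_zpow]
  have ha : pp (WrdQ.trq (gi r)) a = 1 := by
    unfold pp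
    rw [hz 0, hz 1, hz 2, hz 3]
    simp
  rw [ha, one_mul] at h1 ⊢
  exact trivF2 hr (by decide) φ (piN 2) hφ
    (fun l hl hl0 he => q1 l hl hl0 (EmbVCq.sepN 2 _ _ he))
    (fun l hl hl0 he => q2 l hl hl0 (EmbVCq.sepN 2 _ _ he))
    (fun l hl hl0 he => q3 l hl hl0 (EmbVCq.sepN 2 _ _ he))
    (fun l hl hl0 he => q4 l hl hl0 (EmbVCq.sepN 2 _ _ he)) w hw0 h1

/-- The facet group of family (C), vector `(2,0,0,0)`, embeds. -/
theorem fC_Q2 : ∃ f : EmbDefs.FacC 2 1 →* GamC 2 1 2 2,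
    Function.Injective f ∧ ∀ i : Fin 5, f (PresentedGroup.of i) = PresentedGroup.of i.castSucc := by
  have hof : ∀ i : Fin 5, PresentedGroup.toGroup (facC_rels 2 1 2 2) (PresentedGroup.of i) =
      PresentedGroup.of i.castSucc := fun i => PresentedGroup.toGroup.of _
  refine ⟨PresentedGroup.toGroup (facC_rels 2 1 2 2), ?_, hof⟩
  obtain ⟨φ, hφ⟩ := ActCN19.actCN 2
  rw [injective_iff_map_eq_one]
  intro x hx
  have hX : (PresentedGroup.mk _ (EmbDefs.facC 2 1) : EmbDefs.FacC 2 1) = 1 :=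
    PresentedGroup.one_of_mem (Or.inr rfl)
  rw [EmbDefs.facC, if_pos rfl] at hX
  refine faith2 (r := r5 2 1) (r5_cox 2 1) hX
    (φ.comp (PresentedGroup.toGroup (facC_rels 2 1 2 2))) ?_ x (r5_top 2 1 x) ?_
  · intro i hi v
    have h5 : ∀ i ∈ ({0, 1, 2, 3, 4} : Finset (Fin 6)), ∃ i' : Fin 5, i = i'.castSucc := by decide
    obtain ⟨i', rfl⟩ := h5 i hi
    rw [r5_cast, MonoidHom.comp_apply, hof]
    exact hφ _ v
  · rw [MonoidHom.comp_apply, hx, map_one]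

/-- The facet groups of family (C), vector `(n,0,0,0)`, embed for all `n ≥ 2`. -/
theorem fC_Qall (n : ℕ) (hn : 2 ≤ n) : ∃ f : EmbDefs.FacC n 1 →* GamC n 1 n 2,
    Function.Injective f ∧ ∀ i : Fin 5, f (PresentedGroup.of i) = PresentedGroup.of i.castSucc := by
  rcases Nat.lt_or_ge n 3 with h | h
  · have : n = 2 := by omega
    subst this
    exact fC_Q2
  · exact EmbFCN19.fC_Q' n h

end Pool.Agent.Lib.MP_c2d01e_co.Ex.Two19
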