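import Pool.Agent.Lib.MP_c2d01e_co.Ex.ActN2

/-!
# Family (B), vectors `(2,2,0,0)`, `(2,0,0,0)`: the vertex-figure group embeds

The finite part acts faithfully on the lattice modulo `2 N`.
-/

set_option autoImplicit false

namespace Pool.Agent.Lib.MP_c2d01e_co.Ex.Two7

open Subgroup EqDefs CGroupB
open Pool.Agent.Lib.MP_c2d01e_co.Ex
open Pool.Agent.Lib.MP_c2d01e_co.Ex.ActN
open Pool.Agent.Lib.MP_c2d01e_co.Ex.EmbB3
open Pool.Agent.Lib.MP_c2d01e_co.Ex.Wrd (Cox ev pp)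
open Pool.Agent.Lib.MP_c2d01e_co.Ex.WrdQ (tq trq)

section stab2

variable {G : Type*} [Group G] {r : Fin 6 → G} {S : Finset (Fin 6)}
  (hr : ∀ i ∈ S, ∀ j ∈ S, (r i * r j) ^ coxB i j = 1)
include hr

/-- The stabilizer of `fvB i` in a parabolic subgroup in which `i` has a finite component. -/
theorem stab2 {X : Type*} (φ : G →* Equiv.Perm X) (π : V → X)
    (hφ : ∀ i ∈ S, ∀ v, φ (r i) (π v) = π (B i v))
    (J : Finset (Fin 6)) (hJS : J ⊆ S) (a b i : Fin 6)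
    (hai : a ≤ i) (hib : i ≤ b) (hcert : cert a b i = true)
    (hπ : ∀ k < (orb a b i).length, k ≠ 0 → π (vec (orb a b i) k) ≠ π (fvB i)) (hJ1 : ∀ g, a ≤ g → g ≤ b → g ∈ J)
    (hJ2 : ∀ g ∈ J, (a ≤ g ∧ g ≤ b) ∨ (g : ℕ) + 1 < a ∨ (b : ℕ) + 1 < g) (w : G)
    (hw : w ∈ closure (r '' (J : Set (Fin 6)))) (hfix : φ w (π (fvB i)) = π (fvB i)) :
    w ∈ closure (r '' ((J.erase i : Finset (Fin 6)) : Set (Fin 6))) := by
  set K := closure (r '' ((J.erase i : Finset (Fin 6)) : Set (Fin 6))) with hKdef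
  have hL := ct_of_cert hcert
  set L := orb a b i with hLdef
  have hrK : ∀ g ∈ J, g ≠ i → r g ∈ K := fun g hg hgi =>
    subset_closure ⟨g, by simp [hg, hgi], rfl⟩
  have hgens : ∀ g : Fin 6, g ∈ gens a b ↔ a ≤ g ∧ g ≤ b := by
    intro g; simp [gens]
  have hK : ∀ g ∈ gens a b, g ≠ i → r g ∈ K := fun g hg hgi =>
    hrK g (hJ1 g ((hgens g).1 hg).1 ((hgens g).1 hg).2) hgi
  have hS : ∀ g ∈ gens a b, g ∈ S := fun g hg =>
    hJS (hJ1 g ((hgens g).1 hg).1 ((hgens g).1 hg).2)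
  have hinvr : ∀ g ∈ J, (r g)⁻¹ = r g := fun g hg => by
    rw [inv_eq_iff_mul_eq_one]; exact sq hr g (hJS hg)
  have key : ∃ l < L.length, w • cc r L K 0 = cc r L K l ∧ φ w (π (vec L 0)) = π (vec L l) := by
    have stp : ∀ g ∈ J, ∀ y : G,
        (∃ l < L.length, y • cc r L K 0 = cc r L K l ∧ φ y (π (vec L 0)) = π (vec L l)) →
        ∃ l < L.length, (r g * y) • cc r L K 0 = cc r L K l ∧
          φ (r g * y) (π (vec L 0)) = π (vec L l) := by
      rintro g hg y ⟨l, hl, h1, h2⟩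
      rcases hJ2 g hg with h3 | h3
      · have hgg := (hgens g).2 h3
        refine ⟨T L l g, hL.lt l hl g hgg, ?_, ?_⟩
        · rw [mul_smul, h1, claim' hr hL K hS hK l hl g hgg]
        · rw [map_mul, Equiv.Perm.mul_apply, h2, hφ g (hJS hg)]
          congr 1
          have h4 : (L[T L l g]'(hL.lt l hl g hgg)).1 == B g (vec L l) :=
            List.findIdx_getElem (p := fun y : V × Fin 6 => y.1 == B g (vec L l))
              (w := hL.lt l hl g hgg)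
          rw [beq_iff_eq] at h4
          rw [← h4, vec, List.getD_eq_getElem _ _ (hL.lt l hl g hgg)]
      · refine ⟨l, hl, ?_, ?_⟩
        · have hgi : g ≠ i := by
            rintro rfl
            have h5 : (a : ℕ) ≤ (g : ℕ) := hai
            have h6 : (g : ℕ) ≤ (b : ℕ) := hib
            omega
          rw [mul_smul, h1, claim_far hr hL K hS g (hJS hg) (hrK g hg hgi) h3 l hl]
        · rw [map_mul, Equiv.Perm.mul_apply, h2, hφ g (hJS hg), hL.far l hl g h3]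
    refine closure_induction_left (p := fun w _ => ∃ l < L.length, w • cc r L K 0 = cc r L K l ∧
      φ w (π (vec L 0)) = π (vec L l)) ?_ ?_ ?_ hw
    · exact ⟨0, hL.pos, by rw [one_smul], by rw [map_one]; rfl⟩
    · rintro x ⟨g, hg, rfl⟩ y _ h
      exact stp g hg y h
    · rintro x ⟨g, hg, rfl⟩ y _ h
      rw [hinvr g hg]
      exact stp g hg y h
  obtain ⟨l, hl, h1, h2⟩ := key
  by_cases hl0 : l = 0
  · subst hl0
    rw [cc_zero] at h1
    have h3 : ((w : G) : G ⧸ K) = ((1 : G) : G ⧸ K) := by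
      rw [← h1]
      change _ = ((w * 1 : G) : G ⧸ K)
      rw [mul_one]
    rw [QuotientGroup.eq, mul_one] at h3
    exact (K.inv_mem_iff).1 h3
  · exfalso
    rw [hL.zero, hfix] at h2
    exact hπ l hl hl0 h2.symm


/-- **The finite part embeds**, with the separation of the left ends only. -/
theorem trivW2 (hS : ({1, 2, 3, 4} : Finset (Fin 6)) ⊆ S) {X : Type*} (φ : G →* Equiv.Perm X)
    (π : V → X) (hφ : ∀ i ∈ S, ∀ v, φ (r i) (π v) = π (B i v))
    (hπ : ∀ a : Fin 6, 1 ≤ a → a ≤ 4 → ∀ k < (orb a 4 a).length, k ≠ 0 →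
      π (vec (orb a 4 a) k) ≠ π (fvB a)) (w : G)
    (hw : w ∈ closure (r '' ({1, 2, 3, 4} : Set (Fin 6)))) (h1 : φ w = 1) : w = 1 := by
  have fx : ∀ i, φ w (π (fvB i)) = π (fvB i) := fun i => by rw [h1]; rfl
  have w1 : w ∈ closure (r '' (({1, 2, 3, 4} : Finset (Fin 6)) : Set (Fin 6))) := by
    simpa using hw
  have w2 := stab2 hr φ π hφ {1, 2, 3, 4} hS 1 4 1 (by decide) (by decide) c141
    (hπ 1 (by decide) (by decide)) (by decide) (by decide) w w1 (fx 1)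
  have e2 : ({1, 2, 3, 4} : Finset (Fin 6)).erase 1 = {2, 3, 4} := by decide
  rw [e2] at w2
  have w3 := stab2 hr φ π hφ {2, 3, 4} ((by decide : ({2, 3, 4} : Finset (Fin 6)) ⊆
    {1, 2, 3, 4}).trans hS) 2 4 2 (by decide) (by decide) c242
    (hπ 2 (by decide) (by decide)) (by decide) (by decide) w w2 (fx 2)
  have e3 : ({2, 3, 4} : Finset (Fin 6)).erase 2 = {3, 4} := by decide
  rw [e3] at w3
  have w4 := stab2 hr φ π hφ {3, 4} ((by decide : ({3, 4} : Finset (Fin 6)) ⊆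
    {1, 2, 3, 4}).trans hS) 3 4 3 (by decide) (by decide) c343
    (hπ 3 (by decide) (by decide)) (by decide) (by decide) w w3 (fx 3)
  have e4 : ({3, 4} : Finset (Fin 6)).erase 3 = {4} := by decide
  rw [e4] at w4
  have w5 := stab2 hr φ π hφ {4} ((by decide : ({4} : Finset (Fin 6)) ⊆
    {1, 2, 3, 4}).trans hS) 4 4 4 (by decide) (by decide) c444
    (hπ 4 (by decide) (by decide)) (by decide) (by decide) w w4 (fx 4)
  have e5 : ({4} : Finset (Fin 6)).erase 4 = ∅ := by decide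
  rw [e5] at w5
  simpa using w5

end stab2

/-- Membership in `2 N`. -/
def in2N (v : V) : Bool :=
  (v.1.1 % 4 == 0) && (v.1.2.1 % 2 == 0) && (v.1.2.2.1 % 2 == 0) && (v.1.2.2.2 % 2 == 0) &&
  ((v.1.2.1 + v.1.2.2.1 + v.1.2.2.2) % 4 == 0) && (v.2.1 % 4 == 0) && (v.2.2 % 4 == 0)

theorem in2N_of (v w : V) (h : piN 2 v = piN 2 w) : in2N (w - v) = true := by
  obtain ⟨u, hu, e⟩ := QuotientAddGroup.eq.1 h
  have e' : w - v = (2 : ℤ) • u := by
    have : w - v = -v + w := by abel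
    rw [this, e]
    norm_num
  rw [e']
  obtain ⟨⟨p, x, y, z⟩, a, b⟩ := u
  simp only [inN, Bool.and_eq_true, beq_iff_eq] at hu
  obtain ⟨⟨⟨h1, h2⟩, h3⟩, h4⟩ := hu
  simp only [in2N, Prod.smul_mk, smul_eq_mul, Bool.and_eq_true, beq_iff_eq]
  refine ⟨⟨⟨⟨⟨⟨?_, ?_⟩, ?_⟩, ?_⟩, ?_⟩, ?_⟩, ?_⟩ <;> omega

theorem sep2 : ∀ a : Fin 6, 1 ≤ a → a ≤ 4 → ∀ k : Fin (orb a 4 a).length, (k : ℕ) ≠ 0 →
    in2N (fvB a - vec (orb a 4 a) k) = false := by
  decide +kernel

theorem sepPi (a : Fin 6) (h1 : 1 ≤ a) (h4 : a ≤ 4) (k : ℕ) (hk : k < (orb a 4 a).length)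
    (hk0 : k ≠ 0) : piN 2 (vec (orb a 4 a) k) ≠ piN 2 (fvB a) := by
  intro h
  have h5 := in2N_of _ _ h
  rw [sep2 a h1 h4 ⟨k, hk⟩ hk0] at h5
  exact absurd h5 (by decide)

/-- Vertex-figures of (B), Q-type, from the faithfulness of the finite part. -/
theorem vB_gen (n : ℕ) (htriv : ∀ f : EmbDefs.VerB n 1 →* GamB n 2 n 1,
    (∀ i : Fin 5, f (PresentedGroup.of i) = PresentedGroup.of i.succ) →
    ∀ w ∈ closure {gV n 1 1, gV n 1 2, gV n 1 3, gV n 1 4}, f w = 1 → w = 1) : ∃ f : EmbDefs.VerB n 1 →* GamB n 2 n 1,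
    Function.Injective f ∧ ∀ i : Fin 5, f (PresentedGroup.of i) = PresentedGroup.of i.succ := by
  obtain ⟨f, hf⟩ := mkhom Fin.succ (hVer n 2 n 1)
  obtain ⟨φ2, hφ2⟩ := actN n
  refine ⟨f, inj_of f fun x hx => ?_, hf⟩
  have h := coxgV n 1
  have hval : ∀ i : Fin 6, i ≠ 0 → f (gV n 1 (5 - (i : ℕ))) = PresentedGroup.of i := by
    intro i hi
    rw [gV, hf, eV_succ i hi]
  obtain ⟨a, w, hw, e⟩ := WrdQ.decomp (gV n 1) h (gen5 eV heV x)
  -- the action on `V / n N`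
  have hact : ∀ i : Fin 6, i ≠ 0 → ∀ v,
      (φ2.comp f) (gV n 1 (5 - (i : ℕ))) (piN n v) = piN n (B i v) := by
    intro i hi v
    rw [MonoidHom.comp_apply, hval i hi]
    exact hφ2 i v
  have hfg : ∀ i : Fin 6, i ≠ 0 → i ≠ 5 → (φ2.comp f) (gV n 1 (5 - (i : ℕ))) (piN n (fvB 5)) =
      piN n (fvB 5) := by
    intro i hi hi5
    rw [hact i hi, fvB_fix 5 i hi5]
  have hw0 : (φ2.comp f) w (piN n (fvB 5)) = piN n (fvB 5) := by
    refine closure_induction (p := fun w _ => (φ2.comp f) w (piN n (fvB 5)) =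
      piN n (fvB 5)) ?_ ?_ ?_ ?_ hw
    · rintro y (rfl | rfl | rfl | rfl)
      · exact hfg 4 (by decide) (by decide)
      · exact hfg 3 (by decide) (by decide)
      · exact hfg 2 (by decide) (by decide)
      · exact hfg 1 (by decide) (by decide)
    · rw [map_one]; rfl
    · intro y z _ _ h1 h2
      rw [map_mul, Equiv.Perm.mul_apply, h2, h1]
    · intro y _ h1
      rw [map_inv, Equiv.Perm.inv_eq_iff_eq, h1]
  have hx1 : (φ2.comp f) x = 1 := by rw [MonoidHom.comp_apply, hx, map_one]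
  have f2 : (φ2.comp f) (pp (trq (gV n 1)) a) (piN n (fvB 5)) = piN n (fvB 5) := by
    have h2 := hx1
    rw [e, map_mul] at h2
    have h7 := congrArg (fun p : Equiv.Perm (XN n) => p (piN n (fvB 5))) h2
    simp only [Equiv.Perm.mul_apply, hw0, Equiv.Perm.coe_one, id_eq] at h7
    exact h7
  have hP : (PX n 0)⁻¹ = PX n 0 := inv_eq_of_mul_eq_one_left (PX_sq n 0)
  let φ' : EmbDefs.VerB n 1 →* Equiv.Perm (XN n) :=
    (MulAut.conj (PX n 0)).toMonoidHom.comp (φ2.comp f)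
  have hφ' : ∀ y, φ' y = PX n 0 * (φ2.comp f) y * PX n 0 := by
    intro y
    change PX n 0 * (φ2.comp f) y * (PX n 0)⁻¹ = _
    rw [hP]
  have hbV : ∀ i < 5, ∀ v, φ' (gV n 1 i) (piN n v) = piN n (bV i v) := by
    intro i hi v
    rw [hφ', Equiv.Perm.mul_apply, Equiv.Perm.mul_apply, PX_pi, bV, bF, dif_pos (by omega)]
    have h3 := hact ⟨5 - i, by omega⟩ (by
      intro e
      have := congrArg Fin.val e
      norm_num at this
      omega) (R 0 v)
    have h4 : 5 - (5 - i) = i := by omega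
    simp only [h4] at h3
    rw [h3, PX_pi]
  have f3 : φ' (pp (trq (gV n 1)) a) (piN n ((0, 0, 0, 0), 0, -1)) =
      piN n ((0, 0, 0, 0), 0, -1) := by
    have r1 : R 0 ((0, 0, 0, 0), 0, -1) = fvB 5 := by decide
    have r2 : R 0 (fvB 5) = ((0, 0, 0, 0), 0, -1) := by decide
    rw [hφ', Equiv.Perm.mul_apply, Equiv.Perm.mul_apply, PX_pi, r1, f2, PX_pi, r2]
  have ht : ∀ k v, φ' (trq (gV n 1) k) (piN n v) = piN n (E (yV k) v) := by
    intro k v
    rw [trq, ev_act' (piN n) (gV n 1) φ' bV hbV (tq k) (WrdQ.tq_lt k), tV]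
  rw [prod_E' (piN n) φ' ht] at f3
  obtain ⟨⟨w0, w1, w2, w3⟩, g1, g2, e'⟩ := memN (Or.inr rfl) f3
  simp only [yV, Matrix.cons_val_zero, Matrix.cons_val_one, Matrix.cons_val, Prod.smul_mk,
    smul_eq_mul, Prod.mk_add_mk, Prod.mk.injEq] at e' g1 g2
  obtain ⟨e1, e2, e3, e4⟩ := e'
  obtain ⟨u, rfl⟩ : ∃ u, w0 = 2 * u := ⟨w0 / 2, by omega⟩
  obtain ⟨t, ht2⟩ : ∃ t, w1 + w2 - w3 = 2 * t := ⟨(w1 + w2 - w3) / 2, by omega⟩
  have a3 : a 3 = n * (w2 - w3) := by rw [mul_sub]; linarith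
  have a1 : a 1 = n * (-t) := by
    have : (2 : ℤ) * a 1 = 2 * (n * (-t)) := by
      have h9 : (n : ℤ) * (w1 + w2 - w3) = n * (2 * t) := by rw [ht2]
      linarith [mul_sub (n : ℤ) (w1 + w2) w3, mul_add (n : ℤ) w1 w2]
    linarith
  have a0 : a 0 = n * (u + t - (w2 - w3)) := by
    have : (2 : ℤ) * a 0 = 2 * (n * (u + t - (w2 - w3))) := by
      have : (2 : ℤ) * a 0 = n * (2 * u) - 2 * a 1 - 2 * a 3 := by linarith
      rw [this, a1, a3]
      ring
    linarith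
  have a2 : a 2 = n * (w2 + (u + t - (w2 - w3)) - t) := by
    have : a 2 = n * w2 + a 0 + a 1 := by linarith
    rw [this, a0, a1]
    ring
  have hp1 : pp (trq (gV n 1)) a = 1 :=
    pp_one_of (fun j => (WrdQ.tpow _ h n (relV1 n) j).2) a (by
      intro i
      fin_cases i
      · exact ⟨_, a0⟩
      · exact ⟨_, a1⟩
      · exact ⟨_, a2⟩
      · exact ⟨_, a3⟩)
  rw [hp1, one_mul] at e
  rw [e]
  exact htriv f hf w hw (by rw [← e]; exact hx)

/-- **Vertex-figures of (B), `(2,2,0,0)`, `(2,0,0,0)`**. -/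
theorem vB_two : ∃ f : EmbDefs.VerB 2 1 →* GamB 2 2 2 1,
    Function.Injective f ∧ ∀ i : Fin 5, f (PresentedGroup.of i) = PresentedGroup.of i.succ := by
  refine vB_gen 2 fun f hf w hw hx => ?_
  obtain ⟨φ2, hφ2⟩ := actN 2
  have h := coxgV 2 1
  have hr : ∀ i ∈ ({1, 2, 3, 4, 5} : Finset (Fin 6)), ∀ j ∈ ({1, 2, 3, 4, 5} : Finset (Fin 6)),
      ((fun i : Fin 6 => gV 2 1 (5 - (i : ℕ))) i * (fun i : Fin 6 => gV 2 1 (5 - (i : ℕ))) j) ^
        coxB i j = 1 := by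
    intro i hi j hj
    have hi5 : i ≠ 0 := by rintro rfl; revert hi; decide
    have hj5 : j ≠ 0 := by rintro rfl; revert hj; decide
    rw [coxV i j hi5 hj5]
    refine h (5 - (i : ℕ)) (5 - (j : ℕ)) ?_ ?_
    · revert hi5; revert i; decide
    · revert hj5; revert j; decide
  have hφS : ∀ i ∈ ({1, 2, 3, 4, 5} : Finset (Fin 6)), ∀ v,
      (φ2.comp f) ((fun i : Fin 6 => gV 2 1 (5 - (i : ℕ))) i) (piN 2 v) = piN 2 (B i v) := by
    intro i hi v
    have hi0 : i ≠ 0 := by rintro rfl; revert hi; decide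
    simp only
    rw [MonoidHom.comp_apply, gV, hf, eV_succ i hi0]
    exact hφ2 i v
  have hw' : w ∈ closure ((fun i : Fin 6 => gV 2 1 (5 - (i : ℕ))) ''
      ({1, 2, 3, 4} : Set (Fin 6))) := by
    rw [gsetV]; exact hw
  exact trivW2 hr (by decide) (φ2.comp f) (piN 2) hφS sepPi w hw'
    (by rw [MonoidHom.comp_apply, hx, map_one])

end Pool.Agent.Lib.MP_c2d01e_co.Ex.Two7
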