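import Pool.Agent.Lib.MP_c2d01e_co.Ex.EmbBN90
import Pool.Agent.Lib.MP_c2d01e_co.Ex.EmbVCq

/-!
# The facet group and the vertex-figure group of family (B), Q-type, embed for all `n ≥ 2`

The stabilizer argument with the separation needed only on the orbit of the certificate.
-/

set_option autoImplicit false

namespace Pool.Agent.Lib.MP_c2d01e_co.TwoB26

open Subgroup EqDefs CGroupB Ex

section emb

variable {G : Type*} [Group G] {r : Fin 6 → G}

variable {S : Finset (Fin 6)} (hr : ∀ i ∈ S, ∀ j ∈ S, (r i * r j) ^ coxB i j = 1)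
include hr

/-- The stabilizer of `fvB i` in a parabolic subgroup in which `i` has a finite component. -/
theorem stab2 {X : Type*} (φ : G →* Equiv.Perm X) (π : V → X)
    (hφ : ∀ i ∈ S, ∀ v, φ (r i) (π v) = π (B i v))
    (J : Finset (Fin 6)) (hJS : J ⊆ S) (a b i : Fin 6)
    (hπ : ∀ l ∈ List.range (orb a b i).length, l ≠ 0 → π (vec (orb a b i) l) ≠ π (fvB i))
    (hai : a ≤ i) (hib : i ≤ b) (hcert : cert a b i = true) (hJ1 : ∀ g, a ≤ g → g ≤ b → g ∈ J)
    (hJ2 : ∀ g ∈ J, (a ≤ g ∧ g ≤ b) ∨ (g : ℕ) + 1 < a ∨ (b : ℕ) + 1 < g) (w : G)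
    (hw : w ∈ closure (r '' (J : Set (Fin 6)))) (hfix : φ w (π (fvB i)) = π (fvB i)) :
    w ∈ closure (r '' ((J.erase i : Finset (Fin 6)) : Set (Fin 6))) := by
  set K := closure (r '' ((J.erase i : Finset (Fin 6)) : Set (Fin 6))) with hKdef
  have hL := ct_of_cert hcert
  set L := orb a b i with hLdef
  have hrK : ∀ g ∈ J, g ≠ i → r g ∈ K := fun g hg hgi =>
    subset_closure ⟨g, by simp [hg, hgi], rfl⟩
  have hgens : ∀ g : Fin 6, g ∈ gens a b ↔ a ≤ g ∧ g ≤ b := by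
    intro g; simp [gens]
  have hK : ∀ g ∈ gens a b, g ≠ i → r g ∈ K := fun g hg hgi =>
    hrK g (hJ1 g ((hgens g).1 hg).1 ((hgens g).1 hg).2) hgi
  have hS : ∀ g ∈ gens a b, g ∈ S := fun g hg =>
    hJS (hJ1 g ((hgens g).1 hg).1 ((hgens g).1 hg).2)
  have hinvr : ∀ g ∈ J, (r g)⁻¹ = r g := fun g hg => by
    rw [inv_eq_iff_mul_eq_one]; exact sq hr g (hJS hg)
  have key : ∃ l < L.length, w • cc r L K 0 = cc r L K l ∧ φ w (π (vec L 0)) = π (vec L l) := by
    have stp : ∀ g ∈ J, ∀ y : G,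
        (∃ l < L.length, y • cc r L K 0 = cc r L K l ∧ φ y (π (vec L 0)) = π (vec L l)) →
        ∃ l < L.length, (r g * y) • cc r L K 0 = cc r L K l ∧
          φ (r g * y) (π (vec L 0)) = π (vec L l) := by
      rintro g hg y ⟨l, hl, h1, h2⟩
      rcases hJ2 g hg with h3 | h3
      · have hgg := (hgens g).2 h3
        refine ⟨T L l g, hL.lt l hl g hgg, ?_, ?_⟩
        · rw [mul_smul, h1, claim' hr hL K hS hK l hl g hgg]
        · rw [map_mul, Equiv.Perm.mul_apply, h2, hφ g (hJS hg)]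
          congr 1
          have h4 : (L[T L l g]'(hL.lt l hl g hgg)).1 == B g (vec L l) :=
            List.findIdx_getElem (p := fun y : V × Fin 6 => y.1 == B g (vec L l))
              (w := hL.lt l hl g hgg)
          rw [beq_iff_eq] at h4
          rw [← h4, vec, List.getD_eq_getElem _ _ (hL.lt l hl g hgg)]
      · refine ⟨l, hl, ?_, ?_⟩
        · have hgi : g ≠ i := by
            rintro rfl
            have h5 : (a : ℕ) ≤ (g : ℕ) := hai
            have h6 : (g : ℕ) ≤ (b : ℕ) := hib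
            omega
          rw [mul_smul, h1, claim_far hr hL K hS g (hJS hg) (hrK g hg hgi) h3 l hl]
        · rw [map_mul, Equiv.Perm.mul_apply, h2, hφ g (hJS hg), hL.far l hl g h3]
    refine closure_induction_left (p := fun w _ => ∃ l < L.length, w • cc r L K 0 = cc r L K l ∧
      φ w (π (vec L 0)) = π (vec L l)) ?_ ?_ ?_ hw
    · exact ⟨0, hL.pos, by rw [one_smul], by rw [map_one]; rfl⟩
    · rintro x ⟨g, hg, rfl⟩ y _ h
      exact stp g hg y h
    · rintro x ⟨g, hg, rfl⟩ y _ h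
      rw [hinvr g hg]
      exact stp g hg y h
  obtain ⟨l, hl, h1, h2⟩ := key
  by_cases hl0 : l = 0
  · subst hl0
    rw [cc_zero] at h1
    have h3 : ((w : G) : G ⧸ K) = ((1 : G) : G ⧸ K) := by
      rw [← h1]
      change _ = ((w * 1 : G) : G ⧸ K)
      rw [mul_one]
    rw [QuotientGroup.eq, mul_one] at h3
    exact (K.inv_mem_iff).1 h3
  · exfalso
    rw [hL.zero, hfix] at h2
    exact hπ l (List.mem_range.2 hl) hl0 h2.symm


/-- **The finite part of the vertex-figure group embeds**, separation on the orbits. -/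
theorem trivW2 (hS : ({1, 2, 3, 4} : Finset (Fin 6)) ⊆ S) {X : Type*} (φ : G →* Equiv.Perm X)
    (π : V → X) (hφ : ∀ i ∈ S, ∀ v, φ (r i) (π v) = π (B i v))
    (p1 : ∀ l ∈ List.range (orb 1 4 1).length, l ≠ 0 → π (vec (orb 1 4 1) l) ≠ π (fvB 1))
    (p2 : ∀ l ∈ List.range (orb 2 4 2).length, l ≠ 0 → π (vec (orb 2 4 2) l) ≠ π (fvB 2))
    (p3 : ∀ l ∈ List.range (orb 3 4 3).length, l ≠ 0 → π (vec (orb 3 4 3) l) ≠ π (fvB 3))
    (p4 : ∀ l ∈ List.range (orb 4 4 4).length, l ≠ 0 → π (vec (orb 4 4 4) l) ≠ π (fvB 4)) (w : G)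
    (hw : w ∈ closure (r '' ({1, 2, 3, 4} : Set (Fin 6)))) (h1 : φ w = 1) : w = 1 := by
  have fx : ∀ i, φ w (π (fvB i)) = π (fvB i) := fun i => by rw [h1]; rfl
  have w1 : w ∈ closure (r '' (({1, 2, 3, 4} : Finset (Fin 6)) : Set (Fin 6))) := by
    simpa using hw
  have w2 := stab2 hr φ π hφ {1, 2, 3, 4} hS 1 4 1 p1 (by decide) (by decide) c141 (by decide)
    (by decide) w w1 (fx 1)
  have e2 : ({1, 2, 3, 4} : Finset (Fin 6)).erase 1 = {2, 3, 4} := by decide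
  rw [e2] at w2
  have w3 := stab2 hr φ π hφ {2, 3, 4} ((by decide : ({2, 3, 4} : Finset (Fin 6)) ⊆
    {1, 2, 3, 4}).trans hS) 2 4 2 p2 (by decide) (by decide) c242 (by decide) (by decide) w w2 (fx 2)
  have e3 : ({2, 3, 4} : Finset (Fin 6)).erase 2 = {3, 4} := by decide
  rw [e3] at w3
  have w4 := stab2 hr φ π hφ {3, 4} ((by decide : ({3, 4} : Finset (Fin 6)) ⊆
    {1, 2, 3, 4}).trans hS) 3 4 3 p3 (by decide) (by decide) c343 (by decide) (by decide) w w3 (fx 3)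
  have e4 : ({3, 4} : Finset (Fin 6)).erase 3 = {4} := by decide
  rw [e4] at w4
  have w5 := stab2 hr φ π hφ {4} ((by decide : ({4} : Finset (Fin 6)) ⊆
    {1, 2, 3, 4}).trans hS) 4 4 4 p4 (by decide) (by decide) c444 (by decide) (by decide) w w4 (fx 4)
  have e5 : ({4} : Finset (Fin 6)).erase 4 = ∅ := by decide
  rw [e5] at w5
  simpa using w5

end emb

instance (n : ℕ) (d : V) : Decidable (EmbVCN.InN n d) := by unfold EmbVCN.InN; infer_instance

theorem q1 : ∀ l ∈ List.range (orb 1 4 1).length, l ≠ 0 →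
    ¬ EmbVCN.InN 2 (vec (orb 1 4 1) l - fvB 1) := by decide +kernel

theorem q2 : ∀ l ∈ List.range (orb 2 4 2).length, l ≠ 0 →
    ¬ EmbVCN.InN 2 (vec (orb 2 4 2) l - fvB 2) := by decide +kernel

theorem q3 : ∀ l ∈ List.range (orb 3 4 3).length, l ≠ 0 →
    ¬ EmbVCN.InN 2 (vec (orb 3 4 3) l - fvB 3) := by decide +kernel

theorem q4 : ∀ l ∈ List.range (orb 4 4 4).length, l ≠ 0 →
    ¬ EmbVCN.InN 2 (vec (orb 4 4 4) l - fvB 4) := by decide +kernel

open CGroup ActN EmbB3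
open Pool.Agent.Lib.MP_c2d01e_co.Ex.Wrd (Cox ev pp)
open Pool.Agent.Lib.MP_c2d01e_co.Ex.WrdQ (tq trq)

section core

variable {P : Type*} [Group P] (g : ℕ → P)

/-- **Facets**: an element acting trivially is trivial. -/
theorem coreF2 {n : ℕ} (h : Cox g) (φ : P →* Equiv.Perm (XN n))
    (hsep : ∀ v w, piN n v = piN n w → EmbVCN.InN 2 (v - w))
    (hφ : ∀ i : Fin 6, i ≠ 5 → ∀ v, φ (g i) (piN n v) = piN n (B i v))
    (hX : (g 0 * (g 1 * g 2 * g 3 * g 2 * g 1) * (g 4 * g 3 * g 2 * g 3 * g 4)) ^ (2 * n) = 1)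
    (x : P) (hx : x ∈ closure {g 0, g 1, g 2, g 3, g 4}) (h1 : φ x = 1) : x = 1 := by
  obtain ⟨a, w, hw, e⟩ := WrdQ.decomp g h hx
  have hr : ∀ i ∈ ({0, 1, 2, 3, 4} : Finset (Fin 6)), ∀ j ∈ ({0, 1, 2, 3, 4} : Finset (Fin 6)),
      ((fun i : Fin 6 => g i) i * (fun i : Fin 6 => g i) j) ^ coxB i j = 1 := by
    intro i hi j hj
    have hi5 : i ≠ 5 := by rintro rfl; revert hi; decide
    have hj5 : j ≠ 5 := by rintro rfl; revert hj; decide
    rw [coxF i j hi5 hj5]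
    refine h i j ?_ ?_
    · revert hi5; revert i; decide
    · revert hj5; revert j; decide
  have hφS : ∀ i ∈ ({0, 1, 2, 3, 4} : Finset (Fin 6)), ∀ v,
      φ ((fun i : Fin 6 => g i) i) (piN n v) = piN n (B i v) := by
    intro i hi v
    refine hφ i ?_ v
    rintro rfl
    revert hi
    decide
  have hbF : ∀ i < 5, ∀ v, φ (g i) (piN n v) = piN n (bF i v) := by
    intro i hi v
    rw [bF, dif_pos (by omega)]
    refine hφ ⟨i, by omega⟩ ?_ v
    intro e
    have := congrArg Fin.val e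
    norm_num at this
    omega
  have hw' : w ∈ closure ((fun i : Fin 6 => g i) '' ({1, 2, 3, 4} : Set (Fin 6))) := by
    rw [gsetF]; exact hw
  have hw'' : w ∈ closure ((fun i : Fin 6 => g i) '' (({1, 2, 3, 4} : Finset (Fin 6)) :
      Set (Fin 6))) := by simpa using hw'
  have f1 := fix_of_notMem hr φ (piN n) hφS {1, 2, 3, 4} (by decide) 0 (by decide) w hw''
  have f2 : φ (pp (trq g) a) (piN n (fvB 0)) = piN n (fvB 0) := by
    have h2 : φ x (piN n (fvB 0)) = piN n (fvB 0) := by rw [h1]; rfl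
    rw [e, map_mul, Equiv.Perm.mul_apply, f1] at h2
    exact h2
  have ht1 := coreN g h n φ hbF hX a f2
  rw [ht1, one_mul] at e
  rw [e]
  exact trivW2 hr (by decide) φ (piN n) hφS
    (fun l hl hl0 he => q1 l hl hl0 (hsep _ _ he)) (fun l hl hl0 he => q2 l hl hl0 (hsep _ _ he))
    (fun l hl hl0 he => q3 l hl hl0 (hsep _ _ he)) (fun l hl hl0 he => q4 l hl hl0 (hsep _ _ he))
    w hw' (by rw [← e]; exact h1)

/-- **Vertex-figures**: an element acting trivially is trivial. -/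
theorem coreV2 {n : ℕ} (h : Cox g) (φ : P →* Equiv.Perm (XN n))
    (hsep : ∀ v w, piN n v = piN n w → EmbVCN.InN 2 (v - w))
    (hφ : ∀ i : Fin 6, i ≠ 0 → ∀ v, φ (g (5 - (i : ℕ))) (piN n v) = piN n (B i v)) (x : P)
    (hx : x ∈ closure {g 0, g 1, g 2, g 3, g 4}) (h1 : φ x = 1)
    (hT : ∀ j, trq g j ^ n = 1) : x = 1 := by
  obtain ⟨a, w, hw, e⟩ := WrdQ.decomp g h hx
  have hr : ∀ i ∈ ({1, 2, 3, 4, 5} : Finset (Fin 6)), ∀ j ∈ ({1, 2, 3, 4, 5} : Finset (Fin 6)),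
      ((fun i : Fin 6 => g (5 - (i : ℕ))) i * (fun i : Fin 6 => g (5 - (i : ℕ))) j) ^ coxB i j
        = 1 := by
    intro i hi j hj
    have hi5 : i ≠ 0 := by rintro rfl; revert hi; decide
    have hj5 : j ≠ 0 := by rintro rfl; revert hj; decide
    rw [coxV i j hi5 hj5]
    refine h (5 - (i : ℕ)) (5 - (j : ℕ)) ?_ ?_
    · revert hi5; revert i; decide
    · revert hj5; revert j; decide
  have hφS : ∀ i ∈ ({1, 2, 3, 4, 5} : Finset (Fin 6)), ∀ v,
      φ ((fun i : Fin 6 => g (5 - (i : ℕ))) i) (piN n v) = piN n (B i v) := by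
    intro i hi v
    refine hφ i ?_ v
    rintro rfl
    revert hi
    decide
  have hP : (PX n 0)⁻¹ = PX n 0 := inv_eq_of_mul_eq_one_left (PX_sq n 0)
  let φ' : P →* Equiv.Perm (XN n) := (MulAut.conj (PX n 0)).toMonoidHom.comp φ
  have hφ' : ∀ y, φ' y = PX n 0 * φ y * PX n 0 := by
    intro y
    change PX n 0 * φ y * (PX n 0)⁻¹ = _
    rw [hP]
  have hbV : ∀ i < 5, ∀ v, φ' (g i) (piN n v) = piN n (bV i v) := by
    intro i hi v
    rw [hφ', Equiv.Perm.mul_apply, Equiv.Perm.mul_apply, PX_pi, bV, bF, dif_pos (by omega)]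
    have h3 := hφ ⟨5 - i, by omega⟩ (by
      intro e
      have := congrArg Fin.val e
      norm_num at this
      omega) (R 0 v)
    have h4 : 5 - (5 - i) = i := by omega
    simp only [h4] at h3
    rw [h3, PX_pi]
  have hw' : w ∈ closure ((fun i : Fin 6 => g (5 - (i : ℕ))) '' ({1, 2, 3, 4} : Set (Fin 6))) := by
    rw [gsetV]; exact hw
  have hw'' : w ∈ closure ((fun i : Fin 6 => g (5 - (i : ℕ))) ''
      (({1, 2, 3, 4} : Finset (Fin 6)) : Set (Fin 6))) := by simpa using hw'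
  have f1 := fix_of_notMem hr φ (piN n) hφS {1, 2, 3, 4} (by decide) 5 (by decide) w hw''
  have f2 : φ (pp (trq g) a) (piN n (fvB 5)) = piN n (fvB 5) := by
    have h2 : φ x (piN n (fvB 5)) = piN n (fvB 5) := by rw [h1]; rfl
    rw [e, map_mul, Equiv.Perm.mul_apply, f1] at h2
    exact h2
  have f3 : φ' (pp (trq g) a) (piN n ((0, 0, 0, 0), 0, -1)) = piN n ((0, 0, 0, 0), 0, -1) := by
    have r1 : R 0 ((0, 0, 0, 0), 0, -1) = fvB 5 := by decide
    have r2 : R 0 (fvB 5) = ((0, 0, 0, 0), 0, -1) := by decide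
    rw [hφ', Equiv.Perm.mul_apply, Equiv.Perm.mul_apply, PX_pi, r1, f2, PX_pi, r2]
  have ht : ∀ k v, φ' (trq g k) (piN n v) = piN n (E (yV k) v) := by
    intro k v
    rw [trq, ev_act' (piN n) g φ' bV hbV (tq k) (WrdQ.tq_lt k), tV]
  rw [prod_E' (piN n) φ' ht] at f3
  obtain ⟨⟨w0, w1, w2, w3⟩, k1, k2, ee⟩ := memN (Or.inr rfl) f3
  simp only [yV, Matrix.cons_val_zero, Matrix.cons_val_one, Matrix.cons_val, Prod.smul_mk,
    smul_eq_mul, Prod.mk_add_mk, Prod.mk.injEq] at ee k1 k2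
  obtain ⟨e1, e2, e3, e4⟩ := ee
  obtain ⟨u, hu⟩ : ∃ u, w0 = 2 * u := ⟨w0 / 2, by omega⟩
  obtain ⟨r, hr'⟩ : ∃ r, w1 + w2 + w3 = 2 * r := ⟨(w1 + w2 + w3) / 2, by omega⟩
  obtain rfl : w1 = 2 * r - w2 - w3 := by omega
  subst hu
  have a3 : a 3 = n * (w2 - w3) := by rw [mul_sub]; linarith
  have a1 : a 1 = n * (w3 - r) := by
    have : 2 * a 1 = 2 * (n * (w3 - r)) := by
      have t : (n : ℤ) * (2 * r - w2 - w3) = 2 * (n * r) - n * w2 - n * w3 := by ring
      rw [t] at e2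
      rw [mul_sub] at a3 ⊢
      linarith
    linarith
  have a0 : a 0 = n * (u + r - w2) := by
    have t : (n : ℤ) * (2 * u) = 2 * (n * u) := by ring
    rw [t] at e1
    rw [mul_sub] at a1 a3 ⊢
    rw [mul_add]
    linarith
  have a2 : a 2 = n * (w2 + (u + r - w2) + (w3 - r)) := by
    rw [mul_add, mul_add, ← a0, ← a1]
    linarith
  have ht1 : pp (trq g) a = 1 := by
    rw [pp, a0, a1, a2, a3, zpow_mul, zpow_mul, zpow_mul, zpow_mul, zpow_natCast, zpow_natCast,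
      zpow_natCast, zpow_natCast, hT 0, hT 1, hT 2, hT 3]
    simp
  rw [ht1, one_mul] at e
  rw [e]
  exact trivW2 hr (by decide) φ (piN n) hφS
    (fun l hl hl0 he => q1 l hl hl0 (hsep _ _ he)) (fun l hl hl0 he => q2 l hl hl0 (hsep _ _ he))
    (fun l hl hl0 he => q3 l hl hl0 (hsep _ _ he)) (fun l hl hl0 he => q4 l hl hl0 (hsep _ _ he))
    w hw' (by rw [← e]; exact h1)

end core

/-- **Facets of (B), Q-type**, for `n = 2`. -/
theorem fB2 : ∃ f : EmbDefs.FacB 2 2 →* GamB 2 2 2 1,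
    Function.Injective f ∧ ∀ i : Fin 5, f (PresentedGroup.of i) = PresentedGroup.of i.castSucc := by
  obtain ⟨f, hf⟩ := mkhom Fin.castSucc (hFac 2 2 2 1)
  obtain ⟨φ, hφ⟩ := actN 2
  refine ⟨f, inj_of f fun x hx => ?_, hf⟩
  refine coreF2 (gF 2 2) (coxgF 2 2) (φ.comp f) (EmbVCq.sepN 2) ?_ (relF2 2) x (gen5 eF heF x)
    (by rw [MonoidHom.comp_apply, hx, map_one])
  intro i hi v
  have hi' : (i : ℕ) < 5 := by
    revert hi; revert i; decide
  rw [MonoidHom.comp_apply, gF, eF, dif_pos hi', hf]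
  exact hφ _ v

/-- **Vertex-figures of (B), Q-type**, for `n = 2`. -/
theorem vB2 : ∃ f : EmbDefs.VerB 2 1 →* GamB 2 2 2 1,
    Function.Injective f ∧ ∀ i : Fin 5, f (PresentedGroup.of i) = PresentedGroup.of i.succ := by
  obtain ⟨f, hf⟩ := mkhom Fin.succ (hVer 2 2 2 1)
  obtain ⟨φ, hφ⟩ := actN 2
  refine ⟨f, inj_of f fun x hx => ?_, hf⟩
  refine coreV2 (gV 2 1) (coxgV 2 1) (φ.comp f) (EmbVCq.sepN 2) ?_ x (gen5 eV heV x)
    (by rw [MonoidHom.comp_apply, hx, map_one])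
    (fun j => (WrdQ.tpow _ (coxgV 2 1) 2 (relV1 2) j).2)
  intro i hi v
  rw [MonoidHom.comp_apply, gV, hf, hφ, eV_succ i hi]

/-- **Facets of (B), Q-type**, for all `n ≥ 2`. -/
theorem fBall (n : ℕ) (hn : 2 ≤ n) : ∃ f : EmbDefs.FacB n 2 →* GamB n 2 n 1,
    Function.Injective f ∧ ∀ i : Fin 5, f (PresentedGroup.of i) = PresentedGroup.of i.castSucc := by
  rcases Nat.lt_or_ge n 3 with h | h
  · have : n = 2 := by omega
    subst this
    exact fB2
  · exact EmbBN90.fB_QN n h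

/-- **Vertex-figures of (B), Q-type**, for all `n ≥ 2`. -/
theorem vBall (n : ℕ) (hn : 2 ≤ n) : ∃ f : EmbDefs.VerB n 1 →* GamB n 2 n 1,
    Function.Injective f ∧ ∀ i : Fin 5, f (PresentedGroup.of i) = PresentedGroup.of i.succ := by
  rcases Nat.lt_or_ge n 3 with h | h
  · have : n = 2 := by omega
    subst this
    exact vB2
  · exact EmbBN90.vB_QN n h

end Pool.Agent.Lib.MP_c2d01e_co.TwoB26
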