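import Pool.Agent.Lib.MP_c2d01e_co.Ex.Two90
import Pool.Agent.Lib.MP_c2d01e_co.Ex.EmbBN90
import Pool.Agent.Lib.MP_c2d01e_co.Ex.QN6

/-!
# Family (B), Q-type, `n = 2`
-/

set_option autoImplicit false

namespace Pool.Agent.Lib.MP_c2d01e_co.Ex.TwoB90

open Subgroup EqDefs CGroupB ActN
open Pool.Agent.Lib.MP_c2d01e_co.Ex.Wrd (Cox ev pp)
open Pool.Agent.Lib.MP_c2d01e_co.Ex.WrdQ (tq trq)
open Pool.Agent.Lib.MP_c2d01e_co.Ex.Two90 (S H H_mono S_mono inter_of_ends)

/-- The difference lies in `2 N`. -/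
def bad (v w : V) : Bool :=
  ((v.1.1 - w.1.1) % 4 == 0) && ((v.1.2.1 - w.1.2.1) % 2 == 0) &&
  ((v.1.2.2.1 - w.1.2.2.1) % 2 == 0) && ((v.1.2.2.2 - w.1.2.2.2) % 2 == 0) &&
  ((v.1.2.1 - w.1.2.1 + (v.1.2.2.1 - w.1.2.2.1) + (v.1.2.2.2 - w.1.2.2.2)) % 4 == 0) &&
  ((v.2.1 - w.2.1) % 4 == 0) && ((v.2.2 - w.2.2) % 4 == 0)

theorem bad_of_eq {v w : V} (h : piN 2 v = piN 2 w) : bad v w = true := by
  obtain ⟨u, hu, e⟩ := QuotientAddGroup.eq.1 h
  have e' : w = v + ((2 : ℕ) : ℤ) • u := by rw [← e]; abel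
  rw [e']
  obtain ⟨⟨p, x, y, z⟩, a, b⟩ := v
  obtain ⟨⟨p', x', y', z'⟩, a', b'⟩ := u
  simp only [inN, Bool.and_eq_true, beq_iff_eq] at hu
  obtain ⟨⟨⟨h1, h2⟩, h3⟩, h4⟩ := hu
  simp only [bad, Prod.smul_mk, Prod.mk_add_mk, smul_eq_mul, Bool.and_eq_true, beq_iff_eq,
    Nat.cast_ofNat]
  refine ⟨⟨⟨⟨⟨⟨?_, ?_⟩, ?_⟩, ?_⟩, ?_⟩, ?_⟩, ?_⟩ <;> omega

/-- The separation modulo `2 N` for the certificates. -/
def chk (a b i : Fin 6) : Bool :=
  (List.range (orb a b i).length).all fun k => k == 0 || !(bad (vec (orb a b i) k) (fvB i))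

theorem all_chk : ∀ a b : Fin 6, a ≤ b → ¬(a = 0 ∧ 4 ≤ b) → ¬(a ≤ 1 ∧ b = 5) →
    (chk a b a = true ∧ cert a b a = true) := by
  decide +kernel

/-- The stabilizer of `fvB a` in the group of the interval `a, …, b` of finite type. -/
theorem stabE {G : Type*} [Group G] {r : Fin 6 → G} (hr : ∀ i j, (r i * r j) ^ coxB i j = 1)
    {X : Type*} (φ : G →* Equiv.Perm X) (π : V → X)
    (hφ : ∀ i v, φ (r i) (π v) = π (B i v)) (a b : Fin 6)
    (hcert : cert a b a = true)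
    (hsep : ∀ k < (orb a b a).length, k ≠ 0 → π (vec (orb a b a) k) ≠ π (fvB a)) (w : G)
    (hw : w ∈ closure (r '' S a (b + 1))) (hfix : φ w (π (fvB a)) = π (fvB a)) :
    w ∈ closure (r '' S (a + 1) (b + 1)) := by
  set K := closure (r '' S (a + 1) (b + 1)) with hKdef
  have hL := ct_of_cert hcert
  set L := orb a b a with hLdef
  have hgens : ∀ g : Fin 6, g ∈ gens a b ↔ a ≤ g ∧ g ≤ b := by
    intro g; simp [gens]
  have hK : ∀ g ∈ gens a b, g ≠ a → r g ∈ K := by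
    intro g hg hga
    obtain ⟨h1, h2⟩ := (hgens g).1 hg
    have h3 : (a : ℕ) ≤ g := h1
    have h4 : (g : ℕ) ≤ b := h2
    have h5 : (g : ℕ) ≠ a := fun e => hga (Fin.ext e)
    exact subset_closure ⟨g, ⟨by omega, by omega⟩, rfl⟩
  have hinvr : ∀ g, (r g)⁻¹ = r g := fun g => by
    rw [inv_eq_iff_mul_eq_one]; exact CGroupB.sq hr g
  have key : ∃ l < L.length, w • cc r L K 0 = cc r L K l ∧ φ w (π (vec L 0)) = π (vec L l) := by
    have stp : ∀ g ∈ S a (b + 1), ∀ y : G,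
        (∃ l < L.length, y • cc r L K 0 = cc r L K l ∧ φ y (π (vec L 0)) = π (vec L l)) →
        ∃ l < L.length, (r g * y) • cc r L K 0 = cc r L K l ∧
          φ (r g * y) (π (vec L 0)) = π (vec L l) := by
      rintro g ⟨hg1, hg2⟩ y ⟨l, hl, h1, h2⟩
      have hgg : g ∈ gens a b := (hgens g).2 ⟨hg1, Nat.lt_succ_iff.1 hg2⟩
      refine ⟨T L l g, hL.lt l hl g hgg, ?_, ?_⟩
      · rw [mul_smul, h1, CGroupB.claim' hr hL K hK l hl g hgg]
      · rw [map_mul, Equiv.Perm.mul_apply, h2, hφ]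
        congr 1
        have h4 : (L[T L l g]'(hL.lt l hl g hgg)).1 == B g (vec L l) :=
          List.findIdx_getElem (p := fun y : V × Fin 6 => y.1 == B g (vec L l))
            (w := hL.lt l hl g hgg)
        rw [beq_iff_eq] at h4
        rw [← h4, vec, List.getD_eq_getElem _ _ (hL.lt l hl g hgg)]
    refine closure_induction_left (p := fun w _ => ∃ l < L.length, w • cc r L K 0 = cc r L K l ∧
      φ w (π (vec L 0)) = π (vec L l)) ?_ ?_ ?_ hw
    · exact ⟨0, hL.pos, by rw [one_smul], by rw [map_one]; rfl⟩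
    · rintro x ⟨g, hg, rfl⟩ y _ h
      exact stp g hg y h
    · rintro x ⟨g, hg, rfl⟩ y _ h
      rw [hinvr g]
      exact stp g hg y h
  obtain ⟨l, hl, h1, h2⟩ := key
  by_cases hl0 : l = 0
  · subst hl0
    rw [cc_zero] at h1
    have h3 : ((w : G) : G ⧸ K) = ((1 : G) : G ⧸ K) := by
      rw [← h1]
      change _ = ((w * 1 : G) : G ⧸ K)
      rw [mul_one]
    rw [QuotientGroup.eq, mul_one] at h3
    exact (K.inv_mem_iff).1 h3
  · exfalso
    rw [hL.zero, hfix] at h2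
    exact hsep l hl hl0 h2.symm

theorem sep2 (a b : Fin 6) (h : chk a b a = true) (k : ℕ) (hk : k < (orb a b a).length)
    (hk0 : k ≠ 0) : piN 2 (vec (orb a b a) k) ≠ piN 2 (fvB a) := by
  intro e
  have h1 := bad_of_eq e
  unfold chk at h
  rw [List.all_eq_true] at h
  have h2 := h k (List.mem_range.2 hk)
  rw [h1] at h2
  simp at h2
  exact hk0 h2

/-- Elements of `⟨r i : i ∈ J⟩` fix the vector `fvB i`, `i ∉ J`. -/
theorem fixJ {G : Type*} [Group G] {r : Fin 6 → G} {X : Type*} (φ : G →* Equiv.Perm X)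
    (π : V → X) (hφ : ∀ i v, φ (r i) (π v) = π (B i v)) (J : Set (Fin 6)) (i : Fin 6)
    (hi : i ∉ J) (w : G) (hw : w ∈ closure (r '' J)) : φ w (π (fvB i)) = π (fvB i) := by
  refine fix_closure φ (π (fvB i)) (r '' J) ?_ w hw
  rintro y ⟨g, hg, rfl⟩
  rw [hφ, fvB_fix i g (by rintro rfl; exact hi hg)]

/-- **The group `GamB 2 2 2 1`**, vectors `(2,2,0,0)`, `(2,0,0,0)`, is a string C-group. -/
theorem scB2two :
    Function.Injective (PresentedGroup.of : Fin 6 → GamB 2 2 2 1) ∧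
    (∀ i, (PresentedGroup.of i : GamB 2 2 2 1) ≠ 1) ∧
    ∀ I J : Set (Fin 6),
      Subgroup.closure ((PresentedGroup.of : Fin 6 → GamB 2 2 2 1) '' I) ⊓
        Subgroup.closure ((PresentedGroup.of : Fin 6 → GamB 2 2 2 1) '' J) =
      (Subgroup.closure ((PresentedGroup.of : Fin 6 → GamB 2 2 2 1) '' (I ∩ J)) :
        Subgroup (GamB 2 2 2 1)) := by
  obtain ⟨φ, hφ⟩ := actN 2
  have hcox := ExHom.of_coxB 2 2 2 1
  have hmove : ∀ i : Fin 6, piN 2 (B i (fvB i)) ≠ piN 2 (fvB i) := by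
    intro i e
    have h1 := bad_of_eq e
    have h2 : ∀ i : Fin 6, bad (B i (fvB i)) (fvB i) = false := by decide +kernel
    rw [h2 i] at h1
    exact Bool.false_ne_true h1
  refine ⟨?_, ?_, ?_⟩
  · intro i j h
    by_contra hne
    have h1 := hφ i (fvB i)
    rw [h, hφ, fvB_fix i j (fun e => hne e.symm)] at h1
    exact hmove i h1.symm
  · intro i h
    have h1 := hφ i (fvB i)
    rw [h, map_one] at h1
    exact hmove i h1.symm
  · refine inter_of_ends (r := (PresentedGroup.of : Fin 6 → GamB 2 2 2 1)) ?_ ?_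
    · intro a b hab hb x hx1 hx2
      by_cases h05 : a = 0 ∧ b = 5
      · obtain ⟨rfl, rfl⟩ := h05
        have e1 : S 0 5 = ({0, 1, 2, 3, 4} : Set (Fin 6)) := by
          ext i; fin_cases i <;> simp [S]
        have e2 : S (0 + 1) (5 + 1) = ({1, 2, 3, 4, 5} : Set (Fin 6)) := by
          ext i; fin_cases i <;> simp [S]
        have e3 : S (0 + 1) 5 = ({1, 2, 3, 4} : Set (Fin 6)) := by
          ext i; fin_cases i <;> simp [S]
        rw [e1] at hx1
        rw [e2] at hx2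
        rw [e3]
        exact QN6.hinfN 2 (by norm_num) x hx1 hx2
      · obtain ⟨b, rfl⟩ : ∃ b', b = b' + 1 := ⟨b - 1, by omega⟩
        have ha6 : a < 6 := by omega
        have hb6 : b < 6 := by omega
        obtain ⟨c1, c2⟩ := all_chk ⟨a, ha6⟩ ⟨b, hb6⟩ (by
          change a ≤ b
          omega) (by
          rintro ⟨h1, h2⟩
          have h3 : a = 0 := congrArg Fin.val h1
          have h4 : 4 ≤ b := h2
          omega) (by
          rintro ⟨h1, h2⟩
          have h4 : b = 5 := congrArg Fin.val h2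
          omega)
        refine stabE hcox φ (piN 2) hφ ⟨a, ha6⟩ ⟨b, hb6⟩ c2
          (fun k hk hk0 => sep2 _ _ c1 k hk hk0) x hx1 ?_
        refine fixJ φ (piN 2) hφ (S (a + 1) (b + 1 + 1)) ⟨a, ha6⟩ ?_ x hx2
        rintro ⟨h1, _⟩
        change a + 1 ≤ a at h1
        omega
    · intro i j hij
      exact CGroupB.comm_r hcox i j (Or.inl hij)

end Pool.Agent.Lib.MP_c2d01e_co.Ex.TwoB90
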