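import Pool.Agent.Lib.MP_c2d01e_co.Ex.CqCN4
import Pool.Agent.Lib.MP_c2d01e_co.Ex.Two90

/-!
# Family (C), vectors `(2,0,0,0)`, `(2,2,0,0)`: the end conditions

As in `CGC`, with the action on `V / 2 N` and only the vectors of the left ends.
-/

set_option autoImplicit false

namespace Pool.Agent.Lib.MP_c2d01e_co.Ex.TwoC71

open Subgroup EqDefs CGroupC ActN

section sound

variable {G : Type*} [Group G] {r : Fin 6 → G} (hr : ∀ i j, (r i * r j) ^ coxC i j = 1)
include hr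

/-- The stabilizer of `fvC i`, with the separation on the orbit only. -/
theorem stab2 {X : Type*} (φ : G →* Equiv.Perm X) (π : V → X)
    (hφ : ∀ i v, φ (r i) (π v) = π (C i v)) (J : Finset (Fin 6)) (a b i : Fin 6)
    (hai : a ≤ i) (hib : i ≤ b) (hfin : fn a b i = true)
    (hsep : ∀ l < (orb a b i).length, l ≠ 0 → π (vec (orb a b i) l) ≠ π (fvC i))
    (hJ1 : ∀ g, a ≤ g → g ≤ b → g ∈ J)
    (hJ2 : ∀ g ∈ J, (a ≤ g ∧ g ≤ b) ∨ (g : ℕ) + 1 < a ∨ (b : ℕ) + 1 < g) (w : G)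
    (hw : w ∈ closure (r '' (J : Set (Fin 6)))) (hfix : φ w (π (fvC i)) = π (fvC i)) :
    w ∈ closure (r '' ((J.erase i : Finset (Fin 6)) : Set (Fin 6))) := by
  set K := closure (r '' ((J.erase i : Finset (Fin 6)) : Set (Fin 6))) with hKdef
  have hL := ct_of_cert (all_cert a b i hai hib hfin)
  set L := orb a b i with hLdef
  have hrK : ∀ g ∈ J, g ≠ i → r g ∈ K := fun g hg hgi =>
    subset_closure ⟨g, by simp [hg, hgi], rfl⟩
  have hgens : ∀ g : Fin 6, g ∈ gens a b ↔ a ≤ g ∧ g ≤ b := by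
    intro g; simp [gens]
  have hK : ∀ g ∈ gens a b, g ≠ i → r g ∈ K := fun g hg hgi =>
    hrK g (hJ1 g ((hgens g).1 hg).1 ((hgens g).1 hg).2) hgi
  have hinvr : ∀ g, (r g)⁻¹ = r g := fun g => by
    rw [inv_eq_iff_mul_eq_one]; exact CGroupC.sq hr g
  have key : ∃ l < L.length, w • cc r L K 0 = cc r L K l ∧ φ w (π (vec L 0)) = π (vec L l) := by
    have stp : ∀ g ∈ J, ∀ y : G,
        (∃ l < L.length, y • cc r L K 0 = cc r L K l ∧ φ y (π (vec L 0)) = π (vec L l)) →
        ∃ l < L.length, (r g * y) • cc r L K 0 = cc r L K l ∧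
          φ (r g * y) (π (vec L 0)) = π (vec L l) := by
      rintro g hg y ⟨l, hl, h1, h2⟩
      rcases hJ2 g hg with h3 | h3
      · have hgg := (hgens g).2 h3
        refine ⟨T L l g, hL.lt l hl g hgg, ?_, ?_⟩
        · rw [mul_smul, h1, CGroupC.claim' hr hL K hK l hl g hgg]
        · rw [map_mul, Equiv.Perm.mul_apply, h2, hφ]
          congr 1
          have h4 : (L[T L l g]'(hL.lt l hl g hgg)).1 == C g (vec L l) :=
            List.findIdx_getElem (p := fun y : V × Fin 6 => y.1 == C g (vec L l))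
              (w := hL.lt l hl g hgg)
          rw [beq_iff_eq] at h4
          rw [← h4, vec, List.getD_eq_getElem _ _ (hL.lt l hl g hgg)]
      · refine ⟨l, hl, ?_, ?_⟩
        · have hgi : g ≠ i := by
            rintro rfl
            have h5 : (a : ℕ) ≤ (g : ℕ) := hai
            have h6 : (g : ℕ) ≤ (b : ℕ) := hib
            omega
          rw [mul_smul, h1, CGroupC.claim_far hr hL K g (hrK g hg hgi) h3 l hl]
        · rw [map_mul, Equiv.Perm.mul_apply, h2, hφ, hL.far l hl g h3]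
    refine closure_induction_left (p := fun w _ => ∃ l < L.length, w • cc r L K 0 = cc r L K l ∧
      φ w (π (vec L 0)) = π (vec L l)) ?_ ?_ ?_ hw
    · exact ⟨0, hL.pos, by rw [one_smul], by rw [map_one]; rfl⟩
    · rintro x ⟨g, hg, rfl⟩ y _ h
      exact stp g hg y h
    · rintro x ⟨g, hg, rfl⟩ y _ h
      rw [hinvr g]
      exact stp g hg y h
  obtain ⟨l, hl, h1, h2⟩ := key
  by_cases hl0 : l = 0
  · subst hl0
    rw [cc_zero] at h1
    have h3 : ((w : G) : G ⧸ K) = ((1 : G) : G ⧸ K) := by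
      rw [← h1]
      change _ = ((w * 1 : G) : G ⧸ K)
      rw [mul_one]
    rw [QuotientGroup.eq, mul_one] at h3
    exact (K.inv_mem_iff).1 h3
  · exfalso
    rw [hL.zero, hfix] at h2
    exact hsep l hl hl0 h2.symm

/-- The end conditions, from the separation on the orbits of the left ends. -/
theorem ends {X : Type*} (φ : G →* Equiv.Perm X) (π : V → X)
    (hφ : ∀ i v, φ (r i) (π v) = π (C i v))
    (hsep : ∀ a c : Fin 6, a ≤ c → fn a c a = true → ∀ l < (orb a c a).length, l ≠ 0 →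
      π (vec (orb a c a) l) ≠ π (fvC a))
    (hinf : ∀ w, w ∈ closure (r '' ({0, 1, 2, 3, 4} : Set (Fin 6))) →
      w ∈ closure (r '' ({1, 2, 3, 4, 5} : Set (Fin 6))) →
      w ∈ closure (r '' ({1, 2, 3, 4} : Set (Fin 6))))
    (a b : Fin 6) (hab : a < b) (w : G) (h0 : w ∈ closure (r '' {i | a ≤ i ∧ i < b}))
    (h1 : w ∈ closure (r '' {i | a < i ∧ i ≤ b})) : w ∈ closure (r '' {i | a < i ∧ i < b}) := by
  by_cases hx : a = 0 ∧ b = 5
  · obtain ⟨rfl, rfl⟩ := hx
    have e0 : {i : Fin 6 | 0 ≤ i ∧ i < 5} = {0, 1, 2, 3, 4} := by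
      ext i; fin_cases i <;> simp
    have e1 : {i : Fin 6 | 0 < i ∧ i ≤ 5} = {1, 2, 3, 4, 5} := by
      ext i; fin_cases i <;> simp
    have e2 : {i : Fin 6 | 0 < i ∧ i < 5} = {1, 2, 3, 4} := by
      ext i; fin_cases i <;> simp
    rw [e0] at h0
    rw [e1] at h1
    rw [e2]
    exact hinf w h0 h1
  · obtain ⟨c, hc⟩ : ∃ c : Fin 6, (c : ℕ) + 1 = b := by
      have hb : (a : ℕ) < (b : ℕ) := hab
      exact ⟨⟨(b : ℕ) - 1, by omega⟩, by simp only; omega⟩
    have hac : a ≤ c := by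
      have hb : (a : ℕ) < (b : ℕ) := hab
      show (a : ℕ) ≤ (c : ℕ)
      omega
    have hf : fn a c a = true := by
      revert hx hc hab hac
      clear h0 h1
      revert a b c
      decide
    have h2 : φ w (π (fvC a)) = π (fvC a) := by
      refine fix_closure φ (π (fvC a)) _ ?_ w h1
      rintro _ ⟨i, hi, rfl⟩
      rw [hφ, fvC_fix a i (ne_of_gt hi.1)]
    have h3 := stab2 hr φ π hφ (Finset.univ.filter fun i => a ≤ i ∧ i < b) a c a le_rfl hac hf
      (hsep a c hac hf) (by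
        intro g h4 h5
        have h5' : (g : ℕ) ≤ (c : ℕ) := h5
        simp only [Finset.mem_filter, Finset.mem_univ, true_and]
        exact ⟨h4, show (g : ℕ) < (b : ℕ) by omega⟩)
      (by
        intro g hg
        simp only [Finset.mem_filter, Finset.mem_univ, true_and] at hg
        have h5 : (g : ℕ) < (b : ℕ) := hg.2
        exact Or.inl ⟨hg.1, show (g : ℕ) ≤ (c : ℕ) by omega⟩) w (by simpa using h0) h2
    have e : (((Finset.univ.filter fun i : Fin 6 => a ≤ i ∧ i < b).erase a : Finset (Fin 6)) :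
        Set (Fin 6)) = {i | a < i ∧ i < b} := by
      ext i
      simp only [Finset.coe_erase, Finset.coe_filter, Finset.mem_univ, true_and, Set.mem_sdiff,
        Set.mem_ofPred_eq, Set.mem_singleton_iff]
      constructor
      · rintro ⟨⟨h4, h5⟩, h6⟩
        exact ⟨lt_of_le_of_ne h4 (Ne.symm h6), h5⟩
      · rintro ⟨h4, h5⟩
        exact ⟨⟨h4.le, h5⟩, ne_of_gt h4⟩
    rw [e] at h3
    exact h3

end sound

/-- The difference is in `2 N`. -/
def in2 (v w : V) : Bool :=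
  ((v - w).1.1 % 4 == 0) && ((v - w).1.2.1 % 2 == 0) && ((v - w).1.2.2.1 % 2 == 0) &&
  ((v - w).1.2.2.2 % 2 == 0) && (((v - w).1.2.1 + (v - w).1.2.2.1 + (v - w).1.2.2.2) % 4 == 0) &&
  ((v - w).2.1 % 4 == 0) && ((v - w).2.2 % 4 == 0)

theorem in2_of (v w : V) (h : piN 2 v = piN 2 w) : in2 v w = true := by
  obtain ⟨h1, h2, h3, h4, h5, h6, h7⟩ := CqCN4.sepN 2 v w h
  simp only [in2, Bool.and_eq_true, beq_iff_eq]
  norm_num at h1 h2 h3 h4 h5 h6 h7
  refine ⟨⟨⟨⟨⟨⟨?_, ?_⟩, ?_⟩, ?_⟩, ?_⟩, ?_⟩, ?_⟩ <;>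
    · apply Int.emod_eq_zero_of_dvd
      assumption

theorem sep_all : ∀ a c : Fin 6, a ≤ c → fn a c a = true →
    (List.range (orb a c a).length).all (fun l => l == 0 ||
      !(in2 (vec (orb a c a) l) (fvC a))) = true := by
  decide +kernel

theorem sepC (a c : Fin 6) (hac : a ≤ c) (hf : fn a c a = true) (l : ℕ)
    (hl : l < (orb a c a).length) (h0 : l ≠ 0) : piN 2 (vec (orb a c a) l) ≠ piN 2 (fvC a) := by
  intro h
  have h1 := sep_all a c hac hf
  rw [List.all_eq_true] at h1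
  have h2 := h1 l (List.mem_range.2 hl)
  rw [in2_of _ _ h] at h2
  simp [h0] at h2

/-- The end conditions for the group with the vectors `(2,0,0,0)`, `(2,2,0,0)`. -/
theorem endsC22 (a b : Fin 6) (hab : a < b) (w : GamC 2 1 2 2)
    (h0 : w ∈ closure ((PresentedGroup.of : Fin 6 → GamC 2 1 2 2) '' {i | a ≤ i ∧ i < b}))
    (h1 : w ∈ closure ((PresentedGroup.of : Fin 6 → GamC 2 1 2 2) '' {i | a < i ∧ i ≤ b})) :
    w ∈ closure ((PresentedGroup.of : Fin 6 → GamC 2 1 2 2) '' {i | a < i ∧ i < b}) := by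
  obtain ⟨φ, hφ⟩ := CqCN4.actCN 2
  exact ends (ExHom.of_coxC 2 1 2 2) φ (piN 2) hφ sepC
    (fun w h0 h1 => CqCN4.hinfCN (by norm_num) w h0 h1) a b hab w h0 h1

theorem sep_gen (i : Fin 6) : piN 2 (C i (fvC i)) ≠ piN 2 (fvC i) := by
  intro h
  have h1 := in2_of _ _ h
  have h2 : ∀ i : Fin 6, in2 (C i (fvC i)) (fvC i) = false := by decide +kernel
  rw [h2] at h1
  exact absurd h1 (by decide)

/-- The group with the vectors `(2,0,0,0)`, `(2,2,0,0)`. -/
theorem scC22 :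
    Function.Injective (PresentedGroup.of : Fin 6 → GamC 2 1 2 2) ∧
    (∀ i, (PresentedGroup.of i : GamC 2 1 2 2) ≠ 1) ∧
    ∀ I J : Set (Fin 6),
      Subgroup.closure ((PresentedGroup.of : Fin 6 → GamC 2 1 2 2) '' I) ⊓
        Subgroup.closure ((PresentedGroup.of : Fin 6 → GamC 2 1 2 2) '' J) =
      (Subgroup.closure ((PresentedGroup.of : Fin 6 → GamC 2 1 2 2) '' (I ∩ J)) :
        Subgroup (GamC 2 1 2 2)) := by
  obtain ⟨φ, hφ⟩ := CqCN4.actCN 2
  refine ⟨?_, ?_, ?_⟩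
  · intro i j h
    by_contra hne
    have h1 := hφ i (fvC i)
    rw [h, hφ, fvC_fix i j (fun e => hne e.symm)] at h1
    exact sep_gen i h1.symm
  · intro i h
    have h1 := hφ i (fvC i)
    rw [h, map_one] at h1
    exact sep_gen i h1.symm
  · refine Two90.inter_of_ends (r := (PresentedGroup.of : Fin 6 → GamC 2 1 2 2)) ?_ ?_
    · intro a b hab hb w h0 h1
      have e0 : Two90.S a b = {i : Fin 6 | (⟨a, by omega⟩ : Fin 6) ≤ i ∧ i < ⟨b, hb⟩} := rfl
      have e1 : Two90.S (a + 1) (b + 1) =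
          {i : Fin 6 | (⟨a, by omega⟩ : Fin 6) < i ∧ i ≤ ⟨b, hb⟩} := by
        ext i
        simp only [Two90.S, Set.mem_ofPred_eq, Fin.lt_def, Fin.le_def]
        omega
      have e2 : Two90.S (a + 1) b = {i : Fin 6 | (⟨a, by omega⟩ : Fin 6) < i ∧ i < ⟨b, hb⟩} := by
        ext i
        simp only [Two90.S, Set.mem_ofPred_eq, Fin.lt_def]
        omega
      rw [e0] at h0
      rw [e1] at h1
      rw [e2]
      exact endsC22 ⟨a, by omega⟩ ⟨b, hb⟩ hab w h0 h1
    · intro i j hij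
      exact CGroupC.comm_r (ExHom.of_coxC 2 1 2 2) i j (Or.inl hij)

/-- The groups with the vectors `(n,0,0,0)`, `(n,n,0,0)`, `n ≥ 2`. -/
theorem scCall (n : ℕ) (hn : 2 ≤ n) :
    Function.Injective (PresentedGroup.of : Fin 6 → GamC n 1 n 2) ∧
    (∀ i, (PresentedGroup.of i : GamC n 1 n 2) ≠ 1) ∧
    ∀ I J : Set (Fin 6),
      Subgroup.closure ((PresentedGroup.of : Fin 6 → GamC n 1 n 2) '' I) ⊓
        Subgroup.closure ((PresentedGroup.of : Fin 6 → GamC n 1 n 2) '' J) =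
      (Subgroup.closure ((PresentedGroup.of : Fin 6 → GamC n 1 n 2) '' (I ∩ J)) :
        Subgroup (GamC n 1 n 2)) := by
  rcases Nat.lt_or_ge n 3 with h | h
  · obtain rfl : n = 2 := by omega
    exact scC22
  · exact CqCN4.cqC' n h

end Pool.Agent.Lib.MP_c2d01e_co.Ex.TwoC71
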