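import Pool.Agent.Lib.MP_c2d01e_co.Ex.EmbBN90
import Pool.Agent.Lib.MP_c2d01e_co.Ex.QN6
import Pool.Agent.Lib.MP_c2d01e_co.Ex.QF71
import Pool.Agent.Lib.MP_c2d01e_co.Ex.TwoC71
import Pool.Agent.Lib.MP_c2d01e_co.Ex.Two90

/-!
# The Q-types of the families (B) and (C) for `n = 2`

As for `n ≥ 3`, with the separation modulo `2 N` of the vectors of the left ends only.
-/

set_option autoImplicit false

namespace Pool.Agent.Lib.MP_c2d01e_co.Ex.TwoE71

open Subgroup EqDefs CGroupB CGroup ActN EmbB3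
open Pool.Agent.Lib.MP_c2d01e_co.Ex.Wrd (Cox ev pp)
open Pool.Agent.Lib.MP_c2d01e_co.Ex.WrdQ (tq trq)

section emb

variable {G : Type*} [Group G] {r : Fin 6 → G} {S : Finset (Fin 6)}
  (hr : ∀ i ∈ S, ∀ j ∈ S, (r i * r j) ^ coxB i j = 1)
include hr

/-- The stabilizer, with the separation on the orbit only. -/
theorem stabE {X : Type*} (φ : G →* Equiv.Perm X) (π : V → X)
    (hφ : ∀ i ∈ S, ∀ v, φ (r i) (π v) = π (B i v))
    (J : Finset (Fin 6)) (hJS : J ⊆ S) (a b i : Fin 6)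
    (hsep : ∀ l < (CGroupB.orb a b i).length, l ≠ 0 → π (CGroupB.vec (CGroupB.orb a b i) l) ≠ π (fvB i))
    (hai : a ≤ i) (hib : i ≤ b) (hcert : CGroupB.cert a b i = true) (hJ1 : ∀ g, a ≤ g → g ≤ b → g ∈ J)
    (hJ2 : ∀ g ∈ J, (a ≤ g ∧ g ≤ b) ∨ (g : ℕ) + 1 < a ∨ (b : ℕ) + 1 < g) (w : G)
    (hw : w ∈ closure (r '' (J : Set (Fin 6)))) (hfix : φ w (π (fvB i)) = π (fvB i)) :
    w ∈ closure (r '' ((J.erase i : Finset (Fin 6)) : Set (Fin 6))) := by
  set K := closure (r '' ((J.erase i : Finset (Fin 6)) : Set (Fin 6))) with hKdef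
  have hL := CGroupB.ct_of_cert hcert
  set L := CGroupB.orb a b i with hLdef
  have hrK : ∀ g ∈ J, g ≠ i → r g ∈ K := fun g hg hgi =>
    subset_closure ⟨g, by simp [hg, hgi], rfl⟩
  have hgens : ∀ g : Fin 6, g ∈ CGroupB.gens a b ↔ a ≤ g ∧ g ≤ b := by
    intro g; simp [CGroupB.gens]
  have hK : ∀ g ∈ CGroupB.gens a b, g ≠ i → r g ∈ K := fun g hg hgi =>
    hrK g (hJ1 g ((hgens g).1 hg).1 ((hgens g).1 hg).2) hgi
  have hS : ∀ g ∈ CGroupB.gens a b, g ∈ S := fun g hg =>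
    hJS (hJ1 g ((hgens g).1 hg).1 ((hgens g).1 hg).2)
  have hinvr : ∀ g ∈ J, (r g)⁻¹ = r g := fun g hg => by
    rw [inv_eq_iff_mul_eq_one]; exact Ex.sq hr g (hJS hg)
  have key : ∃ l < L.length, w • CGroupB.cc r L K 0 = CGroupB.cc r L K l ∧ φ w (π (CGroupB.vec L 0)) = π (CGroupB.vec L l) := by
    have stp : ∀ g ∈ J, ∀ y : G,
        (∃ l < L.length, y • CGroupB.cc r L K 0 = CGroupB.cc r L K l ∧ φ y (π (CGroupB.vec L 0)) = π (CGroupB.vec L l)) →
        ∃ l < L.length, (r g * y) • CGroupB.cc r L K 0 = CGroupB.cc r L K l ∧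
          φ (r g * y) (π (CGroupB.vec L 0)) = π (CGroupB.vec L l) := by
      rintro g hg y ⟨l, hl, h1, h2⟩
      rcases hJ2 g hg with h3 | h3
      · have hgg := (hgens g).2 h3
        refine ⟨CGroupB.T L l g, hL.lt l hl g hgg, ?_, ?_⟩
        · rw [mul_smul, h1, Ex.claim' hr hL K hS hK l hl g hgg]
        · rw [map_mul, Equiv.Perm.mul_apply, h2, hφ g (hJS hg)]
          congr 1
          have h4 : (L[CGroupB.T L l g]'(hL.lt l hl g hgg)).1 == B g (CGroupB.vec L l) :=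
            List.findIdx_getElem (p := fun y : V × Fin 6 => y.1 == B g (CGroupB.vec L l))
              (w := hL.lt l hl g hgg)
          rw [beq_iff_eq] at h4
          rw [← h4, CGroupB.vec, List.getD_eq_getElem _ _ (hL.lt l hl g hgg)]
      · refine ⟨l, hl, ?_, ?_⟩
        · have hgi : g ≠ i := by
            rintro rfl
            have h5 : (a : ℕ) ≤ (g : ℕ) := hai
            have h6 : (g : ℕ) ≤ (b : ℕ) := hib
            omega
          rw [mul_smul, h1, Ex.claim_far hr hL K hS g (hJS hg) (hrK g hg hgi) h3 l hl]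
        · rw [map_mul, Equiv.Perm.mul_apply, h2, hφ g (hJS hg), hL.far l hl g h3]
    refine closure_induction_left (p := fun w _ => ∃ l < L.length, w • CGroupB.cc r L K 0 = CGroupB.cc r L K l ∧
      φ w (π (CGroupB.vec L 0)) = π (CGroupB.vec L l)) ?_ ?_ ?_ hw
    · exact ⟨0, hL.pos, by rw [one_smul], by rw [map_one]; rfl⟩
    · rintro x ⟨g, hg, rfl⟩ y _ h
      exact stp g hg y h
    · rintro x ⟨g, hg, rfl⟩ y _ h
      rw [hinvr g hg]
      exact stp g hg y h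
  obtain ⟨l, hl, h1, h2⟩ := key
  by_cases hl0 : l = 0
  · subst hl0
    rw [CGroupB.cc_zero] at h1
    have h3 : ((w : G) : G ⧸ K) = ((1 : G) : G ⧸ K) := by
      rw [← h1]
      change _ = ((w * 1 : G) : G ⧸ K)
      rw [mul_one]
    rw [QuotientGroup.eq, mul_one] at h3
    exact (K.inv_mem_iff).1 h3
  · exfalso
    rw [hL.zero, hfix] at h2
    exact hsep l hl hl0 h2.symm

/-- The separation of the left ends. -/
def SepE {X : Type*} (π : V → X) : Prop := ∀ a c : Fin 6, a ≤ c → CGroupB.cert a c a = true →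
  ∀ l < (CGroupB.orb a c a).length, l ≠ 0 → π (CGroupB.vec (CGroupB.orb a c a) l) ≠ π (fvB a)

/-- The finite part embeds. -/
theorem trivE (hS : ({1, 2, 3, 4} : Finset (Fin 6)) ⊆ S) {X : Type*} (φ : G →* Equiv.Perm X)
    (π : V → X) (hφ : ∀ i ∈ S, ∀ v, φ (r i) (π v) = π (B i v))
    (hπ : ∀ c : Fin 6, 1 ≤ c → c ≤ 4 → ∀ l < (CGroupB.orb c 4 c).length, l ≠ 0 →
      π (CGroupB.vec (CGroupB.orb c 4 c) l) ≠ π (fvB c)) (w : G)
    (hw : w ∈ closure (r '' ({1, 2, 3, 4} : Set (Fin 6)))) (h1 : φ w = 1) : w = 1 := by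
  have fx : ∀ i, φ w (π (fvB i)) = π (fvB i) := fun i => by rw [h1]; rfl
  have w1 : w ∈ closure (r '' (({1, 2, 3, 4} : Finset (Fin 6)) : Set (Fin 6))) := by
    simpa using hw
  have w2 := stabE hr φ π hφ {1, 2, 3, 4} hS 1 4 1 (hπ 1 (by decide) (by decide)) (by decide)
    (by decide) c141 (by decide) (by decide) w w1 (fx 1)
  have e2 : ({1, 2, 3, 4} : Finset (Fin 6)).erase 1 = {2, 3, 4} := by decide
  rw [e2] at w2
  have w3 := stabE hr φ π hφ {2, 3, 4} ((by decide : ({2, 3, 4} : Finset (Fin 6)) ⊆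
    {1, 2, 3, 4}).trans hS) 2 4 2 (hπ 2 (by decide) (by decide)) (by decide) (by decide) c242
    (by decide) (by decide) w w2 (fx 2)
  have e3 : ({2, 3, 4} : Finset (Fin 6)).erase 2 = {3, 4} := by decide
  rw [e3] at w3
  have w4 := stabE hr φ π hφ {3, 4} ((by decide : ({3, 4} : Finset (Fin 6)) ⊆
    {1, 2, 3, 4}).trans hS) 3 4 3 (hπ 3 (by decide) (by decide)) (by decide) (by decide) c343
    (by decide) (by decide) w w3 (fx 3)
  have e4 : ({3, 4} : Finset (Fin 6)).erase 3 = {4} := by decide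
  rw [e4] at w4
  have w5 := stabE hr φ π hφ {4} ((by decide : ({4} : Finset (Fin 6)) ⊆
    {1, 2, 3, 4}).trans hS) 4 4 4 (hπ 4 (by decide) (by decide)) (by decide) (by decide) c444
    (by decide) (by decide) w w4 (fx 4)
  have e5 : ({4} : Finset (Fin 6)).erase 4 = ∅ := by decide
  rw [e5] at w5
  simpa using w5

end emb

section core

variable {P : Type*} [Group P] (g : ℕ → P)

/-- **Facets**: an element acting trivially is trivial. -/
theorem coreF2 {n : ℕ} (h : Cox g) (φ : P →* Equiv.Perm (XN n))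
    (hsep : ∀ c : Fin 6, 1 ≤ c → c ≤ 4 → ∀ l < (CGroupB.orb c 4 c).length, l ≠ 0 →
      piN n (CGroupB.vec (CGroupB.orb c 4 c) l) ≠ piN n (fvB c))
    (hφ : ∀ i : Fin 6, i ≠ 5 → ∀ v, φ (g i) (piN n v) = piN n (B i v))
    (hX : (g 0 * (g 1 * g 2 * g 3 * g 2 * g 1) * (g 4 * g 3 * g 2 * g 3 * g 4)) ^ (2 * n) = 1)
    (x : P) (hx : x ∈ closure {g 0, g 1, g 2, g 3, g 4}) (h1 : φ x = 1) : x = 1 := by
  obtain ⟨a, w, hw, e⟩ := WrdQ.decomp g h hx
  have hr : ∀ i ∈ ({0, 1, 2, 3, 4} : Finset (Fin 6)), ∀ j ∈ ({0, 1, 2, 3, 4} : Finset (Fin 6)),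
      ((fun i : Fin 6 => g i) i * (fun i : Fin 6 => g i) j) ^ coxB i j = 1 := by
    intro i hi j hj
    have hi5 : i ≠ 5 := by rintro rfl; revert hi; decide
    have hj5 : j ≠ 5 := by rintro rfl; revert hj; decide
    rw [coxF i j hi5 hj5]
    refine h i j ?_ ?_
    · revert hi5; revert i; decide
    · revert hj5; revert j; decide
  have hφS : ∀ i ∈ ({0, 1, 2, 3, 4} : Finset (Fin 6)), ∀ v,
      φ ((fun i : Fin 6 => g i) i) (piN n v) = piN n (B i v) := by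
    intro i hi v
    refine hφ i ?_ v
    rintro rfl
    revert hi
    decide
  have hbF : ∀ i < 5, ∀ v, φ (g i) (piN n v) = piN n (bF i v) := by
    intro i hi v
    rw [bF, dif_pos (by omega)]
    refine hφ ⟨i, by omega⟩ ?_ v
    intro e
    have := congrArg Fin.val e
    norm_num at this
    omega
  have hw' : w ∈ closure ((fun i : Fin 6 => g i) '' ({1, 2, 3, 4} : Set (Fin 6))) := by
    rw [gsetF]; exact hw
  have hw'' : w ∈ closure ((fun i : Fin 6 => g i) '' (({1, 2, 3, 4} : Finset (Fin 6)) :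
      Set (Fin 6))) := by simpa using hw'
  have f1 := fix_of_notMem hr φ (piN n) hφS {1, 2, 3, 4} (by decide) 0 (by decide) w hw''
  have f2 : φ (pp (trq g) a) (piN n (fvB 0)) = piN n (fvB 0) := by
    have h2 : φ x (piN n (fvB 0)) = piN n (fvB 0) := by rw [h1]; rfl
    rw [e, map_mul, Equiv.Perm.mul_apply, f1] at h2
    exact h2
  have ht1 := coreN g h n φ hbF hX a f2
  rw [ht1, one_mul] at e
  rw [e]
  exact trivE hr (by decide) φ (piN n) hφS hsep w hw' (by rw [← e]; exact h1)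

/-- **Vertex-figures**: an element acting trivially is trivial. -/
theorem coreV2 {n : ℕ} (h : Cox g) (φ : P →* Equiv.Perm (XN n))
    (hsep : ∀ c : Fin 6, 1 ≤ c → c ≤ 4 → ∀ l < (CGroupB.orb c 4 c).length, l ≠ 0 →
      piN n (CGroupB.vec (CGroupB.orb c 4 c) l) ≠ piN n (fvB c))
    (hφ : ∀ i : Fin 6, i ≠ 0 → ∀ v, φ (g (5 - (i : ℕ))) (piN n v) = piN n (B i v)) (x : P)
    (hx : x ∈ closure {g 0, g 1, g 2, g 3, g 4}) (h1 : φ x = 1)
    (hT : ∀ j, trq g j ^ n = 1) : x = 1 := by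
  obtain ⟨a, w, hw, e⟩ := WrdQ.decomp g h hx
  have hr : ∀ i ∈ ({1, 2, 3, 4, 5} : Finset (Fin 6)), ∀ j ∈ ({1, 2, 3, 4, 5} : Finset (Fin 6)),
      ((fun i : Fin 6 => g (5 - (i : ℕ))) i * (fun i : Fin 6 => g (5 - (i : ℕ))) j) ^ coxB i j
        = 1 := by
    intro i hi j hj
    have hi5 : i ≠ 0 := by rintro rfl; revert hi; decide
    have hj5 : j ≠ 0 := by rintro rfl; revert hj; decide
    rw [coxV i j hi5 hj5]
    refine h (5 - (i : ℕ)) (5 - (j : ℕ)) ?_ ?_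
    · revert hi5; revert i; decide
    · revert hj5; revert j; decide
  have hφS : ∀ i ∈ ({1, 2, 3, 4, 5} : Finset (Fin 6)), ∀ v,
      φ ((fun i : Fin 6 => g (5 - (i : ℕ))) i) (piN n v) = piN n (B i v) := by
    intro i hi v
    refine hφ i ?_ v
    rintro rfl
    revert hi
    decide
  have hP : (PX n 0)⁻¹ = PX n 0 := inv_eq_of_mul_eq_one_left (PX_sq n 0)
  let φ' : P →* Equiv.Perm (XN n) := (MulAut.conj (PX n 0)).toMonoidHom.comp φ
  have hφ' : ∀ y, φ' y = PX n 0 * φ y * PX n 0 := by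
    intro y
    change PX n 0 * φ y * (PX n 0)⁻¹ = _
    rw [hP]
  have hbV : ∀ i < 5, ∀ v, φ' (g i) (piN n v) = piN n (bV i v) := by
    intro i hi v
    rw [hφ', Equiv.Perm.mul_apply, Equiv.Perm.mul_apply, PX_pi, bV, bF, dif_pos (by omega)]
    have h3 := hφ ⟨5 - i, by omega⟩ (by
      intro e
      have := congrArg Fin.val e
      norm_num at this
      omega) (R 0 v)
    have h4 : 5 - (5 - i) = i := by omega
    simp only [h4] at h3
    rw [h3, PX_pi]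
  have hw' : w ∈ closure ((fun i : Fin 6 => g (5 - (i : ℕ))) '' ({1, 2, 3, 4} : Set (Fin 6))) := by
    rw [gsetV]; exact hw
  have hw'' : w ∈ closure ((fun i : Fin 6 => g (5 - (i : ℕ))) ''
      (({1, 2, 3, 4} : Finset (Fin 6)) : Set (Fin 6))) := by simpa using hw'
  have f1 := fix_of_notMem hr φ (piN n) hφS {1, 2, 3, 4} (by decide) 5 (by decide) w hw''
  have f2 : φ (pp (trq g) a) (piN n (fvB 5)) = piN n (fvB 5) := by
    have h2 : φ x (piN n (fvB 5)) = piN n (fvB 5) := by rw [h1]; rfl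
    rw [e, map_mul, Equiv.Perm.mul_apply, f1] at h2
    exact h2
  have f3 : φ' (pp (trq g) a) (piN n ((0, 0, 0, 0), 0, -1)) = piN n ((0, 0, 0, 0), 0, -1) := by
    have r1 : R 0 ((0, 0, 0, 0), 0, -1) = fvB 5 := by decide
    have r2 : R 0 (fvB 5) = ((0, 0, 0, 0), 0, -1) := by decide
    rw [hφ', Equiv.Perm.mul_apply, Equiv.Perm.mul_apply, PX_pi, r1, f2, PX_pi, r2]
  have ht : ∀ k v, φ' (trq g k) (piN n v) = piN n (E (yV k) v) := by
    intro k v
    rw [trq, ev_act' (piN n) g φ' bV hbV (tq k) (WrdQ.tq_lt k), tV]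
  rw [prod_E' (piN n) φ' ht] at f3
  obtain ⟨⟨w0, w1, w2, w3⟩, k1, k2, ee⟩ := memN (Or.inr rfl) f3
  simp only [yV, Matrix.cons_val_zero, Matrix.cons_val_one, Matrix.cons_val, Prod.smul_mk,
    smul_eq_mul, Prod.mk_add_mk, Prod.mk.injEq] at ee k1 k2
  obtain ⟨e1, e2, e3, e4⟩ := ee
  obtain ⟨u, hu⟩ : ∃ u, w0 = 2 * u := ⟨w0 / 2, by omega⟩
  obtain ⟨r, hr'⟩ : ∃ r, w1 + w2 + w3 = 2 * r := ⟨(w1 + w2 + w3) / 2, by omega⟩
  obtain rfl : w1 = 2 * r - w2 - w3 := by omega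
  subst hu
  have a3 : a 3 = n * (w2 - w3) := by rw [mul_sub]; linarith
  have a1 : a 1 = n * (w3 - r) := by
    have : 2 * a 1 = 2 * (n * (w3 - r)) := by
      have t : (n : ℤ) * (2 * r - w2 - w3) = 2 * (n * r) - n * w2 - n * w3 := by ring
      rw [t] at e2
      rw [mul_sub] at a3 ⊢
      linarith
    linarith
  have a0 : a 0 = n * (u + r - w2) := by
    have t : (n : ℤ) * (2 * u) = 2 * (n * u) := by ring
    rw [t] at e1
    rw [mul_sub] at a1 a3 ⊢
    rw [mul_add]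
    linarith
  have a2 : a 2 = n * (w2 + (u + r - w2) + (w3 - r)) := by
    rw [mul_add, mul_add, ← a0, ← a1]
    linarith
  have ht1 : pp (trq g) a = 1 := by
    rw [pp, a0, a1, a2, a3, zpow_mul, zpow_mul, zpow_mul, zpow_mul, zpow_natCast, zpow_natCast,
      zpow_natCast, zpow_natCast, hT 0, hT 1, hT 2, hT 3]
    simp
  rw [ht1, one_mul] at e
  rw [e]
  exact trivE hr (by decide) φ (piN n) hφS hsep w hw' (by rw [← e]; exact h1)

end core

theorem sep_all : ∀ c : Fin 6, 1 ≤ c → c ≤ 4 →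
    (List.range (CGroupB.orb c 4 c).length).all (fun l => l == 0 ||
      !(TwoC71.in2 (CGroupB.vec (CGroupB.orb c 4 c) l) (fvB c))) = true := by
  decide +kernel

theorem sepW (c : Fin 6) (h1 : 1 ≤ c) (h4 : c ≤ 4) (l : ℕ)
    (hl : l < (CGroupB.orb c 4 c).length) (h0 : l ≠ 0) : piN 2 (CGroupB.vec (CGroupB.orb c 4 c) l) ≠ piN 2 (fvB c) := by
  intro h
  have h1 := sep_all c h1 h4
  rw [List.all_eq_true] at h1
  have h2 := h1 l (List.mem_range.2 hl)
  rw [TwoC71.in2_of _ _ h] at h2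
  simp [h0] at h2

/-- Facets of (B), Q-type, `n = 2`. -/
theorem fB_Q2 : ∃ f : EmbDefs.FacB 2 2 →* GamB 2 2 2 1,
    Function.Injective f ∧ ∀ i : Fin 5, f (PresentedGroup.of i) = PresentedGroup.of i.castSucc := by
  obtain ⟨f, hf⟩ := mkhom Fin.castSucc (hFac 2 2 2 1)
  obtain ⟨φ, hφ⟩ := actN 2
  refine ⟨f, inj_of f fun x hx => ?_, hf⟩
  refine coreF2 (gF 2 2) (coxgF 2 2) (φ.comp f) sepW ?_ (relF2 2) x (gen5 eF heF x)
    (by rw [MonoidHom.comp_apply, hx, map_one])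
  intro i hi v
  have hi' : (i : ℕ) < 5 := by
    revert hi; revert i; decide
  rw [MonoidHom.comp_apply, gF, eF, dif_pos hi', hf]
  exact hφ _ v

/-- Vertex-figures of (B), Q-type, `n = 2`. -/
theorem vB_Q2 : ∃ f : EmbDefs.VerB 2 1 →* GamB 2 2 2 1,
    Function.Injective f ∧ ∀ i : Fin 5, f (PresentedGroup.of i) = PresentedGroup.of i.succ := by
  obtain ⟨f, hf⟩ := mkhom Fin.succ (hVer 2 2 2 1)
  obtain ⟨φ, hφ⟩ := actN 2
  refine ⟨f, inj_of f fun x hx => ?_, hf⟩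
  refine coreV2 (gV 2 1) (coxgV 2 1) (φ.comp f) sepW ?_ x (gen5 eV heV x)
    (by rw [MonoidHom.comp_apply, hx, map_one])
    (fun j => (WrdQ.tpow _ (coxgV 2 1) 2 (relV1 2) j).2)
  intro i hi v
  rw [MonoidHom.comp_apply, gV, hf, hφ, eV_succ i hi]

open EmbDefs QF71 in
/-- The facets of (C), Q-type, `n = 2`. -/
theorem fC_Q2 :
    ∃ f : FacC 2 1 →* GamC 2 1 2 2, Function.Injective f ∧
      ∀ i : Fin 5, f (PresentedGroup.of i) = PresentedGroup.of i.castSucc := by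
  obtain ⟨φ, hφ⟩ := EmbVCq.actCN 2
  refine ⟨PresentedGroup.toGroup (hrel 2 1 2 2), ?_, fun i => PresentedGroup.toGroup.of _⟩
  rw [injective_iff_map_eq_one]
  intro y hy
  have hT : (gc 2 0 * (gc 2 1 * gc 2 2 * gc 2 3 * gc 2 2 * gc 2 1) *
      (gc 2 4 * gc 2 3 * gc 2 2 * gc 2 3 * gc 2 4) *
      (gc 2 1 * gc 2 2 * gc 2 3 * gc 2 2 * gc 2 1)) ^ 2 = 1 := by
    have h : (PresentedGroup.mk ({r | ∃ i j : Fin 5,
        r = (x i * x j) ^ coxC i.castSucc j.castSucc} ∪ {facC 2 1})) (facC 2 1) = 1 :=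
      PresentedGroup.one_of_mem (Or.inr rfl)
    rw [facC, if_pos rfl, map_pow] at h
    exact h
  refine coreV2 (gc 2) (gc_cox 2)
    ((MulAut.conj (PX 2 0)).toMonoidHom.comp (φ.comp (PresentedGroup.toGroup (hrel 2 1 2 2))))
    sepW ?_ y (mem_top 2 y) ?_
    (fun j => (WrdQ.tpow (gc 2) (gc_cox 2) 2 hT j).2)
  · intro i hi v
    obtain ⟨j, rfl⟩ := Fin.exists_succ_eq.2 hi
    have e : Fin.ofNat 5 (4 - (5 - (j.succ : ℕ))) = j := by
      revert j
      decide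
    have hinv : (PX 2 0)⁻¹ = PX 2 0 := inv_eq_of_mul_eq_one_left (PX_sq 2 0)
    rw [gc, e]
    show (PX 2 0 * φ (PresentedGroup.toGroup (hrel 2 1 2 2) (PresentedGroup.of j)) *
      (PX 2 0)⁻¹) (piN 2 v) = _
    rw [PresentedGroup.toGroup.of, hinv, Equiv.Perm.mul_apply, Equiv.Perm.mul_apply, PX_pi, hφ,
      PX_pi, EmbV71a.conj_C]
  · rw [MonoidHom.comp_apply, MonoidHom.comp_apply, hy, map_one, map_one]

end Pool.Agent.Lib.MP_c2d01e_co.Ex.TwoE71
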