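import Pool.Agent.Lib.MP_c2d01e_co.Ex.TwoB90
import Pool.Agent.Lib.MP_c2d01e_co.Ex.EmbW

/-!
# Family (B), Q-type, `n = 2`: the facet group and the vertex-figure group embed
-/

set_option autoImplicit false

namespace Pool.Agent.Lib.MP_c2d01e_co.Ex.TwoE90

open Subgroup EqDefs CGroupB ActN EmbB3
open Pool.Agent.Lib.MP_c2d01e_co.Ex.Wrd (Cox ev pp)
open Pool.Agent.Lib.MP_c2d01e_co.Ex.WrdQ (tq trq)
open Pool.Agent.Lib.MP_c2d01e_co.Ex.Two90 (S)
open Pool.Agent.Lib.MP_c2d01e_co.Ex.TwoB90 (chk sep2)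

/-- The stabilizer of `fvB a`, for relations with indices in `F` only. -/
theorem stabF {G : Type*} [Group G] {r : Fin 6 → G} {F : Finset (Fin 6)}
    (hr : ∀ i ∈ F, ∀ j ∈ F, (r i * r j) ^ coxB i j = 1)
    {X : Type*} (φ : G →* Equiv.Perm X) (π : V → X)
    (hφ : ∀ i ∈ F, ∀ v, φ (r i) (π v) = π (B i v)) (a b : Fin 6)
    (hF : ∀ g : Fin 6, a ≤ g → g ≤ b → g ∈ F) (hcert : cert a b a = true)
    (hsep : ∀ k < (orb a b a).length, k ≠ 0 → π (vec (orb a b a) k) ≠ π (fvB a)) (w : G)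
    (hw : w ∈ closure (r '' S a (b + 1))) (hfix : φ w (π (fvB a)) = π (fvB a)) :
    w ∈ closure (r '' S (a + 1) (b + 1)) := by
  set K := closure (r '' S (a + 1) (b + 1)) with hKdef
  have hL := ct_of_cert hcert
  set L := orb a b a with hLdef
  have hgens : ∀ g : Fin 6, g ∈ gens a b ↔ a ≤ g ∧ g ≤ b := by
    intro g; simp [gens]
  have hS : ∀ g ∈ gens a b, g ∈ F := fun g hg => hF g ((hgens g).1 hg).1 ((hgens g).1 hg).2
  have hK : ∀ g ∈ gens a b, g ≠ a → r g ∈ K := by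
    intro g hg hga
    obtain ⟨h1, h2⟩ := (hgens g).1 hg
    have h3 : (a : ℕ) ≤ g := h1
    have h4 : (g : ℕ) ≤ b := h2
    have h5 : (g : ℕ) ≠ a := fun e => hga (Fin.ext e)
    exact subset_closure ⟨g, ⟨by omega, by omega⟩, rfl⟩
  have key : ∃ l < L.length, w • cc r L K 0 = cc r L K l ∧ φ w (π (vec L 0)) = π (vec L l) := by
    have stp : ∀ g ∈ S a (b + 1), ∀ y : G,
        (∃ l < L.length, y • cc r L K 0 = cc r L K l ∧ φ y (π (vec L 0)) = π (vec L l)) →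
        ∃ l < L.length, (r g * y) • cc r L K 0 = cc r L K l ∧
          φ (r g * y) (π (vec L 0)) = π (vec L l) := by
      rintro g ⟨hg1, hg2⟩ y ⟨l, hl, h1, h2⟩
      have hgg : g ∈ gens a b := (hgens g).2 ⟨hg1, Nat.lt_succ_iff.1 hg2⟩
      refine ⟨T L l g, hL.lt l hl g hgg, ?_, ?_⟩
      · rw [mul_smul, h1, EmbW.claim' hr hS hL K hK l hl g hgg]
      · rw [map_mul, Equiv.Perm.mul_apply, h2, hφ g (hS g hgg)]
        congr 1
        have h4 : (L[T L l g]'(hL.lt l hl g hgg)).1 == B g (vec L l) :=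
          List.findIdx_getElem (p := fun y : V × Fin 6 => y.1 == B g (vec L l))
            (w := hL.lt l hl g hgg)
        rw [beq_iff_eq] at h4
        rw [← h4, vec, List.getD_eq_getElem _ _ (hL.lt l hl g hgg)]
    refine closure_induction_left (p := fun w _ => ∃ l < L.length, w • cc r L K 0 = cc r L K l ∧
      φ w (π (vec L 0)) = π (vec L l)) ?_ ?_ ?_ hw
    · exact ⟨0, hL.pos, by rw [one_smul], by rw [map_one]; rfl⟩
    · rintro x ⟨g, hg, rfl⟩ y _ h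
      exact stp g hg y h
    · rintro x ⟨g, hg, rfl⟩ y _ h
      have hgF : g ∈ F := hS g ((hgens g).2 ⟨hg.1, Nat.lt_succ_iff.1 hg.2⟩)
      have hinv : (r g)⁻¹ = r g := by
        rw [inv_eq_iff_mul_eq_one]; exact EmbW.sq hr hgF
      rw [hinv]
      exact stp g hg y h
  obtain ⟨l, hl, h1, h2⟩ := key
  by_cases hl0 : l = 0
  · subst hl0
    rw [cc_zero] at h1
    have h3 : ((w : G) : G ⧸ K) = ((1 : G) : G ⧸ K) := by
      rw [← h1]
      change _ = ((w * 1 : G) : G ⧸ K)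
      rw [mul_one]
    rw [QuotientGroup.eq, mul_one] at h3
    exact (K.inv_mem_iff).1 h3
  · exfalso
    rw [hL.zero, hfix] at h2
    exact hsep l hl hl0 h2.symm

theorem chk4 : (chk 1 4 1 = true ∧ cert 1 4 1 = true) ∧ (chk 2 4 2 = true ∧ cert 2 4 2 = true) ∧
    (chk 3 4 3 = true ∧ cert 3 4 3 = true) ∧ (chk 4 4 4 = true ∧ cert 4 4 4 = true) := by
  decide +kernel

/-- Elements of `⟨r 1, …, r 4⟩` which act trivially modulo `2 N` are trivial. -/
theorem triv2 {G : Type*} [Group G] {r : Fin 6 → G} {F : Finset (Fin 6)}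
    (hr : ∀ i ∈ F, ∀ j ∈ F, (r i * r j) ^ coxB i j = 1) (hF : {1, 2, 3, 4} ⊆ F)
    (φ : G →* Equiv.Perm (XN 2)) (hφ : ∀ i ∈ F, ∀ v, φ (r i) (piN 2 v) = piN 2 (B i v)) (w : G)
    (hw : w ∈ closure (r '' ({1, 2, 3, 4} : Set (Fin 6)))) (h1 : φ w = 1) : w = 1 := by
  obtain ⟨⟨a1, a2⟩, ⟨b1, b2⟩, ⟨c1, c2⟩, ⟨d1, d2⟩⟩ := chk4
  have hfix : ∀ v, φ w (piN 2 v) = piN 2 v := fun v => by rw [h1]; rfl
  have hin : ∀ a g : Fin 6, 1 ≤ a → a ≤ g → g ≤ 4 → g ∈ F := by
    intro a g ha hg hb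
    refine hF ?_
    revert ha hg hb
    revert a g
    decide
  have e1 : ({1, 2, 3, 4} : Set (Fin 6)) = S (1 : Fin 6) ((4 : Fin 6) + 1) := by
    ext i; fin_cases i <;> simp [S]
  rw [e1] at hw
  have w1 := stabF hr φ (piN 2) hφ 1 4 (fun g => hin 1 g (by decide)) a2
    (fun k hk hk0 => sep2 _ _ a1 k hk hk0) w hw (hfix _)
  have w2 := stabF hr φ (piN 2) hφ 2 4 (fun g => hin 2 g (by decide)) b2
    (fun k hk hk0 => sep2 _ _ b1 k hk hk0) w w1 (hfix _)
  have w3 := stabF hr φ (piN 2) hφ 3 4 (fun g => hin 3 g (by decide)) c2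
    (fun k hk hk0 => sep2 _ _ c1 k hk hk0) w w2 (hfix _)
  have w4 := stabF hr φ (piN 2) hφ 4 4 (fun g => hin 4 g (by decide)) d2
    (fun k hk hk0 => sep2 _ _ d1 k hk hk0) w w3 (hfix _)
  have e5 : S ((4 : Fin 6) + 1) ((4 : Fin 6) + 1) = ∅ := by
    ext i; fin_cases i <;> simp [S]
  rw [e5] at w4
  simpa using w4

section core

variable {P : Type*} [Group P] (g : ℕ → P)

/-- **Facets**: an element acting trivially is trivial. -/
theorem coreFT {n : ℕ} (h : Cox g) (φ : P →* Equiv.Perm (XN n))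
    (htriv : ∀ w ∈ closure {g 1, g 2, g 3, g 4}, φ w = 1 → w = 1)
    (hφ : ∀ i : Fin 6, i ≠ 5 → ∀ v, φ (g i) (piN n v) = piN n (B i v))
    (hX : (g 0 * (g 1 * g 2 * g 3 * g 2 * g 1) * (g 4 * g 3 * g 2 * g 3 * g 4)) ^ (2 * n) = 1)
    (x : P) (hx : x ∈ closure {g 0, g 1, g 2, g 3, g 4}) (h1 : φ x = 1) : x = 1 := by
  obtain ⟨a, w, hw, e⟩ := WrdQ.decomp g h hx
  have hr : ∀ i ∈ ({0, 1, 2, 3, 4} : Finset (Fin 6)), ∀ j ∈ ({0, 1, 2, 3, 4} : Finset (Fin 6)),
      ((fun i : Fin 6 => g i) i * (fun i : Fin 6 => g i) j) ^ coxB i j = 1 := by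
    intro i hi j hj
    have hi5 : i ≠ 5 := by rintro rfl; revert hi; decide
    have hj5 : j ≠ 5 := by rintro rfl; revert hj; decide
    rw [coxF i j hi5 hj5]
    refine h i j ?_ ?_
    · revert hi5; revert i; decide
    · revert hj5; revert j; decide
  have hφS : ∀ i ∈ ({0, 1, 2, 3, 4} : Finset (Fin 6)), ∀ v,
      φ ((fun i : Fin 6 => g i) i) (piN n v) = piN n (B i v) := by
    intro i hi v
    refine hφ i ?_ v
    rintro rfl
    revert hi
    decide
  have hbF : ∀ i < 5, ∀ v, φ (g i) (piN n v) = piN n (bF i v) := by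
    intro i hi v
    rw [bF, dif_pos (by omega)]
    refine hφ ⟨i, by omega⟩ ?_ v
    intro e
    have := congrArg Fin.val e
    norm_num at this
    omega
  have hw' : w ∈ closure ((fun i : Fin 6 => g i) '' ({1, 2, 3, 4} : Set (Fin 6))) := by
    rw [gsetF]; exact hw
  have hw'' : w ∈ closure ((fun i : Fin 6 => g i) '' (({1, 2, 3, 4} : Finset (Fin 6)) :
      Set (Fin 6))) := by simpa using hw'
  have f1 := fix_of_notMem hr φ (piN n) hφS {1, 2, 3, 4} (by decide) 0 (by decide) w hw''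
  have f2 : φ (pp (trq g) a) (piN n (fvB 0)) = piN n (fvB 0) := by
    have h2 : φ x (piN n (fvB 0)) = piN n (fvB 0) := by rw [h1]; rfl
    rw [e, map_mul, Equiv.Perm.mul_apply, f1] at h2
    exact h2
  have ht1 := coreN g h n φ hbF hX a f2
  rw [ht1, one_mul] at e
  rw [e]
  exact htriv w hw (by rw [← e]; exact h1)

/-- **Vertex-figures**: an element acting trivially is trivial. -/
theorem coreVT {n : ℕ} (h : Cox g) (φ : P →* Equiv.Perm (XN n))
    (htriv : ∀ w ∈ closure {g 1, g 2, g 3, g 4}, φ w = 1 → w = 1)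
    (hφ : ∀ i : Fin 6, i ≠ 0 → ∀ v, φ (g (5 - (i : ℕ))) (piN n v) = piN n (B i v)) (x : P)
    (hx : x ∈ closure {g 0, g 1, g 2, g 3, g 4}) (h1 : φ x = 1)
    (hT : ∀ j, trq g j ^ n = 1) : x = 1 := by
  obtain ⟨a, w, hw, e⟩ := WrdQ.decomp g h hx
  have hr : ∀ i ∈ ({1, 2, 3, 4, 5} : Finset (Fin 6)), ∀ j ∈ ({1, 2, 3, 4, 5} : Finset (Fin 6)),
      ((fun i : Fin 6 => g (5 - (i : ℕ))) i * (fun i : Fin 6 => g (5 - (i : ℕ))) j) ^ coxB i j
        = 1 := by
    intro i hi j hj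
    have hi5 : i ≠ 0 := by rintro rfl; revert hi; decide
    have hj5 : j ≠ 0 := by rintro rfl; revert hj; decide
    rw [coxV i j hi5 hj5]
    refine h (5 - (i : ℕ)) (5 - (j : ℕ)) ?_ ?_
    · revert hi5; revert i; decide
    · revert hj5; revert j; decide
  have hφS : ∀ i ∈ ({1, 2, 3, 4, 5} : Finset (Fin 6)), ∀ v,
      φ ((fun i : Fin 6 => g (5 - (i : ℕ))) i) (piN n v) = piN n (B i v) := by
    intro i hi v
    refine hφ i ?_ v
    rintro rfl
    revert hi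
    decide
  have hP : (PX n 0)⁻¹ = PX n 0 := inv_eq_of_mul_eq_one_left (PX_sq n 0)
  let φ' : P →* Equiv.Perm (XN n) := (MulAut.conj (PX n 0)).toMonoidHom.comp φ
  have hφ' : ∀ y, φ' y = PX n 0 * φ y * PX n 0 := by
    intro y
    change PX n 0 * φ y * (PX n 0)⁻¹ = _
    rw [hP]
  have hbV : ∀ i < 5, ∀ v, φ' (g i) (piN n v) = piN n (bV i v) := by
    intro i hi v
    rw [hφ', Equiv.Perm.mul_apply, Equiv.Perm.mul_apply, PX_pi, bV, bF, dif_pos (by omega)]
    have h3 := hφ ⟨5 - i, by omega⟩ (by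
      intro e
      have := congrArg Fin.val e
      norm_num at this
      omega) (R 0 v)
    have h4 : 5 - (5 - i) = i := by omega
    simp only [h4] at h3
    rw [h3, PX_pi]
  have hw' : w ∈ closure ((fun i : Fin 6 => g (5 - (i : ℕ))) '' ({1, 2, 3, 4} : Set (Fin 6))) := by
    rw [gsetV]; exact hw
  have hw'' : w ∈ closure ((fun i : Fin 6 => g (5 - (i : ℕ))) ''
      (({1, 2, 3, 4} : Finset (Fin 6)) : Set (Fin 6))) := by simpa using hw'
  have f1 := fix_of_notMem hr φ (piN n) hφS {1, 2, 3, 4} (by decide) 5 (by decide) w hw''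
  have f2 : φ (pp (trq g) a) (piN n (fvB 5)) = piN n (fvB 5) := by
    have h2 : φ x (piN n (fvB 5)) = piN n (fvB 5) := by rw [h1]; rfl
    rw [e, map_mul, Equiv.Perm.mul_apply, f1] at h2
    exact h2
  have f3 : φ' (pp (trq g) a) (piN n ((0, 0, 0, 0), 0, -1)) = piN n ((0, 0, 0, 0), 0, -1) := by
    have r1 : R 0 ((0, 0, 0, 0), 0, -1) = fvB 5 := by decide
    have r2 : R 0 (fvB 5) = ((0, 0, 0, 0), 0, -1) := by decide
    rw [hφ', Equiv.Perm.mul_apply, Equiv.Perm.mul_apply, PX_pi, r1, f2, PX_pi, r2]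
  have ht : ∀ k v, φ' (trq g k) (piN n v) = piN n (E (yV k) v) := by
    intro k v
    rw [trq, ev_act' (piN n) g φ' bV hbV (tq k) (WrdQ.tq_lt k), tV]
  rw [prod_E' (piN n) φ' ht] at f3
  obtain ⟨⟨w0, w1, w2, w3⟩, k1, k2, ee⟩ := memN (Or.inr rfl) f3
  simp only [yV, Matrix.cons_val_zero, Matrix.cons_val_one, Matrix.cons_val, Prod.smul_mk,
    smul_eq_mul, Prod.mk_add_mk, Prod.mk.injEq] at ee k1 k2
  obtain ⟨e1, e2, e3, e4⟩ := ee
  obtain ⟨u, hu⟩ : ∃ u, w0 = 2 * u := ⟨w0 / 2, by omega⟩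
  obtain ⟨r, hr'⟩ : ∃ r, w1 + w2 + w3 = 2 * r := ⟨(w1 + w2 + w3) / 2, by omega⟩
  obtain rfl : w1 = 2 * r - w2 - w3 := by omega
  subst hu
  have a3 : a 3 = n * (w2 - w3) := by rw [mul_sub]; linarith
  have a1 : a 1 = n * (w3 - r) := by
    have : 2 * a 1 = 2 * (n * (w3 - r)) := by
      have t : (n : ℤ) * (2 * r - w2 - w3) = 2 * (n * r) - n * w2 - n * w3 := by ring
      rw [t] at e2
      rw [mul_sub] at a3 ⊢
      linarith
    linarith
  have a0 : a 0 = n * (u + r - w2) := by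
    have t : (n : ℤ) * (2 * u) = 2 * (n * u) := by ring
    rw [t] at e1
    rw [mul_sub] at a1 a3 ⊢
    rw [mul_add]
    linarith
  have a2 : a 2 = n * (w2 + (u + r - w2) + (w3 - r)) := by
    rw [mul_add, mul_add, ← a0, ← a1]
    linarith
  have ht1 : pp (trq g) a = 1 := by
    rw [pp, a0, a1, a2, a3, zpow_mul, zpow_mul, zpow_mul, zpow_mul, zpow_natCast, zpow_natCast,
      zpow_natCast, zpow_natCast, hT 0, hT 1, hT 2, hT 3]
    simp
  rw [ht1, one_mul] at e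
  rw [e]
  exact htriv w hw (by rw [← e]; exact h1)

end core

/-- **Facets of (B), Q-type**, `n = 2`. -/
theorem fB_Q2 : ∃ f : EmbDefs.FacB 2 2 →* GamB 2 2 2 1,
    Function.Injective f ∧ ∀ i : Fin 5, f (PresentedGroup.of i) = PresentedGroup.of i.castSucc := by
  obtain ⟨f, hf⟩ := mkhom Fin.castSucc (hFac 2 2 2 1)
  obtain ⟨φ, hφ⟩ := actN 2
  have hg : ∀ i : Fin 6, i ≠ 5 → ∀ v, (φ.comp f) (gF 2 2 i) (piN 2 v) = piN 2 (B i v) := by
    intro i hi v
    have hi' : (i : ℕ) < 5 := by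
      revert hi; revert i; decide
    rw [MonoidHom.comp_apply, gF, eF, dif_pos hi', hf]
    exact hφ _ v
  refine ⟨f, inj_of f fun x hx => ?_, hf⟩
  refine coreFT (gF 2 2) (coxgF 2 2) (φ.comp f) ?_ hg (relF2 2) x (gen5 eF heF x)
    (by rw [MonoidHom.comp_apply, hx, map_one])
  intro w hw hw1
  refine triv2 (r := fun i : Fin 6 => gF 2 2 i) (F := {0, 1, 2, 3, 4}) ?_ (by decide) (φ.comp f)
    ?_ w (by rw [gsetF]; exact hw) hw1
  · intro i hi j hj
    have hi5 : i ≠ 5 := by rintro rfl; revert hi; decide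
    have hj5 : j ≠ 5 := by rintro rfl; revert hj; decide
    rw [coxF i j hi5 hj5]
    refine coxgF 2 2 i j ?_ ?_
    · revert hi5; revert i; decide
    · revert hj5; revert j; decide
  · intro i hi v
    refine hg i ?_ v
    rintro rfl
    revert hi
    decide

/-- **Vertex-figures of (B), Q-type**, `n = 2`. -/
theorem vB_Q2 : ∃ f : EmbDefs.VerB 2 1 →* GamB 2 2 2 1,
    Function.Injective f ∧ ∀ i : Fin 5, f (PresentedGroup.of i) = PresentedGroup.of i.succ := by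
  obtain ⟨f, hf⟩ := mkhom Fin.succ (hVer 2 2 2 1)
  obtain ⟨φ, hφ⟩ := actN 2
  have hg : ∀ i : Fin 6, i ≠ 0 → ∀ v,
      (φ.comp f) (gV 2 1 (5 - (i : ℕ))) (piN 2 v) = piN 2 (B i v) := by
    intro i hi v
    rw [MonoidHom.comp_apply, gV, hf, hφ, eV_succ i hi]
  refine ⟨f, inj_of f fun x hx => ?_, hf⟩
  refine coreVT (gV 2 1) (coxgV 2 1) (φ.comp f) ?_ hg x (gen5 eV heV x)
    (by rw [MonoidHom.comp_apply, hx, map_one])
    (fun j => (WrdQ.tpow _ (coxgV 2 1) 2 (relV1 2) j).2)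
  intro w hw hw1
  refine triv2 (r := fun i : Fin 6 => gV 2 1 (5 - (i : ℕ))) (F := {1, 2, 3, 4, 5}) ?_ (by decide)
    (φ.comp f) ?_ w (by rw [gsetV]; exact hw) hw1
  · intro i hi j hj
    have hi5 : i ≠ 0 := by rintro rfl; revert hi; decide
    have hj5 : j ≠ 0 := by rintro rfl; revert hj; decide
    rw [coxV i j hi5 hj5]
    refine coxgV 2 1 (5 - (i : ℕ)) (5 - (j : ℕ)) ?_ ?_
    · revert hi5; revert i; decide
    · revert hj5; revert j; decide
  · intro i hi v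
    refine hg i ?_ v
    rintro rfl
    revert hi
    decide

/-- **Facets of (B), Q-type**, for all `n ≥ 2`. -/
theorem fB_Qall (n : ℕ) (hn : 2 ≤ n) : ∃ f : EmbDefs.FacB n 2 →* GamB n 2 n 1,
    Function.Injective f ∧ ∀ i : Fin 5, f (PresentedGroup.of i) = PresentedGroup.of i.castSucc := by
  rcases Nat.lt_or_ge n 3 with h | h
  · obtain rfl : n = 2 := by omega
    exact fB_Q2
  · exact EmbBN90.fB_QN n h

/-- **Vertex-figures of (B), Q-type**, for all `n ≥ 2`. -/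
theorem vB_Qall (n : ℕ) (hn : 2 ≤ n) : ∃ f : EmbDefs.VerB n 1 →* GamB n 2 n 1,
    Function.Injective f ∧ ∀ i : Fin 5, f (PresentedGroup.of i) = PresentedGroup.of i.succ := by
  rcases Nat.lt_or_ge n 3 with h | h
  · obtain rfl : n = 2 := by omega
    exact vB_Q2
  · exact EmbBN90.vB_QN n h

/-- **The intersection property of family (B), Q-type**, for all `n ≥ 2`. -/
theorem scBall (n : ℕ) (hn : 2 ≤ n) :
    Function.Injective (PresentedGroup.of : Fin 6 → GamB n 2 n 1) ∧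
    (∀ i, (PresentedGroup.of i : GamB n 2 n 1) ≠ 1) ∧
    ∀ I J : Set (Fin 6),
      Subgroup.closure ((PresentedGroup.of : Fin 6 → GamB n 2 n 1) '' I) ⊓
        Subgroup.closure ((PresentedGroup.of : Fin 6 → GamB n 2 n 1) '' J) =
      (Subgroup.closure ((PresentedGroup.of : Fin 6 → GamB n 2 n 1) '' (I ∩ J)) :
        Subgroup (GamB n 2 n 1)) := by
  rcases Nat.lt_or_ge n 3 with h | h
  · obtain rfl : n = 2 := by omega
    exact TwoB90.scB2two
  · exact QN6.scB2 n h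

end Pool.Agent.Lib.MP_c2d01e_co.Ex.TwoE90
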