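import Pool.Agent.Lib.MP_c2d01e_co.Ex.QN6
import Pool.Agent.Lib.MP_c2d01e_co.Ex.EmbB3
import Pool.Agent.Lib.MP_c2d01e_co.Ex.Emb

/-!
# Family (B), vectors `(2,2,0,0)`, `(2,0,0,0)`: the facet group embeds (helper6)

The action on `V / 2 N`.
-/

set_option autoImplicit false

namespace Pool.Agent.Lib.MP_c2d01e_co.Ex.TwoF6

open Subgroup EqDefs CGroupB
open QN6 (XN pq pq_eq inNp actN coord ppE)
open Pool.Agent.Lib.MP_c2d01e_co.Ex.Wrd (Cox ev pp)
open Pool.Agent.Lib.MP_c2d01e_co.Ex.WrdQ (tq trq)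
open Pool.Agent.Lib.MP_c2d01e_co.Ex.EmbB3

section sound

variable {G : Type*} [Group G] {r : Fin 6 → G} {S : Finset (Fin 6)}
  (hr : ∀ i ∈ S, ∀ j ∈ S, (r i * r j) ^ coxB i j = 1)
include hr

/-- The stabilizer of `fvB i` in a parabolic subgroup in which `i` has a finite component. -/
theorem stab2 {X : Type*} (φ : G →* Equiv.Perm X) (π : V → X)
    (hφ : ∀ i ∈ S, ∀ v, φ (r i) (π v) = π (B i v))
    (J : Finset (Fin 6)) (hJS : J ⊆ S) (a b i : Fin 6)
    (hsep : ∀ k < (orb a b i).length, k ≠ 0 → π (vec (orb a b i) k) ≠ π (fvB i))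
    (hai : a ≤ i) (hib : i ≤ b) (hcert : cert a b i = true) (hJ1 : ∀ g, a ≤ g → g ≤ b → g ∈ J)
    (hJ2 : ∀ g ∈ J, (a ≤ g ∧ g ≤ b) ∨ (g : ℕ) + 1 < a ∨ (b : ℕ) + 1 < g) (w : G)
    (hw : w ∈ closure (r '' (J : Set (Fin 6)))) (hfix : φ w (π (fvB i)) = π (fvB i)) :
    w ∈ closure (r '' ((J.erase i : Finset (Fin 6)) : Set (Fin 6))) := by
  set K := closure (r '' ((J.erase i : Finset (Fin 6)) : Set (Fin 6))) with hKdef
  have hL := ct_of_cert hcert
  set L := orb a b i with hLdef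
  have hrK : ∀ g ∈ J, g ≠ i → r g ∈ K := fun g hg hgi =>
    subset_closure ⟨g, by simp [hg, hgi], rfl⟩
  have hgens : ∀ g : Fin 6, g ∈ gens a b ↔ a ≤ g ∧ g ≤ b := by
    intro g; simp [gens]
  have hK : ∀ g ∈ gens a b, g ≠ i → r g ∈ K := fun g hg hgi =>
    hrK g (hJ1 g ((hgens g).1 hg).1 ((hgens g).1 hg).2) hgi
  have hS : ∀ g ∈ gens a b, g ∈ S := fun g hg =>
    hJS (hJ1 g ((hgens g).1 hg).1 ((hgens g).1 hg).2)
  have hinvr : ∀ g ∈ J, (r g)⁻¹ = r g := fun g hg => by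
    rw [inv_eq_iff_mul_eq_one]; exact sq hr g (hJS hg)
  have key : ∃ l < L.length, w • cc r L K 0 = cc r L K l ∧ φ w (π (vec L 0)) = π (vec L l) := by
    have stp : ∀ g ∈ J, ∀ y : G,
        (∃ l < L.length, y • cc r L K 0 = cc r L K l ∧ φ y (π (vec L 0)) = π (vec L l)) →
        ∃ l < L.length, (r g * y) • cc r L K 0 = cc r L K l ∧
          φ (r g * y) (π (vec L 0)) = π (vec L l) := by
      rintro g hg y ⟨l, hl, h1, h2⟩
      rcases hJ2 g hg with h3 | h3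
      · have hgg := (hgens g).2 h3
        refine ⟨T L l g, hL.lt l hl g hgg, ?_, ?_⟩
        · rw [mul_smul, h1, claim' hr hL K hS hK l hl g hgg]
        · rw [map_mul, Equiv.Perm.mul_apply, h2, hφ g (hJS hg)]
          congr 1
          have h4 : (L[T L l g]'(hL.lt l hl g hgg)).1 == B g (vec L l) :=
            List.findIdx_getElem (p := fun y : V × Fin 6 => y.1 == B g (vec L l))
              (w := hL.lt l hl g hgg)
          rw [beq_iff_eq] at h4
          rw [← h4, vec, List.getD_eq_getElem _ _ (hL.lt l hl g hgg)]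
      · refine ⟨l, hl, ?_, ?_⟩
        · have hgi : g ≠ i := by
            rintro rfl
            have h5 : (a : ℕ) ≤ (g : ℕ) := hai
            have h6 : (g : ℕ) ≤ (b : ℕ) := hib
            omega
          rw [mul_smul, h1, claim_far hr hL K hS g (hJS hg) (hrK g hg hgi) h3 l hl]
        · rw [map_mul, Equiv.Perm.mul_apply, h2, hφ g (hJS hg), hL.far l hl g h3]
    refine closure_induction_left (p := fun w _ => ∃ l < L.length, w • cc r L K 0 = cc r L K l ∧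
      φ w (π (vec L 0)) = π (vec L l)) ?_ ?_ ?_ hw
    · exact ⟨0, hL.pos, by rw [one_smul], by rw [map_one]; rfl⟩
    · rintro x ⟨g, hg, rfl⟩ y _ h
      exact stp g hg y h
    · rintro x ⟨g, hg, rfl⟩ y _ h
      rw [hinvr g hg]
      exact stp g hg y h
  obtain ⟨l, hl, h1, h2⟩ := key
  by_cases hl0 : l = 0
  · subst hl0
    rw [cc_zero] at h1
    have h3 : ((w : G) : G ⧸ K) = ((1 : G) : G ⧸ K) := by
      rw [← h1]
      change _ = ((w * 1 : G) : G ⧸ K)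
      rw [mul_one]
    rw [QuotientGroup.eq, mul_one] at h3
    exact (K.inv_mem_iff).1 h3
  · exfalso
    rw [hL.zero, hfix] at h2
    exact hsep l hl hl0 h2.symm

end sound

/-! ### Certificates modulo `2 N` -/

/-- The difference of two vectors is in `2 N`. -/
def in2N (v w : V) : Bool :=
  ((v.1.1 - w.1.1) % 4 == 0) &&
  (((v.1.2.1 - w.1.2.1) + (v.1.2.2.1 - w.1.2.2.1) + (v.1.2.2.2 - w.1.2.2.2)) % 4 == 0) &&
  ((v.1.2.1 - w.1.2.1) % 2 == 0) && ((v.1.2.2.1 - w.1.2.2.1) % 2 == 0) &&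
  ((v.1.2.2.2 - w.1.2.2.2) % 2 == 0) &&
  ((v.2.1 - w.2.1) % 4 == 0) && ((v.2.2 - w.2.2) % 4 == 0)

theorem in2N_of {v w : V} (h : pq 2 v = pq 2 w) : in2N v w = true := by
  obtain ⟨⟨⟨p, x, y, z⟩, a, b⟩, ⟨h1, h2, h3, h4⟩, h5⟩ := pq_eq.1 h
  have f1 : v.1.1 - w.1.1 = 2 * p := congrArg (fun v : V => v.1.1) h5
  have f2 : v.1.2.1 - w.1.2.1 = 2 * x := congrArg (fun v : V => v.1.2.1) h5
  have f3 : v.1.2.2.1 - w.1.2.2.1 = 2 * y := congrArg (fun v : V => v.1.2.2.1) h5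
  have f4 : v.1.2.2.2 - w.1.2.2.2 = 2 * z := congrArg (fun v : V => v.1.2.2.2) h5
  have f5 : v.2.1 - w.2.1 = 2 * a := congrArg (fun v : V => v.2.1) h5
  have f6 : v.2.2 - w.2.2 = 2 * b := congrArg (fun v : V => v.2.2) h5
  simp only at h1 h2 h3 h4
  simp only [in2N, f1, f2, f3, f4, f5, f6, Bool.and_eq_true, beq_iff_eq]
  refine ⟨⟨⟨⟨⟨⟨?_, ?_⟩, ?_⟩, ?_⟩, ?_⟩, ?_⟩, ?_⟩ <;> omega

/-- Separation modulo `2 N`. -/
def sepOk (a b i : Fin 6) : Bool :=
  (List.range (orb a b i).length).all fun k => k == 0 || !in2N (vec (orb a b i) k) (fvB i)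

theorem sep_of {a b i : Fin 6} (h : sepOk a b i = true) :
    ∀ k < (orb a b i).length, k ≠ 0 → pq 2 (vec (orb a b i) k) ≠ pq 2 (fvB i) := by
  intro k hk hk0 he
  rw [sepOk, List.all_eq_true] at h
  have h4 := h k (List.mem_range.2 hk)
  rw [in2N_of he] at h4
  simp [hk0] at h4

theorem s141 : sepOk 1 4 1 = true := by decide +kernel
theorem s242 : sepOk 2 4 2 = true := by decide +kernel
theorem s343 : sepOk 3 4 3 = true := by decide +kernel
theorem s444 : sepOk 4 4 4 = true := by decide +kernel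

/-- The finite part acts faithfully on `V / 2 N`. -/
theorem trivW2 {G : Type*} [Group G] {r : Fin 6 → G} {S : Finset (Fin 6)}
    (hr : ∀ i ∈ S, ∀ j ∈ S, (r i * r j) ^ coxB i j = 1)
    (hS : ({1, 2, 3, 4} : Finset (Fin 6)) ⊆ S) (φ : G →* Equiv.Perm (XN 2))
    (hφ : ∀ i ∈ S, ∀ v, φ (r i) (pq 2 v) = pq 2 (B i v)) (w : G)
    (hw : w ∈ closure (r '' ({1, 2, 3, 4} : Set (Fin 6)))) (h1 : φ w = 1) : w = 1 := by
  have fx : ∀ i, φ w (pq 2 (fvB i)) = pq 2 (fvB i) := fun i => by rw [h1]; rfl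
  have w1 : w ∈ closure (r '' (({1, 2, 3, 4} : Finset (Fin 6)) : Set (Fin 6))) := by
    simpa using hw
  have w2 := stab2 hr φ (pq 2) hφ {1, 2, 3, 4} hS 1 4 1 (sep_of s141) (by decide) (by decide)
    c141 (by decide) (by decide) w w1 (fx 1)
  have e2 : ({1, 2, 3, 4} : Finset (Fin 6)).erase 1 = {2, 3, 4} := by decide
  rw [e2] at w2
  have w3 := stab2 hr φ (pq 2) hφ {2, 3, 4} ((by decide : ({2, 3, 4} : Finset (Fin 6)) ⊆
    {1, 2, 3, 4}).trans hS) 2 4 2 (sep_of s242) (by decide) (by decide) c242 (by decide)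
    (by decide) w w2 (fx 2)
  have e3 : ({2, 3, 4} : Finset (Fin 6)).erase 2 = {3, 4} := by decide
  rw [e3] at w3
  have w4 := stab2 hr φ (pq 2) hφ {3, 4} ((by decide : ({3, 4} : Finset (Fin 6)) ⊆
    {1, 2, 3, 4}).trans hS) 3 4 3 (sep_of s343) (by decide) (by decide) c343 (by decide)
    (by decide) w w3 (fx 3)
  have e4 : ({3, 4} : Finset (Fin 6)).erase 3 = {4} := by decide
  rw [e4] at w4
  have w5 := stab2 hr φ (pq 2) hφ {4} ((by decide : ({4} : Finset (Fin 6)) ⊆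
    {1, 2, 3, 4}).trans hS) 4 4 4 (sep_of s444) (by decide) (by decide) c444 (by decide)
    (by decide) w w4 (fx 4)
  have e5 : ({4} : Finset (Fin 6)).erase 4 = ∅ := by decide
  rw [e5] at w5
  simpa using w5

/-- **Facets of (B), `n = 2`**. -/
theorem fB_Q2 : ∃ f : EmbDefs.FacB 2 2 →* GamB 2 2 2 1,
    Function.Injective f ∧ ∀ i : Fin 5, f (PresentedGroup.of i) = PresentedGroup.of i.castSucc := by
  obtain ⟨f, hf⟩ := mkhom Fin.castSucc (hFac 2 2 2 1)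
  obtain ⟨φ2, hφ2⟩ := actN 2
  refine ⟨f, inj_of f fun x hx => ?_, hf⟩
  have h := coxgF 2 2
  have hact : ∀ i : Fin 6, (i : ℕ) < 5 → ∀ v,
      (φ2.comp f) (gF 2 2 i) (pq 2 v) = pq 2 (B i v) := by
    intro i hi v
    rw [MonoidHom.comp_apply, gF, eF, dif_pos hi, hf]
    exact hφ2 _ v
  have hx1 : (φ2.comp f) x = 1 := by rw [MonoidHom.comp_apply, hx, map_one]
  obtain ⟨a, w, hw, e⟩ := WrdQ.decomp (gF 2 2) h (gen5 eF heF x)
  have hw0 : (φ2.comp f) w (pq 2 ((0, 0, 0, 0), 0, 1)) = pq 2 ((0, 0, 0, 0), 0, 1) := by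
    refine closure_induction (p := fun w _ => (φ2.comp f) w (pq 2 ((0, 0, 0, 0), 0, 1)) =
      pq 2 ((0, 0, 0, 0), 0, 1)) ?_ ?_ ?_ ?_ hw
    · rintro y (rfl | rfl | rfl | rfl)
      · exact hact 1 (by decide) _
      · exact hact 2 (by decide) _
      · exact hact 3 (by decide) _
      · exact hact 4 (by decide) _
    · rw [map_one]; rfl
    · intro y z _ _ h1 h2
      rw [map_mul, Equiv.Perm.mul_apply, h2, h1]
    · intro y _ h1
      rw [map_inv, Equiv.Perm.inv_eq_iff_eq, h1]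
  have hp : (φ2.comp f) (pp (trq (gF 2 2)) a) (pq 2 ((0, 0, 0, 0), 0, 1)) =
      pq 2 ((0, 0, 0, 0), 0, 1) := by
    have h6 := hx1
    rw [e, map_mul] at h6
    have h7 := congrArg (fun p : Equiv.Perm (XN 2) => p (pq 2 ((0, 0, 0, 0), 0, 1))) h6
    simp only [Equiv.Perm.mul_apply, hw0, Equiv.Perm.coe_one, id_eq] at h7
    exact h7
  rw [ppE (φ2.comp f) (pq 2) (gF 2 2) hact] at hp
  obtain ⟨c, c1, c2, c3⟩ := coord 2 (by norm_num) a hp
  have ht := QN6.pp_one _ h 2 (relF2 2) a c c1 c2 c3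
  rw [ht, one_mul] at e
  subst e
  have hr : ∀ i ∈ ({0, 1, 2, 3, 4} : Finset (Fin 6)), ∀ j ∈ ({0, 1, 2, 3, 4} : Finset (Fin 6)),
      ((fun i : Fin 6 => gF 2 2 (i : ℕ)) i * (fun i : Fin 6 => gF 2 2 (i : ℕ)) j) ^ coxB i j
        = 1 := by
    intro i hi j hj
    have hi5 : i ≠ 5 := by rintro rfl; revert hi; decide
    have hj5 : j ≠ 5 := by rintro rfl; revert hj; decide
    rw [coxF i j hi5 hj5]
    refine h (i : ℕ) (j : ℕ) ?_ ?_
    · revert hi5; clear hi; revert i; decide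
    · revert hj5; clear hj; revert j; decide
  refine trivW2 hr (by decide) (φ2.comp f) ?_ x ?_ hx1
  · intro i hi v
    refine hact i ?_ v
    revert hi
    revert i
    decide
  · rw [gsetF]
    exact hw

end Pool.Agent.Lib.MP_c2d01e_co.Ex.TwoF6
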