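import Mathlib

/-!
# MP_c2d01e_co: the translation subgroup of the groups with the relations of `[4,3,3,4]`

A checker for identities of words (chains of braid moves and cancellations) and its application.
-/

set_option autoImplicit false

namespace Pool.Agent.Lib.MP_c2d01e_co.Ex.WrdC

/-- The Coxeter matrix of the string diagram `{4,3,3,4}` on the nodes `0, …, 4`. -/
def cx (i j : ℕ) : ℕ :=
  if i = j then 1
  else if (i = 0 ∧ j = 1) ∨ (i = 1 ∧ j = 0) ∨ (i = 3 ∧ j = 4) ∨ (i = 4 ∧ j = 3) then 4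
  else if i + 1 = j ∨ j + 1 = i then 3
  else 2

/-- The alternating word of length `k`. -/
def alt (i j : ℕ) : ℕ → List ℕ
  | 0 => []
  | k + 1 => i :: alt j i k

/-- One braid move or cancellation at the position `s.1`. -/
def step (l : List ℕ) (s : ℕ × ℕ × ℕ) : List ℕ :=
  if s.2.1 < 5 ∧ s.2.2 < 5 then
    if s.2.1 = s.2.2 then
      if (l.drop s.1).take 2 = [s.2.1, s.2.1] then l.take s.1 ++ (l.drop s.1).drop 2 else l
    else if (l.drop s.1).take (cx s.2.1 s.2.2) = alt s.2.1 s.2.2 (cx s.2.1 s.2.2) then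
      l.take s.1 ++ (alt s.2.2 s.2.1 (cx s.2.1 s.2.2) ++ (l.drop s.1).drop (cx s.2.1 s.2.2))
    else l
  else l

/-- A chain of steps. -/
def run (l : List ℕ) (ss : List (ℕ × ℕ × ℕ)) : List ℕ := ss.foldl step l

variable {G : Type*} [Group G] (g : ℕ → G)

/-- The value of a word. -/
def ev (l : List ℕ) : G := (l.map g).prod

theorem ev_app (l l' : List ℕ) : ev g (l ++ l') = ev g l * ev g l' := by simp [ev]

theorem ev_cons (i : ℕ) (l : List ℕ) : ev g (i :: l) = g i * ev g l := by simp [ev]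

theorem ev_nil : ev g [] = 1 := by simp [ev]

theorem ev_one (i : ℕ) : ev g [i] = g i := by simp [ev]

/-- The Coxeter relations. -/
def Cox : Prop := ∀ i j : ℕ, i < 5 → j < 5 → (g i * g j) ^ cx i j = 1

variable {g} in
theorem sq (h : Cox g) {i : ℕ} (hi : i < 5) : g i * g i = 1 := by
  have h1 := h i i hi hi
  rwa [cx, if_pos rfl, pow_one] at h1

theorem q2 {a b : G} (ha : a * a = 1) (hb : b * b = 1) (h : (a * b) ^ 2 = 1) : a * b = b * a := by
  have ha' : a⁻¹ = a := inv_eq_of_mul_eq_one_left ha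
  have hb' : b⁻¹ = b := inv_eq_of_mul_eq_one_left hb
  have h1 : (a * b) * (a * b) = 1 := by rw [← h, pow_two]
  have h2 := eq_inv_of_mul_eq_one_left h1
  rw [mul_inv_rev, ha', hb'] at h2
  exact h2

theorem q3 {a b : G} (ha : a * a = 1) (hb : b * b = 1) (h : (a * b) ^ 3 = 1) :
    a * (b * a) = b * (a * b) := by
  have ha' : a⁻¹ = a := inv_eq_of_mul_eq_one_left ha
  have hb' : b⁻¹ = b := inv_eq_of_mul_eq_one_left hb
  have h1 : (a * (b * a)) * (b * (a * b)) = 1 := by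
    rw [← h]; simp only [pow_succ, pow_zero, one_mul, mul_assoc]
  have h2 := eq_inv_of_mul_eq_one_left h1
  rw [mul_inv_rev, mul_inv_rev, ha', hb', mul_assoc] at h2
  exact h2

theorem q4 {a b : G} (ha : a * a = 1) (hb : b * b = 1) (h : (a * b) ^ 4 = 1) :
    a * (b * (a * b)) = b * (a * (b * a)) := by
  have ha' : a⁻¹ = a := inv_eq_of_mul_eq_one_left ha
  have hb' : b⁻¹ = b := inv_eq_of_mul_eq_one_left hb
  have h1 : (a * (b * (a * b))) * (a * (b * (a * b))) = 1 := by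
    rw [← h]; simp only [pow_succ, pow_zero, one_mul, mul_assoc]
  have h2 := eq_inv_of_mul_eq_one_left h1
  rw [mul_inv_rev, mul_inv_rev, mul_inv_rev, ha', hb'] at h2
  simpa only [mul_assoc] using h2

theorem braid (h : Cox g) {i j : ℕ} (hi : i < 5) (hj : j < 5) (hij : i ≠ j) :
    ev g (alt i j (cx i j)) = ev g (alt j i (cx i j)) := by
  have ha := sq h hi
  have hb := sq h hj
  have hr := h i j hi hj
  have hc : cx i j = 2 ∨ cx i j = 3 ∨ cx i j = 4 := by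
    unfold cx
    rw [if_neg hij]
    split_ifs <;> simp
  rcases hc with hc | hc | hc <;> rw [hc] at hr ⊢
  · simp only [alt, ev_cons, ev_nil, mul_one]
    exact q2 ha hb hr
  · simp only [alt, ev_cons, ev_nil, mul_one]
    exact q3 ha hb hr
  · simp only [alt, ev_cons, ev_nil, mul_one]
    exact q4 ha hb hr

theorem ev_split (l : List ℕ) (p k : ℕ) :
    ev g l = ev g (l.take p) * (ev g ((l.drop p).take k) * ev g ((l.drop p).drop k)) := by
  rw [← ev_app, List.take_append_drop, ← ev_app, List.take_append_drop]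

theorem ev_step (h : Cox g) (l : List ℕ) (s : ℕ × ℕ × ℕ) : ev g (step l s) = ev g l := by
  obtain ⟨p, i, j⟩ := s
  unfold step
  split_ifs with h1 h2 h3 h4
  · dsimp only at h1 h2 h3 ⊢
    rw [ev_app, ev_split g l p 2, h3, ev_cons, ev_one, sq h h1.1, one_mul]
  · rfl
  · dsimp only at h1 h2 h4 ⊢
    rw [ev_app, ev_app, ev_split g l p (cx i j), h4, braid g h h1.1 h1.2 h2]
  · rfl
  · rfl

theorem ev_run (h : Cox g) (ss : List (ℕ × ℕ × ℕ)) (l : List ℕ) : ev g (run l ss) = ev g l := by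
  induction ss generalizing l with
  | nil => rfl
  | cons s ss ih =>
    have e : run l (s :: ss) = run (step l s) ss := rfl
    rw [e, ih, ev_step g h]

theorem word_eq (h : Cox g) (l l' : List ℕ) (s s' : List (ℕ × ℕ × ℕ)) (e : run l s = run l' s') :
    ev g l = ev g l' := by
  rw [← ev_run g h s l, e, ev_run g h s' l']

theorem ev_rev (h : Cox g) (l : List ℕ) (hl : ∀ i ∈ l, i < 5) : ev g l.reverse = (ev g l)⁻¹ := by
  induction l with
  | nil => simp [ev]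
  | cons i l ih =>
    have hi : g i * g i = 1 := sq h (hl i (by simp))
    have hi' : (g i)⁻¹ = g i := inv_eq_of_mul_eq_one_left hi
    rw [List.reverse_cons, ev_app, ih (fun k hk => hl k (by simp [hk])), ev_one, ev_cons,
      mul_inv_rev, hi']

/-- The word of a unit translation. -/
def tT : List ℕ := [4, 3, 2, 1, 0, 1, 2, 3]

/-- The four unit translations. -/
def tw (j : Fin 4) : List ℕ :=
  ![tT, [3] ++ (tT ++ [3]), [2, 3] ++ (tT ++ [3, 2]), [1, 2, 3] ++ (tT ++ [3, 2, 1])] j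

/-- The words of the relators. -/
def wV4 : List ℕ := [0, 1, 2, 3, 4, 0, 1, 2, 3, 4, 0, 1, 2, 3, 4, 0, 1, 2, 3, 4]

/-- The words of the relators. -/
def wV2 : List ℕ := [0, 1, 2, 3, 4, 3, 2, 0, 1, 2, 3, 4, 3, 2]

/-- The words of the relators. -/
def wV1 : List ℕ := [0, 1, 2, 3, 4, 3, 2, 1]

/-- Their values. -/
def tr (j : Fin 4) : G := ev g (tw j)

theorem tw_lt (j : Fin 4) : ∀ i ∈ tw j, i < 5 := by
  revert j
  decide


theorem c10 (h : Cox g) : ev g (tw 1 ++ tw 0) = ev g (tw 0 ++ tw 1) :=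
  word_eq g h _ _
    [(8, 3, 3), (7, 2, 4), (8, 2, 3), (10, 3, 1), (11, 3, 0), (12, 3, 1), (6, 1, 4), (7, 1, 3), (8, 1, 2), (10, 2, 0), (5, 0, 4), (6, 0, 3), (7, 0, 2), (4, 1, 4), (5, 1, 3), (3, 2, 4), (0, 3, 4), (3, 3, 2), (5, 2, 1), (7, 1, 0), (10, 1, 2), (12, 2, 3), (14, 3, 3), (11, 1, 3), (9, 0, 2), (10, 0, 3), (6, 2, 0), (7, 2, 1), (9, 1, 3), (4, 3, 1), (5, 3, 0), (6, 3, 1), (7, 3, 2)]
    [(7, 3, 3), (14, 3, 3), (6, 2, 4), (5, 1, 4), (4, 0, 4), (3, 1, 4), (2, 2, 4)]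
    (by decide +kernel)

theorem c20 (h : Cox g) : ev g (tw 2 ++ tw 0) = ev g (tw 0 ++ tw 2) :=
  word_eq g h _ _
    [(9, 3, 3), (8, 2, 2), (7, 1, 4), (8, 1, 3), (9, 1, 2), (11, 2, 0), (6, 0, 4), (7, 0, 3), (8, 0, 2), (5, 1, 4), (6, 1, 3), (4, 2, 4), (1, 3, 4), (4, 3, 2), (6, 2, 1), (8, 1, 0), (11, 1, 2), (13, 2, 2), (12, 1, 3), (10, 0, 2), (11, 0, 3), (7, 2, 0), (8, 2, 1), (10, 1, 3), (5, 3, 1), (6, 3, 0), (7, 3, 1), (8, 3, 2), (0, 2, 4)]
    [(6, 2, 3), (8, 3, 3), (15, 3, 3), (14, 2, 2), (7, 2, 4), (5, 1, 3), (6, 1, 4), (4, 0, 3), (5, 0, 4), (3, 1, 3), (4, 1, 4), (1, 3, 2), (3, 2, 4)]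
    (by decide +kernel)

theorem c21 (h : Cox g) : ev g (tw 2 ++ tw 1) = ev g (tw 1 ++ tw 2) :=
  word_eq g h _ _
    [(9, 3, 3), (8, 2, 2), (7, 1, 3), (8, 1, 4), (9, 1, 3), (10, 1, 2), (12, 2, 0), (6, 0, 3), (7, 0, 4), (8, 0, 3), (9, 0, 2), (5, 1, 3), (6, 1, 4), (7, 1, 3), (3, 3, 2), (5, 2, 4), (2, 4, 2), (0, 2, 3), (2, 3, 4), (5, 3, 2), (7, 2, 1), (9, 1, 0), (12, 1, 2), (14, 2, 2), (14, 3, 3), (11, 0, 2), (8, 2, 0), (9, 2, 1), (1, 2, 4)]
    [(8, 3, 3), (7, 2, 2), (15, 3, 3), (14, 2, 2), (6, 1, 3), (7, 1, 4), (8, 1, 3), (5, 0, 3), (6, 0, 4), (7, 0, 3), (4, 1, 3), (5, 1, 4), (6, 1, 3), (2, 3, 2), (4, 2, 4)]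
    (by decide +kernel)

theorem c30 (h : Cox g) : ev g (tw 3 ++ tw 0) = ev g (tw 0 ++ tw 3) :=
  word_eq g h _ _
    [(10, 3, 3), (9, 2, 2), (8, 1, 1), (7, 0, 4), (8, 0, 3), (9, 0, 2), (6, 1, 4), (7, 1, 3), (5, 2, 4), (2, 3, 4), (5, 3, 2), (7, 2, 1), (9, 1, 0), (12, 1, 1), (11, 0, 2), (12, 0, 3), (8, 2, 0), (9, 2, 1), (11, 1, 3), (6, 3, 1), (7, 3, 0), (8, 3, 1), (9, 3, 2), (1, 2, 4), (0, 1, 4)]
    [(7, 3, 1), (5, 1, 2), (7, 2, 3), (9, 3, 3), (16, 3, 3), (15, 2, 2), (14, 1, 1), (8, 2, 4), (6, 1, 3), (7, 1, 4), (4, 0, 2), (5, 0, 3), (6, 0, 4), (2, 2, 1), (4, 1, 3), (5, 1, 4), (1, 3, 1), (2, 3, 2), (4, 2, 4)]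
    (by decide +kernel)

theorem c31 (h : Cox g) : ev g (tw 3 ++ tw 1) = ev g (tw 1 ++ tw 3) :=
  word_eq g h _ _
    [(10, 3, 3), (9, 2, 2), (8, 1, 1), (7, 0, 3), (8, 0, 4), (9, 0, 3), (10, 0, 2), (6, 1, 3), (7, 1, 4), (8, 1, 3), (4, 3, 2), (6, 2, 4), (3, 4, 2), (1, 2, 3), (3, 3, 4), (6, 3, 2), (8, 2, 1), (10, 1, 0), (13, 1, 1), (14, 3, 3), (12, 0, 2), (9, 2, 0), (10, 2, 1), (2, 2, 4), (0, 1, 3), (1, 1, 4)]
    [(8, 3, 3), (6, 1, 2), (8, 2, 2), (16, 3, 3), (15, 2, 2), (14, 1, 1), (7, 1, 3), (8, 1, 4), (9, 1, 3), (5, 0, 2), (6, 0, 3), (7, 0, 4), (8, 0, 3), (3, 2, 1), (5, 1, 3), (6, 1, 4), (7, 1, 3), (2, 3, 1), (3, 3, 2), (5, 2, 4)]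
    (by decide +kernel)

theorem c32 (h : Cox g) : ev g (tw 3 ++ tw 2) = ev g (tw 2 ++ tw 3) :=
  word_eq g h _ _
    [(10, 3, 3), (9, 2, 2), (8, 1, 1), (7, 0, 2), (8, 0, 3), (9, 0, 4), (10, 0, 3), (11, 0, 2), (5, 2, 1), (7, 1, 3), (8, 1, 4), (9, 1, 3), (4, 3, 1), (5, 3, 2), (7, 2, 4), (3, 4, 1), (4, 4, 2), (2, 3, 1), (0, 1, 2), (2, 2, 3), (4, 3, 4), (7, 3, 2), (9, 2, 1), (11, 1, 0), (14, 1, 1), (15, 3, 3), (14, 2, 2), (3, 2, 4), (1, 1, 3), (2, 1, 4)]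
    [(9, 3, 3), (8, 2, 2), (7, 1, 1), (16, 3, 3), (15, 2, 2), (14, 1, 1), (6, 0, 2), (7, 0, 3), (8, 0, 4), (9, 0, 3), (10, 0, 2), (4, 2, 1), (6, 1, 3), (7, 1, 4), (8, 1, 3), (3, 3, 1), (4, 3, 2), (6, 2, 4)]
    (by decide +kernel)

theorem k00 (h : Cox g) : ev g ([0] ++ (tw 0 ++ [0])) = ev g (tw 0) :=
  word_eq g h _ _
    [(0, 0, 4), (1, 0, 3), (2, 0, 2), (3, 0, 1), (6, 0, 2), (7, 0, 3), (8, 0, 0)]
    []
    (by decide +kernel)

theorem k01 (h : Cox g) : ev g ([0] ++ (tw 1 ++ [0])) = ev g (tw 1) :=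
  word_eq g h _ _
    [(9, 3, 3), (0, 0, 3), (1, 0, 4), (2, 0, 3), (3, 0, 2), (4, 0, 1), (7, 0, 2), (8, 0, 0)]
    [(8, 3, 3)]
    (by decide +kernel)

theorem k02 (h : Cox g) : ev g ([0] ++ (tw 2 ++ [0])) = ev g (tw 2) :=
  word_eq g h _ _
    [(10, 3, 3), (9, 2, 2), (0, 0, 2), (1, 0, 3), (2, 0, 4), (3, 0, 3), (4, 0, 2), (5, 0, 1), (8, 0, 0)]
    [(9, 3, 3), (8, 2, 2)]
    (by decide +kernel)

theorem k03 (h : Cox g) : ev g ([0] ++ (tw 3 ++ [0])) = ev g ((tw 3).reverse) :=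
  word_eq g h _ _
    [(11, 3, 3), (10, 2, 2), (9, 1, 1), (8, 0, 0)]
    [(2, 3, 3), (1, 2, 2), (0, 1, 1)]
    (by decide +kernel)

theorem k10 (h : Cox g) : ev g ([1] ++ (tw 0 ++ [1])) = ev g (tw 0) :=
  word_eq g h _ _
    [(0, 1, 4), (1, 1, 3), (2, 1, 2), (4, 2, 0), (5, 2, 1), (7, 1, 3), (8, 1, 1)]
    []
    (by decide +kernel)

theorem k11 (h : Cox g) : ev g ([1] ++ (tw 1 ++ [1])) = ev g (tw 1) :=
  word_eq g h _ _
    [(9, 3, 3), (0, 1, 3), (1, 1, 4), (2, 1, 3), (3, 1, 2), (5, 2, 0), (6, 2, 1), (8, 1, 1)]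
    [(8, 3, 3)]
    (by decide +kernel)

theorem k12 (h : Cox g) : ev g ([1] ++ (tw 2 ++ [1])) = ev g (tw 3) :=
  word_eq g h _ _
    [(10, 3, 3), (9, 2, 2), (8, 1, 1)]
    [(10, 3, 3), (9, 2, 2), (8, 1, 1)]
    (by decide +kernel)

theorem k13 (h : Cox g) : ev g ([1] ++ (tw 3 ++ [1])) = ev g (tw 2) :=
  word_eq g h _ _
    [(0, 1, 1), (9, 3, 3), (8, 2, 2), (7, 1, 1)]
    [(9, 3, 3), (8, 2, 2)]
    (by decide +kernel)

theorem k20 (h : Cox g) : ev g ([2] ++ (tw 0 ++ [2])) = ev g (tw 0) :=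
  word_eq g h _ _
    [(0, 2, 4), (1, 2, 3), (3, 3, 1), (4, 3, 0), (5, 3, 1), (6, 3, 2), (8, 2, 2)]
    []
    (by decide +kernel)

theorem k21 (h : Cox g) : ev g ([2] ++ (tw 1 ++ [2])) = ev g (tw 2) :=
  word_eq g h _ _
    [(9, 3, 3), (8, 2, 2)]
    [(9, 3, 3), (8, 2, 2)]
    (by decide +kernel)

theorem k22 (h : Cox g) : ev g ([2] ++ (tw 2 ++ [2])) = ev g (tw 1) :=
  word_eq g h _ _
    [(0, 2, 2), (8, 3, 3), (7, 2, 2)]
    [(8, 3, 3)]
    (by decide +kernel)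

theorem k23 (h : Cox g) : ev g ([2] ++ (tw 3 ++ [2])) = ev g (tw 3) :=
  word_eq g h _ _
    [(11, 3, 3), (10, 2, 2), (9, 1, 1), (0, 2, 1), (2, 1, 3), (3, 1, 4), (4, 1, 3), (5, 1, 2), (7, 2, 0), (8, 2, 2)]
    [(10, 3, 3), (9, 2, 2), (8, 1, 1)]
    (by decide +kernel)

theorem k30 (h : Cox g) : ev g ([3] ++ (tw 0 ++ [3])) = ev g (tw 1) :=
  word_eq g h _ _
    [(8, 3, 3)]
    [(8, 3, 3)]
    (by decide +kernel)

theorem k31 (h : Cox g) : ev g ([3] ++ (tw 1 ++ [3])) = ev g (tw 0) :=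
  word_eq g h _ _
    [(0, 3, 3), (7, 3, 3)]
    []
    (by decide +kernel)

theorem k32 (h : Cox g) : ev g ([3] ++ (tw 2 ++ [3])) = ev g (tw 2) :=
  word_eq g h _ _
    [(10, 3, 3), (9, 2, 2), (0, 3, 2), (2, 2, 4), (3, 2, 3), (5, 3, 1), (6, 3, 0), (7, 3, 1), (8, 3, 3)]
    [(9, 3, 3), (8, 2, 2)]
    (by decide +kernel)

theorem k33 (h : Cox g) : ev g ([3] ++ (tw 3 ++ [3])) = ev g (tw 3) :=
  word_eq g h _ _
    [(11, 3, 3), (10, 2, 2), (9, 1, 1), (0, 3, 1), (1, 3, 2), (3, 2, 4), (4, 2, 3), (6, 3, 1), (7, 3, 0), (8, 3, 3)]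
    [(10, 3, 3), (9, 2, 2), (8, 1, 1)]
    (by decide +kernel)

theorem v4 (h : Cox g) : ev g wV4 = ev g (tw 0 ++ (tw 1 ++ (tw 2 ++ tw 3))).reverse :=
  word_eq g h _ _
    []
    [(2, 3, 3), (1, 2, 2), (0, 1, 1), (9, 3, 3), (8, 2, 2), (7, 1, 1), (14, 3, 3), (13, 2, 2), (6, 2, 0), (7, 2, 1), (9, 1, 3), (10, 1, 4), (11, 1, 3), (12, 1, 1), (17, 3, 3), (11, 3, 0), (12, 3, 1), (13, 3, 2), (15, 2, 4), (16, 2, 2), (5, 3, 0), (6, 3, 1), (7, 3, 2), (9, 2, 4), (10, 2, 0), (11, 2, 1), (13, 1, 3), (14, 1, 4), (15, 1, 1)]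
    (by decide +kernel)

theorem v2 (h : Cox g) : ev g wV2 = ev g (tw 2 ++ tw 3).reverse :=
  word_eq g h _ _
    [(6, 2, 0), (7, 2, 1), (9, 1, 3), (10, 1, 4), (11, 1, 3), (5, 3, 0), (6, 3, 1), (7, 3, 2), (9, 2, 4)]
    [(2, 3, 3), (1, 2, 2), (0, 1, 1), (9, 3, 3), (8, 2, 2), (7, 1, 1), (6, 2, 0), (7, 2, 1), (9, 1, 3), (10, 1, 4), (11, 1, 3), (5, 3, 0), (6, 3, 1), (7, 3, 2), (9, 2, 4)]
    (by decide +kernel)

theorem v1 (h : Cox g) : ev g wV1 = ev g (tw 3).reverse :=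
  word_eq g h _ _
    []
    [(2, 3, 3), (1, 2, 2), (0, 1, 1)]
    (by decide +kernel)

theorem conj_gen (h : Cox g) (k : ℕ) (hk : k = 0 ∨ k = 1 ∨ k = 2 ∨ k = 3) (j : Fin 4) :
    g k * tr g j * g k ∈ Subgroup.closure (Set.range (tr g)) := by
  have ht : ∀ i, tr g i ∈ Subgroup.closure (Set.range (tr g)) :=
    fun i => Subgroup.subset_closure ⟨i, rfl⟩
  have hw : ∀ i, ev g (tw i) ∈ Subgroup.closure (Set.range (tr g)) := ht
  have hr : ∀ i, ev g (tw i).reverse ∈ Subgroup.closure (Set.range (tr g)) := by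
    intro i
    rw [ev_rev g h (tw i) (tw_lt i)]
    exact inv_mem (ht i)
  have e : g k * tr g j * g k = ev g ([k] ++ (tw j ++ [k])) := by
    rw [ev_app, ev_app, ev_one, mul_assoc]
    rfl
  rw [e]
  rcases hk with rfl | rfl | rfl | rfl <;> fin_cases j
  · show ev g ([0] ++ (tw 0 ++ [0])) ∈ _
    rw [k00 g h]
    exact hw 0
  · show ev g ([0] ++ (tw 1 ++ [0])) ∈ _
    rw [k01 g h]
    exact hw 1
  · show ev g ([0] ++ (tw 2 ++ [0])) ∈ _
    rw [k02 g h]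
    exact hw 2
  · show ev g ([0] ++ (tw 3 ++ [0])) ∈ _
    rw [k03 g h]
    exact hr 3
  · show ev g ([1] ++ (tw 0 ++ [1])) ∈ _
    rw [k10 g h]
    exact hw 0
  · show ev g ([1] ++ (tw 1 ++ [1])) ∈ _
    rw [k11 g h]
    exact hw 1
  · show ev g ([1] ++ (tw 2 ++ [1])) ∈ _
    rw [k12 g h]
    exact hw 3
  · show ev g ([1] ++ (tw 3 ++ [1])) ∈ _
    rw [k13 g h]
    exact hw 2
  · show ev g ([2] ++ (tw 0 ++ [2])) ∈ _
    rw [k20 g h]
    exact hw 0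
  · show ev g ([2] ++ (tw 1 ++ [2])) ∈ _
    rw [k21 g h]
    exact hw 2
  · show ev g ([2] ++ (tw 2 ++ [2])) ∈ _
    rw [k22 g h]
    exact hw 1
  · show ev g ([2] ++ (tw 3 ++ [2])) ∈ _
    rw [k23 g h]
    exact hw 3
  · show ev g ([3] ++ (tw 0 ++ [3])) ∈ _
    rw [k30 g h]
    exact hw 1
  · show ev g ([3] ++ (tw 1 ++ [3])) ∈ _
    rw [k31 g h]
    exact hw 0
  · show ev g ([3] ++ (tw 2 ++ [3])) ∈ _
    rw [k32 g h]
    exact hw 2
  · show ev g ([3] ++ (tw 3 ++ [3])) ∈ _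
    rw [k33 g h]
    exact hw 3

theorem tr_comm (h : Cox g) (i j : Fin 4) : Commute (tr g i) (tr g j) := by
  have key : ∀ i j : Fin 4, ev g (tw i ++ tw j) = ev g (tw j ++ tw i) → Commute (tr g i) (tr g j) := by
    intro i j e
    rw [ev_app, ev_app] at e
    exact e
  fin_cases i <;> fin_cases j
  · exact Commute.refl _
  · exact (key 1 0 (c10 g h)).symm
  · exact (key 2 0 (c20 g h)).symm
  · exact (key 3 0 (c30 g h)).symm
  · exact key 1 0 (c10 g h)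
  · exact Commute.refl _
  · exact (key 2 1 (c21 g h)).symm
  · exact (key 3 1 (c31 g h)).symm
  · exact key 2 0 (c20 g h)
  · exact key 2 1 (c21 g h)
  · exact Commute.refl _
  · exact (key 3 2 (c32 g h)).symm
  · exact key 3 0 (c30 g h)
  · exact key 3 1 (c31 g h)
  · exact key 3 2 (c32 g h)
  · exact Commute.refl _

/-- Products of powers of four elements. -/
def pp (t : Fin 4 → G) (a : Fin 4 → ℤ) : G := t 0 ^ a 0 * t 1 ^ a 1 * t 2 ^ a 2 * t 3 ^ a 3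

theorem pp_mul {t : Fin 4 → G} (hc : ∀ i j, Commute (t i) (t j)) (a b : Fin 4 → ℤ) :
    pp t a * pp t b = pp t (a + b) := by
  have c : ∀ (i j : Fin 4) (x y : ℤ), Commute (t i ^ x) (t j ^ y) :=
    fun i j x y => (hc i j).zpow_zpow x y
  unfold pp
  rw [((((c 3 0 (a 3) (b 0)).mul_right (c 3 1 (a 3) (b 1))).mul_right
    (c 3 2 (a 3) (b 2)))).mul_mul_mul_comm,
    (((c 2 0 (a 2) (b 0)).mul_right (c 2 1 (a 2) (b 1)))).mul_mul_mul_comm,
    (c 1 0 (a 1) (b 0)).mul_mul_mul_comm]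
  simp only [Pi.add_apply, zpow_add]

theorem pp_zero (t : Fin 4 → G) : pp t 0 = 1 := by
  simp [pp]

theorem pp_mem {t : Fin 4 → G} (hc : ∀ i j, Commute (t i) (t j)) {x : G}
    (hx : x ∈ Subgroup.closure (Set.range t)) : ∃ a : Fin 4 → ℤ, x = pp t a := by
  induction hx using Subgroup.closure_induction with
  | mem x hx =>
    obtain ⟨j, rfl⟩ := hx
    refine ⟨Pi.single j 1, ?_⟩
    fin_cases j <;> simp [pp]
  | one => exact ⟨0, (pp_zero t).symm⟩
  | mul x y _ _ ihx ihy =>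
    obtain ⟨a, rfl⟩ := ihx
    obtain ⟨b, rfl⟩ := ihy
    exact ⟨a + b, pp_mul hc a b⟩
  | inv x _ ih =>
    obtain ⟨a, rfl⟩ := ih
    refine ⟨-a, inv_eq_of_mul_eq_one_left ?_⟩
    rw [pp_mul hc, neg_add_cancel, pp_zero]

/-- `W` normalizes the translation subgroup. -/
theorem norm_gen (h : Cox g) {k : ℕ} (hk : k = 0 ∨ k = 1 ∨ k = 2 ∨ k = 3) {a : G}
    (ha : a ∈ Subgroup.closure (Set.range (tr g))) :
    g k * a * g k ∈ Subgroup.closure (Set.range (tr g)) := by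
  have hk5 : k < 5 := by omega
  have hs := sq h hk5
  induction ha using Subgroup.closure_induction with
  | mem x hx =>
    obtain ⟨j, rfl⟩ := hx
    exact conj_gen g h k hk j
  | one => rw [mul_one, hs]; exact one_mem _
  | mul x y _ _ ihx ihy =>
    have e : g k * (x * y) * g k = (g k * x * g k) * (g k * y * g k) := by
      have : (g k * x * g k) * (g k * y * g k) = g k * x * (g k * g k) * y * g k := by
        simp only [mul_assoc]
      rw [this, hs, mul_one]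
      simp only [mul_assoc]
    rw [e]
    exact mul_mem ihx ihy
  | inv x _ ih =>
    have hi : (g k)⁻¹ = g k := inv_eq_of_mul_eq_one_left hs
    have e : g k * x⁻¹ * g k = (g k * x * g k)⁻¹ := by
      rw [mul_inv_rev, mul_inv_rev, hi, mul_assoc]
    rw [e]
    exact inv_mem ih

/-- The main statement. -/
theorem decomp (h : Cox g) {x : G} (hx : x ∈ Subgroup.closure {g 4, g 0, g 1, g 2, g 3}) :
    ∃ a : Fin 4 → ℤ, ∃ w ∈ Subgroup.closure {g 0, g 1, g 2, g 3}, x = pp (tr g) a * w := by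
  have key : ∀ x ∈ Subgroup.closure {g 4, g 0, g 1, g 2, g 3},
      ∃ a ∈ Subgroup.closure (Set.range (tr g)), ∃ w ∈ Subgroup.closure {g 0, g 1, g 2, g 3},
        x = a * w := by
    have hgW : ∀ k, (k = 0 ∨ k = 1 ∨ k = 2 ∨ k = 3) →
        g k ∈ Subgroup.closure {g 0, g 1, g 2, g 3} := by
      intro k hk
      refine Subgroup.subset_closure ?_
      rcases hk with rfl | rfl | rfl | rfl <;> simp
    have hevW : ∀ l : List ℕ, (∀ k ∈ l, (k = 0 ∨ k = 1 ∨ k = 2 ∨ k = 3)) →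
        ev g l ∈ Subgroup.closure {g 0, g 1, g 2, g 3} := by
      intro l hl
      induction l with
      | nil => rw [ev_nil]; exact one_mem _
      | cons i l ih =>
        rw [ev_cons]
        exact mul_mem (hgW i (hl i (by simp))) (ih (fun k hk => hl k (by simp [hk])))
    have hnW : ∀ w ∈ Subgroup.closure {g 0, g 1, g 2, g 3},
        ∀ a ∈ Subgroup.closure (Set.range (tr g)),
          w * a * w⁻¹ ∈ Subgroup.closure (Set.range (tr g)) := by
      intro w hw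
      have hstep : ∀ y ∈ ({g 0, g 1, g 2, g 3} : Set G), y⁻¹ = y ∧
          ∀ a ∈ Subgroup.closure (Set.range (tr g)),
            y * a * y ∈ Subgroup.closure (Set.range (tr g)) := by
        intro y hy
        have : ∃ k, (k = 0 ∨ k = 1 ∨ k = 2 ∨ k = 3) ∧ y = g k := by
          simp only [Set.mem_insert_iff, Set.mem_singleton_iff] at hy
          rcases hy with hy | hy | hy | hy
          · exact ⟨0, by simp, hy⟩
          · exact ⟨1, by simp, hy⟩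
          · exact ⟨2, by simp, hy⟩
          · exact ⟨3, by simp, hy⟩
        obtain ⟨k, hk, rfl⟩ := this
        exact ⟨inv_eq_of_mul_eq_one_left (sq h (by omega)), fun a ha => norm_gen g h hk ha⟩
      induction hw using Subgroup.closure_induction_left with
      | one => intro a ha; simpa using ha
      | mul_left x hx y _ ih =>
        intro a ha
        obtain ⟨hi, hc⟩ := hstep x hx
        have e : x * y * a * (x * y)⁻¹ = x * (y * a * y⁻¹) * x := by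
          rw [mul_inv_rev, hi]
          simp only [mul_assoc]
        rw [e]
        exact hc _ (ih a ha)
      | inv_mul_cancel x hx y _ ih =>
        intro a ha
        obtain ⟨hi, hc⟩ := hstep x hx
        have e : x⁻¹ * y * a * (x⁻¹ * y)⁻¹ = x * (y * a * y⁻¹) * x := by
          rw [mul_inv_rev, inv_inv, hi]
          simp only [mul_assoc]
        rw [e]
        exact hc _ (ih a ha)
    have hleft : ∀ y ∈ ({g 4, g 0, g 1, g 2, g 3} : Set G), y⁻¹ = y ∧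
        ∀ z : G, (∃ a ∈ Subgroup.closure (Set.range (tr g)),
          ∃ w ∈ Subgroup.closure {g 0, g 1, g 2, g 3}, z = a * w) →
          ∃ a ∈ Subgroup.closure (Set.range (tr g)),
            ∃ w ∈ Subgroup.closure {g 0, g 1, g 2, g 3}, y * z = a * w := by
      have hw : ∀ y ∈ Subgroup.closure {g 0, g 1, g 2, g 3}, 
          ∀ z : G, (∃ a ∈ Subgroup.closure (Set.range (tr g)),
            ∃ w ∈ Subgroup.closure {g 0, g 1, g 2, g 3}, z = a * w) →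
            ∃ a ∈ Subgroup.closure (Set.range (tr g)),
              ∃ w ∈ Subgroup.closure {g 0, g 1, g 2, g 3}, y * z = a * w := by
        rintro y hy z ⟨a, ha, w, hw, rfl⟩
        refine ⟨y * a * y⁻¹, hnW y hy a ha, y * w, mul_mem hy hw, ?_⟩
        rw [mul_assoc (y * a), ← mul_assoc y⁻¹, inv_mul_cancel, one_mul, mul_assoc]
      intro y hy
      rw [Set.mem_insert_iff] at hy
      rcases hy with rfl | hy
      · refine ⟨inv_eq_of_mul_eq_one_left (sq h (by omega)), ?_⟩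
        intro z hz
        have hv : ev g [3, 2, 1, 0, 1, 2, 3] ∈
            Subgroup.closure {g 0, g 1, g 2, g 3} := hevW _ (by decide)
        have e : g 4 = tr g 0 * (ev g [3, 2, 1, 0, 1, 2, 3])⁻¹ := by
          have e1 : tr g 0 = g 4 * ev g [3, 2, 1, 0, 1, 2, 3] := by
            rw [← ev_cons]
            rfl
          rw [e1, mul_assoc, mul_inv_cancel, mul_one]
        obtain ⟨a, ha, w, hw', e2⟩ := hw _ (inv_mem hv) z hz
        refine ⟨tr g 0 * a, mul_mem (Subgroup.subset_closure ⟨0, rfl⟩) ha, w, hw', ?_⟩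
        rw [e, mul_assoc, e2, mul_assoc]
      · have hy' : ∃ k, (k = 0 ∨ k = 1 ∨ k = 2 ∨ k = 3) ∧ y = g k := by
          simp only [Set.mem_insert_iff, Set.mem_singleton_iff] at hy
          rcases hy with hy | hy | hy | hy
          · exact ⟨0, by simp, hy⟩
          · exact ⟨1, by simp, hy⟩
          · exact ⟨2, by simp, hy⟩
          · exact ⟨3, by simp, hy⟩
        obtain ⟨k, hk, rfl⟩ := hy'
        exact ⟨inv_eq_of_mul_eq_one_left (sq h (by omega)), fun z hz => hw _ (hgW k hk) z hz⟩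
    intro x hx
    induction hx using Subgroup.closure_induction_left with
    | one => exact ⟨1, one_mem _, 1, one_mem _, by simp⟩
    | mul_left x hx y _ ih => exact (hleft x hx).2 y ih
    | inv_mul_cancel x hx y _ ih =>
      rw [(hleft x hx).1]
      exact (hleft x hx).2 y ih
  obtain ⟨a, ha, w, hw, rfl⟩ := key x hx
  obtain ⟨b, rfl⟩ := pp_mem (tr_comm g h) ha
  exact ⟨b, w, hw, rfl⟩



theorem ctab (h : Cox g) {k : ℕ} (hk : k < 5) {u v : List ℕ} (e : ev g ([k] ++ (u ++ [k])) = ev g v) :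
    g k * ev g u * (g k)⁻¹ = ev g v := by
  have hi : (g k)⁻¹ = g k := inv_eq_of_mul_eq_one_left (sq h hk)
  rw [← e, ev_app, ev_app, ev_one, hi, mul_assoc]

theorem conj_eq_one {G : Type*} [Group G] {x y z : G} (h : x * y * x⁻¹ = z) (hy : y = 1) : z = 1 := by
  rw [← h, hy, mul_one, mul_inv_cancel]

/-- The relator of `(u,u,0,0)` in terms of the translations. -/
theorem qrel (h : Cox g) (n : ℕ) (hv : ev g wV2 ^ n = 1) :
    (∀ i, tr g i ^ n = tr g 3 ^ n) ∧ tr g 3 ^ (2 * n) = 1 := by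
  have hc := tr_comm g h
  have h23 : tr g 2 ^ n * tr g 3 ^ n = 1 := by
    rw [v2 g h, ev_rev g h _ (by decide), inv_pow, inv_eq_one, ev_app] at hv
    have hv' : (tr g 2 * tr g 3) ^ n = 1 := hv
    rwa [(hc 2 3).mul_pow] at hv'
  have i0 : g 0 * tr g 2 * (g 0)⁻¹ = tr g 2 := ctab g h (by omega) (k02 g h)
  have i03 : g 0 * tr g 3 * (g 0)⁻¹ = (tr g 3)⁻¹ := by
    have := ctab g h (by omega) (k03 g h)
    rwa [ev_rev g h _ (tw_lt 3)] at this
  have h23' : tr g 2 ^ n * (tr g 3 ^ n)⁻¹ = 1 := by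
    have := congrArg (MulAut.conj (g 0)) h23
    simp only [map_mul, map_pow, MulAut.conj_apply, map_one, i0, i03, inv_pow] at this
    simpa using this
  have e23 : tr g 2 ^ n = tr g 3 ^ n := mul_inv_eq_one.1 h23'
  have e33 : tr g 3 ^ n * tr g 3 ^ n = 1 := by rw [← e23] at h23 ⊢; rw [e23] at h23 ⊢; exact h23
  have i21 : g 2 * tr g 2 * (g 2)⁻¹ = tr g 1 := ctab g h (by omega) (k22 g h)
  have i23 : g 2 * tr g 3 * (g 2)⁻¹ = tr g 3 := ctab g h (by omega) (k23 g h)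
  have e13 : tr g 1 ^ n = tr g 3 ^ n := by
    rw [← i21, conj_pow, e23, ← conj_pow, i23]
  have i30 : g 3 * tr g 1 * (g 3)⁻¹ = tr g 0 := ctab g h (by omega) (k31 g h)
  have i33 : g 3 * tr g 3 * (g 3)⁻¹ = tr g 3 := ctab g h (by omega) (k33 g h)
  have e03 : tr g 0 ^ n = tr g 3 ^ n := by
    rw [← i30, conj_pow, e13, ← conj_pow, i33]
  refine ⟨?_, ?_⟩
  · intro i
    fin_cases i
    · exact e03
    · exact e13
    · exact e23
    · rfl
  · rw [two_mul, pow_add, e33]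

/-- The relator of `(u,u,u,u)` in terms of the translations. -/
theorem prel (h : Cox g) (n : ℕ) (hv : ev g wV4 ^ n = 1) :
    tr g 0 ^ n * tr g 1 ^ n * tr g 2 ^ n * tr g 3 ^ n = 1 ∧ ∀ i, tr g i ^ (2 * n) = 1 := by
  have hc := tr_comm g h
  have h1 : tr g 0 ^ n * tr g 1 ^ n * tr g 2 ^ n * tr g 3 ^ n = 1 := by
    rw [v4 g h, ev_rev g h _ (by decide), inv_pow, inv_eq_one, ev_app, ev_app, ev_app] at hv
    have hv' : (tr g 0 * (tr g 1 * (tr g 2 * tr g 3))) ^ n = 1 := hv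
    rw [((hc 0 1).mul_right ((hc 0 2).mul_right (hc 0 3))).mul_pow,
      ((hc 1 2).mul_right (hc 1 3)).mul_pow, (hc 2 3).mul_pow] at hv'
    rw [← hv']
    simp only [mul_assoc]
  have i0 : g 0 * tr g 0 * (g 0)⁻¹ = tr g 0 := ctab g h (by omega) (k00 g h)
  have i1 : g 0 * tr g 1 * (g 0)⁻¹ = tr g 1 := ctab g h (by omega) (k01 g h)
  have i2 : g 0 * tr g 2 * (g 0)⁻¹ = tr g 2 := ctab g h (by omega) (k02 g h)
  have i3 : g 0 * tr g 3 * (g 0)⁻¹ = (tr g 3)⁻¹ := by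
    have := ctab g h (by omega) (k03 g h)
    rwa [ev_rev g h _ (tw_lt 3)] at this
  have h2 : tr g 0 ^ n * tr g 1 ^ n * tr g 2 ^ n * (tr g 3 ^ n)⁻¹ = 1 := by
    have := congrArg (MulAut.conj (g 0)) h1
    simp only [map_mul, map_pow, MulAut.conj_apply, map_one, i0, i1, i2, i3, inv_pow] at this
    simpa using this
  have e3 : tr g 3 ^ (2 * n) = 1 := by
    have e4 : tr g 0 ^ n * tr g 1 ^ n * tr g 2 ^ n = tr g 3 ^ n := mul_inv_eq_one.1 h2
    rw [e4] at h1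
    rw [two_mul, pow_add, h1]
  have j2 : g 1 * tr g 3 * (g 1)⁻¹ = tr g 2 := ctab g h (by omega) (k13 g h)
  have e2 : tr g 2 ^ (2 * n) = 1 := by rw [← j2, conj_pow, e3, mul_one, mul_inv_cancel]
  have j1 : g 2 * tr g 2 * (g 2)⁻¹ = tr g 1 := ctab g h (by omega) (k22 g h)
  have e1 : tr g 1 ^ (2 * n) = 1 := by rw [← j1, conj_pow, e2, mul_one, mul_inv_cancel]
  have j0 : g 3 * tr g 1 * (g 3)⁻¹ = tr g 0 := ctab g h (by omega) (k31 g h)
  have e0 : tr g 0 ^ (2 * n) = 1 := by rw [← j0, conj_pow, e1, mul_one, mul_inv_cancel]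
  refine ⟨h1, ?_⟩
  intro i
  fin_cases i
  · exact e0
  · exact e1
  · exact e2
  · exact e3

/-- Q-type: translations with even sum. -/
theorem qtype (h : Cox g) (n : ℕ) (hv : ev g wV2 ^ n = 1) (k : Fin 4 → ℤ)
    (hk : Even (k 0 + k 1 + k 2 + k 3)) : pp (tr g) (fun i => n * k i) = 1 := by
  obtain ⟨he, h2⟩ := qrel g h n hv
  obtain ⟨r, hr⟩ := hk
  unfold pp
  simp only [zpow_mul, zpow_natCast, he]
  rw [← zpow_add, ← zpow_add, ← zpow_add, hr, ← two_mul, zpow_mul]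
  have : (tr g 3 ^ n) ^ (2 : ℤ) = 1 := by
    rw [show (2 : ℤ) = ((2 : ℕ) : ℤ) from rfl, zpow_natCast, ← pow_mul, mul_comm, h2]
  rw [this, one_zpow]

/-- P-type: translations with exponents of the same parity. -/
theorem ptype (h : Cox g) (n : ℕ) (hv : ev g wV4 ^ n = 1) (k : Fin 4 → ℤ)
    (hk : (∀ i, Even (k i)) ∨ (∀ i, Odd (k i))) : pp (tr g) (fun i => n * k i) = 1 := by
  obtain ⟨h1, h2⟩ := prel g h n hv
  have hs : ∀ i (r : ℤ), (tr g i ^ n) ^ (2 * r) = 1 := by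
    intro i r
    rw [zpow_mul]
    have : (tr g i ^ n) ^ (2 : ℤ) = 1 := by
      rw [show (2 : ℤ) = ((2 : ℕ) : ℤ) from rfl, zpow_natCast, ← pow_mul, mul_comm, h2]
    rw [this, one_zpow]
  unfold pp
  simp only [zpow_mul, zpow_natCast]
  rcases hk with hk | hk
  · have hz : ∀ i, (tr g i ^ n) ^ (k i) = 1 := by
      intro i
      obtain ⟨r, hr⟩ := hk i
      rw [hr, ← two_mul]
      exact hs i r
    rw [hz, hz, hz, hz]
    simp
  · have hz : ∀ i, (tr g i ^ n) ^ (k i) = tr g i ^ n := by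
      intro i
      obtain ⟨r, hr⟩ := hk i
      rw [hr, zpow_add, hs i r, zpow_one, one_mul]
    rw [hz, hz, hz, hz]
    exact h1

end Pool.Agent.Lib.MP_c2d01e_co.Ex.WrdC
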